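import Mathlib

/-!
# Simple objects of the category `C_c` : definitions

`G = Sp(2n)`, `n = m + k`, `m = l + 1`.  The standard basis of `F^{2n}` is
`e_1, …, e_m, e_{m+1}, …, e_n, f_1, …, f_m, f_{m+1}, …, f_n`, indexed by
`Idx l k = (Fin (l+1) ⊕ Fin k) ⊕ (Fin (l+1) ⊕ Fin k)`.
-/

noncomputable section

open Matrix

namespace Pool.Agent.GaiottoOsp

/-- The field `F = ℂ((t))`. The coefficient of `t ^ p` in `x` is `x.coeff p`. -/
abbrev F : Type := LaurentSeries ℂ

/-- The derivative `dx / dt`. -/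
def der (x : F) : F := LaurentSeries.derivative ℂ x

/-- The power `t ^ p`. -/
def tp (p : ℤ) : F := HahnSeries.single p (1 : ℂ)

/-- `x` lies in `O = ℂ[[t]]`. -/
def IsInt (x : F) : Prop := ∀ p : ℤ, p < 0 → x.coeff p = 0

/-- The residue of `x dt`. -/
def res (x : F) : ℂ := x.coeff (-1)

/-- The indices of the standard basis of `F^{2n}`, `n = (l + 1) + k`. The index `inl _` stands for a
basis vector `e`, the index `inr _` for a basis vector `f`. -/
abbrev Idx (l k : ℕ) : Type := (Fin (l + 1) ⊕ Fin k) ⊕ (Fin (l + 1) ⊕ Fin k)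

/-- The eigenvalue of `h` on a basis vector: `2m-1, 2m-3, …, 1` on `e_1, …, e_m`, the negatives on
`f_1, …, f_m`, and `0` on the other basis vectors. -/
def wt {l k : ℕ} : Idx l k → ℤ
  | Sum.inl (Sum.inl i) => 2 * ((l : ℤ) - (i : ℕ)) + 1
  | Sum.inr (Sum.inl i) => -(2 * ((l : ℤ) - (i : ℕ)) + 1)
  | Sum.inl (Sum.inr _) => 0
  | Sum.inr (Sum.inr _) => 0

/-- The inclusion of the basis of `F^{2k}` in the basis of `F^{2n}`. -/
def mid {l k : ℕ} : Fin k ⊕ Fin k → Idx l k
  | Sum.inl j => Sum.inl (Sum.inr j)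
  | Sum.inr j => Sum.inr (Sum.inr j)

/-- The index of the basis vector `e_m` of weight one. -/
def top {l k : ℕ} : Idx l k := Sum.inl (Sum.inl (Fin.last l))

/-- The symplectic form `∑ (x_{e_j} y_{f_j} - x_{f_j} y_{e_j})`. -/
def om {k : ℕ} (x y : Fin k ⊕ Fin k → F) : F :=
  ∑ i, (x (Sum.inl i) * y (Sum.inr i) - x (Sum.inr i) * y (Sum.inl i))

/-- The row of the nilpotent element `e` at `e_i`: `1` at `e_{i+1}`, and `-1/2` at `f_m` if `i = m`. -/
def rowE {l k : ℕ} (i : Fin (l + 1)) : Idx l k → F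
  | Sum.inl (Sum.inl j) => if (i : ℕ) + 1 = (j : ℕ) then 1 else 0
  | Sum.inr (Sum.inl j) => if (i : ℕ) = l ∧ (j : ℕ) = l then -(1 / 2) else 0
  | _ => 0

/-- The row of the nilpotent element `e` at `f_i`: `-1` at `f_{i-1}`. -/
def rowF {l k : ℕ} (i : Fin (l + 1)) : Idx l k → F
  | Sum.inr (Sum.inl j) => if (j : ℕ) + 1 = (i : ℕ) then -1 else 0
  | _ => 0

/-- The nilpotent element `e` of Jordan type `(2m, 1^{2k})`: `e_{i+1} ↦ e_i`, `f_i ↦ - f_{i+1}` for
`1 ≤ i < m` and `f_m ↦ - (1/2) e_m`. -/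
def eMat (l k : ℕ) : Matrix (Idx l k) (Idx l k) F
  | Sum.inl (Sum.inl i) => rowE i
  | Sum.inr (Sum.inl i) => rowF i
  | _ => fun _ => 0

/-- `g ∈ Sp(2n, F)`. -/
def InSp {l k : ℕ} (g : Matrix (Idx l k) (Idx l k) F) : Prop :=
  g * Matrix.J (Fin (l + 1) ⊕ Fin k) F * gᵀ = Matrix.J (Fin (l + 1) ⊕ Fin k) F

/-- `Y ∈ sp(2n, F)`. -/
def InLieSp {l k : ℕ} (Y : Matrix (Idx l k) (Idx l k) F) : Prop :=
  Yᵀ * Matrix.J (Fin (l + 1) ⊕ Fin k) F + Matrix.J (Fin (l + 1) ⊕ Fin k) F * Y = 0

/-- `h ∈ Sp(2n, O)`. -/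
def InGO {l k : ℕ} (h : Matrix (Idx l k) (Idx l k) F) : Prop :=
  InSp h ∧ ∀ a b, IsInt (h a b)

/-- The group `Γ = Sp(2k, O) ⋉ U_k(F)` inside `Sp(2n, F)`: the block triangular symplectic matrices
(with respect to the eigenvalues of `h`) with ones on the diagonal at the basis vectors of nonzero
weight and with a middle block with entries in `O`. -/
structure InGamma {l k : ℕ} (γ : Matrix (Idx l k) (Idx l k) F) : Prop where
  sp : InSp γ
  upper : ∀ a b, wt b < wt a → γ a b = 0
  diag : ∀ a b, wt a = wt b → wt a ≠ 0 → γ a b = if a = b then 1 else 0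
  int : ∀ a b, wt a = 0 → wt b = 0 → IsInt (γ a b)

/-- The middle block of a matrix, a matrix acting on `F^{2k}`. -/
def midBlock {l k : ℕ} (Y : Matrix (Idx l k) (Idx l k) F) :
    Matrix (Fin k ⊕ Fin k) (Fin k ⊕ Fin k) F := Y.submatrix mid mid

/-- The component in `F^{2k}` of the image of the basis vector `e_m` of weight one: on the Lie
algebra of `U_k(F)` this is the projection to `sp(2n)_{-1} ⊗ F = F^{2k}`. -/
def heisV {l k : ℕ} (Y : Matrix (Idx l k) (Idx l k) F) : Fin k ⊕ Fin k → F := fun j => Y (mid j) top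

/-- The residue of the pairing `Tr (e Y)`. -/
def psi {l k : ℕ} (Y : Matrix (Idx l k) (Idx l k) F) : ℂ :=
  res (Matrix.trace (eMat l k * Y))

/-- The character `c⁻¹ Res Tr (g' g⁻¹ Y) dt` of the stabiliser of the point `g G(O)`: the difference
of the two splittings (the one coming from `Γ` and the one coming from `g G(O) g⁻¹`) of the central
extension given by `c⁻¹` times the basic level `Tr (X Y)`. -/
def chi {l k : ℕ} (c : ℂ) (g Y : Matrix (Idx l k) (Idx l k) F) : ℂ :=
  c⁻¹ * res (Matrix.trace (g.map der * g⁻¹ * Y))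

/-- A map between complex vector spaces is linear. -/
def IsLin {M N : Type} [AddCommGroup M] [Module ℂ M] [AddCommGroup N] [Module ℂ N] (A : M → N) :
    Prop :=
  (∀ m m', A (m + m') = A m + A m') ∧ ∀ (r : ℂ) m, A (r • m) = r • A m

/-- An operator is locally nilpotent. -/
def LocallyNilpotent {M : Type} [AddCommGroup M] (A : M → M) : Prop :=
  ∀ m, ∃ N : ℕ, A^[N] m = 0

/-- An operator is diagonalisable with integral eigenvalues. -/
def IntegrallyDiagonalisable {M : Type} [AddCommGroup M] [Module ℂ M] (A : M → M) : Prop :=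
  ∀ m, m ∈ Submodule.span ℂ {v : M | ∃ d : ℤ, A v = (d : ℂ) • v}

/-- A discrete module over the (completed) Weyl algebra of the Tate space `F^{2k}` with the
symplectic form `Res ⟨x, y⟩ dt`: the generator `x ∈ F^{2k}` acts by `act x`, and each vector is
annihilated by a lattice `t^N O^{2k}`. -/
structure WeylMod (k : ℕ) where
  /-- the underlying vector space -/
  M : Type
  [grp : AddCommGroup M]
  [mod : Module ℂ M]
  /-- the action of the generators of the Weyl algebra -/
  act : (Fin k ⊕ Fin k → F) → M → M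
  lin : ∀ x, IsLin (act x)
  add : ∀ x y m, act (x + y) m = act x m + act y m
  smul : ∀ (r : ℂ) x m, act (r • x) m = r • act x m
  comm : ∀ x y m, act x (act y m) - act y (act x m) = res (om x y) • m
  discrete : ∀ m, ∃ N : ℤ, ∀ x, (∀ i, ∀ p < N, (x i).coeff p = 0) → act x m = 0

attribute [instance] WeylMod.grp WeylMod.mod

/-- A module over the Weyl algebra is simple. -/
def WeylMod.Simple {k : ℕ} (W : WeylMod k) : Prop :=
  (∃ m : W.M, m ≠ 0) ∧
    ∀ Z : Submodule ℂ W.M, (∀ x, ∀ m ∈ Z, W.act x m ∈ Z) → Z = ⊥ ∨ Z = ⊤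

/-- The Lie algebra of `Γ`: the elements of `sp(2n, F)` whose part of degree zero lies in
`sp(2k, O)` and whose parts of positive degree vanish. -/
structure InLieGamma {l k : ℕ} (Y : Matrix (Idx l k) (Idx l k) F) : Prop where
  sp : InLieSp Y
  upper : ∀ a b, wt b < wt a → Y a b = 0
  diag : ∀ a b, wt a = wt b → wt a ≠ 0 → Y a b = 0
  int : ∀ a b, wt a = 0 → wt b = 0 → IsInt (Y a b)

/-- `T` is the action of the Lie algebra of `Γ = Sp(2k, O) ⋉ U_k(F)` on the module `W` through the
completed Weyl algebra. The Lie algebra of `U_k(F)` acts through its Heisenberg quotient (`heis`);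
`sp(2k, O)` acts by quadratic elements (`comm`); the operators come from the completed Weyl algebra,
so they commute with all endomorphisms of `W` (`natural`). There is at most one such `T`, because
`sp(2k, O)` is a perfect Lie algebra. -/
structure IsAction {l k : ℕ} (W : WeylMod k) (T : Matrix (Idx l k) (Idx l k) F → W.M → W.M) :
    Prop where
  lin : ∀ Y, InLieGamma Y → IsLin (T Y)
  add : ∀ Y Z, InLieGamma Y → InLieGamma Z → ∀ m, T (Y + Z) m = T Y m + T Z m
  smul : ∀ (r : ℂ) Y, InLieGamma Y → ∀ m, T (r • Y) m = r • T Y m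
  bracket : ∀ Y Z, InLieGamma Y → InLieGamma Z → ∀ m,
    T (Y * Z - Z * Y) m = T Y (T Z m) - T Z (T Y m)
  comm : ∀ Y, InLieGamma Y → ∀ x m, T Y (W.act x m) - W.act x (T Y m) =
    W.act (midBlock Y *ᵥ x) m + res (om (heisV Y) x) • m
  heis : ∀ Y, InLieGamma Y → midBlock Y = 0 → ∀ m, T Y m = W.act (heisV Y) m + psi Y • m
  natural : ∀ φ : W.M → W.M, IsLin φ → (∀ x m, φ (W.act x m) = W.act x (φ m)) →
    ∀ Y, InLieGamma Y → ∀ m, φ (T Y m) = T Y (φ m)

/-- The matrix `g⁻¹ Y g`. -/
def conj {l k : ℕ} (g Y : Matrix (Idx l k) (Idx l k) F) : Matrix (Idx l k) (Idx l k) F :=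
  g⁻¹ * Y * g

/-- `Y` lies in the Lie algebra of the stabiliser of the point `g G(O)` in `Γ`. -/
def InStabiliser {l k : ℕ} (g Y : Matrix (Idx l k) (Idx l k) F) : Prop :=
  InLieGamma Y ∧ ∀ a b, IsInt (conj g Y a b)

/-- The matrix is nilpotent modulo `t`. -/
def NilpotentModT {l k : ℕ} (Z : Matrix (Idx l k) (Idx l k) F) : Prop :=
  IsNilpotent (Z.map fun x => x.coeff 0)

/-- The matrix is tangent to a one-parameter subgroup `ℂˣ → G(O)`, it is `h d h⁻¹` with `h ∈ G(O)`
and `d` diagonal with integral entries. -/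
def IsCocharacter {l k : ℕ} (Z : Matrix (Idx l k) (Idx l k) F) : Prop :=
  ∃ h, InGO h ∧ ∃ d : Idx l k → ℤ, Z = h * Matrix.diagonal (fun i => (d i : F)) * h⁻¹

/-- The module `W` with the point `g G(O)` of the affine Grassmannian is an equivariant object: the
action `Y ↦ T Y + χ_g(Y)` of the Lie algebra of the stabiliser of `g G(O)` in `Γ` integrates to an
action of the stabiliser, a connected pro-algebraic group contained in `g G(O) g⁻¹`.  That is: the
elements `Y` with `g⁻¹ Y g` nilpotent modulo `t` act locally nilpotently, and the elements `Y`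
tangent to a one-parameter subgroup `ℂˣ → g G(O) g⁻¹` act semisimply with integral eigenvalues. -/
def IsEquivariant {l k : ℕ} (c : ℂ) (g : Matrix (Idx l k) (Idx l k) F) (W : WeylMod k) : Prop :=
  ∃ T : Matrix (Idx l k) (Idx l k) F → W.M → W.M, IsAction W T ∧ ∀ Y, InStabiliser g Y →
    (NilpotentModT (conj g Y) → LocallyNilpotent fun m => T Y m + chi c g Y • m) ∧
    (IsCocharacter (conj g Y) → IntegrallyDiagonalisable fun m => T Y m + chi c g Y • m)

/-- A simple equivariant pair: a point `g G(O)` of the affine Grassmannian of `Sp(2n)` and a simple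
discrete module over the Weyl algebra which is equivariant for the stabiliser of this point in `Γ`,
with the twist `c⁻¹`. -/
structure SimplePair (c : ℂ) (l k : ℕ) where
  /-- the point of the affine Grassmannian -/
  g : Matrix (Idx l k) (Idx l k) F
  /-- the module over the Weyl algebra -/
  W : WeylMod k
  inSp : InSp g
  simple : W.Simple
  equivariant : IsEquivariant c g W

/-- `φ` is an isomorphism of modules over the Weyl algebra covering the affine symplectic
transformation of `F^{2k}` given by `γ ∈ Γ`. -/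
structure IsIsoOver {l k : ℕ} (γ : Matrix (Idx l k) (Idx l k) F) (W W' : WeylMod k)
    (φ : W.M → W'.M) : Prop where
  lin : IsLin φ
  bij : Function.Bijective φ
  comm : ∀ x m, φ (W.act x m) = W'.act (midBlock γ *ᵥ x) (φ m) +
    res (om (heisV γ) (midBlock γ *ᵥ x)) • φ m

/-- Two simple equivariant pairs define the same `Γ`-equivariant object: there are `γ ∈ Γ` and
`h ∈ G(O)` with `g' = γ g h`, and an isomorphism of the modules covering the affine symplectic
transformation of `F^{2k}` given by `γ`. -/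
def SimplePair.Iso {c : ℂ} {l k : ℕ} (P Q : SimplePair c l k) : Prop :=
  ∃ γ h, InGamma γ ∧ InGO h ∧ Q.g = γ * P.g * h ∧ ∃ φ, IsIsoOver γ P.W Q.W φ

/-- The point `t^{(λ, μ)}`: the diagonal matrix with the entries `t^{-λ_i}` at `e_i` and `t^{λ_i}` at
`f_i` for `i ≤ m`, and `t^{μ_j}` at `e_{m+j}` and `t^{-μ_j}` at `f_{m+j}` for `j ≤ k`. -/
def tPoint {l k : ℕ} (lam : Fin (l + 1) → ℤ) (mu : Fin k → ℤ) : Matrix (Idx l k) (Idx l k) F :=
  Matrix.diagonal fun
    | Sum.inl (Sum.inl i) => tp (-lam i)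
    | Sum.inl (Sum.inr j) => tp (mu j)
    | Sum.inr (Sum.inl i) => tp (lam i)
    | Sum.inr (Sum.inr j) => tp (-mu j)

/-- The `(n | k)`-hook diagrams, `n = (l + 1) + k`: the Young diagrams whose row number `k + 1` has
at most `n` boxes.  They parametrise the irreducible representations of `SOSp(2n+1|2k)`. -/
def HookDiagram (l k : ℕ) : Type := {Y : YoungDiagram // Y.rowLen k ≤ l + 1 + k}

/-- The number of boxes to the right of the box `(j, m + j)` (rows and columns are numbered from
`0`). -/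
def arm {l k : ℕ} (Y : HookDiagram l k) (j : Fin k) : ℕ := Y.1.rowLen j - (l + 1 + j + 1)

/-- The number of boxes of the column `m + j` which are in the row `j` or below it. -/
def leg {l k : ℕ} (Y : HookDiagram l k) (j : Fin k) : ℕ := Y.1.colLen (l + 1 + j) - j

/-- The isotropic lattice in `F^{2k}` attached to a hook diagram: the coefficient of `x` at `e_{m+j}`
lies in `t^{arm + 1} O` (in `O` if the diagram has no box `(j, m + j)`) and the coefficient at
`f_{m+j}` lies in `t^{-arm} O`. -/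
def InLattice {l k : ℕ} (Y : HookDiagram l k) (x : Fin k ⊕ Fin k → F) : Prop :=
  ∀ j, (∀ p < (if leg Y j = 0 then 0 else (arm Y j : ℤ) + 1), (x (Sum.inl j)).coeff p = 0) ∧
    ∀ p < -(arm Y j : ℤ), (x (Sum.inr j)).coeff p = 0

/-- The vector `v` is nonzero, annihilated by the lattice of the hook diagram, and for each box
`(j, m + j)` of the diagram it is an eigenvector of the product of `t^{-1-arm} f_{m+j}` and
`t^{arm} e_{m+j}` with the eigenvalue `2 (arm + leg) / c`. -/
structure IsVacuum {l k : ℕ} (c : ℂ) (Y : HookDiagram l k) (W : WeylMod k) (v : W.M) : Prop where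
  ne_zero : v ≠ 0
  lattice : ∀ x, InLattice Y x → W.act x v = 0
  eigen : ∀ j, leg Y j ≠ 0 →
    W.act (Pi.single (Sum.inr j) (tp (-1 - arm Y j))) (W.act (Pi.single (Sum.inl j) (tp (arm Y j))) v) =
      (2 * (arm Y j + leg Y j : ℂ) / c) • v

end Pool.Agent.GaiottoOsp
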