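import Pool.Agent.H143_GC.Final
import Pool.Agent.H143_GC.Stmt

/-! Comparison of the two forms of the definitions. -/

noncomputable section

open Matrix

open scoped Classical

namespace Pool.Agent.H143_GC

variable {l k : ℕ}


theorem wt_eq (a : Idx l k) : GaiottoOsp.wt a = wt a := by
  rcases a with (a | a) | (a | a) <;> rfl

theorem mid_eq (a : Fin k ⊕ Fin k) : (GaiottoOsp.mid a : Idx l k) = mid a := by
  rcases a with a | a <;> rfl

theorem int_eq (x : F) : GaiottoOsp.IsInt x = IsInt x := rfl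

theorem om_eq' (x y : Fin k ⊕ Fin k → F) : GaiottoOsp.om x y = om x y := rfl

theorem res_eq (x : F) : GaiottoOsp.res x = res x := rfl

theorem tp_eq' (p : ℤ) : GaiottoOsp.tp p = tp p := rfl

theorem sp_eq (g : Matrix (Idx l k) (Idx l k) F) : GaiottoOsp.InSp g = InSp g := rfl

theorem lsp_eq (g : Matrix (Idx l k) (Idx l k) F) : GaiottoOsp.InLieSp g = InLieSp g := rfl

theorem midBlock_eq (Y : Matrix (Idx l k) (Idx l k) F) : GaiottoOsp.midBlock Y = midBlock Y := by
  funext a b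
  change Y (GaiottoOsp.mid a) (GaiottoOsp.mid b) = Y (mid a) (mid b)
  rw [mid_eq, mid_eq]

theorem heisV_eq (Y : Matrix (Idx l k) (Idx l k) F) : GaiottoOsp.heisV Y = heisV Y := by
  funext a
  change Y (GaiottoOsp.mid a) GaiottoOsp.top = Y (mid a) top
  rw [mid_eq]
  rfl

theorem eMat_eq : (GaiottoOsp.eMat l k : Matrix (Idx l k) (Idx l k) F) = eMat l k := by
  funext a b
  rcases a with (a | a) | (a | a) <;> rcases b with (b | b) | (b | b) <;> rfl

theorem psi_eq (Y : Matrix (Idx l k) (Idx l k) F) : GaiottoOsp.psi Y = psi Y := by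
  have h : GaiottoOsp.psi Y = (fun e : Matrix (Idx l k) (Idx l k) F =>
      res (Matrix.trace (e * Y))) (GaiottoOsp.eMat l k) := rfl
  rw [h, eMat_eq]
  rfl

theorem chi_eq' (c : ℂ) (g Y : Matrix (Idx l k) (Idx l k) F) :
    GaiottoOsp.chi c g Y = chi c g Y := rfl

theorem smul_eq (r : ℂ) (x : F) : ((r • (show LaurentSeries ℂ from x) : LaurentSeries ℂ) : F) =
    r • x := by
  have h : r • x = (HahnSeries.C r * (show LaurentSeries ℂ from x) : LaurentSeries ℂ) := rfl
  rw [h, HahnSeries.C_mul_eq_smul]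

theorem gamma_iff (γ : Matrix (Idx l k) (Idx l k) F) : GaiottoOsp.InGamma γ ↔ InGamma γ := by
  constructor
  · intro h
    refine ⟨h.sp, fun a b hab => h.upper a b ?_, fun a b hab ha => h.diag a b ?_ ?_,
      fun a b ha hb => h.int a b ?_ ?_⟩
    all_goals simp only [wt_eq]; assumption
  · intro h
    refine ⟨h.sp, fun a b hab => h.upper a b ?_, fun a b hab ha => ?_,
      fun a b ha hb => h.int a b ?_ ?_⟩
    · simp only [wt_eq] at hab; assumption
    · simp only [wt_eq] at hab ha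
      exact h.diag a b hab ha
    · simp only [wt_eq] at ha; assumption
    · simp only [wt_eq] at hb; assumption

theorem go_iff (h : Matrix (Idx l k) (Idx l k) F) : GaiottoOsp.InGO h ↔ InGO h := Iff.rfl

/-- a linear map from a function -/
def linOf {M N : Type} [AddCommGroup M] [Module ℂ M] [AddCommGroup N] [Module ℂ N] (A : M → N)
    (h : GaiottoOsp.IsLin A) : M →ₗ[ℂ] N where
  toFun := A
  map_add' := h.1
  map_smul' := h.2

theorem linOf_apply {M N : Type} [AddCommGroup M] [Module ℂ M] [AddCommGroup N]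
    [Module ℂ N] (A : M → N) (h : GaiottoOsp.IsLin A) (m : M) : linOf A h m = A m := rfl

theorem isLin_of {M N : Type} [AddCommGroup M] [Module ℂ M] [AddCommGroup N] [Module ℂ N]
    (A : M →ₗ[ℂ] N) : GaiottoOsp.IsLin A := ⟨map_add A, map_smul A⟩

/-- the smul on vectors -/
theorem vsmul_eq (r : ℂ) (x : Fin k ⊕ Fin k → F) :
    ((r • (show Fin k ⊕ Fin k → LaurentSeries ℂ from x) : Fin k ⊕ Fin k → LaurentSeries ℂ) :
      Fin k ⊕ Fin k → F) = r • x := funext fun i => smul_eq r (x i)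

theorem msmul_eq (r : ℂ) (Y : Matrix (Idx l k) (Idx l k) F) :
    ((r • (show Matrix (Idx l k) (Idx l k) (LaurentSeries ℂ) from Y) :
      Matrix (Idx l k) (Idx l k) (LaurentSeries ℂ)) : Matrix (Idx l k) (Idx l k) F) = r • Y :=
  funext fun a => funext fun b => smul_eq r (Y a b)

/-- The internal form of a module. -/
def toW (W : GaiottoOsp.WeylMod k) : WeylModule k where
  M := W.M
  a :=
    { toFun := fun x => linOf (W.act x) (W.lin x)
      map_add' := fun x y => LinearMap.ext fun m => W.add x y m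
      map_smul' := fun r x => LinearMap.ext fun m => by
        have h := W.smul r x m
        change W.act (r • x) m = r • W.act x m
        rw [← h]
        exact congrArg (fun z => W.act z m) (vsmul_eq r x).symm }
  comm := W.comm
  discrete := W.discrete

/-- A module from its internal form. -/
def toM (W : WeylModule k) : GaiottoOsp.WeylMod k where
  M := W.M
  act x m := W.a x m
  lin x := ⟨map_add (W.a x), map_smul (W.a x)⟩
  add x y m := LinearMap.congr_fun (map_add W.a x y) m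
  smul r x m := by
    have h : ∀ x : Fin k ⊕ Fin k → F, W.a (r • x) m = r • W.a x m := fun x => by
      rw [map_smul]; rfl
    exact (congrArg (fun z : Fin k ⊕ Fin k → F => W.a z m) (vsmul_eq r x)).trans (h x)
  comm := W.comm
  discrete := W.discrete

theorem iter_eq {M : Type} [AddCommGroup M] [Module ℂ M] (A : Module.End ℂ M) (n : ℕ) (m : M) :
    (A ^ n) m = (fun m => A m)^[n] m := by
  induction n generalizing m with
  | zero => rfl
  | succ n ih =>
    rw [pow_succ, Module.End.mul_apply, ih, Function.iterate_succ, Function.comp_apply]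

theorem locNil_iff_fun {M : Type} [AddCommGroup M] [Module ℂ M] (A : Module.End ℂ M) :
    LocNil A ↔ GaiottoOsp.LocallyNilpotent fun m => A m := by
  unfold LocNil GaiottoOsp.LocallyNilpotent
  simp only [iter_eq]

theorem intDiag_iff_fun {M : Type} [AddCommGroup M] [Module ℂ M] (A : Module.End ℂ M) :
    IntDiag A ↔ GaiottoOsp.IntegrallyDiagonalisable fun m => A m := Iff.rfl

theorem mem_lieGamma {Y : Matrix (Idx l k) (Idx l k) F} :
    Y ∈ lieGamma l k ↔ GaiottoOsp.InLieGamma Y := by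
  constructor
  · intro h
    refine ⟨h.1, fun a b hab => h.2.1 a b ?_, fun a b hab ha => ?_,
      fun a b ha hb => h.2.2.2 a b ?_ ?_⟩
    · simp only [wt_eq] at hab; assumption
    · simp only [wt_eq] at hab ha
      exact h.2.2.1 a b hab ha
    · simp only [wt_eq] at ha; assumption
    · simp only [wt_eq] at hb; assumption
  · intro h
    refine ⟨h.sp, fun a b hab => h.upper a b ?_, fun a b hab ha => h.diag a b ?_ ?_,
      fun a b ha hb => h.int a b ?_ ?_⟩
    all_goals simp only [wt_eq]; assumption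

theorem simple_toW {W : GaiottoOsp.WeylMod k} (h : W.Simple) : (toW W).IsSimple := h

theorem simple_toM {W : WeylModule k} (h : W.IsSimple) : (toM W).Simple := h

theorem lie_mem {Y Z : Matrix (Idx l k) (Idx l k) F} (hY : Y ∈ lieGamma l k)
    (hZ : Z ∈ lieGamma l k) : Y * Z - Z * Y ∈ lieGamma l k := by
  have tY := hY.2.1
  have tZ := hZ.2.1
  have d1 : ∀ (P Q : Matrix (Idx l k) (Idx l k) F), P ∈ lieGamma l k → Q ∈ lieGamma l k →
      ∀ a b, wt a = wt b → wt a ≠ 0 → (P * Q) a b = 0 := by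
    intro P Q hP hQ a b hab ha
    rw [Matrix.mul_apply]
    refine Finset.sum_eq_zero fun c _ => ?_
    rcases lt_trichotomy (wt c) (wt a) with h | h | h
    · rw [hP.2.1 a c h, zero_mul]
    · rw [hP.2.2.1 a c h.symm ha, zero_mul]
    · rw [hQ.2.1 c b (by omega), mul_zero]
  have i1 : ∀ (P Q : Matrix (Idx l k) (Idx l k) F), P ∈ lieGamma l k → Q ∈ lieGamma l k →
      ∀ a b, wt a = 0 → wt b = 0 → IsInt ((P * Q) a b) := by
    intro P Q hP hQ a b ha hb
    rw [Matrix.mul_apply]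
    refine OG.sum fun c _ => ?_
    rcases lt_trichotomy (wt c) (wt a) with h | h | h
    · rw [hP.2.1 a c h, zero_mul]
      exact OG.zero 0
    · exact IsInt.mul (hP.2.2.2 a c ha (by omega)) (hQ.2.2.2 c b (by omega) hb)
    · rw [hQ.2.1 c b (by omega), mul_zero]
      exact OG.zero 0
  refine ⟨?_, ?_, ?_, ?_⟩
  · have h1 := hY.1
    have h2 := hZ.1
    unfold InLieSp at h1 h2 ⊢
    rw [Matrix.transpose_sub, Matrix.transpose_mul, Matrix.transpose_mul]
    have e1 : Yᵀ * Matrix.J (Fin (l + 1) ⊕ Fin k) F = -(Matrix.J (Fin (l + 1) ⊕ Fin k) F * Y) :=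
      eq_neg_of_add_eq_zero_left h1
    have e2 : Zᵀ * Matrix.J (Fin (l + 1) ⊕ Fin k) F = -(Matrix.J (Fin (l + 1) ⊕ Fin k) F * Z) :=
      eq_neg_of_add_eq_zero_left h2
    rw [Matrix.sub_mul, Matrix.mul_assoc, Matrix.mul_assoc, e1, e2, Matrix.mul_neg, Matrix.mul_neg,
      ← Matrix.mul_assoc, ← Matrix.mul_assoc, e1, e2, Matrix.mul_sub, Matrix.neg_mul,
      Matrix.neg_mul, Matrix.mul_assoc, Matrix.mul_assoc]
    abel
  · intro a b hab
    rw [Matrix.sub_apply, (Tri l k).mul_mem tY tZ a b hab, (Tri l k).mul_mem tZ tY a b hab,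
      sub_zero]
  · intro a b hab ha
    rw [Matrix.sub_apply, d1 Y Z hY hZ a b hab ha, d1 Z Y hZ hY a b hab ha, sub_zero]
  · intro a b ha hb
    rw [Matrix.sub_apply]
    exact OG.sub (i1 Y Z hY hZ a b ha hb) (i1 Z Y hZ hY a b ha hb)

theorem conj_eq (g Y : Matrix (Idx l k) (Idx l k) F) : GaiottoOsp.conj g Y = g⁻¹ * Y * g := rfl

theorem stab_iff {g Y : Matrix (Idx l k) (Idx l k) F} :
    GaiottoOsp.InStabiliser g Y ↔ Y ∈ lieGamma l k ∧ ∀ a b, IsInt ((g⁻¹ * Y * g) a b) :=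
  and_congr mem_lieGamma.symm Iff.rfl

theorem nilp_iff {Z : Matrix (Idx l k) (Idx l k) F} :
    GaiottoOsp.NilpotentModT Z ↔ IsNilpotent (Z.map fun x => x.coeff 0) := Iff.rfl

theorem coch_iff {Z : Matrix (Idx l k) (Idx l k) F} :
    GaiottoOsp.IsCocharacter Z ↔ ∃ h, InGO h ∧ ∃ d : Idx l k → ℤ, Z =
          h * Matrix.diagonal (fun i => (d i : F)) * h⁻¹ := Iff.rfl

theorem equi_toW {c : ℂ} {g : Matrix (Idx l k) (Idx l k) F} {W : GaiottoOsp.WeylMod k}
    (h : GaiottoOsp.IsEquivariant c g W) : IsEquivariant c g (toW W) := by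
  obtain ⟨T, hT, hE⟩ := h
  have hl : ∀ Y : lieGamma l k, GaiottoOsp.InLieGamma (Y : Matrix (Idx l k) (Idx l k) F) :=
    fun Y => mem_lieGamma.1 Y.2
  let T' : lieGamma l k →ₗ[ℂ] Module.End ℂ W.M :=
    { toFun := fun Y => linOf (T (Y : Matrix (Idx l k) (Idx l k) F)) (hT.lin _ (hl Y))
      map_add' := fun Y Z => LinearMap.ext fun m => hT.add _ _ (hl Y) (hl Z) m
      map_smul' := fun r Y => LinearMap.ext fun m => by
        have h := hT.smul r _ (hl Y) m
        change T (r • (Y : Matrix (Idx l k) (Idx l k) F)) m =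
          r • T (Y : Matrix (Idx l k) (Idx l k) F) m
        rw [← h]
        exact congrArg (fun z => T z m) (msmul_eq r (Y : Matrix (Idx l k) (Idx l k) F)).symm }
  refine ⟨T', ?_, fun Y hY => ?_⟩
  · refine ⟨fun X Y Z hX m => ?_, fun Y x m => ?_, fun Y hY m => ?_, fun φ hφ Y m => ?_⟩
    · have h := hT.bracket _ _ (hl Y) (hl Z) m
      have e : T (X : Matrix (Idx l k) (Idx l k) F) m =
          T ((Y : Matrix (Idx l k) (Idx l k) F) * (Z : Matrix (Idx l k) (Idx l k) F) -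
            (Z : Matrix (Idx l k) (Idx l k) F) * (Y : Matrix (Idx l k) (Idx l k) F)) m := by
        rw [← hX]
      exact e.trans h
    · have h := hT.comm _ (hl Y) x m
      rw [midBlock_eq, heisV_eq] at h
      exact h
    · have h := hT.heis _ (hl Y) ((midBlock_eq _).trans hY) m
      rw [heisV_eq, psi_eq] at h
      exact h
    · exact hT.natural φ (isLin_of φ) hφ _ (hl Y) m
  · have h12 := hE (Y : Matrix (Idx l k) (Idx l k) F) (stab_iff.2 ⟨Y.2, hY⟩)
    refine ⟨fun hn => ?_, fun hd => ?_⟩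
    · have h1 := h12.1 (nilp_iff.2 hn)
      rw [locNil_iff_fun]
      intro m
      obtain ⟨N, hN⟩ := h1 m
      refine ⟨N, ?_⟩
      exact hN
    · have h2 := h12.2 (coch_iff.2 hd)
      intro m
      have h3 := h2 m
      exact h3

/-- a combination of an operator and a scalar -/
def rhsC (W : WeylModule k) (x : Fin k ⊕ Fin k → F) (z : ℂ) (m : W.M) : W.M :=
  W.a x m + z • m

theorem equi_toM {c : ℂ} {g : Matrix (Idx l k) (Idx l k) F} {W : WeylModule k}
    (h : IsEquivariant c g W) : GaiottoOsp.IsEquivariant c g (toM W) := by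
  obtain ⟨T, hT, hE⟩ := h
  let T' : Matrix (Idx l k) (Idx l k) F → W.M → W.M := fun Y m =>
    if h : Y ∈ lieGamma l k then T ⟨Y, h⟩ m else 0
  have hT' : ∀ (Y : Matrix (Idx l k) (Idx l k) F) (h : Y ∈ lieGamma l k) (m : W.M),
      T' Y m = T ⟨Y, h⟩ m := fun Y h m => dif_pos h
  have f1 : ∀ Y : Matrix (Idx l k) (Idx l k) F, Y ∈ lieGamma l k → ∀ m m' : W.M,
      T' Y (m + m') = T' Y m + T' Y m' := fun Y h m m' => by
    rw [hT' Y h, hT' Y h, hT' Y h, map_add]
  have f2 : ∀ Y : Matrix (Idx l k) (Idx l k) F, Y ∈ lieGamma l k → ∀ (r : ℂ) (m : W.M),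
      T' Y (r • m) = r • T' Y m := fun Y h r m => by
    rw [hT' Y h, hT' Y h, map_smul]
  have f3 : ∀ Y Z : Matrix (Idx l k) (Idx l k) F, Y ∈ lieGamma l k → Z ∈ lieGamma l k →
      ∀ m : W.M, T' (Y + Z) m = T' Y m + T' Z m := fun Y Z h h' m => by
    rw [hT' Y h, hT' Z h', hT' (Y + Z) ((lieGamma l k).add_mem h h')]
    exact LinearMap.congr_fun (map_add T ⟨Y, h⟩ ⟨Z, h'⟩) m
  have f4 : ∀ (r : ℂ) (Y : Matrix (Idx l k) (Idx l k) F), Y ∈ lieGamma l k → ∀ m : W.M,
      T' (r • Y) m = r • T' Y m := fun r Y h m => by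
    have e : (⟨r • Y, (lieGamma l k).smul_mem r h⟩ : lieGamma l k) =
        r • (⟨Y, h⟩ : lieGamma l k) := Subtype.ext rfl
    rw [hT' Y h, hT' (r • Y) ((lieGamma l k).smul_mem r h), e, map_smul]
    rfl
  have f5 : ∀ Y Z : Matrix (Idx l k) (Idx l k) F, Y ∈ lieGamma l k → Z ∈ lieGamma l k →
      ∀ m : W.M, T' (Y * Z - Z * Y) m = T' Y (T' Z m) - T' Z (T' Y m) := fun Y Z h h' m => by
    rw [hT' Z h', hT' Y h, hT' Y h, hT' Z h', hT' _ (lie_mem h h')]
    exact hT.bracket ⟨_, lie_mem h h'⟩ ⟨Y, h⟩ ⟨Z, h'⟩ rfl m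
  have f6 : ∀ Y : Matrix (Idx l k) (Idx l k) F, Y ∈ lieGamma l k → ∀ x (m : W.M),
      T' Y (W.a x m) - W.a x (T' Y m) = W.a (midBlock Y *ᵥ x) m + res (om (heisV Y) x) • m :=
    fun Y h x m => by
    rw [hT' Y h, hT' Y h]
    exact hT.comm ⟨Y, h⟩ x m
  have f7 : ∀ Y : Matrix (Idx l k) (Idx l k) F, Y ∈ lieGamma l k → midBlock Y = 0 →
      ∀ m : W.M, T' Y m = W.a (heisV Y) m + psi Y • m := fun Y h h0 m => by
    rw [hT' Y h]
    exact hT.heis ⟨Y, h⟩ h0 m
  refine ⟨T', ?_, fun Y hY => ?_⟩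
  · refine ⟨fun Y h => ⟨f1 Y (mem_lieGamma.2 h), f2 Y (mem_lieGamma.2 h)⟩,
      fun Y Z h h' m => f3 Y Z (mem_lieGamma.2 h) (mem_lieGamma.2 h') m, fun r Y h m => ?_,
      fun Y Z h h' m => f5 Y Z (mem_lieGamma.2 h) (mem_lieGamma.2 h') m, fun Y h x m => ?_,
      fun Y h h0 m => ?_, fun φ h1 h2 Y h m => ?_⟩
    · have e := congrArg (fun z => T' z m) (msmul_eq r Y)
      exact e.trans (f4 r Y (mem_lieGamma.2 h) m)
    · exact (f6 Y (mem_lieGamma.2 h) x m).trans (congrArg₂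
        (fun (A : Matrix (Fin k ⊕ Fin k) (Fin k ⊕ Fin k) F) (v : Fin k ⊕ Fin k → F) =>
          rhsC W (A *ᵥ x) (res (om v x)) m) (midBlock_eq Y) (heisV_eq Y)).symm
    · exact (f7 Y (mem_lieGamma.2 h) ((midBlock_eq Y).symm.trans h0) m).trans (congrArg₂
        (fun (v : Fin k ⊕ Fin k → F) (z : ℂ) => rhsC W v z m) (heisV_eq Y) (psi_eq Y)).symm
    · have e1 := hT' Y (mem_lieGamma.2 h)
      have e2 := hT.natural (linOf φ h1) h2 ⟨Y, mem_lieGamma.2 h⟩ m
      exact ((congrArg φ (e1 m)).trans e2).trans (e1 (φ m)).symm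
  · obtain ⟨hY1, hY2⟩ := stab_iff.1 hY
    obtain ⟨h1, h2⟩ := hE ⟨Y, hY1⟩ hY2
    have e : (fun m : W.M => T' Y m + chi c g Y • m) =
        fun m => (T ⟨Y, hY1⟩ + chi c g Y • (1 : Module.End ℂ W.M)) m := by
      funext m
      rw [hT' Y hY1]
      rfl
    refine ⟨fun hn => ?_, fun hd => ?_⟩
    · have h3 := (locNil_iff_fun _).1 (h1 (nilp_iff.1 hn))
      change GaiottoOsp.LocallyNilpotent (fun m : W.M => T' Y m + chi c g Y • m)
      rw [e]
      exact h3
    · have h3 := (intDiag_iff_fun _).1 (h2 (coch_iff.1 hd))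
      change GaiottoOsp.IntegrallyDiagonalisable (fun m : W.M => T' Y m + chi c g Y • m)
      rw [e]
      exact h3

/-- The internal form of a pair. -/
def toS {c : ℂ} (P : GaiottoOsp.SimplePair c l k) : SimplePair c l k where
  g := P.g
  W := toW P.W
  inSp := P.inSp
  simple := simple_toW P.simple
  equivariant := equi_toW P.equivariant

/-- The external form of a pair. -/
def toP {c : ℂ} (P : SimplePair c l k) : GaiottoOsp.SimplePair c l k where
  g := P.g
  W := toM P.W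
  inSp := P.inSp
  simple := simple_toM P.simple
  equivariant := equi_toM P.equivariant

theorem iso_iff {c : ℂ} (P : GaiottoOsp.SimplePair c l k) (Q : SimplePair c l k) :
    P.Iso (toP Q) ↔ (toS P).Rel Q := by
  have key : ∀ (γ : Matrix (Idx l k) (Idx l k) F) (x : Fin k ⊕ Fin k → F) (m : Q.W.M),
      rhsC Q.W (GaiottoOsp.midBlock γ *ᵥ x)
        (GaiottoOsp.res (GaiottoOsp.om (GaiottoOsp.heisV γ) (GaiottoOsp.midBlock γ *ᵥ x))) m =
      rhsC Q.W (midBlock γ *ᵥ x) (res (om (heisV γ) (midBlock γ *ᵥ x))) m := fun γ x m =>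
    congrArg₂ (fun (A : Matrix (Fin k ⊕ Fin k) (Fin k ⊕ Fin k) F) (v : Fin k ⊕ Fin k → F) =>
      rhsC Q.W (A *ᵥ x) (res (om v (A *ᵥ x))) m) (midBlock_eq γ) (heisV_eq γ)
  constructor
  · rintro ⟨γ, h, hγ, hh, e, φ, hφ⟩
    refine ⟨γ, h, (gamma_iff γ).1 hγ, hh, e, LinearEquiv.ofBijective (linOf φ hφ.lin) hφ.bij,
      fun x m => ?_⟩
    exact (hφ.comm x m).trans (key γ x (φ m))
  · rintro ⟨γ, h, hγ, hh, e, φ, hφ⟩
    refine ⟨γ, h, (gamma_iff γ).2 hγ, hh, e, φ, ⟨φ.map_add, φ.map_smul⟩, φ.bijective,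
      fun x m => ?_⟩
    exact (hφ x m).trans (key γ x (φ m)).symm

theorem vac_of {c : ℂ} (hc : ∀ q : ℚ, (q : ℂ) ≠ c) (Y : GaiottoOsp.HookDiagram l k)
    (W : WeylModule k) (v : W.M) (h0 : v ≠ 0)
    (h : IsVac (tyOf c hc (leg (Y : HookDiagram l k)) (arm (Y : HookDiagram l k))) W v) :
    GaiottoOsp.IsVacuum c Y (toM W) v := by
  refine ⟨h0, fun x hx => h.low x ((inLat_iff hc _ _).2 hx), fun j hj => ?_⟩
  have h1 := h.eig j hj
  have e : (tyOf c hc (leg (Y : HookDiagram l k)) (arm (Y : HookDiagram l k))).s j =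
      2 * (GaiottoOsp.arm Y j + GaiottoOsp.leg Y j : ℂ) / c := by
    change 2 * ((leg (Y : HookDiagram l k) j + arm (Y : HookDiagram l k) j : ℕ) : ℂ) / c = _
    push_cast
    rw [add_comm]
    rfl
  rw [e] at h1
  exact h1

theorem main' (l k : ℕ) (c : ℂ) (hc : ∀ q : ℚ, (q : ℂ) ≠ c) :
    ∃ P : GaiottoOsp.HookDiagram l k → GaiottoOsp.SimplePair c l k,
      (∀ Y, (P Y).g = GaiottoOsp.tPoint (fun i => (Y.1.colLen i : ℤ))
        (fun j => (GaiottoOsp.arm Y j + GaiottoOsp.leg Y j : ℤ))) ∧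
      (∀ Y, ∃ v, GaiottoOsp.IsVacuum c Y (P Y).W v) ∧
      (∀ Y x, GaiottoOsp.LocallyNilpotent ((P Y).W.act x) ↔ GaiottoOsp.InLattice Y x) ∧
      ∀ Q : GaiottoOsp.SimplePair c l k, ∃! Y, Q.Iso (P Y) := by
  obtain ⟨P, h1, h2, h3, h4⟩ := main l k c hc
  refine ⟨fun Y => toP (P Y), fun Y => h1 Y, fun Y => ?_, fun Y x => ?_, fun Q => ?_⟩
  · obtain ⟨v, h0, hv⟩ := h3 Y
    exact ⟨v, vac_of hc Y _ v h0 hv⟩
  · exact (locNil_iff_fun _).symm.trans (h2 Y x)
  · obtain ⟨Y, hY, hu⟩ := h4 (toS Q)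
    refine ⟨Y, (iso_iff Q (P Y)).2 hY, fun Y' hY' => ?_⟩
    exact hu Y' ((iso_iff Q (P Y')).1 hY')

end Pool.Agent.H143_GC
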