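import Pool.Agent.H143_GC.Stmt

/-!
# Direct sums of modules over the Weyl algebra

Definitions for the statement of complete reducibility.
-/

noncomputable section

open Matrix

namespace Pool.Agent.GaiottoOsp

/-- The maps `φ i : U i → W` are homomorphisms of modules over the Weyl algebra and present `W` as
the direct sum of the modules `U i`: every vector of `W` is a finite sum of vectors `φ i (u i)`, and
such a finite sum is zero only if all `u i` are zero. -/
structure IsDirectSum {k : ℕ} {ι : Type} (U : ι → WeylMod k) (W : WeylMod k)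
    (φ : ∀ i, (U i).M → W.M) : Prop where
  lin : ∀ i, IsLin (φ i)
  comm : ∀ i x u, φ i ((U i).act x u) = W.act x (φ i u)
  span : ∀ m, ∃ (s : Finset ι) (u : ∀ i, (U i).M), m = ∑ i ∈ s, φ i (u i)
  indep : ∀ (s : Finset ι) (u : ∀ i, (U i).M), ∑ i ∈ s, φ i (u i) = 0 → ∀ i ∈ s, u i = 0

end Pool.Agent.GaiottoOsp
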