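import Pool.Agent.H143_GC.SS9
import Pool.Agent.H143_GC.Bridge
import Pool.Agent.H143_GC.Stmt2

/-! Complete reducibility, external form. -/

noncomputable section

open Matrix

open scoped Classical

namespace Pool.Agent.H143_GC

variable {l k : ℕ}

theorem sum_span (W : WeylModule k) {ι : Type} {N : ι → Submodule ℂ W.M} (ht : iSup N = ⊤)
    (m : W.M) : ∃ (s : Finset ι) (u : ∀ i, N i), m = ∑ i ∈ s, (u i : W.M) := by
  have hm : m ∈ iSup N := by rw [ht]; exact Submodule.mem_top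
  obtain ⟨f, hf, hsum⟩ := (Submodule.mem_iSup_iff_exists_finsupp _ _).1 hm
  exact ⟨f.support, fun i => ⟨f i, hf i⟩, hsum.symm⟩

theorem sum_indep (W : WeylModule k) {ι : Type} {N : ι → Submodule ℂ W.M} (hi : iSupIndep N)
    (s : Finset ι) (u : ∀ i, N i) (hu : ∑ i ∈ s, (u i : W.M) = 0) : ∀ i ∈ s, u i = 0 := by
  intro i hi'
  have h3 := hi.dfinsupp_lsum_injective
  have h4 : (∑ i ∈ s, DFinsupp.single i (u i) : Π₀ i, N i) = 0 := by
    apply h3
    rw [map_sum, map_zero, ← hu]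
    refine Finset.sum_congr rfl fun j _ => ?_
    rw [DFinsupp.lsum_single]
    rfl
  have h5 := DFunLike.congr_fun h4 i
  rw [DFinsupp.finsetSum_apply, Finset.sum_eq_single i] at h5
  · rwa [DFinsupp.single_eq_same] at h5
  · intro j _ hj
    exact DFinsupp.single_eq_of_ne hj.symm
  · intro h
    exact absurd hi' h

theorem semisimple_main (l k : ℕ) (c : ℂ) (hc : ∀ q : ℚ, (q : ℂ) ≠ c)
    (g : Matrix (GaiottoOsp.Idx l k) (GaiottoOsp.Idx l k) GaiottoOsp.F) (hg : GaiottoOsp.InSp g)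
    (W : GaiottoOsp.WeylMod k) (hE : GaiottoOsp.IsEquivariant c g W) :
    ∃ (ι : Type) (P : ι → GaiottoOsp.SimplePair c l k), (∀ i, (P i).g = g) ∧
      ∃ φ, GaiottoOsp.IsDirectSum (fun i => (P i).W) W φ := by
  have hE' : IsEquivariant c g (toW W) := equi_toW hE
  obtain ⟨ι, N, hN, hs, hi, ht⟩ := SS.dec_of_equi hc hg hE'
  have hEi : ∀ i, IsEquivariant c g (SS.subW (toW W) (N i) (hN i)) := fun i =>
    SS.equi_sub hE' hN hi ht i
  let P : ι → GaiottoOsp.SimplePair c l k := fun i =>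
    toP ⟨g, SS.subW (toW W) (N i) (hN i), hg, hs i, hEi i⟩
  let φ : ∀ i, N i → (toW W).M := fun i u => u.1
  exact ⟨ι, P, fun i => rfl, φ, ⟨fun i => ⟨fun _ _ => rfl, fun _ _ => rfl⟩, fun i x u => rfl,
    fun m => sum_span (toW W) ht m, fun s u hu => sum_indep (toW W) hi s u hu⟩⟩

end Pool.Agent.H143_GC
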