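import Pool.Agent.H143_GC.Stmt2

/-!
# Compact modules

Definition for the statement about locally compact objects.
-/

noncomputable section

open Matrix

namespace Pool.Agent.GaiottoOsp

/-- `φ` is a homomorphism of modules over the Weyl algebra. -/
structure IsModuleHom {k : ℕ} (W W' : WeylMod k) (φ : W.M → W'.M) : Prop where
  lin : IsLin φ
  comm : ∀ x m, φ (W.act x m) = W'.act x (φ m)

/-- `W` is a compact object of the category of discrete modules: every homomorphism of `W` to a
direct sum `⊕ U i` (a family of homomorphisms `φ i : W → U i` such that for each vector `m` only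
finitely many `φ i m` are nonzero) has values in a finite partial sum. -/
def WeylMod.IsCompact {k : ℕ} (W : WeylMod k) : Prop :=
  ∀ (ι : Type) (U : ι → WeylMod k) (φ : ∀ i, W.M → (U i).M), (∀ i, IsModuleHom W (U i) (φ i)) →
    (∀ m, {i | φ i m ≠ 0}.Finite) → {i | ∃ m, φ i m ≠ 0}.Finite

end Pool.Agent.GaiottoOsp
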