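import Pool.Agent.H143_GC.Bridge2
import Pool.Agent.H143_GC.Stmt4

/-! Compact equivariant modules. -/

noncomputable section

open Matrix

open scoped Classical

namespace Pool.Agent.H143_Cpt

open Pool.Agent.GaiottoOsp

variable {k : ℕ} {ι : Type} {U : ι → WeylMod k} {W : WeylMod k} {φ : ∀ i, (U i).M → W.M}

theorem act_zero' (W : WeylMod k) (x : Fin k ⊕ Fin k → F) : W.act x 0 = 0 := by
  have h := (W.lin x).2 0 0
  rwa [zero_smul, zero_smul] at h

theorem lin_zero {M N : Type} [AddCommGroup M] [Module ℂ M] [AddCommGroup N] [Module ℂ N]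
    {A : M → N} (h : IsLin A) : A 0 = 0 := by
  have h := h.2 0 0
  rwa [zero_smul, zero_smul] at h

/-- The map from the direct sum. -/
def Phi (h : IsDirectSum U W φ) : (Π₀ i, (U i).M) →ₗ[ℂ] W.M :=
  DFinsupp.lsum ℕ fun i => Pool.Agent.H143_GC.linOf (φ i) (h.lin i)

theorem Phi_single (h : IsDirectSum U W φ) (i : ι) (u : (U i).M) :
    Phi h (DFinsupp.single i u) = φ i u := by
  unfold Phi
  rw [DFinsupp.lsum_single]
  rfl

theorem Phi_eq (h : IsDirectSum U W φ) (m : Π₀ i, (U i).M) :
    Phi h m = ∑ i ∈ m.support, φ i (m i) := by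
  conv_lhs => rw [← DFinsupp.sum_single (f := m)]
  rw [DFinsupp.sum, map_sum]
  exact Finset.sum_congr rfl fun i _ => Phi_single h i _

theorem Phi_bij (h : IsDirectSum U W φ) : Function.Bijective (Phi h) := by
  constructor
  · rw [← LinearMap.ker_eq_bot, eq_bot_iff]
    intro m hm
    rw [LinearMap.mem_ker, Phi_eq] at hm
    have h1 := h.indep m.support m hm
    refine (Submodule.mem_bot ℂ).2 (DFinsupp.ext fun i => ?_)
    by_cases hi : i ∈ m.support
    · exact h1 i hi
    · simpa using hi
  · intro m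
    obtain ⟨s, u, hu⟩ := h.span m
    refine ⟨∑ i ∈ s, DFinsupp.single i (u i), ?_⟩
    rw [map_sum, hu]
    exact Finset.sum_congr rfl fun i _ => Phi_single h i _

/-- The projection to a summand. -/
def proj (h : IsDirectSum U W φ) (i : ι) : W.M → (U i).M := fun m =>
  (LinearEquiv.ofBijective (Phi h) (Phi_bij h)).symm m i

theorem proj_phi (h : IsDirectSum U W φ) (i : ι) (u : (U i).M) : proj h i (φ i u) = u := by
  unfold proj
  rw [← Phi_single h i u]
  have e : (LinearEquiv.ofBijective (Phi h) (Phi_bij h)).symm (Phi h (DFinsupp.single i u)) =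
      DFinsupp.single i u := (LinearEquiv.ofBijective (Phi h) (Phi_bij h)).symm_apply_apply _
  rw [e, DFinsupp.single_eq_same]

/-- The action on the direct sum. -/
def actD (U : ι → WeylMod k) (x : Fin k ⊕ Fin k → F) (m : Π₀ i, (U i).M) : Π₀ i, (U i).M :=
  DFinsupp.mapRange (fun i => (U i).act x) (fun i => act_zero' (U i) x) m

theorem Phi_act (h : IsDirectSum U W φ) (x : Fin k ⊕ Fin k → F) (m : Π₀ i, (U i).M) :
    Phi h (actD U x m) = W.act x (Phi h m) := by
  unfold actD
  induction m using DFinsupp.induction with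
  | h0 =>
    rw [DFinsupp.mapRange_zero, map_zero, act_zero']
  | ha i b m hm hb ih =>
    rw [DFinsupp.mapRange_add, map_add, map_add, (W.lin x).1, ih, DFinsupp.mapRange_single,
      Phi_single, Phi_single, h.comm]
    intro i n n'
    exact ((U i).lin x).1 n n'

theorem proj_hom (h : IsDirectSum U W φ) (i : ι) : IsModuleHom W (U i) (proj h i) := by
  refine ⟨⟨fun m m' => ?_, fun r m => ?_⟩, fun x m => ?_⟩
  · unfold proj
    rw [map_add, DFinsupp.add_apply]
  · unfold proj
    rw [map_smul, DFinsupp.smul_apply]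
  · unfold proj
    obtain ⟨u, rfl⟩ := (Phi_bij h).2 m
    have e : ∀ u, (LinearEquiv.ofBijective (Phi h) (Phi_bij h)).symm (Phi h u) = u := fun u =>
      (LinearEquiv.ofBijective (Phi h) (Phi_bij h)).symm_apply_apply u
    rw [← Phi_act, e, e]
    rfl

theorem proj_finite (h : IsDirectSum U W φ) (m : W.M) : {i | proj h i m ≠ 0}.Finite := by
  refine Set.Finite.subset ((LinearEquiv.ofBijective (Phi h) (Phi_bij h)).symm m).support.finite_toSet
    fun i hi => ?_
  rw [Finset.mem_coe, DFinsupp.mem_support_iff]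
  exact hi

theorem finite_of_compact (h : IsDirectSum U W φ) (hne : ∀ i, ∃ u : (U i).M, u ≠ 0)
    (hc : W.IsCompact) : Finite ι := by
  have h1 := hc ι U (fun i => proj h i) (proj_hom h) (proj_finite h)
  refine Set.finite_univ_iff.1 (h1.subset fun i _ => ?_)
  obtain ⟨u, hu⟩ := hne i
  exact ⟨φ i u, by rwa [proj_phi]⟩

/-- A homomorphism on a simple module which kills a nonzero vector is zero. -/
theorem hom_zero {U W : WeylMod k} (hU : U.Simple) {ψ : U.M → W.M} (hψ : IsModuleHom U W ψ)
    {u : U.M} (hu : u ≠ 0) (h0 : ψ u = 0) (m : U.M) : ψ m = 0 := by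
  let Z : Submodule ℂ U.M := LinearMap.ker (Pool.Agent.H143_GC.linOf ψ hψ.lin)
  have hZ : ∀ x, ∀ m ∈ Z, U.act x m ∈ Z := by
    intro x m hm
    have hm' : ψ m = 0 := hm
    change ψ (U.act x m) = 0
    rw [hψ.comm, hm', act_zero']
  rcases hU.2 Z hZ with h | h
  · exfalso
    have : u ∈ Z := h0
    rw [h] at this
    exact hu ((Submodule.mem_bot ℂ).1 this)
  · have : m ∈ Z := by rw [h]; exact Submodule.mem_top
    exact this

theorem compact_of_finite [Finite ι] (h : IsDirectSum U W φ) (hs : ∀ i, (U i).Simple) :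
    W.IsCompact := by
  intro κ V ψ hψ hfin
  choose u hu using fun i => (hs i).1
  refine Set.Finite.subset (Set.finite_iUnion fun i => hfin (φ i (u i))) fun j hj => ?_
  obtain ⟨m, hm⟩ := hj
  by_contra hcon
  rw [Set.mem_iUnion] at hcon
  push Not at hcon
  apply hm
  have h1 : ∀ i (v : (U i).M), ψ j (φ i v) = 0 := by
    intro i v
    have h2 : ψ j (φ i (u i)) = 0 := by
      by_contra h3
      exact hcon i h3
    exact hom_zero (W := V j) (hs i) (ψ := fun v => ψ j (φ i v)) ⟨⟨fun a b => by
      change ψ j (φ i (a + b)) = ψ j (φ i a) + ψ j (φ i b)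
      rw [(h.lin i).1, (hψ j).lin.1], fun r a => by
      change ψ j (φ i (r • a)) = r • ψ j (φ i a)
      rw [(h.lin i).2, (hψ j).lin.2]⟩,
      fun x a => by rw [h.comm, (hψ j).comm]⟩ (hu i) h2 v
  obtain ⟨s, v, hv⟩ := h.span m
  have h3 : ∀ s : Finset ι, ψ j (∑ i ∈ s, φ i (v i)) = 0 := by
    intro s
    induction s using Finset.induction_on with
    | empty => rw [Finset.sum_empty]; exact lin_zero (hψ j).lin
    | insert a s ha ih => rw [Finset.sum_insert ha, (hψ j).lin.1, ih, h1, add_zero]
  rw [hv]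
  exact h3 s

theorem reindex {n : ℕ} (e : ι ≃ Fin n) (h : IsDirectSum U W φ) :
    IsDirectSum (fun i => U (e.symm i)) W (fun i => φ (e.symm i)) where
  lin i := h.lin _
  comm i := h.comm _
  span m := by
    obtain ⟨s, u, hu⟩ := h.span m
    refine ⟨s.map e.toEmbedding, fun i => u (e.symm i), ?_⟩
    rw [Finset.sum_map, hu]
    refine Finset.sum_congr rfl fun i _ => ?_
    rw [Equiv.coe_toEmbedding]
    have := e.symm_apply_apply i
    exact (congrArg (fun j => φ j (u j)) this).symm
  indep s u hu i hi := by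
    have h1 := h.indep (s.map e.symm.toEmbedding)
      (fun j => cast (congrArg (fun j => (U j).M) (e.symm_apply_apply j)) (u (e j))) (by
        rw [Finset.sum_map, ← hu]
        refine Finset.sum_congr rfl fun i _ => ?_
        rw [Equiv.coe_toEmbedding]
        have h2 : ∀ (a b : ι) (hab : a = b) (z : (U a).M),
            φ b (cast (congrArg (fun j => (U j).M) hab) z) = φ a z := by
          rintro a b rfl z
          rfl
        rw [h2 _ _ (e.symm_apply_apply (e.symm i))]
        have h3 : ∀ a b : Fin n, a = b → φ (e.symm a) (u a) = φ (e.symm b) (u b) := by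
          rintro a b rfl
          rfl
        exact h3 _ _ (e.apply_symm_apply i)) (e.symm i)
        (Finset.mem_map.2 ⟨i, hi, rfl⟩)
    have h4 : ∀ (a b : ι) (hab : a = b) (z : (U a).M),
        cast (congrArg (fun j => (U j).M) hab) z = 0 → z = 0 := by
      rintro a b rfl z hz
      exact hz
    have h5 := h4 _ _ (e.symm_apply_apply (e.symm i)) _ h1
    have h6 : ∀ a b : Fin n, a = b → u a = 0 → u b = 0 := by
      rintro a b rfl ha
      exact ha
    exact h6 _ _ (e.apply_symm_apply i) h5

theorem compact_main (l k : ℕ) (c : ℂ) (hc : ∀ q : ℚ, (q : ℂ) ≠ c)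
    (g : Matrix (Idx l k) (Idx l k) F) (hg : InSp g) (W : WeylMod k) (hE : IsEquivariant c g W) :
    W.IsCompact ↔ ∃ (n : ℕ) (P : Fin n → SimplePair c l k), (∀ i, (P i).g = g) ∧
      ∃ φ, IsDirectSum (fun i => (P i).W) W φ := by
  constructor
  · intro hW
    obtain ⟨ι, P, hP, φ, hφ⟩ := Pool.Agent.H143_GC.semisimple_main l k c hc g hg W hE
    have hfin : Finite ι := finite_of_compact hφ (fun i => (P i).simple.1) hW
    obtain ⟨n, ⟨e⟩⟩ := Finite.exists_equiv_fin ι
    exact ⟨n, fun i => P (e.symm i), fun i => hP _, fun i => φ (e.symm i), reindex e hφ⟩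
  · rintro ⟨n, P, hP, φ, hφ⟩
    exact compact_of_finite hφ fun i => (P i).simple

end Pool.Agent.H143_Cpt
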