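import Mathlib

/-!
# Internal form of the definitions

`G = Sp(2n)`, `n = m + k`, `m = l + 1`.  The standard basis of `F^{2n}` is
`e_1, …, e_m, e_{m+1}, …, e_n, f_1, …, f_m, f_{m+1}, …, f_n`, indexed by
`Idx l k = (Fin (l+1) ⊕ Fin k) ⊕ (Fin (l+1) ⊕ Fin k)`.
-/

noncomputable section

open Matrix

namespace Pool.Agent.H143_GC

/-- The field `F = ℂ((t))`. -/
def F : Type := LaurentSeries ℂ

instance : Field F := inferInstanceAs (Field (LaurentSeries ℂ))

instance : Algebra ℂ F := RingHom.toAlgebra (HahnSeries.C : ℂ →+* LaurentSeries ℂ)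

/-- The coefficient of `t ^ p`. -/
def F.coeff (x : F) (p : ℤ) : ℂ := HahnSeries.coeff (show LaurentSeries ℂ from x) p

/-- The derivative `dx / dt`. -/
def der (x : F) : F := LaurentSeries.derivative ℂ (show LaurentSeries ℂ from x)

/-- The power `t ^ p`. -/
def tp (p : ℤ) : F := (HahnSeries.single p (1 : ℂ) : LaurentSeries ℂ)

/-- `x` lies in `O = ℂ[[t]]`. -/
def IsInt (x : F) : Prop := ∀ p : ℤ, p < 0 → x.coeff p = 0

/-- The residue of `x dt`. -/
def res (x : F) : ℂ := x.coeff (-1)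

/-- The indices of the standard basis of `F^{2n}`, `n = (l + 1) + k`. The index `inl _` stands for a
basis vector `e`, the index `inr _` for a basis vector `f`. -/
abbrev Idx (l k : ℕ) : Type := (Fin (l + 1) ⊕ Fin k) ⊕ (Fin (l + 1) ⊕ Fin k)

/-- The eigenvalue of `h` on a basis vector: `2m-1, 2m-3, …, 1` on `e_1, …, e_m`, the negatives on
`f_1, …, f_m`, and `0` on the other basis vectors. -/
def wt {l k : ℕ} : Idx l k → ℤ
  | Sum.inl (Sum.inl i) => 2 * ((l : ℤ) - (i : ℕ)) + 1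
  | Sum.inr (Sum.inl i) => -(2 * ((l : ℤ) - (i : ℕ)) + 1)
  | Sum.inl (Sum.inr _) => 0
  | Sum.inr (Sum.inr _) => 0

/-- The inclusion of the basis of `F^{2k}` in the basis of `F^{2n}`. -/
def mid {l k : ℕ} : Fin k ⊕ Fin k → Idx l k
  | Sum.inl j => Sum.inl (Sum.inr j)
  | Sum.inr j => Sum.inr (Sum.inr j)

/-- The index of the basis vector `e_m` of weight one. -/
def top {l k : ℕ} : Idx l k := Sum.inl (Sum.inl (Fin.last l))

/-- The symplectic form `∑ (x_{e_j} y_{f_j} - x_{f_j} y_{e_j})`. -/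
def om {k : ℕ} (x y : Fin k ⊕ Fin k → F) : F :=
  ∑ i, (x (Sum.inl i) * y (Sum.inr i) - x (Sum.inr i) * y (Sum.inl i))

/-- The row of the nilpotent element `e` at `e_i`: `1` at `e_{i+1}`, and `-1/2` at `f_m` if `i = m`. -/
def rowE {l k : ℕ} (i : Fin (l + 1)) : Idx l k → F
  | Sum.inl (Sum.inl j) => if (i : ℕ) + 1 = (j : ℕ) then 1 else 0
  | Sum.inr (Sum.inl j) => if (i : ℕ) = l ∧ (j : ℕ) = l then -(1 / 2) else 0
  | _ => 0

/-- The row of the nilpotent element `e` at `f_i`: `-1` at `f_{i-1}`. -/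
def rowF {l k : ℕ} (i : Fin (l + 1)) : Idx l k → F
  | Sum.inr (Sum.inl j) => if (j : ℕ) + 1 = (i : ℕ) then -1 else 0
  | _ => 0

/-- The nilpotent element `e` of Jordan type `(2m, 1^{2k})`: `e_{i+1} ↦ e_i`, `f_i ↦ - f_{i+1}` for
`1 ≤ i < m` and `f_m ↦ - (1/2) e_m`. -/
def eMat (l k : ℕ) : Matrix (Idx l k) (Idx l k) F
  | Sum.inl (Sum.inl i) => rowE i
  | Sum.inr (Sum.inl i) => rowF i
  | _ => fun _ => 0

/-- `g ∈ Sp(2n, F)`. -/
def InSp {l k : ℕ} (g : Matrix (Idx l k) (Idx l k) F) : Prop :=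
  g * Matrix.J (Fin (l + 1) ⊕ Fin k) F * gᵀ = Matrix.J (Fin (l + 1) ⊕ Fin k) F

/-- `Y ∈ sp(2n, F)`. -/
def InLieSp {l k : ℕ} (Y : Matrix (Idx l k) (Idx l k) F) : Prop :=
  Yᵀ * Matrix.J (Fin (l + 1) ⊕ Fin k) F + Matrix.J (Fin (l + 1) ⊕ Fin k) F * Y = 0

/-- `h ∈ Sp(2n, O)`. -/
def InGO {l k : ℕ} (h : Matrix (Idx l k) (Idx l k) F) : Prop :=
  InSp h ∧ ∀ a b, IsInt (h a b)

/-- The group `Γ = Sp(2k, O) ⋉ U_k(F)` inside `Sp(2n, F)`: the block triangular symplectic matrices
(with respect to the eigenvalues of `h`) with ones on the diagonal at the basis vectors of nonzero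
weight and with a middle block with entries in `O`. -/
structure InGamma {l k : ℕ} (γ : Matrix (Idx l k) (Idx l k) F) : Prop where
  sp : InSp γ
  upper : ∀ a b, wt b < wt a → γ a b = 0
  diag : ∀ a b, wt a = wt b → wt a ≠ 0 → γ a b = if a = b then 1 else 0
  int : ∀ a b, wt a = 0 → wt b = 0 → IsInt (γ a b)

/-- The middle block of a matrix, a matrix acting on `F^{2k}`. -/
def midBlock {l k : ℕ} (Y : Matrix (Idx l k) (Idx l k) F) :
    Matrix (Fin k ⊕ Fin k) (Fin k ⊕ Fin k) F := Y.submatrix mid mid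

/-- The component in `F^{2k}` of the image of the basis vector `e_m` of weight one: on the Lie
algebra of `U_k(F)` this is the projection to `sp(2n)_{-1} ⊗ F = F^{2k}`. -/
def heisV {l k : ℕ} (Y : Matrix (Idx l k) (Idx l k) F) : Fin k ⊕ Fin k → F := fun j => Y (mid j) top

/-- The residue of the pairing `Tr (e Y)`. -/
def psi {l k : ℕ} (Y : Matrix (Idx l k) (Idx l k) F) : ℂ :=
  res (Matrix.trace (eMat l k * Y))

/-- The character `c⁻¹ Res Tr (g' g⁻¹ Y) dt` of the stabiliser of the point `g G(O)`: the difference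
of the two splittings (the one coming from `Γ` and the one coming from `g G(O) g⁻¹`) of the central
extension given by `c⁻¹` times the basic level `Tr (X Y)`. -/
def chi {l k : ℕ} (c : ℂ) (g Y : Matrix (Idx l k) (Idx l k) F) : ℂ :=
  c⁻¹ * res (Matrix.trace (g.map der * g⁻¹ * Y))

/-- The point `t^{(λ, μ)}`: the diagonal matrix with the entries `t^{-λ_i}` at `e_i` and `t^{λ_i}` at
`f_i` for `i ≤ m`, and `t^{μ_j}` at `e_{m+j}` and `t^{-μ_j}` at `f_{m+j}` for `j ≤ k`. -/
def tPoint {l k : ℕ} (lam : Fin (l + 1) → ℤ) (mu : Fin k → ℤ) : Matrix (Idx l k) (Idx l k) F :=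
  Matrix.diagonal fun
    | Sum.inl (Sum.inl i) => tp (-lam i)
    | Sum.inl (Sum.inr j) => tp (mu j)
    | Sum.inr (Sum.inl i) => tp (lam i)
    | Sum.inr (Sum.inr j) => tp (-mu j)

/-- The `(n | k)`-hook diagrams, `n = (l + 1) + k`: the Young diagrams whose row number `k + 1` has
at most `n` boxes.  They parametrise the irreducible representations of `SOSp(2n+1|2k)`. -/
def HookDiagram (l k : ℕ) : Type := {Y : YoungDiagram // Y.rowLen k ≤ l + 1 + k}

/-- The number of boxes to the right of the box `(j, m + j)` (rows and columns are numbered from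
`0`). -/
def arm {l k : ℕ} (Y : HookDiagram l k) (j : Fin k) : ℕ := Y.1.rowLen j - (l + 1 + j + 1)

/-- The number of boxes of the column `m + j` which are in the row `j` or below it. -/
def leg {l k : ℕ} (Y : HookDiagram l k) (j : Fin k) : ℕ := Y.1.colLen (l + 1 + j) - j


end Pool.Agent.H143_GC
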