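import Pool.Agent.H143_GC.Lie

/-! Elementary elements of the Lie algebra of `Γ`; uniqueness of lifts on them. -/

noncomputable section

open Matrix

namespace Pool.Agent.H143_GC

variable {l k : ℕ}

theorem Good.rel {X : MV k} (hX : Good X) :
    (∀ a b, X (Sum.inr a) (Sum.inr b) = -X (Sum.inl b) (Sum.inl a)) ∧
    (∀ a b, X (Sum.inr a) (Sum.inl b) = X (Sum.inr b) (Sum.inl a)) ∧
    (∀ a b, X (Sum.inl a) (Sum.inr b) = X (Sum.inl b) (Sum.inr a)) := by
  have hs : ∀ α β, (X *ᵥ Pi.single α (1 : F)) β = X β α := by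
    intro α β
    rw [Matrix.mulVec_single_one]; rfl
  refine ⟨fun a b => ?_, fun a b => ?_, fun a b => ?_⟩
  · have h := hX.skew (Pi.single (Sum.inl a) 1) (Pi.single (Sum.inr b) 1)
    rw [om_single_inr, om_swap (Pi.single (Sum.inl a) 1), om_single_inl, hs, hs] at h
    linear_combination h
  · have h := hX.skew (Pi.single (Sum.inl b) 1) (Pi.single (Sum.inl a) 1)
    rw [om_single_inl, om_swap (Pi.single (Sum.inl b) 1), om_single_inl, hs, hs] at h
    linear_combination -h
  · have h := hX.skew (Pi.single (Sum.inr b) 1) (Pi.single (Sum.inr a) 1)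
    rw [om_single_inr, om_swap (Pi.single (Sum.inr b) 1), om_single_inr, hs, hs] at h
    linear_combination h

/-- The element of the Lie algebra of `Γ` with middle block `X`, component `v` in `F^{2k}` and
entry `z` at `(f_m, e_m)`. -/
def elem (l : ℕ) (X : MV k) (v : V k) (z : F) : Matrix (Idx l k) (Idx l k) F
  | Sum.inl (Sum.inr i), Sum.inl (Sum.inr j) => X (Sum.inl i) (Sum.inl j)
  | Sum.inl (Sum.inr i), Sum.inr (Sum.inr j) => X (Sum.inl i) (Sum.inr j)
  | Sum.inr (Sum.inr i), Sum.inl (Sum.inr j) => X (Sum.inr i) (Sum.inl j)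
  | Sum.inr (Sum.inr i), Sum.inr (Sum.inr j) => X (Sum.inr i) (Sum.inr j)
  | Sum.inl (Sum.inr i), Sum.inl (Sum.inl p) => if p = Fin.last l then v (Sum.inl i) else 0
  | Sum.inr (Sum.inr i), Sum.inl (Sum.inl p) => if p = Fin.last l then v (Sum.inr i) else 0
  | Sum.inr (Sum.inl p), Sum.inl (Sum.inr j) => if p = Fin.last l then v (Sum.inr j) else 0
  | Sum.inr (Sum.inl p), Sum.inr (Sum.inr j) => if p = Fin.last l then -v (Sum.inl j) else 0
  | Sum.inr (Sum.inl p), Sum.inl (Sum.inl q) => if p = Fin.last l ∧ q = Fin.last l then z else 0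
  | _, _ => 0

theorem elem_mem {X : MV k} (hX : Good X) (v : V k) (z : F) : elem l X v z ∈ lieGamma l k := by
  obtain ⟨r1, r2, r3⟩ := hX.rel
  refine ⟨?_, ?_, ?_, ?_⟩
  · rw [inLieSp_iff]
    refine ⟨?_, ?_, ?_⟩
    · rintro (a | a) (b | b)
      · simp [elem]
      · simp only [elem]; split_ifs <;> simp
      · simp [elem]
      · simpa [elem] using r1 a b
    · rintro (a | a) (b | b)
      · simp only [elem, and_comm]
      · simp [elem]
      · simp [elem]
      · simpa [elem] using r2 a b
    · rintro (a | a) (b | b)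
      · simp [elem]
      · simp [elem]
      · simp [elem]
      · simpa [elem] using r3 a b
  · rintro ((a | a) | (a | a)) ((b | b) | (b | b)) h <;> simp only [elem] <;>
      simp only [wt] at h <;> try omega
  · rintro ((a | a) | (a | a)) ((b | b) | (b | b)) h h' <;> simp only [elem] <;>
      simp only [wt] at h h' <;> try omega
  · rintro ((a | a) | (a | a)) ((b | b) | (b | b)) h h' <;> simp only [elem] <;>
      first
      | exact hX.int _ _
      | (exfalso; simp only [wt] at h h'; omega)

@[simp] theorem midBlock_elem (X : MV k) (v : V k) (z : F) : midBlock (elem l X v z) = X := by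
  ext a b
  rcases a with a | a <;> rcases b with b | b <;> rfl

@[simp] theorem heisV_elem (X : MV k) (v : V k) (z : F) : heisV (elem l X v z) = v := by
  ext a
  rcases a with a | a <;> simp [heisV, elem, mid, top]

theorem psi_elem (X : MV k) (v : V k) (z : F) : psi (elem l X v z) = -(1 / 2) * res z := by
  unfold psi
  rw [trace_eMat, Finset.sum_eq_zero]
  · have h : elem l X v z (Sum.inr (Sum.inl (Fin.last l))) top = z := by simp [elem, top]
    rw [h, zero_sub]
    have h2 : -(1 / 2 * z) = (-(1 / 2) : ℂ) • z := by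
      rw [smul_eq_C, map_neg, map_div₀, map_one, map_ofNat, neg_mul]
    rw [h2, res_smul]
  · intro i _
    refine Finset.sum_eq_zero fun j _ => ?_
    simp [elem]

theorem elem_bracket {X Y : MV k} :
    elem l (X * Y - Y * X) 0 0 = elem l X 0 0 * elem l Y 0 0 - elem l Y 0 0 * elem l X 0 0 := by
  have key : ∀ P Q : MV k, elem l P 0 0 * elem l Q 0 0 = elem l (P * Q) 0 0 := by
    intro P Q
    ext a b
    rw [Matrix.mul_apply, sum_idx, Fintype.sum_sum_type]
    rcases a with (a | a) | (a | a) <;> rcases b with (b | b) | (b | b) <;>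
      simp [elem, mid, Matrix.mul_apply, Fintype.sum_sum_type]
  rw [key, key]
  ext a b
  rcases a with (a | a) | (a | a) <;> rcases b with (b | b) | (b | b) <;>
      simp [elem]

/-- The element with the entries `z` at `(e_{i+1}, e_i)` and `-z` at `(f_i, f_{i+1})`. -/
def sroot (k : ℕ) (i : Fin l) (z : F) : Matrix (Idx l k) (Idx l k) F
  | Sum.inl (Sum.inl p), Sum.inl (Sum.inl q) => if p = i.succ ∧ q = i.castSucc then z else 0
  | Sum.inr (Sum.inl p), Sum.inr (Sum.inl q) => if p = i.castSucc ∧ q = i.succ then -z else 0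
  | _, _ => 0

theorem sroot_mem (i : Fin l) (z : F) : sroot k i z ∈ lieGamma l k := by
  refine ⟨?_, ?_, ?_, ?_⟩
  · rw [inLieSp_iff]
    refine ⟨?_, ?_, ?_⟩
    · rintro (a | a) (b | b)
      · simp only [sroot, and_comm]
        split_ifs <;> simp
      · simp [sroot]
      · simp [sroot]
      · simp [sroot]
    · rintro (a | a) (b | b) <;> simp [sroot]
    · rintro (a | a) (b | b) <;> simp [sroot]
  · rintro ((a | a) | (a | a)) ((b | b) | (b | b)) h <;> simp only [sroot] <;>
      simp only [wt] at h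
    · rw [if_neg]
      rintro ⟨rfl, rfl⟩
      simp only [Fin.val_succ, Fin.val_castSucc] at h
      omega
    · rw [if_neg]
      rintro ⟨rfl, rfl⟩
      simp only [Fin.val_succ, Fin.val_castSucc] at h
      omega
  · rintro ((a | a) | (a | a)) ((b | b) | (b | b)) h h' <;> simp only [sroot] <;>
      simp only [wt] at h
    · rw [if_neg]
      rintro ⟨rfl, rfl⟩
      simp at h
    · rw [if_neg]
      rintro ⟨rfl, rfl⟩
      simp at h
  · rintro ((a | a) | (a | a)) ((b | b) | (b | b)) h h' <;> simp only [sroot] <;>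
      first
      | exact OG.zero 0
      | (exfalso; simp only [wt] at h h'; omega)

@[simp] theorem midBlock_sroot (i : Fin l) (z : F) : midBlock (sroot k i z) = 0 := by
  ext a b
  rcases a with a | a <;> rcases b with b | b <;> rfl

@[simp] theorem heisV_sroot (i : Fin l) (z : F) : heisV (sroot k i z) = 0 := by
  ext a
  rcases a with a | a <;> rfl

theorem psi_sroot (i : Fin l) (z : F) : psi (sroot k i z) = 2 * res z := by
  unfold psi
  rw [trace_eMat, Finset.sum_eq_single i.castSucc, Finset.sum_eq_single i.succ]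
  · have h : sroot k i z (Sum.inr (Sum.inl (Fin.last l))) top = 0 := rfl
    have h1 : sroot k i z (Sum.inl (Sum.inl i.succ)) (Sum.inl (Sum.inl i.castSucc)) = z := by
      simp [sroot]
    have h2 : sroot k i z (Sum.inr (Sum.inl i.castSucc)) (Sum.inr (Sum.inl i.succ)) = -z := by
      simp [sroot]
    rw [h, h1, h2, if_pos (by simp), mul_zero, sub_zero, sub_neg_eq_add, res_add]
    ring
  · intro j _ hj
    simp [sroot, hj]
  · intro h; exact absurd (Finset.mem_univ _) h
  · intro j _ hj
    refine Finset.sum_eq_zero fun j' _ => ?_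
    simp [sroot, hj]
  · intro h; exact absurd (Finset.mem_univ _) h

section

variable {W : WeylModule k} {T : lieGamma l k →ₗ[ℂ] Module.End ℂ W.M}

theorem IsLift.eq_of_bracket (hT : IsLift W T) {X Y Z : lieGamma l k}
    (h : (X : Matrix (Idx l k) (Idx l k) F) = (Y : Matrix (Idx l k) (Idx l k) F) * Z - Z * Y)
    (m : W.M) : T X m = stdT l W X m := by
  have hS := stdT_isLift (l := l) W
  have hD : ∀ (Y : lieGamma l k) x m, (T Y - stdT l W Y) (W.a x m) =
      W.a x ((T Y - stdT l W Y) m) := by
    intro Y x m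
    have h1 := hT.comm Y x m
    have h2 := hS.comm Y x m
    rw [LinearMap.sub_apply, LinearMap.sub_apply, map_sub]
    have h3 := h1.trans h2.symm
    rw [sub_eq_sub_iff_add_eq_add] at h3 ⊢
    rw [h3, add_comm]
  have n1 := fun (P Q : lieGamma l k) m => hT.natural (T P - stdT l W P) (hD P) Q m
  have n2 := fun (P Q : lieGamma l k) m => hS.natural (T P - stdT l W P) (hD P) Q m
  have b1 := hT.bracket X Y Z h m
  have b2 := hS.bracket X Y Z h m
  rw [b1, b2]
  have a1 := n1 Y Z m
  have a4 := n2 Z Y m
  simp only [LinearMap.sub_apply, map_sub] at a1 a4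
  linear_combination (norm := module) a1 - a4

/-- The elementary matrix `e_j ↦ t^s e_i`, `f_i ↦ - t^s f_j`. -/
def matA (i j : Fin k) (s : ℤ) : MV k :=
  Matrix.single (Sum.inl i) (Sum.inl j) (tp s) - Matrix.single (Sum.inr j) (Sum.inr i) (tp s)

/-- The elementary matrix `f_j ↦ t^s e_j`. -/
def matB (j : Fin k) (s : ℤ) : MV k := Matrix.single (Sum.inl j) (Sum.inr j) (tp s)

/-- The elementary matrix `e_j ↦ t^s f_j`. -/
def matC (j : Fin k) (s : ℤ) : MV k := Matrix.single (Sum.inr j) (Sum.inl j) (tp s)

theorem isInt_tp {s : ℤ} (hs : 0 ≤ s) : IsInt (tp s) := (OG_tp s).mono hs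

theorem isInt_single {ι : Type} [DecidableEq ι] (a b : ι) {x : F} (hx : IsInt x) (i j : ι) :
    IsInt (Matrix.single a b x i j) := by
  rw [Matrix.single_apply]
  split_ifs
  · exact hx
  · exact OG.zero 0

theorem good_matA (i j : Fin k) {s : ℤ} (hs : 0 ≤ s) : Good (matA i j s) := by
  refine good_of ?_ ?_ ?_ ?_
  · intro a b
    exact OG.sub (isInt_single _ _ (isInt_tp hs) a b) (isInt_single _ _ (isInt_tp hs) a b)
  · intro a b
    simp only [matA, Matrix.sub_apply, Matrix.single_apply, Sum.inr.injEq, Sum.inl.injEq,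
      reduceCtorEq, false_and, if_false, zero_sub, sub_zero, and_comm]
  · intro a b
    simp [matA]
  · intro a b
    simp [matA]

theorem good_matB (j : Fin k) {s : ℤ} (hs : 0 ≤ s) : Good (matB j s) := by
  refine good_of ?_ ?_ ?_ ?_
  · intro a b
    exact isInt_single _ _ (isInt_tp hs) a b
  · intro a b
    simp [matB]
  · intro a b
    simp [matB]
  · intro a b
    simp only [matB, Matrix.single_apply, Sum.inr.injEq, Sum.inl.injEq, and_comm]

theorem good_matC (j : Fin k) {s : ℤ} (hs : 0 ≤ s) : Good (matC j s) := by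
  refine good_of ?_ ?_ ?_ ?_
  · intro a b
    exact isInt_single _ _ (isInt_tp hs) a b
  · intro a b
    simp [matC]
  · intro a b
    simp only [matC, Matrix.single_apply, Sum.inr.injEq, Sum.inl.injEq, and_comm]
  · intro a b
    simp [matC]

/-- An element of `sp(2k, O)` as an element of the Lie algebra of `Γ`. -/
def lieMid (l : ℕ) {X : MV k} (hX : Good X) : lieGamma l k := ⟨elem l X 0 0, elem_mem hX 0 0⟩

theorem stdT_lieMid {X : MV k} (hX : Good X) (m : W.M) :
    stdT l W (lieMid l hX) m = NO W hX m := by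
  rw [stdT_apply]
  have h1 : heisV ((lieMid l hX : lieGamma l k) : Matrix (Idx l k) (Idx l k) F) = 0 :=
    heisV_elem _ _ _
  have h2 : psi ((lieMid l hX : lieGamma l k) : Matrix (Idx l k) (Idx l k) F) = 0 := by
    change psi (elem l X 0 0) = 0
    rw [psi_elem, res_zero, mul_zero]
  rw [h1, h2, map_zero, LinearMap.zero_apply, zero_smul, add_zero, add_zero]
  exact congrArg (fun A : Module.End ℂ W.M => A m)
    (NO_congr (midBlock_elem X 0 0) (good_mid (lieMid l hX).2) hX)

theorem IsLift.eq_mid (hT : IsLift W T) {X Y Z : MV k} (hX : Good X) (hY : Good Y) (hZ : Good Z)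
    (c : ℂ) (hc : c ≠ 0) (h : c • X = Y * Z - Z * Y) (m : W.M) :
    T (lieMid l hX) m = NO W hX m := by
  have h1 : ((c • lieMid l hX : lieGamma l k) : Matrix (Idx l k) (Idx l k) F) =
      (lieMid l hY : lieGamma l k) * (lieMid l hZ : lieGamma l k) -
        (lieMid l hZ : lieGamma l k) * (lieMid l hY : lieGamma l k) := by
    change c • elem l X 0 0 = elem l Y 0 0 * elem l Z 0 0 - elem l Z 0 0 * elem l Y 0 0
    rw [← elem_bracket, ← h]
    ext a b
    rcases a with (a | a) | (a | a) <;> rcases b with (b | b) | (b | b) <;>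
      simp [elem]
  have h2 := hT.eq_of_bracket h1 m
  rw [map_smul, map_smul, LinearMap.smul_apply, LinearMap.smul_apply, stdT_lieMid] at h2
  exact smul_right_injective _ hc h2

theorem sms {ι : Type} [Fintype ι] [DecidableEq ι] (a b c d : ι) (x y : F) :
    Matrix.single a b x * Matrix.single c d y = if b = c then Matrix.single a d (x * y) else 0 := by
  split_ifs with h
  · subst h; rw [Matrix.single_mul_single_same]
  · exact Matrix.single_mul_single_of_ne _ _ _ _ h _

theorem IsLift.matC (hT : IsLift W T) (j : Fin k) {s : ℤ} (hs : 0 ≤ s) (m : W.M) :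
    T (lieMid l (good_matC j hs)) m = NO W (good_matC j hs) m := by
  refine hT.eq_mid (good_matC j hs) (good_matA j j le_rfl) (good_matC j hs) (-2) (by norm_num) ?_ m
  simp only [H143_GC.matC, H143_GC.matA, Matrix.sub_mul, Matrix.mul_sub, sms, reduceCtorEq, if_true,
    if_false, tp_mul_tp, zero_add, add_zero]
  module

theorem IsLift.matB (hT : IsLift W T) (j : Fin k) {s : ℤ} (hs : 0 ≤ s) (m : W.M) :
    T (lieMid l (good_matB j hs)) m = NO W (good_matB j hs) m := by
  refine hT.eq_mid (good_matB j hs) (good_matA j j le_rfl) (good_matB j hs) 2 (by norm_num) ?_ m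
  simp only [H143_GC.matB, H143_GC.matA, Matrix.sub_mul, Matrix.mul_sub, sms, reduceCtorEq, if_true,
    if_false, tp_mul_tp, zero_add, add_zero]
  module

theorem IsLift.matA_diag (hT : IsLift W T) (j : Fin k) {s : ℤ} (hs : 0 ≤ s) (m : W.M) :
    T (lieMid l (good_matA j j hs)) m = NO W (good_matA j j hs) m := by
  refine hT.eq_mid (good_matA j j hs) (good_matB j hs) (good_matC j le_rfl) 1 (by norm_num) ?_ m
  simp only [H143_GC.matB, H143_GC.matA, H143_GC.matC, sms, if_true, tp_mul_tp, zero_add, add_zero,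
    one_smul]

theorem IsLift.matA (hT : IsLift W T) {i j : Fin k} (hij : i ≠ j) {s : ℤ} (hs : 0 ≤ s) (m : W.M) :
    T (lieMid l (good_matA i j hs)) m = NO W (good_matA i j hs) m := by
  refine hT.eq_mid (good_matA i j hs) (good_matA i i le_rfl) (good_matA i j hs) 1 (by norm_num) ?_ m
  simp only [H143_GC.matA, Matrix.sub_mul, Matrix.mul_sub, sms, reduceCtorEq, if_true,
    if_false, tp_mul_tp, zero_add, add_zero, Sum.inl.injEq, Sum.inr.injEq, hij, hij.symm]
  module

end

end Pool.Agent.H143_GC
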