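import Pool.Agent.H143_GC.Stab2

/-! Existence: the module generated by the vacuum vector is equivariant. -/

set_option linter.unusedSectionVars false

noncomputable section

open Matrix Polynomial

open scoped Classical

namespace Pool.Agent.H143_GC

variable {l k : ℕ}

section Nil

/-- the generalised kernel -/
def nilSub {M : Type} [AddCommGroup M] [Module ℂ M] (A : Module.End ℂ M) : Submodule ℂ M where
  carrier := {m | ∃ n : ℕ, (A ^ n) m = 0}
  zero_mem' := ⟨0, map_zero _⟩
  add_mem' := by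
    rintro m m' ⟨n, h⟩ ⟨n', h'⟩
    refine ⟨n + n', ?_⟩
    rw [map_add, pow_add, Module.End.mul_apply, Module.End.mul_apply, h']
    have : (A ^ n) ((A ^ n') m) = (A ^ n') ((A ^ n) m) := by
      rw [← Module.End.mul_apply, ← Module.End.mul_apply, ← pow_add, ← pow_add, add_comm]
    rw [this, h, map_zero, map_zero, add_zero]
  smul_mem' := by
    rintro c m ⟨n, h⟩
    exact ⟨n, by rw [map_smul, h, smul_zero]⟩

theorem mem_nilSub_of_map {M : Type} [AddCommGroup M] [Module ℂ M] {A : Module.End ℂ M} {m : M}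
    (i : ℕ) (h : (A ^ i) m ∈ nilSub A) : m ∈ nilSub A := by
  obtain ⟨n, hn⟩ := h
  refine ⟨n + i, ?_⟩
  rw [pow_add, Module.End.mul_apply]
  exact hn

theorem map_mem_nilSub {M : Type} [AddCommGroup M] [Module ℂ M] {A : Module.End ℂ M} {m : M}
    (h : m ∈ nilSub A) : A m ∈ nilSub A := by
  obtain ⟨n, hn⟩ := h
  refine ⟨n, ?_⟩
  rw [← Module.End.mul_apply, ← pow_succ, pow_succ', Module.End.mul_apply, hn, map_zero]

variable {W : WeylModule k}

theorem nil_stable {X : MV k} {ω : V k → ℂ} {R : Module.End ℂ W.M}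
    (hR : ∀ x m, R (W.a x m) = W.a x (R m) + (W.a (X *ᵥ x) m + ω x • m))
    (hX : ∀ x : V k, ∀ N : ℤ, ∃ i : ℕ, OGV N ((X ^ i) *ᵥ x)) :
    ∀ x, ∀ m ∈ nilSub R, W.a x m ∈ nilSub R := by
  have key : ∀ n : ℕ, ∀ m, (R ^ n) m = 0 → ∀ x, W.a x m ∈ nilSub R := by
    intro n
    induction n with
    | zero =>
      intro m hm x
      rw [pow_zero, Module.End.one_apply] at hm
      rw [hm, map_zero]
      exact Submodule.zero_mem _
    | succ n ih =>
      intro m hm x
      have hm1 : (R ^ n) (R m) = 0 := by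
        rw [← Module.End.mul_apply, ← pow_succ]; exact hm
      have hmN : m ∈ nilSub R := ⟨n + 1, hm⟩
      have h1 : ∀ i : ℕ, (R ^ i) (W.a x m) - W.a ((X ^ i) *ᵥ x) m ∈ nilSub R := by
        intro i
        induction i with
        | zero =>
          rw [pow_zero, pow_zero, Module.End.one_apply, Matrix.one_mulVec, sub_self]
          exact Submodule.zero_mem _
        | succ i ihi =>
          have h2 := map_mem_nilSub ihi
          rw [map_sub, hR, ← Module.End.mul_apply, ← pow_succ', Matrix.mulVec_mulVec,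
            ← pow_succ'] at h2
          have h3 : (R ^ (i + 1)) (W.a x m) - W.a ((X ^ (i + 1)) *ᵥ x) m =
              ((R ^ (i + 1)) (W.a x m) - (W.a ((X ^ i) *ᵥ x) (R m) +
                (W.a ((X ^ (i + 1)) *ᵥ x) m + ω ((X ^ i) *ᵥ x) • m))) +
              W.a ((X ^ i) *ᵥ x) (R m) + ω ((X ^ i) *ᵥ x) • m := by abel
          rw [h3]
          exact Submodule.add_mem _ (Submodule.add_mem _ h2 (ih _ hm1 _))
            (Submodule.smul_mem _ _ hmN)
      obtain ⟨N, hN⟩ := exists_Ann m
      obtain ⟨i, hi⟩ := hX x N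
      have h4 := h1 i
      rw [hN _ hi, sub_zero] at h4
      exact mem_nilSub_of_map i h4
  rintro x m ⟨n, hn⟩
  exact key n m hn x

end Nil

section Top

theorem coeff_zero_mul {x y : F} (hx : IsInt x) (hy : IsInt y) :
    (x * y).coeff 0 = x.coeff 0 * y.coeff 0 := by
  rw [coeff_mul x y 0 0 0 hx hy]
  have : Finset.Ico (0 : ℤ) (0 - 0 + 1) = {0} := by decide
  rw [this, Finset.sum_singleton, sub_self]

variable {ι : Type} [Fintype ι] [DecidableEq ι]

theorem OG_mat_mul {A B : ℤ} {P Q : Matrix ι ι F} (hP : ∀ i j, OG A (P i j))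
    (hQ : ∀ i j, OG B (Q i j)) (i j : ι) : OG (A + B) ((P * Q) i j) := by
  rw [Matrix.mul_apply]
  exact OG.sum fun c _ => OG.mul (hP _ _) (hQ _ _)

theorem int_mat_one (i j : ι) : IsInt ((1 : Matrix ι ι F) i j) := by
  rw [Matrix.one_apply]
  split_ifs
  · exact IsInt.one
  · exact OG.zero 0

theorem int_mat_mul {P Q : Matrix ι ι F} (hP : ∀ i j, IsInt (P i j))
    (hQ : ∀ i j, IsInt (Q i j)) (i j : ι) : IsInt ((P * Q) i j) := by
  have := OG_mat_mul (A := 0) (B := 0) hP hQ i j
  rwa [add_zero] at this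

theorem map_mul_int {P Q : Matrix ι ι F} (hP : ∀ i j, IsInt (P i j))
    (hQ : ∀ i j, IsInt (Q i j)) :
    (P * Q).map (fun x => x.coeff 0) = P.map (fun x => x.coeff 0) * Q.map (fun x => x.coeff 0) := by
  ext i j
  rw [Matrix.map_apply, Matrix.mul_apply, Matrix.mul_apply, coeff_sum]
  exact Finset.sum_congr rfl fun c _ => coeff_zero_mul (hP _ _) (hQ _ _)

theorem int_pow {P : Matrix ι ι F} (hP : ∀ i j, IsInt (P i j)) (n : ℕ) :
    ∀ i j, IsInt ((P ^ n) i j) := by
  induction n with
  | zero => intro i j; rw [pow_zero]; exact int_mat_one i j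
  | succ n ih => rw [pow_succ]; exact int_mat_mul ih hP

theorem map_pow_int {P : Matrix ι ι F} (hP : ∀ i j, IsInt (P i j)) (n : ℕ) :
    (P ^ n).map (fun x => x.coeff 0) = (P.map (fun x => x.coeff 0)) ^ n := by
  induction n with
  | zero =>
    ext i j
    rw [pow_zero, pow_zero, Matrix.map_apply, Matrix.one_apply, Matrix.one_apply]
    split_ifs
    · rw [← tp_zero, coeff_tp, if_pos rfl]
    · rfl
  | succ n ih => rw [pow_succ, pow_succ, map_mul_int (int_pow hP n) hP, ih]

theorem OG_pow {P : Matrix ι ι F} (hP : ∀ i j, OG 1 (P i j)) (n : ℕ) :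
    ∀ i j, OG n ((P ^ n) i j) := by
  induction n with
  | zero => intro i j; rw [pow_zero]; exact int_mat_one i j
  | succ n ih =>
    rw [pow_succ]
    intro i j
    have := OG_mat_mul ih hP i j
    exact_mod_cast this

theorem OG_one_of_map {P : Matrix ι ι F} (hP : ∀ i j, IsInt (P i j))
    (h : P.map (fun x => x.coeff 0) = 0) (i j : ι) : OG 1 (P i j) := by
  intro p hp
  rcases lt_or_eq_of_le (show p ≤ 0 by omega) with h1 | h1
  · exact hP i j p h1
  · rw [h1]
    exact congrFun (congrFun h i) j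

theorem conj_pow_mat (u u' x : Matrix ι ι F) (h : u * u' = 1) (n : ℕ) (h' : u' * u = 1) :
    (u' * x * u) ^ n = u' * x ^ n * u := by
  induction n with
  | zero => rw [pow_zero, pow_zero, Matrix.mul_one, h']
  | succ n ih =>
    rw [pow_succ, ih, pow_succ]
    calc u' * x ^ n * u * (u' * x * u) = u' * x ^ n * (u * u') * x * u := by
          simp only [Matrix.mul_assoc]
      _ = u' * (x ^ n * x) * u := by rw [h]; simp only [Matrix.mul_assoc, Matrix.one_mul]

end Top

section Alg

/-- The block triangular matrices. -/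
def Tri (l k : ℕ) : Subalgebra ℂ (Matrix (Idx l k) (Idx l k) F) where
  carrier := {Y | ∀ a b, wt b < wt a → Y a b = 0}
  mul_mem' := by
    intro Y Z hY hZ a b hab
    rw [Matrix.mul_apply]
    refine Finset.sum_eq_zero fun c _ => ?_
    rcases lt_or_ge (wt c) (wt a) with h | h
    · rw [hY a c h, zero_mul]
    · rw [hZ c b (by omega), mul_zero]
  add_mem' := by
    intro Y Z hY hZ a b hab
    rw [Matrix.add_apply, hY a b hab, hZ a b hab, add_zero]
  algebraMap_mem' := by
    intro r a b hab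
    rw [Matrix.algebraMap_matrix_apply, if_neg]
    rintro rfl
    exact lt_irrefl _ hab

/-- The middle block as a homomorphism. -/
def midHom (l k : ℕ) : Tri l k →ₐ[ℂ] MV k :=
  AlgHom.ofLinearMap
    { toFun := fun Y => midBlock (Y : Matrix (Idx l k) (Idx l k) F)
      map_add' := fun _ _ => rfl
      map_smul' := fun _ _ => rfl }
    (by
      ext a b
      change (1 : Matrix (Idx l k) (Idx l k) F) (mid a) (mid b) = _
      rw [Matrix.one_apply, Matrix.one_apply]
      have hinj : (mid a : Idx l k) = mid b ↔ a = b := by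
        rcases a with a | a <;> rcases b with b | b <;> simp [mid]
      simp only [hinj])
    (fun Y Z => midBlock_mul Y.2 Z.2)

theorem midHom_apply (Y : Tri l k) : midHom l k Y = midBlock (Y : Matrix (Idx l k) (Idx l k) F) :=
  rfl

theorem mid_aeval {Y : Matrix (Idx l k) (Idx l k) F} (hY : ∀ a b, wt b < wt a → Y a b = 0)
    (p : ℂ[X]) : (∀ a b, wt b < wt a → aeval Y p a b = 0) ∧
      midBlock (aeval Y p) = aeval (midBlock Y) p := by
  have h1 : aeval Y p = ((aeval (⟨Y, hY⟩ : Tri l k) p : Tri l k) :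
      Matrix (Idx l k) (Idx l k) F) := by
    have := Polynomial.aeval_algHom_apply (Tri l k).val (⟨Y, hY⟩ : Tri l k) p
    exact this
  refine ⟨?_, ?_⟩
  · rw [h1]
    exact (aeval (⟨Y, hY⟩ : Tri l k) p).2
  · rw [h1, ← midHom_apply, ← Polynomial.aeval_algHom_apply]
    rfl

theorem mid_pow {Y : Matrix (Idx l k) (Idx l k) F} (hY : ∀ a b, wt b < wt a → Y a b = 0)
    (n : ℕ) : midBlock (Y ^ n) = midBlock Y ^ n := by
  have := (mid_aeval hY (X ^ n)).2
  rwa [map_pow, map_pow, aeval_X, aeval_X] at this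

/-- matrices acting on `V` -/
def mvHom (k : ℕ) : MV k →ₐ[ℂ] Module.End ℂ (V k) :=
  AlgHom.ofLinearMap
    { toFun := fun X => mv X
      map_add' := fun X Y => LinearMap.ext fun x => Matrix.add_mulVec X Y x
      map_smul' := fun c X => LinearMap.ext fun x => Matrix.smul_mulVec c X x }
    (LinearMap.ext fun x => Matrix.one_mulVec x)
    (fun X Y => LinearMap.ext fun x => (Matrix.mulVec_mulVec x X Y).symm)

theorem mvHom_apply (X : MV k) (x : V k) : mvHom k X x = X *ᵥ x := rfl

/-- The algebra containing the middle blocks. -/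
def SMalg (kap nu : Fin k → ℕ) : Subalgebra ℂ (MV k) where
  carrier := {X | ∀ a b, OG (max 0 (wm kap nu a - wm kap nu b)) (X a b)}
  mul_mem' := by
    intro X Y hX hY a b
    rw [Matrix.mul_apply]
    refine OG.sum fun c _ => ?_
    refine (OG.mul (hX a c) (hY c b)).mono ?_
    rcases max_cases 0 (wm kap nu a - wm kap nu c) with h | h <;>
      rcases max_cases 0 (wm kap nu c - wm kap nu b) with h' | h' <;>
      rcases max_cases 0 (wm kap nu a - wm kap nu b) with h'' | h'' <;> omega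
  add_mem' := by
    intro X Y hX hY a b
    exact OG.add (hX a b) (hY a b)
  algebraMap_mem' := by
    intro r a b
    rw [Matrix.algebraMap_matrix_apply]
    split_ifs with h
    · subst h
      rw [sub_self, max_self]
      intro p hp
      rw [coeff_algebraMap, if_neg (by omega)]
    · exact OG.zero _

variable {lam : Fin (l + 1) → ℤ} {kap nu : Fin k → ℕ}

/-- The diagonal entry at a special index, modulo `t`. -/
def epsHom (hd : Dom lam kap nu) {j : Fin k} (hj : kap j ≠ 0) : SMalg kap nu →ₐ[ℂ] ℂ :=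
  AlgHom.ofLinearMap
    { toFun := fun X => ((X : MV k) (Sum.inl j) (Sum.inl j)).coeff 0
      map_add' := fun _ _ => rfl
      map_smul' := fun c X => by
        change (c • (X : MV k) (Sum.inl j) (Sum.inl j)).coeff 0 = _
        rw [coeff_smul]; rfl }
    (by
      change ((1 : MV k) (Sum.inl j) (Sum.inl j)).coeff 0 = 1
      rw [Matrix.one_apply_eq, ← tp_zero, coeff_tp, if_pos rfl])
    (fun X Y => by
      change (((X : MV k) * (Y : MV k)) (Sum.inl j) (Sum.inl j)).coeff 0 =
        ((X : MV k) (Sum.inl j) (Sum.inl j)).coeff 0 * ((Y : MV k) (Sum.inl j) (Sum.inl j)).coeff 0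
      rw [Matrix.mul_apply, coeff_sum, Finset.sum_eq_single (Sum.inl j)]
      · refine coeff_zero_mul ?_ ?_
        · exact (X.2 _ _).mono (le_max_left _ _)
        · exact (Y.2 _ _).mono (le_max_left _ _)
      · intro b _ hb
        have h1 := hd.isolated hj b hb
        refine (OG.mul (X.2 _ _) (Y.2 _ _)) 0 ?_
        rcases max_cases 0 (wm kap nu (Sum.inl j) - wm kap nu b) with h | h <;>
          rcases max_cases 0 (wm kap nu b - wm kap nu (Sum.inl j)) with h' | h' <;> omega
      · intro h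
        exact absurd (Finset.mem_univ _) h)

theorem eps_aeval (hd : Dom lam kap nu) {j : Fin k} (hj : kap j ≠ 0) {X : MV k}
    (hX : StabM kap nu X) (p : ℂ[X]) : (aeval X p (Sum.inl j) (Sum.inl j)).coeff 0 =
      p.eval ((X (Sum.inl j) (Sum.inl j)).coeff 0) := by
  have h1 : aeval X p = ((aeval (⟨X, hX.ord⟩ : SMalg kap nu) p : SMalg kap nu) : MV k) := by
    have := Polynomial.aeval_algHom_apply (SMalg kap nu).val (⟨X, hX.ord⟩ : SMalg kap nu) p
    exact this
  have h2 := Polynomial.aeval_algHom_apply (epsHom hd hj) (⟨X, hX.ord⟩ : SMalg kap nu) p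
  rw [h1]
  change epsHom hd hj (aeval (⟨X, hX.ord⟩ : SMalg kap nu) p) = _
  rw [← h2, Polynomial.coe_aeval_eq_eval]
  rfl

theorem conj_aeval {ι : Type} [Fintype ι] [DecidableEq ι] (u u' x : Matrix ι ι F) (h : u * u' = 1)
    (h' : u' * u = 1) (p : ℂ[X]) : aeval (u' * x * u) p = u' * aeval x p * u := by
  rw [Polynomial.aeval_eq_sum_range, Polynomial.aeval_eq_sum_range, Finset.mul_sum, Finset.sum_mul]
  refine Finset.sum_congr rfl fun i _ => ?_
  rw [conj_pow_mat u u' x h i h', Matrix.mul_smul, Matrix.smul_mul]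

/-- decomposition in eigenvectors -/
theorem eig_dec {V : Type} [AddCommGroup V] [Module ℂ V] (f : Module.End ℂ V) (D : Finset ℂ) :
    ∀ x : V, aeval f (∏ e ∈ D, (X - C e)) x = 0 →
      ∃ y : ℂ → V, (∀ e ∈ D, f (y e) = e • y e) ∧ x = ∑ e ∈ D, y e := by
  induction D using Finset.induction_on with
  | empty =>
    intro x hx
    refine ⟨0, by simp, ?_⟩
    rw [Finset.prod_empty, map_one, Module.End.one_apply] at hx
    rw [hx, Finset.sum_empty]
  | insert d₀ D hd₀ ih =>
    intro x hx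
    rw [Finset.prod_insert hd₀, mul_comm, map_mul, Module.End.mul_apply] at hx
    obtain ⟨y, hy, hsum⟩ := ih _ hx
    have h0 : aeval f (X - C d₀) x = f x - d₀ • x := by
      rw [map_sub, aeval_X, aeval_C]
      rfl
    rw [h0] at hsum
    have hne : ∀ e ∈ D, e - d₀ ≠ 0 := fun e he h => hd₀ (by rwa [← sub_eq_zero.1 h])
    refine ⟨fun e => if e = d₀ then x - ∑ e ∈ D, (e - d₀)⁻¹ • y e else (e - d₀)⁻¹ • y e,
      ?_, ?_⟩
    · intro e he
      by_cases hed : e = d₀
      · simp only [if_pos hed]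
        rw [hed, map_sub, map_sum, smul_sub, Finset.smul_sum]
        have h1 : f x = d₀ • x + ∑ e ∈ D, y e := by rw [← hsum]; abel
        have h2 : ∑ e ∈ D, f ((e - d₀)⁻¹ • y e) =
            ∑ e ∈ D, d₀ • (e - d₀)⁻¹ • y e + ∑ e ∈ D, y e := by
          rw [← Finset.sum_add_distrib]
          refine Finset.sum_congr rfl fun e he => ?_
          rw [map_smul, hy e he]
          have h3 : (e - d₀)⁻¹ • e • y e = d₀ • (e - d₀)⁻¹ • y e + ((e - d₀)⁻¹ * (e - d₀)) • y e := by
            module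
          rw [h3, inv_mul_cancel₀ (hne e he), one_smul]
        rw [h1, h2]
        abel
      · simp only [if_neg hed]
        have he' : e ∈ D := by
          rcases Finset.mem_insert.1 he with h | h
          · exact absurd h hed
          · exact h
        rw [map_smul, hy e he', smul_comm]
    · rw [Finset.sum_insert hd₀, if_pos rfl]
      have h4 : ∑ e ∈ D, (if e = d₀ then x - ∑ e ∈ D, (e - d₀)⁻¹ • y e else (e - d₀)⁻¹ • y e) =
          ∑ e ∈ D, (e - d₀)⁻¹ • y e := by
        refine Finset.sum_congr rfl fun e he => ?_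
        rw [if_neg (fun h => hd₀ (by rwa [← h]))]
      rw [h4, sub_add_cancel]

end Alg

section Equi

variable {lam : Fin (l + 1) → ℤ} {kap nu : Fin k → ℕ} {c : ℂ} {hc : ∀ q : ℚ, (q : ℂ) ≠ c}
  {W : WeylModule k} {m₀ : W.M}

theorem tPoint_mul_inv (lam : Fin (l + 1) → ℤ) (mu : Fin k → ℤ) :
    tPoint lam mu * (tPoint lam mu)⁻¹ = 1 ∧ (tPoint lam mu)⁻¹ * tPoint lam mu = 1 := by
  rw [tPoint_inv, tPoint_eq, Matrix.diagonal_mul_diagonal, Matrix.diagonal_mul_diagonal]
  simp only [tp_mul_tp, add_neg_cancel, neg_add_cancel, tp_zero]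
  exact ⟨Matrix.diagonal_one, Matrix.diagonal_one⟩

theorem Tri_of_lie {Y : Matrix (Idx l k) (Idx l k) F} (hY : Y ∈ lieGamma l k) :
    ∀ a b, wt b < wt a → Y a b = 0 := hY.2.1

/-- a bound for the exponents -/
theorem ex_bound (lam : Fin (l + 1) → ℤ) (mu : Fin k → ℤ) :
    ∃ E : ℤ, ∀ a b, -E ≤ ex lam mu a - ex lam mu b := by
  refine ⟨∑ a, |ex lam mu a| + ∑ a, |ex lam mu a|, fun a b => ?_⟩
  have h1 := Finset.single_le_sum (f := fun a => |ex lam mu a|) (fun i _ => abs_nonneg _)
    (Finset.mem_univ a)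
  have h2 := Finset.single_le_sum (f := fun a => |ex lam mu a|) (fun i _ => abs_nonneg _)
    (Finset.mem_univ b)
  have h3 := neg_abs_le (ex lam mu a)
  have h4 := le_abs_self (ex lam mu b)
  omega

theorem pow_small {Y : Matrix (Idx l k) (Idx l k) F} (h : InStab lam kap nu Y)
    (hnil : IsNilpotent (((tPoint lam (mun kap nu))⁻¹ * Y * tPoint lam (mun kap nu)).map
      fun x => x.coeff 0)) :
    ∃ n : ℕ, ∀ r : ℕ, ∀ a b, OG (r + (ex lam (mun kap nu) a - ex lam (mun kap nu) b))
      ((Y ^ (n * r)) a b) := by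
  obtain ⟨n, hn⟩ := hnil
  refine ⟨n, fun r a b => ?_⟩
  obtain ⟨e1, e2⟩ := tPoint_mul_inv lam (mun kap nu)
  rw [← map_pow_int h] at hn
  have h1 := OG_one_of_map (int_pow h n) hn
  have h2 := OG_pow h1 r a b
  rw [← pow_mul, conj_pow_mat _ _ _ e1 _ e2, conj_apply, OG_tp_mul] at h2
  exact h2.mono (by omega)

theorem top_nil {Y : Matrix (Idx l k) (Idx l k) F} (hY : Y ∈ lieGamma l k)
    (h : InStab lam kap nu Y)
    (hnil : IsNilpotent (((tPoint lam (mun kap nu))⁻¹ * Y * tPoint lam (mun kap nu)).map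
      fun x => x.coeff 0)) (x : V k) (N : ℤ) : ∃ i : ℕ, OGV N ((midBlock Y ^ i) *ᵥ x) := by
  obtain ⟨n, hn⟩ := pow_small h hnil
  obtain ⟨N₁, h1⟩ := exists_OGV x
  obtain ⟨E, hE⟩ := ex_bound lam (mun kap nu)
  refine ⟨n * (N + N₁ + E).toNat, fun a => ?_⟩
  rw [← mid_pow (Tri_of_lie hY)]
  unfold Matrix.mulVec dotProduct
  refine OG.sum fun b _ => ?_
  refine (OG.mul (hn _ (mid a) (mid b)) (h1 b)).mono ?_
  have h2 := hE (mid a) (mid b)
  have h3 := Int.self_le_toNat (N + N₁ + E)
  omega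

theorem diag_zero (hd : Dom lam kap nu) {Y : Matrix (Idx l k) (Idx l k) F}
    (hY : Y ∈ lieGamma l k) (h : InStab lam kap nu Y)
    (hnil : IsNilpotent (((tPoint lam (mun kap nu))⁻¹ * Y * tPoint lam (mun kap nu)).map
      fun x => x.coeff 0)) {j : Fin k} (hj : kap j ≠ 0) :
    (midBlock Y (Sum.inl j) (Sum.inl j)).coeff 0 = 0 := by
  obtain ⟨n, hn⟩ := pow_small h hnil
  have h1 := hn 1 (mid (Sum.inl j)) (mid (Sum.inl j)) 0 (by push_cast; omega)
  have h2 := eps_aeval hd hj (h.mid hY) (X ^ (n * 1))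
  rw [map_pow, aeval_X, ← mid_pow (Tri_of_lie hY), eval_pow, eval_X] at h2
  have h3 : (midBlock (Y ^ (n * 1)) (Sum.inl j) (Sum.inl j)).coeff 0 = 0 := h1
  rw [h3] at h2
  exact eq_zero_of_pow_eq_zero h2.symm

theorem equi_nil (hd : Dom lam kap nu) (h0 : IsVac (tyOf c hc kap nu) W m₀)
    (hgen : ∀ Z : Submodule ℂ W.M, (∀ x, ∀ m ∈ Z, W.a x m ∈ Z) → m₀ ∈ Z → Z = ⊤)
    (Y : lieGamma l k) (h : InStab lam kap nu (Y : Matrix (Idx l k) (Idx l k) F))
    (hnil : IsNilpotent (((tPoint lam (mun kap nu))⁻¹ * (Y : Matrix (Idx l k) (Idx l k) F) *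
      tPoint lam (mun kap nu)).map fun x => x.coeff 0)) :
    LocNil (rho l c lam kap nu W Y) := by
  have h1 := hgen (nilSub (rho l c lam kap nu W Y))
    (nil_stable (fun x m => rho_comm Y x m) (top_nil Y.2 h hnil)) ⟨1, by
      rw [pow_one, rho_vac hd h0 Y h, Finset.sum_eq_zero, zero_smul]
      intro j _
      by_cases hj : kap j = 0
      · rw [hd.zero j hj, Nat.cast_zero, mul_zero]
      · rw [diag_zero hd Y.2 h hnil hj, zero_mul]⟩
  intro m
  have : m ∈ nilSub (rho l c lam kap nu W Y) := by rw [h1]; trivial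
  exact this

theorem aeval_diag_zero {ι : Type} [Fintype ι] [DecidableEq ι] (d : ι → ℤ) (D : Finset ℂ)
    (hD : ∀ i, (d i : ℂ) ∈ D) :
    aeval (Matrix.diagonal fun i => (d i : F)) (∏ e ∈ D, (X - C e)) = 0 := by
  have h1 : (Matrix.diagonal fun i => (d i : F)) =
      Matrix.diagonalAlgHom ℂ (fun i => (d i : F)) := rfl
  rw [h1, Polynomial.aeval_algHom_apply, Polynomial.aeval_pi_apply]
  have h2 : (fun i => aeval (d i : F) (∏ e ∈ D, (X - C e))) = (0 : ι → F) := by
    funext i
    have h3 : (d i : F) = algebraMap ℂ F (d i : ℂ) := (map_intCast (algebraMap ℂ F) (d i)).symm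
    rw [h3, Polynomial.aeval_algebraMap_apply, Polynomial.coe_aeval_eq_eval,
      Polynomial.eval_prod, Finset.prod_eq_zero (hD i), map_zero]
    · rfl
    · rw [eval_sub, eval_X, eval_C, sub_self]
  rw [h2, map_zero]

theorem om_aeval {Y : MV k} (hY : Good Y) {v x : V k} (hx : Y *ᵥ x = 0) (q : ℂ[X]) :
    omr k ((aeval Y q) *ᵥ v) x = q.coeff 0 * omr k v x := by
  induction q using Polynomial.induction_on' with
  | add p q hp hq =>
    rw [map_add, Matrix.add_mulVec, map_add, LinearMap.add_apply, hp, hq, Polynomial.coeff_add, add_mul]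
  | monomial n a =>
    rw [aeval_monomial, ← Algebra.smul_def, Matrix.smul_mulVec, map_smul, LinearMap.smul_apply]
    cases n with
    | zero => rw [pow_zero, Matrix.one_mulVec, coeff_monomial, if_pos rfl, smul_eq_mul]
    | succ n =>
      rw [pow_succ', ← Matrix.mulVec_mulVec, hY.omr, hx, map_zero, neg_zero, smul_zero,
        coeff_monomial, if_neg (Nat.succ_ne_zero n), zero_mul]

theorem equi_diag (hd : Dom lam kap nu) (h0 : IsVac (tyOf c hc kap nu) W m₀)
    (hgen : ∀ Z : Submodule ℂ W.M, (∀ x, ∀ m ∈ Z, W.a x m ∈ Z) → m₀ ∈ Z → Z = ⊤)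
    (Y : lieGamma l k) (h : InStab lam kap nu (Y : Matrix (Idx l k) (Idx l k) F))
    (hdiag : ∃ g, InGO g ∧ ∃ d : Idx l k → ℤ, (tPoint lam (mun kap nu))⁻¹ *
      (Y : Matrix (Idx l k) (Idx l k) F) * tPoint lam (mun kap nu) =
          g * Matrix.diagonal (fun i => (d i : F)) * g⁻¹) :
    IntDiag (rho l c lam kap nu W Y) := by
  obtain ⟨g, hg, d, hgd⟩ := hdiag
  set D : Finset ℂ := insert 0 (Finset.univ.image fun i => (d i : ℂ)) with hD
  have hDint : ∀ e ∈ D, ∃ n : ℤ, e = n := by
    intro e he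
    rcases Finset.mem_insert.1 he with h | h
    · exact ⟨0, by rw [h]; simp⟩
    · obtain ⟨i, _, hi⟩ := Finset.mem_image.1 h
      exact ⟨d i, hi.symm⟩
  obtain ⟨e1, e2⟩ := tPoint_mul_inv lam (mun kap nu)
  have hu : IsUnit g.det := SymplecticGroup.symplectic_det hg.1
  have hY0 : aeval (Y : Matrix (Idx l k) (Idx l k) F) (∏ e ∈ D, (X - C e)) = 0 := by
    have h1 := conj_aeval _ _ (Y : Matrix (Idx l k) (Idx l k) F) e1 e2 (∏ e ∈ D, (X - C e))
    have h2 := conj_aeval g⁻¹ g (Matrix.diagonal (fun i => (d i : F)))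
      (Matrix.nonsing_inv_mul _ hu) (Matrix.mul_nonsing_inv _ hu) (∏ e ∈ D, (X - C e))
    rw [hgd, h2, aeval_diag_zero d D (fun i => Finset.mem_insert_of_mem
      (Finset.mem_image_of_mem _ (Finset.mem_univ i))), Matrix.mul_zero, Matrix.zero_mul] at h1
    have h3 : aeval (Y : Matrix (Idx l k) (Idx l k) F) (∏ e ∈ D, (X - C e)) =
        tPoint lam (mun kap nu) * ((tPoint lam (mun kap nu))⁻¹ *
          aeval (Y : Matrix (Idx l k) (Idx l k) F) (∏ e ∈ D, (X - C e)) *
          tPoint lam (mun kap nu)) * (tPoint lam (mun kap nu))⁻¹ := by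
      rw [Matrix.mul_assoc, Matrix.mul_assoc, Matrix.mul_assoc, e1, Matrix.mul_one,
        ← Matrix.mul_assoc, e1, Matrix.one_mul]
    rw [h3, ← h1, Matrix.mul_zero, Matrix.zero_mul]
  set M := midBlock (Y : Matrix (Idx l k) (Idx l k) F) with hM
  have hX0 : aeval M (∏ e ∈ D, (X - C e)) = 0 := by
    rw [hM, ← (mid_aeval (Tri_of_lie Y.2) _).2, hY0]
    rfl
  have hst := h.mid Y.2
  have hα : ∀ j, kap j ≠ 0 → ∃ n : ℤ, (M (Sum.inl j) (Sum.inl j)).coeff 0 = n := by
    intro j hj
    have h1 := eps_aeval hd hj hst (∏ e ∈ D, (X - C e))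
    rw [hX0, Matrix.zero_apply, coeff_zero, eval_prod] at h1
    obtain ⟨e, he, h2⟩ := Finset.prod_eq_zero_iff.1 h1.symm
    rw [eval_sub, eval_X, eval_C, sub_eq_zero] at h2
    obtain ⟨n, hn⟩ := hDint e he
    exact ⟨n, by rw [← hn]; exact h2⟩
  -- the component in `V` of the element
  set v := heisV (Y : Matrix (Idx l k) (Idx l k) F) with hv
  have hω : ∀ x : V k, M *ᵥ x = 0 → omr k v x = 0 := by
    intro x hx
    have h1 : (∏ e ∈ D, (X - C e) : ℂ[X]) = (∏ e ∈ D.erase 0, (X - C e)) * X := by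
      rw [mul_comm, ← Finset.mul_prod_erase D _ (Finset.mem_insert_self 0 _), C_0, sub_zero]
    rw [h1, map_mul, aeval_X] at hY0
    have h2 := heisV_mul (mid_aeval (Tri_of_lie Y.2) (∏ e ∈ D.erase 0, (X - C e))).1
      (Tri_of_lie Y.2)
    have h3 : (Y : Matrix (Idx l k) (Idx l k) F) top top = 0 :=
      Y.2.2.2.1 _ _ rfl (by rw [wt_top]; exact one_ne_zero)
    have h4 : heisV (0 : Matrix (Idx l k) (Idx l k) F) = 0 := rfl
    rw [hY0, h4, h3, zero_smul, add_zero, (mid_aeval (Tri_of_lie Y.2) _).2] at h2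
    have h5 := om_aeval hst.good (v := v) hx (∏ e ∈ D.erase 0, (X - C e))
    rw [← hv, ← hM] at h2
    rw [← h2, map_zero, LinearMap.zero_apply] at h5
    rcases mul_eq_zero.1 h5.symm with h6 | h6
    · exfalso
      rw [coeff_zero_eq_eval_zero, eval_prod, Finset.prod_eq_zero_iff] at h6
      obtain ⟨e, he, h7⟩ := h6
      rw [eval_sub, eval_X, eval_C, zero_sub, neg_eq_zero] at h7
      exact (Finset.mem_erase.1 he).1 h7
    · exact h6
  set R := rho l c lam kap nu W Y with hR
  set S := Submodule.span ℂ {v : W.M | ∃ d : ℤ, R v = (d : ℂ) • v} with hS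
  have key : ∀ x, ∀ m ∈ S, W.a x m ∈ S := by
    intro x m hm
    induction hm using Submodule.span_induction with
    | zero => rw [map_zero]; exact Submodule.zero_mem _
    | add m m' _ _ h h' => rw [map_add]; exact Submodule.add_mem _ h h'
    | smul r m _ h => rw [map_smul]; exact Submodule.smul_mem _ _ h
    | mem m hm =>
      obtain ⟨d', hd'⟩ := hm
      have h1 : aeval (mvHom k M) (∏ e ∈ D, (X - C e)) x = 0 := by
        rw [Polynomial.aeval_algHom_apply, hX0, map_zero, LinearMap.zero_apply]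
      obtain ⟨y, hy, hsum⟩ := eig_dec (mvHom k M) D x h1
      rw [hsum, map_sum, LinearMap.sum_apply]
      refine Submodule.sum_mem _ fun e he => ?_
      have hye := hy e he
      rw [mvHom_apply] at hye
      have hc1 := rho_comm (c := c) (lam := lam) (kap := kap) (nu := nu) (W := W) Y (y e) m
      rw [← hR, hd', ← hM, hye, ← hv] at hc1
      by_cases he0 : e = 0
      · refine Submodule.subset_span ⟨d', ?_⟩
        rw [he0, zero_smul] at hye
        rw [hc1, he0, zero_smul, map_zero, LinearMap.zero_apply, hω _ hye, zero_smul, add_zero,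
          add_zero, map_smul]
      · obtain ⟨n, hn⟩ := hDint e he
        have h2 : W.a (y e) m + (e⁻¹ * omr k v (y e)) • m ∈ S := by
          refine Submodule.subset_span ⟨d' + n, ?_⟩
          rw [map_add R, hc1, map_smul (W.a (y e)), map_smul W.a, map_smul R, hd',
            LinearMap.smul_apply]
          push_cast
          rw [← hn]
          have h3 : omr k v (y e) = e * (e⁻¹ * omr k v (y e)) := by
            rw [← mul_assoc, mul_inv_cancel₀ he0, one_mul]
          have h4 : ∀ w : ℂ, omr k v (y e) = e * w →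
              (d' : ℂ) • W.a (y e) m + (e • W.a (y e) m + omr k v (y e) • m) +
                w • (d' : ℂ) • m = ((d' : ℂ) + e) • (W.a (y e) m + w • m) := by
            intro w hw
            rw [hw]
            module
          exact h4 _ h3
        have h5 : m ∈ S := Submodule.subset_span ⟨d', hd'⟩
        have h6 := Submodule.sub_mem _ h2 (Submodule.smul_mem S (e⁻¹ * omr k v (y e)) h5)
        rwa [add_sub_cancel_right] at h6
  have hm₀ : m₀ ∈ S := by
    choose! n hn using hα
    refine Submodule.subset_span ⟨∑ j, n j * nu j, ?_⟩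
    rw [hR, rho_vac hd h0 Y h]
    congr 1
    push_cast
    refine Finset.sum_congr rfl fun j _ => ?_
    by_cases hj : kap j = 0
    · rw [hd.zero j hj, Nat.cast_zero, mul_zero, mul_zero]
    · rw [← hn j hj]
  have htop := hgen S key hm₀
  intro m
  change m ∈ S
  rw [htop]
  trivial

/-- The module generated by the vacuum vector is equivariant. -/
theorem equi_of_vac (hd : Dom lam kap nu) (h0 : IsVac (tyOf c hc kap nu) W m₀)
    (hgen : ∀ Z : Submodule ℂ W.M, (∀ x, ∀ m ∈ Z, W.a x m ∈ Z) → m₀ ∈ Z → Z = ⊤) :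
    IsEquivariant c (tPoint lam (mun kap nu)) W :=
  ⟨stdT l W, stdT_isLift W, fun Y hY => ⟨fun hn => equi_nil hd h0 hgen Y hY hn,
    fun hdiag => equi_diag hd h0 hgen Y hY hdiag⟩⟩

end Equi

end Pool.Agent.H143_GC
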