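import Pool.Agent.H143_GC.Defs

/-! Internal forms of the definitions, with linear maps. -/

noncomputable section

open Matrix

namespace Pool.Agent.H143_GC

theorem coeff_zero (p : ℤ) : (0 : F).coeff p = 0 := rfl

theorem coeff_add (x y : F) (p : ℤ) : (x + y).coeff p = x.coeff p + y.coeff p := rfl

theorem coeff_neg (x : F) (p : ℤ) : (-x).coeff p = -x.coeff p := rfl

theorem coeff_C_mul_aux (c : ℂ) (x : LaurentSeries ℂ) (p : ℤ) :
    (HahnSeries.C c * x).coeff p = c * x.coeff p := by
  rw [HahnSeries.C_mul_eq_smul, HahnSeries.coeff_smul, smul_eq_mul]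

theorem coeff_smul (c : ℂ) (x : F) (p : ℤ) : (c • x).coeff p = c * x.coeff p :=
  coeff_C_mul_aux c x p

/-- The Lie algebra of `Γ`: the elements of `sp(2n, F)` whose part of degree zero lies in
`sp(2k, O)` and whose parts of positive degree vanish. -/
def lieGamma (l k : ℕ) : Submodule ℂ (Matrix (Idx l k) (Idx l k) F) where
  carrier := {Y | InLieSp Y ∧
    (∀ a b, wt b < wt a → Y a b = 0) ∧
    (∀ a b, wt a = wt b → wt a ≠ 0 → Y a b = 0) ∧
    (∀ a b, wt a = 0 → wt b = 0 → IsInt (Y a b))}
  add_mem' := by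
    rintro Y Z ⟨h1, h2, h3, h4⟩ ⟨k1, k2, k3, k4⟩
    refine ⟨?_, fun a b h => by simp [h2 a b h, k2 a b h],
      fun a b h h' => by simp [h3 a b h h', k3 a b h h'],
      fun a b h h' p hp => ?_⟩
    · unfold InLieSp at *
      rw [Matrix.transpose_add, Matrix.add_mul, Matrix.mul_add, add_add_add_comm, h1, k1, add_zero]
    · rw [Matrix.add_apply, coeff_add, h4 a b h h' p hp, k4 a b h h' p hp, add_zero]
  zero_mem' := ⟨by simp [InLieSp], fun _ _ _ => rfl, fun _ _ _ _ => rfl, fun _ _ _ _ _ _ => rfl⟩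
  smul_mem' := by
    rintro c Y ⟨h1, h2, h3, h4⟩
    refine ⟨?_, fun a b h => by simp [h2 a b h],
      fun a b h h' => by simp [h3 a b h h'],
      fun a b h h' p hp => ?_⟩
    · unfold InLieSp at *
      rw [Matrix.transpose_smul, Matrix.smul_mul, Matrix.mul_smul, ← smul_add, h1, smul_zero]
    · rw [Matrix.smul_apply, coeff_smul, h4 a b h h' p hp, mul_zero]

/-- A discrete module over the (completed) Weyl algebra of the Tate space `F^{2k}` with the
symplectic form `Res ⟨x, y⟩ dt`: the generator `x ∈ F^{2k}` acts by `a x`, and each vector is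
annihilated by a lattice `t^N O^{2k}`. -/
structure WeylModule (k : ℕ) where
  /-- the underlying vector space -/
  M : Type
  [grp : AddCommGroup M]
  [mod : Module ℂ M]
  /-- the action of the generators of the Weyl algebra -/
  a : (Fin k ⊕ Fin k → F) →ₗ[ℂ] Module.End ℂ M
  comm : ∀ x y m, a x (a y m) - a y (a x m) = res (om x y) • m
  discrete : ∀ m, ∃ N : ℤ, ∀ x : Fin k ⊕ Fin k → F,
    (∀ i, ∀ p < N, (x i).coeff p = 0) → a x m = 0

attribute [instance] WeylModule.grp WeylModule.mod

/-- A module over the Weyl algebra is simple. -/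
def WeylModule.IsSimple {k : ℕ} (W : WeylModule k) : Prop :=
  (∃ m : W.M, m ≠ 0) ∧
    ∀ Z : Submodule ℂ W.M, (∀ x, ∀ m ∈ Z, W.a x m ∈ Z) → Z = ⊥ ∨ Z = ⊤

/-- An operator is locally nilpotent. -/
def LocNil {M : Type} [AddCommGroup M] [Module ℂ M] (A : Module.End ℂ M) : Prop :=
  ∀ m, ∃ N : ℕ, (A ^ N) m = 0

/-- An operator is diagonalisable with integral eigenvalues. -/
def IntDiag {M : Type} [AddCommGroup M] [Module ℂ M] (A : Module.End ℂ M) : Prop :=
  ∀ m, m ∈ Submodule.span ℂ {v : M | ∃ d : ℤ, A v = (d : ℂ) • v}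

/-- `T` is the action of the Lie algebra of `Γ = Sp(2k, O) ⋉ U_k(F)` on the module `W` through the
completed Weyl algebra. The Lie algebra of `U_k(F)` acts through its Heisenberg quotient (`heis`);
`sp(2k, O)` acts by quadratic elements (`comm`); the operators come from the completed Weyl algebra,
so they commute with all endomorphisms of `W` (`natural`). There is at most one such `T`, because
`sp(2k, O)` is a perfect Lie algebra. -/
structure IsLift {l k : ℕ} (W : WeylModule k) (T : lieGamma l k →ₗ[ℂ] Module.End ℂ W.M) : Prop where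
  bracket : ∀ X Y Z : lieGamma l k,
    (X : Matrix (Idx l k) (Idx l k) F) = (Y : Matrix (Idx l k) (Idx l k) F) * Z - Z * Y →
    ∀ m, T X m = T Y (T Z m) - T Z (T Y m)
  comm : ∀ (Y : lieGamma l k) x m, T Y (W.a x m) - W.a x (T Y m) =
    W.a (midBlock (Y : Matrix (Idx l k) (Idx l k) F) *ᵥ x) m +
      res (om (heisV (Y : Matrix (Idx l k) (Idx l k) F)) x) • m
  heis : ∀ Y : lieGamma l k, midBlock (Y : Matrix (Idx l k) (Idx l k) F) = 0 → ∀ m,
    T Y m = W.a (heisV (Y : Matrix (Idx l k) (Idx l k) F)) m +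
      psi (Y : Matrix (Idx l k) (Idx l k) F) • m
  natural : ∀ φ : Module.End ℂ W.M, (∀ x m, φ (W.a x m) = W.a x (φ m)) →
    ∀ (Y : lieGamma l k) m, φ (T Y m) = T Y (φ m)

/-- The module `W` with the point `g G(O)` of the affine Grassmannian is an equivariant object: the
action `Y ↦ T Y + χ_g(Y)` of the Lie algebra of the stabiliser of `g G(O)` in `Γ` integrates to an
action of the stabiliser, a connected pro-algebraic group contained in `g G(O) g⁻¹`.  That is: the
elements `Y` with `g⁻¹ Y g` nilpotent modulo `t` act locally nilpotently, and the elements `Y`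
tangent to a one-parameter subgroup `ℂˣ → g G(O) g⁻¹` act semisimply with integral eigenvalues. -/
def IsEquivariant {l k : ℕ} (c : ℂ) (g : Matrix (Idx l k) (Idx l k) F) (W : WeylModule k) : Prop :=
  ∃ T : lieGamma l k →ₗ[ℂ] Module.End ℂ W.M, IsLift W T ∧
    ∀ Y : lieGamma l k,
      (∀ a b, IsInt ((g⁻¹ * (Y : Matrix (Idx l k) (Idx l k) F) * g) a b)) →
      (IsNilpotent ((g⁻¹ * (Y : Matrix (Idx l k) (Idx l k) F) * g).map fun x => x.coeff 0) →
        LocNil (T Y + chi c g (Y : Matrix (Idx l k) (Idx l k) F) • (1 : Module.End ℂ W.M))) ∧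
      ((∃ h, InGO h ∧ ∃ d : Idx l k → ℤ, g⁻¹ * (Y : Matrix (Idx l k) (Idx l k) F) * g =
          h * Matrix.diagonal (fun i => (d i : F)) * h⁻¹) →
        IntDiag (T Y + chi c g (Y : Matrix (Idx l k) (Idx l k) F) • (1 : Module.End ℂ W.M)))

/-- A simple equivariant pair: a point `g G(O)` of the affine Grassmannian of `Sp(2n)` and a simple
discrete module over the Weyl algebra which is equivariant for the stabiliser of this point in `Γ`,
with the twist `c⁻¹`. -/
structure SimplePair (c : ℂ) (l k : ℕ) where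
  /-- the point of the affine Grassmannian -/
  g : Matrix (Idx l k) (Idx l k) F
  /-- the module over the Weyl algebra -/
  W : WeylModule k
  inSp : InSp g
  simple : W.IsSimple
  equivariant : IsEquivariant c g W

/-- Two simple equivariant pairs define the same `Γ`-equivariant object: there are `γ ∈ Γ` and
`h ∈ G(O)` with `g' = γ g h`, and an isomorphism of the modules covering the affine symplectic
transformation of `F^{2k}` given by `γ`. -/
def SimplePair.Rel {c : ℂ} {l k : ℕ} (P Q : SimplePair c l k) : Prop :=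
  ∃ γ h, InGamma γ ∧ InGO h ∧ Q.g = γ * P.g * h ∧ ∃ φ : P.W.M ≃ₗ[ℂ] Q.W.M,
    ∀ x m, φ (P.W.a x m) = Q.W.a (midBlock γ *ᵥ x) (φ m) +
      res (om (heisV γ) (midBlock γ *ᵥ x)) • φ m

end Pool.Agent.H143_GC
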