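import Mathlib
import Pool.Agent.H143_GC.Old

/-!
Shifted Frobenius coordinates of hook diagrams (job 12, helper323).
-/

namespace Pool.Agent.H143_GC

/-- extension by zero -/
def Kx {k : ℕ} (f : Fin k → ℕ) (j : ℕ) : ℕ := if h : j < k then f ⟨j, h⟩ else 0

/-- the membership predicate determined by the data -/
def PP {l k : ℕ} (lam : Fin (l + 1) → ℕ) (kap nu : Fin k → ℕ) (p : ℕ × ℕ) : Prop :=
  if h : p.2 < l + 1 then p.1 < lam ⟨p.2, h⟩
  else if p.1 ≤ p.2 - (l + 1) then Kx kap p.1 ≠ 0 ∧ p.2 - (l + 1) - p.1 ≤ Kx nu p.1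
  else p.1 - (p.2 - (l + 1)) < Kx kap (p.2 - (l + 1))

theorem Kx_fin {k : ℕ} (f : Fin k → ℕ) (j : Fin k) : Kx f j = f j := by
  simp [Kx]

theorem Kx_lt {k : ℕ} {f : Fin k → ℕ} {j : ℕ} (h : Kx f j ≠ 0) : j < k := by
  by_contra h2
  exact h (by simp [Kx, h2])

theorem Kx_dec {k : ℕ} {kap nu : Fin k → ℕ}
    (h4 : ∀ i j : Fin k, i < j → kap j ≠ 0 → kap j < kap i ∧ nu j < nu i) :
    ∀ n i : ℕ, Kx kap (i + n) ≠ 0 → Kx kap (i + n) + n ≤ Kx kap i ∧ Kx nu (i + n) + n ≤ Kx nu i := by
  intro n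
  induction n with
  | zero => intro i _; simp
  | succ n ih =>
    intro i h
    have hlt := Kx_lt h
    have hn : i + n < k := by omega
    have e1 : Kx kap (i + (n + 1)) = kap ⟨i + (n + 1), hlt⟩ := by simp [Kx, hlt]
    have e2 : Kx kap (i + n) = kap ⟨i + n, hn⟩ := by simp [Kx, hn]
    have e3 : Kx nu (i + (n + 1)) = nu ⟨i + (n + 1), hlt⟩ := by simp [Kx, hlt]
    have e4 : Kx nu (i + n) = nu ⟨i + n, hn⟩ := by simp [Kx, hn]
    have h5 := h4 ⟨i + n, hn⟩ ⟨i + (n + 1), hlt⟩ (by rw [Fin.lt_def]; simp only; omega)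
      (by rw [← e1]; exact h)
    rw [← e1, ← e2, ← e3, ← e4] at h5
    have h6 := ih i (by omega)
    omega

theorem Kx_dec' {k : ℕ} {kap nu : Fin k → ℕ}
    (h4 : ∀ i j : Fin k, i < j → kap j ≠ 0 → kap j < kap i ∧ nu j < nu i) (i j : ℕ) (hij : i ≤ j)
    (h : Kx kap j ≠ 0) : Kx kap j + (j - i) ≤ Kx kap i ∧ Kx nu j + (j - i) ≤ Kx nu i := by
  have := Kx_dec h4 (j - i) i (by rwa [Nat.add_sub_cancel' hij])
  rwa [Nat.add_sub_cancel' hij] at this

theorem PP_lower {l k : ℕ} (lam : Fin (l + 1) → ℕ) (kap nu : Fin k → ℕ) (h1 : Antitone lam)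
    (h2 : ∀ j, kap j ≤ lam (Fin.last l))
    (h4 : ∀ i j : Fin k, i < j → kap j ≠ 0 → kap j < kap i ∧ nu j < nu i)
    {i c i' c' : ℕ} (hi : i' ≤ i) (hc : c' ≤ c) (h : PP lam kap nu (i, c)) :
    PP lam kap nu (i', c') := by
  have h2' : ∀ j, Kx kap j ≤ lam (Fin.last l) := by
    intro j
    by_cases hj : j < k
    · simp only [Kx, hj, dif_pos]; exact h2 _
    · simp [Kx, hj]
  have hd := Kx_dec' h4
  unfold PP at h ⊢
  simp only at h ⊢
  by_cases hc' : c' < l + 1
  · rw [dif_pos hc']
    have hlast : lam (Fin.last l) ≤ lam ⟨c', hc'⟩ := h1 (Fin.le_last _)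
    by_cases hcc : c < l + 1
    · rw [dif_pos hcc] at h
      have : lam ⟨c, hcc⟩ ≤ lam ⟨c', hc'⟩ := h1 (by rw [Fin.le_def]; exact hc)
      omega
    · rw [dif_neg hcc] at h
      by_cases hic : i ≤ c - (l + 1)
      · rw [if_pos hic] at h
        have e1 := hd 0 i (Nat.zero_le _) h.1
        have e2 := h2' 0
        have e3 := h.1
        omega
      · rw [if_neg hic] at h
        have e1 := hd 0 (c - (l + 1)) (Nat.zero_le _) (by omega)
        have e2 := h2' 0
        omega
  · rw [dif_neg hc']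
    have hcc : ¬ c < l + 1 := by omega
    rw [dif_neg hcc] at h
    by_cases hic : i ≤ c - (l + 1)
    · rw [if_pos hic] at h
      have e0 := h.1
      by_cases hic' : i' ≤ c' - (l + 1)
      · rw [if_pos hic']
        have e1 := hd i' i hi h.1
        omega
      · rw [if_neg hic']
        have e1 := hd (c' - (l + 1)) i (by omega) h.1
        omega
    · rw [if_neg hic] at h
      by_cases hic' : i' ≤ c' - (l + 1)
      · rw [if_pos hic']
        have e1 := hd i' (c - (l + 1)) (by omega) (by omega)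
        omega
      · rw [if_neg hic']
        have e1 := hd (c' - (l + 1)) (c - (l + 1)) (by omega) (by omega)
        omega

theorem PP_bdd {l k : ℕ} (lam : Fin (l + 1) → ℕ) (kap nu : Fin k → ℕ) {i c : ℕ}
    (h : PP lam kap nu (i, c)) :
    i < k + ∑ j, kap j + ∑ j, lam j ∧ c < (l + 1) + k + ∑ j, nu j := by
  have hk : ∀ j, Kx kap j ≤ ∑ j, kap j := by
    intro j
    by_cases hj : j < k
    · simp only [Kx, hj, dif_pos]
      exact Finset.single_le_sum (f := kap) (fun _ _ => Nat.zero_le _) (Finset.mem_univ _)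
    · simp [Kx, hj]
  have hn : ∀ j, Kx nu j ≤ ∑ j, nu j := by
    intro j
    by_cases hj : j < k
    · simp only [Kx, hj, dif_pos]
      exact Finset.single_le_sum (f := nu) (fun _ _ => Nat.zero_le _) (Finset.mem_univ _)
    · simp [Kx, hj]
  have hl : ∀ j, lam j ≤ ∑ j, lam j := fun j =>
    Finset.single_le_sum (f := lam) (fun _ _ => Nat.zero_le _) (Finset.mem_univ _)
  unfold PP at h
  simp only at h
  by_cases hc : c < l + 1
  · rw [dif_pos hc] at h
    have := hl ⟨c, hc⟩
    omega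
  · rw [dif_neg hc] at h
    by_cases hic : i ≤ c - (l + 1)
    · rw [if_pos hic] at h
      have := Kx_lt h.1
      have := hn i
      omega
    · rw [if_neg hic] at h
      have := Kx_lt (f := kap) (j := c - (l + 1)) (by omega)
      have := hk (c - (l + 1))
      omega

open Classical in
/-- the diagram of the data -/
noncomputable def mkY {l k : ℕ} (lam : Fin (l + 1) → ℕ) (kap nu : Fin k → ℕ) (h1 : Antitone lam)
    (h2 : ∀ j, kap j ≤ lam (Fin.last l))
    (h4 : ∀ i j : Fin k, i < j → kap j ≠ 0 → kap j < kap i ∧ nu j < nu i) : YoungDiagram where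
  cells := (Finset.range (k + ∑ j, kap j + ∑ j, lam j) ×ˢ
    Finset.range ((l + 1) + k + ∑ j, nu j)).filter (PP lam kap nu)
  isLowerSet := by
    rintro ⟨i, c⟩ ⟨i', c'⟩ hle h
    rw [Finset.mem_coe, Finset.mem_filter] at h ⊢
    have h' := PP_lower lam kap nu h1 h2 h4 hle.1 hle.2 h.2
    have hb := PP_bdd lam kap nu h'
    refine ⟨?_, h'⟩
    rw [Finset.mem_product, Finset.mem_range, Finset.mem_range]
    exact hb

theorem mem_mkY {l k : ℕ} (lam : Fin (l + 1) → ℕ) (kap nu : Fin k → ℕ) (h1 : Antitone lam)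
    (h2 : ∀ j, kap j ≤ lam (Fin.last l))
    (h4 : ∀ i j : Fin k, i < j → kap j ≠ 0 → kap j < kap i ∧ nu j < nu i) (p : ℕ × ℕ) :
    p ∈ mkY lam kap nu h1 h2 h4 ↔ PP lam kap nu p := by
  classical
  rw [← YoungDiagram.mem_cells]
  unfold mkY
  simp only [Finset.mem_filter, Finset.mem_product, Finset.mem_range]
  constructor
  · exact fun h => h.2
  · intro h
    obtain ⟨i, c⟩ := p
    exact ⟨PP_bdd lam kap nu h, h⟩

theorem eq_of_lt_iff {a b : ℕ} (h : ∀ n, n < a ↔ n < b) : a = b := by
  have h1 := (h a).2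
  have h2 := (h b).1
  have h3 := (h a)
  have h4 := (h b)
  omega

theorem mem_char {l k : ℕ} (Y : HookDiagram l k) (lam : Fin (l + 1) → ℕ) (kap nu : Fin k → ℕ)
    (hl : ∀ i : Fin (l + 1), Y.1.colLen i = lam i) (hk : ∀ j, leg Y j = kap j)
    (hn : ∀ j, arm Y j = nu j) (p : ℕ × ℕ) : p ∈ Y.1 ↔ PP lam kap nu p := by
  obtain ⟨a, c⟩ := p
  have hhook : ((k, l + 1 + k) : ℕ × ℕ) ∉ Y.1 := by
    rw [YoungDiagram.mem_iff_lt_rowLen]
    have := Y.2
    omega
  have hk' : ∀ j, (hj : j < k) → Kx kap j = Y.1.colLen (l + 1 + j) - j := by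
    intro j hj
    have e := hk ⟨j, hj⟩
    simp only [leg] at e
    simp only [Kx, hj, dif_pos]
    exact e.symm
  have hn' : ∀ j, (hj : j < k) → Kx nu j = Y.1.rowLen j - (l + 1 + j + 1) := by
    intro j hj
    have e := hn ⟨j, hj⟩
    simp only [arm] at e
    simp only [Kx, hj, dif_pos]
    exact e.symm
  unfold PP
  simp only
  by_cases hc : c < l + 1
  · rw [dif_pos hc, YoungDiagram.mem_iff_lt_colLen, ← hl ⟨c, hc⟩]
  · rw [dif_neg hc]
    obtain ⟨d, rfl⟩ : ∃ d, c = l + 1 + d := ⟨c - (l + 1), by omega⟩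
    have ed : l + 1 + d - (l + 1) = d := by omega
    rw [ed]
    by_cases had : a ≤ d
    · rw [if_pos had]
      constructor
      · intro h
        have hak : a < k := by
          by_contra hcon
          exact hhook (Y.1.up_left_mem (by omega) (by omega) h)
        have h5 : (a, l + 1 + a) ∈ Y.1 := Y.1.up_left_mem le_rfl (by omega) h
        rw [YoungDiagram.mem_iff_lt_colLen] at h5
        rw [YoungDiagram.mem_iff_lt_rowLen] at h
        rw [hk' a hak, hn' a hak]
        omega
      · rintro ⟨h5, h6⟩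
        have hak := Kx_lt h5
        rw [hk' a hak] at h5
        rw [hn' a hak] at h6
        have h7 : (a, l + 1 + a) ∈ Y.1 := by
          rw [YoungDiagram.mem_iff_lt_colLen]; omega
        rw [YoungDiagram.mem_iff_lt_rowLen] at h7 ⊢
        omega
    · rw [if_neg had]
      constructor
      · intro h
        have hdk : d < k := by
          by_contra hcon
          exact hhook (Y.1.up_left_mem (by omega) (by omega) h)
        rw [YoungDiagram.mem_iff_lt_colLen] at h
        rw [hk' d hdk]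
        omega
      · intro h
        have hdk : d < k := Kx_lt (f := kap) (by omega)
        rw [hk' d hdk] at h
        rw [YoungDiagram.mem_iff_lt_colLen]
        omega

/-- **Target 1.** -/
theorem hook_dom {l k : ℕ} (Y : HookDiagram l k) :
    Antitone (fun i : Fin (l + 1) => Y.1.colLen i) ∧
    (∀ j, leg Y j ≤ Y.1.colLen (Fin.last l)) ∧ (∀ j, leg Y j = 0 → arm Y j = 0) ∧
    (∀ i j : Fin k, i < j → leg Y j ≠ 0 → leg Y j < leg Y i ∧ arm Y j < arm Y i) := by
  refine ⟨?_, ?_, ?_, ?_⟩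
  · intro i j hij
    exact Y.1.colLen_anti _ _ hij
  · intro j
    unfold leg
    have : Y.1.colLen (l + 1 + j) ≤ Y.1.colLen (Fin.last l) :=
      Y.1.colLen_anti _ _ (by rw [Fin.val_last]; omega)
    omega
  · intro j h
    unfold leg at h
    unfold arm
    have h1 : ((j : ℕ), l + 1 + (j : ℕ)) ∉ Y.1 := by
      rw [YoungDiagram.mem_iff_lt_colLen]; omega
    rw [YoungDiagram.mem_iff_lt_rowLen] at h1
    omega
  · intro i j hij h
    have hij' : (i : ℕ) < j := hij
    unfold leg at h ⊢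
    unfold arm
    have h1 : ((j : ℕ), l + 1 + (j : ℕ)) ∈ Y.1 := by
      rw [YoungDiagram.mem_iff_lt_colLen]; omega
    rw [YoungDiagram.mem_iff_lt_rowLen] at h1
    have h2 : Y.1.colLen (l + 1 + j) ≤ Y.1.colLen (l + 1 + i) :=
      Y.1.colLen_anti _ _ (by omega)
    have h3 : Y.1.rowLen j ≤ Y.1.rowLen i := Y.1.rowLen_anti _ _ (by omega)
    omega

/-- **Target 2.** -/
theorem hook_unique {l k : ℕ} (lam : Fin (l + 1) → ℕ) (kap nu : Fin k → ℕ) (h1 : Antitone lam)
    (h2 : ∀ j, kap j ≤ lam (Fin.last l)) (h3 : ∀ j, kap j = 0 → nu j = 0)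
    (h4 : ∀ i j : Fin k, i < j → kap j ≠ 0 → kap j < kap i ∧ nu j < nu i) :
    ∃! Y : HookDiagram l k, (∀ i : Fin (l + 1), Y.1.colLen i = lam i) ∧ (∀ j, leg Y j = kap j) ∧
      (∀ j, arm Y j = nu j) := by
  have hmem := mem_mkY lam kap nu h1 h2 h4
  have hd := Kx_dec' h4
  have hhook : (mkY lam kap nu h1 h2 h4).rowLen k ≤ l + 1 + k := by
    have h5 : ((k, l + 1 + k) : ℕ × ℕ) ∉ mkY lam kap nu h1 h2 h4 := by
      rw [hmem]
      unfold PP
      simp only
      rw [dif_neg (by omega), if_pos (by omega)]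
      rintro ⟨h6, -⟩
      exact absurd (Kx_lt h6) (lt_irrefl _)
    rw [YoungDiagram.mem_iff_lt_rowLen] at h5
    omega
  refine ⟨⟨mkY lam kap nu h1 h2 h4, hhook⟩, ⟨?_, ?_, ?_⟩, ?_⟩
  · intro i
    refine eq_of_lt_iff fun n => ?_
    rw [← YoungDiagram.mem_iff_lt_colLen, hmem]
    unfold PP
    simp only
    rw [dif_pos i.2]
  · intro j
    unfold leg
    simp only
    by_cases hj : kap j = 0
    · have h5 : (((j : ℕ), l + 1 + (j : ℕ)) : ℕ × ℕ) ∉ mkY lam kap nu h1 h2 h4 := by
        rw [hmem]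
        unfold PP
        simp only
        rw [dif_neg (by omega), if_pos (by omega)]
        rintro ⟨h6, -⟩
        rw [Kx_fin] at h6
        exact h6 hj
      rw [YoungDiagram.mem_iff_lt_colLen] at h5
      omega
    · have h5 : (mkY lam kap nu h1 h2 h4).colLen (l + 1 + j) = j + kap j := by
        refine eq_of_lt_iff fun n => ?_
        rw [← YoungDiagram.mem_iff_lt_colLen, hmem]
        unfold PP
        simp only
        rw [dif_neg (by omega)]
        have ed : l + 1 + (j : ℕ) - (l + 1) = j := by omega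
        rw [ed]
        by_cases hn : n ≤ j
        · rw [if_pos hn]
          have := hd n j hn (by rw [Kx_fin]; exact hj)
          rw [Kx_fin, Kx_fin] at this
          constructor
          · intro _; omega
          · intro _; constructor <;> omega
        · rw [if_neg hn, Kx_fin]
          omega
      omega
  · intro j
    unfold arm
    simp only
    by_cases hj : kap j = 0
    · have h5 : (((j : ℕ), l + 1 + (j : ℕ)) : ℕ × ℕ) ∉ mkY lam kap nu h1 h2 h4 := by
        rw [hmem]
        unfold PP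
        simp only
        rw [dif_neg (by omega), if_pos (by omega)]
        rintro ⟨h6, -⟩
        rw [Kx_fin] at h6
        exact h6 hj
      rw [YoungDiagram.mem_iff_lt_rowLen] at h5
      have := h3 j hj
      omega
    · have key : ∀ c, l + 1 + (j : ℕ) ≤ c → (c < (mkY lam kap nu h1 h2 h4).rowLen j ↔
          c < l + 1 + j + nu j + 1) := by
        intro c hc
        rw [← YoungDiagram.mem_iff_lt_rowLen, hmem]
        unfold PP
        simp only
        rw [dif_neg (by omega), if_pos (by omega), Kx_fin, Kx_fin]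
        constructor
        · rintro ⟨-, h6⟩; omega
        · intro h6; exact ⟨hj, by omega⟩
      have k1 := key (l + 1 + j) le_rfl
      have k2 := key (l + 1 + j + nu j) (by omega)
      have k3 := key (l + 1 + j + nu j + 1) (by omega)
      omega
  · rintro Y' ⟨hl, hk, hn⟩
    apply Subtype.ext
    apply SetLike.ext
    intro p
    rw [mem_char Y' lam kap nu hl hk hn p]
    exact (hmem p).symm

end Pool.Agent.H143_GC
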