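import Pool.Agent.H143_GC.Elem

/-!
Explicit formulas for quadratic operators, simple modules (job by helper605).
-/

noncomputable section

open Matrix

open scoped Classical

namespace Pool.Agent.H143_GC.JQ

open Pool.Agent.H143_GC

variable {k : ℕ} {W : WeylModule k}

theorem aux_single_bv (β γ α : Fin k ⊕ Fin k) (s p : ℤ) :
    (Matrix.single β γ (tp s) : MV k) *ᵥ bv α p = if γ = α then bv β (p + s) else 0 := by
  ext δ
  rw [mulVec_bv, Matrix.single_apply]
  by_cases h : γ = α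
  · rw [if_pos h]
    unfold bv
    by_cases h' : β = δ
    · subst h'
      rw [if_pos ⟨rfl, h⟩, Pi.single_eq_same, tp_mul_tp, add_comm]
    · rw [if_neg (fun h2 => h' h2.1), Pi.single_eq_of_ne (Ne.symm h'), zero_mul]
  · rw [if_neg h, if_neg (fun h2 => h h2.2), zero_mul, Pi.zero_apply]

theorem aux_omr_ef (i j : Fin k) (p q : ℤ) :
    omr k (bv (Sum.inl i) p) (bv (Sum.inr j) q) = if i = j ∧ p + q = -1 then 1 else 0 := by
  have h := omr_bv_bv (k := k) (Sum.inl i) (Sum.inl j) p (-1 - q)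
  rw [dv_inl, sub_sub_cancel] at h
  rw [h]
  have : (Sum.inl i : Fin k ⊕ Fin k) = Sum.inl j ∧ p = -1 - q ↔ i = j ∧ p + q = -1 := by
    rw [Sum.inl.injEq]
    constructor
    · rintro ⟨h1, h2⟩; exact ⟨h1, by omega⟩
    · rintro ⟨h1, h2⟩; exact ⟨h1, by omega⟩
  simp only [this]

theorem aux_omr_ff (i j : Fin k) (p q : ℤ) :
    omr k (bv (Sum.inr i) p) (bv (Sum.inr j) q) = 0 := by
  rw [omr_bv_inr, bv, Pi.single_eq_of_ne (by simp), coeff_zero]

theorem aux_omr_ee (i j : Fin k) (p q : ℤ) :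
    omr k (bv (Sum.inl i) p) (bv (Sum.inl j) q) = 0 := by
  rw [omr_bv_inl, bv, Pi.single_eq_of_ne (by simp), coeff_zero, neg_zero]

theorem aux_QN_matA (i j : Fin k) (s : ℤ) (N : ℕ) (m : W.M) :
    QN W (matA i j s) N m = -(1 / 2 : ℂ) • (∑ p ∈ Finset.Ico (-(N : ℤ)) N,
      W.a (bv (Sum.inl i) (p + s)) (W.a (bv (Sum.inr j) (-1 - p)) m) +
      ∑ p ∈ Finset.Ico (-(N : ℤ)) N,
      W.a (bv (Sum.inr j) (p + s)) (W.a (bv (Sum.inl i) (-1 - p)) m)) := by
  rw [QN_apply]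
  congr 1
  rw [Fintype.sum_sum_type]
  congr 1
  · rw [Finset.sum_eq_single j]
    · refine Finset.sum_congr rfl fun p _ => ?_
      rw [matA, Matrix.sub_mulVec, aux_single_bv, aux_single_bv, if_pos rfl, if_neg (by simp),
        sub_zero, dv_inl]
    · intro b _ hb
      refine Finset.sum_eq_zero fun p _ => ?_
      rw [matA, Matrix.sub_mulVec, aux_single_bv, aux_single_bv,
        if_neg (by simpa using Ne.symm hb), if_neg (by simp), sub_zero, map_zero,
        LinearMap.zero_apply]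
    · intro h; exact absurd (Finset.mem_univ _) h
  · rw [Finset.sum_eq_single i]
    · refine Finset.sum_congr rfl fun p _ => ?_
      rw [matA, Matrix.sub_mulVec, aux_single_bv, aux_single_bv, if_neg (by simp), if_pos rfl,
        zero_sub, dv_inr, map_neg, map_neg, LinearMap.neg_apply, LinearMap.neg_apply, map_neg,
        neg_neg]
    · intro b _ hb
      refine Finset.sum_eq_zero fun p _ => ?_
      rw [matA, Matrix.sub_mulVec, aux_single_bv, aux_single_bv, if_neg (by simp),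
        if_neg (by simpa using Ne.symm hb), sub_zero, map_zero, LinearMap.zero_apply]
    · intro h; exact absurd (Finset.mem_univ _) h

theorem aux_QN_matC (j : Fin k) (s : ℤ) (N : ℕ) (m : W.M) :
    QN W (matC j s) N m = -(1 / 2 : ℂ) • ∑ p ∈ Finset.Ico (-(N : ℤ)) N,
      W.a (bv (Sum.inr j) (p + s)) (W.a (bv (Sum.inr j) (-1 - p)) m) := by
  rw [QN_apply]
  congr 1
  rw [Finset.sum_eq_single (Sum.inl j)]
  · refine Finset.sum_congr rfl fun p _ => ?_
    rw [matC, aux_single_bv, if_pos rfl, dv_inl]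
  · intro b _ hb
    refine Finset.sum_eq_zero fun p _ => ?_
    rw [matC, aux_single_bv, if_neg (Ne.symm hb), map_zero, LinearMap.zero_apply]
  · intro h; exact absurd (Finset.mem_univ _) h

theorem aux_QN_matB (j : Fin k) (s : ℤ) (N : ℕ) (m : W.M) :
    QN W (matB j s) N m = (1 / 2 : ℂ) • ∑ p ∈ Finset.Ico (-(N : ℤ)) N,
      W.a (bv (Sum.inl j) (p + s)) (W.a (bv (Sum.inl j) (-1 - p)) m) := by
  rw [QN_apply, neg_smul, ← smul_neg]
  congr 1
  rw [← Finset.sum_neg_distrib, Finset.sum_eq_single (Sum.inr j)]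
  · rw [← Finset.sum_neg_distrib]
    refine Finset.sum_congr rfl fun p _ => ?_
    rw [matB, aux_single_bv, if_pos rfl, dv_inr, map_neg, LinearMap.neg_apply, map_neg, neg_neg]
  · intro b _ hb
    rw [neg_eq_zero]
    refine Finset.sum_eq_zero fun p _ => ?_
    rw [matB, aux_single_bv, if_neg (Ne.symm hb), map_zero, LinearMap.zero_apply]
  · intro h; exact absurd (Finset.mem_univ _) h

theorem aux_level (m : W.M) (P Q : ℤ) : ∃ N : ℕ, Ann W N m ∧ -(N : ℤ) ≤ P ∧ P < N ∧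
    -(N : ℤ) ≤ Q ∧ Q < N := by
  obtain ⟨N, hN⟩ := exists_Ann m
  refine ⟨N + P.natAbs + Q.natAbs + 1, hN.mono (by omega), ?_, ?_, ?_, ?_⟩ <;> omega

theorem NO_matA_off {i j : Fin k} {s : ℤ} (hs : 0 ≤ s) (hij : i ≠ j ∨ s ≠ 0) (P Q : ℤ)
    (hPQ : P + Q + 1 = s) (m : W.M) (he : ∀ p, P < p → W.a (bv (Sum.inl i) p) m = 0)
    (hf : ∀ q, Q < q → W.a (bv (Sum.inr j) q) m = 0) :
    NO W (good_matA i j hs) m = -W.a (bv (Sum.inr j) Q) (W.a (bv (Sum.inl i) P) m) := by
  obtain ⟨N, hN, h1, h2, h3, h4⟩ := aux_level m (-1 - P) (-1 - Q)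
  rw [NO_eq (good_matA i j hs) hN, aux_QN_matA]
  have hc : ∀ p, W.a (bv (Sum.inl i) (p + s)) (W.a (bv (Sum.inr j) (-1 - p)) m) =
      W.a (bv (Sum.inr j) (-1 - p)) (W.a (bv (Sum.inl i) (p + s)) m) := by
    intro p
    rw [a_comm, aux_omr_ef, if_neg, zero_smul, add_zero]
    rintro ⟨h, h'⟩
    rcases hij with h'' | h''
    · exact h'' h
    · omega
  have hc' : ∀ p, W.a (bv (Sum.inr j) (p + s)) (W.a (bv (Sum.inl i) (-1 - p)) m) =
      W.a (bv (Sum.inl i) (-1 - p)) (W.a (bv (Sum.inr j) (p + s)) m) := by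
    intro p
    rw [a_comm, omr_swap, aux_omr_ef, if_neg, neg_zero, zero_smul, add_zero]
    rintro ⟨h, h'⟩
    rcases hij with h'' | h''
    · exact h'' h
    · omega
  have e1 : ∑ p ∈ Finset.Ico (-(N : ℤ)) N,
      W.a (bv (Sum.inl i) (p + s)) (W.a (bv (Sum.inr j) (-1 - p)) m) =
      W.a (bv (Sum.inr j) Q) (W.a (bv (Sum.inl i) P) m) := by
    rw [Finset.sum_eq_single (-1 - Q)]
    · rw [hc]
      congr 2
      · congr 1; omega
      · congr 3; omega
    · intro p _ hp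
      rcases lt_or_gt_of_ne hp with h | h
      · rw [hf _ (by omega), map_zero]
      · rw [hc, he _ (by omega), map_zero]
    · intro h; exact absurd (Finset.mem_Ico.2 ⟨h3, h4⟩) h
  have e2 : ∑ p ∈ Finset.Ico (-(N : ℤ)) N,
      W.a (bv (Sum.inr j) (p + s)) (W.a (bv (Sum.inl i) (-1 - p)) m) =
      W.a (bv (Sum.inr j) Q) (W.a (bv (Sum.inl i) P) m) := by
    rw [Finset.sum_eq_single (-1 - P)]
    · congr 2
      · congr 1; omega
      · congr 3; omega
    · intro p _ hp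
      rcases lt_or_gt_of_ne hp with h | h
      · rw [he _ (by omega), map_zero]
      · rw [hc', hf _ (by omega), map_zero]
    · intro h; exact absurd (Finset.mem_Ico.2 ⟨h1, h2⟩) h
  rw [e1, e2]
  module

theorem NO_matC {j : Fin k} {Q : ℤ} (hQ : 0 ≤ 2 * Q + 1) (m : W.M)
    (hf : ∀ q, Q < q → W.a (bv (Sum.inr j) q) m = 0) :
    NO W (good_matC j hQ) m = -(1 / 2 : ℂ) • W.a (bv (Sum.inr j) Q) (W.a (bv (Sum.inr j) Q) m) := by
  obtain ⟨N, hN, h1, h2, h3, h4⟩ := aux_level m (-1 - Q) (-1 - Q)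
  rw [NO_eq (good_matC j hQ) hN, aux_QN_matC]
  congr 1
  rw [Finset.sum_eq_single (-1 - Q)]
  · congr 2
    · congr 1; omega
    · congr 3; omega
  · intro p _ hp
    rcases lt_or_gt_of_ne hp with h | h
    · rw [hf _ (by omega), map_zero]
    · rw [a_comm, aux_omr_ff, zero_smul, add_zero, hf _ (by omega), map_zero]
  · intro h; exact absurd (Finset.mem_Ico.2 ⟨h1, h2⟩) h

theorem NO_matB {j : Fin k} {P : ℤ} (hP : 0 ≤ 2 * P + 1) (m : W.M)
    (he : ∀ p, P < p → W.a (bv (Sum.inl j) p) m = 0) :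
    NO W (good_matB j hP) m = (1 / 2 : ℂ) • W.a (bv (Sum.inl j) P) (W.a (bv (Sum.inl j) P) m) := by
  obtain ⟨N, hN, h1, h2, h3, h4⟩ := aux_level m (-1 - P) (-1 - P)
  rw [NO_eq (good_matB j hP) hN, aux_QN_matB]
  congr 1
  rw [Finset.sum_eq_single (-1 - P)]
  · congr 2
    · congr 1; omega
    · congr 3; omega
  · intro p _ hp
    rcases lt_or_gt_of_ne hp with h | h
    · rw [he _ (by omega), map_zero]
    · rw [a_comm, aux_omr_ee, zero_smul, add_zero, he _ (by omega), map_zero]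
  · intro h; exact absurd (Finset.mem_Ico.2 ⟨h1, h2⟩) h

theorem aux_sum_Ico {M : Type} [AddCommGroup M] [Module ℂ M] (g : ℤ → M) (N nu : ℤ)
    (h1 : -N ≤ nu) (h2 : nu < N) (u v w : M) (hlt : ∀ p, p < nu → g p = u) (heq : g nu = v)
    (hgt : ∀ p, nu < p → g p = w) :
    ∑ p ∈ Finset.Ico (-N) N, g p = ((N + nu : ℤ) : ℂ) • u + v + ((N - 1 - nu : ℤ) : ℂ) • w := by
  have e : Finset.Ico (-N) N = insert nu (Finset.Ico (-N) nu ∪ Finset.Ico (nu + 1) N) := by
    ext p
    simp only [Finset.mem_insert, Finset.mem_union, Finset.mem_Ico]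
    omega
  rw [e, Finset.sum_insert (by simp), Finset.sum_union (by
    rw [Finset.disjoint_left]
    intro p hp hp'
    rw [Finset.mem_Ico] at hp hp'
    omega)]
  have s1 : ∑ p ∈ Finset.Ico (-N) nu, g p = ((N + nu : ℤ) : ℂ) • u := by
    rw [Finset.sum_congr rfl (fun p hp => hlt p (Finset.mem_Ico.1 hp).2), Finset.sum_const,
      Int.card_Ico]
    have h : ((nu - -N).toNat : ℤ) = N + nu := by omega
    rw [← Nat.cast_smul_eq_nsmul ℂ]
    congr 1
    exact_mod_cast congrArg (fun z : ℤ => (z : ℂ)) h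
  have s2 : ∑ p ∈ Finset.Ico (nu + 1) N, g p = ((N - 1 - nu : ℤ) : ℂ) • w := by
    rw [Finset.sum_congr rfl (fun p hp => hgt p (by
      have := (Finset.mem_Ico.1 hp).1
      omega)), Finset.sum_const, Int.card_Ico]
    have h : ((N - (nu + 1)).toNat : ℤ) = N - 1 - nu := by omega
    rw [← Nat.cast_smul_eq_nsmul ℂ]
    congr 1
    exact_mod_cast congrArg (fun z : ℤ => (z : ℂ)) h
  rw [s1, s2, heq]
  abel

theorem NO_matA_diag {j : Fin k} {nu : ℤ} (hnu : 0 ≤ nu) (m : W.M)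
    (he : ∀ p, nu < p → W.a (bv (Sum.inl j) p) m = 0)
    (hf : ∀ q, -nu ≤ q → W.a (bv (Sum.inr j) q) m = 0) :
    NO W (good_matA j j le_rfl) m =
      (nu : ℂ) • m - W.a (bv (Sum.inr j) (-1 - nu)) (W.a (bv (Sum.inl j) nu) m) := by
  obtain ⟨N, hN, h1, h2, -, -⟩ := aux_level m nu nu
  rw [NO_eq (good_matA j j le_rfl) hN, aux_QN_matA]
  simp only [add_zero]
  set Y := W.a (bv (Sum.inr j) (-1 - nu)) (W.a (bv (Sum.inl j) nu) m) with hY
  have hc : ∀ p, W.a (bv (Sum.inl j) p) (W.a (bv (Sum.inr j) (-1 - p)) m) =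
      W.a (bv (Sum.inr j) (-1 - p)) (W.a (bv (Sum.inl j) p) m) + m := by
    intro p
    rw [a_comm, aux_omr_ef, if_pos ⟨rfl, by omega⟩, one_smul]
  have e1 : ∑ p ∈ Finset.Ico (-(N : ℤ)) N,
      W.a (bv (Sum.inl j) p) (W.a (bv (Sum.inr j) (-1 - p)) m) =
      ((N + nu : ℤ) : ℂ) • (0 : W.M) + (Y + m) + ((N - 1 - nu : ℤ) : ℂ) • m := by
    apply aux_sum_Ico _ _ _ h1 h2
    · intro p hp
      rw [hf _ (by omega), map_zero]
    · exact hc nu
    · intro p hp
      rw [hc, he _ hp, map_zero, zero_add]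
  have key : ∀ g : ℤ → W.M, ∑ p ∈ Finset.Ico (-(N : ℤ)) N, g p =
      ∑ p ∈ Finset.Ico (-(N : ℤ)) N, g (-1 - p) := by
    intro g
    refine Finset.sum_nbij' (fun p => -1 - p) (fun p => -1 - p) ?_ ?_ ?_ ?_ ?_
    · intro p hp; rw [Finset.mem_Ico] at hp ⊢; omega
    · intro p hp; rw [Finset.mem_Ico] at hp ⊢; omega
    · intro p _; ring
    · intro p _; ring
    · intro p _; congr 1; ring
  have e2 : ∑ p ∈ Finset.Ico (-(N : ℤ)) N,
      W.a (bv (Sum.inr j) p) (W.a (bv (Sum.inl j) (-1 - p)) m) =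
      ((N + nu : ℤ) : ℂ) • (-m) + Y + ((N - 1 - nu : ℤ) : ℂ) • (0 : W.M) := by
    rw [key]
    apply aux_sum_Ico _ _ _ h1 h2
    · intro p hp
      rw [sub_sub_cancel]
      have h3 := hc p
      rw [hf _ (by omega), map_zero] at h3
      exact eq_neg_of_add_eq_zero_left h3.symm
    · rw [sub_sub_cancel]
    · intro p hp
      rw [sub_sub_cancel, he _ hp, map_zero]
  rw [e1, e2]
  push_cast
  module

theorem aux_pow_a (x y : V k) (N : ℕ) (m : W.M) :
    (W.a x ^ (N + 1)) (W.a y m) =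
      W.a y ((W.a x ^ (N + 1)) m) + ((N + 1 : ℕ) * omr k x y : ℂ) • (W.a x ^ N) m := by
  induction N with
  | zero =>
    rw [zero_add, pow_one, pow_zero, a_comm]
    simp
  | succ N ih =>
    rw [pow_succ' (W.a x) (N + 1), Module.End.mul_apply, ih, map_add, map_smul, a_comm x y,
      Module.End.mul_apply, ← Module.End.mul_apply (W.a x) (W.a x ^ N), ← pow_succ']
    push_cast
    module

theorem dich (hW : W.IsSimple) (x : V k) : LocNil (W.a x) ∨ Function.Injective (W.a x) := by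
  have hmem : ∀ m, m ∈ (W.a x).maxGenEigenspace 0 ↔ ∃ N : ℕ, (W.a x ^ N) m = 0 := by
    intro m
    rw [Module.End.mem_maxGenEigenspace]
    simp
  have hst : ∀ y, ∀ m ∈ (W.a x).maxGenEigenspace 0, W.a y m ∈ (W.a x).maxGenEigenspace 0 := by
    intro y m hm
    rw [hmem] at hm ⊢
    obtain ⟨N, hN⟩ := hm
    refine ⟨N + 1, ?_⟩
    rw [aux_pow_a, pow_succ', Module.End.mul_apply, hN, map_zero, map_zero, smul_zero, add_zero]
  rcases hW.2 _ hst with h | h
  · right
    rw [← LinearMap.ker_eq_bot, eq_bot_iff]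
    intro m hm
    rw [← h, hmem]
    exact ⟨1, by rw [pow_one]; exact hm⟩
  · left
    intro m
    rw [← hmem, h]
    exact Submodule.mem_top

theorem aux_last {M : Type} [AddCommGroup M] [Module ℂ M] {A : Module.End ℂ M} (hA : LocNil A)
    (m : M) (hm : m ≠ 0) : ∃ n : ℕ, (A ^ n) m ≠ 0 ∧ A ((A ^ n) m) = 0 := by
  have h := hA m
  obtain ⟨n, hn⟩ : ∃ n, Nat.find h = n + 1 := by
    apply Nat.exists_eq_succ_of_ne_zero
    intro h0
    have := Nat.find_spec h
    rw [h0, pow_zero] at this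
    exact hm this
  refine ⟨n, Nat.find_min h (by omega), ?_⟩
  have := Nat.find_spec h
  rw [hn, pow_succ', Module.End.mul_apply] at this
  exact this

theorem locNil_pair {M : Type} [AddCommGroup M] [Module ℂ M] {A B : Module.End ℂ M} {α : ℂ}
    (hα : α ≠ 0) (hA : LocNil A) (hB : LocNil B) (h : ∀ m, A (B m) - B (A m) = α • m) (m : M) :
    m = 0 := by
  by_contra hm
  obtain ⟨n, hn, hn'⟩ := aux_last hB m hm
  set m' := (B ^ n) m with hm'
  obtain ⟨r, hr, hr'⟩ := aux_last hA m' hn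
  have key : ∀ r : ℕ, B ((A ^ (r + 1)) m') = (A ^ (r + 1)) (B m') - ((r + 1 : ℕ) * α : ℂ) • (A ^ r) m' := by
    intro r
    induction r with
    | zero =>
      have := h m'
      rw [zero_add, pow_one, pow_zero]
      simp only [Nat.cast_one, one_mul, Module.End.one_apply]
      rw [← this]; abel
    | succ r ih =>
      have h1 := h ((A ^ (r + 1)) m')
      have h2 : B (A ((A ^ (r + 1)) m')) = A (B ((A ^ (r + 1)) m')) - α • (A ^ (r + 1)) m' := by
        rw [← h1]; abel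
      have h3 : (A ^ (r + 1 + 1)) m' = A ((A ^ (r + 1)) m') := by
        rw [pow_succ', Module.End.mul_apply]
      have h4 : (A ^ (r + 1 + 1)) (B m') = A ((A ^ (r + 1)) (B m')) := by
        rw [pow_succ', Module.End.mul_apply]
      have h5 : (A ^ (r + 1)) m' = A ((A ^ r) m') := by
        rw [pow_succ', Module.End.mul_apply]
      rw [h3, h2, ih, h4, map_sub, map_smul, ← h5]
      push_cast
      module
  have h1 := key r
  rw [hn', map_zero, zero_sub] at h1
  have h2 : (A ^ (r + 1)) m' = 0 := by rw [pow_succ', Module.End.mul_apply]; exact hr'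
  rw [h2, map_zero] at h1
  have h3 := neg_eq_zero.1 h1.symm
  rcases smul_eq_zero.1 h3 with h4 | h4
  · rcases mul_eq_zero.1 h4 with h5 | h5
    · exact absurd h5 (Nat.cast_ne_zero.2 (Nat.succ_ne_zero r))
    · exact hα h5
  · exact hr h4

theorem common_ker (S : Set ((Fin k ⊕ Fin k) × ℤ)) (B : ℤ) (hB : ∀ z ∈ S, B ≤ z.2)
    (hS : ∀ z ∈ S, LocNil (W.a (bv z.1 z.2)))
    (hcomm : ∀ z ∈ S, ∀ z' ∈ S, omr k (bv z.1 z.2) (bv z'.1 z'.2) = 0) (Z : Submodule ℂ W.M)
    (hZ : ∀ z ∈ S, ∀ m ∈ Z, W.a (bv z.1 z.2) m ∈ Z) (hne : Z ≠ ⊥) :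
    ∃ m ∈ Z, m ≠ 0 ∧ ∀ z ∈ S, W.a (bv z.1 z.2) m = 0 := by
  obtain ⟨m0, hm0Z, hm0⟩ := (Submodule.ne_bot_iff Z).1 hne
  obtain ⟨N, hN⟩ := exists_Ann m0
  have key : ∀ T : Finset ((Fin k ⊕ Fin k) × ℤ), (∀ z ∈ T, z ∈ S) →
      ∃ m ∈ Z, m ≠ 0 ∧ (∀ z ∈ S, (N : ℤ) ≤ z.2 → W.a (bv z.1 z.2) m = 0) ∧
        ∀ z ∈ T, W.a (bv z.1 z.2) m = 0 := by
    intro T
    induction T using Finset.induction_on with
    | empty =>
      intro _
      exact ⟨m0, hm0Z, hm0, fun z _ hz => hN _ ((OGV_bv z.1 z.2).mono hz), by simp⟩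
    | insert z T _ ih =>
      intro hT
      have hzS : z ∈ S := hT z (Finset.mem_insert_self _ _)
      obtain ⟨m, hmZ, hm, h1, h2⟩ := ih (fun z' hz' => hT z' (Finset.mem_insert_of_mem hz'))
      obtain ⟨n, hn, hn'⟩ := aux_last (hS z hzS) m hm
      have hc : ∀ z' ∈ S, ∀ n : ℕ, ∀ m, W.a (bv z'.1 z'.2) m = 0 →
          W.a (bv z'.1 z'.2) ((W.a (bv z.1 z.2) ^ n) m) = 0 := by
        intro z' hz' n
        induction n with
        | zero => intro m hm; simpa using hm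
        | succ n ihn =>
          intro m hm
          rw [pow_succ', Module.End.mul_apply, a_comm, ihn m hm, map_zero, zero_add,
            hcomm z' hz' z hzS, zero_smul]
      have hmem : ∀ n : ℕ, (W.a (bv z.1 z.2) ^ n) m ∈ Z := by
        intro n
        induction n with
        | zero => simpa using hmZ
        | succ n ihn =>
          rw [pow_succ', Module.End.mul_apply]
          exact hZ z hzS _ ihn
      refine ⟨(W.a (bv z.1 z.2) ^ n) m, hmem n, hn, fun z' hz' hz'N => hc z' hz' n m (h1 z' hz' hz'N),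
        ?_⟩
      intro z' hz'
      rcases Finset.mem_insert.1 hz' with rfl | hz'
      · exact hn'
      · exact hc z' (hT z' (Finset.mem_insert_of_mem hz')) n m (h2 z' hz')
  have hfin : (S ∩ {z | z.2 < (N : ℤ)}).Finite := by
    apply (Set.Finite.prod (Set.finite_univ (α := Fin k ⊕ Fin k)) (Set.finite_Ico B (N : ℤ))).subset
    rintro z ⟨hz, hz'⟩
    exact ⟨Set.mem_univ _, hB z hz, hz'⟩
  obtain ⟨m, hmZ, hm, h1, h2⟩ := key hfin.toFinset (fun z hz => (hfin.mem_toFinset.1 hz).1)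
  refine ⟨m, hmZ, hm, fun z hz => ?_⟩
  by_cases h : (N : ℤ) ≤ z.2
  · exact h1 z hz h
  · exact h2 z (hfin.mem_toFinset.2 ⟨hz, not_le.1 h⟩)

end Pool.Agent.H143_GC.JQ
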