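import Pool.Agent.H143_GC.Types
import Pool.Agent.H143_GC.JQ

/-!
Which letters act locally nilpotently on a simple equivariant module (job by helper571).
-/




noncomputable section

open Matrix

open scoped Classical

namespace Pool.Agent.H143_GC.JK1

open Pool.Agent.H143_GC

variable {k : ℕ} {W : WeylModule k}

theorem desc {P : ℤ → Prop} {a N : ℤ} (hN : ∀ p, N ≤ p → P p)
    (step : ∀ p, a ≤ p → (∀ p', p < p' → P p') → P p) : ∀ p, a ≤ p → P p := by
  have key : ∀ n : ℕ, ∀ p, a ≤ p → N - n ≤ p → P p := by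
    intro n
    induction n with
    | zero => intro p _ hp; exact hN p (by simpa using hp)
    | succ n ih =>
      intro p hap hp
      refine step p hap fun p' hp' => ih p' (by omega) (by push_cast at hp; omega)
  intro p hp
  exact key (N - p).toNat p hp (by omega)

theorem not_locNil {M : Type} [AddCommGroup M] [Module ℂ M] {A : Module.End ℂ M} {Z : M → Prop}
    (hZ : ∀ m, Z m → Z (A m)) (hinj : ∀ m, Z m → A m = 0 → m = 0) {m : M} (hm : Z m)
    (hm0 : m ≠ 0) : ¬ LocNil A := by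
  intro h
  obtain ⟨N, hN⟩ := h m
  have key : ∀ n : ℕ, Z ((A ^ n) m) ∧ (A ^ n) m ≠ 0 := by
    intro n
    induction n with
    | zero => exact ⟨by simpa using hm, by simpa using hm0⟩
    | succ n ih =>
      rw [pow_succ', Module.End.mul_apply]
      exact ⟨hZ _ ih.1, fun h0 => ih.2 (hinj _ ih.1 h0)⟩
  exact (key N).2 hN

theorem inj_zero {M : Type} [AddCommGroup M] [Module ℂ M] {A : Module.End ℂ M}
    (hA : Function.Injective A) {m : M} (h : A m = 0) : m = 0 :=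
  hA (h.trans (map_zero A).symm)

theorem inj_of_not (hW : W.IsSimple) {x : V k} (h : ¬ LocNil (W.a x)) :
    Function.Injective (W.a x) := (JQ.dich hW x).resolve_left h

theorem locNil_large (hW : W.IsSimple) : ∃ N : ℤ, ∀ α : Fin k ⊕ Fin k, ∀ p, N ≤ p →
    LocNil (W.a (bv α p)) := by
  obtain ⟨m, hm⟩ := hW.1
  obtain ⟨N, hN⟩ := exists_Ann m
  refine ⟨N, fun α p hp => (JQ.dich hW _).resolve_right fun h => hm ?_⟩
  exact inj_zero h (hN _ ((OGV_bv α p).mono hp))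

theorem comm_letters {α β : Fin k ⊕ Fin k} {p q : ℤ} (h : omr k (bv α p) (bv β q) = 0) (m : W.M) :
    W.a (bv α p) (W.a (bv β q) m) = W.a (bv β q) (W.a (bv α p) m) := by
  rw [a_comm, h, zero_smul, add_zero]

theorem omr_ne_sum {α β : Fin k ⊕ Fin k} {p q : ℤ} (h : p + q ≠ -1) :
    omr k (bv α p) (bv β q) = 0 := by
  by_contra h'
  rcases omr_bv _ _ _ _ h' with ⟨_, _, _, h1⟩ | ⟨_, _, _, h1⟩ <;> exact h h1

theorem not_both (hW : W.IsSimple) (j : Fin k) (p : ℤ) (h1 : LocNil (W.a (bv (Sum.inl j) p)))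
    (h2 : LocNil (W.a (bv (Sum.inr j) (-1 - p)))) : False := by
  obtain ⟨m, hm⟩ := hW.1
  refine hm (JQ.locNil_pair (α := 1) one_ne_zero h1 h2 (fun m => ?_) m)
  rw [a_comm, omr_bv_inr]
  unfold bv
  rw [Pi.single_eq_same, coeff_tp, if_pos (by ring), add_sub_cancel_left]

theorem f_nonneg (hW : W.IsSimple)
    (hC : ∀ j (s : ℤ) (hs : 0 ≤ s), LocNil (NO W (good_matC j hs))) (j : Fin k) :
    ∀ q : ℤ, 0 ≤ q → LocNil (W.a (bv (Sum.inr j) q)) := by
  obtain ⟨N, hN⟩ := locNil_large hW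
  refine desc (fun p hp => hN _ p hp) fun q hq ih => ?_
  by_contra hnot
  have hinj := inj_of_not hW hnot
  obtain ⟨m, -, hm0, hm⟩ := JQ.common_ker (W := W)
    {z : (Fin k ⊕ Fin k) × ℤ | z.1 = Sum.inr j ∧ q < z.2} q (fun z hz => hz.2.le)
    (fun z hz => by rw [hz.1]; exact ih _ hz.2)
    (fun z hz z' hz' => by rw [hz.1, hz'.1]; exact omr_same' _ _ _ _) ⊤
    (fun _ _ _ _ => Submodule.mem_top) (by
      intro h
      obtain ⟨m, hm⟩ := hW.1
      exact hm ((Submodule.mem_bot ℂ).1 (h ▸ Submodule.mem_top)))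
  have hm' : ∀ q', q < q' → W.a (bv (Sum.inr j) q') m = 0 := fun q' hq' =>
    hm (Sum.inr j, q') ⟨rfl, hq'⟩
  have hst : ∀ m : W.M, (∀ q', q < q' → W.a (bv (Sum.inr j) q') m = 0) →
      (∀ q', q < q' → W.a (bv (Sum.inr j) q') (W.a (bv (Sum.inr j) q) m) = 0) := by
    intro m hm q' hq'
    rw [comm_letters (omr_same' _ _ _ _), hm q' hq', map_zero]
  have h2 : (0 : ℤ) ≤ 2 * q + 1 := by omega
  refine not_locNil (A := NO W (good_matC j h2))
    (Z := fun m => ∀ q', q < q' → W.a (bv (Sum.inr j) q') m = 0) ?_ ?_ hm' hm0 (hC j _ h2)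
  · intro m hm q' hq'
    rw [JQ.NO_matC h2 m hm, map_smul, hst _ (hst _ hm) q' hq', smul_zero]
  · intro m hm h0
    rw [JQ.NO_matC h2 m hm, smul_eq_zero] at h0
    rcases h0 with h0 | h0
    · norm_num at h0
    · exact inj_zero hinj (inj_zero hinj h0)

theorem e_large (hW : W.IsSimple) (mu : Fin k → ℕ)
    (hB : ∀ j (s : ℤ) (hs : 0 ≤ s), 2 * (mu j : ℤ) ≤ s → LocNil (NO W (good_matB j hs)))
    (j : Fin k) :
    ∀ p : ℤ, (mu j : ℤ) ≤ p → LocNil (W.a (bv (Sum.inl j) p)) := by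
  obtain ⟨N, hN⟩ := locNil_large hW
  refine desc (fun p hp => hN _ p hp) fun q hq ih => ?_
  by_contra hnot
  have hinj := inj_of_not hW hnot
  obtain ⟨m, -, hm0, hm⟩ := JQ.common_ker (W := W)
    {z : (Fin k ⊕ Fin k) × ℤ | z.1 = Sum.inl j ∧ q < z.2} q (fun z hz => hz.2.le)
    (fun z hz => by rw [hz.1]; exact ih _ hz.2)
    (fun z hz z' hz' => by rw [hz.1, hz'.1]; exact omr_same _ _ _ _) ⊤
    (fun _ _ _ _ => Submodule.mem_top) (by
      intro h
      obtain ⟨m, hm⟩ := hW.1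
      exact hm ((Submodule.mem_bot ℂ).1 (h ▸ Submodule.mem_top)))
  have hm' : ∀ q', q < q' → W.a (bv (Sum.inl j) q') m = 0 := fun q' hq' =>
    hm (Sum.inl j, q') ⟨rfl, hq'⟩
  have hst : ∀ m : W.M, (∀ q', q < q' → W.a (bv (Sum.inl j) q') m = 0) →
      (∀ q', q < q' → W.a (bv (Sum.inl j) q') (W.a (bv (Sum.inl j) q) m) = 0) := by
    intro m hm q' hq'
    rw [comm_letters (omr_same _ _ _ _), hm q' hq', map_zero]
  have h2 : (0 : ℤ) ≤ 2 * q + 1 := by omega
  refine not_locNil (A := NO W (good_matB j h2))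
    (Z := fun m => ∀ q', q < q' → W.a (bv (Sum.inl j) q') m = 0) ?_ ?_ hm' hm0
    (hB j _ h2 (by omega))
  · intro m hm q' hq'
    rw [JQ.NO_matB h2 m hm, map_smul, hst _ (hst _ hm) q' hq', smul_zero]
  · intro m hm h0
    rw [JQ.NO_matB h2 m hm, smul_eq_zero] at h0
    rcases h0 with h0 | h0
    · norm_num at h0
    · exact inj_zero hinj (inj_zero hinj h0)

/-- The common kernel of the letters `e_{i,p}`, `p > P`, and `f_{j,q}`, `q > Q`. -/
theorem ker_ef (hW : W.IsSimple) {i j : Fin k} {P Q : ℤ} (hPQ : -3 < P + Q)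
    (hE : ∀ p, P < p → LocNil (W.a (bv (Sum.inl i) p)))
    (hF : ∀ q, Q < q → LocNil (W.a (bv (Sum.inr j) q))) :
    ∃ m : W.M, m ≠ 0 ∧ (∀ p, P < p → W.a (bv (Sum.inl i) p) m = 0) ∧
      (∀ q, Q < q → W.a (bv (Sum.inr j) q) m = 0) := by
  obtain ⟨m, -, hm0, hm⟩ := JQ.common_ker (W := W)
    {z : (Fin k ⊕ Fin k) × ℤ | (z.1 = Sum.inl i ∧ P < z.2) ∨ (z.1 = Sum.inr j ∧ Q < z.2)}
    (min P Q) (fun z hz => by
      rcases hz with hz | hz
      · exact (min_le_left _ _).trans hz.2.le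
      · exact (min_le_right _ _).trans hz.2.le)
    (fun z hz => by
      rcases hz with hz | hz
      · rw [hz.1]; exact hE _ hz.2
      · rw [hz.1]; exact hF _ hz.2)
    (fun z hz z' hz' => by
      rcases hz with ⟨h1, h2⟩ | ⟨h1, h2⟩ <;> rcases hz' with ⟨h3, h4⟩ | ⟨h3, h4⟩ <;> rw [h1, h3]
      · exact omr_same _ _ _ _
      · exact omr_ne_sum (by omega)
      · exact omr_ne_sum (by omega)
      · exact omr_same' _ _ _ _) ⊤
    (fun _ _ _ _ => Submodule.mem_top) (by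
      intro h
      obtain ⟨m, hm⟩ := hW.1
      exact hm ((Submodule.mem_bot ℂ).1 (h ▸ Submodule.mem_top)))
  exact ⟨m, hm0, fun p hp => hm (Sum.inl i, p) (Or.inl ⟨rfl, hp⟩),
    fun q hq => hm (Sum.inr j, q) (Or.inr ⟨rfl, hq⟩)⟩

theorem off (hW : W.IsSimple) {i j : Fin k} {P Q s : ℤ}
    (hE : ∀ p, P < p → LocNil (W.a (bv (Sum.inl i) p)))
    (hF : ∀ q, Q < q → LocNil (W.a (bv (Sum.inr j) q)))
    (hEi : Function.Injective (W.a (bv (Sum.inl i) P)))
    (hFi : Function.Injective (W.a (bv (Sum.inr j) Q)))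
    (hs : 0 ≤ s) (hPQ : P + Q + 1 = s) (hij : i ≠ j ∨ s ≠ 0) :
    ¬ LocNil (NO W (good_matA i j hs)) := by
  obtain ⟨m, hm0, hm1, hm2⟩ := ker_ef hW (i := i) (j := j) (P := P) (Q := Q) (by omega) hE hF
  have hst : ∀ m : W.M, ((∀ p, P < p → W.a (bv (Sum.inl i) p) m = 0) ∧
      (∀ q, Q < q → W.a (bv (Sum.inr j) q) m = 0)) →
      ((∀ p, P < p → W.a (bv (Sum.inl i) p) (W.a (bv (Sum.inl i) P) m) = 0) ∧
      (∀ q, Q < q → W.a (bv (Sum.inr j) q) (W.a (bv (Sum.inl i) P) m) = 0)) := by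
    rintro m ⟨h1, h2⟩
    refine ⟨fun p hp => ?_, fun q hq => ?_⟩
    · rw [comm_letters (omr_same _ _ _ _), h1 p hp, map_zero]
    · rw [comm_letters (omr_ne_sum (by omega)), h2 q hq, map_zero]
  have hst' : ∀ m : W.M, ((∀ p, P < p → W.a (bv (Sum.inl i) p) m = 0) ∧
      (∀ q, Q < q → W.a (bv (Sum.inr j) q) m = 0)) →
      ((∀ p, P < p → W.a (bv (Sum.inl i) p) (W.a (bv (Sum.inr j) Q) m) = 0) ∧
      (∀ q, Q < q → W.a (bv (Sum.inr j) q) (W.a (bv (Sum.inr j) Q) m) = 0)) := by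
    rintro m ⟨h1, h2⟩
    refine ⟨fun p hp => ?_, fun q hq => ?_⟩
    · rw [comm_letters (omr_ne_sum (by omega)), h1 p hp, map_zero]
    · rw [comm_letters (omr_same' _ _ _ _), h2 q hq, map_zero]
  refine not_locNil (A := NO W (good_matA i j hs))
    (Z := fun m => (∀ p, P < p → W.a (bv (Sum.inl i) p) m = 0) ∧
      (∀ q, Q < q → W.a (bv (Sum.inr j) q) m = 0)) ?_ ?_ ⟨hm1, hm2⟩ hm0
  · intro m hm
    rw [JQ.NO_matA_off hs hij P Q hPQ m hm.1 hm.2]
    obtain ⟨h1, h2⟩ := hst' _ (hst _ hm)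
    exact ⟨fun p hp => by rw [map_neg, h1 p hp, neg_zero],
      fun q hq => by rw [map_neg, h2 q hq, neg_zero]⟩
  · intro m hm h0
    rw [JQ.NO_matA_off hs hij P Q hPQ m hm.1 hm.2, neg_eq_zero] at h0
    exact inj_zero hEi (inj_zero hFi h0)

theorem intDiag_eig {M : Type} [AddCommGroup M] [Module ℂ M] {A : Module.End ℂ M} (hA : IntDiag A)
    {w : ℂ} {m : M} (hm0 : m ≠ 0) (hm : A m = w • m) : ∃ d : ℤ, w = d := by
  by_contra hne
  push Not at hne
  have hind := Module.End.eigenspaces_iSupIndep A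
  have h1 : Submodule.span ℂ {v : M | ∃ d : ℤ, A v = (d : ℂ) • v} ≤
      ⨆ (μ : ℂ) (_ : μ ≠ w), A.eigenspace μ := by
    refine Submodule.span_le.2 ?_
    rintro v ⟨d, hd⟩
    refine Submodule.mem_iSup_of_mem (d : ℂ) (Submodule.mem_iSup_of_mem (hne d).symm ?_)
    exact Module.End.mem_eigenspace_iff.2 hd
  have h2 := Submodule.disjoint_def.1 (hind w) m (Module.End.mem_eigenspace_iff.2 hm) (h1 (hA m))
  exact hm0 h2

theorem e_nu_not (hW : W.IsSimple) {c : ℂ} (hc : ∀ q : ℚ, (q : ℂ) ≠ c) (j : Fin k) {a : ℕ}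
    (ha : a ≠ 0) (hI : IntDiag (NO W (good_matA j j le_rfl) +
      (2 * (a : ℂ) / c) • (1 : Module.End ℂ W.M))) (nu : ℕ)
    (hE : ∀ p, (nu : ℤ) < p → LocNil (W.a (bv (Sum.inl j) p)))
    (hF : ∀ q, -(nu : ℤ) ≤ q → LocNil (W.a (bv (Sum.inr j) q))) :
    ¬ LocNil (W.a (bv (Sum.inl j) nu)) := by
  intro hnil
  obtain ⟨m, hm0, hm1, hm2⟩ := ker_ef hW (i := j) (j := j) (P := (nu : ℤ) - 1)
    (Q := -(nu : ℤ) - 1) (by omega) (fun p hp => by
      by_cases h : p = nu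
      · rw [h]; exact hnil
      · exact hE p (by omega)) (fun q hq => hF q (by omega))
  have h1 := JQ.NO_matA_diag (W := W) (j := j) (nu := (nu : ℤ)) (by omega) m
    (fun p hp => hm1 p (by omega)) (fun q hq => hm2 q (by omega))
  rw [hm1 nu (by omega), map_zero, sub_zero] at h1
  obtain ⟨d, hd⟩ := intDiag_eig hI (w := (nu : ℂ) + 2 * (a : ℂ) / c) hm0 (by
    rw [LinearMap.add_apply, h1, LinearMap.smul_apply, Module.End.one_apply, add_smul]
    norm_num)
  refine irr_div hc ha (d - nu) ?_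
  push_cast
  linear_combination hd

/-- **Target.** -/
theorem letters (hW : W.IsSimple) {c : ℂ} (hc : ∀ q : ℚ, (q : ℂ) ≠ c) (mu : Fin k → ℕ)
    (hmu : Antitone mu) (L : ℤ)
    (hcL : ∀ j p, L - mu j ≤ p → LocNil (W.a (bv (Sum.inr j) p)))
    (hC : ∀ j (s : ℤ) (hs : 0 ≤ s), LocNil (NO W (good_matC j hs)))
    (hB : ∀ j (s : ℤ) (hs : 0 ≤ s), 2 * (mu j : ℤ) ≤ s → LocNil (NO W (good_matB j hs)))
    (hA : ∀ i j (s : ℤ) (hs : 0 ≤ s), i ≠ j → (mu i : ℤ) - mu j ≤ s →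
      LocNil (NO W (good_matA i j hs)))
    (hD : ∀ j (s : ℤ) (hs : 0 ≤ s), 0 < s → LocNil (NO W (good_matA j j hs)))
    (hI : ∀ j, IntDiag (NO W (good_matA j j le_rfl) +
      (2 * (mu j : ℂ) / c) • (1 : Module.End ℂ W.M))) :
    ∃ kap nu : Fin k → ℕ, (∀ j, mu j = kap j + nu j) ∧ (∀ j, (kap j : ℤ) ≤ L) ∧
      (∀ j, kap j = 0 → nu j = 0) ∧
      (∀ i j : Fin k, i < j → kap j ≠ 0 → kap j < kap i ∧ nu j < nu i) ∧
      (∀ j p, (nu j : ℤ) < p → LocNil (W.a (bv (Sum.inl j) p))) ∧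
      (∀ j, kap j = 0 → LocNil (W.a (bv (Sum.inl j) (nu j)))) ∧
      (∀ j q, -(nu j : ℤ) ≤ q → LocNil (W.a (bv (Sum.inr j) q))) := by
  have h1 := f_nonneg hW hC
  have h2 := e_large hW mu hB
  have h3 : ∀ j, ∃ p : ℕ, ¬ LocNil (W.a (bv (Sum.inr j) (-1 - (p : ℤ)))) := fun j =>
    ⟨mu j, fun h => not_both hW j (mu j) (h2 j _ le_rfl) h⟩
  set nu : Fin k → ℕ := fun j => Nat.find (h3 j) with hnu
  have hnu_spec : ∀ j, ¬ LocNil (W.a (bv (Sum.inr j) (-1 - (nu j : ℤ)))) := fun j =>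
    Nat.find_spec (h3 j)
  have hnu_le : ∀ j, nu j ≤ mu j := fun j => Nat.find_min' (h3 j)
    (fun h => not_both hW j (mu j) (h2 j _ le_rfl) h)
  have hnu_min : ∀ j (p : ℕ), p < nu j → LocNil (W.a (bv (Sum.inr j) (-1 - (p : ℤ)))) :=
    fun j p hp => not_not.1 (Nat.find_min (h3 j) hp)
  clear_value nu
  have hF : ∀ j q, -(nu j : ℤ) ≤ q → LocNil (W.a (bv (Sum.inr j) q)) := by
    intro j q hq
    by_cases h0 : 0 ≤ q
    · exact h1 j q h0
    · have h4 := hnu_min j (-1 - q).toNat (by omega)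
      have h5 : -1 - (((-1 - q).toNat : ℕ) : ℤ) = q := by omega
      rwa [h5] at h4
  have hE : ∀ j p, (nu j : ℤ) < p → LocNil (W.a (bv (Sum.inl j) p)) := by
    intro j p hp
    refine desc (P := fun p => LocNil (W.a (bv (Sum.inl j) p))) (a := (nu j : ℤ) + 1)
      (N := (mu j : ℤ)) (h2 j) (fun p hp ih => ?_) p (by omega)
    by_contra hnot
    have hs : (0 : ℤ) ≤ p - nu j := by omega
    exact off hW (i := j) (j := j) (P := p) (Q := -1 - nu j) (s := p - nu j) ih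
      (fun q hq => hF j q (by omega)) (inj_of_not hW hnot) (inj_of_not hW (hnu_spec j)) hs
      (by ring) (Or.inr (by omega)) (hD j _ hs (by omega))
  have hEnu : ∀ j, mu j ≠ 0 → ¬ LocNil (W.a (bv (Sum.inl j) (nu j))) := fun j hj =>
    e_nu_not hW hc j hj (hI j) (nu j) (hE j) (hF j)
  have hlt : ∀ j, mu j ≠ 0 → nu j < mu j := by
    intro j hj
    by_contra h
    exact hEnu j hj (h2 j _ (by omega))
  have hoff : ∀ i j : Fin k, i ≠ j → mu i ≠ 0 → ∀ hs : (0 : ℤ) ≤ nu i - nu j,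
      (nu i : ℤ) - nu j < mu i - mu j := by
    intro i j hij hi hs
    by_contra h
    exact off hW (i := i) (j := j) (P := nu i) (Q := -1 - nu j) (s := nu i - nu j) (hE i)
      (fun q hq => hF j q (by omega)) (inj_of_not hW (hEnu i hi)) (inj_of_not hW (hnu_spec j)) hs
      (by ring) (Or.inl hij) (hA i j _ hs hij (by omega))
  refine ⟨fun j => mu j - nu j, nu, fun j => ?_, fun j => ?_, fun j hj => ?_, ?_, hE,
    fun j hj => ?_, hF⟩
  · have := hnu_le j
    change mu j = (mu j - nu j) + nu j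
    omega
  · have h4 := hnu_le j
    have h5 : ¬ (L - mu j ≤ -1 - (nu j : ℤ)) := fun h => hnu_spec j (hcL j _ h)
    change ((mu j - nu j : ℕ) : ℤ) ≤ L
    omega
  · by_cases h0 : mu j = 0
    · have := hnu_le j
      omega
    · have := hlt j h0
      simp only at hj
      omega
  · intro i j hij hj
    have h4 : mu j ≤ mu i := hmu hij.le
    have h5 := hnu_le i
    have h6 := hnu_le j
    simp only at hj ⊢
    have h7 : nu j < nu i := by
      by_contra h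
      have := hoff j i hij.ne' (by omega) (by omega)
      omega
    have h8 := hoff i j hij.ne (by omega) (by omega)
    refine ⟨?_, h7⟩
    omega
  · by_cases h0 : mu j = 0
    · have := hnu_le j
      exact h2 j _ (by omega)
    · have := hlt j h0
      simp only at hj
      omega

end Pool.Agent.H143_GC.JK1
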