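import Pool.Agent.H143_GC.Types
import Pool.Agent.H143_GC.JQ

/-!
Existence of a vacuum vector in a simple equivariant module (job by helper733).
-/




noncomputable section

open Matrix

open scoped Classical

namespace Pool.Agent.H143_GC.JK2

open Pool.Agent.H143_GC

variable {k : ℕ} {W : WeylModule k}

/-- The vectors killed by the lattice. -/
def KK (τ : Ty k) (W : WeylModule k) : Submodule ℂ W.M where
  carrier := {m | ∀ x, τ.L x → W.a x m = 0}
  add_mem' := by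
    intro m m' h h' x hx
    rw [map_add, h x hx, h' x hx, add_zero]
  zero_mem' := fun x _ => map_zero _
  smul_mem' := by
    intro c m h x hx
    rw [map_smul, h x hx, smul_zero]

theorem mem_KK {τ : Ty k} {m : W.M} : m ∈ KK τ W ↔ ∀ x, τ.L x → W.a x m = 0 := Iff.rfl

theorem not_L {τ : Ty k} {x : V k} (hx : τ.L x) (α : Fin k ⊕ Fin k) (p : ℤ)
    (h : ¬ τ.L (bv α p)) : (x α).coeff p = 0 := by
  rcases α with j | j
  · rw [Ty.L_bv_inl] at h
    exact (hx j).1 p (by omega)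
  · rw [Ty.L_bv_inr] at h
    exact (hx j).2 p (by omega)

theorem KK_of {τ : Ty k} {m : W.M} (h : ∀ α p, τ.L (bv α p) → W.a (bv α p) m = 0) :
    m ∈ KK τ W := by
  intro x hx
  obtain ⟨N₀, h0⟩ := exists_Ann m
  obtain ⟨N₁, h1⟩ := exists_OGV x
  set N := max N₀ N₁ with hN
  have hm : Ann W (N : ℤ) m := h0.mono (by exact_mod_cast le_max_left _ _)
  have hx' : OGV (-(N : ℤ)) x := h1.mono (by
    have : (N₁ : ℤ) ≤ N := by exact_mod_cast le_max_right _ _
    omega)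
  rw [a_congr hm (sum_bv x N hx')]
  simp only [map_sum, map_smul, LinearMap.sum_apply, LinearMap.smul_apply]
  refine Finset.sum_eq_zero fun α _ => Finset.sum_eq_zero fun p _ => ?_
  by_cases hL : τ.L (bv α p)
  · rw [h α p hL, smul_zero]
  · rw [omr_dv_right, not_L hx α p hL, zero_smul]

theorem KK_yy {τ : Ty k} {j : Fin k} (hj : τ.sp j) {m : W.M} (hm : m ∈ KK τ W) :
    yy τ W j m ∈ KK τ W := fun x hx => by
  rw [low_yy hx hj, hm x hx, map_zero]

theorem KK_ee {τ : Ty k} {j : Fin k} (hj : τ.sp j) {m : W.M} (hm : m ∈ KK τ W) :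
    ee τ W j m ∈ KK τ W := fun x hx => by
  rw [low_ee hx hj, hm x hx, map_zero]

theorem KK_xx {τ : Ty k} {j : Fin k} (hj : τ.sp j) {m : W.M} (hm : m ∈ KK τ W) (n : ℤ) :
    xx τ W j n m ∈ KK τ W := fun x hx => by
  rw [comm_xx (low_yy hx hj) (low_ee hx hj), hm x hx, map_zero]

theorem KK_NO {τ : Ty k} {j : Fin k} (hnu : 0 ≤ τ.nu j) {m : W.M} (hm : m ∈ KK τ W) :
    NO W (good_matA j j le_rfl) m = (τ.nu j : ℂ) • m - yy τ W j (ee τ W j m) := by
  refine JQ.NO_matA_diag hnu m (fun p hp => hm _ ?_) (fun q hq => hm _ ?_)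
  · rw [Ty.L_bv_inl]
    split_ifs <;> omega
  · rw [Ty.L_bv_inr]
    exact hq

/-- The simultaneous eigenvectors. -/
def KE (τ : Ty k) (W : WeylModule k) (i : ℕ) : Submodule ℂ W.M where
  carrier := {m | m ∈ KK τ W ∧ ∀ j : Fin k, (j : ℕ) < i → τ.sp j →
    yy τ W j (ee τ W j m) = τ.s j • m}
  add_mem' := by
    rintro m m' ⟨h1, h2⟩ ⟨h3, h4⟩
    refine ⟨(KK τ W).add_mem h1 h3, fun j hj hs => ?_⟩
    rw [map_add, map_add, h2 j hj hs, h4 j hj hs, smul_add]
  zero_mem' := ⟨(KK τ W).zero_mem, fun j _ _ => by rw [map_zero, map_zero, smul_zero]⟩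
  smul_mem' := by
    rintro c m ⟨h1, h2⟩
    refine ⟨(KK τ W).smul_mem c h1, fun j hj hs => ?_⟩
    rw [map_smul, map_smul, h2 j hj hs, smul_comm]

theorem mem_KE {τ : Ty k} {i : ℕ} {m : W.M} : m ∈ KE τ W i ↔ m ∈ KK τ W ∧
    ∀ j : Fin k, (j : ℕ) < i → τ.sp j → yy τ W j (ee τ W j m) = τ.s j • m := Iff.rfl

/-- integral eigenvectors in invariant subspaces -/
theorem exists_eig {M : Type} [AddCommGroup M] [Module ℂ M] {A : Module.End ℂ M} (hA : IntDiag A)
    (Z : Submodule ℂ M) (hZ : ∀ z ∈ Z, A z ∈ Z) {m : M} (hm : m ∈ Z) (hm0 : m ≠ 0) :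
    ∃ d : ℤ, ∃ v ∈ Z, v ≠ 0 ∧ A v = (d : ℂ) • v := by
  have h1 : m ∈ ⨆ d : ℤ, Module.End.eigenspace A (d : ℂ) := by
    have h2 : Submodule.span ℂ {v : M | ∃ d : ℤ, A v = (d : ℂ) • v} ≤
        ⨆ d : ℤ, Module.End.eigenspace A (d : ℂ) := by
      rw [Submodule.span_le]
      rintro v ⟨d, hd⟩
      exact Submodule.mem_iSup_of_mem d (Module.End.mem_eigenspace_iff.2 hd)
    exact h2 (hA m)
  obtain ⟨f, hf, hsum'⟩ := (Submodule.mem_iSup_iff_exists_finsupp _ _).1 h1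
  have hsum : ∑ n ∈ f.support, f n = m := hsum'
  have hfe : ∀ n : ℤ, A (f n) = (n : ℂ) • f n := fun n =>
    Module.End.mem_eigenspace_iff.1 (hf n)
  have hfZ := sep A Z hZ (fun n : ℤ => (n : ℂ)) Int.cast_injective f.support f
    (fun n _ => hfe n) (by rw [hsum]; exact hm)
  obtain ⟨n, hn, hfn⟩ : ∃ n ∈ f.support, f n ≠ 0 := by
    by_contra hcon
    push Not at hcon
    exact hm0 (by rw [← hsum]; exact Finset.sum_eq_zero hcon)
  exact ⟨n, f n, hfZ n hn, hfn, hfe n⟩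

theorem step {τ : Ty k} (hnu : ∀ j, 0 ≤ τ.nu j)
    (hI : ∀ j, IntDiag (NO W (good_matA j j le_rfl) + τ.s j • (1 : Module.End ℂ W.M)))
    (i : ℕ) (h : ∃ m ∈ KE τ W i, m ≠ 0) : ∃ m ∈ KE τ W (i + 1), m ≠ 0 := by
  obtain ⟨m, hm, hm0⟩ := h
  by_cases hi : ∃ h : i < k, τ.sp ⟨i, h⟩
  · obtain ⟨hik, hs⟩ := hi
    set J : Fin k := ⟨i, hik⟩ with hJ
    set A : Module.End ℂ W.M := NO W (good_matA J J le_rfl) + τ.s J • (1 : Module.End ℂ W.M) with hA
    have hAK : ∀ z ∈ KK τ W, A z = ((τ.nu J : ℂ) + τ.s J) • z - yy τ W J (ee τ W J z) := by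
      intro z hz
      rw [hA, LinearMap.add_apply, KK_NO (hnu J) hz, LinearMap.smul_apply, Module.End.one_apply]
      module
    have hne : ∀ j : Fin k, (j : ℕ) < i → j ≠ J := by
      intro j hj h
      rw [h, hJ] at hj
      simp at hj
    have hst : ∀ z ∈ KE τ W i, A z ∈ KE τ W i := by
      intro z hz
      rw [hAK z hz.1]
      refine (KE τ W i).sub_mem ((KE τ W i).smul_mem _ hz) ⟨KK_yy hs (KK_ee hs hz.1), ?_⟩
      intro j hj hsj
      rw [ee_yy_ne (hne j hj), ee_ee, yy_yy, ← ee_yy_ne (hne j hj).symm, hz.2 j hj hsj, map_smul,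
        map_smul]
    obtain ⟨d, v, hv, hv0, hd⟩ := exists_eig (hI J) (KE τ W i) hst hm hm0
    have hw : yy τ W J (ee τ W J v) = ((τ.nu J : ℂ) + τ.s J - d) • v := by
      have h1 := hAK v hv.1
      rw [hA, hd] at h1
      rw [sub_smul, h1]
      abel
    have hwn : ∀ n : ℤ, (τ.nu J : ℂ) + τ.s J - d ≠ n := by
      intro n hn
      apply τ.hs J hs (n + d - τ.nu J)
      push_cast
      linear_combination hn
    refine ⟨xx τ W J (d - τ.nu J) v, ⟨KK_xx hs hv.1 _, ?_⟩, ?_⟩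
    · intro j hj hsj
      rcases Nat.lt_succ_iff_lt_or_eq.1 hj with h | h
      · rw [comm_ee_xx (hne j h), comm_yy_xx (hne j h), hv.2 j h hsj, map_smul]
      · have hjJ : j = J := Fin.ext h
        subst hjJ
        rw [xx_wt _ hw]
        congr 1
        push_cast
        ring
    · intro h0
      obtain ⟨c, hc, hret⟩ := xx_return hw hwn (d - τ.nu J)
      rw [h0, map_zero] at hret
      rcases smul_eq_zero.1 hret.symm with h | h
      · exact hc h
      · exact hv0 h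
  · refine ⟨m, ⟨hm.1, fun j hj hsj => ?_⟩, hm0⟩
    rcases Nat.lt_succ_iff_lt_or_eq.1 hj with h | h
    · exact hm.2 j h hsj
    · exfalso
      apply hi
      refine ⟨h ▸ j.2, ?_⟩
      have : j = ⟨i, h ▸ j.2⟩ := Fin.ext h
      rw [← this]
      exact hsj

/-- **Target.** -/
theorem exists_vacuum (hW : W.IsSimple) {c : ℂ} (hc : ∀ q : ℚ, (q : ℂ) ≠ c) (kap nu : Fin k → ℕ)
    (h1 : ∀ j p, (nu j : ℤ) < p → LocNil (W.a (bv (Sum.inl j) p)))
    (h2 : ∀ j, kap j = 0 → LocNil (W.a (bv (Sum.inl j) (nu j))))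
    (h3 : ∀ j q, -(nu j : ℤ) ≤ q → LocNil (W.a (bv (Sum.inr j) q)))
    (hI : ∀ j, IntDiag (NO W (good_matA j j le_rfl) +
      (2 * ((kap j + nu j : ℕ) : ℂ) / c) • (1 : Module.End ℂ W.M))) :
    ∃ m : W.M, m ≠ 0 ∧ IsVac (tyOf c hc kap nu) W m := by
  set τ := tyOf c hc kap nu with hτ
  have hnu : ∀ j, τ.nu j = (nu j : ℤ) := fun _ => rfl
  have hsp : ∀ j, τ.sp j ↔ kap j ≠ 0 := fun _ => Iff.rfl
  -- the lattice kills a nonzero vector
  obtain ⟨m, -, hm0, hm⟩ := JQ.common_ker (W := W) {z | τ.L (bv z.1 z.2)} (-∑ j, (nu j : ℤ)) (by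
      rintro ⟨α | j, p⟩ hz
      · change τ.L (bv (Sum.inl α) p) at hz
        rw [Ty.L_bv_inl, hnu] at hz
        have hpos : (0 : ℤ) ≤ ∑ j, (nu j : ℤ) := Finset.sum_nonneg fun j _ => by positivity
        change -∑ j, (nu j : ℤ) ≤ p
        split_ifs at hz <;> omega
      · change τ.L (bv (Sum.inr j) p) at hz
        rw [Ty.L_bv_inr, hnu] at hz
        have : (nu j : ℤ) ≤ ∑ j, (nu j : ℤ) :=
          Finset.single_le_sum (f := fun j => (nu j : ℤ)) (fun _ _ => by positivity)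
            (Finset.mem_univ j)
        change -∑ j, (nu j : ℤ) ≤ p
        omega) (by
      rintro ⟨α | j, p⟩ hz
      · change τ.L (bv (Sum.inl α) p) at hz
        change LocNil (W.a (bv (Sum.inl α) p))
        rw [Ty.L_bv_inl, hnu] at hz
        by_cases hk : kap α = 0
        · rw [if_neg (by rw [hsp]; simpa using hk)] at hz
          rcases hz.eq_or_lt with h | h
          · rw [← h]
            exact h2 α hk
          · exact h1 α p h
        · rw [if_pos (by rw [hsp]; exact hk)] at hz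
          exact h1 α p (by omega)
      · change τ.L (bv (Sum.inr j) p) at hz
        rw [Ty.L_bv_inr, hnu] at hz
        exact h3 j p hz) (fun z hz z' hz' => Ty.L.omr hz hz') ⊤ (fun _ _ _ _ => trivial) (by
      obtain ⟨m, hm⟩ := hW.1
      intro h
      apply hm
      have : m ∈ (⊤ : Submodule ℂ W.M) := trivial
      rw [h] at this
      exact (Submodule.mem_bot ℂ).1 this)
  have hmK : m ∈ KK τ W := KK_of fun α p h => hm (α, p) h
  have hs : ∀ j, τ.s j = 2 * ((kap j + nu j : ℕ) : ℂ) / c := fun _ => rfl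
  have hI' : ∀ j, IntDiag (NO W (good_matA j j le_rfl) + τ.s j • (1 : Module.End ℂ W.M)) := by
    intro j
    rw [hs]
    exact hI j
  have hnu' : ∀ j, 0 ≤ τ.nu j := fun j => by rw [hnu]; exact Int.natCast_nonneg _
  have key : ∀ i : ℕ, ∃ m ∈ KE τ W i, m ≠ 0 := by
    intro i
    induction i with
    | zero => exact ⟨m, ⟨hmK, fun j hj => absurd hj (Nat.not_lt_zero _)⟩, hm0⟩
    | succ i ih => exact step hnu' hI' i ih
  obtain ⟨v, hv, hv0⟩ := key k
  exact ⟨v, hv0, ⟨hv.1, fun j hj => hv.2 j j.2 hj⟩⟩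

end Pool.Agent.H143_GC.JK2
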