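import Pool.Agent.H143_GC.Simple

noncomputable section

open Matrix

namespace Pool.Agent.H143_GC.JM

open Pool.Agent.H143_GC

/-- The index set. -/
abbrev A (k : ℕ) : Type := Fin k × ℤ

/-- The big module. -/
abbrev K (k : ℕ) : Type := (A k →₀ ℤ) →₀ ℂ

variable {k : ℕ}

open scoped Classical in
/-- coefficient of the raising operator -/
def al (τ : Ty k) (a : A k) (n : ℤ) : ℂ := if a.2 < τ.nu a.1 then n else 1

open scoped Classical in
/-- coefficient of the lowering operator -/
def be (τ : Ty k) (a : A k) (n : ℤ) : ℂ :=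
  if a.2 < τ.nu a.1 then 1 else if a.2 = τ.nu a.1 ∧ τ.sp a.1 then τ.s a.1 + n else n

theorem al_be (τ : Ty k) (a : A k) (n : ℤ) :
    al τ a n * be τ a (n + 1) - be τ a n * al τ a (n - 1) = 1 := by
  unfold al be
  split_ifs <;> push_cast <;> ring

/-- The raising operator. -/
def Y (τ : Ty k) (a : A k) : Module.End ℂ (K k) :=
  Finsupp.linearCombination ℂ
    (fun n : A k →₀ ℤ => Finsupp.single (n + Finsupp.single a 1) (al τ a (n a)))

/-- The lowering operator. -/
def E (τ : Ty k) (a : A k) : Module.End ℂ (K k) :=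
  Finsupp.linearCombination ℂ
    (fun n : A k →₀ ℤ => Finsupp.single (n - Finsupp.single a 1) (be τ a (n a)))

theorem Y_single (τ : Ty k) (a : A k) (n : A k →₀ ℤ) (c : ℂ) :
    Y τ a (Finsupp.single n c) = Finsupp.single (n + Finsupp.single a 1) (c * al τ a (n a)) := by
  unfold Y
  rw [Finsupp.linearCombination_single, Finsupp.smul_single, smul_eq_mul]

theorem E_single (τ : Ty k) (a : A k) (n : A k →₀ ℤ) (c : ℂ) :
    E τ a (Finsupp.single n c) = Finsupp.single (n - Finsupp.single a 1) (c * be τ a (n a)) := by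
  unfold E
  rw [Finsupp.linearCombination_single, Finsupp.smul_single, smul_eq_mul]

theorem YY (τ : Ty k) (a b : A k) (m : K k) : Y τ a (Y τ b m) = Y τ b (Y τ a m) := by
  induction m using Finsupp.induction_linear with
  | zero => simp
  | add f g hf hg => simp only [map_add, hf, hg]
  | single n c =>
    by_cases h : a = b
    · rw [h]
    · rw [Y_single, Y_single, Y_single, Y_single]
      have h1 : (n + Finsupp.single b (1 : ℤ) : A k →₀ ℤ) a = n a := by
        rw [Finsupp.add_apply, Finsupp.single_eq_of_ne h, add_zero]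
      have h2 : (n + Finsupp.single a (1 : ℤ) : A k →₀ ℤ) b = n b := by
        rw [Finsupp.add_apply, Finsupp.single_eq_of_ne (Ne.symm h), add_zero]
      rw [h1, h2, add_right_comm]
      congr 1
      ring

theorem EE (τ : Ty k) (a b : A k) (m : K k) : E τ a (E τ b m) = E τ b (E τ a m) := by
  induction m using Finsupp.induction_linear with
  | zero => simp
  | add f g hf hg => simp only [map_add, hf, hg]
  | single n c =>
    by_cases h : a = b
    · rw [h]
    · rw [E_single, E_single, E_single, E_single]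
      have h1 : (n - Finsupp.single b (1 : ℤ) : A k →₀ ℤ) a = n a := by
        rw [Finsupp.sub_apply, Finsupp.single_eq_of_ne h, sub_zero]
      have h2 : (n - Finsupp.single a (1 : ℤ) : A k →₀ ℤ) b = n b := by
        rw [Finsupp.sub_apply, Finsupp.single_eq_of_ne (Ne.symm h), sub_zero]
      rw [h1, h2, sub_right_comm]
      congr 1
      ring

theorem EY (τ : Ty k) (a b : A k) (m : K k) :
    E τ a (Y τ b m) - Y τ b (E τ a m) = (if a = b then (1 : ℂ) else 0) • m := by
  induction m using Finsupp.induction_linear with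
  | zero => simp
  | add f g hf hg =>
    rw [smul_add, ← hf, ← hg]
    simp only [map_add]
    abel
  | single n c =>
    rw [E_single, Y_single, Y_single, E_single]
    by_cases h : a = b
    · subst h
      have h1 : (n + Finsupp.single a (1 : ℤ) : A k →₀ ℤ) a = n a + 1 := by
        rw [Finsupp.add_apply, Finsupp.single_eq_same]
      have h2 : (n - Finsupp.single a (1 : ℤ) : A k →₀ ℤ) a = n a - 1 := by
        rw [Finsupp.sub_apply, Finsupp.single_eq_same]
      rw [h1, h2, if_pos rfl, one_smul, add_sub_cancel_right, sub_add_cancel, ← Finsupp.single_sub]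
      congr 1
      have := al_be τ a (n a)
      linear_combination c * this
    · have h1 : (n + Finsupp.single b (1 : ℤ) : A k →₀ ℤ) a = n a := by
        rw [Finsupp.add_apply, Finsupp.single_eq_of_ne h, add_zero]
      have h2 : (n - Finsupp.single a (1 : ℤ) : A k →₀ ℤ) b = n b := by
        rw [Finsupp.sub_apply, Finsupp.single_eq_of_ne (Ne.symm h), sub_zero]
      rw [h1, h2, if_neg h, zero_smul, sub_eq_zero]
      have h3 : n + Finsupp.single b 1 - Finsupp.single a 1 =
          n - Finsupp.single a 1 + Finsupp.single b 1 := by abel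
      rw [h3]
      congr 1
      ring

theorem E_fin (τ : Ty k) (m : K k) : ∃ N : ℕ, ∀ (j : Fin k) (p : ℤ), (N : ℤ) ≤ p →
    E τ (j, p) m = 0 := by
  induction m using Finsupp.induction_linear with
  | zero => exact ⟨0, fun j p _ => by simp⟩
  | add f g hf hg =>
    obtain ⟨N, hN⟩ := hf
    obtain ⟨N', hN'⟩ := hg
    refine ⟨max N N', fun j p hp => ?_⟩
    push_cast at hp
    rw [map_add, hN j p (by omega), hN' j p (by omega), add_zero]
  | single n c =>
    refine ⟨∑ a ∈ n.support, (a.2.natAbs + 1) + ∑ j, ((τ.nu j).natAbs + 1), fun j p hp => ?_⟩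
    have h1 : (τ.nu j).natAbs + 1 ≤ ∑ j, ((τ.nu j).natAbs + 1) :=
      Finset.single_le_sum (f := fun j => (τ.nu j).natAbs + 1) (fun _ _ => Nat.zero_le _)
        (Finset.mem_univ j)
    have h2 : n (j, p) = 0 := by
      by_contra h0
      have h3 : ((j, p) : A k).2.natAbs + 1 ≤ ∑ a ∈ n.support, (a.2.natAbs + 1) :=
        Finset.single_le_sum (f := fun a : A k => a.2.natAbs + 1) (fun _ _ => Nat.zero_le _)
          (Finsupp.mem_support_iff.2 h0)
      simp only at h3
      omega
    rw [E_single, h2]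
    have h3 : be τ (j, p) 0 = 0 := by
      unfold be
      simp only
      rw [if_neg (by omega), if_neg (by omega), Int.cast_zero]
    rw [h3, mul_zero, Finsupp.single_zero]

theorem Y_fin (τ : Ty k) (m : K k) : ∃ N : ℕ, ∀ (j : Fin k) (p : ℤ), p < -(N : ℤ) →
    Y τ (j, p) m = 0 := by
  induction m using Finsupp.induction_linear with
  | zero => exact ⟨0, fun j p _ => by simp⟩
  | add f g hf hg =>
    obtain ⟨N, hN⟩ := hf
    obtain ⟨N', hN'⟩ := hg
    refine ⟨max N N', fun j p hp => ?_⟩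
    push_cast at hp
    rw [map_add, hN j p (by omega), hN' j p (by omega), add_zero]
  | single n c =>
    refine ⟨∑ a ∈ n.support, (a.2.natAbs + 1) + ∑ j, ((τ.nu j).natAbs + 1), fun j p hp => ?_⟩
    have h1 : (τ.nu j).natAbs + 1 ≤ ∑ j, ((τ.nu j).natAbs + 1) :=
      Finset.single_le_sum (f := fun j => (τ.nu j).natAbs + 1) (fun _ _ => Nat.zero_le _)
        (Finset.mem_univ j)
    have h2 : n (j, p) = 0 := by
      by_contra h0
      have h3 : ((j, p) : A k).2.natAbs + 1 ≤ ∑ a ∈ n.support, (a.2.natAbs + 1) :=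
        Finset.single_le_sum (f := fun a : A k => a.2.natAbs + 1) (fun _ _ => Nat.zero_le _)
          (Finsupp.mem_support_iff.2 h0)
      simp only at h3
      omega
    rw [Y_single, h2]
    have h3 : al τ (j, p) 0 = 0 := by
      unfold al
      simp only
      rw [if_pos (by omega), Int.cast_zero]
    rw [h3, mul_zero, Finsupp.single_zero]

/-- The index interval. -/
abbrev S (k N : ℕ) : Finset (A k) := Finset.univ ×ˢ Finset.Ico (-(N : ℤ)) N

theorem mem_S (N : ℕ) (j : Fin k) (p : ℤ) : ((j, p) : A k) ∈ S k N ↔ -(N : ℤ) ≤ p ∧ p < N := by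
  simp

/-- coefficient at `e` -/
def cE (a : A k) : V k →ₗ[ℂ] ℂ where
  toFun x := (x (Sum.inl a.1)).coeff a.2
  map_add' _ _ := coeff_add _ _ _
  map_smul' _ _ := coeff_smul _ _ _

/-- coefficient at `f` -/
def cY (a : A k) : V k →ₗ[ℂ] ℂ where
  toFun x := (x (Sum.inr a.1)).coeff (-1 - a.2)
  map_add' _ _ := coeff_add _ _ _
  map_smul' _ _ := coeff_smul _ _ _

theorem cE_apply (j : Fin k) (p : ℤ) (x : V k) : cE (j, p) x = (x (Sum.inl j)).coeff p := rfl

theorem cY_apply (j : Fin k) (p : ℤ) (x : V k) : cY (j, p) x = (x (Sum.inr j)).coeff (-1 - p) := rfl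

/-- one term -/
def term (τ : Ty k) (a : A k) (x : V k) (m : K k) : K k := cE a x • E τ a m + cY a x • Y τ a m

/-- The truncated operator. -/
def aN (τ : Ty k) (N : ℕ) (x : V k) (m : K k) : K k := ∑ a ∈ S k N, term τ a x m

theorem term_zero (τ : Ty k) (x : V k) (m : K k) : ∃ N : ℕ, ∀ a : A k, a ∉ S k N →
    term τ a x m = 0 := by
  obtain ⟨N1, h1⟩ := E_fin τ m
  obtain ⟨N2, h2⟩ := Y_fin τ m
  obtain ⟨N3, h3⟩ := exists_OGV x
  refine ⟨N1 + N2 + N3, fun a ha => ?_⟩
  obtain ⟨j, p⟩ := a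
  rw [mem_S] at ha
  unfold term
  push_cast at ha
  have : p < -((N1 : ℤ) + N2 + N3) ∨ ((N1 : ℤ) + N2 + N3) ≤ p := by omega
  rcases this with hp | hp
  · rw [cE_apply, h3 _ p (by omega), zero_smul, h2 j p (by omega), smul_zero, add_zero]
  · rw [cY_apply, h3 _ (-1 - p) (by omega), zero_smul, h1 j p (by omega), smul_zero, add_zero]

theorem aN_const (τ : Ty k) (x : V k) (m : K k) {N : ℕ} (hN : ∀ a : A k, a ∉ S k N →
    term τ a x m = 0) {N' : ℕ} (h : N ≤ N') : aN τ N' x m = aN τ N x m := by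
  unfold aN
  symm
  apply Finset.sum_subset
  · rintro ⟨j, p⟩ hp
    rw [mem_S] at hp ⊢
    omega
  · intro a _ ha
    exact hN a ha

/-- The limit operator as a function. -/
def af (τ : Ty k) (x : V k) (m : K k) : K k := aN τ (Classical.choose (term_zero τ x m)) x m

theorem af_eq (τ : Ty k) (x : V k) (m : K k) : ∃ N0 : ℕ, ∀ N, N0 ≤ N → af τ x m = aN τ N x m :=
  ⟨Classical.choose (term_zero τ x m), fun _ hN =>
    (aN_const τ x m (Classical.choose_spec (term_zero τ x m)) hN).symm⟩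

theorem aN_add (τ : Ty k) (N : ℕ) (x : V k) (m m' : K k) :
    aN τ N x (m + m') = aN τ N x m + aN τ N x m' := by
  unfold aN term
  rw [← Finset.sum_add_distrib]
  refine Finset.sum_congr rfl fun a _ => ?_
  rw [map_add, map_add]
  module

theorem aN_smul (τ : Ty k) (N : ℕ) (x : V k) (c : ℂ) (m : K k) :
    aN τ N x (c • m) = c • aN τ N x m := by
  unfold aN term
  rw [Finset.smul_sum]
  refine Finset.sum_congr rfl fun a _ => ?_
  rw [map_smul, map_smul]
  module

theorem aN_add' (τ : Ty k) (N : ℕ) (x y : V k) (m : K k) :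
    aN τ N (x + y) m = aN τ N x m + aN τ N y m := by
  unfold aN term
  rw [← Finset.sum_add_distrib]
  refine Finset.sum_congr rfl fun a _ => ?_
  rw [map_add, map_add]
  module

theorem aN_smul' (τ : Ty k) (N : ℕ) (x : V k) (c : ℂ) (m : K k) :
    aN τ N (c • x) m = c • aN τ N x m := by
  unfold aN term
  rw [Finset.smul_sum]
  refine Finset.sum_congr rfl fun a _ => ?_
  rw [map_smul, map_smul]
  module

/-- The limit operator. -/
def aa (τ : Ty k) : V k →ₗ[ℂ] Module.End ℂ (K k) :=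
  LinearMap.mk₂ ℂ (af τ)
    (fun x y m => by
      obtain ⟨N1, h1⟩ := af_eq τ (x + y) m
      obtain ⟨N2, h2⟩ := af_eq τ x m
      obtain ⟨N3, h3⟩ := af_eq τ y m
      rw [h1 (N1 + N2 + N3) (by omega), h2 (N1 + N2 + N3) (by omega),
        h3 (N1 + N2 + N3) (by omega), aN_add'])
    (fun c x m => by
      obtain ⟨N1, h1⟩ := af_eq τ (c • x) m
      obtain ⟨N2, h2⟩ := af_eq τ x m
      rw [h1 (N1 + N2) (by omega), h2 (N1 + N2) (by omega), aN_smul'])
    (fun x m m' => by
      obtain ⟨N1, h1⟩ := af_eq τ x (m + m')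
      obtain ⟨N2, h2⟩ := af_eq τ x m
      obtain ⟨N3, h3⟩ := af_eq τ x m'
      rw [h1 (N1 + N2 + N3) (by omega), h2 (N1 + N2 + N3) (by omega),
        h3 (N1 + N2 + N3) (by omega), aN_add])
    (fun c x m => by
      obtain ⟨N1, h1⟩ := af_eq τ x (c • m)
      obtain ⟨N2, h2⟩ := af_eq τ x m
      rw [h1 (N1 + N2) (by omega), h2 (N1 + N2) (by omega), aN_smul])

theorem aa_eq (τ : Ty k) (x : V k) (m : K k) : ∃ N0 : ℕ, ∀ N, N0 ≤ N → aa τ x m = aN τ N x m :=
  af_eq τ x m

theorem off_aux {M : Type*} [AddCommGroup M] [Module ℂ M] (p q r s : ℂ) (u v w z : M) :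
    (p * q) • u + (r * s) • v + (p * s) • w + (r * q) • z -
      ((q * p) • u + (s * r) • v + (q * r) • z + (s * p) • w) = 0 := by
  module

theorem diag_aux {M : Type*} [AddCommGroup M] [Module ℂ M] (p q r s : ℂ) (u v w m : M) :
    (p * q) • u + (r * s) • v + (p * s) • (w + m) + (r * q) • w -
      ((q * p) • u + (s * r) • v + (q * r) • (w + m) + (s * p) • w) = (p * s - r * q) • m := by
  module

theorem aN_comm (τ : Ty k) (N : ℕ) (x y : V k) (m : K k) :
    aN τ N x (aN τ N y m) - aN τ N y (aN τ N x m) =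
      (∑ a ∈ S k N, (cE a x * cY a y - cY a x * cE a y)) • m := by
  have h1 : ∀ u v : V k, aN τ N u (aN τ N v m) = ∑ a ∈ S k N, ∑ b ∈ S k N,
      ((cE a u * cE b v) • E τ a (E τ b m) + (cY a u * cY b v) • Y τ a (Y τ b m) +
        (cE a u * cY b v) • E τ a (Y τ b m) + (cY a u * cE b v) • Y τ a (E τ b m)) := by
    intro u v
    unfold aN term
    refine Finset.sum_congr rfl fun a _ => ?_
    rw [map_sum, map_sum, Finset.smul_sum, Finset.smul_sum, ← Finset.sum_add_distrib]
    refine Finset.sum_congr rfl fun b _ => ?_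
    simp only [map_add, map_smul, smul_add, smul_smul]
    abel
  rw [h1, h1]
  nth_rewrite 2 [Finset.sum_comm]
  rw [← Finset.sum_sub_distrib, Finset.sum_smul]
  refine Finset.sum_congr rfl fun a ha => ?_
  rw [← Finset.sum_sub_distrib]
  rw [Finset.sum_eq_single a]
  · have e1 := EY τ a a m
    rw [if_pos rfl, one_smul] at e1
    have e2 : E τ a (Y τ a m) = Y τ a (E τ a m) + m := sub_eq_iff_eq_add'.1 e1
    rw [e2]
    exact diag_aux _ _ _ _ _ _ _ _
  · intro b _ hb
    have e1 := EY τ a b m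
    rw [if_neg (Ne.symm hb), zero_smul, sub_eq_zero] at e1
    have e2 := EY τ b a m
    rw [if_neg hb, zero_smul, sub_eq_zero] at e2
    rw [YY τ b a, EE τ b a, e1, e2]
    exact off_aux _ _ _ _ _ _ _ _
  · intro h; exact absurd ha h

theorem omr_sum (x y : V k) (N : ℕ) (hx : OGV (-(N : ℤ)) x) (hy : OGV (-(N : ℤ)) y) :
    res (om x y) = ∑ a ∈ S k N, (cE a x * cY a y - cY a x * cE a y) := by
  have key : ∀ f : ℤ → ℂ, ∑ p ∈ Finset.Ico (-(N : ℤ)) N, f p =
      ∑ p ∈ Finset.Ico (-(N : ℤ)) N, f (-1 - p) := by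
    intro f
    refine Finset.sum_nbij' (fun p => -1 - p) (fun p => -1 - p) ?_ ?_ ?_ ?_ ?_
    · intro p hp; rw [Finset.mem_Ico] at hp ⊢; omega
    · intro p hp; rw [Finset.mem_Ico] at hp ⊢; omega
    · intro p _; ring
    · intro p _; ring
    · intro p _; congr 1; ring
  rw [Finset.sum_product]
  unfold om
  rw [res_sum]
  refine Finset.sum_congr rfl fun j _ => ?_
  rw [res_sub, res_mul _ _ N (hx _) (hy _), res_mul _ _ N (hx _) (hy _),
    key (fun p => (x (Sum.inr j)).coeff p * (y (Sum.inl j)).coeff (-1 - p)),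
    ← Finset.sum_sub_distrib]
  refine Finset.sum_congr rfl fun p _ => ?_
  rw [cE_apply, cY_apply, cE_apply, cY_apply, sub_sub_cancel]

theorem aa_comm (τ : Ty k) (x y : V k) (m : K k) :
    aa τ x (aa τ y m) - aa τ y (aa τ x m) = res (om x y) • m := by
  obtain ⟨N1, h1⟩ := aa_eq τ x m
  obtain ⟨N2, h2⟩ := aa_eq τ y m
  obtain ⟨N3, h3⟩ := aa_eq τ x (aa τ y m)
  obtain ⟨N4, h4⟩ := aa_eq τ y (aa τ x m)
  obtain ⟨N5, h5⟩ := exists_OGV x
  obtain ⟨N6, h6⟩ := exists_OGV y
  set N := N1 + N2 + N3 + N4 + N5 + N6 with hN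
  rw [h3 N (by omega), h4 N (by omega), h1 N (by omega), h2 N (by omega), aN_comm,
    ← omr_sum x y N (h5.mono (by omega)) (h6.mono (by omega))]

theorem aa_discrete (τ : Ty k) (m : K k) : ∃ N : ℤ, ∀ x : Fin k ⊕ Fin k → F,
    (∀ i, ∀ p < N, (x i).coeff p = 0) → aa τ x m = 0 := by
  obtain ⟨N1, h1⟩ := E_fin τ m
  obtain ⟨N2, h2⟩ := Y_fin τ m
  refine ⟨(N1 : ℤ) + N2, fun x hx => ?_⟩
  obtain ⟨N3, h3⟩ := aa_eq τ x m
  rw [h3 N3 le_rfl]
  unfold aN
  refine Finset.sum_eq_zero fun a _ => ?_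
  obtain ⟨j, p⟩ := a
  unfold term
  rw [cE_apply, cY_apply]
  by_cases hp : p < (N1 : ℤ) + N2
  · rw [hx _ p hp, zero_smul, zero_add]
    by_cases hp' : -1 - p < (N1 : ℤ) + N2
    · rw [hx _ _ hp', zero_smul]
    · rw [h2 j p (by omega), smul_zero]
  · rw [h1 j p (by omega), smul_zero, zero_add, hx _ _ (by omega), zero_smul]

/-- The big module. -/
def big (τ : Ty k) : WeylModule k where
  M := K k
  a := aa τ
  comm := aa_comm τ
  discrete := aa_discrete τ

theorem aa_bv_inl (τ : Ty k) (j : Fin k) (p : ℤ) (m : K k) :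
    aa τ (bv (Sum.inl j) p) m = E τ (j, p) m := by
  obtain ⟨N, h⟩ := aa_eq τ (bv (Sum.inl j) p) m
  rw [h (N + p.natAbs + 1) (by omega)]
  unfold aN
  rw [Finset.sum_eq_single (j, p)]
  · unfold term
    rw [cE_apply, cY_apply]
    unfold bv
    rw [Pi.single_eq_same, Pi.single_eq_of_ne (by simp), coeff_zero, coeff_tp, if_pos rfl, one_smul,
      zero_smul, add_zero]
  · rintro ⟨i, q⟩ _ hne
    unfold term
    rw [cE_apply, cY_apply]
    unfold bv
    rw [Pi.single_eq_of_ne (i := Sum.inl j) (i' := Sum.inr i) (by simp), coeff_zero, zero_smul,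
      add_zero]
    by_cases hi : i = j
    · subst hi
      rw [Pi.single_eq_same, coeff_tp, if_neg (fun h => hne (by rw [h])), zero_smul]
    · rw [Pi.single_eq_of_ne (by simpa using hi), coeff_zero, zero_smul]
  · intro h
    exact absurd ((mem_S _ _ _).2 ⟨by omega, by omega⟩) h

theorem aa_bv_inr (τ : Ty k) (j : Fin k) (p : ℤ) (m : K k) :
    aa τ (bv (Sum.inr j) (-1 - p)) m = Y τ (j, p) m := by
  obtain ⟨N, h⟩ := aa_eq τ (bv (Sum.inr j) (-1 - p)) m
  rw [h (N + p.natAbs + 1) (by omega)]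
  unfold aN
  rw [Finset.sum_eq_single (j, p)]
  · unfold term
    rw [cE_apply, cY_apply]
    unfold bv
    rw [Pi.single_eq_same, Pi.single_eq_of_ne (by simp), coeff_zero, coeff_tp, if_pos rfl, one_smul,
      zero_smul, zero_add]
  · rintro ⟨i, q⟩ _ hne
    unfold term
    rw [cE_apply, cY_apply]
    unfold bv
    rw [Pi.single_eq_of_ne (i := Sum.inr j) (i' := Sum.inl i) (by simp), coeff_zero, zero_smul,
      zero_add]
    by_cases hi : i = j
    · subst hi
      rw [Pi.single_eq_same, coeff_tp, if_neg (fun h => hne (by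
        have : q = p := by omega
        rw [this])), zero_smul]
    · rw [Pi.single_eq_of_ne (by simpa using hi), coeff_zero, zero_smul]
  · intro h
    exact absurd ((mem_S _ _ _).2 ⟨by omega, by omega⟩) h

/-- The vacuum. -/
def vac (k : ℕ) : K k := Finsupp.single 0 1

theorem big_low (τ : Ty k) (x : V k) (hx : τ.L x) : aa τ x (vac k) = 0 := by
  obtain ⟨N, h⟩ := aa_eq τ x (vac k)
  rw [h N le_rfl]
  unfold aN
  refine Finset.sum_eq_zero fun a _ => ?_
  obtain ⟨j, p⟩ := a
  unfold term vac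
  rw [cE_apply, cY_apply, E_single, Y_single, Finsupp.coe_zero, Pi.zero_apply, one_mul, one_mul]
  obtain ⟨h1, h2⟩ := hx j
  by_cases hp : p < τ.nu j
  · have e1 : al τ (j, p) 0 = 0 := by
      unfold al; rw [if_pos hp, Int.cast_zero]
    rw [h1 p (by split_ifs <;> omega), zero_smul, e1, Finsupp.single_zero, smul_zero, add_zero]
  · rw [h2 (-1 - p) (by omega), zero_smul, add_zero]
    by_cases hs : p = τ.nu j ∧ τ.sp j
    · rw [h1 p (by rw [if_pos hs.2]; omega), zero_smul]
    · have e1 : be τ (j, p) 0 = 0 := by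
        unfold be; rw [if_neg hp, if_neg hs, Int.cast_zero]
      rw [e1, Finsupp.single_zero, smul_zero]

theorem big_eig (τ : Ty k) (j : Fin k) (hs : τ.sp j) :
    aa τ (bv (Sum.inr j) (-1 - τ.nu j)) (aa τ (bv (Sum.inl j) (τ.nu j)) (vac k)) =
      τ.s j • vac k := by
  rw [aa_bv_inr, aa_bv_inl]
  unfold vac
  rw [E_single, Y_single, Finsupp.smul_single, sub_add_cancel, Finsupp.coe_zero, Pi.zero_apply,
    one_mul, smul_eq_mul, mul_one]
  have e1 : be τ (j, τ.nu j) 0 = τ.s j := by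
    unfold be
    rw [if_neg (lt_irrefl _), if_pos ⟨rfl, hs⟩, Int.cast_zero, add_zero]
  have e2 : ∀ n, al τ (j, τ.nu j) n = 1 := by
    intro n
    unfold al
    rw [if_neg (lt_irrefl _)]
  rw [e1, e2, mul_one]

/-- The submodule generated by a vector. -/
def gen (W : WeylModule k) (m₀ : W.M) : Submodule ℂ W.M :=
  sInf {Z | (∀ x, ∀ m ∈ Z, W.a x m ∈ Z) ∧ m₀ ∈ Z}

theorem gen_mem (W : WeylModule k) (m₀ : W.M) : m₀ ∈ gen W m₀ := by
  unfold gen
  rw [Submodule.mem_sInf]
  intro Z hZ
  exact hZ.2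

theorem gen_stable (W : WeylModule k) (m₀ : W.M) (x : V k) (m : W.M) (hm : m ∈ gen W m₀) :
    W.a x m ∈ gen W m₀ := by
  unfold gen at *
  rw [Submodule.mem_sInf] at *
  intro Z hZ
  exact hZ.1 x m (hm Z hZ)

theorem gen_le (W : WeylModule k) (m₀ : W.M) (Z : Submodule ℂ W.M)
    (h : ∀ x, ∀ m ∈ Z, W.a x m ∈ Z) (h0 : m₀ ∈ Z) : gen W m₀ ≤ Z := sInf_le ⟨h, h0⟩

/-- The small module. -/
def small (W : WeylModule k) (m₀ : W.M) : WeylModule k where
  M := gen W m₀
  a :=
    { toFun := fun x => (W.a x).restrict (fun m hm => gen_stable W m₀ x m hm)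
      map_add' := fun x y => by
        apply LinearMap.ext
        intro m
        apply Subtype.ext
        change W.a (x + y) m.1 = W.a x m.1 + W.a y m.1
        rw [map_add]
        rfl
      map_smul' := fun c x => by
        apply LinearMap.ext
        intro m
        apply Subtype.ext
        change W.a (c • x) m.1 = c • W.a x m.1
        rw [map_smul]
        rfl }
  comm := fun x y m => Subtype.ext (W.comm x y m.1)
  discrete := fun m => by
    obtain ⟨N, hN⟩ := W.discrete m.1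
    exact ⟨N, fun x hx => Subtype.ext (hN x hx)⟩

/-- **Target.** -/
theorem exists_vac {k : ℕ} (τ : Ty k) : ∃ (W : WeylModule k) (m₀ : W.M), m₀ ≠ 0 ∧ IsVac τ W m₀ ∧
    ∀ Z : Submodule ℂ W.M, (∀ x, ∀ m ∈ Z, W.a x m ∈ Z) → m₀ ∈ Z → Z = ⊤ := by
  refine ⟨small (big τ) (vac k), ⟨vac k, gen_mem (big τ) (vac k)⟩, ?_, ⟨?_, ?_⟩, ?_⟩
  · intro h
    have h1 : vac k = 0 := congrArg Subtype.val h
    unfold vac at h1
    rw [Finsupp.single_eq_zero] at h1
    exact one_ne_zero h1
  · intro x hx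
    exact Subtype.ext (big_low τ x hx)
  · intro j hj
    exact Subtype.ext (big_eig τ j hj)
  · intro Z hZ h0
    rw [Submodule.eq_top_iff']
    rintro ⟨m, hm⟩
    have h1 := gen_le (big τ) (vac k) (Z.map (gen (big τ) (vac k)).subtype) (by
      rintro x _ ⟨z, hz, rfl⟩
      exact ⟨_, hZ x z hz, rfl⟩) ⟨_, h0, rfl⟩ hm
    obtain ⟨z, hz, hz'⟩ := h1
    have : z = ⟨m, hm⟩ := Subtype.ext hz'
    rw [← this]
    exact hz

end Pool.Agent.H143_GC.JM
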