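import Pool.Agent.H143_GC.Elem

/-!
Elements of the stabiliser of a diagonal point (job by helper135).
-/

noncomputable section

open Matrix

namespace Pool.Agent.H143_GC.JR

open Pool.Agent.H143_GC

variable {l k : ℕ} {c : ℂ} {lam : Fin (l + 1) → ℤ} {mu : Fin k → ℕ} {W : WeylModule k}
  {T : lieGamma l k →ₗ[ℂ] Module.End ℂ W.M}

/-- The condition in `IsEquivariant` -/
def Eqv (c : ℂ) (g : Matrix (Idx l k) (Idx l k) F) (T : lieGamma l k →ₗ[ℂ] Module.End ℂ W.M) :
    Prop :=
  ∀ Y : lieGamma l k,
      (∀ a b, IsInt ((g⁻¹ * (Y : Matrix (Idx l k) (Idx l k) F) * g) a b)) →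
      (IsNilpotent ((g⁻¹ * (Y : Matrix (Idx l k) (Idx l k) F) * g).map fun x => x.coeff 0) →
        LocNil (T Y + chi c g (Y : Matrix (Idx l k) (Idx l k) F) • (1 : Module.End ℂ W.M))) ∧
      ((∃ h, InGO h ∧ ∃ d : Idx l k → ℤ, g⁻¹ * (Y : Matrix (Idx l k) (Idx l k) F) * g =
          h * Matrix.diagonal (fun i => (d i : F)) * h⁻¹) →
        IntDiag (T Y + chi c g (Y : Matrix (Idx l k) (Idx l k) F) • (1 : Module.End ℂ W.M)))

/-- The exponents of the diagonal point. -/
def ex (lam : Fin (l + 1) → ℤ) (mu : Fin k → ℕ) : Idx l k → ℤ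
  | Sum.inl (Sum.inl i) => -lam i
  | Sum.inl (Sum.inr j) => (mu j : ℤ)
  | Sum.inr (Sum.inl i) => lam i
  | Sum.inr (Sum.inr j) => -(mu j : ℤ)

theorem tPoint_eq : tPoint lam (fun j => (mu j : ℤ)) =
    Matrix.diagonal (fun a : Idx l k => tp (ex lam mu a)) := by
  unfold tPoint
  congr 1
  funext a
  rcases a with (a | a) | (a | a) <;> rfl

theorem tPoint_inv : (tPoint lam (fun j => (mu j : ℤ)))⁻¹ =
    Matrix.diagonal (fun a : Idx l k => tp (-ex lam mu a)) := by
  rw [tPoint_eq]
  apply Matrix.inv_eq_left_inv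
  rw [Matrix.diagonal_mul_diagonal, ← Matrix.diagonal_one]
  congr 1
  funext a
  rw [tp_mul_tp, neg_add_cancel, tp_zero]

theorem conj_apply (Y : Matrix (Idx l k) (Idx l k) F) (a b : Idx l k) :
    ((tPoint lam (fun j => (mu j : ℤ)))⁻¹ * Y * tPoint lam (fun j => (mu j : ℤ))) a b =
      tp (-ex lam mu a) * Y a b * tp (ex lam mu b) := by
  rw [tPoint_inv, tPoint_eq, Matrix.mul_diagonal, Matrix.diagonal_mul]

theorem conj_coeff (Y : Matrix (Idx l k) (Idx l k) F) (a b : Idx l k) (p : ℤ) :
    (((tPoint lam (fun j => (mu j : ℤ)))⁻¹ * Y * tPoint lam (fun j => (mu j : ℤ))) a b).coeff p =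
      (Y a b).coeff (p + (ex lam mu a - ex lam mu b)) := by
  rw [conj_apply, coeff_mul_tp, coeff_tp_mul]
  congr 1
  ring

theorem der_zero : der 0 = 0 := by
  change LaurentSeries.derivative ℂ (0 : LaurentSeries ℂ) = 0
  rw [map_zero]

theorem coeff_der (x : F) (p : ℤ) : (der x).coeff p = ((p + 1 : ℤ) : ℂ) * x.coeff (p + 1) := by
  change (LaurentSeries.derivative ℂ (show LaurentSeries ℂ from x)).coeff p = _
  rw [LaurentSeries.derivative_apply, LaurentSeries.hasseDeriv_coeff, Nat.cast_one,
    Ring.choose_one_right, zsmul_eq_mul]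
  rfl

theorem res_der_tp_mul (p : ℤ) (x : F) : res (der (tp p) * tp (-p) * x) = (p : ℂ) * x.coeff 0 := by
  have h : der (tp p) * tp (-p) = algebraMap ℂ F p * tp (-1) := by
    apply F.ext'
    intro q
    rw [coeff_mul_tp, coeff_der, coeff_tp, ← smul_eq_C, coeff_smul, coeff_tp]
    by_cases hq : q = -1
    · subst hq
      rw [if_pos (by ring), if_pos rfl]
      push_cast
      ring
    · rw [if_neg (by omega), if_neg hq, mul_zero, mul_zero]
  rw [h, mul_assoc, ← smul_eq_C, res_smul, res, coeff_tp_mul, sub_self]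

theorem chi_eq (Y : Matrix (Idx l k) (Idx l k) F) :
    chi c (tPoint lam (fun j => (mu j : ℤ))) Y =
      c⁻¹ * ∑ a, (ex lam mu a : ℂ) * (Y a a).coeff 0 := by
  unfold chi
  rw [tPoint_inv, tPoint_eq, Matrix.diagonal_map der_zero, Matrix.diagonal_mul_diagonal,
    Matrix.trace, res_sum]
  congr 1
  refine Finset.sum_congr rfl fun a _ => ?_
  rw [Matrix.diag_apply, Matrix.diagonal_mul]
  exact res_der_tp_mul _ _

theorem locNil_of (hE : Eqv c (tPoint lam fun j => (mu j : ℤ)) T) (Y : lieGamma l k)
    (h1 : ∀ a b, OG (ex lam mu a - ex lam mu b) ((Y : Matrix (Idx l k) (Idx l k) F) a b))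
    (h2 : ∀ a, ((Y : Matrix (Idx l k) (Idx l k) F) a a).coeff 0 = 0)
    (h3 : ∀ a b d, ((Y : Matrix (Idx l k) (Idx l k) F) a b).coeff (ex lam mu a - ex lam mu b) = 0 ∨
      ((Y : Matrix (Idx l k) (Idx l k) F) b d).coeff (ex lam mu b - ex lam mu d) = 0) :
    LocNil (T Y) := by
  have hc : chi c (tPoint lam (fun j => (mu j : ℤ))) (Y : Matrix (Idx l k) (Idx l k) F) = 0 := by
    rw [chi_eq, Finset.sum_eq_zero, mul_zero]
    intro a _
    rw [h2, mul_zero]
  have h := (hE Y ?_).1 ?_
  · rw [hc, zero_smul, add_zero] at h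
    exact h
  · intro a b p hp
    rw [conj_coeff]
    exact h1 a b _ (by omega)
  · refine ⟨2, ?_⟩
    ext a d
    rw [pow_two, Matrix.mul_apply, Matrix.zero_apply]
    refine Finset.sum_eq_zero fun b _ => ?_
    rw [Matrix.map_apply, Matrix.map_apply, conj_coeff, conj_coeff, zero_add, zero_add]
    rcases h3 a b d with h | h
    · rw [h, zero_mul]
    · rw [h, mul_zero]

theorem not_locNil_smul {s : ℂ} (hs : s ≠ 0) (hne : ∃ m : W.M, m ≠ 0) {A : Module.End ℂ W.M}
    (hA : ∀ m, A m = s • m) : ¬ LocNil A := by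
  obtain ⟨m, hm⟩ := hne
  intro h
  obtain ⟨N, hN⟩ := h m
  have key : ∀ n : ℕ, (A ^ n) m = s ^ n • m := by
    intro n
    induction n with
    | zero => simp
    | succ n ih => rw [pow_succ', Module.End.mul_apply, ih, hA, smul_smul, ← pow_succ']
  rw [key] at hN
  exact (smul_ne_zero (pow_ne_zero _ hs) hm) hN

theorem lam_anti (hT : IsLift W T) (hE : Eqv c (tPoint lam fun j => (mu j : ℤ)) T)
    (hne : ∃ m : W.M, m ≠ 0) : Antitone lam := by
  have key : ∀ i : Fin l, lam i.succ ≤ lam i.castSucc := by
    intro i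
    by_contra hlt
    rw [not_le] at hlt
    refine not_locNil_smul (s := 2) two_ne_zero hne (A := T ⟨sroot k i (tp (-1)), sroot_mem i _⟩)
      ?_ ?_
    · intro m
      rw [hT.heis _ (midBlock_sroot i _) m]
      change W.a (heisV (sroot k i (tp (-1)))) m + psi (sroot k i (tp (-1))) • m = 2 • m
      rw [heisV_sroot, psi_sroot, map_zero, LinearMap.zero_apply, zero_add, res, coeff_tp,
        if_pos rfl, mul_one]
    · have hne' : i.succ ≠ i.castSucc := fun h => by
        have := congrArg Fin.val h
        simp at this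
      refine locNil_of hE _ ?_ ?_ ?_
      · change ∀ a b, OG (ex lam mu a - ex lam mu b) (sroot k i (tp (-1)) a b)
        rintro ((a | a) | (a | a)) ((b | b) | (b | b)) <;> simp only [sroot] <;>
          try exact OG.zero _
        · split_ifs with h
          · obtain ⟨rfl, rfl⟩ := h
            refine (OG_tp (-1)).mono ?_
            simp only [ex]
            omega
          · exact OG.zero _
        · split_ifs with h
          · obtain ⟨rfl, rfl⟩ := h
            refine ((OG_tp (-1)).mono ?_).neg
            simp only [ex]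
            omega
          · exact OG.zero _
      · change ∀ a, (sroot k i (tp (-1)) a a).coeff 0 = 0
        rintro ((a | a) | (a | a)) <;> simp only [sroot] <;> try exact coeff_zero _
        · rw [if_neg, coeff_zero]
          rintro ⟨h1, h2⟩
          exact hne' (h1.symm.trans h2)
        · rw [if_neg, coeff_zero]
          rintro ⟨h1, h2⟩
          exact hne' (h2.symm.trans h1)
      · intro a b d
        have h : sroot k i (tp (-1)) a b = 0 ∨ sroot k i (tp (-1)) b d = 0 := by
          rcases a with (a | a) | (a | a) <;> rcases b with (b | b) | (b | b) <;>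
            rcases d with (d | d) | (d | d) <;> simp only [sroot] <;> try simp
          · by_cases h : b = i.castSucc
            · right
              intro h'
              exact absurd (h'.symm.trans h) hne'
            · left
              intro _ h'
              exact absurd h' h
          · by_cases h : b = i.succ
            · right
              intro h'
              exact absurd (h.symm.trans h') hne'
            · left
              intro _ h'
              exact absurd h' h
        rcases h with h | h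
        · left
          change (sroot k i (tp (-1)) a b).coeff _ = 0
          rw [h, coeff_zero]
        · right
          change (sroot k i (tp (-1)) b d).coeff _ = 0
          rw [h, coeff_zero]
  exact Fin.antitone_iff_succ_le.2 key

theorem good_zero : Good (0 : MV k) := by
  refine good_of ?_ ?_ ?_ ?_
  · intro a b; exact OG.zero 0
  · intro a b; simp
  · intro a b; simp
  · intro a b; simp

theorem sq_of {Y : Matrix (Idx l k) (Idx l k) F} (h : ∀ a b d, Y a b = 0 ∨ Y b d = 0)
    (a b d : Idx l k) : (Y a b).coeff (ex lam mu a - ex lam mu b) = 0 ∨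
      (Y b d).coeff (ex lam mu b - ex lam mu d) = 0 := by
  rcases h a b d with h | h
  · left; rw [h, coeff_zero]
  · right; rw [h, coeff_zero]

theorem lam_nonneg (hT : IsLift W T) (hE : Eqv c (tPoint lam fun j => (mu j : ℤ)) T)
    (hne : ∃ m : W.M, m ≠ 0) : 0 ≤ lam (Fin.last l) := by
  by_contra hlt
  rw [not_le] at hlt
  refine not_locNil_smul (s := -(1 / 2)) (by norm_num) hne
    (A := T ⟨elem l 0 0 (tp (-1)), elem_mem good_zero 0 _⟩) ?_ ?_
  · intro m
    rw [hT.heis _ (midBlock_elem 0 0 _) m]
    change W.a (heisV (elem l 0 0 (tp (-1)))) m + psi (elem l 0 0 (tp (-1))) • m = _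
    rw [heisV_elem, psi_elem, map_zero, LinearMap.zero_apply, zero_add, res, coeff_tp,
      if_pos rfl, mul_one]
  · refine locNil_of hE _ ?_ ?_ (sq_of ?_)
    · change ∀ a b, OG (ex lam mu a - ex lam mu b) (elem l 0 0 (tp (-1)) a b)
      rintro ((a | a) | (a | a)) ((b | b) | (b | b)) <;> simp only [elem] <;>
        try exact OG.zero _
      all_goals split_ifs with h
      all_goals try exact OG.zero _
      · obtain ⟨rfl, rfl⟩ := h
        refine (OG_tp (-1)).mono ?_
        simp only [ex]
        omega
      · simpa using OG.zero _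
    · change ∀ a, (elem l 0 0 (tp (-1)) a a).coeff 0 = 0
      rintro ((a | a) | (a | a)) <;> simp only [elem] <;> exact coeff_zero _
    · change ∀ a b d, elem l 0 0 (tp (-1)) a b = 0 ∨ elem l 0 0 (tp (-1)) b d = 0
      rintro ((a | a) | (a | a)) ((b | b) | (b | b)) ((d | d) | (d | d)) <;>
        simp only [elem] <;> simp

theorem nil_f (hT : IsLift W T) (hE : Eqv c (tPoint lam fun j => (mu j : ℤ)) T) (j : Fin k) (p : ℤ)
    (hp : lam (Fin.last l) - mu j ≤ p) : LocNil (W.a (bv (Sum.inr j) p)) := by
  have h : LocNil (T ⟨elem l 0 (bv (Sum.inr j) p) 0, elem_mem good_zero _ _⟩) := by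
    refine locNil_of hE _ ?_ ?_ (sq_of ?_)
    · change ∀ a b, OG (ex lam mu a - ex lam mu b) (elem l 0 (bv (Sum.inr j) p) 0 a b)
      rintro ((a | a) | (a | a)) ((b | b) | (b | b)) <;> simp only [elem] <;>
        try exact OG.zero _
      all_goals split_ifs with h
      all_goals try exact OG.zero _
      all_goals simp only [bv, Pi.single_apply, Sum.inr.injEq, reduceCtorEq, if_false, neg_zero]
      all_goals try exact OG.zero _
      all_goals split_ifs with h2
      all_goals try exact OG.zero _
      all_goals subst h h2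
      all_goals refine (OG_tp p).mono ?_
      all_goals simp only [ex]
      all_goals omega
    · change ∀ a, (elem l 0 (bv (Sum.inr j) p) 0 a a).coeff 0 = 0
      rintro ((a | a) | (a | a)) <;> simp only [elem] <;> exact coeff_zero _
    · change ∀ a b d, elem l 0 (bv (Sum.inr j) p) 0 a b = 0 ∨ elem l 0 (bv (Sum.inr j) p) 0 b d = 0
      rintro ((a | a) | (a | a)) ((b | b) | (b | b)) ((d | d) | (d | d)) <;>
        simp only [elem] <;> simp [bv]
  have h2 : T ⟨elem l 0 (bv (Sum.inr j) p) 0, elem_mem good_zero _ _⟩ = W.a (bv (Sum.inr j) p) := by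
    ext m
    rw [hT.heis _ (midBlock_elem 0 _ _) m]
    change W.a (heisV (elem l 0 (bv (Sum.inr j) p) 0)) m + psi (elem l 0 (bv (Sum.inr j) p) 0) • m
      = _
    rw [heisV_elem, psi_elem, res_zero, mul_zero, zero_smul, add_zero]
  rwa [h2] at h

/-- The exponents on the middle block. -/
def exm (mu : Fin k → ℕ) : Fin k ⊕ Fin k → ℤ
  | Sum.inl j => (mu j : ℤ)
  | Sum.inr j => -(mu j : ℤ)

theorem elem_cases (X : MV k) (a b : Idx l k) :
    (∃ α β, a = mid α ∧ b = mid β ∧ elem l X 0 0 a b = X α β) ∨ elem l X 0 0 a b = 0 := by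
  rcases a with (a | a) | (a | a) <;> rcases b with (b | b) | (b | b)
  case inl.inr.inl.inr => exact Or.inl ⟨Sum.inl a, Sum.inl b, rfl, rfl, rfl⟩
  case inl.inr.inr.inr => exact Or.inl ⟨Sum.inl a, Sum.inr b, rfl, rfl, rfl⟩
  case inr.inr.inl.inr => exact Or.inl ⟨Sum.inr a, Sum.inl b, rfl, rfl, rfl⟩
  case inr.inr.inr.inr => exact Or.inl ⟨Sum.inr a, Sum.inr b, rfl, rfl, rfl⟩
  all_goals right; simp [elem]

theorem elem_mid (X : MV k) (α β : Fin k ⊕ Fin k) : elem l X 0 0 (mid α) (mid β) = X α β := by
  rcases α with α | α <;> rcases β with β | β <;> rfl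

theorem ex_mid (α : Fin k ⊕ Fin k) : ex lam mu (mid α) = exm mu α := by
  rcases α with α | α <;> rfl

theorem mid_inj {α β : Fin k ⊕ Fin k} (h : (mid α : Idx l k) = mid β) : α = β := by
  rcases α with α | α <;> rcases β with β | β <;> simp [mid] at h ⊢ <;> exact h

theorem locNil_mid (hE : Eqv c (tPoint lam fun j => (mu j : ℤ)) T) {X : MV k} (hX : Good X)
    (h1 : ∀ α β, OG (exm mu α - exm mu β) (X α β)) (h2 : ∀ α, (X α α).coeff 0 = 0)
    (h3 : ∀ α β γ, (X α β).coeff (exm mu α - exm mu β) = 0 ∨
      (X β γ).coeff (exm mu β - exm mu γ) = 0) : LocNil (T (lieMid l hX)) := by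
  refine locNil_of hE _ ?_ ?_ ?_
  · intro a b
    change OG _ (elem l X 0 0 a b)
    rcases elem_cases X a b with ⟨α, β, rfl, rfl, h⟩ | h
    · rw [h, ex_mid, ex_mid]
      exact h1 α β
    · rw [h]
      exact OG.zero _
  · intro a
    change (elem l X 0 0 a a).coeff 0 = 0
    rcases elem_cases X a a with ⟨α, β, h, h', h''⟩ | h
    · obtain rfl := mid_inj (h.symm.trans h')
      rw [h'', h2]
    · rw [h, coeff_zero]
  · intro a b d
    change (elem l X 0 0 a b).coeff _ = 0 ∨ (elem l X 0 0 b d).coeff _ = 0
    rcases elem_cases X a b with ⟨α, β, rfl, rfl, h⟩ | h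
    · rcases elem_cases X (mid β) d with ⟨β', γ, h4, rfl, h5⟩ | h5
      · obtain rfl := mid_inj h4
        rw [h, h5, ex_mid, ex_mid, ex_mid]
        exact h3 α β γ
      · right
        rw [h5, coeff_zero]
    · left
      rw [h, coeff_zero]

theorem sq_mid {X : MV k} (h : ∀ α β γ, X α β = 0 ∨ X β γ = 0) (α β γ : Fin k ⊕ Fin k) :
    (X α β).coeff (exm mu α - exm mu β) = 0 ∨ (X β γ).coeff (exm mu β - exm mu γ) = 0 := by
  rcases h α β γ with h | h
  · left; rw [h, coeff_zero]
  · right; rw [h, coeff_zero]

theorem nil_C (hT : IsLift W T) (hE : Eqv c (tPoint lam fun j => (mu j : ℤ)) T) (j : Fin k) {s : ℤ}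
    (hs : 0 ≤ s) : LocNil (NO W (good_matC j hs)) := by
  have h : LocNil (T (lieMid l (good_matC j hs))) := by
    refine locNil_mid hE _ ?_ ?_ (sq_mid ?_)
    · rintro (a | a) (b | b) <;>
        simp only [matC, Matrix.single_apply, Sum.inr.injEq, Sum.inl.injEq, reduceCtorEq,
          false_and, and_false, if_false] <;> try exact OG.zero _
      split_ifs with h
      · obtain ⟨rfl, rfl⟩ := h
        refine (OG_tp s).mono ?_
        simp only [exm]
        omega
      · exact OG.zero _
    · rintro (a | a) <;> simp [matC, coeff_zero]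
    · rintro (a | a) (b | b) (d | d) <;> simp [matC, Matrix.single_apply]
  have h2 : T (lieMid l (good_matC j hs)) = NO W (good_matC j hs) := by
    ext m; exact hT.matC j hs m
  rwa [h2] at h

theorem nil_B (hT : IsLift W T) (hE : Eqv c (tPoint lam fun j => (mu j : ℤ)) T) (j : Fin k) {s : ℤ}
    (hs : 0 ≤ s) (hs' : 2 * (mu j : ℤ) ≤ s) : LocNil (NO W (good_matB j hs)) := by
  have h : LocNil (T (lieMid l (good_matB j hs))) := by
    refine locNil_mid hE _ ?_ ?_ (sq_mid ?_)
    · rintro (a | a) (b | b) <;>
        simp only [matB, Matrix.single_apply, Sum.inr.injEq, Sum.inl.injEq, reduceCtorEq,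
          false_and, and_false, if_false] <;> try exact OG.zero _
      split_ifs with h
      · obtain ⟨rfl, rfl⟩ := h
        refine (OG_tp s).mono ?_
        simp only [exm]
        omega
      · exact OG.zero _
    · rintro (a | a) <;> simp [matB, coeff_zero]
    · rintro (a | a) (b | b) (d | d) <;> simp [matB, Matrix.single_apply]
  have h2 : T (lieMid l (good_matB j hs)) = NO W (good_matB j hs) := by
    ext m; exact hT.matB j hs m
  rwa [h2] at h

theorem nil_A (hT : IsLift W T) (hE : Eqv c (tPoint lam fun j => (mu j : ℤ)) T) {i j : Fin k}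
    (hij : i ≠ j) {s : ℤ} (hs : 0 ≤ s) (hs' : (mu i : ℤ) - mu j ≤ s) :
    LocNil (NO W (good_matA i j hs)) := by
  have h : LocNil (T (lieMid l (good_matA i j hs))) := by
    refine locNil_mid hE _ ?_ ?_ (sq_mid ?_)
    · rintro (a | a) (b | b) <;>
        simp only [matA, Matrix.sub_apply, Matrix.single_apply, Sum.inr.injEq, Sum.inl.injEq,
          reduceCtorEq, false_and, and_false, if_false, sub_zero, zero_sub] <;> try exact OG.zero _
      · split_ifs with h
        · obtain ⟨rfl, rfl⟩ := h
          refine (OG_tp s).mono ?_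
          simp only [exm]
          omega
        · exact OG.zero _
      · split_ifs with h
        · obtain ⟨rfl, rfl⟩ := h
          refine ((OG_tp s).mono ?_).neg
          simp only [exm]
          omega
        · rw [neg_zero]; exact OG.zero _
    · rintro (a | a)
      · simp only [matA, Matrix.sub_apply, Matrix.single_apply, Sum.inl.injEq, reduceCtorEq,
          false_and, if_false, sub_zero]
        rw [if_neg, coeff_zero]
        rintro ⟨rfl, rfl⟩
        exact hij rfl
      · simp only [matA, Matrix.sub_apply, Matrix.single_apply, Sum.inr.injEq, reduceCtorEq,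
          false_and, if_false, zero_sub]
        rw [if_neg, neg_zero, coeff_zero]
        rintro ⟨rfl, rfl⟩
        exact hij rfl
    · rintro (a | a) (b | b) (d | d) <;> simp [matA, Matrix.single_apply]
      · by_cases h : j = b
        · right
          intro h'
          exact absurd (h'.trans h.symm) hij
        · left
          intro _ h'
          exact absurd h' h
      · by_cases h : i = b
        · right
          intro h'
          exact absurd (h.trans h'.symm) hij
        · left
          intro _ h'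
          exact absurd h' h
  have h2 : T (lieMid l (good_matA i j hs)) = NO W (good_matA i j hs) := by
    ext m; exact hT.matA hij hs m
  rwa [h2] at h

theorem nil_D (hT : IsLift W T) (hE : Eqv c (tPoint lam fun j => (mu j : ℤ)) T) (j : Fin k) {s : ℤ}
    (hs : 0 ≤ s) (hs' : 0 < s) : LocNil (NO W (good_matA j j hs)) := by
  have hX : ∀ α β, OG (exm mu α - exm mu β + 1) (matA j j s α β) := by
    rintro (a | a) (b | b) <;>
      simp only [matA, Matrix.sub_apply, Matrix.single_apply, Sum.inr.injEq, Sum.inl.injEq,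
        reduceCtorEq, false_and, and_false, if_false, sub_zero, zero_sub] <;> try exact OG.zero _
    · split_ifs with h
      · obtain ⟨rfl, rfl⟩ := h
        refine (OG_tp s).mono ?_
        simp only [exm]
        omega
      · exact OG.zero _
    · split_ifs with h
      · obtain ⟨rfl, rfl⟩ := h
        refine ((OG_tp s).mono ?_).neg
        simp only [exm]
        omega
      · rw [neg_zero]; exact OG.zero _
  have h : LocNil (T (lieMid l (good_matA j j hs))) := by
    refine locNil_mid hE _ (fun α β => (hX α β).mono (by omega)) (fun α => ?_)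
      (fun α β γ => Or.inl (hX α β _ (by omega)))
    have := hX α α 0 (by omega)
    exact this
  have h2 : T (lieMid l (good_matA j j hs)) = NO W (good_matA j j hs) := by
    ext m; exact hT.matA_diag j hs m
  rwa [h2] at h

theorem inGO_one : InGO (1 : Matrix (Idx l k) (Idx l k) F) := by
  refine ⟨one_mem (Matrix.symplecticGroup (Fin (l + 1) ⊕ Fin k) F), fun a b => ?_⟩
  rw [Matrix.one_apply]
  split_ifs
  · exact IsInt.one
  · exact OG.zero 0

/-- The eigenvalues of the coroot. -/
def dd (j : Fin k) : Idx l k → ℤ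
  | Sum.inl (Sum.inr i) => if i = j then 1 else 0
  | Sum.inr (Sum.inr i) => if i = j then -1 else 0
  | _ => 0

theorem matA_eq (j : Fin k) : elem l (matA j j 0) 0 0 = Matrix.diagonal (fun i => (dd j i : F)) := by
  ext a b
  rcases a with (a | a) | (a | a) <;> rcases b with (b | b) | (b | b) <;>
    simp only [elem, matA, dd, Matrix.diagonal_apply, Matrix.sub_apply, Matrix.single_apply,
      Sum.inr.injEq, Sum.inl.injEq, reduceCtorEq, false_and, and_false, if_false, sub_zero,
      zero_sub, tp_zero, Int.cast_zero, Pi.zero_apply, ite_self, neg_zero, Int.cast_ite,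
      Int.cast_one, Int.cast_neg]
  · by_cases h : a = b
    · subst h
      simp [eq_comm]
    · rw [if_neg h, if_neg]
      rintro ⟨rfl, rfl⟩
      exact h rfl
  · by_cases h : a = b
    · subst h
      by_cases h' : a = j
      · subst h'; simp
      · simp [h', Ne.symm h']
    · rw [if_neg h, if_neg, neg_zero]
      rintro ⟨rfl, rfl⟩
      exact h rfl

theorem conj_diag (d : Idx l k → F) :
    ((tPoint lam (fun j => (mu j : ℤ)))⁻¹ * Matrix.diagonal d * tPoint lam (fun j => (mu j : ℤ))) =
      Matrix.diagonal d := by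
  ext a b
  rw [conj_apply, Matrix.diagonal_apply]
  split_ifs with h
  · subst h
    rw [mul_comm (tp (-ex lam mu a)), mul_assoc, tp_mul_tp, neg_add_cancel, tp_zero, mul_one]
  · rw [mul_zero, zero_mul]

theorem coeff_intCast (n : ℤ) (p : ℤ) : ((n : F)).coeff p = if p = 0 then (n : ℂ) else 0 := by
  rw [← map_intCast (algebraMap ℂ F) n, coeff_algebraMap]

theorem chi_diag (j : Fin k) : chi c (tPoint lam (fun j => (mu j : ℤ)))
    (Matrix.diagonal (fun i : Idx l k => (dd j i : F))) = 2 * (mu j : ℂ) / c := by
  rw [chi_eq, sum_idx]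
  have e1 : ∀ a : Idx l k, (ex lam mu a : ℂ) *
      ((Matrix.diagonal (fun i : Idx l k => (dd j i : F))) a a).coeff 0 =
      (ex lam mu a : ℂ) * (dd j a : ℂ) := by
    intro a
    rw [Matrix.diagonal_apply_eq, coeff_intCast, if_pos rfl]
  simp only [e1]
  rw [Fintype.sum_sum_type]
  simp only [dd, mid, ex, Int.cast_zero, mul_zero, Finset.sum_const_zero, zero_add, Int.cast_ite,
    Int.cast_one, Int.cast_neg, Int.cast_natCast, mul_ite, mul_one, mul_neg, neg_neg,
    Finset.sum_ite_eq', Finset.mem_univ, if_true]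
  rw [div_eq_inv_mul]
  ring

theorem intdiag (hT : IsLift W T) (hE : Eqv c (tPoint lam fun j => (mu j : ℤ)) T) (j : Fin k) :
    IntDiag (NO W (good_matA j j le_rfl) + (2 * (mu j : ℂ) / c) • (1 : Module.End ℂ W.M)) := by
  have h := (hE (lieMid l (good_matA j j le_rfl)) ?_).2 ?_
  · change IntDiag (T (lieMid l (good_matA j j le_rfl)) +
      chi c (tPoint lam (fun j => (mu j : ℤ))) (elem l (matA j j 0) 0 0) • 1) at h
    rw [matA_eq, chi_diag] at h
    have h2 : T (lieMid l (good_matA j j le_rfl)) = NO W (good_matA j j le_rfl) := by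
      ext m; exact hT.matA_diag j le_rfl m
    rwa [h2] at h
  · intro a b
    change IsInt (((tPoint lam (fun j => (mu j : ℤ)))⁻¹ * elem l (matA j j 0) 0 0 *
      tPoint lam (fun j => (mu j : ℤ))) a b)
    rw [matA_eq, conj_diag, Matrix.diagonal_apply]
    split_ifs
    · intro p hp
      rw [coeff_intCast, if_neg (by omega)]
    · exact OG.zero 0
  · refine ⟨1, inGO_one, dd j, ?_⟩
    change (tPoint lam (fun j => (mu j : ℤ)))⁻¹ * elem l (matA j j 0) 0 0 *
      tPoint lam (fun j => (mu j : ℤ)) = _
    rw [matA_eq, conj_diag, inv_one, mul_one, one_mul]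

end Pool.Agent.H143_GC.JR
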