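import Pool.Agent.H143_GC.Lie

/-!
The groups and the equivalence relation on simple pairs, twisting of modules (job by helper592).
-/

noncomputable section

open Matrix

namespace Pool.Agent.H143_GC.JG

open Pool.Agent.H143_GC

variable {l k : ℕ}

theorem IsInt.zero' : IsInt (0 : F) := fun _ _ => rfl

theorem IsInt.neg' {x : F} (h : IsInt x) : IsInt (-x) := fun p hp => by
  rw [coeff_neg, h p hp, neg_zero]

theorem IsInt.sum' {ι : Type*} {s : Finset ι} {f : ι → F} (h : ∀ i ∈ s, IsInt (f i)) :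
    IsInt (∑ i ∈ s, f i) := fun p hp => by
  rw [coeff_sum]
  exact Finset.sum_eq_zero fun i hi => h i hi p hp

/-- the entries of the symplectic inverse -/
theorem sympl_entries {n : Type} [DecidableEq n] [Fintype n] (A : Matrix (n ⊕ n) (n ⊕ n) F) :
    (∀ a b, ((-Matrix.J n F) * Aᵀ * Matrix.J n F) (Sum.inl a) (Sum.inl b) =
      A (Sum.inr b) (Sum.inr a)) ∧
    (∀ a b, ((-Matrix.J n F) * Aᵀ * Matrix.J n F) (Sum.inl a) (Sum.inr b) =
      -A (Sum.inl b) (Sum.inr a)) ∧
    (∀ a b, ((-Matrix.J n F) * Aᵀ * Matrix.J n F) (Sum.inr a) (Sum.inl b) =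
      -A (Sum.inr b) (Sum.inl a)) ∧
    (∀ a b, ((-Matrix.J n F) * Aᵀ * Matrix.J n F) (Sum.inr a) (Sum.inr b) =
      A (Sum.inl b) (Sum.inl a)) := by
  have r1 : ∀ (M : Matrix (n ⊕ n) (n ⊕ n) F) x b,
      (M * Matrix.J n F) x (Sum.inl b) = M x (Sum.inr b) := by
    intro M x b
    rw [Matrix.mul_apply, Fintype.sum_sum_type]
    simp [Matrix.J, Matrix.fromBlocks, Matrix.one_apply]
  have r2 : ∀ (M : Matrix (n ⊕ n) (n ⊕ n) F) x b,
      (M * Matrix.J n F) x (Sum.inr b) = -M x (Sum.inl b) := by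
    intro M x b
    rw [Matrix.mul_apply, Fintype.sum_sum_type]
    simp [Matrix.J, Matrix.fromBlocks, Matrix.one_apply]
  have l1 : ∀ (M : Matrix (n ⊕ n) (n ⊕ n) F) a y,
      ((-Matrix.J n F) * M) (Sum.inl a) y = M (Sum.inr a) y := by
    intro M a y
    rw [Matrix.mul_apply, Fintype.sum_sum_type]
    simp [Matrix.J, Matrix.fromBlocks, Matrix.one_apply]
  have l2 : ∀ (M : Matrix (n ⊕ n) (n ⊕ n) F) a y,
      ((-Matrix.J n F) * M) (Sum.inr a) y = -M (Sum.inl a) y := by
    intro M a y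
    rw [Matrix.mul_apply, Fintype.sum_sum_type]
    simp [Matrix.J, Matrix.fromBlocks, Matrix.one_apply]
  refine ⟨fun a b => ?_, fun a b => ?_, fun a b => ?_, fun a b => ?_⟩
  · rw [r1, l1, Matrix.transpose_apply]
  · rw [r2, l1, Matrix.transpose_apply]
  · rw [r1, l2, Matrix.transpose_apply]
  · rw [r2, l2, Matrix.transpose_apply, neg_neg]

theorem InSp.one' : InSp (1 : Matrix (Idx l k) (Idx l k) F) :=
  (Matrix.symplecticGroup (Fin (l + 1) ⊕ Fin k) F).one_mem

theorem InSp.mul' {g g' : Matrix (Idx l k) (Idx l k) F} (h : InSp g) (h' : InSp g') :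
    InSp (g * g') :=
  (Matrix.symplecticGroup (Fin (l + 1) ⊕ Fin k) F).mul_mem h h'

theorem InSp.det {g : Matrix (Idx l k) (Idx l k) F} (h : InSp g) : IsUnit g.det :=
  SymplecticGroup.symplectic_det h

theorem InSp.inv {g : Matrix (Idx l k) (Idx l k) F} (h : InSp g) : InSp g⁻¹ := by
  have := SymplecticGroup.coe_inv' (⟨g, h⟩ : Matrix.symplecticGroup (Fin (l + 1) ⊕ Fin k) F)
  have h2 := ((⟨g, h⟩ : Matrix.symplecticGroup (Fin (l + 1) ⊕ Fin k) F)⁻¹).2
  rw [this] at h2
  exact h2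

theorem inv_entries {g : Matrix (Idx l k) (Idx l k) F} (h : InSp g) :
    (∀ a b, g⁻¹ (Sum.inl a) (Sum.inl b) = g (Sum.inr b) (Sum.inr a)) ∧
    (∀ a b, g⁻¹ (Sum.inl a) (Sum.inr b) = -g (Sum.inl b) (Sum.inr a)) ∧
    (∀ a b, g⁻¹ (Sum.inr a) (Sum.inl b) = -g (Sum.inr b) (Sum.inl a)) ∧
    (∀ a b, g⁻¹ (Sum.inr a) (Sum.inr b) = g (Sum.inl b) (Sum.inl a)) := by
  rw [SymplecticGroup.inv_eq_symplectic_inv g h]
  exact sympl_entries g

theorem InGO.one : InGO (1 : Matrix (Idx l k) (Idx l k) F) := by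
  refine ⟨InSp.one', fun a b => ?_⟩
  rw [Matrix.one_apply]
  split_ifs
  · exact IsInt.one
  · exact IsInt.zero'

theorem InGO.mul {h h' : Matrix (Idx l k) (Idx l k) F} (hh : InGO h) (hh' : InGO h') :
    InGO (h * h') := by
  refine ⟨InSp.mul' hh.1 hh'.1, fun a b => ?_⟩
  rw [Matrix.mul_apply]
  exact IsInt.sum' fun c _ => (hh.2 a c).mul (hh'.2 c b)

theorem InGO.inv {h : Matrix (Idx l k) (Idx l k) F} (hh : InGO h) : InGO h⁻¹ := by
  refine ⟨InSp.inv hh.1, ?_⟩
  obtain ⟨e1, e2, e3, e4⟩ := inv_entries hh.1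
  rintro (a | a) (b | b)
  · rw [e1]; exact hh.2 _ _
  · rw [e2]; exact IsInt.neg' (hh.2 _ _)
  · rw [e3]; exact IsInt.neg' (hh.2 _ _)
  · rw [e4]; exact hh.2 _ _

theorem InGamma.one : InGamma (1 : Matrix (Idx l k) (Idx l k) F) where
  sp := InSp.one'
  upper a b h := by
    rw [Matrix.one_apply, if_neg]
    rintro rfl
    exact lt_irrefl _ h
  diag a b _ _ := by rw [Matrix.one_apply]
  int a b _ _ := InGO.one.2 a b

theorem InGamma.mul {γ γ' : Matrix (Idx l k) (Idx l k) F} (h : InGamma γ) (h' : InGamma γ') :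
    InGamma (γ * γ') where
  sp := InSp.mul' h.sp h'.sp
  upper a b hab := by
    rw [Matrix.mul_apply]
    refine Finset.sum_eq_zero fun c _ => ?_
    rcases lt_or_ge (wt c) (wt a) with hc | hc
    · rw [h.upper a c hc, zero_mul]
    · rw [h'.upper c b (lt_of_lt_of_le hab hc), mul_zero]
  diag a b hab ha := by
    rw [Matrix.mul_apply, Finset.sum_eq_single b]
    · rw [h.diag a b hab ha, h'.diag b b rfl (hab ▸ ha), if_pos rfl, mul_one]
    · intro c _ hcb
      rcases lt_trichotomy (wt c) (wt b) with hc | hc | hc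
      · rw [h.upper a c (hab ▸ hc), zero_mul]
      · rw [h'.diag c b hc (by rw [hc, ← hab]; exact ha), if_neg hcb, mul_zero]
      · rw [h'.upper c b hc, mul_zero]
    · intro hb; exact absurd (Finset.mem_univ _) hb
  int a b ha hb := by
    rw [Matrix.mul_apply]
    refine IsInt.sum' fun c _ => ?_
    rcases lt_trichotomy (wt c) 0 with hc | hc | hc
    · rw [h.upper a c (by rw [ha]; exact hc), zero_mul]; exact IsInt.zero'
    · exact (h.int a c ha hc).mul (h'.int c b hc hb)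
    · rw [h'.upper c b (by rw [hb]; exact hc), mul_zero]; exact IsInt.zero'

theorem wt_swap (a : Fin (l + 1) ⊕ Fin k) :
    wt (Sum.inr a : Idx l k) = -wt (Sum.inl a : Idx l k) := by
  rcases a with a | a
  · rfl
  · simp [wt]

theorem InGamma.inv {γ : Matrix (Idx l k) (Idx l k) F} (h : InGamma γ) : InGamma γ⁻¹ := by
  obtain ⟨e1, e2, e3, e4⟩ := inv_entries h.sp
  have hs := wt_swap (l := l) (k := k)
  refine ⟨InSp.inv h.sp, ?_, ?_, ?_⟩
  · rintro (a | a) (b | b) hab
    · rw [e1, h.upper]; rw [hs, hs]; exact neg_lt_neg hab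
    · rw [e2, h.upper, neg_zero]
      have := hs b; have := hs a; omega
    · rw [e3, h.upper, neg_zero]
      have := hs b; have := hs a; omega
    · rw [e4, h.upper]
      have := hs b; have := hs a; omega
  · rintro (a | a) (b | b) hab ha
    · rw [e1, h.diag _ _ (by rw [hs, hs, hab]) (by rw [hs, ← hab]; exact neg_ne_zero.2 ha)]
      simp only [Sum.inr.injEq, Sum.inl.injEq, eq_comm]
    · exfalso
      rcases a with a | a
      · rcases b with b | b
        · have h1 := wt_inl_pos (k := k) a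
          have h2 := wt_inr_neg (k := k) b
          omega
        · have h1 := wt_inl_pos (k := k) a
          have h2 : wt (Sum.inr (Sum.inr b) : Idx l k) = 0 := rfl
          omega
      · exact ha rfl
    · exfalso
      rcases a with a | a
      · rcases b with b | b
        · have h1 := wt_inr_neg (k := k) a
          have h2 := wt_inl_pos (k := k) b
          omega
        · have h1 := wt_inr_neg (k := k) a
          have h2 : wt (Sum.inl (Sum.inr b) : Idx l k) = 0 := rfl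
          omega
      · exact ha rfl
    · have h1 := hs a
      have h2 := hs b
      rw [e4, h.diag _ _ (by omega) (by omega)]
      simp only [Sum.inr.injEq, Sum.inl.injEq, eq_comm]
  · rintro (a | a) (b | b) ha hb
    · rw [e1]; refine h.int _ _ ?_ ?_ <;> rw [hs] <;> omega
    · have h1 := hs a
      have h2 := hs b
      rw [e2]; exact IsInt.neg' (h.int _ _ (by omega) (by omega))
    · have h1 := hs a
      have h2 := hs b
      rw [e3]; exact IsInt.neg' (h.int _ _ (by omega) (by omega))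
    · have h1 := hs a
      have h2 := hs b
      rw [e4]; exact h.int _ _ (by omega) (by omega)

theorem Gamma_mid_mul {γ γ' : Matrix (Idx l k) (Idx l k) F} (h : InGamma γ) (h' : InGamma γ') :
    midBlock (γ * γ') = midBlock γ * midBlock γ' := midBlock_mul h.upper h'.upper

theorem Gamma_heis_mul {γ γ' : Matrix (Idx l k) (Idx l k) F} (h : InGamma γ) (h' : InGamma γ') :
    heisV (γ * γ') = midBlock γ *ᵥ heisV γ' + heisV γ := by
  rw [heisV_mul h.upper h'.upper, h'.diag top top rfl (by rw [wt_top]; norm_num), if_pos rfl,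
    one_smul]

theorem Gamma_mid_int {γ : Matrix (Idx l k) (Idx l k) F} (h : InGamma γ) (a b : Fin k ⊕ Fin k) :
    IsInt (midBlock γ a b) := h.int _ _ (wt_mid a) (wt_mid b)

theorem mid_injective : Function.Injective (mid : Fin k ⊕ Fin k → Idx l k) := by
  rintro (a | a) (b | b) h
  · simpa [mid] using h
  · simp [mid] at h
  · simp [mid] at h
  · simpa [mid] using h

theorem midBlock_one : midBlock (1 : Matrix (Idx l k) (Idx l k) F) = 1 :=
  Matrix.submatrix_one mid mid_injective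

theorem heisV_one : heisV (1 : Matrix (Idx l k) (Idx l k) F) = 0 := by
  funext a
  change (1 : Matrix (Idx l k) (Idx l k) F) (mid a) top = 0
  rw [Matrix.one_apply, if_neg]
  rcases a with a | a <;> simp [mid, top]

theorem Gamma_mid_inv {γ : Matrix (Idx l k) (Idx l k) F} (h : InGamma γ) :
    midBlock γ⁻¹ * midBlock γ = 1 ∧ midBlock γ * midBlock γ⁻¹ = 1 := by
  have hd := InSp.det h.sp
  constructor
  · rw [← Gamma_mid_mul (InGamma.inv h) h, Matrix.nonsing_inv_mul _ hd, midBlock_one]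
  · rw [← Gamma_mid_mul h (InGamma.inv h), Matrix.mul_nonsing_inv _ hd, midBlock_one]

theorem midBlock_inv {γ : Matrix (Idx l k) (Idx l k) F} (h : InGamma γ) :
    midBlock γ⁻¹ = (-Matrix.J (Fin k) F) * (midBlock γ)ᵀ * Matrix.J (Fin k) F := by
  obtain ⟨e1, e2, e3, e4⟩ := inv_entries h.sp
  obtain ⟨f1, f2, f3, f4⟩ := sympl_entries (midBlock γ)
  ext a b
  rcases a with a | a <;> rcases b with b | b
  · rw [f1]; exact e1 _ _
  · rw [f2]; exact e2 _ _
  · rw [f3]; exact e3 _ _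
  · rw [f4]; exact e4 _ _

theorem mid_sympl {γ : Matrix (Idx l k) (Idx l k) F} (h : InGamma γ) :
    (midBlock γ)ᵀ * Matrix.J (Fin k) F * midBlock γ = Matrix.J (Fin k) F := by
  have h1 := (Gamma_mid_inv h).1
  rw [midBlock_inv h] at h1
  have h2 := congrArg (fun M => Matrix.J (Fin k) F * M) h1
  simp only [Matrix.mul_one] at h2
  have hJ : Matrix.J (Fin k) F * (-Matrix.J (Fin k) F) = 1 := by
    rw [Matrix.mul_neg, Matrix.J_squared, neg_neg]
  calc (midBlock γ)ᵀ * Matrix.J (Fin k) F * midBlock γ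
      = (Matrix.J (Fin k) F * (-Matrix.J (Fin k) F)) * (midBlock γ)ᵀ * Matrix.J (Fin k) F *
        midBlock γ := by rw [hJ, Matrix.one_mul]
    _ = Matrix.J (Fin k) F * (-Matrix.J (Fin k) F * (midBlock γ)ᵀ * Matrix.J (Fin k) F *
        midBlock γ) := by simp only [Matrix.mul_assoc]
    _ = Matrix.J (Fin k) F := h2

theorem om_eq (x y : Fin k ⊕ Fin k → F) : om x y = -(x ⬝ᵥ (Matrix.J (Fin k) F *ᵥ y)) := by
  unfold om dotProduct
  rw [Fintype.sum_sum_type, ← Finset.sum_add_distrib, ← Finset.sum_neg_distrib]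
  refine Finset.sum_congr rfl fun i _ => ?_
  have h1 : (Matrix.J (Fin k) F *ᵥ y) (Sum.inl i) = -y (Sum.inr i) := by
    unfold Matrix.mulVec dotProduct
    rw [Fintype.sum_sum_type]
    simp [Matrix.J, Matrix.fromBlocks, Matrix.one_apply]
  have h2 : (Matrix.J (Fin k) F *ᵥ y) (Sum.inr i) = y (Sum.inl i) := by
    unfold Matrix.mulVec dotProduct
    rw [Fintype.sum_sum_type]
    simp [Matrix.J, Matrix.fromBlocks, Matrix.one_apply]
  rw [h1, h2]
  ring

theorem Gamma_om {γ : Matrix (Idx l k) (Idx l k) F} (h : InGamma γ) (x y : Fin k ⊕ Fin k → F) :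
    om (midBlock γ *ᵥ x) (midBlock γ *ᵥ y) = om x y := by
  rw [om_eq, om_eq, Matrix.mulVec_mulVec, ← Matrix.vecMul_transpose, ← Matrix.dotProduct_mulVec,
    Matrix.mulVec_mulVec, ← Matrix.mul_assoc, mid_sympl h]

theorem heisV_inv {γ : Matrix (Idx l k) (Idx l k) F} (h : InGamma γ) :
    heisV γ⁻¹ = -(midBlock γ⁻¹ *ᵥ heisV γ) := by
  have hd := InSp.det h.sp
  have h1 := Gamma_heis_mul (InGamma.inv h) h
  rw [Matrix.nonsing_inv_mul _ hd, heisV_one] at h1
  exact (neg_eq_of_add_eq_zero_right h1.symm).symm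

theorem om_add_left (x x' y : Fin k ⊕ Fin k → F) : om (x + x') y = om x y + om x' y := by
  unfold om
  rw [← Finset.sum_add_distrib]
  refine Finset.sum_congr rfl fun i _ => ?_
  simp only [Pi.add_apply]; ring

theorem om_neg_left (x y : Fin k ⊕ Fin k → F) : om (-x) y = -om x y := by
  unfold om
  rw [← Finset.sum_neg_distrib]
  refine Finset.sum_congr rfl fun i _ => ?_
  simp only [Pi.neg_apply]; ring

theorem om_heis_inv {γ : Matrix (Idx l k) (Idx l k) F} (h : InGamma γ)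
    (x : Fin k ⊕ Fin k → F) :
    om (heisV γ⁻¹) (midBlock γ⁻¹ *ᵥ x) = -om (heisV γ) x := by
  rw [heisV_inv h, om_neg_left, Gamma_om (InGamma.inv h)]

theorem rel_symm {c : ℂ} {P Q : SimplePair c l k} (h : P.Rel Q) : Q.Rel P := by
  obtain ⟨γ, h, hγ, hh, hg, φ, hφ⟩ := h
  have hd := InSp.det hγ.sp
  have hd' := InSp.det hh.1
  refine ⟨γ⁻¹, h⁻¹, InGamma.inv hγ, InGO.inv hh, ?_, φ.symm, fun x m => ?_⟩
  · rw [hg, Matrix.mul_assoc, Matrix.mul_assoc, Matrix.mul_nonsing_inv _ hd', Matrix.mul_one,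
      ← Matrix.mul_assoc, Matrix.nonsing_inv_mul _ hd, Matrix.one_mul]
  · rw [LinearEquiv.symm_apply_eq, map_add, hφ, map_smul, LinearEquiv.apply_symm_apply,
      Matrix.mulVec_mulVec, (Gamma_mid_inv hγ).2, Matrix.one_mulVec, om_heis_inv hγ, res_neg,
      neg_smul, add_neg_cancel_right]

theorem rel_trans {c : ℂ} {P Q R : SimplePair c l k} (h : P.Rel Q) (h' : Q.Rel R) : P.Rel R := by
  obtain ⟨γ, h, hγ, hh, hg, φ, hφ⟩ := h
  obtain ⟨γ', h', hγ', hh', hg', φ', hφ'⟩ := h'
  refine ⟨γ' * γ, h * h', InGamma.mul hγ' hγ, InGO.mul hh hh', ?_, φ.trans φ', fun x m => ?_⟩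
  · rw [hg', hg]
    simp only [Matrix.mul_assoc]
  · rw [LinearEquiv.trans_apply, LinearEquiv.trans_apply, hφ, map_add, hφ', map_smul,
      Gamma_mid_mul hγ' hγ, Gamma_heis_mul hγ' hγ, om_add_left, res_add, ← Matrix.mulVec_mulVec,
      Gamma_om hγ']
    module

/-- the twisted module -/
def twistW (W : WeylModule k) {γ : Matrix (Idx l k) (Idx l k) F} (h : InGamma γ) :
    WeylModule k where
  M := W.M
  a := W.a ∘ₗ mv (midBlock γ⁻¹) -
    LinearMap.toSpanSingleton ℂ (Module.End ℂ W.M) 1 ∘ₗ omr k (heisV γ)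
  comm x y m := by
    simp only [LinearMap.sub_apply, LinearMap.comp_apply, LinearMap.toSpanSingleton_apply,
      mv_apply, LinearMap.smul_apply, Module.End.one_apply, map_sub, map_smul]
    have h1 := W.comm (midBlock γ⁻¹ *ᵥ x) (midBlock γ⁻¹ *ᵥ y) m
    rw [Gamma_om (InGamma.inv h)] at h1
    rw [← h1]
    module
  discrete m := by
    obtain ⟨N, hN⟩ := exists_Ann m
    obtain ⟨N', hN'⟩ := exists_OGV (heisV γ)
    refine ⟨max (N : ℤ) N', fun x hx => ?_⟩
    have hx' : OGV (max (N : ℤ) N') x := hx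
    simp only [LinearMap.sub_apply, LinearMap.comp_apply, LinearMap.toSpanSingleton_apply,
      mv_apply, LinearMap.smul_apply, Module.End.one_apply]
    rw [hN _ ((OGV_mulVec (Gamma_mid_int (InGamma.inv h)) hx').mono (le_max_left _ _)),
      omr_eq_zero hN' (hx'.mono (le_max_right _ _)) (by omega), zero_smul, sub_zero]

theorem twist (W : WeylModule k) {γ : Matrix (Idx l k) (Idx l k) F} (h : InGamma γ) :
    ∃ (W' : WeylModule k) (φ : W.M ≃ₗ[ℂ] W'.M),
      ∀ x m, φ (W.a x m) = W'.a (midBlock γ *ᵥ x) (φ m) +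
        res (om (heisV γ) (midBlock γ *ᵥ x)) • φ m := by
  refine ⟨twistW W h, LinearEquiv.refl ℂ W.M, fun x m => ?_⟩
  change W.a x m = (W.a (midBlock γ⁻¹ *ᵥ (midBlock γ *ᵥ x)) m -
    omr k (heisV γ) (midBlock γ *ᵥ x) • m) + res (om (heisV γ) (midBlock γ *ᵥ x)) • m
  rw [Matrix.mulVec_mulVec, (Gamma_mid_inv h).1, Matrix.one_mulVec, omr_apply, sub_add_cancel]

theorem simple_transport {W W' : WeylModule k} (hW : W.IsSimple) {γ : Matrix (Idx l k) (Idx l k) F}
    (h : InGamma γ) (φ : W.M ≃ₗ[ℂ] W'.M)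
    (hφ : ∀ x m, φ (W.a x m) = W'.a (midBlock γ *ᵥ x) (φ m) +
        res (om (heisV γ) (midBlock γ *ᵥ x)) • φ m) : W'.IsSimple := by
  obtain ⟨⟨m, hm⟩, hs⟩ := hW
  refine ⟨⟨φ m, fun h0 => hm (by simpa using h0)⟩, fun Z hZ => ?_⟩
  have hst : ∀ x, ∀ m ∈ Z.comap (φ : W.M →ₗ[ℂ] W'.M), W.a x m ∈ Z.comap (φ : W.M →ₗ[ℂ] W'.M) := by
    intro x m hm
    rw [Submodule.mem_comap] at hm ⊢
    change φ (W.a x m) ∈ Z
    rw [hφ]
    exact Z.add_mem (hZ _ _ hm) (Z.smul_mem _ hm)
  rcases hs _ hst with h1 | h1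
  · left
    rw [Submodule.eq_bot_iff]
    intro z hz
    have : φ.symm z ∈ Z.comap (φ : W.M →ₗ[ℂ] W'.M) := by
      rw [Submodule.mem_comap]
      change φ (φ.symm z) ∈ Z
      rwa [LinearEquiv.apply_symm_apply]
    rw [h1, Submodule.mem_bot] at this
    simpa using this
  · right
    rw [Submodule.eq_top_iff']
    intro z
    have : φ.symm z ∈ Z.comap (φ : W.M →ₗ[ℂ] W'.M) := by rw [h1]; trivial
    rw [Submodule.mem_comap] at this
    change φ (φ.symm z) ∈ Z at this
    rwa [LinearEquiv.apply_symm_apply] at this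

end Pool.Agent.H143_GC.JG
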