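import Pool.Agent.H143_GC.Lie
import Pool.Agent.H143_GC.JG

/-!
Transport of equivariance (job by helper949).
-/

noncomputable section

open Matrix

namespace Pool.Agent.H143_GC.JT

open Pool.Agent.H143_GC

variable {l k : ℕ}

theorem InGO.inv {h : Matrix (Idx l k) (Idx l k) F} (hh : InGO h) : InGO h⁻¹ := JG.InGO.inv hh
theorem InGO.mul {h h' : Matrix (Idx l k) (Idx l k) F} (hh : InGO h) (hh' : InGO h') :
    InGO (h * h') := JG.InGO.mul hh hh'
theorem InGamma.inv {γ : Matrix (Idx l k) (Idx l k) F} (h : InGamma γ) : InGamma γ⁻¹ :=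
  JG.InGamma.inv h
theorem InSp.det {g : Matrix (Idx l k) (Idx l k) F} (h : InSp g) : IsUnit g.det :=
  JG.InSp.det h
theorem Gamma_mid_inv {γ : Matrix (Idx l k) (Idx l k) F} (h : InGamma γ) :
    midBlock γ⁻¹ * midBlock γ = 1 ∧ midBlock γ * midBlock γ⁻¹ = 1 := JG.Gamma_mid_inv h
theorem Gamma_om {γ : Matrix (Idx l k) (Idx l k) F} (h : InGamma γ) (x y : Fin k ⊕ Fin k → F) :
    om (midBlock γ *ᵥ x) (midBlock γ *ᵥ y) = om x y := JG.Gamma_om h x y

/-! ### The derivative -/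

theorem coeff_der (x : F) (p : ℤ) : (der x).coeff p = ((p : ℂ) + 1) * x.coeff (p + 1) := by
  have h : (LaurentSeries.hasseDeriv ℂ 1 (show LaurentSeries ℂ from x)).coeff p =
      Ring.choose (p + (1 : ℕ)) 1 • (show LaurentSeries ℂ from x).coeff (p + (1 : ℕ)) :=
    LaurentSeries.hasseDeriv_coeff 1 _ p
  rw [Ring.choose_one_right] at h
  have h2 : (der x).coeff p =
      (LaurentSeries.hasseDeriv ℂ 1 (show LaurentSeries ℂ from x)).coeff p := rfl
  rw [h2, h, zsmul_eq_mul]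
  push_cast
  rfl

theorem der_add (x y : F) : der (x + y) = der x + der y := F.ext' fun p => by
  rw [coeff_add, coeff_der, coeff_der, coeff_der, coeff_add]; ring

theorem der_zero : der 0 = 0 := F.ext' fun p => by
  rw [coeff_der, coeff_zero, coeff_zero, mul_zero]

theorem der_sum {ι : Type*} (s : Finset ι) (f : ι → F) :
    der (∑ i ∈ s, f i) = ∑ i ∈ s, der (f i) := F.ext' fun p => by
  rw [coeff_sum, coeff_der, coeff_sum, Finset.mul_sum]
  exact Finset.sum_congr rfl fun i _ => (coeff_der _ _).symm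

theorem OG.der {N : ℤ} {x : F} (hx : OG N x) : OG (N - 1) (der x) := fun p hp => by
  rw [coeff_der, hx (p + 1) (by omega), mul_zero]

theorem IsInt.der {x : F} (hx : IsInt x) : IsInt (der x) := fun p hp => by
  rw [coeff_der]
  by_cases h : p + 1 < 0
  · rw [hx (p + 1) h, mul_zero]
  · have h1 : p = -1 := by omega
    subst h1
    push_cast
    ring

theorem der_one : der 1 = 0 := F.ext' fun p => by
  rw [coeff_der, coeff_zero, ← tp_zero, coeff_tp]
  by_cases h : p + 1 = 0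
  · have h1 : p = -1 := by omega
    subst h1
    push_cast
    ring
  · rw [if_neg h, mul_zero]

theorem der_mul (x y : F) : der (x * y) = der x * y + x * der y := F.ext' fun n => by
  obtain ⟨A, hA⟩ := exists_OG x
  obtain ⟨B, hB⟩ := exists_OG y
  rw [coeff_der, coeff_add, coeff_mul x y A B _ hA hB,
    coeff_mul (der x) y (A - 1) B _ (OG.der hA) hB, coeff_mul x (der y) A (B - 1) _ hA (OG.der hB)]
  have e1 : ∑ p ∈ Finset.Ico (A - 1) (n - B + 1), (der x).coeff p * y.coeff (n - p) =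
      ∑ p ∈ Finset.Ico A (n + 1 - B + 1), (p : ℂ) * (x.coeff p * y.coeff (n + 1 - p)) := by
    refine Finset.sum_nbij' (fun p => p + 1) (fun p => p - 1) ?_ ?_ ?_ ?_ ?_
    · intro p hp; rw [Finset.mem_Ico] at hp ⊢; omega
    · intro p hp; rw [Finset.mem_Ico] at hp ⊢; omega
    · intro p _; ring
    · intro p _; ring
    · intro p _
      rw [coeff_der, show n + 1 - (p + 1) = n - p by ring]
      push_cast
      ring
  have e2 : ∑ p ∈ Finset.Ico A (n - (B - 1) + 1), x.coeff p * (der y).coeff (n - p) =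
      ∑ p ∈ Finset.Ico A (n + 1 - B + 1),
        ((n : ℂ) + 1 - p) * (x.coeff p * y.coeff (n + 1 - p)) := by
    have e3 : n - (B - 1) + 1 = n + 1 - B + 1 := by ring
    rw [e3]
    refine Finset.sum_congr rfl fun p _ => ?_
    rw [coeff_der, show n - p + 1 = n + 1 - p by ring]
    push_cast
    ring
  rw [e1, e2, ← Finset.sum_add_distrib, Finset.mul_sum]
  refine Finset.sum_congr rfl fun p _ => ?_
  ring

theorem map_der_mul {ι : Type*} [Fintype ι] (M N : Matrix ι ι F) :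
    (M * N).map der = M.map der * N + M * N.map der := by
  ext a b
  rw [Matrix.map_apply, Matrix.add_apply, Matrix.mul_apply, Matrix.mul_apply, Matrix.mul_apply,
    der_sum, ← Finset.sum_add_distrib]
  refine Finset.sum_congr rfl fun c _ => ?_
  rw [der_mul]
  rfl

/-! ### Block triangular matrices -/

/-- Block upper triangular. -/
def Up (Y : Matrix (Idx l k) (Idx l k) F) : Prop := ∀ a b, wt b < wt a → Y a b = 0

/-- Zero diagonal blocks at nonzero weights. -/
def Nz (Y : Matrix (Idx l k) (Idx l k) F) : Prop := ∀ a b, wt a = wt b → wt a ≠ 0 → Y a b = 0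

/-- Integral middle block. -/
def In0 (Y : Matrix (Idx l k) (Idx l k) F) : Prop := ∀ a b, wt a = 0 → wt b = 0 → IsInt (Y a b)

theorem Up.mul {Y Z : Matrix (Idx l k) (Idx l k) F} (hY : Up Y) (hZ : Up Z) : Up (Y * Z) := by
  intro a b hab
  rw [Matrix.mul_apply]
  refine Finset.sum_eq_zero fun c _ => ?_
  by_cases h : wt c < wt a
  · rw [hY a c h, zero_mul]
  · rw [hZ c b (by omega), mul_zero]

theorem Nz.mul_left {Y Z : Matrix (Idx l k) (Idx l k) F} (hY : Up Y) (hZ : Up Z) (h : Nz Y) :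
    Nz (Y * Z) := by
  intro a b hab ha
  rw [Matrix.mul_apply]
  refine Finset.sum_eq_zero fun c _ => ?_
  rcases lt_trichotomy (wt c) (wt a) with hc | hc | hc
  · rw [hY a c hc, zero_mul]
  · rw [h a c hc.symm ha, zero_mul]
  · rw [hZ c b (by omega), mul_zero]

theorem Nz.mul_right {Y Z : Matrix (Idx l k) (Idx l k) F} (hY : Up Y) (hZ : Up Z) (h : Nz Z) :
    Nz (Y * Z) := by
  intro a b hab ha
  rw [Matrix.mul_apply]
  refine Finset.sum_eq_zero fun c _ => ?_
  rcases lt_trichotomy (wt c) (wt a) with hc | hc | hc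
  · rw [hY a c hc, zero_mul]
  · rw [h c b (by omega) (by omega), mul_zero]
  · rw [hZ c b (by omega), mul_zero]

theorem In0.mul {Y Z : Matrix (Idx l k) (Idx l k) F} (hY : Up Y) (hZ : Up Z) (hY' : In0 Y)
    (hZ' : In0 Z) : In0 (Y * Z) := by
  intro a b ha hb
  rw [Matrix.mul_apply]
  refine OG.sum (N := 0) fun c _ => ?_
  rcases lt_trichotomy (wt c) 0 with hc | hc | hc
  · rw [hY a c (by omega), zero_mul]; exact OG.zero 0
  · exact IsInt.mul (hY' a c ha hc) (hZ' c b hc hb)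
  · rw [hZ c b (by omega), mul_zero]; exact OG.zero 0

/-! ### Conjugation by `γ` -/

section conj

variable {γ : Matrix (Idx l k) (Idx l k) F}

theorem inv_mul_cancel' (hγ : InSp γ) : γ⁻¹ * γ = 1 := Matrix.nonsing_inv_mul γ (InSp.det hγ)

theorem mul_inv_cancel' (hγ : InSp γ) : γ * γ⁻¹ = 1 := Matrix.mul_nonsing_inv γ (InSp.det hγ)

theorem mul_conj (hγ : InSp γ) (Y : Matrix (Idx l k) (Idx l k) F) :
    γ * (γ⁻¹ * Y * γ) = Y * γ := by
  rw [← Matrix.mul_assoc, ← Matrix.mul_assoc, mul_inv_cancel' hγ, Matrix.one_mul]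

theorem InLieSp.conj (hγ : InSp γ) {Y : Matrix (Idx l k) (Idx l k) F} (hY : InLieSp Y) :
    InLieSp (γ⁻¹ * Y * γ) := by
  unfold InLieSp at *
  have h1 : γᵀ * Matrix.J (Fin (l + 1) ⊕ Fin k) F * γ = Matrix.J (Fin (l + 1) ⊕ Fin k) F :=
    SymplecticGroup.mem_iff'.1 hγ
  have h2 := mul_conj hγ Y
  obtain ⟨Z, hZ⟩ : ∃ Z, Z = γ⁻¹ * Y * γ := ⟨_, rfl⟩
  rw [← hZ] at h2 ⊢
  calc Zᵀ * Matrix.J (Fin (l + 1) ⊕ Fin k) F + Matrix.J (Fin (l + 1) ⊕ Fin k) F * Z
      = Zᵀ * (γᵀ * Matrix.J (Fin (l + 1) ⊕ Fin k) F * γ) +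
        (γᵀ * Matrix.J (Fin (l + 1) ⊕ Fin k) F * γ) * Z := by rw [h1]
    _ = (γ * Z)ᵀ * Matrix.J (Fin (l + 1) ⊕ Fin k) F * γ +
        γᵀ * Matrix.J (Fin (l + 1) ⊕ Fin k) F * (γ * Z) := by
          rw [Matrix.transpose_mul]; simp only [Matrix.mul_assoc]
    _ = γᵀ * (Yᵀ * Matrix.J (Fin (l + 1) ⊕ Fin k) F + Matrix.J (Fin (l + 1) ⊕ Fin k) F * Y) * γ := by
          rw [h2, Matrix.transpose_mul]
          simp only [Matrix.mul_assoc, Matrix.mul_add, Matrix.add_mul]
    _ = 0 := by rw [hY, Matrix.mul_zero, Matrix.zero_mul]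

theorem conj_mem (hγ : InGamma γ) {Y : Matrix (Idx l k) (Idx l k) F} (hY : Y ∈ lieGamma l k) :
    γ⁻¹ * Y * γ ∈ lieGamma l k := by
  obtain ⟨h1, h2, h3, h4⟩ := hY
  have hi := InGamma.inv hγ
  have u1 : Up γ⁻¹ := hi.upper
  have u2 : Up γ := hγ.upper
  have u3 : Up Y := h2
  have u4 : Up (γ⁻¹ * Y) := u1.mul u3
  refine ⟨InLieSp.conj hγ.sp h1, u4.mul u2, Nz.mul_left u4 u2 (Nz.mul_right u1 u3 h3),
    In0.mul u4 u2 (In0.mul u1 u3 hi.int h4) hγ.int⟩

/-- `Y ↦ γ⁻¹ Y γ` on the Lie algebra of `Γ`. -/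
def cj (hγ : InGamma γ) : lieGamma l k →ₗ[ℂ] lieGamma l k where
  toFun Y := ⟨γ⁻¹ * (Y : Matrix (Idx l k) (Idx l k) F) * γ, conj_mem hγ Y.2⟩
  map_add' Y Z := by
    apply Subtype.ext
    change γ⁻¹ * ((Y : Matrix (Idx l k) (Idx l k) F) + Z) * γ =
      γ⁻¹ * (Y : Matrix (Idx l k) (Idx l k) F) * γ + γ⁻¹ * (Z : Matrix (Idx l k) (Idx l k) F) * γ
    rw [Matrix.mul_add, Matrix.add_mul]
  map_smul' c Y := by
    apply Subtype.ext
    change γ⁻¹ * (c • (Y : Matrix (Idx l k) (Idx l k) F)) * γ =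
      c • (γ⁻¹ * (Y : Matrix (Idx l k) (Idx l k) F) * γ)
    rw [Matrix.mul_smul, Matrix.smul_mul]

theorem cj_coe (hγ : InGamma γ) (Y : lieGamma l k) :
    (cj hγ Y : Matrix (Idx l k) (Idx l k) F) = γ⁻¹ * (Y : Matrix (Idx l k) (Idx l k) F) * γ := rfl

theorem top_top (hγ : InGamma γ) : γ top top = 1 := by
  rw [hγ.diag top top rfl (by rw [wt_top]; norm_num), if_pos rfl]

theorem mid_cj (hγ : InGamma γ) (Y : lieGamma l k) :
    midBlock γ * midBlock (cj hγ Y : Matrix (Idx l k) (Idx l k) F) =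
      midBlock (Y : Matrix (Idx l k) (Idx l k) F) * midBlock γ := by
  rw [← midBlock_mul hγ.upper (cj hγ Y).2.2.1, ← midBlock_mul Y.2.2.1 hγ.upper, cj_coe,
    mul_conj hγ.sp]

theorem heis_cj (hγ : InGamma γ) (Y : lieGamma l k) :
    midBlock γ *ᵥ heisV (cj hγ Y : Matrix (Idx l k) (Idx l k) F) =
      midBlock (Y : Matrix (Idx l k) (Idx l k) F) *ᵥ heisV γ +
        heisV (Y : Matrix (Idx l k) (Idx l k) F) := by
  have h1 := heisV_mul hγ.upper (cj hγ Y).2.2.1
  have h2 := heisV_mul Y.2.2.1 hγ.upper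
  rw [cj_coe, mul_conj hγ.sp, h2, top_top hγ, one_smul] at h1
  have h3 : (cj hγ Y : Matrix (Idx l k) (Idx l k) F) top top = 0 :=
    (cj hγ Y).2.2.2.1 top top rfl (by rw [wt_top]; norm_num)
  rw [cj_coe] at h3
  rw [h3, zero_smul, add_zero] at h1
  exact h1.symm

theorem row_bot_gamma (hγ : InGamma γ) (b : Fin k ⊕ Fin k) :
    γ (Sum.inr (Sum.inl (Fin.last l))) (mid b) =
      -om (heisV γ) (fun a => midBlock γ a b) := by
  have h1 : ∀ a b, (γᵀ * Matrix.J (Fin (l + 1) ⊕ Fin k) F) a (Sum.inl b) = γ (Sum.inr b) a := by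
    intro a b
    rw [Matrix.mul_apply, Fintype.sum_sum_type]
    simp [Matrix.J, Matrix.fromBlocks, Matrix.one_apply]
  have h2 : ∀ a b, (γᵀ * Matrix.J (Fin (l + 1) ⊕ Fin k) F) a (Sum.inr b) = -γ (Sum.inl b) a := by
    intro a b
    rw [Matrix.mul_apply, Fintype.sum_sum_type]
    simp [Matrix.J, Matrix.fromBlocks, Matrix.one_apply]
  have h3 : γᵀ * Matrix.J (Fin (l + 1) ⊕ Fin k) F * γ = Matrix.J (Fin (l + 1) ⊕ Fin k) F :=
    SymplecticGroup.mem_iff'.1 hγ.sp
  have h4 := congrFun (congrFun h3 top) (mid b)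
  have h5 : Matrix.J (Fin (l + 1) ⊕ Fin k) F top (mid b) = 0 := by
    rcases b with b | b <;> simp [Matrix.J, Matrix.fromBlocks, top, mid]
  rw [h5, Matrix.mul_apply, Fintype.sum_sum_type] at h4
  simp only [h1, h2] at h4
  rw [Fintype.sum_sum_type, Fintype.sum_sum_type] at h4
  have h6 : ∑ i : Fin (l + 1), γ (Sum.inr (Sum.inl i)) top * γ (Sum.inl (Sum.inl i)) (mid b) = 0 :=
    Finset.sum_eq_zero fun i _ => by
      rw [hγ.upper (Sum.inl (Sum.inl i)) (mid b) (by rw [wt_mid]; exact wt_inl_pos i), mul_zero]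
  have h7 : ∑ i : Fin (l + 1), -γ (Sum.inl (Sum.inl i)) top * γ (Sum.inr (Sum.inl i)) (mid b) =
      -γ (Sum.inr (Sum.inl (Fin.last l))) (mid b) := by
    rw [Finset.sum_eq_single (Fin.last l)]
    · have : γ (Sum.inl (Sum.inl (Fin.last l))) top = 1 := top_top hγ
      rw [this]; ring
    · intro i _ hi
      rw [hγ.upper (Sum.inl (Sum.inl i)) top (by
        rw [wt_top]
        have h2 := i.2
        have h3 : (i : ℕ) ≠ l := fun h => hi (Fin.ext h)
        simp only [wt]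
        omega), neg_zero, zero_mul]
    · intro h; exact absurd (Finset.mem_univ _) h
  rw [h6, h7] at h4
  unfold om
  rw [Finset.sum_sub_distrib]
  have h8 : ∑ i : Fin k, γ (Sum.inr (Sum.inr i)) top * γ (Sum.inl (Sum.inr i)) (mid b) =
    ∑ i, heisV γ (Sum.inr i) * midBlock γ (Sum.inl i) b := rfl
  have h9 : ∑ i : Fin k, -γ (Sum.inl (Sum.inr i)) top * γ (Sum.inr (Sum.inr i)) (mid b) =
    -∑ i, heisV γ (Sum.inl i) * midBlock γ (Sum.inr i) b := by
    rw [← Finset.sum_neg_distrib]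
    refine Finset.sum_congr rfl fun i _ => ?_
    rw [neg_mul]; rfl
  rw [h8, h9] at h4
  linear_combination -h4

theorem om_sum_right (x : V k) {ι : Type*} (s : Finset ι) (f : ι → V k) :
    om x (∑ i ∈ s, f i) = ∑ i ∈ s, om x (f i) := by
  unfold om
  rw [Finset.sum_comm]
  refine Finset.sum_congr rfl fun i _ => ?_
  rw [Finset.sum_apply, Finset.sum_apply, Finset.mul_sum, Finset.mul_sum, Finset.sum_sub_distrib]

theorem om_smul_right (c : F) (x y : V k) : om x (fun a => y a * c) = om x y * c := by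
  unfold om
  rw [Finset.sum_mul]
  refine Finset.sum_congr rfl fun i _ => ?_
  ring

theorem om_add_right (x y z : V k) : om x (y + z) = om x y + om x z := by
  unfold om
  rw [← Finset.sum_add_distrib]
  refine Finset.sum_congr rfl fun i _ => ?_
  simp only [Pi.add_apply]
  ring

theorem om_add_left (x y z : V k) : om (x + y) z = om x z + om y z := by
  rw [om_swap, om_add_right, neg_add, ← om_swap, ← om_swap]

theorem row_bot_gamma_sum (hγ : InGamma γ) (z : V k) :
    ∑ b, γ (Sum.inr (Sum.inl (Fin.last l))) (mid b) * z b = -om (heisV γ) (midBlock γ *ᵥ z) := by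
  have h : midBlock γ *ᵥ z = ∑ b, fun a => midBlock γ a b * z b := by
    ext a
    rw [Finset.sum_apply]
    rfl
  rw [h, om_sum_right, ← Finset.sum_neg_distrib]
  refine Finset.sum_congr rfl fun b _ => ?_
  rw [row_bot_gamma hγ, om_smul_right (z b) (heisV γ) (fun a => midBlock γ a b), neg_mul]

/-- The entry `(f_m, e_m)` of a product. -/
theorem bot_top_mul {P Q : Matrix (Idx l k) (Idx l k) F} (hP : Up P) (hQ : Up Q) :
    (P * Q) (Sum.inr (Sum.inl (Fin.last l))) top =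
      P (Sum.inr (Sum.inl (Fin.last l))) (Sum.inr (Sum.inl (Fin.last l))) *
        Q (Sum.inr (Sum.inl (Fin.last l))) top +
      P (Sum.inr (Sum.inl (Fin.last l))) top * Q top top +
      ∑ b, P (Sum.inr (Sum.inl (Fin.last l))) (mid b) * heisV Q b := by
  rw [Matrix.mul_apply, sum_idx]
  have h1 : ∑ i : Fin (l + 1), P (Sum.inr (Sum.inl (Fin.last l))) (Sum.inl (Sum.inl i)) *
      Q (Sum.inl (Sum.inl i)) top = P (Sum.inr (Sum.inl (Fin.last l))) top * Q top top := by
    rw [Finset.sum_eq_single (Fin.last l)]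
    · rfl
    · intro i _ hi
      rw [hQ (Sum.inl (Sum.inl i)) top (by
        rw [wt_top]
        have h2 := i.2
        have h3 : (i : ℕ) ≠ l := fun h => hi (Fin.ext h)
        simp only [wt]
        omega), mul_zero]
    · intro h; exact absurd (Finset.mem_univ _) h
  have h2 : ∑ i : Fin (l + 1), P (Sum.inr (Sum.inl (Fin.last l))) (Sum.inr (Sum.inl i)) *
      Q (Sum.inr (Sum.inl i)) top =
      P (Sum.inr (Sum.inl (Fin.last l))) (Sum.inr (Sum.inl (Fin.last l))) *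
        Q (Sum.inr (Sum.inl (Fin.last l))) top := by
    rw [Finset.sum_eq_single (Fin.last l)]
    · intro i _ hi
      rw [hP (Sum.inr (Sum.inl (Fin.last l))) (Sum.inr (Sum.inl i)) (by
        have h2 := i.2
        have h3 : (i : ℕ) ≠ l := fun h => hi (Fin.ext h)
        simp only [wt, Fin.val_last]
        omega), zero_mul]
    · intro h; exact absurd (Finset.mem_univ _) h
  rw [h1, h2]
  have h3 : ∑ a, P (Sum.inr (Sum.inl (Fin.last l))) (mid a) * Q (mid a) top =
    ∑ b, P (Sum.inr (Sum.inl (Fin.last l))) (mid b) * heisV Q b := rfl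
  rw [h3]
  ring

theorem bot_top_cj (hγ : InGamma γ) (Y : lieGamma l k)
    (hY : midBlock (Y : Matrix (Idx l k) (Idx l k) F) = 0) :
    (cj hγ Y : Matrix (Idx l k) (Idx l k) F) (Sum.inr (Sum.inl (Fin.last l))) top =
      (Y : Matrix (Idx l k) (Idx l k) F) (Sum.inr (Sum.inl (Fin.last l))) top +
        2 * om (heisV γ) (heisV (Y : Matrix (Idx l k) (Idx l k) F)) := by
  have h1 := bot_top_mul (P := γ) (Q := (cj hγ Y : Matrix (Idx l k) (Idx l k) F)) hγ.upper
    (cj hγ Y).2.2.1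
  have h2 := bot_top_mul (P := (Y : Matrix (Idx l k) (Idx l k) F)) (Q := γ) Y.2.2.1 hγ.upper
  have e1 : γ * (cj hγ Y : Matrix (Idx l k) (Idx l k) F) =
    (Y : Matrix (Idx l k) (Idx l k) F) * γ := by rw [cj_coe, mul_conj hγ.sp]
  have e2 : γ (Sum.inr (Sum.inl (Fin.last l))) (Sum.inr (Sum.inl (Fin.last l))) = 1 := by
    rw [hγ.diag _ _ rfl (by have := wt_inr_neg (k := k) (Fin.last l); omega), if_pos rfl]
  have e3 : (cj hγ Y : Matrix (Idx l k) (Idx l k) F) top top = 0 :=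
    (cj hγ Y).2.2.2.1 top top rfl (by rw [wt_top]; norm_num)
  have e4 : (Y : Matrix (Idx l k) (Idx l k) F) (Sum.inr (Sum.inl (Fin.last l)))
      (Sum.inr (Sum.inl (Fin.last l))) = 0 :=
    Y.2.2.2.1 _ _ rfl (by have := wt_inr_neg (k := k) (Fin.last l); omega)
  have e5 := heis_cj hγ Y
  rw [hY, Matrix.zero_mulVec, zero_add] at e5
  rw [e1, h2, e2, e3, e4, top_top hγ, row_bot_gamma_sum hγ, row_bot Y.2.1, e5,
    om_swap (heisV (Y : Matrix (Idx l k) (Idx l k) F))] at h1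
  linear_combination -h1

/-- entries next to the diagonal do not change -/
theorem next_cj (hγ : InGamma γ) (Y : lieGamma l k) {a b : Idx l k} (_hab : wt a < wt b)
    (ha : wt a ≠ 0) (hb : wt b ≠ 0) (h : ∀ c : Idx l k, ¬(wt a < wt c ∧ wt c < wt b))
    (ha' : ∀ c : Idx l k, wt c = wt a → c = a) (hb' : ∀ c : Idx l k, wt c = wt b → c = b) :
    (cj hγ Y : Matrix (Idx l k) (Idx l k) F) a b = (Y : Matrix (Idx l k) (Idx l k) F) a b := by
  have e1 : γ * (cj hγ Y : Matrix (Idx l k) (Idx l k) F) =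
    (Y : Matrix (Idx l k) (Idx l k) F) * γ := by rw [cj_coe, mul_conj hγ.sp]
  have e2 := congrFun (congrFun e1 a) b
  rw [Matrix.mul_apply, Matrix.mul_apply, Finset.sum_eq_single a, Finset.sum_eq_single b] at e2
  · rw [hγ.diag a a rfl ha, if_pos rfl, one_mul, hγ.diag b b rfl hb, if_pos rfl, mul_one] at e2
    exact e2
  · intro c _ hc
    rcases lt_trichotomy (wt c) (wt b) with h' | h' | h'
    · rcases lt_trichotomy (wt c) (wt a) with h'' | h'' | h''
      · rw [Y.2.2.1 a c h'', zero_mul]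
      · rw [Y.2.2.2.1 a c h''.symm ha, zero_mul]
      · exact absurd ⟨h'', h'⟩ (h c)
    · exact absurd (hb' c h') hc
    · rw [hγ.upper c b h', mul_zero]
  · intro h; exact absurd (Finset.mem_univ _) h
  · intro c _ hc
    rcases lt_trichotomy (wt c) (wt a) with h' | h' | h'
    · rw [hγ.upper a c h', zero_mul]
    · exact absurd (ha' c h') hc
    · rcases lt_trichotomy (wt c) (wt b) with h'' | h'' | h''
      · exact absurd ⟨h', h''⟩ (h c)
      · rw [(cj hγ Y).2.2.2.1 c b h'' (by omega), mul_zero]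
      · rw [(cj hγ Y).2.2.1 c b h'', mul_zero]
  · intro h; exact absurd (Finset.mem_univ _) h

theorem psi_cj (hγ : InGamma γ) (Y : lieGamma l k)
    (hY : midBlock (Y : Matrix (Idx l k) (Idx l k) F) = 0) :
    psi (cj hγ Y : Matrix (Idx l k) (Idx l k) F) =
      psi (Y : Matrix (Idx l k) (Idx l k) F) -
        res (om (heisV γ) (heisV (Y : Matrix (Idx l k) (Idx l k) F))) := by
  unfold psi
  rw [← res_sub]
  congr 1
  rw [trace_eMat, trace_eMat, bot_top_cj hγ Y hY]
  have h1 : ∀ i j : Fin (l + 1), (i : ℕ) + 1 = (j : ℕ) →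
      (cj hγ Y : Matrix (Idx l k) (Idx l k) F) (Sum.inl (Sum.inl j)) (Sum.inl (Sum.inl i)) =
      (Y : Matrix (Idx l k) (Idx l k) F) (Sum.inl (Sum.inl j)) (Sum.inl (Sum.inl i)) := by
    intro i j hij
    have hj := j.2
    refine next_cj hγ Y ?_ ?_ ?_ ?_ ?_ ?_
    · simp only [wt]; omega
    · simp only [wt]; omega
    · simp only [wt]; omega
    · rintro ((c | c) | (c | c)) <;> simp only [wt] <;> omega
    · rintro ((c | c) | (c | c)) <;> simp only [wt] <;> intro h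
      · have : c = j := Fin.ext (by omega)
        rw [this]
      · omega
      · omega
      · omega
    · rintro ((c | c) | (c | c)) <;> simp only [wt] <;> intro h
      · have : c = i := Fin.ext (by omega)
        rw [this]
      · omega
      · omega
      · omega
  have h2 : ∀ i j : Fin (l + 1), (i : ℕ) + 1 = (j : ℕ) →
      (cj hγ Y : Matrix (Idx l k) (Idx l k) F) (Sum.inr (Sum.inl i)) (Sum.inr (Sum.inl j)) =
      (Y : Matrix (Idx l k) (Idx l k) F) (Sum.inr (Sum.inl i)) (Sum.inr (Sum.inl j)) := by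
    intro i j hij
    have hj := j.2
    refine next_cj hγ Y ?_ ?_ ?_ ?_ ?_ ?_
    · simp only [wt]; omega
    · simp only [wt]; omega
    · simp only [wt]; omega
    · rintro ((c | c) | (c | c)) <;> simp only [wt] <;> omega
    · rintro ((c | c) | (c | c)) <;> simp only [wt] <;> intro h
      · omega
      · omega
      · have : c = i := Fin.ext (by omega)
        rw [this]
      · omega
    · rintro ((c | c) | (c | c)) <;> simp only [wt] <;> intro h
      · omega
      · omega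
      · have : c = j := Fin.ext (by omega)
        rw [this]
      · omega
  have h3 : (∑ i : Fin (l + 1), ∑ j : Fin (l + 1), if (i : ℕ) + 1 = (j : ℕ) then
        (cj hγ Y : Matrix (Idx l k) (Idx l k) F) (Sum.inl (Sum.inl j)) (Sum.inl (Sum.inl i)) -
          (cj hγ Y : Matrix (Idx l k) (Idx l k) F) (Sum.inr (Sum.inl i)) (Sum.inr (Sum.inl j))
        else 0) =
      ∑ i : Fin (l + 1), ∑ j : Fin (l + 1), if (i : ℕ) + 1 = (j : ℕ) then
        (Y : Matrix (Idx l k) (Idx l k) F) (Sum.inl (Sum.inl j)) (Sum.inl (Sum.inl i)) -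
          (Y : Matrix (Idx l k) (Idx l k) F) (Sum.inr (Sum.inl i)) (Sum.inr (Sum.inl j))
        else 0 := by
    refine Finset.sum_congr rfl fun i _ => Finset.sum_congr rfl fun j _ => ?_
    split_ifs with h
    · rw [h1 i j h, h2 i j h]
    · rfl
  rw [h3]
  have h2 : (2 : F) ≠ 0 := two_ne_zero
  field_simp
  ring

end conj

/-! ### The transported action -/

section lift

variable {γ : Matrix (Idx l k) (Idx l k) F} {W W' : WeylModule k}

/-- The transported action. -/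
def tr (hγ : InGamma γ) (φ : W.M ≃ₗ[ℂ] W'.M) (T : lieGamma l k →ₗ[ℂ] Module.End ℂ W.M) :
    lieGamma l k →ₗ[ℂ] Module.End ℂ W'.M :=
  (φ.conj : Module.End ℂ W.M →ₗ[ℂ] Module.End ℂ W'.M) ∘ₗ T ∘ₗ cj hγ

theorem tr_apply (hγ : InGamma γ) (φ : W.M ≃ₗ[ℂ] W'.M)
    (T : lieGamma l k →ₗ[ℂ] Module.End ℂ W.M) (Y : lieGamma l k) (n : W.M) :
    tr hγ φ T Y (φ n) = φ (T (cj hγ Y) n) := by
  change φ (T (cj hγ Y) (φ.symm (φ n))) = _
  rw [LinearEquiv.symm_apply_apply]

theorem tr_isLift (hγ : InGamma γ) (φ : W.M ≃ₗ[ℂ] W'.M)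
    (hφ : ∀ x m, φ (W.a x m) = W'.a (midBlock γ *ᵥ x) (φ m) +
        res (om (heisV γ) (midBlock γ *ᵥ x)) • φ m)
    {T : lieGamma l k →ₗ[ℂ] Module.End ℂ W.M} (hT : IsLift W T) : IsLift W' (tr hγ φ T) where
  bracket X Y Z h m := by
    obtain ⟨n, rfl⟩ := φ.surjective m
    rw [tr_apply, tr_apply, tr_apply, tr_apply, tr_apply, ← map_sub]
    congr 1
    apply hT.bracket
    rw [cj_coe, cj_coe, cj_coe, h]
    have h1 := mul_conj hγ.sp (Z : Matrix (Idx l k) (Idx l k) F)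
    have h2 := mul_conj hγ.sp (Y : Matrix (Idx l k) (Idx l k) F)
    rw [Matrix.mul_assoc (γ⁻¹ * (Y : Matrix (Idx l k) (Idx l k) F)), h1,
      Matrix.mul_assoc (γ⁻¹ * (Z : Matrix (Idx l k) (Idx l k) F)), h2, Matrix.mul_sub,
      Matrix.sub_mul]
    simp only [Matrix.mul_assoc]
  comm Y x m := by
    obtain ⟨n, rfl⟩ := φ.surjective m
    obtain ⟨z, rfl⟩ : ∃ z, x = midBlock γ *ᵥ z := ⟨midBlock γ⁻¹ *ᵥ x, by
      rw [Matrix.mulVec_mulVec, (Gamma_mid_inv hγ).2, Matrix.one_mulVec]⟩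
    have e1 : ∀ z n, W'.a (midBlock γ *ᵥ z) (φ n) =
        φ (W.a z n) - res (om (heisV γ) (midBlock γ *ᵥ z)) • φ n := by
      intro z n; rw [hφ]; abel
    rw [e1, map_sub, map_smul, tr_apply, tr_apply, e1]
    have h1 := hT.comm (cj hγ Y) z n
    have h2 : φ (T (cj hγ Y) (W.a z n)) = φ (W.a z (T (cj hγ Y) n)) +
        (φ (W.a (midBlock (cj hγ Y : Matrix (Idx l k) (Idx l k) F) *ᵥ z) n) +
          res (om (heisV (cj hγ Y : Matrix (Idx l k) (Idx l k) F)) z) • φ n) := by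
      rw [← map_smul, ← map_add, ← map_add, ← h1]
      congr 1
      abel
    rw [h2, hφ (midBlock (cj hγ Y : Matrix (Idx l k) (Idx l k) F) *ᵥ z) n, Matrix.mulVec_mulVec,
      mid_cj, ← Matrix.mulVec_mulVec]
    have h3 : res (om (heisV γ) (midBlock (Y : Matrix (Idx l k) (Idx l k) F) *ᵥ
        (midBlock γ *ᵥ z))) + res (om (heisV (cj hγ Y : Matrix (Idx l k) (Idx l k) F)) z) =
        res (om (heisV (Y : Matrix (Idx l k) (Idx l k) F)) (midBlock γ *ᵥ z)) := by
      rw [← Gamma_om hγ (heisV (cj hγ Y : Matrix (Idx l k) (Idx l k) F)) z, heis_cj, ← res_add,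
        om_add_left, (good_mid Y.2).skew]
      congr 1
      ring
    rw [← h3]
    module
  heis Y hY m := by
    obtain ⟨n, rfl⟩ := φ.surjective m
    have h0 : midBlock (cj hγ Y : Matrix (Idx l k) (Idx l k) F) = 0 := by
      have h1 := mid_cj hγ Y
      rw [hY, Matrix.zero_mul] at h1
      have h2 := congrArg (fun M => midBlock γ⁻¹ * M) h1
      simp only [Matrix.mul_zero] at h2
      rw [← Matrix.mul_assoc, (Gamma_mid_inv hγ).1, Matrix.one_mul] at h2
      exact h2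
    have h5 := heis_cj hγ Y
    rw [hY, Matrix.zero_mulVec, zero_add] at h5
    rw [tr_apply, hT.heis _ h0, map_add, map_smul, hφ, h5, psi_cj hγ Y hY]
    module
  natural ψ hψ Y m := by
    obtain ⟨n, rfl⟩ := φ.surjective m
    have h1 := hT.natural (φ.symm.conj ψ) (fun x m => by
      apply φ.injective
      rw [LinearEquiv.conj_apply_apply, LinearEquiv.symm_symm, LinearEquiv.apply_symm_apply, hφ,
        hφ, map_add, map_smul, hψ, LinearEquiv.conj_apply_apply, LinearEquiv.symm_symm,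
        LinearEquiv.apply_symm_apply]) (cj hγ Y) n
    rw [LinearEquiv.conj_apply_apply, LinearEquiv.symm_symm, LinearEquiv.conj_apply_apply,
      LinearEquiv.symm_symm] at h1
    have h2 := congrArg φ h1
    rw [LinearEquiv.apply_symm_apply, ← tr_apply, ← tr_apply, LinearEquiv.apply_symm_apply] at h2
    exact h2

end lift

theorem LocNil.of_conj {M N : Type} [AddCommGroup M] [Module ℂ M] [AddCommGroup N] [Module ℂ N]
    (φ : M ≃ₗ[ℂ] N) {A : Module.End ℂ M} {B : Module.End ℂ N} (h : ∀ n, B (φ n) = φ (A n))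
    (hA : LocNil A) : LocNil B := by
  intro m
  obtain ⟨n, rfl⟩ := φ.surjective m
  obtain ⟨N, hN⟩ := hA n
  have key : ∀ j : ℕ, (B ^ j) (φ n) = φ ((A ^ j) n) := by
    intro j
    induction j with
    | zero => simp
    | succ j ih =>
      rw [pow_succ', pow_succ', Module.End.mul_apply, Module.End.mul_apply, ih, h]
  exact ⟨N, by rw [key, hN, map_zero]⟩

theorem IntDiag.of_conj {M N : Type} [AddCommGroup M] [Module ℂ M] [AddCommGroup N] [Module ℂ N]
    (φ : M ≃ₗ[ℂ] N) {A : Module.End ℂ M} {B : Module.End ℂ N} (h : ∀ n, B (φ n) = φ (A n))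
    (hA : IntDiag A) : IntDiag B := by
  intro m
  obtain ⟨n, rfl⟩ := φ.surjective m
  have h1 : φ n ∈ (Submodule.span ℂ {v : M | ∃ d : ℤ, A v = (d : ℂ) • v}).map
      (φ : M →ₗ[ℂ] N) := Submodule.mem_map_of_mem (hA n)
  rw [Submodule.map_span] at h1
  refine Submodule.span_mono ?_ h1
  rintro _ ⟨v, ⟨d, hd⟩, rfl⟩
  refine ⟨d, ?_⟩
  change B (φ v) = (d : ℂ) • φ v
  rw [h, hd, map_smul]

/-! ### Reduction modulo `t` -/

/-- Integral matrices. -/
def IntM (X : Matrix (Idx l k) (Idx l k) F) : Prop := ∀ a b, IsInt (X a b)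

theorem IntM.mul {X Y : Matrix (Idx l k) (Idx l k) F} (hX : IntM X) (hY : IntM Y) :
    IntM (X * Y) := fun a b => by
  rw [Matrix.mul_apply]
  exact OG.sum (N := 0) fun c _ => IsInt.mul (hX a c) (hY c b)

theorem coeff_zero_mul {x y : F} (hx : IsInt x) (hy : IsInt y) :
    (x * y).coeff 0 = x.coeff 0 * y.coeff 0 := by
  rw [coeff_mul x y 0 0 0 hx hy, show Finset.Ico (0 : ℤ) (0 - 0 + 1) = {0} from rfl,
    Finset.sum_singleton, sub_zero]

/-- Reduction modulo `t`. -/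
def red (X : Matrix (Idx l k) (Idx l k) F) : Matrix (Idx l k) (Idx l k) ℂ :=
  X.map fun x => x.coeff 0

theorem red_mul {X Y : Matrix (Idx l k) (Idx l k) F} (hX : IntM X) (hY : IntM Y) :
    red (X * Y) = red X * red Y := by
  ext a b
  unfold red
  rw [Matrix.map_apply, Matrix.mul_apply, Matrix.mul_apply, coeff_sum]
  refine Finset.sum_congr rfl fun c _ => ?_
  rw [coeff_zero_mul (hX a c) (hY c b)]
  rfl

theorem red_one : red (1 : Matrix (Idx l k) (Idx l k) F) = 1 := by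
  ext a b
  unfold red
  rw [Matrix.map_apply]
  by_cases h : a = b
  · subst h
    rw [Matrix.one_apply_eq, Matrix.one_apply_eq, ← tp_zero, coeff_tp, if_pos rfl]
  · rw [Matrix.one_apply_ne h, Matrix.one_apply_ne h, coeff_zero]

theorem trace_int {X : Matrix (Idx l k) (Idx l k) F} (hX : IntM X) :
    IsInt (Matrix.trace X) := OG.sum (N := 0) fun c _ => hX c c

theorem res_int {x : F} (hx : IsInt x) : res x = 0 := OG.res (N := 0) hx le_rfl

theorem chi_transport {c : ℂ} {g γ h : Matrix (Idx l k) (Idx l k) F} (hg : InSp g)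
    (hγ : InGamma γ) (hh : InGO h) (Y : lieGamma l k)
    (hY : IntM (g⁻¹ * (cj hγ Y : Matrix (Idx l k) (Idx l k) F) * g)) :
    chi c (γ * g * h) (Y : Matrix (Idx l k) (Idx l k) F) =
      chi c g (cj hγ Y : Matrix (Idx l k) (Idx l k) F) := by
  suffices hmain : res (Matrix.trace ((γ * g * h).map der * (γ * g * h)⁻¹ *
      (Y : Matrix (Idx l k) (Idx l k) F))) =
      res (Matrix.trace (g.map der * g⁻¹ * (cj hγ Y : Matrix (Idx l k) (Idx l k) F))) by
    unfold chi
    rw [hmain]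
  have hg1 := inv_mul_cancel' hg
  have hg2 := mul_inv_cancel' hg
  have hγ1 := inv_mul_cancel' hγ.sp
  have hγ2 := mul_inv_cancel' hγ.sp
  have hh1 := inv_mul_cancel' hh.1
  have hh2 := mul_inv_cancel' hh.1
  have e1 : (γ * g * h)⁻¹ = h⁻¹ * (g⁻¹ * γ⁻¹) := by
    rw [Matrix.mul_inv_rev, Matrix.mul_inv_rev]
  have e2 : (γ * g * h).map der * (γ * g * h)⁻¹ * (Y : Matrix (Idx l k) (Idx l k) F) =
      γ.map der * γ⁻¹ * (Y : Matrix (Idx l k) (Idx l k) F) +
      γ * (g.map der * g⁻¹ * γ⁻¹ * (Y : Matrix (Idx l k) (Idx l k) F)) +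
      (γ * g) * (h.map der * h⁻¹ * g⁻¹ * γ⁻¹ * (Y : Matrix (Idx l k) (Idx l k) F)) := by
    rw [map_der_mul, map_der_mul, e1]
    have a1 : γ.map der * g * h * (h⁻¹ * (g⁻¹ * γ⁻¹)) = γ.map der * γ⁻¹ := by
      rw [Matrix.mul_assoc (γ.map der * g), ← Matrix.mul_assoc h, hh2, Matrix.one_mul,
        Matrix.mul_assoc, ← Matrix.mul_assoc g, hg2, Matrix.one_mul]
    have a2 : γ * g.map der * h * (h⁻¹ * (g⁻¹ * γ⁻¹)) = γ * (g.map der * g⁻¹ * γ⁻¹) := by
      rw [Matrix.mul_assoc (γ * g.map der), ← Matrix.mul_assoc h, hh2, Matrix.one_mul]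
      simp only [Matrix.mul_assoc]
    rw [Matrix.add_mul, Matrix.add_mul, Matrix.add_mul, Matrix.add_mul, a1, a2, Matrix.add_mul]
    simp only [Matrix.mul_assoc]
  rw [e2, Matrix.trace_add, Matrix.trace_add, res_add, res_add]
  have t1 : res (Matrix.trace (γ.map der * γ⁻¹ * (Y : Matrix (Idx l k) (Idx l k) F))) = 0 := by
    have hi := InGamma.inv hγ
    have u0 : Up (γ.map der) := fun a b hab => by
      rw [Matrix.map_apply, hγ.upper a b hab, der_zero]
    have u1 : Up γ⁻¹ := hi.upper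
    have u3 : Up (Y : Matrix (Idx l k) (Idx l k) F) := Y.2.2.1
    have i0 : In0 (γ.map der) := fun a b ha hb => by
      rw [Matrix.map_apply]; exact IsInt.der (hγ.int a b ha hb)
    have i1 : In0 γ⁻¹ := hi.int
    have i3 : In0 (Y : Matrix (Idx l k) (Idx l k) F) := Y.2.2.2.2
    have n3 : Nz (Y : Matrix (Idx l k) (Idx l k) F) := Y.2.2.2.1
    have n4 := Nz.mul_right (u0.mul u1) u3 n3
    have i4 := In0.mul (u0.mul u1) u3 (In0.mul u0 u1 i0 i1) i3
    apply res_int
    refine OG.sum (N := 0) fun a _ => ?_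
    by_cases ha : wt a = 0
    · exact i4 a a ha ha
    · have := n4 a a rfl ha
      rw [Matrix.diag_apply, this]
      exact OG.zero 0
  have t2 : Matrix.trace (γ * (g.map der * g⁻¹ * γ⁻¹ * (Y : Matrix (Idx l k) (Idx l k) F))) =
      Matrix.trace (g.map der * g⁻¹ * (cj hγ Y : Matrix (Idx l k) (Idx l k) F)) := by
    rw [Matrix.trace_mul_comm, cj_coe]
    simp only [Matrix.mul_assoc]
  have t3 : res (Matrix.trace ((γ * g) * (h.map der * h⁻¹ * g⁻¹ * γ⁻¹ *
      (Y : Matrix (Idx l k) (Idx l k) F)))) = 0 := by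
    rw [Matrix.trace_mul_comm]
    have : h.map der * h⁻¹ * g⁻¹ * γ⁻¹ * (Y : Matrix (Idx l k) (Idx l k) F) * (γ * g) =
        h.map der * h⁻¹ * (g⁻¹ * (cj hγ Y : Matrix (Idx l k) (Idx l k) F) * g) := by
      rw [cj_coe]
      simp only [Matrix.mul_assoc]
    rw [this]
    apply res_int
    apply trace_int
    refine IntM.mul (IntM.mul (fun a b => ?_) (InGO.inv hh).2) hY
    rw [Matrix.map_apply]
    exact IsInt.der (hh.2 a b)
  rw [t1, t2, t3, zero_add, add_zero]

/-- **Target.** -/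
theorem transport {c : ℂ} {g γ h : Matrix (Idx l k) (Idx l k) F} {W W' : WeylModule k}
    (hg : InSp g) (hγ : InGamma γ) (hh : InGO h) (φ : W.M ≃ₗ[ℂ] W'.M)
    (hφ : ∀ x m, φ (W.a x m) = W'.a (midBlock γ *ᵥ x) (φ m) +
        res (om (heisV γ) (midBlock γ *ᵥ x)) • φ m)
    (hE : IsEquivariant c g W) : IsEquivariant c (γ * g * h) W' := by
  obtain ⟨T, hT, hTc⟩ := hE
  refine ⟨tr hγ φ T, tr_isLift hγ φ hφ hT, fun Y hY => ?_⟩
  have hg1 := inv_mul_cancel' hg
  have hg2 := mul_inv_cancel' hg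
  have hh1 := inv_mul_cancel' hh.1
  have hh2 := mul_inv_cancel' hh.1
  have e1 : (γ * g * h)⁻¹ = h⁻¹ * (g⁻¹ * γ⁻¹) := by
    rw [Matrix.mul_inv_rev, Matrix.mul_inv_rev]
  have e2 : (γ * g * h)⁻¹ * (Y : Matrix (Idx l k) (Idx l k) F) * (γ * g * h) =
      h⁻¹ * (g⁻¹ * (cj hγ Y : Matrix (Idx l k) (Idx l k) F) * g) * h := by
    rw [e1, cj_coe]
    simp only [Matrix.mul_assoc]
  have e3 : g⁻¹ * (cj hγ Y : Matrix (Idx l k) (Idx l k) F) * g =
      h * ((γ * g * h)⁻¹ * (Y : Matrix (Idx l k) (Idx l k) F) * (γ * g * h)) * h⁻¹ := by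
    rw [e2]
    simp only [← Matrix.mul_assoc]
    rw [hh2, Matrix.one_mul]
    simp only [Matrix.mul_assoc]
    rw [hh2, Matrix.mul_one]
  have hX' : IntM ((γ * g * h)⁻¹ * (Y : Matrix (Idx l k) (Idx l k) F) * (γ * g * h)) := hY
  have hX : IntM (g⁻¹ * (cj hγ Y : Matrix (Idx l k) (Idx l k) F) * g) := by
    rw [e3]
    exact IntM.mul (IntM.mul hh.2 hX') (InGO.inv hh).2
  obtain ⟨c1, c2⟩ := hTc (cj hγ Y) hX
  have hB : ∀ n, (tr hγ φ T Y + chi c (γ * g * h) (Y : Matrix (Idx l k) (Idx l k) F) •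
      (1 : Module.End ℂ W'.M)) (φ n) =
      φ ((T (cj hγ Y) + chi c g (cj hγ Y : Matrix (Idx l k) (Idx l k) F) •
        (1 : Module.End ℂ W.M)) n) := by
    intro n
    rw [LinearMap.add_apply, LinearMap.add_apply, LinearMap.smul_apply, LinearMap.smul_apply,
      Module.End.one_apply, Module.End.one_apply, tr_apply, map_add, map_smul,
      chi_transport hg hγ hh Y hX]
  refine ⟨fun hN => LocNil.of_conj φ hB (c1 ?_), fun hD => IntDiag.of_conj φ hB (c2 ?_)⟩
  · change IsNilpotent (red (g⁻¹ * (cj hγ Y : Matrix (Idx l k) (Idx l k) F) * g))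
    have hN' : IsNilpotent (red ((γ * g * h)⁻¹ * (Y : Matrix (Idx l k) (Idx l k) F) *
      (γ * g * h))) := hN
    obtain ⟨N, hN⟩ := hN'
    rw [e3, red_mul (IntM.mul hh.2 hX') (InGO.inv hh).2, red_mul hh.2 hX']
    have hr : red h⁻¹ * red h = 1 := by
      rw [← red_mul (InGO.inv hh).2 hh.2, hh1, red_one]
    set P := red h
    set Q := red h⁻¹
    set X := red ((γ * g * h)⁻¹ * (Y : Matrix (Idx l k) (Idx l k) F) * (γ * g * h))
    have key : ∀ j : ℕ, (P * X * Q) ^ (j + 1) = P * X ^ (j + 1) * Q := by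
      intro j
      induction j with
      | zero => rw [zero_add, pow_one, pow_one]
      | succ j ih =>
        rw [pow_succ, ih, pow_succ X (j + 1)]
        simp only [Matrix.mul_assoc]
        rw [← Matrix.mul_assoc Q P, hr, Matrix.one_mul]
    refine ⟨N + 1, ?_⟩
    rw [key, pow_succ, hN, Matrix.zero_mul, Matrix.mul_zero, Matrix.zero_mul]
  · obtain ⟨h₁, hh₁, d, hd⟩ := hD
    refine ⟨h * h₁, InGO.mul hh hh₁, d, ?_⟩
    rw [e3, hd, Matrix.mul_inv_rev]
    simp only [Matrix.mul_assoc]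

end Pool.Agent.H143_GC.JT
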