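import Pool.Agent.H143_GC.Uniq
import Pool.Agent.H143_GC.JM
import Pool.Agent.H143_GC.JR
import Pool.Agent.H143_GC.JK1
import Pool.Agent.H143_GC.JK2
import Pool.Agent.H143_GC.JHook
import Pool.Agent.H143_GC.JT

/-! The classification of the simple equivariant pairs. -/

noncomputable section

open Matrix

open scoped Classical

namespace Pool.Agent.H143_GC

variable {l k : ℕ}

/-- The exponents at `e_i`. -/
def lamY (Y : HookDiagram l k) (i : Fin (l + 1)) : ℤ := Y.1.colLen i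

theorem dom_of_hook (Y : HookDiagram l k) : Dom (lamY Y) (leg Y) (arm Y) := by
  obtain ⟨h1, h2, h3, h4⟩ := hook_dom Y
  refine ⟨fun i j hij => ?_, ?_, fun j => ?_, h3, h4⟩
  · exact Int.ofNat_le.2 (h1 hij)
  · exact Int.natCast_nonneg _
  · exact Int.ofNat_le.2 (h2 j)

section

variable {c : ℂ} (hc : ∀ q : ℚ, (q : ℂ) ≠ c)

/-- The module attached to a hook diagram. -/
def modY (Y : HookDiagram l k) : WeylModule k :=
  (JM.exists_vac (tyOf c hc (leg Y) (arm Y))).choose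

theorem modY_spec (Y : HookDiagram l k) : ∃ m₀ : (modY hc Y).M, m₀ ≠ 0 ∧
    IsVac (tyOf c hc (leg Y) (arm Y)) (modY hc Y) m₀ ∧
    ∀ Z : Submodule ℂ (modY hc Y).M, (∀ x, ∀ m ∈ Z, (modY hc Y).a x m ∈ Z) → m₀ ∈ Z → Z = ⊤ :=
  (JM.exists_vac (tyOf c hc (leg Y) (arm Y))).choose_spec

/-- The simple pair attached to a hook diagram. -/
def pairY (Y : HookDiagram l k) : SimplePair c l k where
  g := tPoint (lamY Y) (mun (leg Y) (arm Y))
  W := modY hc Y
  inSp := JC.tPoint_sp _ _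
  simple := by
    obtain ⟨m₀, h1, h2, h3⟩ := modY_spec hc Y
    exact simple_of_vac h2 h1 h3
  equivariant := by
    obtain ⟨m₀, h1, h2, h3⟩ := modY_spec hc Y
    exact equi_of_vac (dom_of_hook Y) h2 h3

theorem pairY_unique {Y Y' : HookDiagram l k} (h : (pairY hc Y).Rel (pairY hc Y')) : Y = Y' := by
  obtain ⟨γ, g, hγ, hg, H, φ, hφ⟩ := h
  obtain ⟨m₀, h1, h2, h3⟩ := modY_spec hc Y
  obtain ⟨m₀', h1', h2', h3'⟩ := modY_spec hc Y'
  obtain ⟨e1, e2, e3⟩ := label_unique (c := c) (hc := hc) (dom_of_hook Y) (dom_of_hook Y') h1 h1'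
    h2 h2' h3 h3' hγ hg H φ hφ
  obtain ⟨d1, d2, d3, d4⟩ := hook_dom Y
  obtain ⟨Z, _, hZ⟩ := hook_unique (fun i : Fin (l + 1) => Y.1.colLen i) (leg Y) (arm Y) d1 d2 d3 d4
  have z1 := hZ Y ⟨fun i => rfl, fun j => rfl, fun j => rfl⟩
  have z2 := hZ Y' ⟨fun i => by
    have := congrFun e1 i
    unfold lamY at this
    exact_mod_cast this.symm, fun j => (congrFun e2 j).symm, fun j => (congrFun e3 j).symm⟩
  rw [z1, z2]

/-- The classification at a diagonal point. -/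
theorem classify (lam : Fin (l + 1) → ℤ) (mu : Fin k → ℕ) (hmu : Antitone mu) (W : WeylModule k)
    (hW : W.IsSimple) (hE : IsEquivariant c (tPoint lam fun j => (mu j : ℤ)) W) :
    ∃ Y : HookDiagram l k, (tPoint lam fun j => (mu j : ℤ)) =
      tPoint (lamY Y) (mun (leg Y) (arm Y)) ∧
      ∃ φ : W.M ≃ₗ[ℂ] (modY hc Y).M, ∀ x m, φ (W.a x m) = (modY hc Y).a x (φ m) := by
  obtain ⟨T, hT, hE⟩ := hE
  have hE' : JR.Eqv c (tPoint lam fun j => (mu j : ℤ)) T := hE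
  have hla := JR.lam_anti hT hE' hW.1
  have hl0 := JR.lam_nonneg hT hE' hW.1
  obtain ⟨kap, nu, hmk, hkL, hz, hst, q1, q2, q3⟩ := JK1.letters hW hc mu hmu (lam (Fin.last l))
    (fun j p hp => JR.nil_f hT hE' j p hp) (fun j s hs => JR.nil_C hT hE' j hs)
    (fun j s hs hs' => JR.nil_B hT hE' j hs hs')
    (fun i j s hs hij hs' => JR.nil_A hT hE' hij hs hs')
    (fun j s hs hs' => JR.nil_D hT hE' j hs hs') (fun j => JR.intdiag hT hE' j)
  obtain ⟨m₁, hm1, hv1⟩ := JK2.exists_vacuum hW hc kap nu q1 q2 q3 (fun j => by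
    have := JR.intdiag hT hE' j
    rwa [hmk j] at this)
  obtain ⟨Y, ⟨y1, y2, y3⟩, _⟩ := hook_unique (l := l) (fun i => (lam i).toNat) kap nu
    (fun i j hij => Int.toNat_le_toNat (hla hij)) (fun j => by
      have := hkL j
      omega) hz hst
  have e2 : leg Y = kap := funext y2
  have e3 : arm Y = nu := funext y3
  have e1 : lamY Y = lam := by
    funext i
    unfold lamY
    rw [y1]
    have h1 : lam (Fin.last l) ≤ lam i := hla (Fin.le_last i)
    exact Int.toNat_of_nonneg (le_trans hl0 h1)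
  obtain ⟨m₀, h1, h2, h3⟩ := modY_spec hc Y
  refine ⟨Y, ?_, ?_⟩
  · rw [e1, e2, e3]
    congr 1
    funext j
    rw [hmk j]
    rfl
  · refine iso_of_vac (τ := tyOf c hc (leg Y) (arm Y)) hW (simple_of_vac h2 h1 h3) hm1 h1 ?_ h2
    rw [e2, e3]
    exact hv1

theorem exists_label (Q : SimplePair c l k) : ∃ Y : HookDiagram l k, Q.Rel (pairY hc Y) := by
  obtain ⟨γ, h, lam, mu, hγ, hh, hmu, hg⟩ := JC.decomp Q.g Q.inSp
  obtain ⟨W', φ, hφ⟩ := JG.twist Q.W (JG.InGamma.inv hγ)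
  have hγd : γ⁻¹ * γ = 1 := Matrix.nonsing_inv_mul _ (JG.InSp.det hγ.sp)
  have hhd : h * h⁻¹ = 1 := Matrix.mul_nonsing_inv _ (JG.InSp.det hh.1)
  have hpt : γ⁻¹ * Q.g * h⁻¹ = tPoint lam fun j => (mu j : ℤ) := by
    rw [hg]
    calc γ⁻¹ * (γ * (tPoint lam fun j => (mu j : ℤ)) * h) * h⁻¹ =
        (γ⁻¹ * γ) * (tPoint lam fun j => (mu j : ℤ)) * (h * h⁻¹) := by
          simp only [Matrix.mul_assoc]
      _ = _ := by rw [hγd, hhd, Matrix.one_mul, Matrix.mul_one]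
  have hE := JT.transport Q.inSp (JG.InGamma.inv hγ) (JG.InGO.inv hh) φ hφ Q.equivariant
  have hS := JG.simple_transport Q.simple (JG.InGamma.inv hγ) φ hφ
  rw [hpt] at hE
  obtain ⟨Y, hY, ψ, hψ⟩ := classify hc lam mu hmu W' hS hE
  let Q' : SimplePair c l k := ⟨tPoint lam fun j => (mu j : ℤ), W', JC.tPoint_sp _ _, hS, hE⟩
  have r1 : Q.Rel Q' := ⟨γ⁻¹, h⁻¹, JG.InGamma.inv hγ, JG.InGO.inv hh, hpt.symm, φ, hφ⟩
  have r2 : Q'.Rel (pairY hc Y) := by
    refine ⟨1, 1, JG.InGamma.one, JG.InGO.one, ?_, ψ, fun x m => ?_⟩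
    · rw [Matrix.one_mul, Matrix.mul_one]
      exact hY.symm
    · have h0 : om (0 : Fin k ⊕ Fin k → F) x = 0 := by
        simp [om]
      rw [JG.midBlock_one, JG.heisV_one, Matrix.one_mulVec, h0, res_zero, zero_smul, add_zero]
      exact hψ x m
  exact ⟨Y, JG.rel_trans r1 r2⟩

/-- The membership in the lattice of a hook diagram. -/
def InLat (Y : HookDiagram l k) (x : Fin k ⊕ Fin k → F) : Prop :=
  ∀ j, (∀ p < (if leg Y j = 0 then 0 else (arm Y j : ℤ) + 1), (x (Sum.inl j)).coeff p = 0) ∧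
    (∀ p < -(arm Y j : ℤ), (x (Sum.inr j)).coeff p = 0)

theorem inLat_iff (Y : HookDiagram l k) (x : Fin k ⊕ Fin k → F) :
    (tyOf c hc (leg Y) (arm Y)).L x ↔ InLat Y x := by
  obtain ⟨d1, d2, d3, d4⟩ := hook_dom Y
  have key : ∀ j, (if (tyOf c hc (leg Y) (arm Y)).sp j then
      (tyOf c hc (leg Y) (arm Y)).nu j + 1 else (tyOf c hc (leg Y) (arm Y)).nu j) =
      (if leg Y j = 0 then 0 else (arm Y j : ℤ) + 1) := by
    intro j
    by_cases hj : leg Y j = 0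
    · rw [if_pos hj, if_neg (show ¬ (tyOf c hc (leg Y) (arm Y)).sp j from fun h => h hj)]
      change (arm Y j : ℤ) = 0
      rw [d3 j hj]
      rfl
    · rw [if_neg hj, if_pos (show (tyOf c hc (leg Y) (arm Y)).sp j from hj)]
      rfl
  constructor
  · intro h j
    refine ⟨fun p hp => (h j).1 p ?_, (h j).2⟩
    rw [key]
    exact hp
  · intro h j
    refine ⟨fun p hp => (h j).1 p ?_, (h j).2⟩
    rw [key] at hp
    exact hp

end

theorem main (l k : ℕ) (c : ℂ) (hc : ∀ q : ℚ, (q : ℂ) ≠ c) :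
    ∃ P : HookDiagram l k → SimplePair c l k,
      (∀ Y, (P Y).g = tPoint (fun i => (Y.1.colLen i : ℤ)) (fun j => (arm Y j + leg Y j : ℤ))) ∧
      (∀ Y x, LocNil ((P Y).W.a x) ↔ InLat Y x) ∧
      (∀ Y, ∃ v, v ≠ 0 ∧ IsVac (tyOf c hc (leg Y) (arm Y)) (P Y).W v) ∧
      ∀ Q : SimplePair c l k, ∃! Y, Q.Rel (P Y) := by
  refine ⟨pairY hc, fun Y => ?_, fun Y x => ?_, fun Y => ?_, fun Q => ?_⟩
  · change tPoint (lamY Y) (mun (leg Y) (arm Y)) = _
    congr 1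
    funext j
    unfold mun
    push_cast
    ring
  · obtain ⟨m₀, h1, h2, h3⟩ := modY_spec hc Y
    change LocNil ((modY hc Y).a x) ↔ _
    rw [locNil_iff h1 h2 h3, inLat_iff]
  · obtain ⟨m₀, h1, h2, h3⟩ := modY_spec hc Y
    exact ⟨m₀, h1, h2⟩
  · obtain ⟨Y, hY⟩ := exists_label hc Q
    refine ⟨Y, hY, fun Y' hY' => ?_⟩
    exact pairY_unique hc (JG.rel_trans (JG.rel_symm hY') hY)

end Pool.Agent.H143_GC
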