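import Mathlib
import Pool.Agent.H143_GC.Old

/-!
Cartan decomposition of the symplectic group over the Laurent series (job 9, helper144).
-/

set_option linter.unusedSectionVars false
set_option linter.unusedVariables false
set_option linter.unusedSimpArgs false

noncomputable section

open Matrix

namespace Pool.Agent.H143_GC.CD

/-! ### The symplectic form -/

section Form

variable {K : Type*} [Field K] {ι : Type*} [Fintype ι] [DecidableEq ι]

/-- The standard symplectic form. -/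
def om (x y : ι ⊕ ι → K) : K := ∑ i, (x (Sum.inl i) * y (Sum.inr i) - x (Sum.inr i) * y (Sum.inl i))

lemma om_add_left (x x' y : ι ⊕ ι → K) : om (x + x') y = om x y + om x' y := by
  simp only [om, Pi.add_apply, ← Finset.sum_add_distrib]
  exact Finset.sum_congr rfl fun i _ => by ring

lemma om_smul_left (c : K) (x y : ι ⊕ ι → K) : om (c • x) y = c * om x y := by
  simp only [om, Pi.smul_apply, smul_eq_mul, Finset.mul_sum]
  exact Finset.sum_congr rfl fun i _ => by ring

lemma om_swap (x y : ι ⊕ ι → K) : om y x = - om x y := by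
  simp only [om, ← Finset.sum_neg_distrib]
  exact Finset.sum_congr rfl fun i _ => by ring

lemma om_self (x : ι ⊕ ι → K) : om x x = 0 := by
  simp only [om]
  exact Finset.sum_eq_zero fun i _ => by ring

lemma om_add_right (x y y' : ι ⊕ ι → K) : om x (y + y') = om x y + om x y' := by
  simp only [om, Pi.add_apply, ← Finset.sum_add_distrib]
  exact Finset.sum_congr rfl fun i _ => by ring

lemma om_smul_right (c : K) (x y : ι ⊕ ι → K) : om x (c • y) = c * om x y := by
  simp only [om, Pi.smul_apply, smul_eq_mul, Finset.mul_sum]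
  exact Finset.sum_congr rfl fun i _ => by ring

/-- the form as a bilinear map -/
def omL : (ι ⊕ ι → K) →ₗ[K] (ι ⊕ ι → K) →ₗ[K] K :=
  LinearMap.mk₂ K om om_add_left om_smul_left om_add_right om_smul_right

lemma omL_apply (x y : ι ⊕ ι → K) : omL x y = om x y := rfl

lemma om_sub_left (x x' y : ι ⊕ ι → K) : om (x - x') y = om x y - om x' y := by
  simp only [← omL_apply, map_sub, LinearMap.sub_apply]

lemma om_sum_left {κ : Type*} (s : Finset κ) (x : κ → (ι ⊕ ι → K)) (y : ι ⊕ ι → K) :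
    om (∑ j ∈ s, x j) y = ∑ j ∈ s, om (x j) y := by
  simp only [← omL_apply, map_sum, LinearMap.sum_apply]

lemma om_eq_J (x y : ι ⊕ ι → K) : x ⬝ᵥ (Matrix.J ι K *ᵥ y) = - om x y := by
  simp only [Matrix.J, om, dotProduct, Fintype.sum_sum_type, Matrix.fromBlocks_mulVec,
    Sum.elim_inl, Sum.elim_inr, Matrix.neg_mulVec, Matrix.one_mulVec, Matrix.zero_mulVec,
    Pi.add_apply, Pi.neg_apply, Pi.zero_apply, Function.comp_apply, ← Finset.sum_neg_distrib,
    ← Finset.sum_add_distrib]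
  exact Finset.sum_congr rfl fun i _ => by ring

lemma om_inl (i : ι) (y : ι ⊕ ι → K) : om (Pi.single (Sum.inl i) 1) y = y (Sum.inr i) := by
  simp [om, Pi.single_apply, Finset.sum_ite_eq]

lemma om_inr (i : ι) (y : ι ⊕ ι → K) : om (Pi.single (Sum.inr i) 1) y = - y (Sum.inl i) := by
  simp [om, Pi.single_apply, Finset.sum_ite_eq]

lemma om_mulVec (h : Matrix (ι ⊕ ι) (ι ⊕ ι) K) (hh : h ∈ Matrix.symplecticGroup ι K)
    (x y : ι ⊕ ι → K) : om (h *ᵥ x) (h *ᵥ y) = om x y := by
  have h1 := om_eq_J (h *ᵥ x) (h *ᵥ y)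
  have h2 := om_eq_J x y
  rw [SymplecticGroup.mem_iff'] at hh
  have h3 : (h *ᵥ x) ⬝ᵥ (Matrix.J ι K *ᵥ (h *ᵥ y)) = x ⬝ᵥ (Matrix.J ι K *ᵥ y) := by
    conv_rhs => rw [← hh]
    rw [← Matrix.mulVec_mulVec, ← Matrix.mulVec_mulVec]
    conv_lhs => rw [← Matrix.vecMul_transpose]
    rw [← Matrix.dotProduct_mulVec]
  rw [h1, h2] at h3
  exact neg_injective h3

end Form

/-! ### The abstract statement -/

section Abstract

variable {K : Type*} [Field K] {ι : Type*} [Fintype ι] [DecidableEq ι]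
variable (O : Subring K) (t : K)

/-- `x` is an integral vector -/
def IV (x : ι ⊕ ι → K) : Prop := ∀ p, x p ∈ O

variable {O t}

lemma IV.om {x y : ι ⊕ ι → K} (hx : IV O x) (hy : IV O y) : om x y ∈ O :=
  O.sum_mem fun i _ => O.sub_mem (O.mul_mem (hx _) (hy _)) (O.mul_mem (hx _) (hy _))

lemma IV.add {x y : ι ⊕ ι → K} (hx : IV O x) (hy : IV O y) : IV O (x + y) :=
  fun p => O.add_mem (hx p) (hy p)

lemma IV.sub {x y : ι ⊕ ι → K} (hx : IV O x) (hy : IV O y) : IV O (x - y) :=
  fun p => O.sub_mem (hx p) (hy p)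

lemma IV.smul {c : K} {x : ι ⊕ ι → K} (hc : c ∈ O) (hx : IV O x) : IV O (c • x) :=
  fun p => O.mul_mem hc (hx p)

lemma IV.sum {κ : Type*} {s : Finset κ} {x : κ → (ι ⊕ ι → K)} (hx : ∀ j ∈ s, IV O (x j)) :
    IV O (∑ j ∈ s, x j) := fun p => by
  rw [Finset.sum_apply]; exact O.sum_mem fun j hj => hx j hj p

lemma IV.single (p : ι ⊕ ι) : IV O (Pi.single p (1 : K)) := fun q => by
  rw [Pi.single_apply]; split_ifs
  · exact O.one_mem
  · exact O.zero_mem

lemma iv_of_om {x : ι ⊕ ι → K} (hx : ∀ p, CD.om (Pi.single p 1) x ∈ O) : IV O x := by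
  rintro (i | i)
  · have := hx (Sum.inr i); rw [om_inr] at this; exact O.neg_mem_iff.1 this
  · have := hx (Sum.inl i); rwa [om_inl] at this

lemma IV.mulVec {h : Matrix (ι ⊕ ι) (ι ⊕ ι) K} (hh : ∀ i j, h i j ∈ O) {x : ι ⊕ ι → K}
    (hx : IV O x) : IV O (h *ᵥ x) := fun p => O.sum_mem fun j _ => O.mul_mem (hh _ _) (hx _)

/-- The state after the treatment of the indices in `S`. -/
structure Prt (O : Subring K) (t : K) (h : Matrix (ι ⊕ ι) (ι ⊕ ι) K) (S : Finset ι)
    (u w : ι → (ι ⊕ ι → K)) (mu : ι → ℕ) : Prop where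
  uu : ∀ i ∈ S, ∀ j ∈ S, om (u i) (u j) = 0
  ww : ∀ i ∈ S, ∀ j ∈ S, om (w i) (w j) = 0
  uw : ∀ i ∈ S, ∀ j ∈ S, om (u i) (w j) = if i = j then 1 else 0
  iu : ∀ i ∈ S, IV O (u i)
  iw : ∀ i ∈ S, IV O (w i)
  hu : ∀ i ∈ S, IV O (h *ᵥ (t ^ (mu i : ℤ) • u i))
  hw : ∀ i ∈ S, IV O (h *ᵥ (t ^ (-(mu i : ℤ)) • w i))

/-- Being orthogonal to the vectors found so far. -/
def Perp (S : Finset ι) (u w : ι → (ι ⊕ ι → K)) (x : ι ⊕ ι → K) : Prop :=
  ∀ j ∈ S, om x (u j) = 0 ∧ om x (w j) = 0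

/-- The projection to the orthogonal complement. -/
def proj (S : Finset ι) (u w : ι → (ι ⊕ ι → K)) (x : ι ⊕ ι → K) : ι ⊕ ι → K :=
  x - ∑ j ∈ S, (om x (w j) • u j - om x (u j) • w j)

lemma perp_proj {h : Matrix (ι ⊕ ι) (ι ⊕ ι) K} {S : Finset ι} {u w : ι → (ι ⊕ ι → K)}
    {mu : ι → ℕ} (P : Prt O t h S u w mu) (x : ι ⊕ ι → K) : Perp S u w (proj S u w x) := by
  intro i hi
  have wu : ∀ j ∈ S, om (w j) (u i) = if j = i then -1 else 0 := fun j hj => by
    rw [om_swap, P.uw i hi j hj]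
    by_cases hij : i = j
    · rw [if_pos hij, if_pos hij.symm]
    · rw [if_neg hij, if_neg (fun hh => hij hh.symm), neg_zero]
  constructor
  · rw [proj, om_sub_left, om_sum_left, Finset.sum_congr rfl (g := fun j => if j = i then om x (u i) else 0)]
    · simp [hi]
    · intro j hj
      rw [om_sub_left, om_smul_left, om_smul_left, P.uu j hj i hi, wu j hj]
      split_ifs with h1
      · subst h1; ring
      · ring
  · rw [proj, om_sub_left, om_sum_left, Finset.sum_congr rfl (g := fun j => if j = i then om x (w i) else 0)]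
    · simp [hi]
    · intro j hj
      rw [om_sub_left, om_smul_left, om_smul_left, P.ww j hj i hi, P.uw j hj i hi]
      split_ifs with h1
      · subst h1; ring
      · ring

lemma om_proj {S : Finset ι} {u w : ι → (ι ⊕ ι → K)} {x z : ι ⊕ ι → K}
    (hz : Perp S u w z) : om (proj S u w x) z = om x z := by
  rw [proj, om_sub_left, om_sum_left, Finset.sum_eq_zero, sub_zero]
  intro j hj
  rw [om_sub_left, om_smul_left, om_smul_left, om_swap z (u j), om_swap z (w j), (hz j hj).1,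
    (hz j hj).2]
  ring

/-- the step: exchange one more hyperbolic pair -/
lemma step (ht : t ≠ 0) (h1 : ∀ n : ℤ, t ^ n ∈ O ↔ 0 ≤ n) (h2 : ∀ x : K, ∃ n : ℕ, t ^ n * x ∈ O)
    (h3 : ∀ x ∈ O, t⁻¹ * x ∉ O → x⁻¹ ∈ O)
    {h : Matrix (ι ⊕ ι) (ι ⊕ ι) K} (hh : h ∈ Matrix.symplecticGroup ι K)
    {S : Finset ι} {u w : ι → (ι ⊕ ι → K)}
    {mu : ι → ℕ} (P : Prt O t h S u w mu) {r : ι} (hr : r ∉ S) :
    ∃ (N : ℕ) (a b : ι ⊕ ι → K), Perp S u w a ∧ Perp S u w b ∧ om a b = 1 ∧ IV O a ∧ IV O b ∧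
      IV O (h *ᵥ (t ^ (N : ℤ) • a)) ∧ IV O (h *ᵥ (t ^ (-(N : ℤ)) • b)) := by
  -- the inverse of `h`
  obtain ⟨g, hgh, hhg⟩ : ∃ g : Matrix (ι ⊕ ι) (ι ⊕ ι) K, g * h = 1 ∧ h * g = 1 := by
    have hu := SymplecticGroup.symplectic_det hh
    exact ⟨h⁻¹, Matrix.nonsing_inv_mul _ hu, Matrix.mul_nonsing_inv _ hu⟩
  have hpow : ∀ n : ℕ, t ^ n ∈ O := fun n => by
    have := (h1 n).2 (by positivity); rwa [zpow_natCast] at this
  -- common denominators
  have h2' : ∀ {κ : Type _} [Fintype κ] (x : κ → K), ∃ n : ℕ, ∀ q, t ^ n * x q ∈ O := by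
    intro κ _ x
    choose n hn using fun q => h2 (x q)
    refine ⟨∑ q, n q, fun q => ?_⟩
    have : ∑ q, n q = n q + (∑ q, n q - n q) := by
      have := Finset.single_le_sum (f := n) (fun _ _ => Nat.zero_le _) (Finset.mem_univ q)
      omega
    rw [this, pow_add, mul_comm (t ^ n q), mul_assoc]
    exact O.mul_mem (hpow _) (hn q)
  -- a nonzero orthogonal vector
  obtain ⟨x0, hx0, hP0⟩ : ∃ x0 : ι ⊕ ι → K, x0 ≠ 0 ∧ Perp S u w x0 := by
    let φ : (ι ⊕ ι → K) →ₗ[K] (S ⊕ S → K) :=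
      LinearMap.pi fun s => omL.flip (Sum.elim (fun j : S => u j) (fun j : S => w j) s)
    have hcard : Fintype.card (S ⊕ S) < Fintype.card (ι ⊕ ι) := by
      simp only [Fintype.card_sum, Fintype.card_coe]
      have : S.card < Fintype.card ι := by
        rw [← Finset.card_univ]
        exact Finset.card_lt_card ⟨Finset.subset_univ _, fun hh => hr (hh (Finset.mem_univ r))⟩
      omega
    have hker : LinearMap.ker φ ≠ ⊥ := by
      apply LinearMap.ker_ne_bot_of_finrank_lt
      simpa using hcard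
    obtain ⟨x0, hx0, hne⟩ := (Submodule.ne_bot_iff _).1 hker
    refine ⟨x0, hne, fun j hj => ?_⟩
    have := LinearMap.mem_ker.1 hx0
    constructor
    · exact congrFun this (Sum.inl ⟨j, hj⟩)
    · exact congrFun this (Sum.inr ⟨j, hj⟩)
  -- the predicate to be maximised
  let Q : ℤ → Prop := fun n => ∃ x : ι ⊕ ι → K, IV O (h *ᵥ x) ∧ Perp S u w x ∧
    ¬ IV O (t ^ (n - 1) • x)
  have hgbound : ∃ M : ℕ, ∀ x : ι ⊕ ι → K, IV O (h *ᵥ x) → ∀ n : ℤ, (M : ℤ) ≤ n → IV O (t ^ n • x) := by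
    obtain ⟨M, hM⟩ := h2' (fun q : (ι ⊕ ι) × (ι ⊕ ι) => g q.1 q.2)
    refine ⟨M, fun x hx n hn => ?_⟩
    have e1 : t ^ n • x = (t ^ (n - M)) • ((t ^ M • g) *ᵥ (h *ᵥ x)) := by
      rw [Matrix.smul_mulVec, Matrix.mulVec_mulVec, hgh, Matrix.one_mulVec, smul_smul,
        ← zpow_natCast t M, ← zpow_add₀ ht]
      congr 2
      ring
    rw [e1]
    exact IV.smul ((h1 _).2 (by omega)) (IV.mulVec (fun i j => hM (i, j)) hx)
  have hbdd : ∃ b : ℤ, ∀ z, Q z → z ≤ b := by
    obtain ⟨M, hM⟩ := hgbound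
    refine ⟨M, fun z ⟨x, hx, _, hx2⟩ => ?_⟩
    by_contra hz
    exact hx2 (hM x hx (z - 1) (by omega))
  have hinh : ∃ z, Q z := by
    obtain ⟨m, hm⟩ := h2' (h *ᵥ x0)
    obtain ⟨p, hp⟩ : ∃ p, x0 p ≠ 0 := by
      by_contra hcon
      push Not at hcon
      exact hx0 (funext hcon)
    obtain ⟨m', hm'⟩ := h2 (x0 p)⁻¹
    refine ⟨-m' - m, t ^ m • x0, ?_, ?_, ?_⟩
    · rw [Matrix.mulVec_smul]; exact hm
    · intro j hj
      rw [om_smul_left, om_smul_left, (hP0 j hj).1, (hP0 j hj).2]; simp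
    · intro hI
      have h5 := O.mul_mem (hI p) hm'
      have h6 : (t ^ ((-m' - m : ℤ) - 1) • (t ^ m • x0)) p * (t ^ m' * (x0 p)⁻¹) = t ^ (-1 : ℤ) := by
        simp only [Pi.smul_apply, smul_eq_mul]
        have : t ^ (-m' - m - 1 : ℤ) * (t ^ m * x0 p) * (t ^ m' * (x0 p)⁻¹)
            = t ^ (-m' - m - 1 : ℤ) * t ^ (m : ℤ) * t ^ (m' : ℤ) * (x0 p * (x0 p)⁻¹) := by
          rw [zpow_natCast, zpow_natCast]; ring
        rw [this, mul_inv_cancel₀ hp, mul_one, ← zpow_add₀ ht, ← zpow_add₀ ht]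
        congr 1; ring
      rw [h6, h1] at h5
      omega
  obtain ⟨N, ⟨x, hx1, hx2, hx3⟩, hmax⟩ := Int.exists_greatest_of_bdd hbdd hinh
  have hNint : ∀ y : ι ⊕ ι → K, IV O (h *ᵥ y) → Perp S u w y → IV O (t ^ N • y) := by
    intro y hy1 hy2
    by_contra hcon
    have := hmax (N + 1) ⟨y, hy1, hy2, by rwa [add_sub_cancel_right]⟩
    omega
  -- the vector `b`
  set b : ι ⊕ ι → K := t ^ N • x with hb
  have hbI : IV O b := hNint x hx1 hx2
  have hbP : Perp S u w b := fun j hj => by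
    rw [hb, om_smul_left, om_smul_left, (hx2 j hj).1, (hx2 j hj).2]; simp
  obtain ⟨p, hp⟩ : ∃ p, t⁻¹ * b p ∉ O := by
    by_contra hcon
    push Not at hcon
    apply hx3
    intro p
    have := hcon p
    rw [hb, Pi.smul_apply, smul_eq_mul, ← mul_assoc, ← _root_.zpow_neg_one, ← zpow_add₀ ht] at this
    rw [Pi.smul_apply, smul_eq_mul]
    rwa [show N - 1 = -1 + N by ring]
  have hbp : (b p)⁻¹ ∈ O := h3 _ (hbI p) hp
  have hbp0 : b p ≠ 0 := by
    intro h0
    rw [h0, mul_zero] at hp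
    exact hp O.zero_mem
  obtain ⟨a0, ha0, ha0b⟩ : ∃ a0 : ι ⊕ ι → K, IV O a0 ∧ om a0 b = 1 := by
    rcases p with i | i
    · refine ⟨(-(b (Sum.inl i))⁻¹) • Pi.single (Sum.inr i) 1, IV.smul (O.neg_mem hbp) (IV.single _), ?_⟩
      rw [om_smul_left, om_inr, neg_mul_neg, inv_mul_cancel₀ hbp0]
    · refine ⟨(b (Sum.inr i))⁻¹ • Pi.single (Sum.inl i) 1, IV.smul hbp (IV.single _), ?_⟩
      rw [om_smul_left, om_inl, inv_mul_cancel₀ hbp0]
  set a : ι ⊕ ι → K := proj S u w a0 with ha
  have haP : Perp S u w a := perp_proj P a0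
  have haI : IV O a := by
    apply IV.sub ha0
    apply IV.sum
    intro j hj
    exact IV.sub (IV.smul (IV.om ha0 (P.iw j hj)) (P.iu j hj))
      (IV.smul (IV.om ha0 (P.iu j hj)) (P.iw j hj))
  have hab : om a b = 1 := by rw [ha, om_proj hbP, ha0b]
  have haL : IV O (h *ᵥ (t ^ N • a)) := by
    apply iv_of_om
    intro p
    set y := g *ᵥ (Pi.single p (1 : K)) with hy
    have hhy : h *ᵥ y = Pi.single p 1 := by rw [hy, Matrix.mulVec_mulVec, hhg, Matrix.one_mulVec]
    have hyI : IV O (h *ᵥ y) := by rw [hhy]; exact IV.single p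
    rw [← hhy, om_mulVec h hh]
    have hyP := perp_proj P y
    -- the projection of y is in the second lattice
    have hpI : IV O (h *ᵥ (proj S u w y)) := by
      rw [proj, Matrix.mulVec_sub]
      apply IV.sub hyI
      rw [Matrix.mulVec_sum]
      apply IV.sum
      intro j hj
      rw [Matrix.mulVec_sub]
      have e1 : om y (w j) • u j = om y (t ^ (-(mu j : ℤ)) • w j) • (t ^ (mu j : ℤ) • u j) := by
        rw [om_smul_right, smul_smul, mul_right_comm, ← zpow_add₀ ht, neg_add_cancel, zpow_zero,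
          one_mul]
      have e2 : om y (u j) • w j = om y (t ^ (mu j : ℤ) • u j) • (t ^ (-(mu j : ℤ)) • w j) := by
        rw [om_smul_right, smul_smul, mul_right_comm, ← zpow_add₀ ht, add_neg_cancel, zpow_zero,
          one_mul]
      rw [e1, e2, Matrix.mulVec_smul h (om y (t ^ (-(mu j : ℤ)) • w j)),
        Matrix.mulVec_smul h (om y (t ^ (mu j : ℤ) • u j))]
      apply IV.sub
      · refine IV.smul ?_ (P.hu j hj)
        rw [← om_mulVec h hh]
        exact IV.om hyI (P.hw j hj)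
      · refine IV.smul ?_ (P.hw j hj)
        rw [← om_mulVec h hh]
        exact IV.om hyI (P.hu j hj)
    have hNI := hNint _ hpI hyP
    have e3 : om y (t ^ N • a) = om (t ^ N • proj S u w y) a := by
      rw [om_smul_right, om_smul_left, om_proj haP]
    rw [e3]
    exact IV.om hNI haI
  have hN0 : 0 ≤ N := by
    have hP' : Perp S u w (t ^ N • a) := fun j hj => by
      rw [om_smul_left, om_smul_left, (haP j hj).1, (haP j hj).2]; simp
    have h5 := hNint _ haL hP'
    have h6 := IV.om h5 hbI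
    rw [om_smul_left, om_smul_left, hab, mul_one, ← zpow_add₀ ht, h1] at h6
    omega
  obtain ⟨n, rfl⟩ := Int.eq_ofNat_of_zero_le hN0
  refine ⟨n, a, b, haP, hbP, hab, haI, hbI, haL, ?_⟩
  rw [hb, smul_smul, ← zpow_add₀ ht, neg_add_cancel, zpow_zero, one_smul]
  exact hx1

lemma exists_partial (ht : t ≠ 0) (h1 : ∀ n : ℤ, t ^ n ∈ O ↔ 0 ≤ n)
    (h2 : ∀ x : K, ∃ n : ℕ, t ^ n * x ∈ O)
    (h3 : ∀ x ∈ O, t⁻¹ * x ∉ O → x⁻¹ ∈ O)
    {h : Matrix (ι ⊕ ι) (ι ⊕ ι) K} (hh : h ∈ Matrix.symplecticGroup ι K)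
    (S : Finset ι) : ∃ (u w : ι → (ι ⊕ ι → K)) (mu : ι → ℕ), Prt O t h S u w mu := by
  induction S using Finset.induction_on with
  | empty => exact ⟨0, 0, 0, ⟨by simp, by simp, by simp, by simp, by simp, by simp, by simp⟩⟩
  | insert r S hr ih =>
    obtain ⟨u, w, mu, P⟩ := ih
    obtain ⟨N, a, b, haP, hbP, hab, haI, hbI, haL, hbL⟩ := step ht h1 h2 h3 hh P hr
    have hne : ∀ j ∈ S, j ≠ r := fun j hj hjr => hr (hjr ▸ hj)
    refine ⟨Function.update u r a, Function.update w r b, Function.update mu r N, ?_⟩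
    refine ⟨?_, ?_, ?_, ?_, ?_, ?_, ?_⟩
    · intro i hi j hj
      rcases Finset.mem_insert.1 hi with hir | hi <;> rcases Finset.mem_insert.1 hj with hjr | hj <;>
        (try rw [hir]) <;> (try rw [hjr])
      · simp [om_self]
      · simp [Function.update_of_ne (hne j hj), (haP j hj).1]
      · rw [om_swap]; simp [Function.update_of_ne (hne i hi), (haP i hi).1]
      · simp [Function.update_of_ne (hne j hj), Function.update_of_ne (hne i hi), P.uu i hi j hj]
    · intro i hi j hj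
      rcases Finset.mem_insert.1 hi with hir | hi <;> rcases Finset.mem_insert.1 hj with hjr | hj <;>
        (try rw [hir]) <;> (try rw [hjr])
      · simp [om_self]
      · simp [Function.update_of_ne (hne j hj), (hbP j hj).2]
      · rw [om_swap]; simp [Function.update_of_ne (hne i hi), (hbP i hi).2]
      · simp [Function.update_of_ne (hne j hj), Function.update_of_ne (hne i hi), P.ww i hi j hj]
    · intro i hi j hj
      rcases Finset.mem_insert.1 hi with hir | hi <;> rcases Finset.mem_insert.1 hj with hjr | hj <;>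
        (try rw [hir]) <;> (try rw [hjr])
      · simp [hab]
      · rw [if_neg (fun hh => hne j hj hh.symm)]
        simp [Function.update_of_ne (hne j hj), (haP j hj).2]
      · rw [om_swap, if_neg (fun hh => hne i hi hh)]
        simp [Function.update_of_ne (hne i hi), (hbP i hi).1]
      · simp [Function.update_of_ne (hne j hj), Function.update_of_ne (hne i hi), P.uw i hi j hj]
    · intro i hi
      rcases Finset.mem_insert.1 hi with rfl | hi
      · simpa using haI
      · simpa [Function.update_of_ne (hne i hi)] using P.iu i hi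
    · intro i hi
      rcases Finset.mem_insert.1 hi with rfl | hi
      · simpa using hbI
      · simpa [Function.update_of_ne (hne i hi)] using P.iw i hi
    · intro i hi
      rcases Finset.mem_insert.1 hi with rfl | hi
      · rw [Function.update_self, Function.update_self]; exact haL
      · rw [Function.update_of_ne (hne i hi), Function.update_of_ne (hne i hi)]; exact P.hu i hi
    · intro i hi
      rcases Finset.mem_insert.1 hi with rfl | hi
      · rw [Function.update_self, Function.update_self]; exact hbL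
      · rw [Function.update_of_ne (hne i hi), Function.update_of_ne (hne i hi)]; exact P.hw i hi

end Abstract

/-! ### The field of Laurent series -/

/-- the valuation -/
def vv : AddValuation F (WithTop ℤ) := HahnSeries.addVal ℤ ℂ

lemma isInt_iff (x : F) : IsInt x ↔ 0 ≤ vv x := by
  have hv : vv x = HahnSeries.orderTop (show LaurentSeries ℂ from x) := HahnSeries.addVal_apply
  rw [hv]
  constructor
  · intro h
    by_contra hcon
    push Not at hcon
    have hx : (show LaurentSeries ℂ from x) ≠ 0 := by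
      intro h0
      rw [h0, HahnSeries.orderTop_zero] at hcon
      exact absurd hcon (by simp)
    have h1 := fun h => hx (HahnSeries.coeff_order_eq_zero.1 h)
    apply h1
    apply h
    rw [← HahnSeries.order_eq_orderTop_of_ne_zero hx] at hcon
    exact_mod_cast hcon
  · intro h p hp
    apply HahnSeries.coeff_eq_zero_of_lt_orderTop
    exact lt_of_lt_of_le (by exact_mod_cast hp) h

/-- the ring of integers -/
def OO : Subring F where
  carrier := {x | IsInt x}
  mul_mem' := by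
    intro a b ha hb
    simp only [Set.mem_ofPred_eq, isInt_iff] at *
    rw [vv.map_mul]
    exact add_nonneg ha hb
  one_mem' := by
    simp only [Set.mem_ofPred_eq, isInt_iff, vv.map_one]
    exact le_refl _
  add_mem' := by
    intro a b ha hb
    simp only [Set.mem_ofPred_eq, isInt_iff] at *
    exact le_trans (le_min ha hb) (vv.map_add a b)
  zero_mem' := by
    simp only [Set.mem_ofPred_eq, isInt_iff, vv.map_zero]
    exact le_top
  neg_mem' := by
    intro a ha
    simp only [Set.mem_ofPred_eq, isInt_iff] at *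
    rwa [vv.map_neg]

lemma mem_OO (x : F) : x ∈ OO ↔ IsInt x := Iff.rfl

lemma mem_OO' (x : F) : x ∈ OO ↔ 0 ≤ vv x := isInt_iff x

lemma vv_tp (n : ℤ) : vv (tp n) = (n : WithTop ℤ) := by
  have : vv (tp n) = HahnSeries.orderTop (HahnSeries.single n (1:ℂ)) := HahnSeries.addVal_apply
  rw [this, HahnSeries.orderTop_single one_ne_zero]

lemma tp_zero : tp 0 = 1 := rfl

lemma tp_add (m n : ℤ) : tp (m + n) = tp m * tp n := by
  have : HahnSeries.single (m + n) (1 * 1 : ℂ) = HahnSeries.single m 1 * HahnSeries.single n 1 :=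
    (HahnSeries.single_mul_single).symm
  rw [one_mul] at this
  exact this

lemma tp_ne_zero (n : ℤ) : tp n ≠ 0 := by
  intro h
  have := tp_add n (-n)
  rw [add_neg_cancel, tp_zero, h, zero_mul] at this
  exact one_ne_zero this

lemma tp_eq (n : ℤ) : tp n = tp 1 ^ n := by
  induction n using Int.induction_on with
  | zero => rw [zpow_zero, tp_zero]
  | succ n ih => rw [tp_add, zpow_add₀ (tp_ne_zero 1), ih, zpow_one]
  | pred n ih =>
    have h := tp_add (-(n : ℤ) - 1) 1
    rw [sub_add_cancel, ih] at h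
    rw [zpow_sub₀ (tp_ne_zero 1), zpow_one, h, mul_div_assoc, div_self (tp_ne_zero 1), mul_one]

lemma hyp1 (n : ℤ) : tp 1 ^ n ∈ OO ↔ 0 ≤ n := by
  rw [← tp_eq, mem_OO', vv_tp]
  norm_cast

lemma hyp2 (x : F) : ∃ n : ℕ, tp 1 ^ n * x ∈ OO := by
  by_cases hx : x = 0
  · exact ⟨0, by rw [hx, mul_zero]; exact OO.zero_mem⟩
  · have hx' : vv x ≠ ⊤ := fun h => hx (vv.top_iff.1 h)
    obtain ⟨m, hm⟩ := WithTop.ne_top_iff_exists.1 hx'
    refine ⟨m.natAbs, ?_⟩
    rw [mem_OO', vv.map_mul, ← hm, ← zpow_natCast, ← tp_eq, vv_tp]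
    have := neg_abs_le m
    have h4 : (0 : ℤ) ≤ (m.natAbs : ℤ) + m := by omega
    exact_mod_cast h4

lemma hyp3 (x : F) (hx : x ∈ OO) (hx2 : (tp 1)⁻¹ * x ∉ OO) : x⁻¹ ∈ OO := by
  have hx0 : x ≠ 0 := by
    intro h
    rw [h, mul_zero] at hx2
    exact hx2 OO.zero_mem
  have hx' : vv x ≠ ⊤ := fun h => hx0 (vv.top_iff.1 h)
  obtain ⟨m, hm⟩ := WithTop.ne_top_iff_exists.1 hx'
  have hi' : vv x⁻¹ ≠ ⊤ := fun h => inv_ne_zero hx0 (vv.top_iff.1 h)
  obtain ⟨k, hk⟩ := WithTop.ne_top_iff_exists.1 hi'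
  have h1 : vv (x * x⁻¹) = 0 := by rw [mul_inv_cancel₀ hx0, vv.map_one]
  rw [vv.map_mul, ← hm, ← hk] at h1
  have h2 : m + k = 0 := by exact_mod_cast h1
  rw [mem_OO', ← hm] at hx
  have h3 : 0 ≤ m := by exact_mod_cast hx
  have e : (tp 1)⁻¹ = tp (-1) := by rw [tp_eq (-1), _root_.zpow_neg_one]
  rw [mem_OO', vv.map_mul, e, vv_tp, ← hm] at hx2
  have h4 : ¬ (0 ≤ -1 + m) := by
    intro hh
    apply hx2
    exact_mod_cast hh
  rw [mem_OO', ← hk]
  have : k = 0 := by omega
  rw [this]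
  exact le_refl _

/-- **Target.** Cartan decomposition of the symplectic group over `ℂ((t))`. -/
theorem cartan {k : ℕ} (g : Matrix (Fin k ⊕ Fin k) (Fin k ⊕ Fin k) F)
    (hg : g ∈ Matrix.symplecticGroup (Fin k) F) :
    ∃ a b : Matrix (Fin k ⊕ Fin k) (Fin k ⊕ Fin k) F, ∃ mu : Fin k → ℕ,
      a ∈ Matrix.symplecticGroup (Fin k) F ∧ b ∈ Matrix.symplecticGroup (Fin k) F ∧
      (∀ i j, IsInt (a i j)) ∧ (∀ i j, IsInt (b i j)) ∧ Antitone mu ∧
      g = a * Matrix.diagonal (Sum.elim (fun j => tp (mu j)) (fun j => tp (-(mu j : ℤ)))) * b := by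
  -- the inverse of `g`
  let gs : Matrix.symplecticGroup (Fin k) F := ⟨g, hg⟩
  let h : Matrix (Fin k ⊕ Fin k) (Fin k ⊕ Fin k) F := (gs⁻¹ : Matrix.symplecticGroup (Fin k) F)
  have hh : h ∈ Matrix.symplecticGroup (Fin k) F := (gs⁻¹).2
  have hgh : g * h = 1 := congrArg Subtype.val (mul_inv_cancel gs)
  obtain ⟨u, w, mu, P⟩ := exists_partial (tp_ne_zero 1) hyp1 hyp2 hyp3 hh Finset.univ
  -- sort
  obtain ⟨σ, hσ⟩ : ∃ σ : Equiv.Perm (Fin k), Antitone (mu ∘ σ) := by
    refine ⟨Tuple.sort (fun i => OrderDual.toDual (mu i)), ?_⟩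
    have := Tuple.monotone_sort (fun i => OrderDual.toDual (mu i))
    intro i j hij
    exact this hij
  let a : Matrix (Fin k ⊕ Fin k) (Fin k ⊕ Fin k) F :=
    Matrix.of fun p q => Sum.elim (fun j => u (σ j) p) (fun j => w (σ j) p) q
  let D : Matrix (Fin k ⊕ Fin k) (Fin k ⊕ Fin k) F :=
    Matrix.diagonal (Sum.elim (fun j => tp (mu (σ j))) (fun j => tp (-(mu (σ j) : ℤ))))
  have ha : a ∈ Matrix.symplecticGroup (Fin k) F := by
    rw [SymplecticGroup.mem_iff']
    ext p q
    have e : (aᵀ * Matrix.J (Fin k) F * a) p q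
        = (fun r => a r p) ⬝ᵥ (Matrix.J (Fin k) F *ᵥ (fun r => a r q)) := by
      rw [Matrix.mul_assoc]; rfl
    rw [e, om_eq_J]
    rcases p with i | i <;> rcases q with j | j
    · have := P.uu (σ i) (Finset.mem_univ _) (σ j) (Finset.mem_univ _)
      simpa [Matrix.J, a] using this
    · have := P.uw (σ i) (Finset.mem_univ _) (σ j) (Finset.mem_univ _)
      simp only [EmbeddingLike.apply_eq_iff_eq] at this
      simpa [Matrix.J, a, Matrix.one_apply] using this
    · have := P.uw (σ j) (Finset.mem_univ _) (σ i) (Finset.mem_univ _)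
      rw [om_swap] at this
      simp only [EmbeddingLike.apply_eq_iff_eq] at this
      simpa [Matrix.J, a, Matrix.one_apply, eq_comm] using this
    · have := P.ww (σ i) (Finset.mem_univ _) (σ j) (Finset.mem_univ _)
      simpa [Matrix.J, a] using this
  have hD : D ∈ Matrix.symplecticGroup (Fin k) F := by
    have e : D = Matrix.fromBlocks (Matrix.diagonal fun j => tp (mu (σ j))) 0 0
        (Matrix.diagonal fun j => tp (-(mu (σ j) : ℤ))) :=
      (Matrix.fromBlocks_diagonal _ _).symm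
    rw [e, SymplecticGroup.fromBlocks_mem_iff]
    refine ⟨by simp, by simp, ?_⟩
    simp only [Matrix.diagonal_transpose, Matrix.diagonal_mul_diagonal, Matrix.transpose_zero,
      Matrix.zero_mul, sub_zero, ← tp_add, add_neg_cancel, tp_zero]
    exact Matrix.diagonal_one
  have haI : ∀ i j, a i j ∈ OO := by
    intro p q
    rcases q with j | j
    · exact P.iu (σ j) (Finset.mem_univ _) p
    · exact P.iw (σ j) (Finset.mem_univ _) p
  -- `X = g⁻¹ a D`
  let X : Matrix (Fin k ⊕ Fin k) (Fin k ⊕ Fin k) F := h * (a * D)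
  have hX : X ∈ Matrix.symplecticGroup (Fin k) F := mul_mem hh (mul_mem ha hD)
  have hXI : ∀ i j, X i j ∈ OO := by
    intro p q
    have e : X p q = (h *ᵥ (fun r => (a * D) r q)) p := rfl
    rw [e]
    have e2 : (fun r => (a * D) r q) = fun r => a r q * Sum.elim (fun j => tp (mu (σ j))) (fun j => tp (-(mu (σ j) : ℤ))) q := by
      ext r
      simp [D, Matrix.mul_diagonal]
    rw [e2]
    rcases q with j | j
    · have := P.hu (σ j) (Finset.mem_univ _) p
      rw [← tp_eq] at this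
      convert this using 3
      simp [a, mul_comm]
    · have := P.hw (σ j) (Finset.mem_univ _) p
      rw [← tp_eq] at this
      convert this using 3
      simp [a, mul_comm]
  let Xs : Matrix.symplecticGroup (Fin k) F := ⟨X, hX⟩
  let b : Matrix (Fin k ⊕ Fin k) (Fin k ⊕ Fin k) F := (Xs⁻¹ : Matrix.symplecticGroup (Fin k) F)
  have hXb : X * b = 1 := congrArg Subtype.val (mul_inv_cancel Xs)
  have hb : b = -Matrix.J (Fin k) F * Xᵀ * Matrix.J (Fin k) F := SymplecticGroup.coe_inv Xs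
  have hJ : ∀ i j, Matrix.J (Fin k) F i j ∈ OO := by
    intro p q
    rcases p with i | i <;> rcases q with j | j <;> simp [Matrix.J, Matrix.one_apply]
    · split_ifs
      · exact OO.one_mem
      · exact OO.zero_mem
    · split_ifs
      · exact OO.one_mem
      · exact OO.zero_mem
  have hmul : ∀ (A B : Matrix (Fin k ⊕ Fin k) (Fin k ⊕ Fin k) F), (∀ i j, A i j ∈ OO) →
      (∀ i j, B i j ∈ OO) → ∀ i j, (A * B) i j ∈ OO := by
    intro A B hA hB i j
    rw [Matrix.mul_apply]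
    exact OO.sum_mem fun l _ => OO.mul_mem (hA _ _) (hB _ _)
  refine ⟨a, b, mu ∘ σ, ha, (Xs⁻¹).2, haI, ?_, hσ, ?_⟩
  · intro i j
    rw [← mem_OO, hb]
    apply hmul _ _ _ hJ
    apply hmul
    · intro i j
      exact OO.neg_mem (hJ i j)
    · intro i j
      exact hXI j i
  · change g = a * D * b
    have e1 : g * X = a * D := by
      change g * (h * (a * D)) = a * D
      rw [← Matrix.mul_assoc, hgh, Matrix.one_mul]
    rw [← e1, Matrix.mul_assoc, hXb, Matrix.mul_one]

end Pool.Agent.H143_GC.CD
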