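import Mathlib
import Pool.Agent.H143_GC.Old

/-!
Iwasawa decomposition of the symplectic group over the Laurent series by symplectic transvections (job 10, helper723).
-/

noncomputable section

open Matrix

namespace Pool.Agent.H143_GC

/-! ### The valuation -/

/-- the valuation of `F` -/
def aux_vl : AddValuation F (WithTop ℤ) :=
  (HahnSeries.addVal ℤ ℂ : AddValuation (LaurentSeries ℂ) (WithTop ℤ))

lemma aux_vl_apply (x : F) : aux_vl x = HahnSeries.orderTop (show LaurentSeries ℂ from x) := rfl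

lemma aux_int_iff (x : F) : IsInt x ↔ 0 ≤ aux_vl x := by
  rw [aux_vl_apply]
  constructor
  · intro h
    by_contra hlt
    push Not at hlt
    have hne : (HahnSeries.orderTop (show LaurentSeries ℂ from x)) ≠ ⊤ := ne_top_of_lt hlt
    obtain ⟨g, hg⟩ := WithTop.ne_top_iff_exists.1 hne
    have h1 := HahnSeries.coeff_orderTop_ne hg.symm
    apply h1
    apply h
    rw [← hg] at hlt
    exact_mod_cast hlt
  · intro h p hp
    apply HahnSeries.coeff_eq_zero_of_lt_orderTop
    refine lt_of_lt_of_le ?_ h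
    exact_mod_cast hp

lemma aux_int_add {x y : F} (hx : IsInt x) (hy : IsInt y) : IsInt (x + y) := by
  rw [aux_int_iff] at *
  exact le_trans (le_min hx hy) (aux_vl.map_add x y)

lemma aux_int_mul {x y : F} (hx : IsInt x) (hy : IsInt y) : IsInt (x * y) := by
  rw [aux_int_iff] at *
  rw [aux_vl.map_mul]
  exact add_nonneg hx hy

lemma aux_int_neg {x : F} (hx : IsInt x) : IsInt (-x) := by
  rw [aux_int_iff] at *
  rwa [aux_vl.map_neg]

lemma aux_int_sub {x y : F} (hx : IsInt x) (hy : IsInt y) : IsInt (x - y) := by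
  rw [sub_eq_add_neg]; exact aux_int_add hx (aux_int_neg hy)

lemma aux_int_zero : IsInt (0 : F) := by
  rw [aux_int_iff, aux_vl.map_zero]; exact le_top

lemma aux_int_one : IsInt (1 : F) := by
  rw [aux_int_iff, aux_vl.map_one]

lemma aux_int_sum {ι : Type*} (s : Finset ι) (f : ι → F) (h : ∀ i ∈ s, IsInt (f i)) :
    IsInt (∑ i ∈ s, f i) := by
  classical
  induction s using Finset.induction_on with
  | empty => simpa using aux_int_zero
  | insert a s ha ih =>
    rw [Finset.sum_insert ha]
    exact aux_int_add (h a (Finset.mem_insert_self a s))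
      (ih fun i hi => h i (Finset.mem_insert_of_mem hi))

lemma aux_unit_ne {x : F} (hx : aux_vl x = 0) : x ≠ 0 := by
  rintro rfl
  rw [aux_vl.map_zero] at hx
  exact absurd hx (by simp)

lemma aux_unit_inv {x : F} (hx : aux_vl x = 0) : IsInt x⁻¹ := by
  rw [aux_int_iff]
  have h := aux_vl.map_mul x x⁻¹
  rw [mul_inv_cancel₀ (aux_unit_ne hx), aux_vl.map_one, hx, zero_add] at h
  rw [← h]

lemma aux_unit_add {x y : F} (hx : 0 < aux_vl x) (hy : aux_vl y = 0) : aux_vl (x + y) = 0 := by
  have h1 : (0 : WithTop ℤ) ≤ aux_vl (x + y) :=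
    le_trans (le_min hx.le hy.ge) (aux_vl.map_add x y)
  by_contra hne
  have h2 : 0 < aux_vl (x + y) := lt_of_le_of_ne h1 (Ne.symm hne)
  have h3 := aux_vl.map_sub (x + y) x
  rw [add_sub_cancel_left, hy] at h3
  exact absurd (lt_of_lt_of_le (lt_min h2 hx) h3) (lt_irrefl _)

/-! ### The form and transvections -/

section form

variable {A : Type} [Fintype A] [DecidableEq A]

/-- the form -/
def aux_om (u v : A ⊕ A → F) : F :=
  ∑ c : A, (u (Sum.inr c) * v (Sum.inl c) - u (Sum.inl c) * v (Sum.inr c))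

/-- the vector `J u` -/
def aux_ju (u : A ⊕ A → F) : A ⊕ A → F :=
  Sum.elim (fun c => - u (Sum.inr c)) (fun c => u (Sum.inl c))

omit [DecidableEq A] in
lemma aux_om_eq (x u : A ⊕ A → F) : aux_om x u = x ⬝ᵥ aux_ju u := by
  unfold aux_om aux_ju dotProduct
  rw [Fintype.sum_sum_type]
  simp only [Sum.elim_inl, Sum.elim_inr]
  rw [← Finset.sum_add_distrib]
  refine Finset.sum_congr rfl fun c _ => ?_
  ring

omit [DecidableEq A] in
lemma aux_om_add_left (x y u : A ⊕ A → F) : aux_om (x + y) u = aux_om x u + aux_om y u := by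
  rw [aux_om_eq, aux_om_eq, aux_om_eq, add_dotProduct]

omit [DecidableEq A] in
lemma aux_om_smul_left (c : F) (x u : A ⊕ A → F) : aux_om (c • x) u = c * aux_om x u := by
  rw [aux_om_eq, aux_om_eq, smul_dotProduct, smul_eq_mul]

omit [DecidableEq A] in
lemma aux_om_swap (x u : A ⊕ A → F) : aux_om u x = - aux_om x u := by
  unfold aux_om
  rw [← Finset.sum_neg_distrib]
  refine Finset.sum_congr rfl fun c _ => ?_
  ring

omit [DecidableEq A] in
lemma aux_om_self (x : A ⊕ A → F) : aux_om x x = 0 := by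
  unfold aux_om
  refine Finset.sum_eq_zero fun c _ => ?_
  ring

omit [DecidableEq A] in
lemma aux_om_add_right (x y u : A ⊕ A → F) : aux_om u (x + y) = aux_om u x + aux_om u y := by
  rw [aux_om_swap (x + y) u, aux_om_add_left, aux_om_swap u x, aux_om_swap u y]; ring

omit [DecidableEq A] in
lemma aux_om_smul_right (c : F) (x u : A ⊕ A → F) : aux_om u (c • x) = c * aux_om u x := by
  rw [aux_om_swap (c • x) u, aux_om_smul_left, aux_om_swap u x]; ring

omit [DecidableEq A] in
lemma aux_om_sub_right (x y u : A ⊕ A → F) : aux_om u (x - y) = aux_om u x - aux_om u y := by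
  have : x - y = x + (-1 : F) • y := by
    rw [neg_smul, one_smul, sub_eq_add_neg]
  rw [this, aux_om_add_right, aux_om_smul_right]; ring

lemma aux_mem_iff (g : Matrix (A ⊕ A) (A ⊕ A) F) :
    g ∈ Matrix.symplecticGroup A F ↔ ∀ a b, aux_om (g a) (g b) = J A F a b := by
  rw [SymplecticGroup.mem_iff, ← Matrix.ext_iff]
  refine forall_congr' fun a => forall_congr' fun b => ?_
  have : (g * J A F * gᵀ) a b = aux_om (g a) (g b) := by
    rw [Matrix.mul_assoc, Matrix.mul_apply, Fintype.sum_sum_type]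
    unfold aux_om
    rw [← Finset.sum_add_distrib]
    refine Finset.sum_congr rfl fun c _ => ?_
    have h1 : (J A F * gᵀ) (Sum.inl c) b = - g b (Sum.inr c) := by
      rw [Matrix.mul_apply, Fintype.sum_sum_type]
      simp [J, Matrix.one_apply]
    have h2 : (J A F * gᵀ) (Sum.inr c) b = g b (Sum.inl c) := by
      rw [Matrix.mul_apply, Fintype.sum_sum_type]
      simp [J, Matrix.one_apply]
    rw [h1, h2]
    ring
  rw [this]

/-- a transvection -/
def aux_T (u : A ⊕ A → F) (c : F) : Matrix (A ⊕ A) (A ⊕ A) F :=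
  1 + Matrix.vecMulVec (c • aux_ju u) u

lemma aux_mul_T (g : Matrix (A ⊕ A) (A ⊕ A) F) (u : A ⊕ A → F) (c : F) (a : A ⊕ A) :
    (g * aux_T u c) a = g a + (c * aux_om (g a) u) • u := by
  unfold aux_T
  rw [Matrix.mul_add, Matrix.mul_one, Matrix.mul_vecMulVec]
  funext b
  rw [Matrix.add_apply, Matrix.vecMulVec_apply, Matrix.mulVec_smul, Pi.add_apply, Pi.smul_apply,
    Pi.smul_apply, smul_eq_mul, smul_eq_mul, aux_om_eq]
  rfl

lemma aux_T_row (u : A ⊕ A → F) (c : F) (a : A ⊕ A) :
    aux_T u c a = (1 : Matrix (A ⊕ A) (A ⊕ A) F) a +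
      (c * aux_om ((1 : Matrix (A ⊕ A) (A ⊕ A) F) a) u) • u := by
  rw [← aux_mul_T, Matrix.one_mul]

lemma aux_T_mem (u : A ⊕ A → F) (c : F) : aux_T u c ∈ Matrix.symplecticGroup A F := by
  rw [aux_mem_iff]
  intro a b
  have h1 := (aux_mem_iff (1 : Matrix (A ⊕ A) (A ⊕ A) F)).1 (one_mem _) a b
  rw [aux_T_row, aux_T_row, aux_om_add_left, aux_om_add_right, aux_om_add_right, aux_om_smul_left,
    aux_om_smul_right, aux_om_smul_left, aux_om_smul_right, aux_om_self, h1,
    aux_om_swap ((1 : Matrix (A ⊕ A) (A ⊕ A) F) b) u]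
  ring

lemma aux_T_mul (u : A ⊕ A → F) (c : F) : aux_T u c * aux_T u (-c) = 1 := by
  refine funext fun a => ?_
  rw [aux_mul_T, aux_T_row, aux_om_add_left, aux_om_smul_left, aux_om_self, mul_zero, add_zero,
    neg_mul, neg_smul, add_neg_cancel_right]

omit [Fintype A] in
lemma aux_T_int (u : A ⊕ A → F) (c : F) (hu : ∀ a, IsInt (u a)) (hc : IsInt c) (a b : A ⊕ A) :
    IsInt (aux_T u c a b) := by
  unfold aux_T
  rw [Matrix.add_apply, Matrix.vecMulVec_apply, Pi.smul_apply, smul_eq_mul]
  refine aux_int_add ?_ (aux_int_mul (aux_int_mul hc ?_) (hu b))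
  · rw [Matrix.one_apply]
    split_ifs
    · exact aux_int_one
    · exact aux_int_zero
  · rcases a with a | a
    · exact aux_int_neg (hu _)
    · exact hu _

omit [DecidableEq A] in
lemma aux_om_int (u v : A ⊕ A → F) (hu : ∀ a, IsInt (u a)) (hv : ∀ a, IsInt (v a)) :
    IsInt (aux_om u v) := by
  unfold aux_om
  exact aux_int_sum _ _ fun c _ =>
    aux_int_sub (aux_int_mul (hu _) (hv _)) (aux_int_mul (hu _) (hv _))

lemma aux_om_single_inl (u : A ⊕ A → F) (c : A) :
    aux_om u (Pi.single (Sum.inl c) 1) = u (Sum.inr c) := by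
  unfold aux_om
  rw [Finset.sum_eq_single c]
  · simp
  · intro b _ hb
    simp [hb]
  · intro h
    exact absurd (Finset.mem_univ c) h

lemma aux_om_single_inr (u : A ⊕ A → F) (c : A) :
    aux_om u (Pi.single (Sum.inr c) 1) = - u (Sum.inl c) := by
  unfold aux_om
  rw [Finset.sum_eq_single c]
  · simp
  · intro b _ hb
    simp [hb]
  · intro h
    exact absurd (Finset.mem_univ c) h

end form

/-! ### The induction -/

variable {l k : ℕ}

/-- index `e_i` -/
def aux_e (i : Fin (l + 1)) : Idx l k := Sum.inl (Sum.inl i)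

/-- index `f_i` -/
def aux_f (i : Fin (l + 1)) : Idx l k := Sum.inr (Sum.inl i)

/-- supported away from `e_j, f_j`, `j < m` -/
def aux_Sup (m : ℕ) (u : Idx l k → F) : Prop :=
  ∀ j : Fin (l + 1), (j : ℕ) < m → u (aux_e j) = 0 ∧ u (aux_f j) = 0

/-- the invariant -/
def aux_Inv (m : ℕ) (p : Matrix (Idx l k) (Idx l k) F) : Prop :=
  InSp p ∧ ∀ i : Fin (l + 1), (i : ℕ) < m →
    (∀ b, wt b < wt (aux_e i : Idx l k) → p (aux_e i) b = 0) ∧ p (aux_e i) (aux_e i) ≠ 0

lemma aux_Inv_om {m : ℕ} {p : Matrix (Idx l k) (Idx l k) F} (hp : aux_Inv m p)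
    {i : Fin (l + 1)} (hi : (i : ℕ) < m) {u : Idx l k → F} (hu : aux_Sup m u) :
    aux_om (p (aux_e i)) u = 0 := by
  unfold aux_om
  refine Finset.sum_eq_zero fun c _ => ?_
  have hf : p (aux_e i) (Sum.inr c) = 0 := by
    apply (hp.2 i hi).1
    have h1 : 0 < wt (aux_e i : Idx l k) := by
      simp only [aux_e, wt]
      have := i.2
      omega
    refine lt_of_le_of_lt ?_ h1
    rcases c with c | c
    · simp only [wt]
      have := c.2
      omega
    · simp [wt]
  rw [hf, zero_mul, zero_sub, neg_eq_zero]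
  rcases c with c | c
  · by_cases hc : (c : ℕ) < m
    · have := (hu c hc).2
      simp only [aux_f] at this
      rw [this, mul_zero]
    · have : p (aux_e i) (Sum.inl (Sum.inl c)) = 0 := by
        apply (hp.2 i hi).1
        simp only [aux_e, wt]
        omega
      rw [this, zero_mul]
  · have : p (aux_e i) (Sum.inl (Sum.inr c)) = 0 := by
      apply (hp.2 i hi).1
      simp only [aux_e, wt]
      have := i.2
      omega
    rw [this, zero_mul]

/-- Lemma A -/
lemma aux_lemA {m : ℕ} {p : Matrix (Idx l k) (Idx l k) F} (hp : aux_Inv m p) :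
    ∀ n : ℕ, ∀ i : Fin (l + 1), (i : ℕ) = n → (i : ℕ) < m → ∀ a : Idx l k,
      (∀ j : Fin (l + 1), j ≤ i → a ≠ aux_f j) → p a (aux_f i) = 0 := by
  intro n
  induction n using Nat.strong_induction_on with
  | _ n ih =>
    intro i hin him a ha
    have h1 := (aux_mem_iff p).1 hp.1 a (aux_e i)
    have h2 : J (Fin (l + 1) ⊕ Fin k) F a (aux_e i) = 0 := by
      rcases a with a | a
      · simp [J, aux_e]
      · have : a ≠ Sum.inl i := by
          intro h
          exact ha i le_rfl (by rw [h]; rfl)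
        simp [J, aux_e, this]
    rw [h2] at h1
    unfold aux_om at h1
    rw [Finset.sum_eq_single (Sum.inl i)] at h1
    · have hf : p (aux_e i) (Sum.inr (Sum.inl i)) = 0 := by
        apply (hp.2 i him).1
        simp only [aux_e, wt]
        have := i.2
        omega
      rw [hf, mul_zero, sub_zero] at h1
      rcases mul_eq_zero.1 h1 with h | h
      · exact h
      · exact absurd h (hp.2 i him).2
    · intro c _ hc
      have hf : p (aux_e i) (Sum.inr c) = 0 := by
        apply (hp.2 i him).1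
        have h1 : 0 < wt (aux_e i : Idx l k) := by
          simp only [aux_e, wt]
          have := i.2
          omega
        refine lt_of_le_of_lt ?_ h1
        rcases c with c | c
        · simp only [wt]
          have := c.2
          omega
        · simp [wt]
      rw [hf, mul_zero, sub_zero]
      rcases c with c | c
      · rcases lt_trichotomy (c : ℕ) (i : ℕ) with h | h | h
        · have := ih c (by omega) c rfl (by omega) a (fun j hj => ha j (le_trans hj (by
            rw [Fin.le_def]; omega)))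
          simp only [aux_f] at this
          rw [this, zero_mul]
        · exact absurd (by rw [Fin.ext h]) hc
        · have : p (aux_e i) (Sum.inl (Sum.inl c)) = 0 := by
            apply (hp.2 i him).1
            simp only [aux_e, wt]
            omega
          rw [this, mul_zero]
      · have : p (aux_e i) (Sum.inl (Sum.inr c)) = 0 := by
          apply (hp.2 i him).1
          simp only [aux_e, wt]
          have := i.2
          omega
        rw [this, mul_zero]
    · intro h
      exact absurd (Finset.mem_univ _) h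

/-- the remaining part of the row `e_m` is nonzero -/
lemma aux_nonvan {m : ℕ} (hm : m < l + 1) {p : Matrix (Idx l k) (Idx l k) F} (hp : aux_Inv m p) :
    ∃ b : Idx l k, (∀ j : Fin (l + 1), (j : ℕ) < m → b ≠ aux_e j ∧ b ≠ aux_f j) ∧
      p (aux_e ⟨m, hm⟩) b ≠ 0 := by
  by_contra hcon
  push Not at hcon
  have h1 := (aux_mem_iff p).1 hp.1 (aux_e ⟨m, hm⟩) (aux_f ⟨m, hm⟩)
  have h2 : J (Fin (l + 1) ⊕ Fin k) F (aux_e ⟨m, hm⟩) (aux_f ⟨m, hm⟩) = -1 := by
    simp [J, aux_e, aux_f]
  rw [h2] at h1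
  have h3 : aux_om (p (aux_e ⟨m, hm⟩)) (p (aux_f ⟨m, hm⟩)) = 0 := by
    unfold aux_om
    refine Finset.sum_eq_zero fun c _ => ?_
    have hA : ∀ j : Fin (l + 1), (j : ℕ) < m → p (aux_e ⟨m, hm⟩) (aux_f j) = 0 := by
      intro j hj
      exact aux_lemA hp j j rfl hj _ (fun j' _ => by simp [aux_e, aux_f])
    have hB : ∀ j : Fin (l + 1), (j : ℕ) < m → p (aux_f ⟨m, hm⟩) (aux_f j) = 0 := by
      intro j hj
      refine aux_lemA hp j j rfl hj _ (fun j' hj' => ?_)
      simp only [aux_f, ne_eq, Sum.inr.injEq, Sum.inl.injEq]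
      rw [Fin.le_def] at hj'
      intro h
      rw [← h] at hj'
      simp only at hj'
      omega
    by_cases hc : ∃ j : Fin (l + 1), (j : ℕ) < m ∧ c = Sum.inl j
    · obtain ⟨j, hj, rfl⟩ := hc
      have e1 := hA j hj
      have e2 := hB j hj
      simp only [aux_f] at e1 e2
      simp only [aux_f]
      rw [e1, e2]
      ring
    · push Not at hc
      have e1 : p (aux_e ⟨m, hm⟩) (Sum.inr c) = 0 := by
        apply hcon
        intro j hj
        constructor
        · simp [aux_e]
        · simp only [aux_f, ne_eq, Sum.inr.injEq]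
          exact hc j hj
      have e2 : p (aux_e ⟨m, hm⟩) (Sum.inl c) = 0 := by
        apply hcon
        intro j hj
        constructor
        · simp only [aux_e, ne_eq, Sum.inl.injEq]
          exact hc j hj
        · simp [aux_f]
      rw [e1, e2]
      ring
  rw [h3] at h1
  exact absurd h1 (by simp)

/-- equivalence up to an integral symplectic matrix -/
def aux_R (p p' : Matrix (Idx l k) (Idx l k) F) : Prop :=
  ∃ h : Matrix (Idx l k) (Idx l k) F, InGO h ∧ p = p' * h

lemma aux_GO_mul {h h' : Matrix (Idx l k) (Idx l k) F} (hh : InGO h) (hh' : InGO h') :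
    InGO (h * h') := by
  have h1 : h ∈ Matrix.symplecticGroup (Fin (l + 1) ⊕ Fin k) F := hh.1
  have h2 : h' ∈ Matrix.symplecticGroup (Fin (l + 1) ⊕ Fin k) F := hh'.1
  have h3 := mul_mem h1 h2
  refine ⟨h3, fun a b => ?_⟩
  rw [Matrix.mul_apply]
  exact aux_int_sum _ _ fun c _ => aux_int_mul (hh.2 _ _) (hh'.2 _ _)

lemma aux_GO_one : InGO (1 : Matrix (Idx l k) (Idx l k) F) := by
  refine ⟨one_mem (Matrix.symplecticGroup (Fin (l + 1) ⊕ Fin k) F), fun a b => ?_⟩
  rw [Matrix.one_apply]
  split_ifs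
  · exact aux_int_one
  · exact aux_int_zero

lemma aux_R_trans {p p' p'' : Matrix (Idx l k) (Idx l k) F} (h1 : aux_R p p') (h2 : aux_R p' p'') :
    aux_R p p'' := by
  obtain ⟨h, hh, e⟩ := h1
  obtain ⟨h', hh', e'⟩ := h2
  exact ⟨h' * h, aux_GO_mul hh' hh, by rw [e, e', Matrix.mul_assoc]⟩

lemma aux_R_T (p : Matrix (Idx l k) (Idx l k) F) (u : Idx l k → F) (c : F)
    (hu : ∀ a, IsInt (u a)) (hc : IsInt c) : aux_R p (p * aux_T u c) := by
  refine ⟨aux_T u (-c), ⟨aux_T_mem _ _, aux_T_int _ _ hu (aux_int_neg hc)⟩, ?_⟩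
  rw [Matrix.mul_assoc, aux_T_mul, Matrix.mul_one]

lemma aux_Inv_T {m : ℕ} {p : Matrix (Idx l k) (Idx l k) F} (hp : aux_Inv m p)
    {u : Idx l k → F} (hu : aux_Sup m u) (c : F) : aux_Inv m (p * aux_T u c) := by
  refine ⟨mul_mem hp.1 (aux_T_mem _ _), fun i hi => ?_⟩
  have : (p * aux_T u c) (aux_e i) = p (aux_e i) := by
    rw [aux_mul_T, aux_Inv_om hp hi hu, mul_zero, zero_smul, add_zero]
  rw [this]
  exact hp.2 i hi

/-- restriction to the remaining indices -/
def aux_res (m : ℕ) (u : Idx l k → F) : Idx l k → F := by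
  classical
  exact fun b => if ∃ j : Fin (l + 1), (j : ℕ) < m ∧ (b = aux_e j ∨ b = aux_f j) then 0 else u b

lemma aux_res_sup (m : ℕ) (u : Idx l k → F) : aux_Sup m (aux_res m u) := by
  intro j hj
  unfold aux_res
  constructor
  · rw [if_pos ⟨j, hj, Or.inl rfl⟩]
  · rw [if_pos ⟨j, hj, Or.inr rfl⟩]

lemma aux_res_of {m : ℕ} {u : Idx l k → F} (b : Idx l k)
    (hb : ∀ j : Fin (l + 1), (j : ℕ) < m → b ≠ aux_e j ∧ b ≠ aux_f j) : aux_res m u b = u b := by
  unfold aux_res
  rw [if_neg]
  rintro ⟨j, hj, h | h⟩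
  · exact (hb j hj).1 h
  · exact (hb j hj).2 h

lemma aux_om_res {m : ℕ} (x : Idx l k → F) {u : Idx l k → F} (hu : aux_Sup m u) :
    aux_om x u = aux_om (aux_res m x) u := by
  unfold aux_om
  refine Finset.sum_congr rfl fun c _ => ?_
  by_cases hc : ∃ j : Fin (l + 1), (j : ℕ) < m ∧ c = Sum.inl j
  · obtain ⟨j, hj, rfl⟩ := hc
    have h1 := (hu j hj).1
    have h2 := (hu j hj).2
    simp only [aux_e, aux_f] at h1 h2
    rw [h1, h2]
    ring
  · push Not at hc
    rw [aux_res_of (u := x) (Sum.inr c), aux_res_of (u := x) (Sum.inl c)]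
    · intro j hj
      constructor
      · simp only [aux_e, ne_eq, Sum.inl.injEq]
        exact hc j hj
      · simp [aux_f]
    · intro j hj
      constructor
      · simp [aux_e]
      · simp only [aux_f, ne_eq, Sum.inr.injEq]
        exact hc j hj

lemma aux_res_add (m : ℕ) (x y : Idx l k → F) : aux_res m (x + y) = aux_res m x + aux_res m y := by
  funext b
  unfold aux_res
  simp only [Pi.add_apply]
  split_ifs <;> simp

lemma aux_res_sup_eq {m : ℕ} {u : Idx l k → F} (hu : aux_Sup m u) : aux_res m u = u := by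
  funext b
  unfold aux_res
  split_ifs with h
  · obtain ⟨j, hj, rfl | rfl⟩ := h
    · exact (hu j hj).1.symm
    · exact (hu j hj).2.symm
  · rfl

/-- the move -/
lemma aux_move {m : ℕ} (hm : m < l + 1) {p : Matrix (Idx l k) (Idx l k) F} (hp : aux_Inv m p)
    (s : F) (v w : Idx l k → F) (hv : aux_Sup m v) (hw : aux_Sup m w)
    (hvi : ∀ a, IsInt (v a)) (hwi : ∀ a, IsInt (w a))
    (hr : aux_res m (p (aux_e ⟨m, hm⟩)) = s • v) (hvw : aux_vl (aux_om v w) = 0) :
    ∃ p', aux_R p p' ∧ aux_Inv m p' ∧ aux_res m (p' (aux_e ⟨m, hm⟩)) = s • w := by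
  have hu : aux_Sup m (w - v) := by
    intro j hj
    simp only [Pi.sub_apply]
    rw [(hv j hj).1, (hv j hj).2, (hw j hj).1, (hw j hj).2]
    simp
  have hui : ∀ a, IsInt ((w - v) a) := fun a => aux_int_sub (hwi a) (hvi a)
  have hc := aux_unit_inv hvw
  refine ⟨p * aux_T (w - v) (aux_om v w)⁻¹, aux_R_T _ _ _ hui hc, aux_Inv_T hp hu _, ?_⟩
  rw [aux_mul_T, aux_res_add, hr, aux_om_res _ hu, hr, aux_om_smul_left, aux_om_sub_right,
    aux_om_self, sub_zero]
  have h1 : (aux_om v w)⁻¹ * (s * aux_om v w) = s := by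
    rw [mul_comm s, ← mul_assoc, inv_mul_cancel₀ (aux_unit_ne hvw), one_mul]
  rw [h1]
  have h2 : aux_Sup m (s • (w - v)) := by
    intro j hj
    simp only [Pi.smul_apply]
    rw [(hu j hj).1, (hu j hj).2]
    simp
  rw [aux_res_sup_eq h2, smul_sub]
  abel

/-- the index dual to `b` -/
def aux_dual : Idx l k → Idx l k
  | Sum.inl a => Sum.inr a
  | Sum.inr a => Sum.inl a

lemma aux_step {m : ℕ} (hm : m < l + 1) {p : Matrix (Idx l k) (Idx l k) F} (hp : aux_Inv m p) :
    ∃ p', aux_R p p' ∧ aux_Inv (m + 1) p' := by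
  classical
  set r := aux_res m (p (aux_e ⟨m, hm⟩)) with hr
  -- minimal entry
  obtain ⟨b0, hb0, hb0'⟩ := aux_nonvan hm hp
  obtain ⟨b, -, hb⟩ := Finset.exists_min_image (Finset.univ : Finset (Idx l k))
    (fun b => aux_vl (r b)) ⟨b0, Finset.mem_univ _⟩
  have hrb : r b ≠ 0 := by
    intro h
    have h1 := hb b0 (Finset.mem_univ _)
    simp only [h, aux_vl.map_zero, top_le_iff] at h1
    have h2 : r b0 = 0 := aux_vl.top_iff.1 h1
    rw [hr, aux_res_of b0 hb0] at h2
    exact hb0' h2
  have hbR : ∀ j : Fin (l + 1), (j : ℕ) < m → b ≠ aux_e j ∧ b ≠ aux_f j := by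
    intro j hj
    have h1 := aux_res_sup m (p (aux_e ⟨m, hm⟩)) j hj
    rw [← hr] at h1
    constructor
    · rintro rfl; exact hrb h1.1
    · rintro rfl; exact hrb h1.2
  set s := r b with hs
  set v : Idx l k → F := s⁻¹ • r with hv
  have hsv : r = s • v := by
    rw [hv, smul_smul, mul_inv_cancel₀ hrb, one_smul]
  have hvS : aux_Sup m v := by
    intro j hj
    have h1 := aux_res_sup m (p (aux_e ⟨m, hm⟩)) j hj
    rw [← hr] at h1
    rw [hv]
    simp only [Pi.smul_apply]
    rw [h1.1, h1.2]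
    simp
  have hvi : ∀ a, IsInt (v a) := by
    intro a
    rw [aux_int_iff]
    have h1 := hb a (Finset.mem_univ _)
    have h2 : r a = s * v a := by rw [hsv]; rfl
    rw [h2, aux_vl.map_mul] at h1
    have h3 : aux_vl s ≠ ⊤ := by
      intro h
      exact hrb (aux_vl.top_iff.1 h)
    obtain ⟨q, hq⟩ := WithTop.ne_top_iff_exists.1 h3
    rw [← hq] at h1
    by_cases h4 : aux_vl (v a) = ⊤
    · rw [h4]; exact le_top
    · obtain ⟨q', hq'⟩ := WithTop.ne_top_iff_exists.1 h4
      rw [← hq'] at h1 ⊢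
      have h5 : q ≤ q + q' := by exact_mod_cast h1
      have h6 : 0 ≤ q' := by omega
      exact_mod_cast h6
  have hvb : v b = 1 := by
    rw [hv]
    simp only [Pi.smul_apply, smul_eq_mul]
    rw [← hs, inv_mul_cancel₀ hrb]
  have hem : aux_Sup m (Pi.single (aux_e ⟨m, hm⟩ : Idx l k) (1 : F)) := by
    intro j hj
    constructor
    · rw [Pi.single_apply, if_neg]
      simp only [aux_e, Sum.inl.injEq]
      rintro rfl
      simp at hj
    · rw [Pi.single_apply, if_neg]
      simp [aux_e, aux_f]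
  have hfm : aux_Sup m (Pi.single (aux_f ⟨m, hm⟩ : Idx l k) (1 : F)) := by
    intro j hj
    constructor
    · rw [Pi.single_apply, if_neg]
      simp [aux_e, aux_f]
    · rw [Pi.single_apply, if_neg]
      simp only [aux_f, Sum.inr.injEq, Sum.inl.injEq]
      rintro rfl
      simp at hj
  have hsi : ∀ c : Idx l k, ∀ a, IsInt ((Pi.single c (1 : F) : Idx l k → F) a) := by
    intro c a
    rw [Pi.single_apply]
    split_ifs
    · exact aux_int_one
    · exact aux_int_zero
  -- the intermediate vector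
  have hx : ∃ x : Idx l k → F, aux_Sup m x ∧ (∀ a, IsInt (x a)) ∧ aux_vl (aux_om v x) = 0 ∧
      aux_vl (aux_om x (Pi.single (aux_e ⟨m, hm⟩) 1)) = 0 := by
    by_cases hve : aux_vl (v (aux_e ⟨m, hm⟩)) = 0
    · refine ⟨Pi.single (aux_f ⟨m, hm⟩) 1, hfm, hsi _, ?_, ?_⟩
      · have : aux_om v (Pi.single (aux_f ⟨m, hm⟩) 1) = - v (aux_e ⟨m, hm⟩) :=
          aux_om_single_inr _ _
        rw [this, aux_vl.map_neg, hve]
      · have : aux_om (Pi.single (aux_f ⟨m, hm⟩ : Idx l k) (1 : F)) (Pi.single (aux_e ⟨m, hm⟩) 1)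
            = (Pi.single (aux_f ⟨m, hm⟩ : Idx l k) (1 : F) : Idx l k → F) (aux_f ⟨m, hm⟩) :=
          aux_om_single_inl _ _
        rw [this, Pi.single_eq_same, aux_vl.map_one]
    · have hpos : 0 < aux_vl (v (aux_e ⟨m, hm⟩)) :=
        lt_of_le_of_ne ((aux_int_iff _).1 (hvi _)) (Ne.symm hve)
      have hbe : b ≠ aux_e ⟨m, hm⟩ := by
        rintro h
        rw [← h, hvb, aux_vl.map_one] at hve
        exact hve rfl
      refine ⟨Pi.single (aux_f ⟨m, hm⟩) 1 + Pi.single (aux_dual b) 1, ?_, ?_, ?_, ?_⟩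
      · intro j hj
        simp only [Pi.add_apply]
        rw [(hfm j hj).1, (hfm j hj).2, zero_add, zero_add]
        have hb1 := hbR j hj
        rcases b with c | c
        · simp only [aux_e, aux_f, aux_dual, ne_eq, Sum.inl.injEq] at hb1 ⊢
          constructor
          · simp
          · rw [Pi.single_apply, if_neg]
            simp only [Sum.inr.injEq]
            exact fun h => hb1.1 h.symm
        · simp only [aux_e, aux_f, aux_dual, ne_eq, Sum.inr.injEq] at hb1 ⊢
          constructor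
          · rw [Pi.single_apply, if_neg]
            simp only [Sum.inl.injEq]
            exact fun h => hb1.2 h.symm
          · simp
      · intro a
        exact aux_int_add (hsi _ _) (hsi _ _)
      · rw [aux_om_add_right]
        have : aux_om v (Pi.single (aux_f ⟨m, hm⟩) 1) = - v (aux_e ⟨m, hm⟩) :=
          aux_om_single_inr _ _
        rw [this]
        apply aux_unit_add
        · rw [aux_vl.map_neg]; exact hpos
        · rcases b with c | c
          · have : aux_om v (Pi.single (aux_dual (Sum.inl c)) 1) = - v (Sum.inl c) :=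
              aux_om_single_inr _ _
            rw [this, hvb, aux_vl.map_neg, aux_vl.map_one]
          · have : aux_om v (Pi.single (aux_dual (Sum.inr c)) 1) = v (Sum.inr c) :=
              aux_om_single_inl _ _
            rw [this, hvb, aux_vl.map_one]
      · have : aux_om (Pi.single (aux_f ⟨m, hm⟩ : Idx l k) (1 : F) + Pi.single (aux_dual b) 1)
            (Pi.single (aux_e ⟨m, hm⟩) 1)
            = (Pi.single (aux_f ⟨m, hm⟩ : Idx l k) (1 : F) + Pi.single (aux_dual b) 1 :
              Idx l k → F) (aux_f ⟨m, hm⟩) :=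
          aux_om_single_inl _ _
        rw [this, Pi.add_apply, Pi.single_eq_same]
        have h2 : (Pi.single (aux_dual b) 1 : Idx l k → F) (aux_f ⟨m, hm⟩) = 0 := by
          rw [Pi.single_apply, if_neg]
          intro h
          rcases b with c | c
          · simp only [aux_f, aux_dual, Sum.inr.injEq] at h
            apply hbe
            rw [← h]
            rfl
          · simp [aux_f, aux_dual] at h
        rw [h2, add_zero, aux_vl.map_one]
  obtain ⟨x, hxS, hxi, hvx, hxe⟩ := hx
  obtain ⟨p1, hR1, hI1, hr1⟩ := aux_move hm hp s v x hvS hxS hvi hxi (by rw [← hr, ← hsv]) hvx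
  obtain ⟨p2, hR2, hI2, hr2⟩ := aux_move hm hI1 s x _ hxS hem hxi (hsi _) hr1 hxe
  refine ⟨p2, aux_R_trans hR1 hR2, hI2.1, fun i hi => ?_⟩
  rcases Nat.lt_succ_iff_lt_or_eq.1 hi with h | h
  · exact hI2.2 i h
  · have hi' : i = ⟨m, hm⟩ := Fin.ext h
    subst hi'
    constructor
    · intro c hc
      by_cases hcR : ∀ j : Fin (l + 1), (j : ℕ) < m → c ≠ aux_e j ∧ c ≠ aux_f j
      · rw [← aux_res_of (u := p2 (aux_e ⟨m, hm⟩)) c hcR, hr2, Pi.smul_apply, Pi.single_apply,
          if_neg]
        · simp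
        · rintro rfl
          exact lt_irrefl _ hc
      · push Not at hcR
        obtain ⟨j, hj, hj'⟩ := hcR
        by_cases hce : c = aux_e j
        · exfalso
          rw [hce] at hc
          simp only [aux_e, wt] at hc
          omega
        · rw [hj' hce]
          exact aux_lemA hI2 j j rfl hj _ (fun j' _ => by simp [aux_e, aux_f])
    · have : p2 (aux_e ⟨m, hm⟩) (aux_e ⟨m, hm⟩) = s := by
        rw [← aux_res_of (m := m) (u := p2 (aux_e ⟨m, hm⟩)) (aux_e ⟨m, hm⟩), hr2, Pi.smul_apply,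
          Pi.single_eq_same, smul_eq_mul, mul_one]
        intro j hj
        constructor
        · simp only [aux_e, ne_eq, Sum.inl.injEq]
          rintro rfl
          simp at hj
        · simp [aux_e, aux_f]
      rw [this]
      exact hrb

lemma aux_ind (g : Matrix (Idx l k) (Idx l k) F) (hg : InSp g) :
    ∀ m : ℕ, m ≤ l + 1 → ∃ p', aux_R g p' ∧ aux_Inv m p' := by
  intro m
  induction m with
  | zero =>
    intro _
    exact ⟨g, ⟨1, aux_GO_one, by rw [Matrix.mul_one]⟩, hg, fun i hi => absurd hi (by omega)⟩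
  | succ m ih =>
    intro hm
    obtain ⟨p', h1, h2⟩ := ih (by omega)
    obtain ⟨p'', h3, h4⟩ := aux_step (by omega) h2
    exact ⟨p'', aux_R_trans h1 h3, h4⟩

/-- **Target.** Iwasawa decomposition of the symplectic group over `ℂ((t))`. -/
theorem iwasawa {l k : ℕ} (g : Matrix (Idx l k) (Idx l k) F) (hg : InSp g) :
    ∃ p h : Matrix (Idx l k) (Idx l k) F, InSp p ∧ InGO h ∧ g = p * h ∧
      ∀ a b, wt b < wt a → p a b = 0 := by
  obtain ⟨p, ⟨h, hh, hgp⟩, hp⟩ := aux_ind g hg (l + 1) le_rfl
  refine ⟨p, h, hp.1, hh, hgp, fun a b hab => ?_⟩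
  by_cases ha : ∃ i : Fin (l + 1), a = aux_e i
  · obtain ⟨i, rfl⟩ := ha
    exact (hp.2 i i.2).1 b hab
  · have hwa : wt a ≤ 0 := by
      rcases a with (a | a) | (a | a)
      · exact absurd ⟨a, rfl⟩ ha
      · simp [wt]
      · simp only [wt]
        have := a.2
        omega
      · simp [wt]
    have hwb : wt b < 0 := lt_of_lt_of_le hab hwa
    have hb : ∃ j : Fin (l + 1), b = aux_f j := by
      rcases b with (b | b) | (b | b)
      · simp only [wt] at hwb
        have := b.2
        omega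
      · simp [wt] at hwb
      · exact ⟨b, rfl⟩
      · simp [wt] at hwb
    obtain ⟨j, rfl⟩ := hb
    refine aux_lemA hp j j rfl j.2 a (fun j' hj' => ?_)
    rintro rfl
    rw [Fin.le_def] at hj'
    simp only [aux_f, wt] at hab
    omega

end Pool.Agent.H143_GC
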