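import Mathlib
import Pool.Agent.H143_GC.Old

/-!
Uniqueness of elementary divisors (job 11).
-/

noncomputable section

open Matrix

namespace Pool.Agent.H143_GC

theorem lu_coeff_add (x y : F) (p : ℤ) : (x + y).coeff p = x.coeff p + y.coeff p :=
  HahnSeries.coeff_add (x := (x : LaurentSeries ℂ)) (y := y) (a := p)

theorem lu_coeff_smul (c : ℂ) (x : F) (p : ℤ) : (c • x).coeff p = c * x.coeff p := by
  have h : c • x = (HahnSeries.C c : LaurentSeries ℂ) * (show LaurentSeries ℂ from x) := rfl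
  rw [h]
  unfold F.coeff
  rw [HahnSeries.C_mul_eq_smul]
  rfl

/-- coefficient as a linear map -/
def lu_coeffL (p : ℤ) : F →ₗ[ℂ] ℂ where
  toFun x := x.coeff p
  map_add' x y := lu_coeff_add x y p
  map_smul' c x := lu_coeff_smul c x p

theorem lu_coeffL_apply (p : ℤ) (x : F) : lu_coeffL p x = x.coeff p := rfl

theorem lu_coeff_mul_eq_zero (a b : F) (s : ℤ) (ha : IsInt a) (hb : ∀ q : ℤ, q < s → b.coeff q = 0)
    (p : ℤ) (hp : p < s) : (a * b).coeff p = 0 := by
  have h : (a * b).coeff p = HahnSeries.coeff ((show LaurentSeries ℂ from a) * (show LaurentSeries ℂ from b)) p := rfl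
  rw [h, HahnSeries.coeff_mul]
  apply Finset.sum_eq_zero
  intro ij hij
  rw [Finset.mem_antidiagonal] at hij
  obtain ⟨h1, h2, h3⟩ := hij
  by_cases h0 : ij.1 < 0
  · have : HahnSeries.coeff (show LaurentSeries ℂ from a) ij.1 = 0 := ha ij.1 h0
    rw [this, zero_mul]
  · have : HahnSeries.coeff (show LaurentSeries ℂ from b) ij.2 = 0 := hb ij.2 (by omega)
    rw [this, mul_zero]

theorem lu_coeff_tp (q p : ℤ) : (tp q).coeff p = if p = q then 1 else 0 := by
  have h : (tp q).coeff p = (HahnSeries.single q (1 : ℂ) : LaurentSeries ℂ).coeff p := rfl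
  rw [h]
  by_cases hp : p = q
  · rw [if_pos hp, hp, HahnSeries.coeff_single_same]
  · rw [if_neg hp, HahnSeries.coeff_single_of_ne hp]

/-- the lattice `t^s O^ι` -/
def lu_L (ι : Type) (s : ℕ) : Submodule ℂ (ι → F) where
  carrier := {x | ∀ i, ∀ p : ℤ, p < s → (x i).coeff p = 0}
  add_mem' := by
    intro a b ha hb i p hp
    simp only [Pi.add_apply, lu_coeff_add, ha i p hp, hb i p hp, add_zero]
  zero_mem' := by
    intro i p _
    exact (lu_coeffL p).map_zero
  smul_mem' := by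
    intro c x hx i p hp
    simp only [Pi.smul_apply, lu_coeff_smul, hx i p hp, mul_zero]

theorem lu_mem {ι : Type} {s : ℕ} {x : ι → F} :
    x ∈ lu_L ι s ↔ ∀ i, ∀ p : ℤ, p < s → (x i).coeff p = 0 := Iff.rfl

theorem lu_mulVec_mem {ι : Type} [Fintype ι] (δ : Matrix ι ι F) (hδ : ∀ i j, IsInt (δ i j))
    {s : ℕ} {x : ι → F} (hx : x ∈ lu_L ι s) : δ *ᵥ x ∈ lu_L ι s := by
  intro i p hp
  have h : (δ *ᵥ x) i = ∑ j, δ i j * x j := rfl
  rw [h, ← lu_coeffL_apply, map_sum]
  apply Finset.sum_eq_zero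
  intro j _
  exact lu_coeff_mul_eq_zero _ _ s (hδ i j) (hx j) p hp

/-- the coefficient map -/
def lu_phi {ι : Type} (s : ℕ) (α : ι → ℕ) :
    lu_L ι s →ₗ[ℂ] ((Σ i : ι, Fin (α i - s)) → ℂ) where
  toFun x := fun k => (x.1 k.1).coeff ((s : ℤ) + (k.2 : ℕ))
  map_add' x y := by
    funext k
    exact lu_coeff_add _ _ _
  map_smul' c x := by
    funext k
    exact lu_coeff_smul _ _ _

theorem lu_phi_apply {ι : Type} (s : ℕ) (α : ι → ℕ) (x : lu_L ι s) (k : Σ i : ι, Fin (α i - s)) :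
    lu_phi s α x k = (x.1 k.1).coeff ((s : ℤ) + (k.2 : ℕ)) := rfl

theorem lu_phi_surj {ι : Type} (s : ℕ) (α : ι → ℕ) :
    Function.Surjective (lu_phi (ι := ι) s α) := by
  intro f
  have hc : ∀ (i : ι) (p : ℤ), (∑ k : Fin (α i - s), (f ⟨i, k⟩) • tp ((s : ℤ) + (k : ℕ)) : F).coeff p
      = ∑ k : Fin (α i - s), f ⟨i, k⟩ * (if p = (s : ℤ) + (k : ℕ) then 1 else 0) := by
    intro i p
    rw [← lu_coeffL_apply, map_sum]
    refine Finset.sum_congr rfl fun k _ => ?_
    rw [lu_coeffL_apply, lu_coeff_smul, lu_coeff_tp]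
  refine ⟨⟨fun i => ∑ k : Fin (α i - s), (f ⟨i, k⟩) • tp ((s : ℤ) + (k : ℕ)), ?_⟩, ?_⟩
  · intro i p hp
    rw [hc]
    apply Finset.sum_eq_zero
    intro k _
    rw [if_neg (by omega), mul_zero]
  · funext k
    obtain ⟨i, k⟩ := k
    rw [lu_phi_apply]
    simp only
    rw [hc, Finset.sum_eq_single k]
    · simp
    · intro b _ hb
      rw [if_neg, mul_zero]
      intro he
      apply hb
      apply Fin.ext
      omega
    · intro h
      exact absurd (Finset.mem_univ k) h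

theorem lu_phi_ker {ι : Type} (s : ℕ) (α : ι → ℕ) (x : lu_L ι s) :
    lu_phi s α x = 0 ↔ ∀ i, ∀ p : ℤ, p < α i → (x.1 i).coeff p = 0 := by
  constructor
  · intro h i p hp
    by_cases hps : p < s
    · exact x.2 i p hps
    · have := congrFun h ⟨i, ⟨(p - s).toNat, by omega⟩⟩
      rw [lu_phi_apply] at this
      simp only [Pi.zero_apply] at this
      have he : (s : ℤ) + ((p - s).toNat : ℕ) = p := by omega
      rw [he] at this
      exact this
  · intro h
    funext k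
    rw [lu_phi_apply]
    exact h k.1 _ (by have := k.2.2; omega)

/-- multiplication by `δ` on the lattice -/
def lu_mul {ι : Type} [Fintype ι] (δ : Matrix ι ι F) (hδ : ∀ i j, IsInt (δ i j)) (s : ℕ) :
    lu_L ι s →ₗ[ℂ] lu_L ι s where
  toFun x := ⟨δ *ᵥ x.1, lu_mulVec_mem δ hδ x.2⟩
  map_add' x y := by
    apply Subtype.ext
    exact Matrix.mulVec_add _ _ _
  map_smul' c x := by
    apply Subtype.ext
    exact Matrix.mulVec_smul _ _ _

theorem lu_sum_eq {ι : Type} [Fintype ι] [DecidableEq ι] (δ δ' : Matrix ι ι F)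
    (h1 : δ * δ' = 1) (hδ : ∀ i j, IsInt (δ i j)) (hδ' : ∀ i j, IsInt (δ' i j))
    (α β : ι → ℕ)
    (h : ∀ x : ι → F, (∀ i, IsInt (x i)) →
      ((∀ i, ∀ p : ℤ, p < α i → (x i).coeff p = 0) ↔
        ∀ i, ∀ p : ℤ, p < β i → ((δ *ᵥ x) i).coeff p = 0)) (s : ℕ) :
    ∑ i, (α i - s) = ∑ i, (β i - s) := by
  set f := lu_phi (ι := ι) s α
  set g := (lu_phi (ι := ι) s β).comp (lu_mul δ hδ s) with hg
  have hf : Function.Surjective f := lu_phi_surj s α
  have hgs : Function.Surjective g := by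
    rw [hg, LinearMap.coe_comp]
    apply (lu_phi_surj s β).comp
    intro y
    refine ⟨⟨δ' *ᵥ y.1, lu_mulVec_mem δ' hδ' y.2⟩, ?_⟩
    apply Subtype.ext
    show δ *ᵥ (δ' *ᵥ y.1) = y.1
    rw [Matrix.mulVec_mulVec, h1, Matrix.one_mulVec]
  have hker : LinearMap.ker f = LinearMap.ker g := by
    ext x
    rw [LinearMap.mem_ker, LinearMap.mem_ker, lu_phi_ker]
    have hx : ∀ i, IsInt (x.1 i) := by
      intro i p hp
      exact x.2 i p (by omega)
    rw [h x.1 hx]
    exact (lu_phi_ker s β (lu_mul δ hδ s x)).symm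
  have e1 := f.quotKerEquivOfSurjective hf
  have e2 := g.quotKerEquivOfSurjective hgs
  have e3 := Submodule.quotEquivOfEq _ _ hker
  have e := (e1.symm.trans e3).trans e2
  have := e.finrank_eq
  simpa [Module.finrank_fintype_fun_eq_card, Fintype.card_sigma] using this

theorem lu_count {ι : Type} [Fintype ι] (α : ι → ℕ) (s : ℕ) :
    ∑ i, (α i - s) = ∑ i, (α i - (s + 1)) + (Finset.univ.filter fun i => s < α i).card := by
  rw [Finset.card_filter, ← Finset.sum_add_distrib]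
  refine Finset.sum_congr rfl fun i _ => ?_
  split_ifs with h <;> omega

/-- **Target.** Uniqueness of elementary divisors of a sublattice of `O^ι`. -/
theorem lattice_unique {ι : Type} [Fintype ι] [DecidableEq ι] (δ δ' : Matrix ι ι F)
    (h1 : δ * δ' = 1) (hδ : ∀ i j, IsInt (δ i j)) (hδ' : ∀ i j, IsInt (δ' i j))
    (α β : ι → ℕ)
    (h : ∀ x : ι → F, (∀ i, IsInt (x i)) →
      ((∀ i, ∀ p : ℤ, p < α i → (x i).coeff p = 0) ↔
        ∀ i, ∀ p : ℤ, p < β i → ((δ *ᵥ x) i).coeff p = 0)) (s : ℕ) :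
    (Finset.univ.filter fun i => s < α i).card = (Finset.univ.filter fun i => s < β i).card := by
  have e1 := lu_sum_eq δ δ' h1 hδ hδ' α β h s
  have e2 := lu_sum_eq δ δ' h1 hδ hδ' α β h (s + 1)
  have c1 := lu_count α s
  have c2 := lu_count β s
  omega

end Pool.Agent.H143_GC
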