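import Pool.Agent.H143_GC.Lie
import Pool.Agent.H143_GC.JLat
import Pool.Agent.H143_GC.JIwasawa
import Pool.Agent.H143_GC.JCartan

/-!
Double cosets: existence and uniqueness of diagonal representatives (job by helper474).
-/

noncomputable section

open Matrix

namespace Pool.Agent.H143_GC.JC

open Pool.Agent.H143_GC

variable {l k : ℕ}

theorem antitone_aux {mu mu' : Fin k → ℕ} (h : Antitone mu) (h' : Antitone mu')
    (H : ∀ s, (Finset.univ.filter fun i => s < Sum.elim mu (fun _ : Fin k => 0) i).card =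
      (Finset.univ.filter fun i => s < Sum.elim mu' (fun _ : Fin k => 0) i).card) (j : Fin k) :
    mu' j ≤ mu j := by
  by_contra hlt
  push Not at hlt
  have hc : ∀ ν : Fin k → ℕ, (Finset.univ.filter fun i => mu j < Sum.elim ν (fun _ : Fin k => 0) i).card
      = (Finset.univ.filter fun i : Fin k => mu j < ν i).card := by
    intro ν
    rw [Finset.card_filter, Finset.card_filter, Fintype.sum_sum_type]
    simp only [Sum.elim_inl, Sum.elim_inr, Nat.not_lt_zero, if_false, Finset.sum_const_zero,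
      add_zero]
    rfl
  have H1 := H (mu j)
  rw [hc, hc] at H1
  have h1 : (Finset.univ.filter fun i : Fin k => mu j < mu i).card ≤ (Finset.Iio j).card := by
    apply Finset.card_le_card
    intro i hi
    rw [Finset.mem_filter] at hi
    rw [Finset.mem_Iio]
    by_contra hij
    push Not at hij
    exact absurd (h hij) (not_le.2 hi.2)
  have h2 : (Finset.Iic j).card ≤ (Finset.univ.filter fun i : Fin k => mu j < mu' i).card := by
    apply Finset.card_le_card
    intro i hi
    rw [Finset.mem_Iic] at hi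
    rw [Finset.mem_filter]
    exact ⟨Finset.mem_univ _, lt_of_lt_of_le hlt (h' hi)⟩
  rw [Fin.card_Iio] at h1
  rw [Fin.card_Iic] at h2
  omega

theorem antitone_unique {mu mu' : Fin k → ℕ} (h : Antitone mu) (h' : Antitone mu')
    (H : ∀ s, (Finset.univ.filter fun i => s < Sum.elim mu (fun _ : Fin k => 0) i).card =
      (Finset.univ.filter fun i => s < Sum.elim mu' (fun _ : Fin k => 0) i).card) : mu = mu' := by
  funext j
  exact le_antisymm (antitone_aux h' h (fun s => (H s).symm) j) (antitone_aux h h' H j)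

/-! ### symplectic inverses -/

section spinv

variable {A : Type} [Fintype A] [DecidableEq A]

/-- the inverse of a symplectic matrix -/
def spInv (g : Matrix (A ⊕ A) (A ⊕ A) F) : Matrix (A ⊕ A) (A ⊕ A) F :=
  -Matrix.J A F * gᵀ * Matrix.J A F

theorem spInv_mem {g : Matrix (A ⊕ A) (A ⊕ A) F} (hg : g ∈ Matrix.symplecticGroup A F) :
    spInv g ∈ Matrix.symplecticGroup A F := by
  have h := ((⟨g, hg⟩ : Matrix.symplecticGroup A F)⁻¹).2
  rw [SymplecticGroup.coe_inv] at h
  exact h

theorem mul_spInv {g : Matrix (A ⊕ A) (A ⊕ A) F} (hg : g ∈ Matrix.symplecticGroup A F) :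
    g * spInv g = 1 := by
  have h := congrArg Subtype.val (mul_inv_cancel (⟨g, hg⟩ : Matrix.symplecticGroup A F))
  exact h

theorem spInv_mul {g : Matrix (A ⊕ A) (A ⊕ A) F} (hg : g ∈ Matrix.symplecticGroup A F) :
    spInv g * g = 1 := by
  have h := congrArg Subtype.val (inv_mul_cancel (⟨g, hg⟩ : Matrix.symplecticGroup A F))
  exact h

theorem JT_l (g : Matrix (A ⊕ A) (A ⊕ A) F) (a : A) (c : A ⊕ A) :
    (-Matrix.J A F * gᵀ) (Sum.inl a) c = g c (Sum.inr a) := by
  rw [Matrix.mul_apply, Fintype.sum_sum_type]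
  simp [Matrix.J, Matrix.one_apply]

theorem JT_r (g : Matrix (A ⊕ A) (A ⊕ A) F) (a : A) (c : A ⊕ A) :
    (-Matrix.J A F * gᵀ) (Sum.inr a) c = -g c (Sum.inl a) := by
  rw [Matrix.mul_apply, Fintype.sum_sum_type]
  simp [Matrix.J, Matrix.one_apply]

theorem mJ_l (X : Matrix (A ⊕ A) (A ⊕ A) F) (c : A ⊕ A) (b : A) :
    (X * Matrix.J A F) c (Sum.inl b) = X c (Sum.inr b) := by
  rw [Matrix.mul_apply, Fintype.sum_sum_type]
  simp [Matrix.J, Matrix.one_apply]

theorem mJ_r (X : Matrix (A ⊕ A) (A ⊕ A) F) (c : A ⊕ A) (b : A) :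
    (X * Matrix.J A F) c (Sum.inr b) = -X c (Sum.inl b) := by
  rw [Matrix.mul_apply, Fintype.sum_sum_type]
  simp [Matrix.J, Matrix.one_apply]

theorem spInv_ll (g : Matrix (A ⊕ A) (A ⊕ A) F) (a b : A) :
    spInv g (Sum.inl a) (Sum.inl b) = g (Sum.inr b) (Sum.inr a) := by
  rw [spInv, mJ_l, JT_l]

theorem spInv_lr (g : Matrix (A ⊕ A) (A ⊕ A) F) (a b : A) :
    spInv g (Sum.inl a) (Sum.inr b) = -g (Sum.inl b) (Sum.inr a) := by
  rw [spInv, mJ_r, JT_l]

theorem spInv_rl (g : Matrix (A ⊕ A) (A ⊕ A) F) (a b : A) :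
    spInv g (Sum.inr a) (Sum.inl b) = -g (Sum.inr b) (Sum.inl a) := by
  rw [spInv, mJ_l, JT_r]

theorem spInv_rr (g : Matrix (A ⊕ A) (A ⊕ A) F) (a b : A) :
    spInv g (Sum.inr a) (Sum.inr b) = g (Sum.inl b) (Sum.inl a) := by
  rw [spInv, mJ_r, JT_r, neg_neg]

theorem spInv_int {g : Matrix (A ⊕ A) (A ⊕ A) F} (hg : ∀ a b, IsInt (g a b)) (a b : A ⊕ A) :
    IsInt (spInv g a b) := by
  rcases a with a | a <;> rcases b with b | b
  · rw [spInv_ll]; exact hg _ _
  · rw [spInv_lr]; exact aux_int_neg (hg _ _)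
  · rw [spInv_rl]; exact aux_int_neg (hg _ _)
  · rw [spInv_rr]; exact hg _ _

theorem sp_of_spInv {g : Matrix (A ⊕ A) (A ⊕ A) F} (h : g * spInv g = 1) :
    g ∈ Matrix.symplecticGroup A F := by
  rw [SymplecticGroup.mem_iff]
  have h1 : g * Matrix.J A F * gᵀ * Matrix.J A F = -1 := by
    rw [spInv] at h
    rw [← h]
    simp only [Matrix.mul_assoc, Matrix.neg_mul, Matrix.mul_neg, neg_neg]
  have h2 : g * Matrix.J A F * gᵀ * (Matrix.J A F * Matrix.J A F) = -Matrix.J A F := by
    rw [← Matrix.mul_assoc, h1, Matrix.neg_mul, Matrix.one_mul]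
  rw [Matrix.J_squared, Matrix.mul_neg, Matrix.mul_one] at h2
  exact neg_injective h2

theorem diag_sp (d : A ⊕ A → F) (h : ∀ a, d (Sum.inl a) * d (Sum.inr a) = 1) :
    Matrix.diagonal d ∈ Matrix.symplecticGroup A F := by
  apply sp_of_spInv
  have e : spInv (Matrix.diagonal d) =
      Matrix.diagonal (Sum.elim (fun a => d (Sum.inr a)) (fun a => d (Sum.inl a))) := by
    ext a b
    rcases a with a | a <;> rcases b with b | b
    · rw [spInv_ll]
      by_cases hab : a = b
      · subst hab; simp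
      · rw [Matrix.diagonal_apply_ne _ (by simpa using fun h => hab h.symm),
          Matrix.diagonal_apply_ne _ (by simpa using hab)]
    · rw [spInv_lr]; simp
    · rw [spInv_rl]; simp
    · rw [spInv_rr]
      by_cases hab : a = b
      · subst hab; simp
      · rw [Matrix.diagonal_apply_ne _ (by simpa using fun h => hab h.symm),
          Matrix.diagonal_apply_ne _ (by simpa using hab)]
  rw [e, Matrix.diagonal_mul_diagonal, ← Matrix.diagonal_one]
  congr 1
  funext a
  rcases a with a | a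
  · exact h a
  · rw [mul_comm]; exact h a

end spinv

/-! ### block triangular matrices -/

/-- block upper triangular -/
def Up (p : Matrix (Idx l k) (Idx l k) F) : Prop := ∀ a b, wt b < wt a → p a b = 0

theorem up_mul {p q : Matrix (Idx l k) (Idx l k) F} (hp : Up p) (hq : Up q) : Up (p * q) := by
  intro a b h
  rw [Matrix.mul_apply]
  apply Finset.sum_eq_zero
  intro c _
  by_cases h1 : wt c < wt a
  · rw [hp a c h1, zero_mul]
  · rw [hq c b (by omega), mul_zero]

theorem wt_inr (x : Fin (l + 1) ⊕ Fin k) : wt (Sum.inr x : Idx l k) = -wt (Sum.inl x : Idx l k) := by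
  rcases x with x | x <;> simp [wt]

theorem up_spInv {p : Matrix (Idx l k) (Idx l k) F} (hp : Up p) : Up (spInv p) := by
  intro a b h
  rcases a with a | a <;> rcases b with b | b
  · rw [spInv_ll]; exact hp _ _ (by rw [wt_inr, wt_inr]; omega)
  · rw [spInv_lr, hp _ _ (by rw [wt_inr] at *; omega), neg_zero]
  · rw [spInv_rl, hp _ _ (by rw [wt_inr] at *; omega), neg_zero]
  · rw [spInv_rr]; exact hp _ _ (by rw [wt_inr, wt_inr] at h; omega)

theorem up_diagonal (d : Idx l k → F) : Up (Matrix.diagonal d) := by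
  intro a b h
  apply Matrix.diagonal_apply_ne
  rintro rfl
  exact lt_irrefl _ h

theorem wt_inj {a b : Idx l k} (h : wt a = wt b) (h0 : wt a ≠ 0) : a = b := by
  rcases a with (a | a) | (a | a) <;> rcases b with (b | b) | (b | b) <;>
    simp only [wt, ne_eq, not_true_eq_false] at h h0
  · have : a = b := Fin.ext (by omega)
    rw [this]
  · exact absurd h h0
  · have := a.2; have := b.2; omega
  · exact absurd h h0
  · have := a.2; have := b.2; omega
  · exact absurd h h0
  · have : a = b := Fin.ext (by omega)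
    rw [this]
  · exact absurd h h0

theorem diag_mul {p q : Matrix (Idx l k) (Idx l k) F} (hp : Up p) (hq : Up q) (a : Idx l k)
    (h0 : wt a ≠ 0) : (p * q) a a = p a a * q a a := by
  rw [Matrix.mul_apply, Finset.sum_eq_single a]
  · intro c _ hc
    rcases lt_trichotomy (wt c) (wt a) with h | h | h
    · rw [hp a c h, zero_mul]
    · exact absurd (wt_inj h (by rw [h]; exact h0)) hc
    · rw [hq c a h, mul_zero]
  · intro h; exact absurd (Finset.mem_univ _) h

theorem mid_spInv (p : Matrix (Idx l k) (Idx l k) F) : midBlock (spInv p) = spInv (midBlock p) := by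
  ext a b
  rcases a with a | a <;> rcases b with b | b
  · rw [spInv_ll]
    exact spInv_ll p (Sum.inr a) (Sum.inr b)
  · rw [spInv_lr]
    exact spInv_lr p (Sum.inr a) (Sum.inr b)
  · rw [spInv_rl]
    exact spInv_rl p (Sum.inr a) (Sum.inr b)
  · rw [spInv_rr]
    exact spInv_rr p (Sum.inr a) (Sum.inr b)

theorem mid_injective : Function.Injective (mid : Fin k ⊕ Fin k → Idx l k) := by
  intro a b h
  rcases a with a | a <;> rcases b with b | b <;> simpa [mid] using h

theorem mid_one : midBlock (1 : Matrix (Idx l k) (Idx l k) F) = 1 := by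
  unfold midBlock
  exact Matrix.submatrix_one _ mid_injective

theorem mid_sp {p : Matrix (Idx l k) (Idx l k) F} (hp : InSp p) (hu : Up p) :
    midBlock p ∈ Matrix.symplecticGroup (Fin k) F := by
  apply sp_of_spInv
  rw [← mid_spInv, ← midBlock_mul hu (up_spInv hu), mul_spInv hp, mid_one]

/-! ### the points `tPoint` -/

theorem tPoint_sp (lam : Fin (l + 1) → ℤ) (mu : Fin k → ℤ) : InSp (tPoint lam mu) := by
  apply diag_sp
  rintro (a | a)
  · show tp (-lam a) * tp (lam a) = 1
    rw [tp_mul_tp, neg_add_cancel, tp_zero]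
  · show tp (mu a) * tp (-mu a) = 1
    rw [tp_mul_tp, add_neg_cancel, tp_zero]

theorem tPoint_up (lam : Fin (l + 1) → ℤ) (mu : Fin k → ℤ) :
    Up (tPoint lam mu : Matrix (Idx l k) (Idx l k) F) := up_diagonal _

theorem tPoint_inv_mul (lam : Fin (l + 1) → ℤ) (mu : Fin k → ℤ) :
    tPoint (fun i => -lam i) (fun j => -mu j) * tPoint lam mu
      = (1 : Matrix (Idx l k) (Idx l k) F) := by
  rw [tPoint, tPoint, Matrix.diagonal_mul_diagonal, ← Matrix.diagonal_one]
  congr 1
  funext a
  rcases a with (a | a) | (a | a) <;> simp [tp_mul_tp, tp_zero]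

theorem tPoint_mul_inv (lam : Fin (l + 1) → ℤ) (mu : Fin k → ℤ) :
    tPoint lam mu * tPoint (fun i => -lam i) (fun j => -mu j)
      = (1 : Matrix (Idx l k) (Idx l k) F) := by
  rw [tPoint, tPoint, Matrix.diagonal_mul_diagonal, ← Matrix.diagonal_one]
  congr 1
  funext a
  rcases a with (a | a) | (a | a) <;> simp [tp_mul_tp, tp_zero]

theorem tPoint_e (lam : Fin (l + 1) → ℤ) (mu : Fin k → ℤ) (i : Fin (l + 1)) :
    (tPoint lam mu : Matrix (Idx l k) (Idx l k) F) (Sum.inl (Sum.inl i)) (Sum.inl (Sum.inl i))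
      = tp (-lam i) := by
  rw [tPoint, Matrix.diagonal_apply_eq]

theorem tPoint_f (lam : Fin (l + 1) → ℤ) (mu : Fin k → ℤ) (i : Fin (l + 1)) :
    (tPoint lam mu : Matrix (Idx l k) (Idx l k) F) (Sum.inr (Sum.inl i)) (Sum.inr (Sum.inl i))
      = tp (lam i) := by
  rw [tPoint, Matrix.diagonal_apply_eq]

/-- the diagonal matrix of the middle block -/
def dm (mu : Fin k → ℤ) : Matrix (Fin k ⊕ Fin k) (Fin k ⊕ Fin k) F :=
  Matrix.diagonal (Sum.elim (fun j => tp (mu j)) (fun j => tp (-mu j)))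

theorem mid_tPoint (lam : Fin (l + 1) → ℤ) (mu : Fin k → ℤ) :
    midBlock (tPoint lam mu : Matrix (Idx l k) (Idx l k) F) = dm mu := by
  unfold midBlock tPoint dm
  rw [Matrix.submatrix_diagonal _ _ mid_injective]
  congr 1
  funext a
  rcases a with a | a <;> rfl

theorem dm_mul_neg (mu : Fin k → ℤ) : dm mu * dm (fun j => -mu j) = 1 := by
  rw [dm, dm, Matrix.diagonal_mul_diagonal, ← Matrix.diagonal_one]
  congr 1
  funext a
  rcases a with a | a <;> simp [tp_mul_tp, tp_zero]

theorem dm_neg_mul (mu : Fin k → ℤ) : dm (fun j => -mu j) * dm mu = 1 := by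
  rw [dm, dm, Matrix.diagonal_mul_diagonal, ← Matrix.diagonal_one]
  congr 1
  funext a
  rcases a with a | a <;> simp [tp_mul_tp, tp_zero]

/-! ### block diagonal matrices -/

/-- the block diagonal matrix `(u, b, u⁻¹)` -/
def blk (u : Fin (l + 1) → F) (b : Matrix (Fin k ⊕ Fin k) (Fin k ⊕ Fin k) F) :
    Matrix (Idx l k) (Idx l k) F
  | Sum.inl (Sum.inl i), Sum.inl (Sum.inl j) => if i = j then u i else 0
  | Sum.inr (Sum.inl i), Sum.inr (Sum.inl j) => if i = j then (u i)⁻¹ else 0
  | Sum.inl (Sum.inr i), Sum.inl (Sum.inr j) => b (Sum.inl i) (Sum.inl j)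
  | Sum.inl (Sum.inr i), Sum.inr (Sum.inr j) => b (Sum.inl i) (Sum.inr j)
  | Sum.inr (Sum.inr i), Sum.inl (Sum.inr j) => b (Sum.inr i) (Sum.inl j)
  | Sum.inr (Sum.inr i), Sum.inr (Sum.inr j) => b (Sum.inr i) (Sum.inr j)
  | _, _ => 0

theorem blk_mid (u : Fin (l + 1) → F) (b : Matrix (Fin k ⊕ Fin k) (Fin k ⊕ Fin k) F)
    (i j : Fin k ⊕ Fin k) : blk u b (mid i) (mid j) = b i j := by
  rcases i with i | i <;> rcases j with j | j <;> rfl

theorem blk_up (u : Fin (l + 1) → F) (b : Matrix (Fin k ⊕ Fin k) (Fin k ⊕ Fin k) F) :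
    Up (blk u b) := by
  rintro ((i | i) | (i | i)) ((j | j) | (j | j)) h <;> try rfl
  · show (if i = j then u i else 0) = 0
    rw [if_neg]
    rintro rfl
    exact lt_irrefl _ h
  · exact absurd h (by simp [wt])
  · exact absurd h (by simp [wt])
  · show (if i = j then (u i)⁻¹ else 0) = 0
    rw [if_neg]
    rintro rfl
    exact lt_irrefl _ h
  · exact absurd h (by simp [wt])
  · exact absurd h (by simp [wt])

theorem blk_spInv (u : Fin (l + 1) → F) (b : Matrix (Fin k ⊕ Fin k) (Fin k ⊕ Fin k) F) :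
    spInv (blk u b) = blk (fun i => (u i)⁻¹) (spInv b) := by
  ext x y
  rcases x with (i | i) | (i | i) <;> rcases y with (j | j) | (j | j)
  · rw [spInv_ll]
    show (if j = i then (u j)⁻¹ else 0) = (if i = j then (u i)⁻¹ else 0)
    by_cases h : i = j
    · subst h; rfl
    · rw [if_neg h, if_neg (fun h' => h h'.symm)]
  · rw [spInv_ll]; rfl
  · rw [spInv_lr]; exact neg_zero
  · rw [spInv_lr]; exact neg_zero
  · rw [spInv_ll]; rfl
  · rw [spInv_ll]
    show b (Sum.inr j) (Sum.inr i) = spInv b (Sum.inl i) (Sum.inl j)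
    rw [spInv_ll]
  · rw [spInv_lr]; exact neg_zero
  · rw [spInv_lr]
    show -b (Sum.inl j) (Sum.inr i) = spInv b (Sum.inl i) (Sum.inr j)
    rw [spInv_lr]
  · rw [spInv_rl]; exact neg_zero
  · rw [spInv_rl]; exact neg_zero
  · rw [spInv_rr]
    show (if j = i then u j else 0) = (if i = j then ((u i)⁻¹)⁻¹ else 0)
    by_cases h : i = j
    · subst h; rw [if_pos rfl, if_pos rfl, inv_inv]
    · rw [if_neg h, if_neg (fun h' => h h'.symm)]
  · rw [spInv_rr]; rfl
  · rw [spInv_rl]; exact neg_zero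
  · rw [spInv_rl]
    show -b (Sum.inr j) (Sum.inl i) = spInv b (Sum.inr i) (Sum.inl j)
    rw [spInv_rl]
  · rw [spInv_rr]; rfl
  · rw [spInv_rr]
    show b (Sum.inl j) (Sum.inl i) = spInv b (Sum.inr i) (Sum.inr j)
    rw [spInv_rr]

theorem blk_apply_of_ne (u : Fin (l + 1) → F) (b : Matrix (Fin k ⊕ Fin k) (Fin k ⊕ Fin k) F)
    (x y : Idx l k) (h : wt x ≠ wt y) : blk u b x y = 0 := by
  rcases x with (i | i) | (i | i) <;> rcases y with (j | j) | (j | j) <;> try rfl
  · show (if i = j then u i else 0) = 0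
    rw [if_neg]
    rintro rfl
    exact h rfl
  · exact absurd rfl h
  · exact absurd rfl h
  · show (if i = j then (u i)⁻¹ else 0) = 0
    rw [if_neg]
    rintro rfl
    exact h rfl
  · exact absurd rfl h
  · exact absurd rfl h

theorem exists_mid {x : Idx l k} (h : wt x = 0) : ∃ a, mid a = x := by
  rcases x with (i | i) | (i | i)
  · exact absurd h (wt_inl_pos i).ne'
  · exact ⟨Sum.inl i, rfl⟩
  · exact absurd h (wt_inr_neg i).ne
  · exact ⟨Sum.inr i, rfl⟩

theorem blk_mul_blk (u v : Fin (l + 1) → F) (hu : ∀ i, u i ≠ 0) (hv : ∀ i, v i ≠ 0)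
    (b c : Matrix (Fin k ⊕ Fin k) (Fin k ⊕ Fin k) F) :
    blk u b * blk v c = blk (fun i => u i * v i) (b * c) := by
  ext x y
  by_cases hxy : wt x = wt y
  · by_cases h0 : wt x = 0
    · obtain ⟨a, rfl⟩ := exists_mid h0
      obtain ⟨a', rfl⟩ := exists_mid (hxy ▸ h0 : wt y = 0)
      have e := congrFun (congrFun (midBlock_mul (blk_up u b) (blk_up v c)) a) a'
      have e1 : midBlock (blk u b) = b := by
        ext i j; exact blk_mid u b i j
      have e2 : midBlock (blk v c) = c := by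
        ext i j; exact blk_mid v c i j
      rw [e1, e2] at e
      rw [blk_mid]
      exact e
    · have : x = y := wt_inj hxy h0
      subst this
      rw [diag_mul (blk_up u b) (blk_up v c) x h0]
      rcases x with (i | i) | (i | i)
      · show (if i = i then u i else 0) * (if i = i then v i else 0) =
          (if i = i then u i * v i else 0)
        simp
      · exact absurd rfl h0
      · show (if i = i then (u i)⁻¹ else 0) * (if i = i then (v i)⁻¹ else 0) =
          (if i = i then (u i * v i)⁻¹ else 0)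
        simp [mul_comm]
      · exact absurd rfl h0
  · rw [blk_apply_of_ne _ _ _ _ hxy, Matrix.mul_apply]
    apply Finset.sum_eq_zero
    intro c' _
    by_cases h1 : wt x = wt c'
    · rw [blk_apply_of_ne v c c' y (fun h => hxy (h1.trans h)), mul_zero]
    · rw [blk_apply_of_ne u b x c' h1, zero_mul]

theorem blk_one (u : Fin (l + 1) → F) (hu : ∀ i, u i = 1) :
    blk u (1 : Matrix (Fin k ⊕ Fin k) (Fin k ⊕ Fin k) F) = 1 := by
  ext x y
  by_cases hxy : wt x = wt y
  · by_cases h0 : wt x = 0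
    · obtain ⟨a, rfl⟩ := exists_mid h0
      obtain ⟨a', rfl⟩ := exists_mid (hxy ▸ h0 : wt y = 0)
      rw [blk_mid, Matrix.one_apply, Matrix.one_apply]
      by_cases h : a = a'
      · rw [if_pos h, if_pos (by rw [h])]
      · rw [if_neg h, if_neg (fun h' => h (mid_injective h'))]
    · have : x = y := wt_inj hxy h0
      subst this
      rw [Matrix.one_apply_eq]
      rcases x with (i | i) | (i | i)
      · show (if i = i then u i else 0) = 1
        simp [hu]
      · exact absurd rfl h0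
      · show (if i = i then (u i)⁻¹ else 0) = 1
        simp [hu]
      · exact absurd rfl h0
  · rw [blk_apply_of_ne _ _ _ _ hxy, Matrix.one_apply_ne]
    rintro rfl
    exact hxy rfl

theorem blk_sp (u : Fin (l + 1) → F) (hu : ∀ i, u i ≠ 0)
    {b : Matrix (Fin k ⊕ Fin k) (Fin k ⊕ Fin k) F} (hb : b ∈ Matrix.symplecticGroup (Fin k) F) :
    InSp (blk u b) := by
  apply sp_of_spInv
  rw [blk_spInv, blk_mul_blk u _ hu (fun i => inv_ne_zero (hu i)), mul_spInv hb]
  exact blk_one _ fun i => mul_inv_cancel₀ (hu i)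

theorem blk_int (u : Fin (l + 1) → F) (hu : ∀ i, IsInt (u i)) (hu' : ∀ i, IsInt (u i)⁻¹)
    {b : Matrix (Fin k ⊕ Fin k) (Fin k ⊕ Fin k) F} (hb : ∀ i j, IsInt (b i j)) (x y : Idx l k) :
    IsInt (blk u b x y) := by
  rcases x with (i | i) | (i | i) <;> rcases y with (j | j) | (j | j) <;>
    first
    | exact aux_int_zero
    | exact hb _ _
    | skip
  · show IsInt (if i = j then u i else 0)
    split_ifs
    · exact hu i
    · exact aux_int_zero
  · show IsInt (if i = j then (u i)⁻¹ else 0)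
    split_ifs
    · exact hu' i
    · exact aux_int_zero

/-! ### decomposition -/

theorem exists_unit (x : F) (hx : x ≠ 0) : ∃ n : ℤ, IsInt (x * tp n) ∧ IsInt (x * tp n)⁻¹ := by
  have hx' : aux_vl x ≠ ⊤ := fun h => hx (aux_vl.top_iff.1 h)
  obtain ⟨m, hm⟩ := WithTop.ne_top_iff_exists.1 hx'
  have hv : aux_vl (x * tp (-m)) = 0 := by
    rw [aux_vl.map_mul, ← hm]
    have h1 : aux_vl (tp (-m)) = ((-m : ℤ) : WithTop ℤ) := CD.vv_tp (-m)
    rw [h1, ← WithTop.coe_add, add_neg_cancel]
    rfl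
  exact ⟨-m, (aux_int_iff _).2 hv.ge, aux_unit_inv hv⟩

/-- **Target.** -/
theorem decomp (g : Matrix (Idx l k) (Idx l k) F) (hg : InSp g) :
    ∃ (γ h : Matrix (Idx l k) (Idx l k) F) (lam : Fin (l + 1) → ℤ) (mu : Fin k → ℕ),
      InGamma γ ∧ InGO h ∧ Antitone mu ∧ g = γ * tPoint lam (fun j => (mu j : ℤ)) * h := by
  obtain ⟨p, h₀, hp, hh₀, rfl, hup⟩ := iwasawa g hg
  have hup' : Up p := hup
  have hdiag : ∀ a : Idx l k, wt a ≠ 0 → p a a * spInv p a a = 1 := by
    intro a ha
    rw [← diag_mul hup' (up_spInv hup') a ha, mul_spInv hp, Matrix.one_apply_eq]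
  have hE : ∀ i : Fin (l + 1), p (Sum.inl (Sum.inl i)) (Sum.inl (Sum.inl i)) *
      p (Sum.inr (Sum.inl i)) (Sum.inr (Sum.inl i)) = 1 := by
    intro i
    have := hdiag (Sum.inl (Sum.inl i)) (wt_inl_pos i).ne'
    rwa [spInv_ll] at this
  have hne : ∀ i : Fin (l + 1), p (Sum.inl (Sum.inl i)) (Sum.inl (Sum.inl i)) ≠ 0 := fun i h => by
    have := hE i
    rw [h, zero_mul] at this
    exact zero_ne_one this
  choose lam hlam1 hlam2 using fun i => exists_unit _ (hne i)
  obtain ⟨a, b, mu, ha, hb, hai, hbi, hmu, hab⟩ := CD.cartan (midBlock p) (mid_sp hp hup')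
  set u : Fin (l + 1) → F := fun i => p (Sum.inl (Sum.inl i)) (Sum.inl (Sum.inl i)) * tp (lam i) with hu
  have hune : ∀ i, u i ≠ 0 := fun i => mul_ne_zero (hne i) (tp_ne_zero _)
  set h' : Matrix (Idx l k) (Idx l k) F := blk u b with hh'
  have hh'sp : InSp h' := blk_sp u hune hb
  have hh'GO : InGO h' := ⟨hh'sp, blk_int u hlam1 hlam2 hbi⟩
  have hh'up : Up (spInv h') := up_spInv (blk_up u b)
  set D : Matrix (Idx l k) (Idx l k) F := tPoint lam (fun j => (mu j : ℤ)) with hD
  set D' : Matrix (Idx l k) (Idx l k) F := tPoint (fun i => -lam i) (fun j => -(mu j : ℤ)) with hD'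
  have hDD : D' * D = 1 := tPoint_inv_mul _ _
  have hu1 : Up (p * spInv h') := up_mul hup' hh'up
  refine ⟨p * spInv h' * D', h' * h₀, lam, mu, ⟨?_, ?_, ?_, ?_⟩, aux_GO_mul hh'GO hh₀, hmu, ?_⟩
  · exact mul_mem (mul_mem hp (spInv_mem hh'sp)) (tPoint_sp _ _)
  · exact up_mul hu1 (tPoint_up _ _)
  · intro x y hxy hx0
    have := wt_inj hxy hx0
    subst this
    rw [if_pos rfl, diag_mul hu1 (tPoint_up _ _) x hx0, diag_mul hup' hh'up x hx0, hh', blk_spInv]
    rcases x with (i | i) | (i | i)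
    · rw [tPoint_e]
      show p _ _ * (if i = i then (u i)⁻¹ else 0) * tp (- -lam i) = 1
      rw [if_pos rfl, neg_neg, hu]
      have h1 := hne i
      have h2 := tp_ne_zero (lam i)
      field_simp
    · exact absurd rfl hx0
    · rw [tPoint_f]
      show p _ _ * (if i = i then ((u i)⁻¹)⁻¹ else 0) * tp (-lam i) = 1
      rw [if_pos rfl, inv_inv, hu]
      have h1 := hE i
      have h2 : tp (lam i) * tp (-lam i) = 1 := by rw [tp_mul_tp, add_neg_cancel, tp_zero]
      calc _ = (p (Sum.inl (Sum.inl i)) (Sum.inl (Sum.inl i)) *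
          p (Sum.inr (Sum.inl i)) (Sum.inr (Sum.inl i))) * (tp (lam i) * tp (-lam i)) := by ring
        _ = 1 := by rw [h1, h2, one_mul]
    · exact absurd rfl hx0
  · intro x y hx hy
    obtain ⟨i, rfl⟩ := exists_mid hx
    obtain ⟨j, rfl⟩ := exists_mid hy
    have e : midBlock (p * spInv h' * D') = a := by
      rw [midBlock_mul hu1 (tPoint_up _ _), midBlock_mul hup' hh'up, mid_tPoint, mid_spInv]
      have e1 : midBlock h' = b := by
        ext i j; exact blk_mid u b i j
      rw [e1, hab]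
      have e2 : Matrix.diagonal (Sum.elim (fun j => tp (mu j)) (fun j => tp (-(mu j : ℤ))))
          = dm (fun j => (mu j : ℤ)) := rfl
      rw [e2, Matrix.mul_assoc (a * _) b, mul_spInv hb, Matrix.mul_one, Matrix.mul_assoc,
        dm_mul_neg, Matrix.mul_one]
    have e3 := congrFun (congrFun e i) j
    have e4 : (p * spInv h' * D') (mid i) (mid j) = a i j := e3
    rw [e4]
    exact hai i j
  · calc p * h₀ = p * (1 * h₀) := by rw [Matrix.one_mul]
      _ = p * ((spInv h' * (D' * D) * h') * h₀) := by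
        rw [hDD, Matrix.mul_one, spInv_mul hh'sp]
      _ = p * spInv h' * D' * D * (h' * h₀) := by simp only [Matrix.mul_assoc]

/-! ### uniqueness -/

theorem isInt_tp_iff (n : ℤ) : IsInt (tp n) ↔ 0 ≤ n := by
  rw [CD.isInt_iff, CD.vv_tp]
  norm_cast

theorem mulVec_int {A : Type} [Fintype A] {M : Matrix A A F} (hM : ∀ i j, IsInt (M i j))
    {x : A → F} (hx : ∀ i, IsInt (x i)) (i : A) : IsInt ((M *ᵥ x) i) :=
  aux_int_sum _ _ fun j _ => aux_int_mul (hM i j) (hx j)

theorem cond_iff (mu : Fin k → ℕ) (x : Fin k ⊕ Fin k → F) (hx : ∀ i, IsInt (x i)) :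
    (∀ i, ∀ p : ℤ, p < (Sum.elim mu (fun _ : Fin k => 0) i : ℕ) → (x i).coeff p = 0) ↔
      ∀ i, IsInt ((dm (fun j => -(mu j : ℤ)) *ᵥ x) i) := by
  have e : ∀ i, (dm (fun j => -(mu j : ℤ)) *ᵥ x) i =
      Sum.elim (fun j => tp (-(mu j : ℤ))) (fun j => tp (- -(mu j : ℤ))) i * x i := by
    intro i
    rw [dm, Matrix.mulVec_diagonal]
  constructor
  · intro h i
    rw [e]
    rcases i with i | i
    · show IsInt (tp (-(mu i : ℤ)) * x (Sum.inl i))
      intro p hp
      rw [coeff_tp_mul]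
      exact h (Sum.inl i) _ (by show _ < ((mu i : ℕ) : ℤ); omega)
    · show IsInt (tp (- -(mu i : ℤ)) * x (Sum.inr i))
      refine aux_int_mul ((isInt_tp_iff _).2 (by omega)) (hx _)
  · intro h i p hp
    rcases i with i | i
    · have h1 := h (Sum.inl i)
      rw [e] at h1
      have h2 : IsInt (tp (-(mu i : ℤ)) * x (Sum.inl i)) := h1
      have h3 := h2 (p - mu i) (by
        have : p < ((mu i : ℕ) : ℤ) := hp
        omega)
      rw [coeff_tp_mul] at h3
      have e2 : p - (mu i : ℤ) - -(mu i : ℤ) = p := by ring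
      rw [e2] at h3
      exact h3
    · exact hx (Sum.inr i) p (by
        have : p < ((0 : ℕ) : ℤ) := hp
        simpa using this)

theorem mat_alg {ι : Type} [Fintype ι] [DecidableEq ι] (A B D D' Di Di' Ai : Matrix ι ι F)
    (h : D' = A * D * B) (h1 : Ai * A = 1) (h2 : Di * D = 1) (h3 : D' * Di' = 1) :
    B * (Di' * A) = Di := by
  have e1 : B = Di * Ai * D' := by
    rw [h]
    calc B = 1 * B := by rw [Matrix.one_mul]
      _ = Di * (Ai * A) * D * B := by rw [h1, Matrix.mul_one, h2]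
      _ = Di * Ai * (A * D * B) := by simp only [Matrix.mul_assoc]
  calc B * (Di' * A) = Di * Ai * D' * (Di' * A) := by rw [← e1]
    _ = Di * Ai * (D' * Di') * A := by simp only [Matrix.mul_assoc]
    _ = Di := by rw [h3, Matrix.mul_one, Matrix.mul_assoc, h1, Matrix.mul_one]

/-- **Target.** -/
theorem coset_unique {lam lam' : Fin (l + 1) → ℤ} {mu mu' : Fin k → ℕ} (hmu : Antitone mu)
    (hmu' : Antitone mu') {γ h : Matrix (Idx l k) (Idx l k) F} (hγ : InGamma γ) (hh : InGO h)
    (H : (tPoint lam' (fun j => (mu' j : ℤ)) : Matrix (Idx l k) (Idx l k) F) =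
      γ * tPoint lam (fun j => (mu j : ℤ)) * h) : lam = lam' ∧ mu = mu' := by
  have hγu : Up γ := hγ.upper
  have hγi : Up (spInv γ) := up_spInv hγu
  set D : Matrix (Idx l k) (Idx l k) F := tPoint lam (fun j => (mu j : ℤ)) with hD
  set Di : Matrix (Idx l k) (Idx l k) F := tPoint (fun i => -lam i) (fun j => -(mu j : ℤ)) with hDi
  set D' : Matrix (Idx l k) (Idx l k) F := tPoint lam' (fun j => (mu' j : ℤ)) with hD'
  have hDD : Di * D = 1 := tPoint_inv_mul _ _
  have hh' : h = Di * spInv γ * D' := by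
    rw [H]
    calc h = 1 * h := by rw [Matrix.one_mul]
      _ = Di * (spInv γ * γ) * D * h := by
        rw [spInv_mul hγ.sp, Matrix.mul_one, hDD]
      _ = Di * spInv γ * (γ * D * h) := by simp only [Matrix.mul_assoc]
  have hu1 : Up (Di * spInv γ) := up_mul (tPoint_up _ _) hγi
  have hhu : Up h := by
    rw [hh']
    exact up_mul hu1 (tPoint_up _ _)
  have hdiag : ∀ x : Idx l k, wt x ≠ 0 → h x x = Di x x * spInv γ x x * D' x x := by
    intro x hx
    rw [hh', diag_mul hu1 (tPoint_up _ _) x hx, diag_mul (tPoint_up _ _) hγi x hx]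
  constructor
  · funext i
    have h1 : IsInt (h (Sum.inl (Sum.inl i)) (Sum.inl (Sum.inl i))) := hh.2 _ _
    rw [hdiag _ (wt_inl_pos i).ne', spInv_ll, hγ.diag _ _ rfl (wt_inr_neg i).ne, if_pos rfl,
      mul_one, hDi, hD', tPoint_e, tPoint_e, tp_mul_tp, isInt_tp_iff] at h1
    have h2 : IsInt (h (Sum.inr (Sum.inl i)) (Sum.inr (Sum.inl i))) := hh.2 _ _
    rw [hdiag _ (wt_inr_neg i).ne, spInv_rr, hγ.diag _ _ rfl (wt_inl_pos i).ne', if_pos rfl,
      mul_one, hDi, hD', tPoint_f, tPoint_f, tp_mul_tp, isInt_tp_iff] at h2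
    omega
  · have hA : midBlock γ ∈ Matrix.symplecticGroup (Fin k) F := mid_sp hγ.sp hγu
    have hB : midBlock h ∈ Matrix.symplecticGroup (Fin k) F := mid_sp hh.1 hhu
    have hAi : ∀ i j, IsInt (midBlock γ i j) := fun i j => hγ.int _ _ (wt_mid i) (wt_mid j)
    have hBi : ∀ i j, IsInt (midBlock h i j) := fun i j => hh.2 _ _
    have hmid : dm (fun j => (mu' j : ℤ)) = midBlock γ * dm (fun j => (mu j : ℤ)) * midBlock h := by
      have := congrArg midBlock H
      rw [midBlock_mul (up_mul hγu (tPoint_up _ _)) hhu, midBlock_mul hγu (tPoint_up _ _),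
        mid_tPoint, mid_tPoint] at this
      exact this
    apply antitone_unique hmu hmu'
    intro s
    apply lattice_unique (midBlock γ) (spInv (midBlock γ)) (mul_spInv hA) hAi (spInv_int hAi)
    intro x hx
    have hAx : ∀ i, IsInt ((midBlock γ *ᵥ x) i) := mulVec_int hAi hx
    rw [cond_iff mu x hx, cond_iff mu' _ hAx]
    -- `dm' ⁻¹ A x = B⁻¹ dm⁻¹ x`
    have key : midBlock h *ᵥ (dm (fun j => -(mu' j : ℤ)) *ᵥ (midBlock γ *ᵥ x))
        = dm (fun j => -(mu j : ℤ)) *ᵥ x := by
      rw [Matrix.mulVec_mulVec, Matrix.mulVec_mulVec, Matrix.mul_assoc,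
        mat_alg _ _ _ _ _ _ _ hmid (spInv_mul hA) (dm_neg_mul _) (dm_mul_neg _)]
    constructor
    · intro hc
      have e2 : dm (fun j => -(mu' j : ℤ)) *ᵥ (midBlock γ *ᵥ x)
          = spInv (midBlock h) *ᵥ (dm (fun j => -(mu j : ℤ)) *ᵥ x) := by
        rw [← key, Matrix.mulVec_mulVec (M := spInv (midBlock h)), spInv_mul hB, Matrix.one_mulVec]
      rw [e2]
      exact mulVec_int (spInv_int hBi) hc
    · intro hc
      rw [← key]
      exact mulVec_int hBi hc

end Pool.Agent.H143_GC.JC
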