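import Pool.Agent.H143_GC.Defs

/-!
The content sum of a hook diagram.

Plain proof.  `Y` is a Young diagram whose row number `k` (numbered from 0) has at most `l + 1 + k` boxes, so the box
`(k, l + 1 + k)` is not in `Y`.  Write `m = l + 1`.  Every box `(r, c)` of `Y` is of exactly one of the three kinds:
 (a) `c < m`: column `c = i`, `r < colLen i`;
 (b) `c = m + j`, `r = j + a` with `a < leg Y j` (`leg Y j = colLen (m + j) - j`): the boxes with `c ≥ m`, `r ≥ c - m`; `j < k` since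
     otherwise `(k, m + k)` would be in `Y` (Young diagrams are lower sets);
 (c) `r = j`, `c = m + j + 1 + b` with `b < arm Y j` (`arm Y j = rowLen j - (m + j + 1)`): the boxes with `c ≥ m`,
     `r < c - m`; again `j < k`.
(use `YoungDiagram.mem_iff_lt_rowLen`, `YoungDiagram.mem_iff_lt_colLen`; the boxes as a `Finset`: `Y.1.cells`).
The sums: (a) `∑_{r < λ} 2 (m + r - i) = λ (λ + 2 (l - i) + 1)` with `λ = colLen i`; (b) `∑_{a < κ} 2 a = κ (κ - 1)`;
(c) `∑_{b < ν} - 2 (b + 1) = - ν (ν + 1)`; and `κ (κ - 1) - ν (ν + 1) = (ν + κ) (κ - ν - 1)`.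
-/

noncomputable section

namespace Pool.Agent.H143_GC.JContent

open Pool.Agent.H143_GC

variable {l k : ℕ}

/-- the corner box `(k, m + k)` is not in the diagram -/
theorem not_corner (Y : HookDiagram l k) {r c : ℕ} (h : (r, c) ∈ Y.1) (hr : k ≤ r) (hc : l + 1 + k ≤ c) :
    False := by
  have h1 : (k, l + 1 + k) ∈ Y.1 := Y.1.up_left_mem hr hc h
  rw [YoungDiagram.mem_iff_lt_rowLen] at h1
  exact absurd Y.2 (by omega)

/-- the boxes of kind (a) -/
theorem sumA (Y : HookDiagram l k) (f : ℕ → ℕ → ℤ) :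
    ∑ x ∈ Y.1.cells with x.2 < l + 1, f x.1 x.2 =
      ∑ i : Fin (l + 1), ∑ r ∈ Finset.range (Y.1.colLen i), f r i := by
  rw [Finset.sum_sigma']
  refine Finset.sum_bij' (fun x hx => ⟨⟨x.2, (Finset.mem_filter.1 hx).2⟩, x.1⟩)
    (fun y _ => (y.2, (y.1 : ℕ))) ?_ ?_ ?_ ?_ ?_
  · intro x hx
    have hx := Finset.mem_filter.1 hx
    rw [YoungDiagram.mem_cells] at hx
    simp only [Finset.mem_sigma, Finset.mem_univ, true_and, Finset.mem_range]
    exact YoungDiagram.mem_iff_lt_colLen.1 hx.1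
  · intro y hy
    simp only [Finset.mem_sigma, Finset.mem_univ, true_and, Finset.mem_range] at hy
    rw [Finset.mem_filter, YoungDiagram.mem_cells]
    exact ⟨YoungDiagram.mem_iff_lt_colLen.2 hy, y.1.2⟩
  · intro x hx; rfl
  · intro y hy; rfl
  · intro x hx; rfl

/-- the boxes of kind (b) -/
theorem sumB (Y : HookDiagram l k) (f : ℕ → ℕ → ℤ) :
    ∑ x ∈ Y.1.cells with ¬ x.2 < l + 1 ∧ x.2 ≤ x.1 + (l + 1), f x.1 x.2 =
      ∑ j : Fin k, ∑ a ∈ Finset.range (leg Y j), f (j + a) (l + 1 + j) := by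
  rw [Finset.sum_sigma']
  refine Finset.sum_bij' (fun x hx => ⟨⟨x.2 - (l + 1), ?_⟩, x.1 - (x.2 - (l + 1))⟩)
    (fun y _ => ((y.1 : ℕ) + y.2, l + 1 + (y.1 : ℕ))) ?_ ?_ ?_ ?_ ?_
  · have hx := Finset.mem_filter.1 hx
    rw [YoungDiagram.mem_cells] at hx
    by_contra hk
    exact not_corner Y (r := x.1) (c := x.2) hx.1 (by omega) (by omega)
  · intro x hx
    have hx := Finset.mem_filter.1 hx
    rw [YoungDiagram.mem_cells] at hx
    simp only [Finset.mem_sigma, Finset.mem_univ, true_and, Finset.mem_range, leg]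
    have h1 : x.1 < Y.1.colLen x.2 := YoungDiagram.mem_iff_lt_colLen.1 hx.1
    have h2 : l + 1 + (x.2 - (l + 1)) = x.2 := by omega
    rw [h2]
    omega
  · intro y hy
    simp only [Finset.mem_sigma, Finset.mem_univ, true_and, Finset.mem_range, leg] at hy
    rw [Finset.mem_filter, YoungDiagram.mem_cells]
    refine ⟨YoungDiagram.mem_iff_lt_colLen.2 (by omega), by simp only; omega, by simp only; omega⟩
  · intro x hx
    have hx := Finset.mem_filter.1 hx
    refine Prod.ext ?_ ?_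
    · simp only; omega
    · simp only; omega
  · rintro ⟨⟨j, hj⟩, a⟩ hy
    simp
  · intro x hx
    have hx := Finset.mem_filter.1 hx
    simp only
    congr 1
    · omega
    · omega

/-- the boxes of kind (c) -/
theorem sumC (Y : HookDiagram l k) (f : ℕ → ℕ → ℤ) :
    ∑ x ∈ Y.1.cells with ¬ x.2 < l + 1 ∧ ¬ x.2 ≤ x.1 + (l + 1), f x.1 x.2 =
      ∑ j : Fin k, ∑ b ∈ Finset.range (arm Y j), f j (l + 1 + j + 1 + b) := by
  rw [Finset.sum_sigma']
  refine Finset.sum_bij' (fun x hx => ⟨⟨x.1, ?_⟩, x.2 - (l + 1 + x.1 + 1)⟩)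
    (fun y _ => ((y.1 : ℕ), l + 1 + (y.1 : ℕ) + 1 + y.2)) ?_ ?_ ?_ ?_ ?_
  · have hx := Finset.mem_filter.1 hx
    rw [YoungDiagram.mem_cells] at hx
    by_contra hk
    exact not_corner Y (r := x.1) (c := x.2) hx.1 (by omega) (by omega)
  · intro x hx
    have hx := Finset.mem_filter.1 hx
    rw [YoungDiagram.mem_cells] at hx
    simp only [Finset.mem_sigma, Finset.mem_univ, true_and, Finset.mem_range, arm]
    have h1 : x.2 < Y.1.rowLen x.1 := YoungDiagram.mem_iff_lt_rowLen.1 hx.1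
    omega
  · intro y hy
    simp only [Finset.mem_sigma, Finset.mem_univ, true_and, Finset.mem_range, arm] at hy
    rw [Finset.mem_filter, YoungDiagram.mem_cells]
    refine ⟨YoungDiagram.mem_iff_lt_rowLen.2 (by omega), by simp; omega, by simp; omega⟩
  · intro x hx
    have hx := Finset.mem_filter.1 hx
    refine Prod.ext ?_ ?_
    · simp only
    · simp only; omega
  · rintro ⟨⟨j, hj⟩, a⟩ hy
    simp
  · intro x hx
    have hx := Finset.mem_filter.1 hx
    simp only
    congr 1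
    omega

/-- the decomposition of a sum over the boxes -/
theorem sum_cells (Y : HookDiagram l k) (f : ℕ → ℕ → ℤ) :
    ∑ x ∈ Y.1.cells, f x.1 x.2 =
      ∑ i : Fin (l + 1), ∑ r ∈ Finset.range (Y.1.colLen i), f r i +
      ∑ j : Fin k, (∑ a ∈ Finset.range (leg Y j), f (j + a) (l + 1 + j) +
        ∑ b ∈ Finset.range (arm Y j), f j (l + 1 + j + 1 + b)) := by
  rw [Finset.sum_add_distrib, ← sumA, ← sumB, ← sumC,
    ← Finset.sum_filter_add_sum_filter_not Y.1.cells (fun x => x.2 < l + 1)]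
  congr 1
  rw [← Finset.sum_filter_add_sum_filter_not (Finset.filter _ Y.1.cells)
    (fun x => x.2 ≤ x.1 + (l + 1)), Finset.filter_filter, Finset.filter_filter]

theorem sum_range_two (n : ℕ) : ∑ a ∈ Finset.range n, 2 * (a : ℤ) = n * (n - 1) := by
  induction n with
  | zero => simp
  | succ n ih => rw [Finset.sum_range_succ, ih]; push_cast; ring

theorem content_sum (Y : HookDiagram l k) :
    ∑ x ∈ Y.1.cells, 2 * ((l : ℤ) + 1 + x.1 - x.2) =
      ∑ i : Fin (l + 1), (Y.1.colLen i : ℤ) * (Y.1.colLen i + 2 * ((l : ℤ) - (i : ℕ)) + 1) +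
      ∑ j : Fin k, ((arm Y j : ℤ) + leg Y j) * ((leg Y j : ℤ) - arm Y j - 1) := by
  rw [sum_cells Y (fun r c => 2 * ((l : ℤ) + 1 + r - c))]
  congr 1
  · refine Finset.sum_congr rfl fun i _ => ?_
    have h : ∀ r ∈ Finset.range (Y.1.colLen i), 2 * ((l : ℤ) + 1 + r - (i : ℕ)) =
        2 * (r : ℤ) + 2 * ((l : ℤ) + 1 - (i : ℕ)) := fun r _ => by ring
    rw [Finset.sum_congr rfl h, Finset.sum_add_distrib, sum_range_two, Finset.sum_const,
      Finset.card_range, nsmul_eq_mul]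
    ring
  · refine Finset.sum_congr rfl fun j _ => ?_
    have h1 : ∀ a ∈ Finset.range (leg Y j),
        2 * ((l : ℤ) + 1 + (((j : ℕ) + a : ℕ) : ℤ) - ((l + 1 + (j : ℕ) : ℕ) : ℤ)) = 2 * (a : ℤ) :=
      fun a _ => by push_cast; ring
    have h2 : ∀ b ∈ Finset.range (arm Y j),
        2 * ((l : ℤ) + 1 + ((j : ℕ) : ℤ) - ((l + 1 + (j : ℕ) + 1 + b : ℕ) : ℤ)) =
          - (2 * (b : ℤ)) - 2 := fun b _ => by push_cast; ring
    rw [Finset.sum_congr rfl h1, Finset.sum_congr rfl h2, Finset.sum_sub_distrib,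
      Finset.sum_neg_distrib, sum_range_two, sum_range_two, Finset.sum_const, Finset.card_range,
      nsmul_eq_mul]
    ring

end Pool.Agent.H143_GC.JContent
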