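import Pool.Agent.H143_GC.SSDefs

/-!
The rotation operator.

`rotN W N m` is a finite part of the normal ordered operator
`- ∑_j ∑_p (p + 1) : f_{j,-1-p} e_{j,p} :`, where `e_{j,p} = W.a (bv (Sum.inl j) p)`, `f_{j,q} = W.a (bv (Sum.inr j) q)`,
`[e_{j,p}, f_{j,-1-p}] = 1` and all other commutators of letters vanish.
-/

noncomputable section

open Matrix

open scoped Classical

namespace Pool.Agent.H143_GC.JRot

open Pool.Agent.H143_GC

variable {k : ℕ} {W : WeylModule k}

/-- Part of the normal ordered operator `- ∑ (p + 1) : f_{-1-p} e_p :`. -/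
def rotN (W : WeylModule k) (N : ℕ) (m : W.M) : W.M :=
  ∑ j : Fin k, (∑ p ∈ Finset.range N, (-((p : ℂ) + 1)) •
      W.a (bv (Sum.inr j) (-1 - p)) (W.a (bv (Sum.inl j) p) m) +
    ∑ p ∈ Finset.range N, (p : ℂ) •
      W.a (bv (Sum.inl j) (-1 - p)) (W.a (bv (Sum.inr j) p) m))

/-- `R` is the normal ordered operator. -/
def IsRot (W : WeylModule k) (R : W.M → W.M) : Prop :=
  ∀ m, ∃ N₀ : ℕ, ∀ N, N₀ ≤ N → R m = rotN W N m

theorem rotN_add (N : ℕ) (m m' : W.M) : rotN W N (m + m') = rotN W N m + rotN W N m' := by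
  unfold rotN
  rw [← Finset.sum_add_distrib]
  apply Finset.sum_congr rfl
  intro j _
  simp only [map_add, smul_add, Finset.sum_add_distrib]
  abel

theorem rotN_smul (N : ℕ) (r : ℂ) (m : W.M) : rotN W N (r • m) = r • rotN W N m := by
  unfold rotN
  rw [Finset.smul_sum]
  apply Finset.sum_congr rfl
  intro j _
  simp only [map_smul, smul_add, Finset.smul_sum, smul_comm r]

theorem rot_lin {R : W.M → W.M} (hR : IsRot W R) :
    (∀ m m', R (m + m') = R m + R m') ∧ ∀ (r : ℂ) m, R (r • m) = r • R m := by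
  constructor
  · intro m m'
    obtain ⟨N1, h1⟩ := hR m
    obtain ⟨N2, h2⟩ := hR m'
    obtain ⟨N3, h3⟩ := hR (m + m')
    have e1 := h1 (N1 + N2 + N3) (by omega)
    have e2 := h2 (N1 + N2 + N3) (by omega)
    have e3 := h3 (N1 + N2 + N3) (by omega)
    rw [e1, e2, e3, rotN_add]
  · intro r m
    obtain ⟨N1, h1⟩ := hR m
    obtain ⟨N2, h2⟩ := hR (r • m)
    have e1 := h1 (N1 + N2) (by omega)
    have e2 := h2 (N1 + N2) (by omega)
    rw [e1, e2, rotN_smul]

theorem com_ef (i j : Fin k) (p q : ℤ) (m : W.M) :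
    W.a (bv (Sum.inl i) p) (W.a (bv (Sum.inr j) q) m) =
      W.a (bv (Sum.inr j) q) (W.a (bv (Sum.inl i) p) m) +
        (if i = j ∧ p + q = -1 then (1 : ℂ) else 0) • m := by
  rw [a_comm, JQ.aux_omr_ef]

theorem com_ff (i j : Fin k) (p q : ℤ) (m : W.M) :
    W.a (bv (Sum.inr i) p) (W.a (bv (Sum.inr j) q) m) =
      W.a (bv (Sum.inr j) q) (W.a (bv (Sum.inr i) p) m) := by
  rw [a_comm, JQ.aux_omr_ff, zero_smul, add_zero]

theorem com_ee (i j : Fin k) (p q : ℤ) (m : W.M) :
    W.a (bv (Sum.inl i) p) (W.a (bv (Sum.inl j) q) m) =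
      W.a (bv (Sum.inl j) q) (W.a (bv (Sum.inl i) p) m) := by
  rw [a_comm, JQ.aux_omr_ee, zero_smul, add_zero]

/-- the scalar which comes from commuting a letter through the finite sum -/
theorem scal (j0 : Fin k) (s : ℤ) (N : ℕ) (hN : s.natAbs < N) :
    ∑ j : Fin k, (∑ p ∈ Finset.range N, (-((p : ℂ) + 1)) *
        (if j0 = j ∧ s = (p : ℤ) then (1 : ℂ) else 0) +
      ∑ p ∈ Finset.range N, (p : ℂ) * (if j0 = j ∧ s = -1 - (p : ℤ) then (1 : ℂ) else 0)) =
      -((s + 1 : ℤ) : ℂ) := by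
  rw [Finset.sum_eq_single j0]
  · rcases s with n | n
    · rw [Finset.sum_eq_single n, Finset.sum_eq_zero, if_pos ⟨rfl, rfl⟩]
      · simp only [Int.ofNat_eq_natCast]
        push_cast
        ring
      · intro p _
        rw [if_neg, mul_zero]
        rintro ⟨_, h⟩
        simp only [Int.ofNat_eq_natCast] at h
        omega
      · intro p _ hp
        rw [if_neg, mul_zero]
        rintro ⟨_, h⟩
        simp only [Int.ofNat_eq_natCast] at h
        omega
      · intro h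
        exact absurd (Finset.mem_range.mpr (by simpa using hN)) h
    · rw [Finset.sum_eq_zero, Finset.sum_eq_single n, if_pos ⟨rfl, by omega⟩]
      · push_cast; ring
      · intro p _ hp
        rw [if_neg, mul_zero]
        rintro ⟨_, h⟩
        omega
      · intro h
        exact absurd (Finset.mem_range.mpr (by
          have : (Int.negSucc n).natAbs = n + 1 := rfl
          omega)) h
      · intro p _
        rw [if_neg, mul_zero]
        rintro ⟨_, h⟩
        omega
  · intro j _ hj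
    rw [Finset.sum_eq_zero, Finset.sum_eq_zero, add_zero]
    · intro p _
      rw [if_neg, mul_zero]
      rintro ⟨h, _⟩
      exact hj h.symm
    · intro p _
      rw [if_neg, mul_zero]
      rintro ⟨h, _⟩
      exact hj h.symm
  · intro h
    exact absurd (Finset.mem_univ j0) h

/-- commuting an operator through the finite sum -/
theorem rotN_comm (A : Module.End ℂ W.M) (N : ℕ) (m : W.M) (d1 d2 : Fin k → ℕ → ℂ)
    (h1 : ∀ (j : Fin k) (p : ℕ), A (W.a (bv (Sum.inr j) (-1 - p)) (W.a (bv (Sum.inl j) p) m)) =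
      W.a (bv (Sum.inr j) (-1 - p)) (W.a (bv (Sum.inl j) p) (A m)) + d1 j p • A m)
    (h2 : ∀ (j : Fin k) (p : ℕ), A (W.a (bv (Sum.inl j) (-1 - p)) (W.a (bv (Sum.inr j) p) m)) =
      W.a (bv (Sum.inl j) (-1 - p)) (W.a (bv (Sum.inr j) p) (A m)) + d2 j p • A m) :
    A (rotN W N m) = rotN W N (A m) + (∑ j : Fin k, (∑ p ∈ Finset.range N, (-((p : ℂ) + 1)) *
        d1 j p + ∑ p ∈ Finset.range N, (p : ℂ) * d2 j p)) • A m := by
  unfold rotN
  rw [map_sum, Finset.sum_smul, ← Finset.sum_add_distrib]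
  apply Finset.sum_congr rfl
  intro j _
  rw [map_add, map_sum, map_sum]
  simp only [map_smul, h1, h2, smul_add, Finset.sum_add_distrib, smul_smul, ← Finset.sum_smul,
    add_smul]
  abel

theorem rot_e {R : W.M → W.M} (hR : IsRot W R) (j : Fin k) (p : ℤ) (m : W.M) :
    R (W.a (bv (Sum.inl j) p) m) =
      W.a (bv (Sum.inl j) p) (R m) + ((p + 1 : ℤ) : ℂ) • W.a (bv (Sum.inl j) p) m := by
  obtain ⟨N1, g1⟩ := hR m
  obtain ⟨N2, g2⟩ := hR (W.a (bv (Sum.inl j) p) m)
  have e1 := g1 (N1 + N2 + p.natAbs + 1) (by omega)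
  have e2 := g2 (N1 + N2 + p.natAbs + 1) (by omega)
  rw [e1, e2, rotN_comm (W.a (bv (Sum.inl j) p)) (N1 + N2 + p.natAbs + 1) m
    (fun i q => if j = i ∧ p = (q : ℤ) then 1 else 0)
    (fun i q => if j = i ∧ p = -1 - (q : ℤ) then 1 else 0), scal j p _ (by omega)]
  · rw [neg_smul, neg_add_cancel_right]
  · intro i q
    rw [com_ef, com_ee j i]
    congr 1
    by_cases h : j = i ∧ p = (q : ℤ)
    · obtain ⟨rfl, rfl⟩ := h
      rw [if_pos ⟨rfl, by omega⟩, if_pos ⟨rfl, rfl⟩]
    · rw [if_neg h, if_neg, zero_smul, zero_smul]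
      rintro ⟨h', h''⟩
      exact h ⟨h', by omega⟩
  · intro i q
    rw [com_ee j i, com_ef j i, map_add, map_smul]
    congr 1
    by_cases h : j = i ∧ p = -1 - (q : ℤ)
    · obtain ⟨rfl, rfl⟩ := h
      rw [if_pos ⟨rfl, by omega⟩, if_pos ⟨rfl, rfl⟩]
    · rw [if_neg h, if_neg, zero_smul, zero_smul]
      rintro ⟨h', h''⟩
      exact h ⟨h', by omega⟩

theorem rot_f {R : W.M → W.M} (hR : IsRot W R) (j : Fin k) (p : ℤ) (m : W.M) :
    R (W.a (bv (Sum.inr j) p) m) =
      W.a (bv (Sum.inr j) p) (R m) + (p : ℂ) • W.a (bv (Sum.inr j) p) m := by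
  obtain ⟨N1, g1⟩ := hR m
  obtain ⟨N2, g2⟩ := hR (W.a (bv (Sum.inr j) p) m)
  have e1 := g1 (N1 + N2 + p.natAbs + 2) (by omega)
  have e2 := g2 (N1 + N2 + p.natAbs + 2) (by omega)
  have hcom : ∀ (i : Fin k) (q : ℤ) (x : W.M), W.a (bv (Sum.inr j) p) (W.a (bv (Sum.inl i) q) x) =
      W.a (bv (Sum.inl i) q) (W.a (bv (Sum.inr j) p) x) -
        (if i = j ∧ q + p = -1 then (1 : ℂ) else 0) • x := by
    intro i q x
    rw [com_ef i j q p x]
    abel
  rw [e1, e2, rotN_comm (W.a (bv (Sum.inr j) p)) (N1 + N2 + p.natAbs + 2) m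
    (fun i q => -(if j = i ∧ (-1 - p) = (q : ℤ) then 1 else 0))
    (fun i q => -(if j = i ∧ (-1 - p) = -1 - (q : ℤ) then 1 else 0))]
  · have hs := scal j (-1 - p) (N1 + N2 + p.natAbs + 2) (by omega)
    simp only [mul_neg, Finset.sum_neg_distrib, ← neg_add]
    rw [hs]
    have : ((-1 - p + 1 : ℤ) : ℂ) = -(p : ℂ) := by push_cast; ring
    rw [this]
    module
  · intro i q
    rw [com_ff j i, hcom i q, map_sub, map_smul, sub_eq_add_neg, neg_smul]
    congr 2
    by_cases h : j = i ∧ (-1 - p) = (q : ℤ)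
    · obtain ⟨rfl, h⟩ := h
      rw [if_pos ⟨rfl, by omega⟩, if_pos ⟨rfl, h⟩]
      congr 4
      omega
    · rw [if_neg h, if_neg, zero_smul, zero_smul]
      rintro ⟨h', h''⟩
      exact h ⟨h'.symm, by omega⟩
  · intro i q
    rw [hcom i, com_ff j i, sub_eq_add_neg, neg_smul]
    congr 2
    by_cases h : j = i ∧ (-1 - p) = -1 - (q : ℤ)
    · obtain ⟨rfl, h⟩ := h
      rw [if_pos ⟨rfl, by omega⟩, if_pos ⟨rfl, h⟩]
      congr 4
      omega
    · rw [if_neg h, if_neg, zero_smul, zero_smul]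
      rintro ⟨h', h''⟩
      exact h ⟨h'.symm, by omega⟩

theorem sum_range_lt {M : Type} [AddCommGroup M] [Module ℂ M] (g : ℕ → M) (N n : ℕ) (hn : n < N)
    (h : ∀ p, n < p → g p = 0) : ∑ p ∈ Finset.range N, g p = ∑ p ∈ Finset.range n, g p + g n := by
  rw [← Finset.sum_range_succ]
  symm
  apply Finset.sum_subset
  · intro p hp
    rw [Finset.mem_range] at hp ⊢
    omega
  · intro p _ hp
    rw [Finset.mem_range] at hp
    exact h p (by omega)

theorem gauss (n : ℕ) : ∑ p ∈ Finset.range n, ((p : ℂ) + 1) = (n : ℂ) * (n + 1) / 2 := by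
  induction n with
  | zero => simp
  | succ n ih =>
    rw [Finset.sum_range_succ, ih]
    push_cast
    ring

theorem rot_vac {R : W.M → W.M} (hR : IsRot W R) {c : ℂ} {hc : ∀ q : ℚ, (q : ℂ) ≠ c}
    {kap nu : Fin k → ℕ} (h0 : ∀ j, kap j = 0 → nu j = 0) {v : W.M}
    (hv : IsVac (tyOf c hc kap nu) W v) :
    R v = (∑ j, (-((nu j : ℂ) + 1) * (2 * ((kap j + nu j : ℕ) : ℂ) / c) +
      (nu j : ℂ) * (nu j + 1) / 2)) • v := by
  obtain ⟨N1, g1⟩ := hR v
  have hN : ∀ j, nu j < N1 + ∑ j, nu j + 1 := by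
    intro j
    have := Finset.single_le_sum (f := nu) (fun i _ => Nat.zero_le _) (Finset.mem_univ j)
    omega
  rw [g1 (N1 + ∑ j, nu j + 1) (by omega)]
  generalize N1 + ∑ j, nu j + 1 = N at hN
  unfold rotN
  rw [Finset.sum_smul]
  apply Finset.sum_congr rfl
  intro j _
  have he : ∀ p : ℕ, nu j < p → W.a (bv (Sum.inl j) p) v = 0 := by
    intro p hp
    apply hv.low
    rw [Ty.L_bv_inl]
    simp only [tyOf]
    split_ifs <;> omega
  have hf : ∀ q : ℤ, -(nu j : ℤ) ≤ q → W.a (bv (Sum.inr j) q) v = 0 := by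
    intro q hq
    apply hv.low
    rw [Ty.L_bv_inr]
    simp only [tyOf]
    exact hq
  have e2 : ∑ p ∈ Finset.range N, (p : ℂ) •
      W.a (bv (Sum.inl j) (-1 - p)) (W.a (bv (Sum.inr j) p) v) = 0 := by
    apply Finset.sum_eq_zero
    intro p _
    rw [hf p (by omega), map_zero, smul_zero]
  rw [e2, add_zero, sum_range_lt _ N (nu j) (hN j) (fun p hp => by
    rw [he p hp, map_zero, smul_zero])]
  have e1 : ∑ p ∈ Finset.range (nu j), (-((p : ℂ) + 1)) •
      W.a (bv (Sum.inr j) (-1 - p)) (W.a (bv (Sum.inl j) p) v) =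
      ((nu j : ℂ) * (nu j + 1) / 2) • v := by
    rw [← gauss, Finset.sum_smul]
    apply Finset.sum_congr rfl
    intro p hp
    rw [Finset.mem_range] at hp
    have h1 := com_ef (W := W) j j (p : ℤ) (-1 - p) v
    rw [if_pos ⟨rfl, by omega⟩, hf (-1 - p) (by omega), map_zero, one_smul] at h1
    have h2 : W.a (bv (Sum.inr j) (-1 - p)) (W.a (bv (Sum.inl j) p) v) = -v := by
      rw [eq_neg_iff_add_eq_zero]
      exact h1.symm
    rw [h2]
    module
  rw [e1]
  have e3 : W.a (bv (Sum.inr j) (-1 - (nu j : ℤ))) (W.a (bv (Sum.inl j) (nu j : ℤ)) v) =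
      (2 * ((kap j + nu j : ℕ) : ℂ) / c) • v := by
    by_cases hk : kap j = 0
    · have hn := h0 j hk
      have : W.a (bv (Sum.inl j) (nu j : ℤ)) v = 0 := by
        apply hv.low
        rw [Ty.L_bv_inl]
        simp only [tyOf, hk]
        simp
      rw [this, map_zero, hk, hn]
      simp
    · exact hv.eig j hk
  rw [e3]
  module

theorem rot_diag {R : W.M → W.M} (hR : IsRot W R) {v : W.M} {r : ℂ} (hv : R v = r • v)
    (hgen : ∀ Z : Submodule ℂ W.M, (∀ x, ∀ m ∈ Z, W.a x m ∈ Z) → v ∈ Z → Z = ⊤) (m : W.M) :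
    m ∈ Submodule.span ℂ {u : W.M | ∃ d : ℤ, R u = (r + d) • u} := by
  set S := Submodule.span ℂ {u : W.M | ∃ d : ℤ, R u = (r + d) • u} with hS
  have hlet : ∀ (α : Fin k ⊕ Fin k) (p : ℤ), ∀ u ∈ S, W.a (bv α p) u ∈ S := by
    intro α p u hu
    rw [hS] at hu
    induction hu using Submodule.span_induction with
    | mem u hu =>
      obtain ⟨d, hd⟩ := hu
      apply Submodule.subset_span
      rcases α with j | j
      · refine ⟨d + (p + 1), ?_⟩
        rw [rot_e hR, hd, map_smul]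
        push_cast
        module
      · refine ⟨d + p, ?_⟩
        rw [rot_f hR, hd, map_smul]
        push_cast
        module
    | zero => rw [map_zero]; exact S.zero_mem
    | add x y _ _ hx hy => rw [map_add]; exact S.add_mem hx hy
    | smul a x _ hx => rw [map_smul]; exact S.smul_mem a hx
  have hstab : ∀ x, ∀ u ∈ S, W.a x u ∈ S := by
    intro x u hu
    obtain ⟨N₀, h0⟩ := exists_Ann u
    obtain ⟨N₁, h1⟩ := exists_OGV x
    set N := max N₀ N₁ with hN
    have hm : Ann W (N : ℤ) u := h0.mono (by exact_mod_cast le_max_left _ _)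
    have hx' : OGV (-(N : ℤ)) x := h1.mono (by
      have : (N₁ : ℤ) ≤ N := by exact_mod_cast le_max_right _ _
      omega)
    rw [a_congr hm (sum_bv x N hx')]
    simp only [map_sum, map_smul, LinearMap.sum_apply, LinearMap.smul_apply]
    exact S.sum_mem fun α _ => S.sum_mem fun p _ => S.smul_mem _ (hlet α p u hu)
  have hvS : v ∈ S := by
    apply Submodule.subset_span
    exact ⟨0, by rw [hv]; simp⟩
  rw [hgen S hstab hvS]
  exact Submodule.mem_top

end Pool.Agent.H143_GC.JRot
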