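import Pool.Agent.H143_GC.Old

/-! Basic facts on Laurent series. -/

noncomputable section

open Matrix

namespace Pool.Agent.H143_GC

instance : CharZero F := charZero_of_injective_algebraMap (algebraMap ℂ F).injective

theorem F.ext' {x y : F} (h : ∀ p, x.coeff p = y.coeff p) : x = y := by
  apply HahnSeries.ext
  funext p
  exact h p

theorem coeff_sub (x y : F) (p : ℤ) : (x - y).coeff p = x.coeff p - y.coeff p := rfl

/-- Coefficients as linear maps. -/
def coeffL (p : ℤ) : F →ₗ[ℂ] ℂ where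
  toFun x := x.coeff p
  map_add' x y := coeff_add x y p
  map_smul' c x := coeff_smul c x p

@[simp] theorem coeffL_apply (p : ℤ) (x : F) : coeffL p x = x.coeff p := rfl

theorem coeff_sum {ι : Type*} (s : Finset ι) (f : ι → F) (p : ℤ) :
    (∑ i ∈ s, f i).coeff p = ∑ i ∈ s, (f i).coeff p := by
  exact map_sum (coeffL p) f s

/-- The order is at least `N`. -/
def OG (N : ℤ) (x : F) : Prop := ∀ p : ℤ, p < N → x.coeff p = 0

theorem isInt_iff {x : F} : IsInt x ↔ OG 0 x := Iff.rfl

theorem OG.mono {N N' : ℤ} {x : F} (h : OG N x) (h' : N' ≤ N) : OG N' x :=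
  fun p hp => h p (by omega)

theorem OG.zero (N : ℤ) : OG N 0 := fun _ _ => rfl

theorem OG.add {N : ℤ} {x y : F} (hx : OG N x) (hy : OG N y) : OG N (x + y) := fun p hp => by
  rw [coeff_add, hx p hp, hy p hp, add_zero]

theorem OG.neg {N : ℤ} {x : F} (hx : OG N x) : OG N (-x) := fun p hp => by
  rw [coeff_neg, hx p hp, neg_zero]

theorem OG.sub {N : ℤ} {x y : F} (hx : OG N x) (hy : OG N y) : OG N (x - y) := fun p hp => by
  rw [coeff_sub, hx p hp, hy p hp, sub_zero]

theorem OG.smul {N : ℤ} {x : F} (c : ℂ) (hx : OG N x) : OG N (c • x) := fun p hp => by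
  rw [coeff_smul, hx p hp, mul_zero]

theorem OG.sum {ι : Type*} {N : ℤ} {s : Finset ι} {f : ι → F} (h : ∀ i ∈ s, OG N (f i)) :
    OG N (∑ i ∈ s, f i) := fun p hp => by
  rw [coeff_sum]
  exact Finset.sum_eq_zero fun i hi => h i hi p hp

theorem exists_OG (x : F) : ∃ N : ℤ, OG N x := by
  by_cases hx : (show LaurentSeries ℂ from x) = 0
  · exact ⟨0, fun p _ => by
      change HahnSeries.coeff (show LaurentSeries ℂ from x) p = 0
      rw [hx]; rfl⟩
  · refine ⟨HahnSeries.order (show LaurentSeries ℂ from x), fun p hp => ?_⟩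
    exact HahnSeries.coeff_eq_zero_of_lt_order hp

theorem coeff_mul' (x y : LaurentSeries ℂ) (A B r : ℤ) (hx : ∀ p < A, x.coeff p = 0)
    (hy : ∀ p < B, y.coeff p = 0) :
    (x * y).coeff r = ∑ p ∈ Finset.Ico A (r - B + 1), x.coeff p * y.coeff (r - p) := by
  classical
  rw [HahnSeries.coeff_mul]
  symm
  have key : ∀ p q : ℤ, x.coeff p ≠ 0 → y.coeff q ≠ 0 → A ≤ p ∧ B ≤ q := fun p q h1 h2 =>
    ⟨by by_contra h; exact h1 (hx p (by omega)), by by_contra h; exact h2 (hy q (by omega))⟩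
  rw [← Finset.sum_filter_ne_zero (s := Finset.Ico A (r - B + 1))]
  refine Finset.sum_bij_ne_zero (fun p _ _ => (p, r - p)) ?_ ?_ ?_ ?_
  · intro p hp h0
    rw [Finset.mem_antidiagonal]
    refine ⟨fun h => h0 (by rw [h, zero_mul]), fun h => h0 (by rw [h, mul_zero]), by ring⟩
  · intro p _ _ q _ _ h
    simpa using congrArg Prod.fst h
  · intro ij hij h0
    rw [Finset.mem_antidiagonal] at hij
    obtain ⟨h1, h2, h3⟩ := hij
    have := key ij.1 ij.2 h1 h2
    have h4 : r - ij.1 = ij.2 := by omega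
    refine ⟨ij.1, ?_, ?_, ?_⟩
    · rw [Finset.mem_filter, Finset.mem_Ico, h4]
      exact ⟨⟨by omega, by omega⟩, h0⟩
    · rw [h4]; exact h0
    · ext <;> simp [h4]
  · intro p _ _
    rfl

theorem coeff_mul (x y : F) (A B r : ℤ) (hx : OG A x) (hy : OG B y) :
    (x * y).coeff r = ∑ p ∈ Finset.Ico A (r - B + 1), x.coeff p * y.coeff (r - p) :=
  coeff_mul' x y A B r hx hy

theorem OG.mul {A B : ℤ} {x y : F} (hx : OG A x) (hy : OG B y) : OG (A + B) (x * y) :=
  fun p hp => by
    rw [coeff_mul x y A B p hx hy, Finset.Ico_eq_empty (by omega), Finset.sum_empty]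

theorem IsInt.mul {x y : F} (hx : IsInt x) (hy : IsInt y) : IsInt (x * y) := OG.mul hx hy

theorem coeff_tp (p q : ℤ) : (tp p).coeff q = if q = p then 1 else 0 := by
  change (HahnSeries.single p (1 : ℂ)).coeff q = _
  rw [HahnSeries.coeff_single]
  congr

theorem tp_mul_tp (p q : ℤ) : tp p * tp q = tp (p + q) := by
  change (HahnSeries.single p (1 : ℂ) * HahnSeries.single q (1 : ℂ) : LaurentSeries ℂ) = _
  rw [HahnSeries.single_mul_single, one_mul]
  rfl

theorem tp_zero : tp 0 = 1 := rfl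

theorem OG_tp (p : ℤ) : OG p (tp p) := fun q hq => by
  rw [coeff_tp, if_neg (by omega)]

theorem tp_ne_zero (p : ℤ) : tp p ≠ 0 := fun h => by
  have := coeff_tp p p
  rw [h] at this
  simp [coeff_zero] at this

theorem tp_inv (p : ℤ) : (tp p)⁻¹ = tp (-p) := by
  apply inv_eq_of_mul_eq_one_left
  rw [tp_mul_tp, neg_add_cancel, tp_zero]

theorem coeff_tp_mul (p q : ℤ) (x : F) : (tp p * x).coeff q = x.coeff (q - p) := by
  have := HahnSeries.coeff_single_mul (r := (1 : ℂ)) (x := (show LaurentSeries ℂ from x)) (a := q)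
    (b := p)
  rw [one_mul] at this
  exact this

theorem coeff_mul_tp (p q : ℤ) (x : F) : (x * tp p).coeff q = x.coeff (q - p) := by
  rw [mul_comm, coeff_tp_mul]

theorem IsInt.one : IsInt (1 : F) := fun p hp => by
  rw [← tp_zero, coeff_tp, if_neg (by omega)]

theorem OG_tp_mul {N p : ℤ} {x : F} : OG N (tp p * x) ↔ OG (N - p) x := by
  constructor
  · intro h q hq
    have := h (q + p) (by omega)
    rwa [coeff_tp_mul, add_sub_cancel_right] at this
  · intro h q hq
    rw [coeff_tp_mul]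
    exact h _ (by omega)

theorem res_add (x y : F) : res (x + y) = res x + res y := rfl

theorem res_sub (x y : F) : res (x - y) = res x - res y := rfl

theorem res_neg (x : F) : res (-x) = -res x := rfl

theorem res_zero : res 0 = 0 := rfl

theorem res_smul (c : ℂ) (x : F) : res (c • x) = c * res x := coeff_smul c x _

theorem res_sum {ι : Type*} (s : Finset ι) (f : ι → F) :
    res (∑ i ∈ s, f i) = ∑ i ∈ s, res (f i) := coeff_sum s f _

theorem OG.res {N : ℤ} {x : F} (h : OG N x) (hN : 0 ≤ N) : res x = 0 := h _ (by omega)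

theorem res_mul (x y : F) (N : ℤ) (hx : OG (-N) x) (hy : OG (-N) y) :
    Pool.Agent.H143_GC.res (x * y) = ∑ p ∈ Finset.Ico (-N) N, x.coeff p * y.coeff (-1 - p) := by
  unfold Pool.Agent.H143_GC.res
  rw [coeff_mul x y (-N) (-N) (-1) hx hy]
  congr 1
  congr 1
  ring

theorem smul_eq_C (c : ℂ) (x : F) : c • x = (algebraMap ℂ F c) * x := rfl

theorem coeff_algebraMap (c : ℂ) (p : ℤ) : (algebraMap ℂ F c).coeff p = if p = 0 then c else 0 := by
  rw [Algebra.algebraMap_eq_smul_one, coeff_smul, ← tp_zero, coeff_tp]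
  simp

end Pool.Agent.H143_GC
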