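import Pool.Agent.H143_GC.Quad

/-! The Lie algebra of `Γ` and its action on discrete modules. -/

noncomputable section

open Matrix

namespace Pool.Agent.H143_GC

variable {l k : ℕ}

/-- Sums over the index set. -/
theorem sum_idx {A : Type*} [AddCommMonoid A] (f : Idx l k → A) :
    ∑ c, f c = (∑ i : Fin (l + 1), f (Sum.inl (Sum.inl i))) +
      (∑ i : Fin (l + 1), f (Sum.inr (Sum.inl i))) + ∑ a : Fin k ⊕ Fin k, f (mid a) := by
  rw [Fintype.sum_sum_type, Fintype.sum_sum_type, Fintype.sum_sum_type, Fintype.sum_sum_type]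
  simp only [mid]
  abel

theorem wt_inl_pos (i : Fin (l + 1)) : 0 < wt (Sum.inl (Sum.inl i) : Idx l k) := by
  have := i.2
  simp only [wt]
  omega

theorem wt_inr_neg (i : Fin (l + 1)) : wt (Sum.inr (Sum.inl i) : Idx l k) < 0 := by
  have := i.2
  simp only [wt]
  omega

theorem wt_mid (a : Fin k ⊕ Fin k) : wt (mid a : Idx l k) = 0 := by
  rcases a with a | a <;> rfl

theorem wt_top : wt (top : Idx l k) = 1 := by
  simp [wt, top, Fin.last]

theorem inLieSp_iff (Y : Matrix (Idx l k) (Idx l k) F) : InLieSp Y ↔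
    (∀ a b, Y (Sum.inr a) (Sum.inr b) = -Y (Sum.inl b) (Sum.inl a)) ∧
    (∀ a b, Y (Sum.inr a) (Sum.inl b) = Y (Sum.inr b) (Sum.inl a)) ∧
    (∀ a b, Y (Sum.inl a) (Sum.inr b) = Y (Sum.inl b) (Sum.inr a)) := by
  have h1 : ∀ a b, (Yᵀ * Matrix.J (Fin (l + 1) ⊕ Fin k) F) a (Sum.inl b) = Y (Sum.inr b) a := by
    intro a b
    rw [Matrix.mul_apply, Fintype.sum_sum_type]
    simp [Matrix.J, Matrix.fromBlocks, Matrix.one_apply]
  have h2 : ∀ a b, (Yᵀ * Matrix.J (Fin (l + 1) ⊕ Fin k) F) a (Sum.inr b) = -Y (Sum.inl b) a := by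
    intro a b
    rw [Matrix.mul_apply, Fintype.sum_sum_type]
    simp [Matrix.J, Matrix.fromBlocks, Matrix.one_apply]
  have h3 : ∀ a b, (Matrix.J (Fin (l + 1) ⊕ Fin k) F * Y) (Sum.inl a) b = -Y (Sum.inr a) b := by
    intro a b
    rw [Matrix.mul_apply, Fintype.sum_sum_type]
    simp [Matrix.J, Matrix.fromBlocks, Matrix.one_apply]
  have h4 : ∀ a b, (Matrix.J (Fin (l + 1) ⊕ Fin k) F * Y) (Sum.inr a) b = Y (Sum.inl a) b := by
    intro a b
    rw [Matrix.mul_apply, Fintype.sum_sum_type]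
    simp [Matrix.J, Matrix.fromBlocks, Matrix.one_apply]
  unfold InLieSp
  constructor
  · intro h
    refine ⟨fun a b => ?_, fun a b => ?_, fun a b => ?_⟩
    · have := congrFun (congrFun h (Sum.inl a)) (Sum.inr b)
      rw [Matrix.add_apply, h2, h3, Matrix.zero_apply] at this
      linear_combination -this
    · have := congrFun (congrFun h (Sum.inl a)) (Sum.inl b)
      rw [Matrix.add_apply, h1, h3, Matrix.zero_apply] at this
      linear_combination -this
    · have := congrFun (congrFun h (Sum.inr a)) (Sum.inr b)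
      rw [Matrix.add_apply, h2, h4, Matrix.zero_apply] at this
      linear_combination this
  · rintro ⟨e1, e2, e3⟩
    ext a b
    rcases a with a | a <;> rcases b with b | b
    · rw [Matrix.add_apply, h1, h3, e2 a b, Matrix.zero_apply]; ring
    · rw [Matrix.add_apply, h2, h3, e1 a b, Matrix.zero_apply]; ring
    · rw [Matrix.add_apply, h1, h4, e1 b a, Matrix.zero_apply]; ring
    · rw [Matrix.add_apply, h2, h4, e3 a b, Matrix.zero_apply]; ring

theorem good_of {X : MV k} (h0 : ∀ i j, IsInt (X i j))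
    (h1 : ∀ a b, X (Sum.inr a) (Sum.inr b) = -X (Sum.inl b) (Sum.inl a))
    (h2 : ∀ a b, X (Sum.inr a) (Sum.inl b) = X (Sum.inr b) (Sum.inl a))
    (h3 : ∀ a b, X (Sum.inl a) (Sum.inr b) = X (Sum.inl b) (Sum.inr a)) : Good X where
  int := h0
  skew x y := by
    rw [← sub_eq_zero, sub_neg_eq_add]
    unfold om Matrix.mulVec dotProduct
    rw [← Finset.sum_add_distrib]
    simp only [Fintype.sum_sum_type]
    have e : ∀ i : Fin k,
      ((∑ j, X (Sum.inl i) (Sum.inl j) * x (Sum.inl j) +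
          ∑ j, X (Sum.inl i) (Sum.inr j) * x (Sum.inr j)) * y (Sum.inr i) -
        (∑ j, X (Sum.inr i) (Sum.inl j) * x (Sum.inl j) +
          ∑ j, X (Sum.inr i) (Sum.inr j) * x (Sum.inr j)) * y (Sum.inl i) +
        (x (Sum.inl i) * (∑ j, X (Sum.inr i) (Sum.inl j) * y (Sum.inl j) +
          ∑ j, X (Sum.inr i) (Sum.inr j) * y (Sum.inr j)) -
        x (Sum.inr i) * (∑ j, X (Sum.inl i) (Sum.inl j) * y (Sum.inl j) +
          ∑ j, X (Sum.inl i) (Sum.inr j) * y (Sum.inr j)))) =
      (∑ j, (X (Sum.inl i) (Sum.inl j) * x (Sum.inl j) * y (Sum.inr i) +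
        X (Sum.inl i) (Sum.inr j) * x (Sum.inr j) * y (Sum.inr i) -
        X (Sum.inr i) (Sum.inl j) * x (Sum.inl j) * y (Sum.inl i) +
        X (Sum.inl j) (Sum.inl i) * x (Sum.inr j) * y (Sum.inl i))) -
      ∑ j, (X (Sum.inl j) (Sum.inl i) * x (Sum.inl i) * y (Sum.inr j) +
        X (Sum.inl j) (Sum.inr i) * x (Sum.inr i) * y (Sum.inr j) -
        X (Sum.inr j) (Sum.inl i) * x (Sum.inl i) * y (Sum.inl j) +
        X (Sum.inl i) (Sum.inl j) * x (Sum.inr i) * y (Sum.inl j)) := by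
      intro i
      rw [← Finset.sum_sub_distrib]
      simp only [Finset.sum_mul, Finset.mul_sum, ← Finset.sum_add_distrib, ← Finset.sum_sub_distrib,
        add_mul, mul_add]
      refine Finset.sum_congr rfl fun j _ => ?_
      rw [h1 i j, h2 i j, h3 i j]
      ring
    rw [Finset.sum_congr rfl fun i _ => e i, Finset.sum_sub_distrib,
      Finset.sum_comm (f := fun i j => X (Sum.inl j) (Sum.inl i) * x (Sum.inl i) * y (Sum.inr j) +
        X (Sum.inl j) (Sum.inr i) * x (Sum.inr i) * y (Sum.inr j) -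
        X (Sum.inr j) (Sum.inl i) * x (Sum.inl i) * y (Sum.inl j) +
        X (Sum.inl i) (Sum.inl j) * x (Sum.inr i) * y (Sum.inl j)), sub_self]

theorem good_mid {Y : Matrix (Idx l k) (Idx l k) F} (hY : Y ∈ lieGamma l k) :
    Good (midBlock Y) := by
  obtain ⟨h1, h2, h3, h4⟩ := hY
  rw [inLieSp_iff] at h1
  obtain ⟨e1, e2, e3⟩ := h1
  refine good_of (fun i j => h4 _ _ (wt_mid i) (wt_mid j)) ?_ ?_ ?_
  · intro a b; exact e1 _ _
  · intro a b; exact e2 _ _
  · intro a b; exact e3 _ _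

/-- products of block triangular matrices: the middle block -/
theorem midBlock_mul {Y Z : Matrix (Idx l k) (Idx l k) F} (hY : ∀ a b, wt b < wt a → Y a b = 0)
    (hZ : ∀ a b, wt b < wt a → Z a b = 0) : midBlock (Y * Z) = midBlock Y * midBlock Z := by
  ext a b
  change (Y * Z) (mid a) (mid b) = _
  rw [Matrix.mul_apply, Matrix.mul_apply, sum_idx, Finset.sum_eq_zero, Finset.sum_eq_zero, zero_add,
    zero_add]
  · rfl
  · intro i _
    rw [hY _ _ (by rw [wt_mid]; exact wt_inr_neg i), zero_mul]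
  · intro i _
    rw [hZ _ _ (by rw [wt_mid]; exact wt_inl_pos i), mul_zero]

/-- products of block triangular matrices: the component of `e_m` -/
theorem heisV_mul {Y Z : Matrix (Idx l k) (Idx l k) F} (hY : ∀ a b, wt b < wt a → Y a b = 0)
    (hZ : ∀ a b, wt b < wt a → Z a b = 0) :
    heisV (Y * Z) = midBlock Y *ᵥ heisV Z + Z top top • heisV Y := by
  ext a
  change (Y * Z) (mid a) top = _
  rw [Matrix.mul_apply, sum_idx, Finset.sum_eq_single (Fin.last l), Finset.sum_eq_zero]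
  · rw [Pi.add_apply, Pi.smul_apply, add_zero, add_comm]
    congr 1
    change Y (mid a) top * Z top top = Z top top * Y (mid a) top
    ring
  · intro i _
    rw [hY _ _ (by rw [wt_mid]; exact wt_inr_neg i), zero_mul]
  · intro i _ hi
    rw [hZ _ _ (by
      rw [wt_top]
      have h2 := i.2
      have h3 : (i : ℕ) ≠ l := fun h => hi (Fin.ext h)
      simp only [wt]
      omega), mul_zero]
  · intro h; exact absurd (Finset.mem_univ _) h

/-- the trace against `e` -/
theorem trace_eMat (Y : Matrix (Idx l k) (Idx l k) F) :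
    Matrix.trace (eMat l k * Y) =
      (∑ i : Fin (l + 1), ∑ j : Fin (l + 1), if (i : ℕ) + 1 = (j : ℕ) then
        Y (Sum.inl (Sum.inl j)) (Sum.inl (Sum.inl i)) -
          Y (Sum.inr (Sum.inl i)) (Sum.inr (Sum.inl j)) else 0) -
        (1 / 2) * Y (Sum.inr (Sum.inl (Fin.last l))) top := by
  have h : ∀ a, (eMat l k * Y) a a = ∑ b, eMat l k a b * Y b a := fun a => Matrix.mul_apply
  unfold Matrix.trace
  simp only [Matrix.diag_apply, h]
  rw [sum_idx]
  simp only [sum_idx]
  have e1 : ∀ (a : Fin k ⊕ Fin k) b, eMat l k (mid a) b = 0 := by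
    rintro (a | a) ((b | b) | (b | b)) <;> rfl
  have e2 : ∀ (a : Fin k ⊕ Fin k) b, eMat l k b (mid a) = 0 := by
    rintro (a | a) ((b | b) | (b | b)) <;> rfl
  have e3 : ∀ i j : Fin (l + 1), eMat l k (Sum.inr (Sum.inl i)) (Sum.inl (Sum.inl j)) = 0 :=
    fun _ _ => rfl
  simp only [e1, e2, e3, zero_mul, Finset.sum_const_zero, add_zero, zero_add]
  have e4 : ∀ i j : Fin (l + 1), eMat l k (Sum.inl (Sum.inl i)) (Sum.inl (Sum.inl j)) *
      Y (Sum.inl (Sum.inl j)) (Sum.inl (Sum.inl i)) = if (i : ℕ) + 1 = (j : ℕ) then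
        Y (Sum.inl (Sum.inl j)) (Sum.inl (Sum.inl i)) else 0 := by
    intro i j
    change (if (i : ℕ) + 1 = (j : ℕ) then (1 : F) else 0) * _ = _
    split_ifs <;> simp
  have e5 : ∀ i j : Fin (l + 1), eMat l k (Sum.inr (Sum.inl i)) (Sum.inr (Sum.inl j)) *
      Y (Sum.inr (Sum.inl j)) (Sum.inr (Sum.inl i)) = if (j : ℕ) + 1 = (i : ℕ) then
        -Y (Sum.inr (Sum.inl j)) (Sum.inr (Sum.inl i)) else 0 := by
    intro i j
    change (if (j : ℕ) + 1 = (i : ℕ) then (-1 : F) else 0) * _ = _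
    split_ifs <;> simp
  have e6 : ∑ i : Fin (l + 1), ∑ j : Fin (l + 1),
      eMat l k (Sum.inl (Sum.inl i)) (Sum.inr (Sum.inl j)) *
        Y (Sum.inr (Sum.inl j)) (Sum.inl (Sum.inl i)) =
      -(1 / 2) * Y (Sum.inr (Sum.inl (Fin.last l))) top := by
    rw [Finset.sum_eq_single (Fin.last l), Finset.sum_eq_single (Fin.last l)]
    · change (if ((Fin.last l : Fin (l + 1)) : ℕ) = l ∧ ((Fin.last l : Fin (l + 1)) : ℕ) = l then
        (-(1 / 2) : F) else 0) * _ = _
      rw [if_pos ⟨rfl, rfl⟩]; rfl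
    · intro j _ hj
      change (if ((Fin.last l : Fin (l + 1)) : ℕ) = l ∧ (j : ℕ) = l then
        (-(1 / 2) : F) else 0) * _ = _
      rw [if_neg (fun h => hj (Fin.ext h.2)), zero_mul]
    · intro h; exact absurd (Finset.mem_univ _) h
    · intro i _ hi
      refine Finset.sum_eq_zero fun j _ => ?_
      change (if (i : ℕ) = l ∧ (j : ℕ) = l then (-(1 / 2) : F) else 0) * _ = _
      rw [if_neg (fun h => hi (Fin.ext h.1)), zero_mul]
    · intro h; exact absurd (Finset.mem_univ _) h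
  rw [Finset.sum_add_distrib, e6]
  simp only [e4, e5]
  have e7 : (∑ i : Fin (l + 1), ∑ j : Fin (l + 1), if (j : ℕ) + 1 = (i : ℕ) then
        -Y (Sum.inr (Sum.inl j)) (Sum.inr (Sum.inl i)) else 0) =
      ∑ i : Fin (l + 1), ∑ j : Fin (l + 1), if (i : ℕ) + 1 = (j : ℕ) then
        -Y (Sum.inr (Sum.inl i)) (Sum.inr (Sum.inl j)) else 0 := Finset.sum_comm
  rw [e7, add_right_comm, ← Finset.sum_add_distrib, neg_mul, ← sub_eq_add_neg]
  congr 1
  refine Finset.sum_congr rfl fun i _ => ?_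
  rw [← Finset.sum_add_distrib]
  refine Finset.sum_congr rfl fun j _ => ?_
  split_ifs <;> ring

theorem row_bot {Y : Matrix (Idx l k) (Idx l k) F} (hY : InLieSp Y) (z : V k) :
    ∑ a, Y (Sum.inr (Sum.inl (Fin.last l))) (mid a) * z a = -om (heisV Y) z := by
  rw [inLieSp_iff] at hY
  obtain ⟨e1, e2, e3⟩ := hY
  rw [Fintype.sum_sum_type, om, ← Finset.sum_add_distrib, ← Finset.sum_neg_distrib]
  refine Finset.sum_congr rfl fun i _ => ?_
  change Y (Sum.inr (Sum.inl (Fin.last l))) (Sum.inl (Sum.inr i)) * _ +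
    Y (Sum.inr (Sum.inl (Fin.last l))) (Sum.inr (Sum.inr i)) * _ = _
  rw [e1, e2]
  simp only [heisV, mid, top]
  ring

theorem trace_mul {P Q : Matrix (Idx l k) (Idx l k) F} (p1 : InLieSp P)
    (p2 : ∀ a b, wt b < wt a → P a b = 0) (p3 : ∀ a b, wt a = wt b → wt a ≠ 0 → P a b = 0)
    (q2 : ∀ a b, wt b < wt a → Q a b = 0) (q3 : ∀ a b, wt a = wt b → wt a ≠ 0 → Q a b = 0) :
    Matrix.trace (eMat l k * (P * Q)) = (1 / 2) * om (heisV P) (heisV Q) := by
  have h1 : ∀ i j : Fin (l + 1), (i : ℕ) + 1 = (j : ℕ) →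
      (P * Q) (Sum.inl (Sum.inl j)) (Sum.inl (Sum.inl i)) = 0 := by
    intro i j hij
    rw [Matrix.mul_apply]
    refine Finset.sum_eq_zero fun c _ => ?_
    have hj := j.2
    have hwj : wt (Sum.inl (Sum.inl j) : Idx l k) = 2 * ((l : ℤ) - (j : ℕ)) + 1 := rfl
    have hwi : wt (Sum.inl (Sum.inl i) : Idx l k) = 2 * ((l : ℤ) - (i : ℕ)) + 1 := rfl
    rcases lt_trichotomy (wt c) (wt (Sum.inl (Sum.inl j) : Idx l k)) with h | h | h
    · rw [p2 _ _ h, zero_mul]
    · rw [p3 _ _ h.symm (by omega), zero_mul]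
    · rcases lt_trichotomy (wt c) (wt (Sum.inl (Sum.inl i) : Idx l k)) with h' | h' | h'
      · exfalso
        rcases c with (c | c) | (c | c) <;> simp only [wt] at h h' hwi hwj <;> omega
      · rw [q3 _ _ h' (by omega), mul_zero]
      · rw [q2 _ _ h', mul_zero]
  have h2 : ∀ i j : Fin (l + 1), (i : ℕ) + 1 = (j : ℕ) →
      (P * Q) (Sum.inr (Sum.inl i)) (Sum.inr (Sum.inl j)) = 0 := by
    intro i j hij
    rw [Matrix.mul_apply]
    refine Finset.sum_eq_zero fun c _ => ?_
    have hj := j.2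
    have hwj : wt (Sum.inr (Sum.inl j) : Idx l k) = -(2 * ((l : ℤ) - (j : ℕ)) + 1) := rfl
    have hwi : wt (Sum.inr (Sum.inl i) : Idx l k) = -(2 * ((l : ℤ) - (i : ℕ)) + 1) := rfl
    rcases lt_trichotomy (wt c) (wt (Sum.inr (Sum.inl i) : Idx l k)) with h | h | h
    · rw [p2 _ _ h, zero_mul]
    · rw [p3 _ _ h.symm (by omega), zero_mul]
    · rcases lt_trichotomy (wt c) (wt (Sum.inr (Sum.inl j) : Idx l k)) with h' | h' | h'
      · exfalso
        rcases c with (c | c) | (c | c) <;> simp only [wt] at h h' hwi hwj <;> omega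
      · rw [q3 _ _ h' (by omega), mul_zero]
      · rw [q2 _ _ h', mul_zero]
  have h3 : (P * Q) (Sum.inr (Sum.inl (Fin.last l))) top = -om (heisV P) (heisV Q) := by
    rw [← row_bot p1, Matrix.mul_apply, sum_idx, Finset.sum_eq_zero, Finset.sum_eq_zero, zero_add,
      zero_add]
    · rfl
    · intro i _
      have h0 := wt_top (l := l) (k := k)
      have h1 : wt (Sum.inr (Sum.inl (Fin.last l)) : Idx l k) = -1 := by simp [wt]
      have h2 := i.2
      have h4 : wt (Sum.inr (Sum.inl i) : Idx l k) = -(2 * ((l : ℤ) - (i : ℕ)) + 1) := rfl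
      rcases lt_trichotomy (wt (Sum.inr (Sum.inl i) : Idx l k))
        (wt (Sum.inr (Sum.inl (Fin.last l)) : Idx l k)) with h | h | h
      · rw [p2 _ _ h, zero_mul]
      · rw [p3 _ _ h.symm (by omega), zero_mul]
      · omega
    · intro i _
      have h0 := wt_top (l := l) (k := k)
      have h2 := i.2
      have h4 : wt (Sum.inl (Sum.inl i) : Idx l k) = 2 * ((l : ℤ) - (i : ℕ)) + 1 := rfl
      rcases lt_trichotomy (wt (Sum.inl (Sum.inl i) : Idx l k)) (wt (top : Idx l k)) with h | h | h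
      · omega
      · rw [q3 _ _ h (by omega), mul_zero]
      · rw [q2 _ _ h, mul_zero]
  rw [trace_eMat, h3, Finset.sum_eq_zero]
  · ring
  · intro i _
    refine Finset.sum_eq_zero fun j _ => ?_
    split_ifs with h
    · rw [h1 i j h, h2 i j h, sub_self]
    · rfl

theorem psi_bracket {Y Z : Matrix (Idx l k) (Idx l k) F} (hY : Y ∈ lieGamma l k)
    (hZ : Z ∈ lieGamma l k) : psi (Y * Z - Z * Y) = omr k (heisV Y) (heisV Z) := by
  obtain ⟨y1, y2, y3, y4⟩ := hY
  obtain ⟨z1, z2, z3, z4⟩ := hZ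
  unfold psi
  rw [Matrix.mul_sub, Matrix.trace_sub, trace_mul y1 y2 y3 z2 z3, trace_mul z1 z2 z3 y2 y3,
    om_swap (heisV Z), omr_apply]
  congr 1
  have h2 : (2 : F) ≠ 0 := two_ne_zero
  field_simp
  ring

theorem psi_add (Y Z : Matrix (Idx l k) (Idx l k) F) : psi (Y + Z) = psi Y + psi Z := by
  unfold psi
  rw [Matrix.mul_add, Matrix.trace_add, res_add]

theorem psi_smul (c : ℂ) (Y : Matrix (Idx l k) (Idx l k) F) : psi (c • Y) = c * psi Y := by
  unfold psi
  rw [Matrix.mul_smul, Matrix.trace_smul, res_smul]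

theorem mul_sub_lie {Y Z : Matrix (Idx l k) (Idx l k) F} (hY : Y ∈ lieGamma l k)
    (hZ : Z ∈ lieGamma l k) :
    midBlock (Y * Z - Z * Y) = midBlock Y * midBlock Z - midBlock Z * midBlock Y ∧
      heisV (Y * Z - Z * Y) = midBlock Y *ᵥ heisV Z - midBlock Z *ᵥ heisV Y := by
  have hy := hY.2.1
  have hz := hZ.2.1
  have y0 : Y top top = 0 := hY.2.2.1 _ _ rfl (by rw [wt_top]; norm_num)
  have z0 : Z top top = 0 := hZ.2.2.1 _ _ rfl (by rw [wt_top]; norm_num)
  constructor
  · rw [← midBlock_mul hy hz, ← midBlock_mul hz hy]; rfl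
  · have e1 := heisV_mul hy hz
    have e2 := heisV_mul hz hy
    rw [z0, zero_smul, add_zero] at e1
    rw [y0, zero_smul, add_zero] at e2
    rw [← e1, ← e2]; rfl

/-- The standard action of the Lie algebra of `Γ` on a discrete module. -/
def stdT (l : ℕ) (W : WeylModule k) : lieGamma l k →ₗ[ℂ] Module.End ℂ W.M where
  toFun Y := NO W (good_mid Y.2) + W.a (heisV (Y : Matrix (Idx l k) (Idx l k) F)) +
    psi (Y : Matrix (Idx l k) (Idx l k) F) • 1
  map_add' Y Z := by
    ext m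
    have h1 : NO W (good_mid (Y + Z).2) m = NO W (good_mid Y.2) m + NO W (good_mid Z.2) m :=
      NO_add (good_mid Y.2) (good_mid Z.2) m
    have h2 : W.a (heisV ((Y + Z : lieGamma l k) : Matrix (Idx l k) (Idx l k) F)) =
        W.a (heisV (Y : Matrix (Idx l k) (Idx l k) F)) +
          W.a (heisV (Z : Matrix (Idx l k) (Idx l k) F)) := map_add W.a _ _
    have h3 : psi ((Y + Z : lieGamma l k) : Matrix (Idx l k) (Idx l k) F) =
        psi (Y : Matrix (Idx l k) (Idx l k) F) + psi (Z : Matrix (Idx l k) (Idx l k) F) :=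
      psi_add _ _
    simp only [LinearMap.add_apply, LinearMap.smul_apply, Module.End.one_apply]
    rw [h1, h2, h3, LinearMap.add_apply, add_smul]
    abel
  map_smul' c Y := by
    ext m
    have h1 : NO W (good_mid (c • Y).2) m = c • NO W (good_mid Y.2) m :=
      NO_smul c (good_mid Y.2) m
    have h2 : W.a (heisV ((c • Y : lieGamma l k) : Matrix (Idx l k) (Idx l k) F)) =
        c • W.a (heisV (Y : Matrix (Idx l k) (Idx l k) F)) := map_smul W.a _ _
    have h3 : psi ((c • Y : lieGamma l k) : Matrix (Idx l k) (Idx l k) F) =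
        c * psi (Y : Matrix (Idx l k) (Idx l k) F) := psi_smul _ _
    simp only [LinearMap.add_apply, LinearMap.smul_apply, Module.End.one_apply, RingHom.id_apply]
    rw [h1, h2, h3, LinearMap.smul_apply, smul_add, smul_add, smul_smul]

theorem stdT_apply (W : WeylModule k) (Y : lieGamma l k) (m : W.M) :
    stdT l W Y m = NO W (good_mid Y.2) m + W.a (heisV (Y : Matrix (Idx l k) (Idx l k) F)) m +
      psi (Y : Matrix (Idx l k) (Idx l k) F) • m := rfl

theorem NO_congr {W : WeylModule k} {X X' : MV k} (h : X = X') (hX : Good X) (hX' : Good X') :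
    NO W hX = NO W hX' := by subst h; rfl

theorem NO_zero {W : WeylModule k} (hX : Good (0 : MV k)) (m : W.M) : NO W hX m = 0 := by
  rw [NO_eq hX (lev_spec m), QN_apply]
  simp

theorem stdT_isLift (W : WeylModule k) : IsLift W (stdT l W) where
  bracket X Y Z h m := by
    obtain ⟨h1, h2⟩ := mul_sub_lie Y.2 Z.2
    have h3 := psi_bracket Y.2 Z.2
    rw [← h] at h1 h2 h3
    simp only [stdT_apply]
    rw [NO_congr h1 (good_mid X.2) ((good_mid Y.2).lie (good_mid Z.2)),
      NO_lie (good_mid Y.2) (good_mid Z.2), h2, h3]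
    simp only [map_add, map_smul, map_sub, LinearMap.sub_apply, NO_comm]
    rw [a_comm (heisV (Y : Matrix (Idx l k) (Idx l k) F))
      (heisV (Z : Matrix (Idx l k) (Idx l k) F)) m]
    module
  comm Y x m := by
    simp only [stdT_apply, map_add, map_smul, NO_comm]
    rw [a_comm (heisV (Y : Matrix (Idx l k) (Idx l k) F)) x m, omr_apply]
    module
  heis Y hY m := by
    rw [stdT_apply]
    have : NO W (good_mid Y.2) m = 0 := by
      have h0 : Good (0 : MV k) := hY ▸ good_mid Y.2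
      rw [NO_congr hY (good_mid Y.2) h0, NO_zero]
    rw [this, zero_add]
  natural φ hφ Y m := by
    rw [stdT_apply, stdT_apply, map_add, map_add, map_smul, NO_natural _ φ hφ, hφ]

end Pool.Agent.H143_GC
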