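import Pool.Agent.H143_GC.Vec

/-! Quadratic elements of the completed Weyl algebra acting on discrete modules. -/

noncomputable section

open Matrix

namespace Pool.Agent.H143_GC

variable {k : ℕ}

/-- Matrices over `F` acting on `F^{2k}`. -/
abbrev MV (k : ℕ) : Type := Matrix (Fin k ⊕ Fin k) (Fin k ⊕ Fin k) F

/-- `X` is an element of `sp(2k, O)`. -/
structure Good (X : MV k) : Prop where
  int : ∀ i j, IsInt (X i j)
  skew : ∀ x y : V k, om (X *ᵥ x) y = -om x (X *ᵥ y)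

theorem OGV_mulVec {X : MV k} (hX : ∀ i j, IsInt (X i j)) {N : ℤ} {x : V k} (hx : OGV N x) :
    OGV N (X *ᵥ x) := fun i => by
  unfold Matrix.mulVec dotProduct
  refine OG.sum fun j _ => ?_
  have := OG.mul (hX i j) (hx j)
  rwa [zero_add] at this

theorem Good.omr {X : MV k} (hX : Good X) (x y : V k) :
    omr k (X *ᵥ x) y = -omr k x (X *ᵥ y) := by
  rw [omr_apply, hX.skew, res_neg, omr_apply]

/-- `mulVec` as a linear map over `ℂ`. -/
def mv (X : MV k) : V k →ₗ[ℂ] V k where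
  toFun x := X *ᵥ x
  map_add' x y := Matrix.mulVec_add X x y
  map_smul' c x := by rw [Matrix.mulVec_smul, RingHom.id_apply]

@[simp] theorem mv_apply (X : MV k) (x : V k) : mv X x = X *ᵥ x := rfl

theorem mulVec_bv (X : MV k) (α β : Fin k ⊕ Fin k) (p : ℤ) : (X *ᵥ bv α p) β = X β α * tp p := by
  unfold bv
  rw [Matrix.mulVec_single]
  simp

theorem Good.trace {X : MV k} (hX : Good X) : ∑ α, (X α α).coeff 0 = 0 := by
  rw [Fintype.sum_sum_type, ← Finset.sum_add_distrib]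
  refine Finset.sum_eq_zero fun j _ => ?_
  have h := hX.skew (Pi.single (Sum.inl j) 1) (Pi.single (Sum.inr j) 1)
  rw [om_single_inr, mul_one, om_swap (Pi.single (Sum.inl j) 1), om_single_inl, mul_one, neg_neg] at h
  have h1 : (X *ᵥ Pi.single (Sum.inl j) 1) (Sum.inl j) = X (Sum.inl j) (Sum.inl j) := by
    rw [Matrix.mulVec_single_one]; rfl
  have h2 : (X *ᵥ Pi.single (Sum.inr j) 1) (Sum.inr j) = X (Sum.inr j) (Sum.inr j) := by
    rw [Matrix.mulVec_single_one]; rfl
  rw [h1, h2] at h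
  rw [h, coeff_neg, neg_add_cancel]

variable (W : WeylModule k)

/-- `m` is annihilated by `t^N O^{2k}`. -/
def Ann (N : ℤ) (m : W.M) : Prop := ∀ x : V k, OGV N x → W.a x m = 0

variable {W}

theorem Ann.mono {N N' : ℤ} {m : W.M} (h : Ann W N m) (h' : N ≤ N') : Ann W N' m :=
  fun x hx => h x (hx.mono h')

theorem exists_Ann (m : W.M) : ∃ N : ℕ, Ann W N m := by
  obtain ⟨N, hN⟩ := W.discrete m
  refine ⟨N.toNat, fun x hx => hN x fun i p hp => hx i p (by omega)⟩

theorem Ann.add {N : ℤ} {m m' : W.M} (h : Ann W N m) (h' : Ann W N m') : Ann W N (m + m') :=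
  fun x hx => by rw [map_add, h x hx, h' x hx, add_zero]

theorem Ann.smul {N : ℤ} {m : W.M} (c : ℂ) (h : Ann W N m) : Ann W N (c • m) :=
  fun x hx => by rw [map_smul, h x hx, smul_zero]

theorem Ann.zero (N : ℤ) : Ann W N (0 : W.M) := fun _ _ => map_zero _

theorem Ann.neg {N : ℤ} {m : W.M} (h : Ann W N m) : Ann W N (-m) :=
  fun x hx => by rw [map_neg, h x hx, neg_zero]

theorem Ann.sub {N : ℤ} {m m' : W.M} (h : Ann W N m) (h' : Ann W N m') : Ann W N (m - m') :=
  fun x hx => by rw [map_sub, h x hx, h' x hx, sub_zero]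

theorem Ann.sum {N : ℤ} {ι : Type*} {s : Finset ι} {f : ι → W.M} (h : ∀ i ∈ s, Ann W N (f i)) :
    Ann W N (∑ i ∈ s, f i) := fun x hx => by
  rw [map_sum]
  exact Finset.sum_eq_zero fun i hi => h i hi x hx

theorem a_comm (x y : V k) (m : W.M) : W.a x (W.a y m) = W.a y (W.a x m) + omr k x y • m := by
  rw [omr_apply, ← W.comm x y m]; abel

theorem Ann.a {N : ℤ} {m : W.M} (h : Ann W N m) {x : V k} (hx : OGV (-N) x) :
    Ann W N (W.a x m) := fun y hy => by
  rw [a_comm, h y hy, map_zero, zero_add, omr_eq_zero hy hx (by omega), zero_smul]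

/-- If `x` and `y` agree modulo `t^N O^{2k}` they act in the same way on vectors annihilated by
`t^N O^{2k}`. -/
theorem a_congr {N : ℤ} {m : W.M} (h : Ann W N m) {x y : V k} (hxy : OGV N (x - y)) :
    W.a x m = W.a y m := by
  have := h _ hxy
  rw [map_sub, LinearMap.sub_apply, sub_eq_zero] at this
  exact this

/-- The truncated quadratic operator. -/
def QN (W : WeylModule k) (X : MV k) (N : ℕ) : Module.End ℂ W.M :=
  -(1 / 2 : ℂ) • ∑ α, ∑ p ∈ Finset.Ico (-(N : ℤ)) N, W.a (X *ᵥ bv α p) * W.a (dv α p)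

theorem QN_apply (X : MV k) (N : ℕ) (m : W.M) :
    QN W X N m = -(1 / 2 : ℂ) • ∑ α, ∑ p ∈ Finset.Ico (-(N : ℤ)) N,
      W.a (X *ᵥ bv α p) (W.a (dv α p) m) := by
  unfold QN
  rw [LinearMap.smul_apply, LinearMap.sum_apply]
  congr 1
  refine Finset.sum_congr rfl fun α _ => ?_
  rw [LinearMap.sum_apply]
  rfl

theorem QN_succ {X : MV k} (hX : Good X) {N : ℕ} {m : W.M} (h : Ann W N m) :
    QN W X (N + 1) m = QN W X N m := by
  rw [QN_apply, QN_apply]
  congr 1
  have key : ∀ α, ∑ p ∈ Finset.Ico (-((N + 1 : ℕ) : ℤ)) ((N + 1 : ℕ) : ℤ),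
      W.a (X *ᵥ bv α p) (W.a (dv α p) m) =
      (∑ p ∈ Finset.Ico (-(N : ℤ)) N, W.a (X *ᵥ bv α p) (W.a (dv α p) m)) +
        (X α α).coeff 0 • m := by
    intro α
    have h1 : Finset.Ico (-((N + 1 : ℕ) : ℤ)) ((N + 1 : ℕ) : ℤ) =
        insert (-(N : ℤ) - 1) (insert (N : ℤ) (Finset.Ico (-(N : ℤ)) N)) := by
      ext p
      simp only [Finset.mem_Ico, Finset.mem_insert]
      omega
    rw [h1, Finset.sum_insert (by simp only [Finset.mem_insert, Finset.mem_Ico]; omega),
      Finset.sum_insert (by simp)]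
    have h2 : W.a (dv α (-(N : ℤ) - 1)) m = 0 := by
      apply h
      have := OGV_dv α (-(N : ℤ) - 1)
      exact this.mono (by omega)
    have h3 : OGV N (X *ᵥ bv α N) := OGV_mulVec hX.int (OGV_bv α N)
    rw [h2, map_zero, zero_add, add_comm]
    congr 1
    rw [a_comm, h _ h3, map_zero, zero_add, omr_dv_right, mulVec_bv, coeff_mul_tp, sub_self]
  rw [Finset.sum_congr rfl fun α _ => key α, Finset.sum_add_distrib, ← Finset.sum_smul, hX.trace,
    zero_smul, add_zero]

theorem QN_stab {X : MV k} (hX : Good X) {N N' : ℕ} {m : W.M} (h : Ann W N m) (h' : N ≤ N') :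
    QN W X N' m = QN W X N m := by
  induction N', h' using Nat.le_induction with
  | base => rfl
  | succ n hn ih => rw [QN_succ hX (h.mono (by exact_mod_cast hn)), ih]

theorem QN_comm {X : MV k} (hX : Good X) {N : ℕ} {m : W.M} (h : Ann W N m) {x : V k}
    (hx : OGV (-N) x) : QN W X N (W.a x m) = W.a x (QN W X N m) + W.a (X *ᵥ x) m := by
  rw [QN_apply, QN_apply]
  have key : ∀ α, ∀ p, W.a (X *ᵥ bv α p) (W.a (dv α p) (W.a x m)) =
      W.a x (W.a (X *ᵥ bv α p) (W.a (dv α p) m)) +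
        (omr k (dv α p) x • W.a (X *ᵥ bv α p) m + omr k (X *ᵥ bv α p) x • W.a (dv α p) m) := by
    intro α p
    rw [a_comm (dv α p) x m, map_add, map_smul, a_comm (X *ᵥ bv α p) x (W.a (dv α p) m)]
    abel
  simp only [key, Finset.sum_add_distrib, smul_add, map_smul, map_sum]
  congr 1
  have e1 : ∑ α, ∑ p ∈ Finset.Ico (-(N : ℤ)) N, omr k (dv α p) x • W.a (X *ᵥ bv α p) m =
      -W.a (X *ᵥ x) m := by
    have h1 := sum_bv x N hx
    have h2 : OGV N (X *ᵥ x - X *ᵥ ∑ α, ∑ p ∈ Finset.Ico (-(N : ℤ)) N,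
        omr k x (dv α p) • bv α p) := by
      rw [← Matrix.mulVec_sub]
      exact OGV_mulVec hX.int h1
    rw [a_congr h h2, ← mv_apply, map_sum]
    simp only [map_sum, map_smul, LinearMap.sum_apply, LinearMap.smul_apply, mv_apply]
    rw [← Finset.sum_neg_distrib]
    refine Finset.sum_congr rfl fun α _ => ?_
    rw [← Finset.sum_neg_distrib]
    refine Finset.sum_congr rfl fun p _ => ?_
    rw [omr_swap, neg_smul]
  have e2 : ∑ α, ∑ p ∈ Finset.Ico (-(N : ℤ)) N, omr k (X *ᵥ bv α p) x • W.a (dv α p) m =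
      -W.a (X *ᵥ x) m := by
    have h1 := sum_dv (X *ᵥ x) N (OGV_mulVec hX.int hx)
    rw [a_congr h h1]
    simp only [map_sum, map_smul, LinearMap.sum_apply, LinearMap.smul_apply]
    rw [← Finset.sum_neg_distrib]
    refine Finset.sum_congr rfl fun α _ => ?_
    rw [← Finset.sum_neg_distrib]
    refine Finset.sum_congr rfl fun p _ => ?_
    rw [hX.omr, neg_smul]
  rw [e1, e2]
  module

theorem QN_ann {X : MV k} (hX : Good X) {N : ℕ} {m : W.M} (h : Ann W N m) :
    Ann W N (QN W X N m) := by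
  rw [QN_apply]
  refine Ann.smul _ (Ann.sum fun α _ => Ann.sum fun p hp => ?_)
  rw [Finset.mem_Ico] at hp
  refine Ann.a (Ann.a h ?_) ?_
  · exact (OGV_dv α p).mono (by omega)
  · exact OGV_mulVec hX.int ((OGV_bv α p).mono (by omega))

/-- A level `N` at which `m` is annihilated. -/
def lev (m : W.M) : ℕ := (exists_Ann m).choose

theorem lev_spec (m : W.M) : Ann W (lev m) m := (exists_Ann m).choose_spec

/-- The action of the quadratic element given by `X ∈ sp(2k, O)`. -/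
def NO (W : WeylModule k) {X : MV k} (hX : Good X) : Module.End ℂ W.M where
  toFun m := QN W X (lev m) m
  map_add' m m' := by
    set N := max (max (lev m) (lev m')) (lev (m + m')) with hN
    rw [← QN_stab hX (lev_spec (m + m')) (le_max_right _ _ : _ ≤ N),
      ← QN_stab hX (lev_spec m) ((le_max_left _ _).trans (le_max_left _ _) : _ ≤ N),
      ← QN_stab hX (lev_spec m') ((le_max_right _ _).trans (le_max_left _ _) : _ ≤ N), map_add]
  map_smul' c m := by
    set N := max (lev m) (lev (c • m)) with hN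
    rw [← QN_stab hX (lev_spec (c • m)) (le_max_right _ _ : _ ≤ N),
      ← QN_stab hX (lev_spec m) (le_max_left _ _ : _ ≤ N), map_smul, RingHom.id_apply]

theorem NO_eq {X : MV k} (hX : Good X) {N : ℕ} {m : W.M} (h : Ann W N m) :
    NO W hX m = QN W X N m := by
  change QN W X (lev m) m = _
  rw [← QN_stab hX (lev_spec m) (le_max_left (lev m) N), ← QN_stab hX h (le_max_right (lev m) N)]

theorem NO_comm {X : MV k} (hX : Good X) (x : V k) (m : W.M) :
    NO W hX (W.a x m) = W.a x (NO W hX m) + W.a (X *ᵥ x) m := by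
  obtain ⟨N₁, h1⟩ := exists_OGV x
  set N := max N₁ (lev m) with hN
  have hm : Ann W N m := (lev_spec m).mono (by exact_mod_cast le_max_right _ _)
  have hx : OGV (-N) x := h1.mono (by
    have : (N₁ : ℤ) ≤ N := by exact_mod_cast le_max_left _ _
    omega)
  rw [NO_eq hX hm, NO_eq hX (hm.a hx), QN_comm hX hm hx]

theorem NO_ann {X : MV k} (hX : Good X) {N : ℕ} {m : W.M} (h : Ann W N m) :
    Ann W N (NO W hX m) := by
  rw [NO_eq hX h]
  exact QN_ann hX h

theorem NO_natural {X : MV k} (hX : Good X) (φ : Module.End ℂ W.M)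
    (hφ : ∀ x m, φ (W.a x m) = W.a x (φ m)) (m : W.M) : φ (NO W hX m) = NO W hX (φ m) := by
  have hm : Ann W (lev m) (φ m) := fun x hx => by rw [← hφ, lev_spec m x hx, map_zero]
  rw [NO_eq hX (lev_spec m), NO_eq hX hm, QN_apply, QN_apply]
  simp only [map_smul, map_sum, hφ]

theorem Good.add {X Y : MV k} (hX : Good X) (hY : Good Y) : Good (X + Y) where
  int i j := by
    have := OG.add (hX.int i j) (hY.int i j)
    exact this
  skew x y := by
    have h1 := hX.skew x y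
    have h2 := hY.skew x y
    have e : ∀ u v w : V k, om (u + v) w = om u w + om v w := fun u v w => by
      unfold om; rw [← Finset.sum_add_distrib]
      refine Finset.sum_congr rfl fun i _ => ?_
      simp only [Pi.add_apply]; ring
    have e' : ∀ u v w : V k, om w (u + v) = om w u + om w v := fun u v w => by
      rw [om_swap, e, neg_add, ← om_swap, ← om_swap]
    rw [Matrix.add_mulVec, Matrix.add_mulVec, e, e', h1, h2]; ring

theorem Good.smul {X : MV k} (c : ℂ) (hX : Good X) : Good (c • X) where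
  int i j := OG.smul c (hX.int i j)
  skew x y := by
    have e : ∀ u w : V k, om (c • u) w = c • om u w := fun u w => by
      unfold om; rw [Finset.smul_sum]
      refine Finset.sum_congr rfl fun i _ => ?_
      simp only [Pi.smul_apply, smul_mul_assoc, smul_sub]
    have e' : ∀ u w : V k, om w (c • u) = c • om w u := fun u w => by
      rw [om_swap, e, ← smul_neg, ← om_swap]
    rw [Matrix.smul_mulVec, Matrix.smul_mulVec, e, e', hX.skew, smul_neg]

theorem Good.lie {X Y : MV k} (hX : Good X) (hY : Good Y) : Good (X * Y - Y * X) where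
  int i j := by
    rw [Matrix.sub_apply, Matrix.mul_apply, Matrix.mul_apply]
    exact OG.sub (OG.sum fun c _ => IsInt.mul (hX.int _ _) (hY.int _ _))
      (OG.sum fun c _ => IsInt.mul (hY.int _ _) (hX.int _ _))
  skew x y := by
    have e : ∀ u v w : V k, om (u - v) w = om u w - om v w := fun u v w => by
      unfold om; rw [← Finset.sum_sub_distrib]
      refine Finset.sum_congr rfl fun i _ => ?_
      simp only [Pi.sub_apply]; ring
    have e' : ∀ u v w : V k, om w (u - v) = om w u - om w v := fun u v w => by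
      rw [om_swap, e, neg_sub, om_swap w u, om_swap w v]; ring
    rw [Matrix.sub_mulVec, Matrix.sub_mulVec, e, e', ← Matrix.mulVec_mulVec, ← Matrix.mulVec_mulVec,
      ← Matrix.mulVec_mulVec, ← Matrix.mulVec_mulVec, hX.skew, hY.skew, hY.skew, hX.skew]
    ring

theorem NO_add {X Y : MV k} (hX : Good X) (hY : Good Y) (m : W.M) :
    NO W (hX.add hY) m = NO W hX m + NO W hY m := by
  rw [NO_eq (hX.add hY) (lev_spec m), NO_eq hX (lev_spec m), NO_eq hY (lev_spec m), QN_apply,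
    QN_apply, QN_apply, ← smul_add, ← Finset.sum_add_distrib]
  congr 1
  refine Finset.sum_congr rfl fun α _ => ?_
  rw [← Finset.sum_add_distrib]
  refine Finset.sum_congr rfl fun p _ => ?_
  rw [Matrix.add_mulVec, map_add, LinearMap.add_apply]

theorem NO_smul {X : MV k} (c : ℂ) (hX : Good X) (m : W.M) :
    NO W (hX.smul c) m = c • NO W hX m := by
  rw [NO_eq (hX.smul c) (lev_spec m), NO_eq hX (lev_spec m), QN_apply, QN_apply, smul_comm c]
  congr 1
  rw [Finset.smul_sum]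
  refine Finset.sum_congr rfl fun α _ => ?_
  rw [Finset.smul_sum]
  refine Finset.sum_congr rfl fun p _ => ?_
  rw [Matrix.smul_mulVec, map_smul, LinearMap.smul_apply]

/-- The invariance of the canonical tensor. -/
theorem sum_inv {A : Type*} [AddCommGroup A] [Module ℂ A] (B : V k →ₗ[ℂ] V k →ₗ[ℂ] A) (N : ℕ)
    (h1 : ∀ x y, OGV N x → OGV (-N) y → B x y = 0) (h2 : ∀ x y, OGV (-N) x → OGV N y → B x y = 0)
    {X : MV k} (hX : Good X) :
    ∑ α, ∑ p ∈ Finset.Ico (-(N : ℤ)) N, B (bv α p) (X *ᵥ dv α p) =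
      -∑ α, ∑ p ∈ Finset.Ico (-(N : ℤ)) N, B (X *ᵥ bv α p) (dv α p) := by
  have hb : ∀ α, ∀ p ∈ Finset.Ico (-(N : ℤ)) N, OGV (-N) (bv (k := k) α p) := fun α p hp => by
    rw [Finset.mem_Ico] at hp
    exact (OGV_bv α p).mono (by omega)
  have hd : ∀ α, ∀ p ∈ Finset.Ico (-(N : ℤ)) N, OGV (-N) (dv (k := k) α p) := fun α p hp => by
    rw [Finset.mem_Ico] at hp
    exact (OGV_dv α p).mono (by omega)
  have e1 : ∀ α, ∀ p ∈ Finset.Ico (-(N : ℤ)) N, B (bv α p) (X *ᵥ dv α p) =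
      ∑ β, ∑ q ∈ Finset.Ico (-(N : ℤ)) N,
        omr k (bv β q) (X *ᵥ dv α p) • B (bv α p) (dv β q) := by
    intro α p hp
    have h := sum_dv (X *ᵥ dv α p) N (OGV_mulVec hX.int (hd α p hp))
    have h3 := h2 _ _ (hb α p hp) h
    rw [map_sub, sub_eq_zero] at h3
    rw [h3]
    simp only [map_sum, map_smul]
  have e2 : ∀ α, ∀ p ∈ Finset.Ico (-(N : ℤ)) N, B (X *ᵥ bv α p) (dv α p) =
      ∑ β, ∑ q ∈ Finset.Ico (-(N : ℤ)) N,
        omr k (X *ᵥ bv α p) (dv β q) • B (bv β q) (dv α p) := by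
    intro α p hp
    have h := sum_bv (X *ᵥ bv α p) N (OGV_mulVec hX.int (hb α p hp))
    have h3 := h1 _ _ h (hd α p hp)
    rw [map_sub, LinearMap.sub_apply, sub_eq_zero] at h3
    rw [h3]
    simp only [map_sum, map_smul, LinearMap.sum_apply, LinearMap.smul_apply]
  rw [Finset.sum_congr rfl fun α _ => Finset.sum_congr rfl fun p hp => e1 α p hp,
    Finset.sum_congr rfl fun α _ => Finset.sum_congr rfl fun p hp => e2 α p hp]
  have e3 : ∀ (f : (Fin k ⊕ Fin k) → ℤ → (Fin k ⊕ Fin k) → ℤ → A),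
      ∑ α, ∑ p ∈ Finset.Ico (-(N : ℤ)) N, ∑ β, ∑ q ∈ Finset.Ico (-(N : ℤ)) N, f α p β q =
      ∑ β, ∑ q ∈ Finset.Ico (-(N : ℤ)) N, ∑ α, ∑ p ∈ Finset.Ico (-(N : ℤ)) N, f α p β q := by
    intro f
    have e : ∀ g : (Fin k ⊕ Fin k) → ℤ → A, ∑ α, ∑ p ∈ Finset.Ico (-(N : ℤ)) N, g α p =
        ∑ z ∈ Finset.univ ×ˢ Finset.Ico (-(N : ℤ)) N, g z.1 z.2 :=
      fun g => (Finset.sum_product' _ _ _).symm
    have e' : ∀ α p, ∑ β, ∑ q ∈ Finset.Ico (-(N : ℤ)) N, f α p β q =
        ∑ z ∈ Finset.univ ×ˢ Finset.Ico (-(N : ℤ)) N, f α p z.1 z.2 := fun α p => e _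
    have e'' : ∀ β q, ∑ α, ∑ p ∈ Finset.Ico (-(N : ℤ)) N, f α p β q =
        ∑ z ∈ Finset.univ ×ˢ Finset.Ico (-(N : ℤ)) N, f z.1 z.2 β q := fun β q => e _
    simp only [e', e'']
    rw [e, e, Finset.sum_comm]
  rw [e3, ← Finset.sum_neg_distrib]
  refine Finset.sum_congr rfl fun α _ => ?_
  rw [← Finset.sum_neg_distrib]
  refine Finset.sum_congr rfl fun p _ => ?_
  rw [← Finset.sum_neg_distrib]
  refine Finset.sum_congr rfl fun β _ => ?_
  rw [← Finset.sum_neg_distrib]
  refine Finset.sum_congr rfl fun q _ => ?_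
  rw [hX.omr, neg_smul, neg_neg]

theorem NO_lie {X Y : MV k} (hX : Good X) (hY : Good Y) (m : W.M) :
    NO W (hX.lie hY) m = NO W hX (NO W hY m) - NO W hY (NO W hX m) := by
  set N := lev m with hN
  have hm : Ann W N m := lev_spec m
  have hb : ∀ α, ∀ p ∈ Finset.Ico (-(N : ℤ)) N, OGV (-N) (bv (k := k) α p) := fun α p hp => by
    rw [Finset.mem_Ico] at hp
    exact (OGV_bv α p).mono (by omega)
  have hd : ∀ α, ∀ p ∈ Finset.Ico (-(N : ℤ)) N, OGV (-N) (dv (k := k) α p) := fun α p hp => by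
    rw [Finset.mem_Ico] at hp
    exact (OGV_dv α p).mono (by omega)
  rw [NO_eq (hX.lie hY) hm, NO_eq hY hm, NO_eq hX hm, QN_apply, QN_apply Y, map_smul, map_sum]
  have e1 : ∀ α, ∀ p ∈ Finset.Ico (-(N : ℤ)) N,
      NO W hX (W.a (Y *ᵥ bv α p) (W.a (dv α p) m)) =
        W.a (Y *ᵥ bv α p) (W.a (dv α p) (QN W X N m)) +
          (W.a (Y *ᵥ bv α p) (W.a (X *ᵥ dv α p) m) +
            W.a ((X * Y) *ᵥ bv α p) (W.a (dv α p) m)) := by
    intro α p hp
    rw [NO_comm, NO_comm, NO_eq hX hm, map_add, Matrix.mulVec_mulVec, add_assoc]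
  have e2 : ∑ α, ∑ p ∈ Finset.Ico (-(N : ℤ)) N, W.a (Y *ᵥ bv α p) (W.a (X *ᵥ dv α p) m) =
      -∑ α, ∑ p ∈ Finset.Ico (-(N : ℤ)) N, W.a ((Y * X) *ᵥ bv α p) (W.a (dv α p) m) := by
    have := sum_inv (A := W.M) (LinearMap.mk₂ ℂ (fun u v => W.a (Y *ᵥ u) (W.a v m))
      (fun u u' v => by rw [Matrix.mulVec_add, map_add, LinearMap.add_apply])
      (fun c u v => by rw [Matrix.mulVec_smul, map_smul, LinearMap.smul_apply])
      (fun u v v' => by rw [map_add, LinearMap.add_apply, map_add])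
      (fun c u v => by rw [map_smul, LinearMap.smul_apply, map_smul])) N
      (fun x y hx hy => by
        rw [LinearMap.mk₂_apply]
        exact (hm.a hy) _ (OGV_mulVec hY.int hx))
      (fun x y hx hy => by
        rw [LinearMap.mk₂_apply, hm y hy, map_zero]) hX
    simp only [LinearMap.mk₂_apply, Matrix.mulVec_mulVec] at this
    exact this
  have e3 : QN W Y N (QN W X N m) = NO W hY (NO W hX m) := by
    rw [NO_eq hX hm, NO_eq hY (QN_ann hX hm)]
  have e4 : ∑ α, NO W hX (∑ p ∈ Finset.Ico (-(N : ℤ)) N, W.a (Y *ᵥ bv α p) (W.a (dv α p) m)) =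
      ∑ α, ∑ p ∈ Finset.Ico (-(N : ℤ)) N, W.a (Y *ᵥ bv α p) (W.a (dv α p) (QN W X N m)) +
      (∑ α, ∑ p ∈ Finset.Ico (-(N : ℤ)) N, W.a (Y *ᵥ bv α p) (W.a (X *ᵥ dv α p) m) +
        ∑ α, ∑ p ∈ Finset.Ico (-(N : ℤ)) N, W.a ((X * Y) *ᵥ bv α p) (W.a (dv α p) m)) := by
    rw [← Finset.sum_add_distrib, ← Finset.sum_add_distrib]
    refine Finset.sum_congr rfl fun α _ => ?_
    rw [map_sum, Finset.sum_congr rfl (e1 α), Finset.sum_add_distrib, Finset.sum_add_distrib]
  have e5 : -(1 / 2 : ℂ) • ∑ α, ∑ p ∈ Finset.Ico (-(N : ℤ)) N,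
      W.a (Y *ᵥ bv α p) (W.a (dv α p) (QN W X N m)) = QN W Y N (QN W X N m) :=
    (QN_apply Y N _).symm
  rw [e4, e2, smul_add, e5, NO_eq hY (QN_ann hX hm), add_sub_cancel_left]
  congr 1
  rw [← sub_eq_neg_add, ← Finset.sum_sub_distrib]
  refine Finset.sum_congr rfl fun α _ => ?_
  rw [← Finset.sum_sub_distrib]
  refine Finset.sum_congr rfl fun p _ => ?_
  rw [Matrix.sub_mulVec, map_sub, LinearMap.sub_apply]

end Pool.Agent.H143_GC
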