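import Pool.Agent.H143_GC.SSDefs

/-!
Transfer of facts to submodules and quotients.

Plain proofs.
* `NO_map`: `NO W hX m = QN W X N m` for any level `N` with `Ann W N m` (NO_eq), `QN_apply` is a finite sum of
  `W.a .. (W.a .. m)`; a homomorphism preserves `Ann` and commutes with the letters.  See `NO_natural` in Quad.lean
  (same proof with two modules).
* `locNil_of_inj`, `locNil_of_surj`: if `φ ∘ A = A' ∘ φ` with `φ` injective (surjective), local nilpotency passes
  from `A'` to `A` (from `A` to `A'`).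
* `intDiag_of_surj`: image of eigenvectors under a surjective map.
* `intDiag_sub`: for `φ` injective (inclusion of an `A`-stable subspace): decompose `φ m` into eigenvectors of `A'`
  (see `JK2.exists_eig` in JK2.lean, it uses `sep` from Simple2.lean: the components of a vector of a stable subspace
  lie in the subspace), so they come from eigenvectors of `A`.
* Facts.sub, Facts.quo: apply these with `Z.subtype`, `Z.mkQ` and NO_map.
* `UL_gen`: in the cyclic module generated by `m`, all `bv α p` with `p` large are locally nilpotent: let `N` with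
  `Ann W N m`; the set of vectors `v` on which `W.a (bv α p)` is nilpotent is a stable submodule
  (`(Module.End.maxGenEigenspace (W.a x) 0)`, see `JQ.dich`, `JQ.aux_pow_a`), and contains `m` when `N ≤ p`.
-/

noncomputable section

open Matrix

open scoped Classical

namespace Pool.Agent.H143_GC.SS

open Pool.Agent.H143_GC

variable {k : ℕ}

theorem NO_map {W W' : WeylModule k} {φ : W.M →ₗ[ℂ] W'.M} (h : IsHom φ) {X : MV k} (hX : Good X)
    (m : W.M) : φ (NO W hX m) = NO W' hX (φ m) := by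
  have hm : Ann W' (lev m) (φ m) := fun x hx => by
    rw [← h x m, lev_spec m x hx, map_zero]
  have h' : ∀ x m, φ (W.a x m) = W'.a x (φ m) := h
  rw [NO_eq hX (lev_spec m), NO_eq hX hm, QN_apply, QN_apply]
  simp only [map_smul, map_sum, h']

theorem aux_pow_map {M M' : Type} [AddCommGroup M] [Module ℂ M] [AddCommGroup M'] [Module ℂ M']
    {A : Module.End ℂ M} {A' : Module.End ℂ M'} {φ : M →ₗ[ℂ] M'}
    (h : ∀ m, φ (A m) = A' (φ m)) (N : ℕ) (m : M) : φ ((A ^ N) m) = (A' ^ N) (φ m) := by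
  induction N with
  | zero => simp
  | succ N ih => rw [pow_succ', pow_succ', Module.End.mul_apply, Module.End.mul_apply, h, ih]

theorem locNil_of_inj {M M' : Type} [AddCommGroup M] [Module ℂ M] [AddCommGroup M'] [Module ℂ M']
    {A : Module.End ℂ M} {A' : Module.End ℂ M'} {φ : M →ₗ[ℂ] M'} (hφ : Function.Injective φ)
    (h : ∀ m, φ (A m) = A' (φ m)) (hA : LocNil A') : LocNil A := by
  intro m
  obtain ⟨N, hN⟩ := hA (φ m)
  refine ⟨N, hφ ?_⟩
  rw [aux_pow_map h, hN, map_zero]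

theorem locNil_of_surj {M M' : Type} [AddCommGroup M] [Module ℂ M] [AddCommGroup M'] [Module ℂ M']
    {A : Module.End ℂ M} {A' : Module.End ℂ M'} {φ : M →ₗ[ℂ] M'} (hφ : Function.Surjective φ)
    (h : ∀ m, φ (A m) = A' (φ m)) (hA : LocNil A) : LocNil A' := by
  intro m'
  obtain ⟨m, rfl⟩ := hφ m'
  obtain ⟨N, hN⟩ := hA m
  exact ⟨N, by rw [← aux_pow_map h, hN, map_zero]⟩

theorem intDiag_of_inj {M M' : Type} [AddCommGroup M] [Module ℂ M] [AddCommGroup M'] [Module ℂ M']
    {A : Module.End ℂ M} {A' : Module.End ℂ M'} {φ : M →ₗ[ℂ] M'} (hφ : Function.Injective φ)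
    (h : ∀ m, φ (A m) = A' (φ m)) (hA : IntDiag A') : IntDiag A := by
  intro m
  have h1 : φ m ∈ ⨆ d : ℤ, Module.End.eigenspace A' (d : ℂ) := by
    have h2 : Submodule.span ℂ {v : M' | ∃ d : ℤ, A' v = (d : ℂ) • v} ≤
        ⨆ d : ℤ, Module.End.eigenspace A' (d : ℂ) := by
      rw [Submodule.span_le]
      rintro v ⟨d, hd⟩
      exact Submodule.mem_iSup_of_mem d (Module.End.mem_eigenspace_iff.2 hd)
    exact h2 (hA (φ m))
  obtain ⟨f, hf, hsum'⟩ := (Submodule.mem_iSup_iff_exists_finsupp _ _).1 h1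
  have hsum : ∑ n ∈ f.support, f n = φ m := hsum'
  have hfe : ∀ n : ℤ, A' (f n) = (n : ℂ) • f n := fun n =>
    Module.End.mem_eigenspace_iff.1 (hf n)
  have hst : ∀ z ∈ LinearMap.range φ, A' z ∈ LinearMap.range φ := by
    rintro _ ⟨z, rfl⟩
    exact ⟨A z, h z⟩
  have hfZ := sep A' (LinearMap.range φ) hst (fun n : ℤ => (n : ℂ)) Int.cast_injective f.support f
    (fun n _ => hfe n) (by rw [hsum]; exact ⟨m, rfl⟩)
  have hex : ∀ n : ℤ, ∃ g : M, n ∈ f.support → φ g = f n := by
    intro n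
    by_cases hn : n ∈ f.support
    · obtain ⟨g, hg⟩ := hfZ n hn
      exact ⟨g, fun _ => hg⟩
    · exact ⟨0, fun h => absurd h hn⟩
  choose g hg using hex
  have hm : m = ∑ n ∈ f.support, g n := by
    apply hφ
    rw [map_sum, ← hsum]
    exact Finset.sum_congr rfl fun n hn => (hg n hn).symm
  rw [hm]
  refine Submodule.sum_mem _ fun n hn => Submodule.subset_span ⟨n, hφ ?_⟩
  rw [h, hg n hn, hfe, map_smul, hg n hn]

theorem intDiag_of_surj {M M' : Type} [AddCommGroup M] [Module ℂ M] [AddCommGroup M'] [Module ℂ M']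
    {A : Module.End ℂ M} {A' : Module.End ℂ M'} {φ : M →ₗ[ℂ] M'} (hφ : Function.Surjective φ)
    (h : ∀ m, φ (A m) = A' (φ m)) (hA : IntDiag A) : IntDiag A' := by
  intro m'
  obtain ⟨m, rfl⟩ := hφ m'
  have h1 : φ m ∈ (Submodule.span ℂ {v : M | ∃ d : ℤ, A v = (d : ℂ) • v}).map φ :=
    Submodule.mem_map_of_mem (hA m)
  rw [Submodule.map_span] at h1
  refine Submodule.span_mono ?_ h1
  rintro _ ⟨v, ⟨d, hd⟩, rfl⟩
  exact ⟨d, by rw [← h, hd, map_smul]⟩

theorem Facts.inj {c : ℂ} {mu : Fin k → ℕ} {W W' : WeylModule k} {φ : W.M →ₗ[ℂ] W'.M}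
    (h : IsHom φ) (hφ : Function.Injective φ) (hF : Facts c mu W') : Facts c mu W where
  C j s hs := locNil_of_inj hφ (NO_map h _) (hF.C j s hs)
  B j s hs h2 := locNil_of_inj hφ (NO_map h _) (hF.B j s hs h2)
  D j s hs h2 := locNil_of_inj hφ (NO_map h _) (hF.D j s hs h2)
  I j := intDiag_of_inj hφ (fun m => by
    simp only [LinearMap.add_apply, LinearMap.smul_apply, Module.End.one_apply, map_add, map_smul,
      NO_map h]) (hF.I j)

theorem Facts.surj {c : ℂ} {mu : Fin k → ℕ} {W W' : WeylModule k} {φ : W.M →ₗ[ℂ] W'.M}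
    (h : IsHom φ) (hφ : Function.Surjective φ) (hF : Facts c mu W) : Facts c mu W' where
  C j s hs := locNil_of_surj hφ (NO_map h _) (hF.C j s hs)
  B j s hs h2 := locNil_of_surj hφ (NO_map h _) (hF.B j s hs h2)
  D j s hs h2 := locNil_of_surj hφ (NO_map h _) (hF.D j s hs h2)
  I j := intDiag_of_surj hφ (fun m => by
    simp only [LinearMap.add_apply, LinearMap.smul_apply, Module.End.one_apply, map_add, map_smul,
      NO_map h]) (hF.I j)

theorem UL.inj {W W' : WeylModule k} {φ : W.M →ₗ[ℂ] W'.M}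
    (h : IsHom φ) (hφ : Function.Injective φ) (hF : UL W') : UL W := by
  obtain ⟨N, hN⟩ := hF
  exact ⟨N, fun α p hp => locNil_of_inj hφ (h _) (hN α p hp)⟩

theorem UL.surj {W W' : WeylModule k} {φ : W.M →ₗ[ℂ] W'.M}
    (h : IsHom φ) (hφ : Function.Surjective φ) (hF : UL W) : UL W' := by
  obtain ⟨N, hN⟩ := hF
  exact ⟨N, fun α p hp => locNil_of_surj hφ (h _) (hN α p hp)⟩

theorem LJ.inj {mu : Fin k → ℕ} {j : Fin k} {nu : ℕ} {W W' : WeylModule k} {φ : W.M →ₗ[ℂ] W'.M}
    (h : IsHom φ) (hφ : Function.Injective φ) (hF : LJ mu W' j nu) : LJ mu W j nu where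
  e p hp := locNil_of_inj hφ (h _) (hF.e p hp)
  e0 h0 := locNil_of_inj hφ (h _) (hF.e0 h0)
  f q hq := locNil_of_inj hφ (h _) (hF.f q hq)

theorem UL_gen (W : WeylModule k) (m : W.M) :
    UL (subW W (JM.gen W m) (fun x z hz => JM.gen_stable W m x z hz)) := by
  obtain ⟨N, hN⟩ := exists_Ann m
  refine ⟨N, fun α p hp => ?_⟩
  have hmem : ∀ m, m ∈ (W.a (bv α p)).maxGenEigenspace 0 ↔ ∃ N : ℕ, (W.a (bv α p) ^ N) m = 0 := by
    intro m
    rw [Module.End.mem_maxGenEigenspace]
    simp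
  have hst : ∀ y, ∀ m ∈ (W.a (bv α p)).maxGenEigenspace 0,
      W.a y m ∈ (W.a (bv α p)).maxGenEigenspace 0 := by
    intro y m hm
    rw [hmem] at hm ⊢
    obtain ⟨N, hN⟩ := hm
    refine ⟨N + 1, ?_⟩
    rw [JQ.aux_pow_a, pow_succ', Module.End.mul_apply, hN, map_zero, map_zero, smul_zero, add_zero]
  have hm0 : m ∈ (W.a (bv α p)).maxGenEigenspace 0 := by
    rw [hmem]
    exact ⟨1, by rw [pow_one]; exact hN _ ((OGV_bv α p).mono hp)⟩
  have hle := JM.gen_le W m _ hst hm0
  intro z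
  obtain ⟨n, hn⟩ := (hmem z.1).1 (hle z.2)
  refine ⟨n, ?_⟩
  have h1 := aux_pow_map (A := (subW W (JM.gen W m) (fun x z hz => JM.gen_stable W m x z hz)).a (bv α p))
    (A' := W.a (bv α p)) (φ := (JM.gen W m).subtype) (fun _ => rfl) n z
  apply Subtype.ext
  exact h1.trans hn

end Pool.Agent.H143_GC.SS
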