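import Pool.Agent.H143_GC.SSDefs

/-!
Two induction principles over commuting locally nilpotent letters.
-/

noncomputable section

open Matrix

open scoped Classical

namespace Pool.Agent.H143_GC.SS

open Pool.Agent.H143_GC

variable {k : ℕ} {W : WeylModule k}

theorem ind_comm {S : Set ((Fin k ⊕ Fin k) × ℤ)}
    (hcomm : ∀ z ∈ S, ∀ z' ∈ S, omr k (bv z.1 z.2) (bv z'.1 z'.2) = 0)
    {z z' : (Fin k ⊕ Fin k) × ℤ} (hz : z ∈ S) (hz' : z' ∈ S) (n : ℕ) (m : W.M)
    (h : W.a (bv z'.1 z'.2) m = 0) :
    W.a (bv z'.1 z'.2) ((W.a (bv z.1 z.2) ^ n) m) = 0 := by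
  induction n with
  | zero => simpa using h
  | succ n ih =>
    rw [pow_succ', Module.End.mul_apply, a_comm, ih, map_zero, zero_add, hcomm z' hz' z hz,
      zero_smul]

theorem ind_fin {S : Set ((Fin k ⊕ Fin k) × ℤ)} {B : ℤ} (hB : ∀ z ∈ S, B ≤ z.2) (N : ℤ) :
    (S ∩ {z | z.2 < N}).Finite := by
  apply (Set.Finite.prod (Set.finite_univ (α := Fin k ⊕ Fin k)) (Set.finite_Ico B N)).subset
  rintro z ⟨hz, hz'⟩
  exact ⟨Set.mem_univ _, hB z hz, hz'⟩

theorem ln (S : Set ((Fin k ⊕ Fin k) × ℤ)) (B : ℤ) (hB : ∀ z ∈ S, B ≤ z.2)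
    (hS : ∀ z ∈ S, LocNil (W.a (bv z.1 z.2)))
    (hcomm : ∀ z ∈ S, ∀ z' ∈ S, omr k (bv z.1 z.2) (bv z'.1 z'.2) = 0)
    (P : Set (Module.End ℂ W.M)) (h1 : 1 ∈ P) (hm : ∀ u ∈ P, ∀ v ∈ P, u * v ∈ P)
    (hc : ∀ u ∈ P, ∀ z ∈ S, ∀ m, u (W.a (bv z.1 z.2) m) = W.a (bv z.1 z.2) (u m))
    (h : ∀ m, (∀ z ∈ S, W.a (bv z.1 z.2) m = 0) → ∃ u ∈ P, u m = 0) (m : W.M) :
    ∃ u ∈ P, u m = 0 := by
  obtain ⟨N, hN⟩ := exists_Ann m
  have key : ∀ T : Finset ((Fin k ⊕ Fin k) × ℤ), (∀ z ∈ T, z ∈ S) → ∀ m : W.M,
      (∀ z ∈ S, z ∉ T → W.a (bv z.1 z.2) m = 0) → ∃ u ∈ P, u m = 0 := by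
    intro T
    induction T using Finset.induction_on with
    | empty =>
      intro _ m hm
      exact h m fun z hz => hm z hz (by simp)
    | insert z T hzT ih =>
      intro hT m hm0
      have hzS : z ∈ S := hT z (Finset.mem_insert_self _ _)
      obtain ⟨n, hn⟩ := hS z hzS m
      induction n generalizing m with
      | zero =>
        refine ⟨1, h1, ?_⟩
        simpa using hn
      | succ n ihn =>
        obtain ⟨u, hu, hu0⟩ := ih (fun z' hz' => hT z' (Finset.mem_insert_of_mem hz'))
          ((W.a (bv z.1 z.2) ^ n) m) (by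
            intro z' hz'S hz'T
            by_cases hzz : z' = z
            · rw [hzz, ← Module.End.mul_apply, ← pow_succ']
              exact hn
            · refine ind_comm hcomm hzS hz'S n m (hm0 z' hz'S ?_)
              intro hmem
              rcases Finset.mem_insert.1 hmem with h' | h'
              · exact hzz h'
              · exact hz'T h')
        have hcn : ∀ (j : ℕ) (x : W.M), u ((W.a (bv z.1 z.2) ^ j) x) =
            (W.a (bv z.1 z.2) ^ j) (u x) := by
          intro j
          induction j with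
          | zero => intro x; simp
          | succ j ihj =>
            intro x
            rw [pow_succ', Module.End.mul_apply, Module.End.mul_apply, hc u hu z hzS, ihj]
        obtain ⟨v, hv, hv0⟩ := ihn (u m) (by
            intro z' hz'S hz'T
            rw [← hc u hu z' hz'S, hm0 z' hz'S hz'T, map_zero]) (by
            rw [← hcn, hu0])
        exact ⟨v * u, hm v hv u hu, hv0⟩
  refine key (ind_fin hB (N : ℤ)).toFinset
    (fun z hz => ((ind_fin hB (N : ℤ)).mem_toFinset.1 hz).1) m fun z hz hz' => ?_
  refine hN _ ((OGV_bv z.1 z.2).mono ?_)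
  by_contra hlt
  exact hz' ((ind_fin hB (N : ℤ)).mem_toFinset.2 ⟨hz, not_le.1 hlt⟩)

theorem span_ker (S : Set ((Fin k ⊕ Fin k) × ℤ)) (B : ℤ) (hB : ∀ z ∈ S, B ≤ z.2)
    (hS : ∀ z ∈ S, LocNil (W.a (bv z.1 z.2)))
    (hcomm : ∀ z ∈ S, ∀ z' ∈ S, omr k (bv z.1 z.2) (bv z'.1 z'.2) = 0)
    (Z : Submodule ℂ W.M) (hZ : Stable W Z)
    (h : ∀ m, (∀ z ∈ S, W.a (bv z.1 z.2) m = 0) → m ∈ Z) : Z = ⊤ := by
  rw [eq_top_iff]
  intro m _
  obtain ⟨N, hN⟩ := exists_Ann m
  have key : ∀ T : Finset ((Fin k ⊕ Fin k) × ℤ), (∀ z ∈ T, z ∈ S) → ∀ m : W.M,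
      (∀ z ∈ S, z ∉ T → W.a (bv z.1 z.2) m = 0) → m ∈ Z := by
    intro T
    induction T using Finset.induction_on with
    | empty =>
      intro _ m hm
      exact h m fun z hz => hm z hz (by simp)
    | insert z T hzT ih =>
      intro hT m hm0
      have hzS : z ∈ S := hT z (Finset.mem_insert_self _ _)
      obtain ⟨n, hn⟩ := hS z hzS m
      induction n generalizing m with
      | zero =>
        have : m = 0 := by simpa using hn
        rw [this]; exact Z.zero_mem
      | succ n ihn =>
        set A := W.a (bv z.1 z.2) with hA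
        set d := W.a (dv z.1 z.2) with hd
        have hAu : A ((A ^ n) m) = 0 := by
          rw [← Module.End.mul_apply, ← pow_succ']
          exact hn
        have huZ : (A ^ n) m ∈ Z := by
          refine ih (fun z' hz' => hT z' (Finset.mem_insert_of_mem hz')) _ ?_
          intro z' hz'S hz'T
          by_cases hzz : z' = z
          · rw [hzz]; exact hAu
          · refine ind_comm hcomm hzS hz'S n m (hm0 z' hz'S ?_)
            intro hmem
            rcases Finset.mem_insert.1 hmem with h' | h'
            · exact hzz h'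
            · exact hz'T h'
        generalize hu : (A ^ n) m = u at hAu huZ
        have hcA : ∀ x, A (d x) = d (A x) + x := by
          intro x
          rw [hA, hd, a_comm, omr_bv_bv, if_pos ⟨rfl, rfl⟩, one_smul]
        have hAd : ∀ j : ℕ, A ((d ^ (j + 1)) u) = ((j : ℂ) + 1) • (d ^ j) u := by
          intro j
          induction j with
          | zero =>
            simp [hcA, hAu]
          | succ j ihj =>
            rw [pow_succ', Module.End.mul_apply, hcA, ihj, map_smul, ← Module.End.mul_apply,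
              ← pow_succ']
            push_cast
            module
        have hfac : ∀ j : ℕ, (A ^ j) ((d ^ j) u) = ((j.factorial : ℕ) : ℂ) • u := by
          intro j
          induction j with
          | zero => simp
          | succ j ihj =>
            rw [pow_succ, Module.End.mul_apply, hAd, map_smul, ihj, smul_smul, Nat.factorial_succ]
            push_cast
            ring_nf
        have hfne : ((n.factorial : ℕ) : ℂ) ≠ 0 := by exact_mod_cast n.factorial_ne_zero
        have hdZ : ∀ j : ℕ, (d ^ j) u ∈ Z := by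
          intro j
          induction j with
          | zero => simpa using huZ
          | succ j ihj =>
            rw [pow_succ', Module.End.mul_apply]
            exact hZ _ _ ihj
        have hm' : m - ((n.factorial : ℕ) : ℂ)⁻¹ • (d ^ n) u ∈ Z := by
          refine ihn _ ?_ ?_
          · intro z' hz'S hz'T
            have hzz : z' ≠ z := by
              rintro rfl; exact hz'T (Finset.mem_insert_self _ _)
            have h1 : W.a (bv z'.1 z'.2) u = 0 := by
              rw [← hu]
              exact ind_comm hcomm hzS hz'S n m (hm0 z' hz'S hz'T)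
            have h2 : ∀ j : ℕ, W.a (bv z'.1 z'.2) ((d ^ j) u) = 0 := by
              intro j
              induction j with
              | zero => simpa using h1
              | succ j ihj =>
                rw [pow_succ', Module.End.mul_apply, hd, a_comm, ← hd, ihj, map_zero, zero_add,
                  omr_bv_bv, if_neg, zero_smul]
                rintro ⟨h3, h4⟩
                exact hzz (Prod.ext h3 h4)
            rw [map_sub, map_smul, hm0 z' hz'S hz'T, h2, smul_zero, sub_zero]
          · rw [map_sub, map_smul, hu, hfac, smul_smul, inv_mul_cancel₀ hfne, one_smul, sub_self]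
        have h3 := Z.add_mem hm' (Z.smul_mem ((n.factorial : ℕ) : ℂ)⁻¹ (hdZ n))
        rwa [sub_add_cancel] at h3
  refine key (ind_fin hB (N : ℤ)).toFinset
    (fun z hz => ((ind_fin hB (N : ℤ)).mem_toFinset.1 hz).1) m fun z hz hz' => ?_
  refine hN _ ((OGV_bv z.1 z.2).mono ?_)
  by_contra hlt
  exact hz' ((ind_fin hB (N : ℤ)).mem_toFinset.2 ⟨hz, not_le.1 hlt⟩)

end Pool.Agent.H143_GC.SS
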