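import Pool.Agent.H143_GC.SSDefs

/-!
Vectors killed by polynomials with prescribed roots.

Plain proofs.
* `LF.add`: multiply the two polynomials (roots of a product).  `LF.smul`, `LF.zero` clear.
* `LF.disj`: if `A`, `B` are disjoint, `p`, `q` have no common root, so they are coprime over the algebraically closed
  field `ℂ` (e.g. `Polynomial.isCoprime_iff_aeval_ne_zero_of_isAlgClosed` or through `gcd` and `IsAlgClosed.exists_root`);
  `u p + v q = 1` gives `m = 0`.
* `LF.split`: `(q(N) p(N)) m = 0`, `u p + v q = 1`: `m = (u p)(N) m + (v q)(N) m`.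
* `LF.shift`: if `N (L m) = L (N m) + δ • L m` for all `m` then `p(N - δ) L = L p(N)`; take the polynomial
  `p.comp (X - C δ)`.
* `LF.of_eig`: `X - C r`.
* `LF.of_apply`: if `LF N A (aeval N p m)` with `p ≠ 0` with roots in `A`, then `LF N A m`.
* `LF.torsion`: `N = y ∘ e` with `e (y m) = y (e m) + m`, `y ^ n m = 0` implies `LF N ℤ m`: by induction on `n`:
  `N (y m) = y (N m) + y m`, so `N (y^n m) = y^n (N m) + n y^n m`, and for `y (y^n m) = 0` one has
  `N (y^n m) = y (e (y^n m)) = e (y (y^n m)) - y^n m = - y^n m`, so `y^n (N m + (n+1) m) = 0`, apply the induction hypothesis to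
  `N m + (n+1) m = aeval N (X + C (n+1)) m`.
* `LF.map`: homomorphisms.
-/

noncomputable section

open Matrix

open scoped Classical

namespace Pool.Agent.H143_GC.SS

open Pool.Agent.H143_GC

variable {M : Type} [AddCommGroup M] [Module ℂ M] {N : Module.End ℂ M} {A B : Set ℂ}

theorem LF_aeval_map {M' : Type} [AddCommGroup M'] [Module ℂ M'] {N' : Module.End ℂ M'}
    {φ : M →ₗ[ℂ] M'} (hφ : ∀ m, φ (N m) = N' (φ m)) (p : Polynomial ℂ) (m : M) :
    φ (Polynomial.aeval N p m) = Polynomial.aeval N' p (φ m) := by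
  have hpow : ∀ (n : ℕ) (m : M), φ ((N ^ n) m) = (N' ^ n) (φ m) := by
    intro n
    induction n with
    | zero => intro m; simp
    | succ n ih =>
      intro m
      rw [pow_succ, pow_succ, Module.End.mul_apply, Module.End.mul_apply, ih, hφ]
  induction p using Polynomial.induction_on' with
  | add p q hp hq =>
    rw [map_add, map_add, LinearMap.add_apply, LinearMap.add_apply, map_add, hp, hq]
  | monomial n a =>
    rw [Polynomial.aeval_monomial, Polynomial.aeval_monomial, Module.End.mul_apply,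
      Module.End.mul_apply, Module.algebraMap_end_apply, Module.algebraMap_end_apply, map_smul,
      hpow]

theorem LF_aeval_mul (p q : Polynomial ℂ) (m : M) :
    Polynomial.aeval N (p * q) m = Polynomial.aeval N p (Polynomial.aeval N q m) := by
  rw [map_mul, Module.End.mul_apply]

theorem LF_root_mul {p q : Polynomial ℂ} (hp : ∀ r, p.IsRoot r → r ∈ A)
    (hq : ∀ r, q.IsRoot r → r ∈ A) : ∀ r, (p * q).IsRoot r → r ∈ A := by
  intro r hr
  rcases Polynomial.root_mul.mp hr with h | h
  · exact hp r h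
  · exact hq r h

theorem LF_coprime (hAB : Disjoint A B) {p q : Polynomial ℂ} (hp : ∀ r, p.IsRoot r → r ∈ A)
    (hq : ∀ r, q.IsRoot r → r ∈ B) : IsCoprime p q := by
  rw [Polynomial.isCoprime_iff_aeval_ne_zero_of_isAlgClosed ℂ ℂ]
  intro a
  by_contra hcon
  push Not at hcon
  have h1 : a ∈ A := hp a (by rw [Polynomial.IsRoot.def]; simpa using hcon.1)
  have h2 : a ∈ B := hq a (by rw [Polynomial.IsRoot.def]; simpa using hcon.2)
  exact (Set.disjoint_left.mp hAB) h1 h2

theorem LF.zero : LF N A 0 := by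
  refine ⟨1, one_ne_zero, ?_, map_zero _⟩
  intro r hr
  rw [Polynomial.IsRoot.def, Polynomial.eval_one] at hr
  exact absurd hr one_ne_zero

theorem LF.add {m m' : M} (h : LF N A m) (h' : LF N A m') : LF N A (m + m') := by
  obtain ⟨p, hp0, hp, hpm⟩ := h
  obtain ⟨q, hq0, hq, hqm⟩ := h'
  refine ⟨p * q, mul_ne_zero hp0 hq0, LF_root_mul hp hq, ?_⟩
  have h1 : Polynomial.aeval N (p * q) m = 0 := by rw [mul_comm, LF_aeval_mul, hpm, map_zero]
  have h2 : Polynomial.aeval N (p * q) m' = 0 := by rw [LF_aeval_mul, hqm, map_zero]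
  rw [map_add, h1, h2, add_zero]

theorem LF.smul {m : M} (c : ℂ) (h : LF N A m) : LF N A (c • m) := by
  obtain ⟨p, hp0, hp, hpm⟩ := h
  exact ⟨p, hp0, hp, by rw [map_smul, hpm, smul_zero]⟩

theorem LF.disj (hAB : Disjoint A B) {m : M} (h : LF N A m) (h' : LF N B m) : m = 0 := by
  obtain ⟨p, hp0, hp, hpm⟩ := h
  obtain ⟨q, hq0, hq, hqm⟩ := h'
  obtain ⟨u, v, huv⟩ := LF_coprime hAB hp hq
  have h1 : Polynomial.aeval N (u * p + v * q) m = m := by
    rw [huv, map_one, Module.End.one_apply]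
  rw [map_add, LinearMap.add_apply, LF_aeval_mul, LF_aeval_mul, hpm, hqm, map_zero, map_zero,
    add_zero] at h1
  exact h1.symm

theorem LF.split (hAB : Disjoint A B) {m : M} {p : Polynomial ℂ} (hp : p ≠ 0)
    (hpA : ∀ r, p.IsRoot r → r ∈ A) (h : LF N B (Polynomial.aeval N p m)) :
    ∃ m₁ m₂, m = m₁ + m₂ ∧ LF N A m₁ ∧ LF N B m₂ := by
  obtain ⟨q, hq0, hq, hqm⟩ := h
  obtain ⟨u, v, huv⟩ := LF_coprime hAB hpA hq
  refine ⟨Polynomial.aeval N (v * q) m, Polynomial.aeval N (u * p) m, ?_, ⟨p, hp, hpA, ?_⟩,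
    ⟨q, hq0, hq, ?_⟩⟩
  · have h1 : Polynomial.aeval N (u * p + v * q) m = m := by
      rw [huv, map_one, Module.End.one_apply]
    rw [map_add, LinearMap.add_apply, add_comm] at h1
    exact h1.symm
  · rw [← LF_aeval_mul, show p * (v * q) = v * (q * p) by ring, LF_aeval_mul, LF_aeval_mul, hqm,
      map_zero]
  · rw [← LF_aeval_mul, show q * (u * p) = u * (q * p) by ring, LF_aeval_mul, LF_aeval_mul, hqm,
      map_zero]

theorem LF.shift {L : Module.End ℂ M} {δ : ℂ} (hL : ∀ m, N (L m) = L (N m) + δ • L m)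
    (hA : ∀ r ∈ A, r + δ ∈ A) {m : M} (h : LF N A m) : LF N A (L m) := by
  obtain ⟨p, hp0, hp, hpm⟩ := h
  refine ⟨p.comp (Polynomial.X - Polynomial.C δ), ?_, ?_, ?_⟩
  · intro h0
    have h1 : (p.comp (Polynomial.X - Polynomial.C δ)).comp (Polynomial.X + Polynomial.C δ) = p := by
      rw [Polynomial.comp_assoc]
      simp
    rw [h0, Polynomial.zero_comp] at h1
    exact hp0 h1.symm
  · intro r hr
    rw [Polynomial.IsRoot.def, Polynomial.eval_comp, Polynomial.eval_sub, Polynomial.eval_X,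
      Polynomial.eval_C] at hr
    have h1 := hA _ (hp (r - δ) hr)
    rwa [sub_add_cancel] at h1
  · rw [Polynomial.aeval_comp]
    have h1 : ∀ m, L (N m) = (Polynomial.aeval N (Polynomial.X - Polynomial.C δ)) (L m) := by
      intro m
      rw [map_sub, Polynomial.aeval_X, Polynomial.aeval_C, LinearMap.sub_apply,
        Module.algebraMap_end_apply, hL]
      abel
    rw [← LF_aeval_map h1, hpm, map_zero]

theorem LF.of_eig {m : M} {r : ℂ} (hr : r ∈ A) (h : N m = r • m) : LF N A m := by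
  refine ⟨Polynomial.X - Polynomial.C r, Polynomial.X_sub_C_ne_zero r, ?_, ?_⟩
  · intro s hs
    rw [Polynomial.root_X_sub_C] at hs
    rw [← hs]; exact hr
  · rw [map_sub, Polynomial.aeval_X, Polynomial.aeval_C, LinearMap.sub_apply,
      Module.algebraMap_end_apply, h, sub_self]

theorem LF.of_apply {m : M} {p : Polynomial ℂ} (hp : p ≠ 0) (hpA : ∀ r, p.IsRoot r → r ∈ A)
    (h : LF N A (Polynomial.aeval N p m)) : LF N A m := by
  obtain ⟨q, hq0, hq, hqm⟩ := h
  exact ⟨q * p, mul_ne_zero hq0 hp, LF_root_mul hq hpA, by rw [LF_aeval_mul, hqm]⟩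

theorem LF.torsion {y e : Module.End ℂ M} (hN : ∀ m, N m = y (e m))
    (hye : ∀ m, e (y m) = y (e m) + m) {n : ℕ} {m : M} (h : (y ^ n) m = 0) :
    LF N (Set.range fun z : ℤ => (z : ℂ)) m := by
  have hNy : ∀ (n : ℕ) (m : M), N ((y ^ n) m) = (y ^ n) (N m) + (n : ℂ) • (y ^ n) m := by
    intro n
    induction n with
    | zero => intro m; simp
    | succ n ih =>
      intro m
      rw [pow_succ, Module.End.mul_apply, Module.End.mul_apply, ih, hN (y m), hye, map_add,
        map_add, hN m]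
      push_cast
      module
  induction n generalizing m with
  | zero =>
    rw [pow_zero, Module.End.one_apply] at h
    rw [h]
    exact LF.zero
  | succ n ih =>
    have h1 : y ((y ^ n) m) = 0 := by
      rw [← Module.End.mul_apply, ← pow_succ']
      exact h
    have h2 : N ((y ^ n) m) = - (y ^ n) m := by
      have h3 := hye ((y ^ n) m)
      rw [h1, map_zero] at h3
      rw [hN]
      exact eq_neg_of_add_eq_zero_left h3.symm
    have h4 : (y ^ n) (N m + ((n : ℂ) + 1) • m) = 0 := by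
      rw [map_add, map_smul, add_smul, one_smul, ← add_assoc, ← hNy, h2, neg_add_cancel]
    have h5 := ih h4
    have h6 : N m + ((n : ℂ) + 1) • m =
        Polynomial.aeval N (Polynomial.X + Polynomial.C ((n : ℂ) + 1)) m := by
      rw [map_add, Polynomial.aeval_X, Polynomial.aeval_C, LinearMap.add_apply,
        Module.algebraMap_end_apply]
    rw [h6] at h5
    refine LF.of_apply (Polynomial.X_add_C_ne_zero _) ?_ h5
    intro r hr
    rw [Polynomial.IsRoot.def, Polynomial.eval_add, Polynomial.eval_X, Polynomial.eval_C] at hr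
    refine ⟨-((n : ℤ) + 1), ?_⟩
    have h7 : r = -((n : ℂ) + 1) := eq_neg_of_add_eq_zero_left hr
    rw [h7]
    push_cast
    ring

theorem LF.map {M' : Type} [AddCommGroup M'] [Module ℂ M'] {N' : Module.End ℂ M'}
    {φ : M →ₗ[ℂ] M'} (hφ : ∀ m, φ (N m) = N' (φ m)) {m : M} (h : LF N A m) : LF N' A (φ m) := by
  obtain ⟨p, hp0, hp, hpm⟩ := h
  exact ⟨p, hp0, hp, by rw [← LF_aeval_map hφ, hpm, map_zero]⟩

/-- the image of a vector under a polynomial of the operator -/
theorem aeval_map {M' : Type} [AddCommGroup M'] [Module ℂ M'] {N' : Module.End ℂ M'}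
    {φ : M →ₗ[ℂ] M'} (hφ : ∀ m, φ (N m) = N' (φ m)) (p : Polynomial ℂ) (m : M) :
    φ (Polynomial.aeval N p m) = Polynomial.aeval N' p (φ m) :=
  LF_aeval_map hφ p m

end Pool.Agent.H143_GC.SS

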