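import Pool.Agent.H143_GC.SS2

/-!
Nilpotent letters in a general (not simple) module with the facts.

Compare JK1.lean (`f_nonneg`, `e_large`, `off`), where the module is simple; the new ingredient is the induction
principle `ln` instead of `JQ.common_ker` and simplicity.

Plain proofs.
* `nil_of_ker`: apply `ln` with `P = {A ^ n}`.
* `f_nn`: descending induction `JK1.desc` on `q ≥ 0`, base from `UL`. Step: all `f_{q'}`, `q' > q`, are locally nilpotent
  and commute (`omr_same'`); by `nil_of_ker` with `S = {z | z.1 = Sum.inr j ∧ q < z.2}` it suffices that `f_q` is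
  nilpotent at each vector `m` of their common kernel `K`.  `K` is stable under `f_q`, and there
  `NO W (good_matC j _) m = -(1/2) f_q (f_q m)` for `s = 2 q + 1` (`JQ.NO_matC`), so `NO^n m = (-1/2)^n f_q^(2n) m` and
  `hF.C` gives `f_q^(2n) m = 0`.
* `e_lg`: the same with `JQ.NO_matB`, `hF.B`, `q ≥ mu j`, so `2 q + 1 ≥ 2 mu j`.
* `e_gt`: descending induction on `p > nu`; step: `S = {z | (z.1 = Sum.inl j ∧ p < z.2) ∨ (z.1 = Sum.inr j ∧ -nu ≤ z.2)}`
  (the letters commute: `p' + q ≠ -1`, see `JK1.omr_ne_sum`, `JK1.comm_letters`); `e_p` commutes with them.  On the common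
  kernel `K` (stable under `e_p` and `y = f_{-1-nu}`), `NO W (good_matA j j hs) m = - y (e_p m)` for `s = p - nu > 0`
  (`JQ.NO_matA_off` with `P = p`, `Q = -1 - nu`), and `y`, `e_p` commute, so `NO^n m = (-1)^n y^n (e_p^n m)`;
  `hF.D` and the injectivity of `y` give `e_p^n m = 0`.
-/

noncomputable section

open Matrix

open scoped Classical

namespace Pool.Agent.H143_GC.SS

open Pool.Agent.H143_GC

variable {k : ℕ} {W : WeylModule k}

theorem nil_of_ker (S : Set ((Fin k ⊕ Fin k) × ℤ)) (B : ℤ) (hB : ∀ z ∈ S, B ≤ z.2)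
    (hS : ∀ z ∈ S, LocNil (W.a (bv z.1 z.2)))
    (hcomm : ∀ z ∈ S, ∀ z' ∈ S, omr k (bv z.1 z.2) (bv z'.1 z'.2) = 0)
    (A : Module.End ℂ W.M)
    (hc : ∀ z ∈ S, ∀ m, A (W.a (bv z.1 z.2) m) = W.a (bv z.1 z.2) (A m))
    (h : ∀ m, (∀ z ∈ S, W.a (bv z.1 z.2) m = 0) → ∃ n : ℕ, (A ^ n) m = 0) : LocNil A := by
  intro m
  obtain ⟨u, ⟨n, rfl⟩, hu⟩ := ln S B hB hS hcomm {u | ∃ n : ℕ, u = A ^ n} ⟨0, (pow_zero A).symm⟩
    (by
      rintro _ ⟨a, rfl⟩ _ ⟨b, rfl⟩
      exact ⟨a + b, (pow_add A a b).symm⟩)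
    (by
      rintro _ ⟨n, rfl⟩ z hz m
      induction n generalizing m with
      | zero => rw [pow_zero, Module.End.one_apply, Module.End.one_apply]
      | succ n ih =>
        rw [pow_succ, Module.End.mul_apply, Module.End.mul_apply, hc z hz, ih])
    (fun m hm => by
      obtain ⟨n, hn⟩ := h m hm
      exact ⟨A ^ n, ⟨n, rfl⟩, hn⟩) m
  exact ⟨n, hu⟩

theorem pow_of_sq {M : Type} [AddCommGroup M] [Module ℂ M] {A B : Module.End ℂ M} {Z : M → Prop}
    {c : ℂ} (hc : c ≠ 0) (hZ : ∀ m, Z m → Z (B m)) (hA : ∀ m, Z m → A m = c • B (B m))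
    (hnil : LocNil A) {m : M} (hm : Z m) : ∃ n : ℕ, (B ^ n) m = 0 := by
  have key : ∀ n : ℕ, ∀ m, Z m → (A ^ n) m = c ^ n • (B ^ (2 * n)) m := by
    intro n
    induction n with
    | zero =>
      intro m _
      rw [mul_zero, pow_zero, pow_zero, pow_zero, one_smul]
    | succ n ih =>
      intro m hm
      rw [pow_succ, Module.End.mul_apply, hA m hm, map_smul, ih _ (hZ _ (hZ _ hm)), smul_smul,
        ← pow_succ', mul_add, mul_one, pow_add B, Module.End.mul_apply, sq B,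
        Module.End.mul_apply]
  obtain ⟨n, hn⟩ := hnil m
  rw [key n m hm, smul_eq_zero] at hn
  rcases hn with hn | hn
  · exact absurd hn (pow_ne_zero _ hc)
  · exact ⟨2 * n, hn⟩

theorem pow_of_mul {M : Type} [AddCommGroup M] [Module ℂ M] {A B Y : Module.End ℂ M}
    {Z : M → Prop} (hZ : ∀ m, Z m → Z (B m)) (hZ' : ∀ m, Z m → Z (Y m))
    (hYB : ∀ m, B (Y m) = Y (B m)) (hA : ∀ m, Z m → A m = -Y (B m))
    (hinj : ∀ m, Y m = 0 → m = 0) (hnil : LocNil A) {m : M} (hm : Z m) :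
    ∃ n : ℕ, (B ^ n) m = 0 := by
  have hcomm : ∀ n : ℕ, ∀ m, (B ^ n) (Y m) = Y ((B ^ n) m) := by
    intro n
    induction n with
    | zero =>
      intro m
      rw [pow_zero, Module.End.one_apply, Module.End.one_apply]
    | succ n ih =>
      intro m
      rw [pow_succ, Module.End.mul_apply, hYB, ih, Module.End.mul_apply]
  have key : ∀ n : ℕ, ∀ m, Z m → (A ^ n) m = (-1 : ℂ) ^ n • (Y ^ n) ((B ^ n) m) := by
    intro n
    induction n with
    | zero =>
      intro m _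
      rw [pow_zero, pow_zero, pow_zero, pow_zero, one_smul]
      rfl
    | succ n ih =>
      intro m hm
      rw [pow_succ, Module.End.mul_apply, hA m hm, map_neg, ih _ (hZ' _ (hZ _ hm)), hcomm,
        ← Module.End.mul_apply (Y ^ n) Y, ← pow_succ Y, pow_succ B n, Module.End.mul_apply (B ^ n) B,
        pow_succ (-1 : ℂ) n, mul_neg, mul_one, neg_smul]
  have hY : ∀ n : ℕ, ∀ m, (Y ^ n) m = 0 → m = 0 := by
    intro n
    induction n with
    | zero =>
      intro m h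
      rwa [pow_zero, Module.End.one_apply] at h
    | succ n ih =>
      intro m h
      rw [pow_succ', Module.End.mul_apply] at h
      exact ih m (hinj _ h)
  obtain ⟨n, hn⟩ := hnil m
  rw [key n m hm, smul_eq_zero] at hn
  rcases hn with hn | hn
  · exact absurd hn (pow_ne_zero _ (by norm_num))
  · exact ⟨n, hY n _ hn⟩

theorem f_nn {c : ℂ} {mu : Fin k → ℕ} (hF : Facts c mu W) (hU : UL W) (j : Fin k) (q : ℤ)
    (hq : 0 ≤ q) : LocNil (W.a (bv (Sum.inr j) q)) := by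
  obtain ⟨N, hN⟩ := hU
  refine JK1.desc (P := fun q => LocNil (W.a (bv (Sum.inr j) q))) (fun p hp => hN _ p hp)
    (fun q hq ih => ?_) q hq
  refine nil_of_ker (W := W) {z : (Fin k ⊕ Fin k) × ℤ | z.1 = Sum.inr j ∧ q < z.2} q
    (fun z hz => hz.2.le) (fun z hz => by rw [hz.1]; exact ih _ hz.2)
    (fun z hz z' hz' => by rw [hz.1, hz'.1]; exact omr_same' _ _ _ _) _
    (fun z hz m => by rw [hz.1]; exact JK1.comm_letters (omr_same' _ _ _ _) m)
    (fun m hm => ?_)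
  have h2 : (0 : ℤ) ≤ 2 * q + 1 := by omega
  refine pow_of_sq (A := NO W (good_matC j h2))
    (Z := fun m => ∀ q', q < q' → W.a (bv (Sum.inr j) q') m = 0) (c := -(1 / 2 : ℂ))
    (by norm_num) ?_ ?_ (hF.C j _ h2) (fun q' hq' => hm (Sum.inr j, q') ⟨rfl, hq'⟩)
  · intro m hm q' hq'
    rw [JK1.comm_letters (omr_same' _ _ _ _), hm q' hq', map_zero]
  · intro m hm
    exact JQ.NO_matC h2 m hm

theorem e_lg {c : ℂ} {mu : Fin k → ℕ} (hF : Facts c mu W) (hU : UL W) (j : Fin k) (p : ℤ)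
    (hp : (mu j : ℤ) ≤ p) : LocNil (W.a (bv (Sum.inl j) p)) := by
  obtain ⟨N, hN⟩ := hU
  refine JK1.desc (P := fun q => LocNil (W.a (bv (Sum.inl j) q))) (fun p hp => hN _ p hp)
    (fun q hq ih => ?_) p hp
  refine nil_of_ker (W := W) {z : (Fin k ⊕ Fin k) × ℤ | z.1 = Sum.inl j ∧ q < z.2} q
    (fun z hz => hz.2.le) (fun z hz => by rw [hz.1]; exact ih _ hz.2)
    (fun z hz z' hz' => by rw [hz.1, hz'.1]; exact omr_same _ _ _ _) _
    (fun z hz m => by rw [hz.1]; exact JK1.comm_letters (omr_same _ _ _ _) m)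
    (fun m hm => ?_)
  have h2 : (0 : ℤ) ≤ 2 * q + 1 := by omega
  refine pow_of_sq (A := NO W (good_matB j h2))
    (Z := fun m => ∀ q', q < q' → W.a (bv (Sum.inl j) q') m = 0) (c := (1 / 2 : ℂ))
    (by norm_num) ?_ ?_ (hF.B j _ h2 (by omega)) (fun q' hq' => hm (Sum.inl j, q') ⟨rfl, hq'⟩)
  · intro m hm q' hq'
    rw [JK1.comm_letters (omr_same _ _ _ _), hm q' hq', map_zero]
  · intro m hm
    exact JQ.NO_matB h2 m hm

theorem e_gt {c : ℂ} {mu : Fin k → ℕ} (hF : Facts c mu W) (hU : UL W) (j : Fin k) (nu : ℕ)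
    (hf : ∀ q : ℤ, -(nu : ℤ) ≤ q → LocNil (W.a (bv (Sum.inr j) q)))
    (hinj : ∀ m, W.a (bv (Sum.inr j) (-1 - nu)) m = 0 → m = 0) (p : ℤ) (hp : (nu : ℤ) < p) :
    LocNil (W.a (bv (Sum.inl j) p)) := by
  obtain ⟨N, hN⟩ := hU
  refine JK1.desc (P := fun q => LocNil (W.a (bv (Sum.inl j) q))) (a := (nu : ℤ) + 1)
    (fun p hp => hN _ p hp) (fun p hp ih => ?_) p (by omega)
  refine nil_of_ker (W := W) {z : (Fin k ⊕ Fin k) × ℤ | (z.1 = Sum.inl j ∧ p < z.2) ∨
    (z.1 = Sum.inr j ∧ -(nu : ℤ) ≤ z.2)} (-(nu : ℤ)) (fun z hz => ?_) (fun z hz => ?_)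
    (fun z hz z' hz' => ?_) _ (fun z hz m => ?_) (fun m hm => ?_)
  · rcases hz with hz | hz
    · have := hz.2
      omega
    · exact hz.2
  · rcases hz with hz | hz
    · rw [hz.1]
      exact ih _ hz.2
    · rw [hz.1]
      exact hf _ hz.2
  · rcases hz with ⟨h1, h2⟩ | ⟨h1, h2⟩ <;> rcases hz' with ⟨h3, h4⟩ | ⟨h3, h4⟩ <;> rw [h1, h3]
    · exact omr_same _ _ _ _
    · exact JK1.omr_ne_sum (by omega)
    · exact JK1.omr_ne_sum (by omega)
    · exact omr_same' _ _ _ _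
  · rcases hz with ⟨h1, h2⟩ | ⟨h1, h2⟩ <;> rw [h1]
    · exact JK1.comm_letters (omr_same _ _ _ _) m
    · exact JK1.comm_letters (JK1.omr_ne_sum (by omega)) m
  · have hs : (0 : ℤ) ≤ p - nu := by omega
    refine pow_of_mul (A := NO W (good_matA j j hs)) (Y := W.a (bv (Sum.inr j) (-1 - nu)))
      (Z := fun m => (∀ q, p < q → W.a (bv (Sum.inl j) q) m = 0) ∧
        ∀ q, -(nu : ℤ) ≤ q → W.a (bv (Sum.inr j) q) m = 0) ?_ ?_ ?_ ?_ hinj
      (hF.D j _ hs (by omega)) ⟨fun q hq => hm (Sum.inl j, q) (Or.inl ⟨rfl, hq⟩),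
        fun q hq => hm (Sum.inr j, q) (Or.inr ⟨rfl, hq⟩)⟩
    · rintro m ⟨h1, h2⟩
      refine ⟨fun q hq => ?_, fun q hq => ?_⟩
      · rw [JK1.comm_letters (omr_same _ _ _ _), h1 q hq, map_zero]
      · rw [JK1.comm_letters (JK1.omr_ne_sum (by omega)), h2 q hq, map_zero]
    · rintro m ⟨h1, h2⟩
      refine ⟨fun q hq => ?_, fun q hq => ?_⟩
      · rw [JK1.comm_letters (JK1.omr_ne_sum (by omega)), h1 q hq, map_zero]
      · rw [JK1.comm_letters (omr_same' _ _ _ _), h2 q hq, map_zero]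
    · intro m
      exact JK1.comm_letters (JK1.omr_ne_sum (by omega)) m
    · rintro m ⟨h1, h2⟩
      exact JQ.NO_matA_off hs (Or.inr (by omega)) p (-1 - nu) (by ring) m h1
        (fun q hq => h2 q (by omega))

end Pool.Agent.H143_GC.SS
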