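import Pool.Agent.H143_GC.SS1
import Pool.Agent.H143_GC.SS3
import Pool.Agent.H143_GC.SS4

/-!
Splitting off one type.

Plain proof of `split`.  Put `y = W.a (bv (Sum.inr j) (-1 - nu))`, `e = W.a (bv (Sum.inl j) nu)`, `N = y * e` (so
`N m = y (e m)` and `e (y m) = y (e m) + m`), `s = 2 * mu j / c`, `A = {s + n | n : ℤ}`, `B = ℤ`; `A` and `B` are disjoint by
`irr_div`.
* `Z = (W.a ..).maxGenEigenspace 0` for `y`, stable as in `JQ.dich` (JQ.lean, uses `JQ.aux_pow_a`).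
* `Z' = {m | LF N A m}` (a submodule by `LF.zero/add/smul`).  Stable: for a letter `L = W.a (bv α p)` one has
  `N (L m) = L (N m) + δ • L m` with `δ = 1` if `(α, p) = (Sum.inr j, -1 - nu)`, `δ = -1` if `(α, p) = (Sum.inl j, nu)` and
  `δ = 0` otherwise (`a_comm`, `omr_bv`), so `LF.shift` applies.  For general `x : V k` and `m ∈ Z'`, `W.a x m` is a finite
  linear combination of the `W.a (bv α p) m` (see `JK2.KK_of`, `sum_bv`, `a_congr`).
* The quotient `Q = quoW W Z _`: `Facts` and `UL` pass to it, `y` is injective on it (`y m ∈ Z` implies `m ∈ Z`), so by `e_gt`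
  the letters `bv (Sum.inl j) p`, `p > nu`, are locally nilpotent on `Q`.
* Every vector `m` of `Q` satisfies `LF N A m`: apply `ln` on `Q` with
  `S = {z | (z.1 = Sum.inl j ∧ nu < z.2) ∨ (z.1 = Sum.inr j ∧ -nu ≤ z.2)}` (these commute with each other and with `N`,
  `JK1.omr_ne_sum`, `JK1.comm_letters`) and `P = {aeval N p | p ≠ 0, roots in A}`.  On the common kernel `K` of these
  letters, `NO Q (good_matA j j _) m = nu • m - N m` (`JQ.NO_matA_diag`); `T = NO + s` is diagonalisable with integral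
  eigenvalues (`Facts.I`) and `K` is stable under `T`, so (`sep`, see `JK2.exists_eig`) each `m ∈ K` is a finite sum of
  `v ∈ K` with `T v = d • v`, `d` an integer, so `N v = (nu + s - d) • v`: `LF.of_eig`, `LF.add`.
* `Z ⊔ Z' = ⊤`: for `x : W.M` there is `p` with roots in `A` and `aeval N p x ∈ Z` (from the quotient, `aeval_map`), so
  `y ^ n (aeval N p x) = 0` and `LF N B (aeval N p x)` by `LF.torsion`; by `LF.split`, `x = x₁ + x₂` with `LF N A x₁`,
  i.e. `x₁ ∈ Z'`, and `LF N B x₂`.  The image of `x₂` in `Q` satisfies `LF` for `B` (`LF.map`) and for `A`, so it is `0`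
  (`LF.disj`) and `x₂ ∈ Z`.
* If `m ∈ Z'` and `y m = 0` then `N m = y (e m) = e (y m) - m = -m`, so `LF N B m` (`LF.of_eig`, `-1 ∈ B`), so `m = 0`.
-/

noncomputable section

open Matrix

open scoped Classical

namespace Pool.Agent.H143_GC.SS

open Pool.Agent.H143_GC



variable {k : ℕ} {W : WeylModule k}

/-- `N = y e`. -/
def s5N (W : WeylModule k) (j : Fin k) (nu : ℕ) : Module.End ℂ W.M :=
  W.a (bv (Sum.inr j) (-1 - nu)) * W.a (bv (Sum.inl j) nu)

theorem s5N_apply (j : Fin k) (nu : ℕ) (m : W.M) :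
    s5N W j nu m = W.a (bv (Sum.inr j) (-1 - nu)) (W.a (bv (Sum.inl j) nu) m) := rfl

theorem s5_ey (j : Fin k) (nu : ℕ) (m : W.M) :
    W.a (bv (Sum.inl j) nu) (W.a (bv (Sum.inr j) (-1 - nu)) m) =
      W.a (bv (Sum.inr j) (-1 - nu)) (W.a (bv (Sum.inl j) nu) m) + m := by
  rw [a_comm, JQ.aux_omr_ef, if_pos ⟨rfl, by ring⟩, one_smul]

theorem s5_comm (j : Fin k) (nu : ℕ) (α : Fin k ⊕ Fin k) (p : ℤ) (m : W.M) :
    s5N W j nu (W.a (bv α p) m) = W.a (bv α p) (s5N W j nu m) +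
      (omr k (bv (Sum.inr j) (-1 - nu)) (bv α p) • W.a (bv (Sum.inl j) nu) m +
      omr k (bv (Sum.inl j) nu) (bv α p) • W.a (bv (Sum.inr j) (-1 - nu)) m) := by
  rw [s5N_apply, a_comm (bv (Sum.inl j) (nu : ℤ)) (bv α p), map_add, map_smul,
    a_comm (bv (Sum.inr j) (-1 - (nu : ℤ))) (bv α p), s5N_apply, add_assoc]

theorem s5_letter (W : WeylModule k) (j : Fin k) (nu : ℕ) (α : Fin k ⊕ Fin k) (p : ℤ) :
    ∃ δ : ℤ, (∀ m, s5N W j nu (W.a (bv α p) m) =
      W.a (bv α p) (s5N W j nu m) + (δ : ℂ) • W.a (bv α p) m) ∧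
      (¬ (α = Sum.inr j ∧ p = -1 - nu) → ¬ (α = Sum.inl j ∧ p = nu) → δ = 0) := by
  by_cases h1 : α = Sum.inr j ∧ p = -1 - nu
  · obtain ⟨rfl, rfl⟩ := h1
    refine ⟨1, fun m => ?_, fun h => absurd ⟨rfl, rfl⟩ h⟩
    rw [s5_comm, omr_same', zero_smul, zero_add, JQ.aux_omr_ef, if_pos ⟨rfl, by ring⟩, Int.cast_one]
  · by_cases h2 : α = Sum.inl j ∧ p = nu
    · obtain ⟨rfl, rfl⟩ := h2
      refine ⟨-1, fun m => ?_, fun _ h => absurd ⟨rfl, rfl⟩ h⟩
      rw [s5_comm, omr_same, zero_smul, add_zero, omr_swap, JQ.aux_omr_ef, if_pos ⟨rfl, by ring⟩,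
        Int.cast_neg, Int.cast_one]
    · refine ⟨0, fun m => ?_, fun _ _ => rfl⟩
      have e1 : omr k (bv (Sum.inr j) (-1 - nu)) (bv α p) = 0 := by
        by_contra h
        rcases omr_bv _ _ _ _ h with ⟨j', h3, _, _⟩ | ⟨j', h3, h4, h5⟩
        · cases h3
        · cases h3
          exact h2 ⟨h4, by omega⟩
      have e2 : omr k (bv (Sum.inl j) nu) (bv α p) = 0 := by
        by_contra h
        rcases omr_bv _ _ _ _ h with ⟨j', h3, h4, h5⟩ | ⟨j', h3, _, _⟩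
        · cases h3
          exact h1 ⟨h4, by omega⟩
        · cases h3
      rw [s5_comm, e1, e2, zero_smul, zero_smul, Int.cast_zero, zero_smul, add_zero]

theorem s5_stable (Z : Submodule ℂ W.M) (h : ∀ α p, ∀ m ∈ Z, W.a (bv α p) m ∈ Z) :
    Stable W Z := by
  intro x m hm
  obtain ⟨N₀, h0⟩ := exists_Ann m
  obtain ⟨N₁, h1⟩ := exists_OGV x
  set N := max N₀ N₁ with hN
  have hm' : Ann W (N : ℤ) m := h0.mono (by exact_mod_cast le_max_left _ _)
  have hx' : OGV (-(N : ℤ)) x := h1.mono (by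
    have : (N₁ : ℤ) ≤ N := by exact_mod_cast le_max_right _ _
    omega)
  rw [a_congr hm' (sum_bv x N hx')]
  simp only [map_sum, map_smul, LinearMap.sum_apply, LinearMap.smul_apply]
  exact Z.sum_mem fun α _ => Z.sum_mem fun p _ => Z.smul_mem _ (h α p m hm)

/-- The vectors killed by a polynomial with roots in `A`. -/
def s5Z {M : Type} [AddCommGroup M] [Module ℂ M] (N : Module.End ℂ M) (A : Set ℂ) :
    Submodule ℂ M where
  carrier := {m | LF N A m}
  add_mem' := fun h h' => LF.add h h'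
  zero_mem' := LF.zero
  smul_mem' := fun c _ h => LF.smul c h

theorem mem_s5Z {M : Type} [AddCommGroup M] [Module ℂ M] {N : Module.End ℂ M} {A : Set ℂ} {m : M} :
    m ∈ s5Z N A ↔ LF N A m := Iff.rfl

/-- The translates of `s` by integers. -/
def s5A (s : ℂ) : Set ℂ := {z | ∃ n : ℤ, z = s + n}

theorem s5A_add {s : ℂ} (δ : ℤ) : ∀ r ∈ s5A s, r + δ ∈ s5A s := by
  rintro r ⟨n, rfl⟩
  exact ⟨n + δ, by push_cast; ring⟩

theorem s5_disj {s : ℂ} (hs : ∀ n : ℤ, s ≠ n) :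
    Disjoint (s5A s) (Set.range fun z : ℤ => (z : ℂ)) := by
  rw [Set.disjoint_left]
  rintro r ⟨n, rfl⟩ ⟨z, hz⟩
  apply hs (z - n)
  simp only at hz
  push_cast
  rw [hz]; ring

/-- The letters which are used. -/
def s5S (j : Fin k) (nu : ℕ) : Set ((Fin k ⊕ Fin k) × ℤ) :=
  {z | (z.1 = Sum.inl j ∧ (nu : ℤ) < z.2) ∨ (z.1 = Sum.inr j ∧ -(nu : ℤ) ≤ z.2)}

theorem s5_commS (j : Fin k) (nu : ℕ) {z : (Fin k ⊕ Fin k) × ℤ} (hz : z ∈ s5S j nu) (m : W.M) :
    s5N W j nu (W.a (bv z.1 z.2) m) = W.a (bv z.1 z.2) (s5N W j nu m) := by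
  obtain ⟨δ, h1, h2⟩ := s5_letter W j nu z.1 z.2
  have h3 : δ = 0 := by
    apply h2
    · rintro ⟨h, h'⟩
      rcases hz with ⟨h4, _⟩ | ⟨_, h5⟩
      · rw [h] at h4; cases h4
      · omega
    · rintro ⟨h, h'⟩
      rcases hz with ⟨_, h5⟩ | ⟨h4, _⟩
      · omega
      · rw [h] at h4; cases h4
  rw [h1, h3, Int.cast_zero, zero_smul, add_zero]

/-- The common kernel. -/
def s5K (W : WeylModule k) (j : Fin k) (nu : ℕ) : Submodule ℂ W.M where
  carrier := {m | ∀ z ∈ s5S j nu, W.a (bv z.1 z.2) m = 0}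
  add_mem' := by
    intro m m' h h' z hz
    rw [map_add, h z hz, h' z hz, add_zero]
  zero_mem' := fun z _ => map_zero _
  smul_mem' := by
    intro c m h z hz
    rw [map_smul, h z hz, smul_zero]

theorem s5_T {s : ℂ} (j : Fin k) (nu : ℕ) {m : W.M} (hm : m ∈ s5K W j nu) :
    (NO W (good_matA j j le_rfl) + s • (1 : Module.End ℂ W.M)) m =
      ((nu : ℂ) + s) • m - s5N W j nu m := by
  have h1 := JQ.NO_matA_diag (W := W) (j := j) (nu := (nu : ℤ)) (by omega) m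
    (fun p hp => hm (Sum.inl j, p) (Or.inl ⟨rfl, hp⟩))
    (fun q hq => hm (Sum.inr j, q) (Or.inr ⟨rfl, hq⟩))
  rw [LinearMap.add_apply, h1, LinearMap.smul_apply, Module.End.one_apply, s5N_apply,
    Int.cast_natCast]
  module

theorem s5_ker {s : ℂ} (j : Fin k) (nu : ℕ)
    (hI : IntDiag (NO W (good_matA j j le_rfl) + s • (1 : Module.End ℂ W.M))) {m : W.M}
    (hm : m ∈ s5K W j nu) : LF (s5N W j nu) (s5A s) m := by
  set T : Module.End ℂ W.M := NO W (good_matA j j le_rfl) + s • (1 : Module.End ℂ W.M) with hT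
  have hst : ∀ z ∈ s5K W j nu, T z ∈ s5K W j nu := by
    intro z hz
    rw [hT, s5_T j nu hz]
    refine (s5K W j nu).sub_mem ((s5K W j nu).smul_mem _ hz) ?_
    intro w hw
    rw [← s5_commS j nu hw, hz w hw, map_zero]
  have h1 : m ∈ ⨆ d : ℤ, Module.End.eigenspace T (d : ℂ) := by
    have h2 : Submodule.span ℂ {v : W.M | ∃ d : ℤ, T v = (d : ℂ) • v} ≤
        ⨆ d : ℤ, Module.End.eigenspace T (d : ℂ) := by
      rw [Submodule.span_le]
      rintro v ⟨d, hd⟩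
      exact Submodule.mem_iSup_of_mem d (Module.End.mem_eigenspace_iff.2 hd)
    exact h2 (hI m)
  obtain ⟨f, hf, hsum'⟩ := (Submodule.mem_iSup_iff_exists_finsupp _ _).1 h1
  have hsum : ∑ n ∈ f.support, f n = m := hsum'
  have hfe : ∀ n : ℤ, T (f n) = (n : ℂ) • f n := fun n =>
    Module.End.mem_eigenspace_iff.1 (hf n)
  have hfZ := sep T (s5K W j nu) hst (fun n : ℤ => (n : ℂ)) Int.cast_injective f.support f
    (fun n _ => hfe n) (by rw [hsum]; exact hm)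
  rw [← hsum]
  refine (s5Z (s5N W j nu) (s5A s)).sum_mem fun n hn => ?_
  have h3 : s5N W j nu (f n) = ((nu : ℂ) + s - n) • f n := by
    have h4 := s5_T (s := s) j nu (hfZ n hn)
    rw [← hT, hfe n] at h4
    rw [sub_smul, h4]
    abel
  exact LF.of_eig (r := (nu : ℂ) + s - n) ⟨nu - n, by push_cast; ring⟩ h3

theorem s5_all {s : ℂ} (j : Fin k) (nu : ℕ)
    (hI : IntDiag (NO W (good_matA j j le_rfl) + s • (1 : Module.End ℂ W.M)))
    (he : ∀ p : ℤ, (nu : ℤ) < p → LocNil (W.a (bv (Sum.inl j) p)))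
    (hf : ∀ q : ℤ, -(nu : ℤ) ≤ q → LocNil (W.a (bv (Sum.inr j) q))) (m : W.M) :
    LF (s5N W j nu) (s5A s) m := by
  obtain ⟨u, ⟨p, hp0, hpr, rfl⟩, hu⟩ := ln (W := W) (s5S j nu) (-(nu : ℤ)) (by
      rintro z (⟨_, h⟩ | ⟨_, h⟩)
      · omega
      · exact h) (by
      rintro z (⟨h, h'⟩ | ⟨h, h'⟩)
      · rw [h]; exact he _ h'
      · rw [h]; exact hf _ h') (by
      rintro z (⟨h1, h2⟩ | ⟨h1, h2⟩) z' (⟨h3, h4⟩ | ⟨h3, h4⟩) <;> rw [h1, h3]
      · exact omr_same _ _ _ _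
      · exact JK1.omr_ne_sum (by omega)
      · exact JK1.omr_ne_sum (by omega)
      · exact omr_same' _ _ _ _)
    {u | ∃ p : Polynomial ℂ, p ≠ 0 ∧ (∀ r, p.IsRoot r → r ∈ s5A s) ∧
      Polynomial.aeval (s5N W j nu) p = u}
    ⟨1, one_ne_zero, fun r hr => by simp [Polynomial.IsRoot] at hr, map_one _⟩
    (by
      rintro u ⟨p, hp0, hpr, rfl⟩ v ⟨q, hq0, hqr, rfl⟩
      refine ⟨p * q, mul_ne_zero hp0 hq0, fun r hr => ?_, map_mul _ _ _⟩
      rcases Polynomial.root_mul.1 hr with h | h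
      · exact hpr r h
      · exact hqr r h)
    (by
      rintro u ⟨p, hp0, hpr, rfl⟩ z hz m
      exact (aeval_map (N := s5N W j nu) (N' := s5N W j nu) (φ := W.a (bv z.1 z.2))
        (fun m => (s5_commS j nu hz m).symm) p m).symm)
    (by
      intro m hm
      obtain ⟨p, hp0, hpr, hp⟩ := s5_ker (s := s) j nu hI (m := m) hm
      exact ⟨_, ⟨p, hp0, hpr, rfl⟩, hp⟩) m
  exact ⟨p, hp0, hpr, hu⟩

theorem split {c : ℂ} (hc : ∀ q : ℚ, (q : ℂ) ≠ c) {mu : Fin k → ℕ} (hF : Facts c mu W) (hU : UL W)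
    (j : Fin k) (hmu : mu j ≠ 0) (nu : ℕ)
    (hf : ∀ q : ℤ, -(nu : ℤ) ≤ q → LocNil (W.a (bv (Sum.inr j) q))) :
    ∃ Z Z' : Submodule ℂ W.M, Stable W Z ∧ Stable W Z' ∧ Z ⊔ Z' = ⊤ ∧
      (∀ m ∈ Z, ∃ n : ℕ, ((W.a (bv (Sum.inr j) (-1 - nu))) ^ n) m = 0) ∧
      (∀ m ∈ Z', W.a (bv (Sum.inr j) (-1 - nu)) m = 0 → m = 0) := by
  set s : ℂ := 2 * (mu j : ℂ) / c with hs
  have hsint : ∀ n : ℤ, s ≠ n := fun n => irr_div hc hmu n
  have hdisj := s5_disj hsint
  set y : Module.End ℂ W.M := W.a (bv (Sum.inr j) (-1 - nu)) with hy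
  set N : Module.End ℂ W.M := s5N W j nu with hN
  have hmem : ∀ m, m ∈ y.maxGenEigenspace 0 ↔ ∃ n : ℕ, (y ^ n) m = 0 := by
    intro m
    rw [Module.End.mem_maxGenEigenspace]
    simp
  have hZ : Stable W (y.maxGenEigenspace 0) := by
    intro x m hm
    rw [hmem] at hm ⊢
    obtain ⟨n, hn⟩ := hm
    refine ⟨n + 1, ?_⟩
    rw [hy, JQ.aux_pow_a, ← hy, pow_succ', Module.End.mul_apply, hn, map_zero, map_zero, smul_zero,
      add_zero]
  have hZ' : Stable W (s5Z N (s5A s)) := by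
    refine s5_stable _ fun α p m hm => ?_
    obtain ⟨δ, h1, -⟩ := s5_letter W j nu α p
    exact LF.shift h1 (s5A_add δ) hm
  refine ⟨y.maxGenEigenspace 0, s5Z N (s5A s), hZ, hZ', ?_, fun m hm => (hmem m).1 hm, ?_⟩
  · -- the sum is everything
    set Z := y.maxGenEigenspace 0 with hZdef
    set Q := quoW W Z hZ with hQ
    set φ : W.M →ₗ[ℂ] Q.M := Z.mkQ with hφ
    have hφhom : IsHom (W := W) (W' := Q) φ := isHom_mkQ hZ
    have hφs : Function.Surjective φ := Submodule.mkQ_surjective Z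
    have hFQ : Facts c mu Q := Facts.surj hφhom hφs hF
    have hUQ : UL Q := UL.surj hφhom hφs hU
    have hfQ : ∀ q : ℤ, -(nu : ℤ) ≤ q → LocNil (Q.a (bv (Sum.inr j) q)) := fun q hq =>
      locNil_of_surj hφs (fun m => hφhom _ m) (hf q hq)
    have hker : ∀ m, φ m = 0 ↔ m ∈ Z := fun m => Submodule.Quotient.mk_eq_zero Z
    have hinj : ∀ m, Q.a (bv (Sum.inr j) (-1 - nu)) m = 0 → m = 0 := by
      intro m hm
      obtain ⟨m, rfl⟩ := hφs m
      rw [← hφhom, hker, hmem] at hm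
      rw [hker, hmem]
      obtain ⟨n, hn⟩ := hm
      exact ⟨n + 1, by rw [pow_succ, Module.End.mul_apply]; exact hn⟩
    have heQ := e_gt hFQ hUQ j nu hfQ hinj
    have hNφ : ∀ m, φ (N m) = s5N Q j nu (φ m) := by
      intro m
      rw [hN, s5N_apply, s5N_apply, hφhom, hφhom]
    rw [eq_top_iff]
    intro x _
    obtain ⟨p, hp0, hpr, hp⟩ := s5_all (W := Q) (s := s) j nu (hFQ.I j) heQ hfQ (φ x)
    rw [← aeval_map hNφ, hker, hmem] at hp
    obtain ⟨n, hn⟩ := hp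
    have hB : LF N (Set.range fun z : ℤ => (z : ℂ)) (Polynomial.aeval N p x) :=
      LF.torsion (y := y) (e := W.a (bv (Sum.inl j) nu)) (fun m => rfl) (fun m => s5_ey j nu m) hn
    obtain ⟨x₁, x₂, hx, hx1, hx2⟩ := LF.split hdisj hp0 hpr hB
    rw [hx]
    refine Submodule.add_mem _ (Submodule.mem_sup_right hx1) (Submodule.mem_sup_left ?_)
    rw [← hker]
    exact LF.disj hdisj (s5_all (W := Q) (s := s) j nu (hFQ.I j) heQ hfQ (φ x₂))
      (LF.map hNφ hx2)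
  · intro m hm h0
    refine LF.disj hdisj hm (LF.of_eig (r := -1) ⟨-1, by push_cast; rfl⟩ ?_)
    have h1 := s5_ey (W := W) j nu m
    rw [← hy, h0, map_zero] at h1
    rw [hN, s5N_apply, ← hy, neg_one_smul]
    exact eq_neg_of_add_eq_zero_left h1.symm

end Pool.Agent.H143_GC.SS
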