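import Pool.Agent.H143_GC.SS2

/-!
In a module whose letters have a fixed type everything is generated by vacuum vectors.

Plain proof of `gen_vac`.  Let `τ = tyM c hc mu nu` and `K = JK2.KK τ W` (the vectors killed by the lattice `τ.L`).
(1) `JK2.KE τ W i` (see JK2.lean): the vectors of `K` with `yy j (ee j m) = τ.s j • m` for all special `j < i`;
    `KE τ W k` consists of the vacuum vectors (`IsVac`).  Claim: every `m ∈ KE τ W i` lies in `Z`, by descending
    induction on `i ≤ k`; `i = k` is the hypothesis (0 is in `Z` trivially).  Step `i + 1 → i` when `j = i` is special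
    (otherwise `KE τ W i = KE τ W (i + 1)`): `KE τ W i` is stable under `A = NO W (good_matA j j _) + s_j` which acts on it as
    `(nu_j + s_j) - yy j ∘ ee j` (`JK2.KK_NO`, and see `hst` in the proof of `JK2.step`), and is diagonalisable with integral
    eigenvalues; by `sep` (Simple2.lean; see `JK2.exists_eig`) `m` is a sum of eigenvectors `v ∈ KE τ W i`,
    `yy j (ee j v) = w • v`, `w = nu_j + s_j - d` not an integer.  For such `v`, `v' = xx τ W j (d - nu_j) v ∈ KE τ W (i + 1)`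
    (as in the proof of `JK2.step`), so `v' ∈ Z`, and `xx_return` (Simple.lean) writes `v` as a multiple of
    `xx τ W j (-(d - nu_j)) v'`, which is in the stable subspace `Z`.
(2) So `K ≤ Z` (`KE τ W 0 = K`).  Now apply `span_ker` with `S = {z | τ.L (bv z.1 z.2)}`: these letters are locally
    nilpotent by `hlet` (compare the proof of `JK2.exists_vacuum`), they commute (`Ty.L.omr`), bounded below by
    `- ∑ j, nu j`, and a vector killed by all of them is in `K` (`JK2.KK_of`).
-/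

noncomputable section

open Matrix

open scoped Classical

namespace Pool.Agent.H143_GC.SS

open Pool.Agent.H143_GC

variable {k : ℕ} {W : WeylModule k}

theorem gen_vac_xx {τ : Ty k} {Z : Submodule ℂ W.M} (hZ : Stable W Z) (J : Fin k) (n : ℤ) :
    ∀ z ∈ Z, xx τ W J n z ∈ Z := by
  have hpow : ∀ x : V k, ∀ n : ℕ, ∀ z ∈ Z, (W.a x ^ n) z ∈ Z := by
    intro x n
    induction n with
    | zero => intro z hz; simpa using hz
    | succ n ihn =>
      intro z hz
      rw [pow_succ', Module.End.mul_apply]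
      exact hZ _ _ (ihn z hz)
  intro z hz
  unfold xx
  split_ifs
  · exact hpow _ _ z hz
  · exact hpow _ _ z hz

/-- decomposition in integral eigenvectors in an invariant subspace -/
theorem gen_vac_eig {M : Type} [AddCommGroup M] [Module ℂ M] {A : Module.End ℂ M}
    (hA : IntDiag A) (Z : Submodule ℂ M) (hZ : ∀ z ∈ Z, A z ∈ Z) {m : M} (hm : m ∈ Z)
    (Y : Submodule ℂ M) (h : ∀ (d : ℤ), ∀ v ∈ Z, A v = (d : ℂ) • v → v ∈ Y) : m ∈ Y := by
  have h1 : m ∈ ⨆ d : ℤ, Module.End.eigenspace A (d : ℂ) := by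
    have h2 : Submodule.span ℂ {v : M | ∃ d : ℤ, A v = (d : ℂ) • v} ≤
        ⨆ d : ℤ, Module.End.eigenspace A (d : ℂ) := by
      rw [Submodule.span_le]
      rintro v ⟨d, hd⟩
      exact Submodule.mem_iSup_of_mem d (Module.End.mem_eigenspace_iff.2 hd)
    exact h2 (hA m)
  obtain ⟨f, hf, hsum'⟩ := (Submodule.mem_iSup_iff_exists_finsupp _ _).1 h1
  have hsum : ∑ n ∈ f.support, f n = m := hsum'
  have hfe : ∀ n : ℤ, A (f n) = (n : ℂ) • f n := fun n =>
    Module.End.mem_eigenspace_iff.1 (hf n)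
  have hfZ := sep A Z hZ (fun n : ℤ => (n : ℂ)) Int.cast_injective f.support f
    (fun n _ => hfe n) (by rw [hsum]; exact hm)
  rw [← hsum]
  exact Y.sum_mem fun n hn => h n (f n) (hfZ n hn) (hfe n)

theorem gen_vac_step {τ : Ty k} (hnu : ∀ j, 0 ≤ τ.nu j)
    (hI : ∀ j, IntDiag (NO W (good_matA j j le_rfl) + τ.s j • (1 : Module.End ℂ W.M)))
    {Z : Submodule ℂ W.M} (hZ : Stable W Z)
    (i : ℕ) (h : JK2.KE τ W (i + 1) ≤ Z) : JK2.KE τ W i ≤ Z := by
  intro m hm
  by_cases hi : ∃ h : i < k, τ.sp ⟨i, h⟩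
  · obtain ⟨hik, hs⟩ := hi
    set J : Fin k := ⟨i, hik⟩ with hJ
    set A : Module.End ℂ W.M := NO W (good_matA J J le_rfl) + τ.s J • (1 : Module.End ℂ W.M) with hA
    have hAK : ∀ z ∈ JK2.KK τ W, A z = ((τ.nu J : ℂ) + τ.s J) • z - yy τ W J (ee τ W J z) := by
      intro z hz
      rw [hA, LinearMap.add_apply, JK2.KK_NO (hnu J) hz, LinearMap.smul_apply,
        Module.End.one_apply]
      module
    have hne : ∀ j : Fin k, (j : ℕ) < i → j ≠ J := by
      intro j hj h
      rw [h, hJ] at hj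
      simp at hj
    have hst : ∀ z ∈ JK2.KE τ W i, A z ∈ JK2.KE τ W i := by
      intro z hz
      rw [hAK z hz.1]
      refine (JK2.KE τ W i).sub_mem ((JK2.KE τ W i).smul_mem _ hz)
        ⟨JK2.KK_yy hs (JK2.KK_ee hs hz.1), ?_⟩
      intro j hj hsj
      rw [ee_yy_ne (hne j hj), ee_ee, yy_yy, ← ee_yy_ne (hne j hj).symm, hz.2 j hj hsj, map_smul,
        map_smul]
    refine gen_vac_eig (hI J) (JK2.KE τ W i) hst hm Z fun d v hv hd => ?_
    have hw : yy τ W J (ee τ W J v) = ((τ.nu J : ℂ) + τ.s J - d) • v := by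
      have h1 := hAK v hv.1
      rw [hA, hd] at h1
      rw [sub_smul, h1]
      abel
    have hwn : ∀ n : ℤ, (τ.nu J : ℂ) + τ.s J - d ≠ n := by
      intro n hn
      apply τ.hs J hs (n + d - τ.nu J)
      push_cast
      linear_combination hn
    have hmem : xx τ W J (d - τ.nu J) v ∈ JK2.KE τ W (i + 1) := by
      refine ⟨JK2.KK_xx hs hv.1 _, ?_⟩
      intro j hj hsj
      rcases Nat.lt_succ_iff_lt_or_eq.1 hj with h | h
      · rw [comm_ee_xx (hne j h), comm_yy_xx (hne j h), hv.2 j h hsj, map_smul]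
      · have hjJ : j = J := Fin.ext h
        subst hjJ
        rw [xx_wt _ hw]
        congr 1
        push_cast
        ring
    obtain ⟨c, hc, hret⟩ := xx_return hw hwn (d - τ.nu J)
    have h3 := gen_vac_xx (τ := τ) hZ J (-(d - τ.nu J)) _ (h hmem)
    rw [hret] at h3
    have h4 := Z.smul_mem c⁻¹ h3
    rwa [smul_smul, inv_mul_cancel₀ hc, one_smul] at h4
  · refine h ⟨hm.1, fun j hj hsj => ?_⟩
    rcases Nat.lt_succ_iff_lt_or_eq.1 hj with h | h
    · exact hm.2 j h hsj
    · exfalso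
      apply hi
      refine ⟨h ▸ j.2, ?_⟩
      have : j = ⟨i, h ▸ j.2⟩ := Fin.ext h
      rw [← this]
      exact hsj

theorem gen_vac {c : ℂ} (hc : ∀ q : ℚ, (q : ℂ) ≠ c) {mu : Fin k → ℕ} (hF : Facts c mu W)
    (nu : Fin k → ℕ) (hlet : ∀ j, LJ mu W j (nu j)) (Z : Submodule ℂ W.M) (hZ : Stable W Z)
    (h : ∀ m, IsVac (tyM c hc mu nu) W m → m ∈ Z) : Z = ⊤ := by
  set τ := tyM c hc mu nu with hτ
  have hnu : ∀ j, τ.nu j = (nu j : ℤ) := fun _ => rfl
  have hsp : ∀ j, τ.sp j ↔ mu j ≠ 0 := fun _ => Iff.rfl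
  have hs : ∀ j, τ.s j = 2 * (mu j : ℂ) / c := fun _ => rfl
  have hI' : ∀ j, IntDiag (NO W (good_matA j j le_rfl) + τ.s j • (1 : Module.End ℂ W.M)) := by
    intro j
    rw [hs]
    exact hF.I j
  have hnu' : ∀ j, 0 ≤ τ.nu j := fun j => by rw [hnu]; exact Int.natCast_nonneg _
  have key : ∀ n i : ℕ, i + n = k → JK2.KE τ W i ≤ Z := by
    intro n
    induction n with
    | zero =>
      intro i hi m hm
      have hik : i = k := by omega
      subst hik
      exact h m ⟨hm.1, fun j hj => hm.2 j j.2 hj⟩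
    | succ n ih =>
      intro i hi
      exact gen_vac_step hnu' hI' hZ i (ih (i + 1) (by omega))
  have hKK : ∀ m ∈ JK2.KK τ W, m ∈ Z := fun m hm =>
    key k 0 (by omega) ⟨hm, fun j hj => absurd hj (Nat.not_lt_zero _)⟩
  refine span_ker {z | τ.L (bv z.1 z.2)} (-∑ j, (nu j : ℤ)) ?_ ?_
    (fun z hz z' hz' => Ty.L.omr hz hz') Z hZ
    (fun m hm => hKK m (JK2.KK_of fun α p h => hm (α, p) h))
  · rintro ⟨α | j, p⟩ hz
    · change τ.L (bv (Sum.inl α) p) at hz
      rw [Ty.L_bv_inl, hnu] at hz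
      have hpos : (0 : ℤ) ≤ ∑ j, (nu j : ℤ) := Finset.sum_nonneg fun j _ => by positivity
      change -∑ j, (nu j : ℤ) ≤ p
      split_ifs at hz <;> omega
    · change τ.L (bv (Sum.inr j) p) at hz
      rw [Ty.L_bv_inr, hnu] at hz
      have : (nu j : ℤ) ≤ ∑ j, (nu j : ℤ) :=
        Finset.single_le_sum (f := fun j => (nu j : ℤ)) (fun _ _ => by positivity)
          (Finset.mem_univ j)
      change -∑ j, (nu j : ℤ) ≤ p
      omega
  · rintro ⟨α | j, p⟩ hz
    · change τ.L (bv (Sum.inl α) p) at hz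
      change LocNil (W.a (bv (Sum.inl α) p))
      rw [Ty.L_bv_inl, hnu] at hz
      by_cases hk : mu α = 0
      · rw [if_neg (by rw [hsp]; simpa using hk)] at hz
        rcases hz.eq_or_lt with h | h
        · rw [← h]
          exact (hlet α).e0 hk
        · exact (hlet α).e p h
      · rw [if_pos (by rw [hsp]; exact hk)] at hz
        exact (hlet α).e p (by omega)
    · change τ.L (bv (Sum.inr j) p) at hz
      rw [Ty.L_bv_inr, hnu] at hz
      exact (hlet j).f p hz

end Pool.Agent.H143_GC.SS
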