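import Pool.Agent.H143_GC.SS5
import Pool.Agent.H143_GC.SS6

/-!
Everything is generated by vacuum vectors of all types.

Plain proof of `gen_all`.  Prove by descending induction on `i` (`i = k` down to `i = 0`):
  (S i) for all `W` with `Facts` and `UL`, all `nu` with `LJ mu W j (nu j)` for all `j < i`, and all stable `Z` containing
        all vacuum vectors of all types `tyM c hc mu nu'`: `Z = ⊤`.
`i = k`: `gen_vac`.  Step `i + 1 → i` (`i < k`, let `j = i`):
* `mu j = 0`: `LJ mu W j 0` holds by `f_nn` and `e_lg`; apply (S (i+1)) with `Function.update nu j 0`.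
* `mu j ≠ 0`: prove for all `n ≤ mu j + 1`, by descending induction on `n` (base `n = mu j + 1`): for all `W` as in (S i)
  with moreover `bv (Sum.inr j) q` locally nilpotent for `q ≥ -n`: `Z = ⊤`.
  Base `n = mu j + 1`: `bv (Sum.inl j) (mu j)` (`e_lg`) and `bv (Sum.inr j) (-1 - mu j)` are locally nilpotent with commutator `1`,
  so `W.M` is trivial by `JQ.locNil_pair` (see `JK1.not_both`), and `Z = ⊤`.
  Step `n + 1 → n`, `n ≤ mu j`: let `Z₁, Z₂` be given by `split` (with `nu = n`), `W₁ = subW W Z₁ _`, `W₂ = subW W Z₂ _`.  `Facts`, `UL`,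
  `LJ` (`j' < i`) pass to them (`Facts.inj` etc. with `isHom_subtype`).
  On `W₁` also `bv (Sum.inr j) (-1 - n)` is locally nilpotent, so the induction hypothesis for `n + 1` applies to the stable
  submodule `Z.comap Z₁.subtype`: its vacuum vectors are vacuum vectors of `W` (`vac_sub`), so it is `⊤`, i.e. `Z₁ ≤ Z`.
  On `W₂` the letter `bv (Sum.inr j) (-1 - n)` is injective, so `LJ mu W₂ j n` by `e_gt` (the second clause is void since
  `mu j ≠ 0`), and (S (i+1)) applies with `Function.update nu j n`: `Z₂ ≤ Z`.  So `⊤ = Z₁ ⊔ Z₂ ≤ Z`.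
  Finally `n = 0` with `f_nn` gives (S i).
-/

noncomputable section

open Matrix

open scoped Classical

namespace Pool.Agent.H143_GC.SS

open Pool.Agent.H143_GC

variable {k : ℕ}



theorem vac_sub {W : WeylModule k} {τ : Ty k} {Z : Submodule ℂ W.M} (hZ : Stable W Z) {m : Z}
    (h : IsVac τ (subW W Z hZ) m) : IsVac τ W (m : W.M) where
  low x hx := congrArg Subtype.val (h.low x hx)
  eig j hj := congrArg Subtype.val (h.eig j hj)

theorem gen_all_pow {M M' : Type} [AddCommGroup M] [Module ℂ M] [AddCommGroup M'] [Module ℂ M']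
    {A : Module.End ℂ M} {A' : Module.End ℂ M'} (φ : M →ₗ[ℂ] M')
    (h : ∀ m, φ (A m) = A' (φ m)) (n : ℕ) (m : M) : φ ((A ^ n) m) = (A' ^ n) (φ m) := by
  induction n with
  | zero => rfl
  | succ n ih => rw [pow_succ', pow_succ', Module.End.mul_apply, Module.End.mul_apply, h, ih]

theorem locNil_sub {W : WeylModule k} {Z : Submodule ℂ W.M} (hZ : Stable W Z) (x : V k)
    (h : ∀ m ∈ Z, ∃ n : ℕ, ((W.a x) ^ n) m = 0) : LocNil ((subW W Z hZ).a x) := by
  intro m
  have hm : (show W.M from (m : Z).1) ∈ Z := (m : Z).2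
  obtain ⟨n, hn⟩ := h _ hm
  refine ⟨n, ?_⟩
  have h1 := gen_all_pow (A := (subW W Z hZ).a x) (A' := W.a x)
    (show (subW W Z hZ).M →ₗ[ℂ] W.M from Z.subtype) (fun _ => rfl) n m
  apply Subtype.ext
  exact h1.trans hn

theorem locNil_sub' {W : WeylModule k} {Z : Submodule ℂ W.M} (hZ : Stable W Z) (x : V k)
    (h : LocNil (W.a x)) : LocNil ((subW W Z hZ).a x) :=
  locNil_sub hZ x (fun m _ => h m)

/-- the statement for submodules -/
theorem le_of_sub {W : WeylModule k} {Z Z1 : Submodule ℂ W.M}
    (h : (Z.comap Z1.subtype : Submodule ℂ Z1) = ⊤) : Z1 ≤ Z := by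
  intro m hm
  have h2 : (⟨m, hm⟩ : Z1) ∈ (Z.comap Z1.subtype : Submodule ℂ Z1) := by
    rw [h]; exact Submodule.mem_top
  exact h2

theorem stable_comap {W : WeylModule k} {Z Z1 : Submodule ℂ W.M} (hZ : Stable W Z)
    (h1 : Stable W Z1) : Stable (subW W Z1 h1) (Z.comap Z1.subtype : Submodule ℂ Z1) := by
  intro x m hm
  exact hZ x _ hm

theorem gen_all_S {c : ℂ} (hc : ∀ q : ℚ, (q : ℂ) ≠ c) {mu : Fin k → ℕ} :
    ∀ (d i : ℕ), i + d = k → ∀ (W : WeylModule k), Facts c mu W → UL W → ∀ (nu : Fin k → ℕ),
      (∀ j : Fin k, (j : ℕ) < i → LJ mu W j (nu j)) → ∀ Z : Submodule ℂ W.M, Stable W Z →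
      (∀ (nu' : Fin k → ℕ) m, IsVac (tyM c hc mu nu') W m → m ∈ Z) → Z = ⊤ := by
  intro d
  induction d with
  | zero =>
    intro i hi W hF hU nu hlet Z hZ h
    exact gen_vac hc hF nu (fun j => hlet j (by have := j.2; omega)) Z hZ (h nu)
  | succ d ih =>
    intro i hi W hF hU nu hlet Z hZ h
    have hik : i < k := by omega
    -- the step with a letter at `i`
    have step : ∀ (W : WeylModule k), Facts c mu W → UL W → ∀ (nu : Fin k → ℕ),
        (∀ j : Fin k, (j : ℕ) < i → LJ mu W j (nu j)) → ∀ n : ℕ, LJ mu W ⟨i, hik⟩ n →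
        ∀ Z : Submodule ℂ W.M, Stable W Z →
        (∀ (nu' : Fin k → ℕ) m, IsVac (tyM c hc mu nu') W m → m ∈ Z) → Z = ⊤ := by
      intro W hF hU nu hlet n hn Z hZ h
      refine ih (i + 1) (by omega) W hF hU (Function.update nu ⟨i, hik⟩ n) ?_ Z hZ h
      intro j hj
      by_cases hji : j = ⟨i, hik⟩
      · subst hji
        rw [Function.update_self]
        exact hn
      · rw [Function.update_of_ne hji]
        apply hlet
        have : (j : ℕ) ≠ i := fun h => hji (Fin.ext h)
        omega
    by_cases hmu : mu ⟨i, hik⟩ = 0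
    · refine step W hF hU nu hlet 0 ?_ Z hZ h
      constructor
      · intro p hp
        exact e_lg hF hU _ p (by rw [hmu]; push_cast at hp ⊢; omega)
      · intro _
        exact e_lg hF hU _ _ (by rw [hmu])
      · intro q hq
        exact f_nn hF hU _ q (by push_cast at hq; omega)
    · have main : ∀ (e n : ℕ), n + e = mu ⟨i, hik⟩ + 1 → ∀ (W : WeylModule k), Facts c mu W → UL W →
          ∀ (nu : Fin k → ℕ), (∀ j : Fin k, (j : ℕ) < i → LJ mu W j (nu j)) →
          (∀ q : ℤ, -(n : ℤ) ≤ q → LocNil (W.a (bv (Sum.inr ⟨i, hik⟩) q))) →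
          ∀ Z : Submodule ℂ W.M, Stable W Z →
          (∀ (nu' : Fin k → ℕ) m, IsVac (tyM c hc mu nu') W m → m ∈ Z) → Z = ⊤ := by
        intro e
        induction e with
        | zero =>
          intro n hn W hF hU nu hlet hq Z hZ h
          have h1 := e_lg hF hU ⟨i, hik⟩ (mu ⟨i, hik⟩ : ℤ) le_rfl
          have h2 := hq (-1 - (mu ⟨i, hik⟩ : ℤ)) (by
            have : (n : ℤ) = (mu ⟨i, hik⟩ : ℤ) + 1 := by exact_mod_cast hn
            omega)
          have h3 : ∀ m : W.M, m = 0 := by
            intro m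
            refine JQ.locNil_pair (α := 1) one_ne_zero h1 h2 (fun m => ?_) m
            rw [a_comm, omr_bv_inr]
            unfold bv
            rw [Pi.single_eq_same, coeff_tp, if_pos (by ring), add_sub_cancel_left]
          rw [eq_top_iff]
          intro m _
          rw [h3 m]
          exact Z.zero_mem
        | succ e ihe =>
          intro n hn W hF hU nu hlet hq Z hZ h
          obtain ⟨Z1, Z2, hZ1, hZ2, hsup, hnil, hinj⟩ := split hc hF hU ⟨i, hik⟩ hmu n hq
          have hi1 : Function.Injective Z1.subtype := Subtype.val_injective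
          have hi2 : Function.Injective Z2.subtype := Subtype.val_injective
          have hle1 : Z1 ≤ Z := by
            apply le_of_sub
            refine ihe (n + 1) (by omega) (subW W Z1 hZ1) (Facts.inj (isHom_subtype hZ1) hi1 hF)
              (UL.inj (isHom_subtype hZ1) hi1 hU) nu
              (fun j hj => LJ.inj (isHom_subtype hZ1) hi1 (hlet j hj)) ?_ _
              (stable_comap hZ hZ1) ?_
            · intro q hqq
              by_cases hqn : -(n : ℤ) ≤ q
              · exact locNil_sub' hZ1 _ (hq q hqn)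
              · have : q = -1 - (n : ℤ) := by push_cast at hqq; omega
                rw [this]
                exact locNil_sub hZ1 _ hnil
            · intro nu' m hm
              exact h nu' _ (vac_sub hZ1 hm)
          have hle2 : Z2 ≤ Z := by
            apply le_of_sub
            have hF2 : Facts c mu (subW W Z2 hZ2) := Facts.inj (isHom_subtype hZ2) hi2 hF
            have hU2 : UL (subW W Z2 hZ2) := UL.inj (isHom_subtype hZ2) hi2 hU
            have hf2 : ∀ q : ℤ, -(n : ℤ) ≤ q →
                LocNil ((subW W Z2 hZ2).a (bv (Sum.inr ⟨i, hik⟩) q)) :=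
              fun q hqq => locNil_sub' hZ2 _ (hq q hqq)
            refine step (subW W Z2 hZ2) hF2 hU2 nu
              (fun j hj => LJ.inj (isHom_subtype hZ2) hi2 (hlet j hj)) n ?_ _
              (stable_comap hZ hZ2) ?_
            · constructor
              · intro p hp
                refine e_gt hF2 hU2 ⟨i, hik⟩ n hf2 ?_ p hp
                intro m hm
                apply Subtype.ext
                exact hinj _ (m : Z2).2 (congrArg Subtype.val hm)
              · intro h0
                exact absurd h0 hmu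
              · exact hf2
            · intro nu' m hm
              exact h nu' _ (vac_sub hZ2 hm)
          rw [eq_top_iff, ← hsup]
          exact sup_le hle1 hle2
      exact main (mu ⟨i, hik⟩ + 1) 0 (by omega) W hF hU nu hlet
        (fun q hq => f_nn hF hU _ q (by push_cast at hq; omega)) Z hZ h

theorem gen_all {c : ℂ} (hc : ∀ q : ℚ, (q : ℂ) ≠ c) {mu : Fin k → ℕ} {W : WeylModule k}
    (hF : Facts c mu W) (hU : UL W) (Z : Submodule ℂ W.M) (hZ : Stable W Z)
    (h : ∀ (nu : Fin k → ℕ) m, IsVac (tyM c hc mu nu) W m → m ∈ Z) : Z = ⊤ :=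
  gen_all_S hc k 0 (by omega) W hF hU (fun _ => 0) (fun j hj => absurd hj (by omega)) Z hZ h

end Pool.Agent.H143_GC.SS
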