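import Pool.Agent.H143_GC.SS7

/-! Complete reducibility. -/

noncomputable section

open Matrix

open scoped Classical

namespace Pool.Agent.H143_GC.SS

open Pool.Agent.H143_GC

variable {k : ℕ}



theorem sub_vac {W : WeylModule k} {τ : Ty k} {Z : Submodule ℂ W.M} (hZ : Stable W Z) {m : Z}
    (h : IsVac τ W (m : W.M)) : IsVac τ (subW W Z hZ) m :=
  ⟨fun x hx => Subtype.ext (h.low x hx), fun j hj => Subtype.ext (h.eig j hj)⟩

theorem gen_simple {W : WeylModule k} {τ : Ty k} {v : W.M} (hv : IsVac τ W v) (h0 : v ≠ 0) :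
    (subW W (JM.gen W v) (fun x z hz => JM.gen_stable W v x z hz)).IsSimple := by
  refine simple_of_vac (τ := τ) (m₀ := (⟨v, JM.gen_mem W v⟩ : JM.gen W v)) (sub_vac _ hv)
    (fun h => h0 (congrArg Subtype.val h)) fun Z hZ hm => ?_
  rw [Submodule.eq_top_iff']
  rintro ⟨m, hm'⟩
  obtain ⟨z, hz, hz'⟩ := JM.gen_le W v (Z.map (JM.gen W v).subtype) (by
    rintro x _ ⟨z, hz, rfl⟩
    exact ⟨_, hZ x z hz, rfl⟩) ⟨_, hm, rfl⟩ hm'
  have : z = ⟨m, hm'⟩ := Subtype.ext hz'
  rw [← this]
  exact hz

/-- the sum of the simple submodules -/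
theorem sum_simple {c : ℂ} (hc : ∀ q : ℚ, (q : ℂ) ≠ c) {mu : Fin k → ℕ} {W : WeylModule k}
    (hF : Facts c mu W) (m : W.M) :
    m ∈ sSup {Z : Submodule ℂ W.M | ∃ hZ : Stable W Z, (subW W Z hZ).IsSimple} := by
  set S := sSup {Z : Submodule ℂ W.M | ∃ hZ : Stable W Z, (subW W Z hZ).IsSimple} with hS
  have hst : Stable W S := by
    intro x z hz
    rw [hS, sSup_eq_iSup'] at hz ⊢
    refine Submodule.iSup_induction _ (motive := fun z => W.a x z ∈ _) hz ?_ ?_ ?_
    · rintro ⟨Z, hZ, hZ'⟩ z hz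
      exact Submodule.mem_iSup_of_mem ⟨Z, hZ, hZ'⟩ (hZ x z hz)
    · rw [map_zero]
      exact Submodule.zero_mem _
    · intro z z' h h'
      rw [map_add]
      exact Submodule.add_mem _ h h'
  have hg : Stable W (JM.gen W m) := fun x z hz => JM.gen_stable W m x z hz
  have hF' : Facts c mu (subW W (JM.gen W m) hg) :=
    Facts.inj (isHom_subtype hg) Subtype.val_injective hF
  have hvac : ∀ (nu : Fin k → ℕ) (v : JM.gen W m), IsVac (tyM c hc mu nu) (subW W (JM.gen W m) hg) v →
      v ∈ S.comap (JM.gen W m).subtype := by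
    intro nu v hv
    by_cases h0 : v = 0
    · rw [h0]
      exact Submodule.zero_mem _
    · have hv' := vac_sub hg hv
      have h0' : (v : W.M) ≠ 0 := fun h => h0 (Subtype.ext h)
      exact (le_sSup (a := JM.gen W (v : W.M)) (s := {Z : Submodule ℂ W.M |
        ∃ hZ : Stable W Z, (subW W Z hZ).IsSimple}) ⟨_, gen_simple hv' h0'⟩)
          (JM.gen_mem W (v : W.M))
  have key := gen_all hc hF' (UL_gen W m) (S.comap (JM.gen W m).subtype)
    (fun x z hz => hst x _ hz) hvac
  exact (Submodule.eq_top_iff'.1 key) ⟨m, JM.gen_mem W m⟩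

/-- The free algebra on the generators acts on the module. -/
abbrev RR (k : ℕ) : Type := FreeAlgebra ℂ (V k)

/-- The module structure over the free algebra. -/
@[reducible] def modR (W : WeylModule k) : Module (RR k) W.M :=
  Module.compHom W.M (FreeAlgebra.lift ℂ (fun x => W.a x)).toRingHom

theorem stable_span {W : WeylModule k} {Z : Submodule ℂ W.M} (hZ : Stable W Z) (r : RR k) :
    ∀ m ∈ Z, FreeAlgebra.lift ℂ (fun x => W.a x) r m ∈ Z := by
  induction r using FreeAlgebra.induction with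
  | grade0 c =>
    intro m hm
    rw [AlgHom.commutes]
    exact Z.smul_mem c hm
  | grade1 x =>
    intro m hm
    rw [FreeAlgebra.lift_ι_apply]
    exact hZ x m hm
  | mul a b ha hb =>
    intro m hm
    rw [map_mul]
    exact ha _ (hb m hm)
  | add a b ha hb =>
    intro m hm
    rw [map_add]
    exact Z.add_mem (ha m hm) (hb m hm)

theorem subW_simple_iff {W : WeylModule k} {Z : Submodule ℂ W.M} (hZ : Stable W Z) :
    (subW W Z hZ).IsSimple ↔ Z ≠ ⊥ ∧ ∀ U : Submodule ℂ W.M, Stable W U → U ≤ Z → U = ⊥ ∨ U = Z := by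
  constructor
  · rintro ⟨⟨m, hm⟩, h2⟩
    refine ⟨fun h => ?_, fun U hU hUZ => ?_⟩
    · apply hm
      have hm' : ((show Z from m) : W.M) ∈ (⊥ : Submodule ℂ W.M) := h ▸ (show Z from m).2
      exact Subtype.ext hm'
    · have h3 := h2 (U.comap Z.subtype) (fun x u hu => hU x _ hu)
      rcases h3 with h3 | h3
      · left
        rw [eq_bot_iff]
        intro u hu
        have h4 : ∀ z : Z, z ∈ U.comap Z.subtype → z ∈ (⊥ : Submodule ℂ Z) := by
          intro z hz
          exact (congrArg (fun Y : Submodule ℂ Z => z ∈ Y) h3).mp hz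
        have h5 := h4 ⟨u, hUZ hu⟩ hu
        exact congrArg Subtype.val ((Submodule.mem_bot ℂ).1 h5)
      · right
        refine le_antisymm hUZ fun u hu => ?_
        have h4 := (Submodule.eq_top_iff'.1 h3) (⟨u, hu⟩ : Z)
        exact h4
  · rintro ⟨h1, h2⟩
    obtain ⟨m, hm, hm0⟩ := (Submodule.ne_bot_iff Z).1 h1
    refine ⟨⟨(⟨m, hm⟩ : Z), fun h => hm0 (congrArg Subtype.val h)⟩, fun U hU => ?_⟩
    have hU' : Stable W (Submodule.map Z.subtype U) := by
      rintro x _ ⟨u, hu, rfl⟩
      exact ⟨_, hU x u hu, rfl⟩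
    have hle : Submodule.map Z.subtype U ≤ Z := by
      rintro _ ⟨u, _, rfl⟩
      exact u.2
    rcases h2 _ hU' hle with h3 | h3
    · left
      rw [eq_bot_iff]
      intro u hu
      have h4 : ((show Z from u) : W.M) ∈ Submodule.map Z.subtype U := ⟨u, hu, rfl⟩
      rw [h3] at h4
      exact Subtype.ext h4
    · right
      refine Submodule.eq_top_iff'.2 fun u => ?_
      have h4 : ((show Z from u) : W.M) ∈ Submodule.map Z.subtype U := by
        rw [h3]
        exact (show Z from u).2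
      obtain ⟨u', hu', h5⟩ := h4
      have h6 : u' = u := Subtype.ext h5
      rwa [h6] at hu'

theorem semisimple {W : WeylModule k}
    (h : ∀ m : W.M, m ∈ sSup {Z : Submodule ℂ W.M | ∃ hZ : Stable W Z, (subW W Z hZ).IsSimple}) :
    ∃ (ι : Type) (N : ι → Submodule ℂ W.M) (hN : ∀ i, Stable W (N i)),
      (∀ i, (subW W (N i) (hN i)).IsSimple) ∧ iSupIndep N ∧ iSup N = ⊤ := by
  let _inst : Module (RR k) W.M := modR W
  have hsm : ∀ (r : RR k) (m : W.M), r • m = FreeAlgebra.lift ℂ (fun x => W.a x) r m :=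
    fun r m => rfl
  have _inst2 : IsScalarTower ℂ (RR k) W.M := ⟨fun c r m => by
    rw [hsm, hsm, map_smul]
    rfl⟩
  have hst : ∀ Z : Submodule (RR k) W.M, Stable W (Z.restrictScalars ℂ) := fun Z x m hm => by
    have := Z.smul_mem (FreeAlgebra.ι ℂ x) hm
    rw [hsm, FreeAlgebra.lift_ι_apply] at this
    exact this
  have hback : ∀ (Z : Submodule ℂ W.M), Stable W Z → ∃ Z' : Submodule (RR k) W.M,
      Z'.restrictScalars ℂ = Z := fun Z hZ =>
    ⟨{ carrier := Z, add_mem' := Z.add_mem, zero_mem' := Z.zero_mem,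
       smul_mem' := fun r m hm => stable_span hZ r m hm }, rfl⟩
  have hatom : ∀ Z : Submodule (RR k) W.M, IsAtom Z ↔
      (subW W (Z.restrictScalars ℂ) (hst Z)).IsSimple := by
    intro Z
    rw [subW_simple_iff]
    constructor
    · intro hZ
      refine ⟨fun h => hZ.1 ((Submodule.restrictScalars_eq_bot_iff ℂ (RR k) W.M).1 h), fun U hU hUZ => ?_⟩
      obtain ⟨U', rfl⟩ := hback U hU
      have hle : U' ≤ Z := hUZ
      rcases hle.eq_or_lt with h1 | h1
      · right
        rw [h1]
      · left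
        rw [hZ.2 _ h1]
        rfl
    · rintro ⟨h1, h2⟩
      refine ⟨fun h => h1 ?_, fun U hU => ?_⟩
      · rw [h]
        rfl
      · rcases h2 (U.restrictScalars ℂ) (hst U) hU.le with h3 | h3
        · exact (Submodule.restrictScalars_eq_bot_iff ℂ (RR k) W.M).1 h3
        · exfalso
          refine hU.not_ge fun u hu => ?_
          have h4 : u ∈ U.restrictScalars ℂ := by
            rw [h3]
            exact hu
          exact h4
  have htop : sSup {Z : Submodule (RR k) W.M | IsAtom Z} = ⊤ := by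
    rw [Submodule.eq_top_iff']
    intro m
    have hS := h m
    have hle : sSup {Z : Submodule ℂ W.M | ∃ hZ : Stable W Z, (subW W Z hZ).IsSimple} ≤
        (sSup {Z : Submodule (RR k) W.M | IsAtom Z}).restrictScalars ℂ := by
      refine sSup_le ?_
      rintro Z ⟨hZ, hs⟩
      obtain ⟨Z', rfl⟩ := hback Z hZ
      have : Z' ≤ sSup {Z : Submodule (RR k) W.M | IsAtom Z} := le_sSup ((hatom Z').2 hs)
      exact this
    exact hle hS
  obtain ⟨s, hs1, hs2, hs3⟩ := exists_sSupIndep_isCompl_sSup_atoms htop ⊥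
  have hs4 : sSup s = ⊤ := eq_top_of_bot_isCompl hs2
  refine ⟨s, fun i => (i : Submodule (RR k) W.M).restrictScalars ℂ, fun i => hst _,
    fun i => (hatom _).1 (hs3 i.2), ?_, ?_⟩
  · intro i
    rw [Submodule.disjoint_def]
    intro x hx hx'
    have h1 := (sSupIndep_iff s).1 hs1 i
    refine Submodule.disjoint_def.1 h1 x hx ?_
    have hle : (⨆ (j : s) (_ : j ≠ i), (j : Submodule (RR k) W.M).restrictScalars ℂ) ≤
        (⨆ (j : s) (_ : j ≠ i), (j : Submodule (RR k) W.M)).restrictScalars ℂ := by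
      refine iSup₂_le fun j hj => ?_
      have h2 : (j : Submodule (RR k) W.M) ≤ ⨆ (j : s) (_ : j ≠ i), (j : Submodule (RR k) W.M) :=
        le_iSup₂ (f := fun (j : s) (_ : j ≠ i) => (j : Submodule (RR k) W.M)) j hj
      exact h2
    exact hle hx'
  · have hst' : Stable W (⨆ i : s, (i : Submodule (RR k) W.M).restrictScalars ℂ) := by
      intro x z hz
      refine Submodule.iSup_induction _ (motive := fun z => W.a x z ∈ _) hz ?_ ?_ ?_
      · intro i z hz
        exact Submodule.mem_iSup_of_mem i (hst i x z hz)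
      · rw [map_zero]
        exact Submodule.zero_mem _
      · intro z z' h h'
        rw [map_add]
        exact Submodule.add_mem _ h h'
    obtain ⟨Z', hZ'⟩ := hback _ hst'
    have h1 : Z' = ⊤ := by
      rw [eq_top_iff, ← hs4]
      refine sSup_le fun i hi => ?_
      intro u hu
      have h2 : u ∈ ⨆ i : s, (i : Submodule (RR k) W.M).restrictScalars ℂ :=
        Submodule.mem_iSup_of_mem ⟨i, hi⟩ hu
      rw [← hZ'] at h2
      exact h2
    rw [← hZ', h1]
    rfl

end Pool.Agent.H143_GC.SS
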