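import Pool.Agent.H143_GC.SS8
import Pool.Agent.H143_GC.Final

/-! Complete reducibility of equivariant modules. -/

noncomputable section

open Matrix

open scoped Classical

namespace Pool.Agent.H143_GC.SS

open Pool.Agent.H143_GC



variable {l k : ℕ}

/-- The facts hold for an equivariant module at a diagonal point. -/
theorem facts_of_equi {c : ℂ} {lam : Fin (l + 1) → ℤ} {mu : Fin k → ℕ} {W : WeylModule k}
    (hE : IsEquivariant c (tPoint lam fun j => (mu j : ℤ)) W) : Facts c mu W := by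
  obtain ⟨T, hT, hE⟩ := hE
  have hE' : JR.Eqv c (tPoint lam fun j => (mu j : ℤ)) T := hE
  exact ⟨fun j s hs => JR.nil_C hT hE' j hs, fun j s hs hs' => JR.nil_B hT hE' j hs hs',
    fun j s hs hs' => JR.nil_D hT hE' j hs hs', fun j => JR.intdiag hT hE' j⟩

/-- A decomposition into simple submodules. -/
def Dec (W : WeylModule k) : Prop :=
  ∃ (ι : Type) (N : ι → Submodule ℂ W.M) (hN : ∀ i, Stable W (N i)),
    (∀ i, (subW W (N i) (hN i)).IsSimple) ∧ iSupIndep N ∧ iSup N = ⊤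

theorem dec_transport {W W' : WeylModule k} {γ : Matrix (Idx l k) (Idx l k) F}
    (hγ : InGamma γ) (φ : W.M ≃ₗ[ℂ] W'.M)
    (hφ : ∀ x m, φ (W.a x m) = W'.a (midBlock γ *ᵥ x) (φ m) +
        res (om (heisV γ) (midBlock γ *ᵥ x)) • φ m) (h : Dec W') : Dec W := by
  obtain ⟨ι, N, hN, hs, hi, ht⟩ := h
  have hst : ∀ Z : Submodule ℂ W'.M, Stable W' Z → Stable W (Z.comap (φ : W.M →ₗ[ℂ] W'.M)) := by
    intro Z hZ x m hm
    rw [Submodule.mem_comap] at hm ⊢
    change φ (W.a x m) ∈ Z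
    rw [hφ]
    exact Z.add_mem (hZ _ _ hm) (Z.smul_mem _ hm)
  have hst' : ∀ Z : Submodule ℂ W.M, Stable W Z → Stable W' (Z.map (φ : W.M →ₗ[ℂ] W'.M)) := by
    rintro Z hZ x _ ⟨m, hm, rfl⟩
    refine ⟨W.a (midBlock γ⁻¹ *ᵥ x) m - res (om (heisV γ) x) • m,
      Z.sub_mem (hZ _ _ hm) (Z.smul_mem _ hm), ?_⟩
    change φ _ = W'.a x (φ m)
    rw [map_sub, hφ, map_smul, Matrix.mulVec_mulVec, (JG.Gamma_mid_inv hγ).2, Matrix.one_mulVec,
      add_sub_cancel_right]
  refine ⟨ι, fun i => (N i).comap (φ : W.M →ₗ[ℂ] W'.M), fun i => hst _ (hN i), fun i => ?_, ?_, ?_⟩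
  · obtain ⟨h1, h2⟩ := (subW_simple_iff (hN i)).1 (hs i)
    refine (subW_simple_iff _).2 ⟨fun h => h1 ?_, fun U hU hUN => ?_⟩
    · rw [eq_bot_iff]
      intro z hz
      have : φ.symm z ∈ (N i).comap (φ : W.M →ₗ[ℂ] W'.M) := by
        rw [Submodule.mem_comap]
        change φ (φ.symm z) ∈ N i
        rwa [LinearEquiv.apply_symm_apply]
      have h' : (N i).comap (φ : W.M →ₗ[ℂ] W'.M) = ⊥ := h
      rw [h', Submodule.mem_bot] at this
      simpa using this
    · rcases h2 _ (hst' U hU) (Submodule.map_le_iff_le_comap.2 hUN) with h3 | h3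
      · left
        rw [eq_bot_iff]
        intro u hu
        have : φ u ∈ U.map (φ : W.M →ₗ[ℂ] W'.M) := ⟨u, hu, rfl⟩
        rw [h3, Submodule.mem_bot] at this
        simpa using this
      · right
        change U = (N i).comap (φ : W.M →ₗ[ℂ] W'.M)
        rw [← h3]
        exact (Submodule.comap_map_eq_of_injective φ.injective U).symm
  · have := hi.map_orderIso (Submodule.orderIsoMapComap φ).symm
    exact this
  · have h1 := (Submodule.orderIsoMapComap φ).symm.map_iSup N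
    rw [ht] at h1
    rw [show (fun i => (N i).comap (φ : W.M →ₗ[ℂ] W'.M)) =
      fun i => (Submodule.orderIsoMapComap φ).symm (N i) from rfl]
    exact h1.symm.trans (map_top _)

theorem dec_of_equi {c : ℂ} (hc : ∀ q : ℚ, (q : ℂ) ≠ c) {g : Matrix (Idx l k) (Idx l k) F}
    (hg : InSp g) {W : WeylModule k} (hE : IsEquivariant c g W) : Dec W := by
  obtain ⟨γ, h, lam, mu, hγ, hh, hmu, hgg⟩ := JC.decomp g hg
  obtain ⟨W', φ, hφ⟩ := JG.twist W (JG.InGamma.inv hγ)
  have hγd : γ⁻¹ * γ = 1 := Matrix.nonsing_inv_mul _ (JG.InSp.det hγ.sp)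
  have hhd : h * h⁻¹ = 1 := Matrix.mul_nonsing_inv _ (JG.InSp.det hh.1)
  have hpt : γ⁻¹ * g * h⁻¹ = tPoint lam fun j => (mu j : ℤ) := by
    rw [hgg]
    calc γ⁻¹ * (γ * (tPoint lam fun j => (mu j : ℤ)) * h) * h⁻¹ =
        (γ⁻¹ * γ) * (tPoint lam fun j => (mu j : ℤ)) * (h * h⁻¹) := by
          simp only [Matrix.mul_assoc]
      _ = _ := by rw [hγd, hhd, Matrix.one_mul, Matrix.mul_one]
  have hE' := JT.transport hg (JG.InGamma.inv hγ) (JG.InGO.inv hh) φ hφ hE
  rw [hpt] at hE'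
  exact dec_transport (JG.InGamma.inv hγ) φ hφ
    (semisimple (sum_simple hc (facts_of_equi hE')))

/-- The projection to a summand. -/
theorem exists_proj {W : WeylModule k} {ι : Type} {N : ι → Submodule ℂ W.M}
    (hN : ∀ i, Stable W (N i)) (hi : iSupIndep N) (ht : iSup N = ⊤) (i : ι) :
    ∃ π : W.M →ₗ[ℂ] N i, (∀ m : N i, π m = m) ∧
      ∀ x m, π (W.a x m) = (⟨W.a x (π m), hN i x _ (π m).2⟩ : N i) := by
  set N' : Submodule ℂ W.M := ⨆ (j : ι) (_ : j ≠ i), N j with hN'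
  have hst : Stable W N' := by
    intro x z hz
    rw [hN'] at hz ⊢
    refine Submodule.iSup_induction _ (motive := fun z => W.a x z ∈ _) hz ?_ ?_ ?_
    · intro j z hz
      by_cases hj : j = i
      · rw [iSup_neg (by simpa using hj), Submodule.mem_bot] at hz
        rw [hz, map_zero]
        exact Submodule.zero_mem _
      · rw [iSup_pos hj] at hz
        exact Submodule.mem_iSup_of_mem j (by rw [iSup_pos hj]; exact hN j x z hz)
    · rw [map_zero]
      exact Submodule.zero_mem _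
    · intro z z' h h'
      rw [map_add]
      exact Submodule.add_mem _ h h'
  have hc : IsCompl (N i) N' := by
    refine ⟨hi i, codisjoint_iff.2 ?_⟩
    rw [eq_top_iff, ← ht]
    refine iSup_le fun j => ?_
    by_cases hj : j = i
    · rw [hj]
      exact le_sup_left
    · exact le_trans (le_iSup₂ (f := fun (j : ι) (_ : j ≠ i) => N j) j hj) le_sup_right
  refine ⟨(N i).projectionOnto N' hc, fun m => Submodule.projectionOnto_apply_left hc m,
    fun x m => ?_⟩
  obtain ⟨u, v, huv⟩ : ∃ (u : N i) (v : N'), (u : W.M) + v = m := by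
    have : m ∈ N i ⊔ N' := by rw [hc.sup_eq_top]; exact Submodule.mem_top
    obtain ⟨u, hu, v, hv, huv⟩ := Submodule.mem_sup.1 this
    exact ⟨⟨u, hu⟩, ⟨v, hv⟩, huv⟩
  have e1 : (N i).projectionOnto N' hc m = u := by
    rw [← huv, map_add, Submodule.projectionOnto_apply_left,
      Submodule.projectionOnto_apply_right, add_zero]
  have e2 : W.a x m = (⟨W.a x u, hN i x _ u.2⟩ : N i) + (⟨W.a x v, hst x _ v.2⟩ : N') := by
    rw [← huv, map_add]
  rw [e1, e2, map_add, Submodule.projectionOnto_apply_left,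
    Submodule.projectionOnto_apply_right, add_zero]

theorem equi_sub {c : ℂ} {g : Matrix (Idx l k) (Idx l k) F} {W : WeylModule k}
    (hE : IsEquivariant c g W) {ι : Type} {N : ι → Submodule ℂ W.M}
    (hN : ∀ i, Stable W (N i)) (hi : iSupIndep N) (ht : iSup N = ⊤) (i : ι) :
    IsEquivariant c g (subW W (N i) (hN i)) := by
  obtain ⟨T, hT, hE⟩ := hE
  obtain ⟨π, hπ, hπa⟩ := exists_proj hN hi ht i
  have hnat : ∀ (ψ : N i →ₗ[ℂ] N i), (∀ x (m : N i), ψ ⟨W.a x m, hN i x _ m.2⟩ =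
      (⟨W.a x (ψ m), hN i x _ (ψ m).2⟩ : N i)) → ∀ (Y : lieGamma l k) m,
      ((ψ (π (T Y m)) : N i) : W.M) = T Y (ψ (π m)) := by
    intro ψ hψ Y m
    refine hT.natural ((N i).subtype ∘ₗ ψ ∘ₗ π) (fun x m => ?_) Y m
    change ((ψ (π (W.a x m)) : N i) : W.M) = W.a x (ψ (π m))
    rw [hπa, hψ]
  have hTN : ∀ (Y : lieGamma l k), ∀ m ∈ N i, T Y m ∈ N i := by
    intro Y m hm
    have h1 := hnat LinearMap.id (fun x m => rfl) Y m
    have h2 := hπ ⟨m, hm⟩
    change ((π (T Y m) : N i) : W.M) = T Y (π m : N i) at h1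
    rw [show π m = ⟨m, hm⟩ from h2] at h1
    rw [← h1]
    exact (π (T Y m)).2
  let T' : lieGamma l k →ₗ[ℂ] Module.End ℂ (N i) :=
    { toFun := fun Y => (T Y).restrict (hTN Y)
      map_add' := fun Y Z => LinearMap.ext fun m => Subtype.ext (by
        change T (Y + Z) m.1 = T Y m.1 + T Z m.1
        rw [map_add]; rfl)
      map_smul' := fun c Y => LinearMap.ext fun m => Subtype.ext (by
        change T (c • Y) m.1 = c • T Y m.1
        rw [map_smul]; rfl) }
  refine ⟨T', ⟨fun X Y Z h m => Subtype.ext (hT.bracket X Y Z h m.1),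
    fun Y x m => Subtype.ext (hT.comm Y x m.1), fun Y hY m => Subtype.ext (hT.heis Y hY m.1),
    fun ψ hψ Y m => ?_⟩, fun Y hY => ?_⟩
  · have h1 := hnat ψ (fun x m => hψ x m) Y m.1
    have h2 : π (T Y m.1) = (⟨T Y m.1, hTN Y _ m.2⟩ : N i) := hπ ⟨T Y m.1, hTN Y _ m.2⟩
    have h3 : π m.1 = m := hπ m
    rw [h2, h3] at h1
    exact Subtype.ext h1
  · obtain ⟨h1, h2⟩ := hE Y hY
    have e : ∀ m : N i, (N i).subtype ((T' Y + chi c g (Y : Matrix (Idx l k) (Idx l k) F) •
        (1 : Module.End ℂ (N i))) m) = (T Y + chi c g (Y : Matrix (Idx l k) (Idx l k) F) •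
        (1 : Module.End ℂ W.M)) ((N i).subtype m) := fun m => rfl
    exact ⟨fun hn => locNil_of_inj (φ := (N i).subtype) (N i).injective_subtype e (h1 hn),
      fun hd => intDiag_of_inj (φ := (N i).subtype) (N i).injective_subtype e (h2 hd)⟩

end Pool.Agent.H143_GC.SS
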