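import Pool.Agent.H143_GC.JK1
import Pool.Agent.H143_GC.JK2
import Pool.Agent.H143_GC.JM

/-! Submodules, quotients and the data used for complete reducibility. -/

noncomputable section

open Matrix

open scoped Classical

namespace Pool.Agent.H143_GC.SS

open Pool.Agent.H143_GC

variable {k : ℕ}

/-- A subspace stable under the Weyl algebra. -/
def Stable (W : WeylModule k) (Z : Submodule ℂ W.M) : Prop := ∀ x, ∀ m ∈ Z, W.a x m ∈ Z

/-- A homomorphism of modules over the Weyl algebra. -/
def IsHom {W W' : WeylModule k} (φ : W.M →ₗ[ℂ] W'.M) : Prop := ∀ x m, φ (W.a x m) = W'.a x (φ m)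

/-- The restriction to a stable subspace. -/
def subW (W : WeylModule k) (Z : Submodule ℂ W.M) (hZ : Stable W Z) : WeylModule k where
  M := Z
  a :=
    { toFun := fun x => (W.a x).restrict (hZ x)
      map_add' := fun x y => LinearMap.ext fun m => Subtype.ext (by
        change W.a (x + y) m.1 = W.a x m.1 + W.a y m.1
        rw [map_add]; rfl)
      map_smul' := fun c x => LinearMap.ext fun m => Subtype.ext (by
        change W.a (c • x) m.1 = c • W.a x m.1
        rw [map_smul]; rfl) }
  comm := fun x y m => Subtype.ext (W.comm x y m.1)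
  discrete := fun m => by
    obtain ⟨N, hN⟩ := W.discrete m.1
    exact ⟨N, fun x hx => Subtype.ext (hN x hx)⟩

/-- The quotient by a stable subspace. -/
def quoW (W : WeylModule k) (Z : Submodule ℂ W.M) (hZ : Stable W Z) : WeylModule k where
  M := W.M ⧸ Z
  a :=
    { toFun := fun x => Z.mapQ Z (W.a x) (fun m hm => hZ x m hm)
      map_add' := fun x y => LinearMap.ext fun m => by
        induction m using Submodule.Quotient.induction_on with
        | _ m =>
          change (Submodule.Quotient.mk (W.a (x + y) m) : W.M ⧸ Z) = Submodule.Quotient.mk (W.a x m) +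
            Submodule.Quotient.mk (W.a y m)
          rw [map_add, LinearMap.add_apply, Submodule.Quotient.mk_add]
      map_smul' := fun c x => LinearMap.ext fun m => by
        induction m using Submodule.Quotient.induction_on with
        | _ m =>
          change (Submodule.Quotient.mk (W.a (c • x) m) : W.M ⧸ Z) =
            c • Submodule.Quotient.mk (W.a x m)
          rw [map_smul, LinearMap.smul_apply, Submodule.Quotient.mk_smul] }
  comm := fun x y m => by
    induction m using Submodule.Quotient.induction_on with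
    | _ m =>
      have h := congrArg (Submodule.Quotient.mk (p := Z)) (W.comm x y m)
      rw [Submodule.Quotient.mk_sub, Submodule.Quotient.mk_smul] at h
      exact h
  discrete := fun m => by
    induction m using Submodule.Quotient.induction_on with
    | _ m =>
      obtain ⟨N, hN⟩ := W.discrete m
      refine ⟨N, fun x hx => ?_⟩
      have h := congrArg (Submodule.Quotient.mk (p := Z)) (hN x hx)
      rw [Submodule.Quotient.mk_zero] at h
      exact h

theorem subW_coe {W : WeylModule k} {Z : Submodule ℂ W.M} (hZ : Stable W Z) (x : V k) (m : Z) :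
    Z.subtype ((subW W Z hZ).a x m) = W.a x m := rfl

theorem quoW_mk {W : WeylModule k} {Z : Submodule ℂ W.M} (hZ : Stable W Z) (x : V k) (m : W.M) :
    (quoW W Z hZ).a x (Submodule.Quotient.mk m : W.M ⧸ Z) =
      (Submodule.Quotient.mk (W.a x m) : W.M ⧸ Z) := rfl

theorem isHom_subtype {W : WeylModule k} {Z : Submodule ℂ W.M} (hZ : Stable W Z) :
    IsHom (W := subW W Z hZ) (W' := W) Z.subtype := fun _ _ => rfl

theorem isHom_mkQ {W : WeylModule k} {Z : Submodule ℂ W.M} (hZ : Stable W Z) :
    IsHom (W := W) (W' := quoW W Z hZ) Z.mkQ := fun _ _ => rfl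

/-- Facts used for complete reducibility. -/
structure Facts (c : ℂ) (mu : Fin k → ℕ) (W : WeylModule k) : Prop where
  C : ∀ j (s : ℤ) (hs : 0 ≤ s), LocNil (NO W (good_matC j hs))
  B : ∀ j (s : ℤ) (hs : 0 ≤ s), 2 * (mu j : ℤ) ≤ s → LocNil (NO W (good_matB j hs))
  D : ∀ j (s : ℤ) (hs : 0 ≤ s), 0 < s → LocNil (NO W (good_matA j j hs))
  I : ∀ j, IntDiag (NO W (good_matA j j le_rfl) + (2 * (mu j : ℂ) / c) • (1 : Module.End ℂ W.M))

/-- All letters of large degree are locally nilpotent. -/
def UL (W : WeylModule k) : Prop := ∃ N : ℤ, ∀ (α : Fin k ⊕ Fin k) (p : ℤ), N ≤ p →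
  LocNil (W.a (bv α p))

/-- The letters at `j` are those of a module of type `ν`. -/
structure LJ (mu : Fin k → ℕ) (W : WeylModule k) (j : Fin k) (nu : ℕ) : Prop where
  e : ∀ p : ℤ, (nu : ℤ) < p → LocNil (W.a (bv (Sum.inl j) p))
  e0 : mu j = 0 → LocNil (W.a (bv (Sum.inl j) nu))
  f : ∀ q : ℤ, -(nu : ℤ) ≤ q → LocNil (W.a (bv (Sum.inr j) q))

/-- The types that can occur. -/
def tyM (c : ℂ) (hc : ∀ q : ℚ, (q : ℂ) ≠ c) (mu nu : Fin k → ℕ) : Ty k where
  nu j := nu j
  sp j := mu j ≠ 0
  s j := 2 * (mu j : ℂ) / c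
  hs _ hj n := irr_div hc hj n

/-- Vectors killed by a polynomial in `N` with roots in `A`. -/
def LF {M : Type} [AddCommGroup M] [Module ℂ M] (N : Module.End ℂ M) (A : Set ℂ) (m : M) : Prop :=
  ∃ p : Polynomial ℂ, p ≠ 0 ∧ (∀ r, p.IsRoot r → r ∈ A) ∧ Polynomial.aeval N p m = 0

end Pool.Agent.H143_GC.SS
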