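import Pool.Agent.H143_GC.Elem

/-! Modules generated by a vacuum vector are simple. -/

noncomputable section

open Matrix

open scoped Classical

namespace Pool.Agent.H143_GC

variable {k : ℕ}

/-- The type of a vacuum vector: the lattice data `nu`, the set `sp` of special indices, the
eigenvalues `s`. -/
structure Ty (k : ℕ) where
  nu : Fin k → ℤ
  sp : Fin k → Prop
  s : Fin k → ℂ
  hs : ∀ j, sp j → ∀ n : ℤ, s j ≠ n

variable (τ : Ty k)

/-- The isotropic lattice of the vacuum vector. -/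
def Ty.L (x : V k) : Prop :=
  ∀ j, OG (if τ.sp j then τ.nu j + 1 else τ.nu j) (x (Sum.inl j)) ∧ OG (-τ.nu j) (x (Sum.inr j))

/-- special pairs -/
def Ty.Sp : Fin k ⊕ Fin k → ℤ → Prop
  | Sum.inl j, p => τ.sp j ∧ p = τ.nu j
  | Sum.inr j, p => τ.sp j ∧ p = -1 - τ.nu j

/-- raising pairs -/
def Ty.Ra : Fin k ⊕ Fin k → ℤ → Prop
  | Sum.inl j, p => p < τ.nu j
  | Sum.inr j, p => p < -1 - τ.nu j ∨ (¬ τ.sp j ∧ p = -1 - τ.nu j)

variable {τ}

theorem Ty.L_bv_inl (j : Fin k) (p : ℤ) :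
    τ.L (bv (Sum.inl j) p) ↔ (if τ.sp j then τ.nu j + 1 else τ.nu j) ≤ p := by
  constructor
  · intro h
    by_contra hp
    have h1 := (h j).1 p (by omega)
    unfold bv at h1
    rw [Pi.single_eq_same, coeff_tp, if_pos rfl] at h1
    exact one_ne_zero h1
  · intro h i
    unfold bv
    refine ⟨?_, ?_⟩
    · by_cases hi : i = j
      · subst hi
        rw [Pi.single_eq_same]
        exact (OG_tp p).mono h
      · rw [Pi.single_eq_of_ne (by simpa using hi)]
        exact OG.zero _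
    · rw [Pi.single_eq_of_ne (by simp)]
      exact OG.zero _

theorem Ty.L_bv_inr (j : Fin k) (p : ℤ) : τ.L (bv (Sum.inr j) p) ↔ -τ.nu j ≤ p := by
  constructor
  · intro h
    by_contra hp
    have h1 := (h j).2 p (by omega)
    unfold bv at h1
    rw [Pi.single_eq_same, coeff_tp, if_pos rfl] at h1
    exact one_ne_zero h1
  · intro h i
    unfold bv
    refine ⟨?_, ?_⟩
    · rw [Pi.single_eq_of_ne (by simp)]
      exact OG.zero _
    · by_cases hi : i = j
      · subst hi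
        rw [Pi.single_eq_same]
        exact (OG_tp p).mono h
      · rw [Pi.single_eq_of_ne (by simpa using hi)]
        exact OG.zero _

theorem Ty.L.neg {x : V k} (h : τ.L x) : τ.L (-x) := fun j => ⟨(h j).1.neg, (h j).2.neg⟩

theorem Ty.Ra.dv {α : Fin k ⊕ Fin k} {p : ℤ} (h : τ.Ra α p) : τ.L (H143_GC.dv α p) := by
  rcases α with j | j
  · rw [dv_inl, Ty.L_bv_inr]
    simp only [Ty.Ra] at h
    omega
  · rw [dv_inr]
    refine Ty.L.neg ?_
    rw [Ty.L_bv_inl]
    simp only [Ty.Ra] at h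
    by_cases hs : τ.sp j
    · rw [if_pos hs]
      rcases h with h | h
      · omega
      · exact absurd hs h.1
    · rw [if_neg hs]
      rcases h with h | h <;> omega

theorem Ty.trichotomy (α : Fin k ⊕ Fin k) (p : ℤ) : τ.L (bv α p) ∨ τ.Sp α p ∨ τ.Ra α p := by
  rcases α with j | j
  · rw [Ty.L_bv_inl]
    simp only [Ty.Sp, Ty.Ra]
    by_cases hs : τ.sp j
    · rw [if_pos hs]; simp only [hs, true_and]; omega
    · rw [if_neg hs]; simp only [hs, false_and]; omega
  · rw [Ty.L_bv_inr]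
    simp only [Ty.Sp, Ty.Ra]
    by_cases hs : τ.sp j
    · simp only [hs, true_and, not_true, false_and, or_false]; omega
    · simp only [hs, false_and, false_or, not_false_iff, true_and]; omega

theorem omr_bv (α β : Fin k ⊕ Fin k) (p q : ℤ) (h : omr k (bv α p) (bv β q) ≠ 0) :
    (∃ j, α = Sum.inl j ∧ β = Sum.inr j ∧ p + q = -1) ∨
      (∃ j, α = Sum.inr j ∧ β = Sum.inl j ∧ p + q = -1) := by
  rcases β with j | j
  · rw [omr_bv_inl] at h
    unfold bv at h
    by_cases hα : Sum.inr j = α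
    · subst hα
      rw [Pi.single_eq_same, coeff_tp] at h
      refine Or.inr ⟨j, rfl, rfl, ?_⟩
      by_contra hne
      rw [if_neg (by omega), neg_zero] at h
      exact h rfl
    · rw [Pi.single_eq_of_ne hα, coeff_zero, neg_zero] at h
      exact absurd rfl h
  · rw [omr_bv_inr] at h
    unfold bv at h
    by_cases hα : Sum.inl j = α
    · subst hα
      rw [Pi.single_eq_same, coeff_tp] at h
      refine Or.inl ⟨j, rfl, rfl, ?_⟩
      by_contra hne
      rw [if_neg (by omega)] at h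
      exact h rfl
    · rw [Pi.single_eq_of_ne hα, coeff_zero] at h
      exact absurd rfl h

theorem Ty.Ra.omr {α β : Fin k ⊕ Fin k} {p q : ℤ} (h : τ.Ra α p) (h' : τ.Ra β q) :
    omr k (bv α p) (bv β q) = 0 := by
  by_contra hne
  rcases omr_bv _ _ _ _ hne with ⟨j, rfl, rfl, hpq⟩ | ⟨j, rfl, rfl, hpq⟩ <;>
    simp only [Ty.Ra] at h h' <;> omega

theorem Ty.Ra.omr_sp {α β : Fin k ⊕ Fin k} {p q : ℤ} (h : τ.Ra α p) (h' : τ.Sp β q) :
    H143_GC.omr k (bv α p) (bv β q) = 0 := by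
  by_contra hne
  rcases omr_bv _ _ _ _ hne with ⟨j, rfl, rfl, hpq⟩ | ⟨j, rfl, rfl, hpq⟩ <;>
    simp only [Ty.Ra, Ty.Sp] at h h'
  · omega
  · rcases h with h | h
    · omega
    · exact h.1 h'.1

theorem Ty.L.omr_sp {x : V k} (h : τ.L x) {β : Fin k ⊕ Fin k} {q : ℤ} (h' : τ.Sp β q) :
    H143_GC.omr k x (bv β q) = 0 := by
  rcases β with j | j <;> simp only [Ty.Sp] at h'
  · rw [omr_bv_inl, (h j).2 _ (by omega), neg_zero]
  · rw [omr_bv_inr, (h j).1 _ (by rw [if_pos h'.1]; omega)]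

theorem Ty.L.omr {x y : V k} (h : τ.L x) (h' : τ.L y) : H143_GC.omr k x y = 0 := by
  rw [omr_apply]
  unfold om
  rw [res_sum]
  refine Finset.sum_eq_zero fun j _ => ?_
  obtain ⟨h1, h2⟩ := h j
  obtain ⟨h3, h4⟩ := h' j
  rw [res_sub, OG.res (h1.mul h4), OG.res (h2.mul h3), sub_zero]
  · split_ifs <;> omega
  · split_ifs <;> omega

theorem omr_dv_bv (α β : Fin k ⊕ Fin k) (p q : ℤ) :
    omr k (dv α p) (bv β q) = if β = α ∧ q = p then -1 else 0 := by
  rw [omr_swap, omr_bv_bv]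
  split_ifs <;> simp

section

variable {W : WeylModule k}

/-- A vacuum vector of type `τ`. -/
structure IsVac (τ : Ty k) (W : WeylModule k) (m : W.M) : Prop where
  low : ∀ x, τ.L x → W.a x m = 0
  eig : ∀ j, τ.sp j → W.a (bv (Sum.inr j) (-1 - τ.nu j)) (W.a (bv (Sum.inl j) (τ.nu j)) m) =
    τ.s j • m

/-- The operator `y_j`. -/
def yy (τ : Ty k) (W : WeylModule k) (j : Fin k) : Module.End ℂ W.M :=
  W.a (bv (Sum.inr j) (-1 - τ.nu j))

/-- The operator `e_j`. -/
def ee (τ : Ty k) (W : WeylModule k) (j : Fin k) : Module.End ℂ W.M :=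
  W.a (bv (Sum.inl j) (τ.nu j))

theorem ee_yy (j : Fin k) (m : W.M) : ee τ W j (yy τ W j m) = yy τ W j (ee τ W j m) + m := by
  unfold ee yy
  rw [a_comm, omr_bv_inr]
  unfold bv
  rw [Pi.single_eq_same, coeff_tp, if_pos (by ring), one_smul]

/-- powers of `y_j` or `e_j` -/
def xx (τ : Ty k) (W : WeylModule k) (j : Fin k) (n : ℤ) : Module.End ℂ W.M :=
  if 0 ≤ n then yy τ W j ^ n.toNat else ee τ W j ^ (-n).toNat

theorem yy_pow_wt (j : Fin k) {m : W.M} {w : ℂ} (h : yy τ W j (ee τ W j m) = w • m) (n : ℕ) :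
    yy τ W j (ee τ W j ((yy τ W j ^ n) m)) = (w + n) • (yy τ W j ^ n) m := by
  induction n with
  | zero => simpa using h
  | succ n ih =>
    rw [pow_succ', Module.End.mul_apply, ee_yy, map_add, ih, map_smul]
    push_cast
    module

theorem ee_pow_wt (j : Fin k) {m : W.M} {w : ℂ} (h : yy τ W j (ee τ W j m) = w • m) (n : ℕ) :
    yy τ W j (ee τ W j ((ee τ W j ^ n) m)) = (w - n) • (ee τ W j ^ n) m := by
  induction n with
  | zero => simpa using h
  | succ n ih =>
    rw [pow_succ', Module.End.mul_apply]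
    have h1 := ee_yy (τ := τ) j (ee τ W j ((ee τ W j ^ n) m))
    rw [ih, map_smul] at h1
    have h2 : yy τ W j (ee τ W j (ee τ W j ((ee τ W j ^ n) m))) =
        (w - n) • ee τ W j ((ee τ W j ^ n) m) - ee τ W j ((ee τ W j ^ n) m) := by
      rw [h1]; abel
    rw [h2]
    push_cast
    module

theorem xx_wt (j : Fin k) {m : W.M} {w : ℂ} (h : yy τ W j (ee τ W j m) = w • m) (n : ℤ) :
    yy τ W j (ee τ W j (xx τ W j n m)) = (w + n) • xx τ W j n m := by
  unfold xx
  split_ifs with hn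
  · rw [yy_pow_wt j h]
    congr 2
    exact_mod_cast congrArg (Int.cast : ℤ → ℂ) (Int.toNat_of_nonneg hn)
  · rw [ee_pow_wt j h]
    congr 1
    have : (((-n).toNat : ℤ) : ℂ) = ((-n : ℤ) : ℂ) := by rw [Int.toNat_of_nonneg (by omega)]
    push_cast at this
    rw [this]; ring

/-- one can return from `xx j n m` to `m` -/
theorem xx_return {j : Fin k} {m : W.M} {w : ℂ} (h : yy τ W j (ee τ W j m) = w • m)
    (hw : ∀ n : ℤ, w ≠ n) (n : ℤ) : ∃ c : ℂ, c ≠ 0 ∧ xx τ W j (-n) (xx τ W j n m) = c • m := by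
  have e1 : ∀ n : ℕ, ∃ c : ℂ, c ≠ 0 ∧ (ee τ W j ^ n) ((yy τ W j ^ n) m) = c • m := by
    intro n
    induction n with
    | zero => exact ⟨1, one_ne_zero, by simp⟩
    | succ n ih =>
      obtain ⟨c, hc, h1⟩ := ih
      refine ⟨(w + n + 1) * c, mul_ne_zero (fun h0 => hw (-n - 1) ?_) hc, ?_⟩
      · push_cast; linear_combination h0
      · rw [pow_succ (ee τ W j), pow_succ' (yy τ W j), Module.End.mul_apply, Module.End.mul_apply,
          ee_yy, yy_pow_wt j h, map_add, map_smul, h1]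
        module
  have e2 : ∀ n : ℕ, ∃ c : ℂ, c ≠ 0 ∧ (yy τ W j ^ n) ((ee τ W j ^ n) m) = c • m := by
    intro n
    induction n with
    | zero => exact ⟨1, one_ne_zero, by simp⟩
    | succ n ih =>
      obtain ⟨c, hc, h1⟩ := ih
      refine ⟨(w - n) * c, mul_ne_zero (fun h0 => hw n ?_) hc, ?_⟩
      · push_cast; linear_combination h0
      · rw [pow_succ (yy τ W j), pow_succ' (ee τ W j), Module.End.mul_apply, Module.End.mul_apply,
          ee_pow_wt j h, map_smul, h1, mul_smul]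
  unfold xx
  rcases lt_trichotomy n 0 with hn | hn | hn
  · rw [if_pos (by omega : 0 ≤ -n), if_neg (by omega : ¬ 0 ≤ n)]
    exact e2 _
  · subst hn
    exact ⟨1, one_ne_zero, by simp⟩
  · rw [if_neg (by omega : ¬ 0 ≤ -n), if_pos (by omega : 0 ≤ n), neg_neg]
    exact e1 _

theorem comm_pow {A B : Module.End ℂ W.M} (h : ∀ m, A (B m) = B (A m)) (n : ℕ) (m : W.M) :
    A ((B ^ n) m) = (B ^ n) (A m) := by
  have : Commute A B := LinearMap.ext h
  exact LinearMap.congr_fun (this.pow_right n) m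

theorem comm_xx {A : Module.End ℂ W.M} {j : Fin k} (h1 : ∀ m, A (yy τ W j m) = yy τ W j (A m))
    (h2 : ∀ m, A (ee τ W j m) = ee τ W j (A m)) (n : ℤ) (m : W.M) :
    A (xx τ W j n m) = xx τ W j n (A m) := by
  unfold xx
  split_ifs
  · exact comm_pow h1 _ m
  · exact comm_pow h2 _ m

theorem yy_xx {j : Fin k} {m : W.M} {w : ℂ} (h : yy τ W j (ee τ W j m) = w • m) (n : ℤ) :
    ∃ c : ℂ, yy τ W j (xx τ W j n m) = c • xx τ W j (n + 1) m := by
  unfold xx
  by_cases hn : 0 ≤ n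
  · refine ⟨1, ?_⟩
    rw [if_pos hn, if_pos (by omega), one_smul, show (n + 1).toNat = n.toNat + 1 by omega, pow_succ',
      Module.End.mul_apply]
  · rw [if_neg hn]
    obtain ⟨b, hb⟩ : ∃ b : ℕ, (-n).toNat = b + 1 := ⟨(-n).toNat - 1, by omega⟩
    rw [hb, pow_succ', Module.End.mul_apply, ee_pow_wt j h]
    refine ⟨w - b, ?_⟩
    split_ifs with h0
    · have : b = 0 := by omega
      subst this
      have : (n + 1).toNat = 0 := by omega
      rw [this, pow_zero, pow_zero]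
    · have : (-(n + 1)).toNat = b := by omega
      rw [this]

theorem ee_xx {j : Fin k} {m : W.M} {w : ℂ} (h : yy τ W j (ee τ W j m) = w • m) (n : ℤ) :
    ∃ c : ℂ, ee τ W j (xx τ W j n m) = c • xx τ W j (n - 1) m := by
  unfold xx
  by_cases hn : 0 < n
  · rw [if_pos hn.le, if_pos (by omega)]
    obtain ⟨b, hb⟩ : ∃ b : ℕ, n.toNat = b + 1 := ⟨n.toNat - 1, by omega⟩
    rw [hb, pow_succ', Module.End.mul_apply, ee_yy, yy_pow_wt j h]
    refine ⟨w + b + 1, ?_⟩
    have : (n - 1).toNat = b := by omega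
    rw [this, add_smul _ (1 : ℂ), one_smul]
  · refine ⟨1, ?_⟩
    rw [if_neg (by omega : ¬ 0 ≤ n - 1), one_smul]
    split_ifs with h0
    · have : n = 0 := by omega
      subst this
      simp
    · rw [show (-(n - 1)).toNat = (-n).toNat + 1 by omega, pow_succ', Module.End.mul_apply]

end

end Pool.Agent.H143_GC
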