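import Pool.Agent.H143_GC.Simple

/-! Modules generated by a vacuum vector are simple, continued. -/

noncomputable section

open Matrix

open scoped Classical

namespace Pool.Agent.H143_GC

variable {k : ℕ}

/-- separation of eigenvectors in an invariant subspace -/
theorem sep {M : Type} [AddCommGroup M] [Module ℂ M] {ι : Type} (N : Module.End ℂ M)
    (Z : Submodule ℂ M) (hZ : ∀ z ∈ Z, N z ∈ Z) (w : ι → ℂ) (hw : Function.Injective w)
    (S : Finset ι) : ∀ z : ι → M, (∀ n ∈ S, N (z n) = w n • z n) → ∑ n ∈ S, z n ∈ Z →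
    ∀ n ∈ S, z n ∈ Z := by
  induction S using Finset.induction_on with
  | empty => intro z _ _ n hn; simp at hn
  | insert n₀ S hn₀ ih =>
    intro z hz hsum
    have h1 : ∑ n ∈ S, (w n - w n₀) • z n ∈ Z := by
      have h2 : ∑ n ∈ S, (w n - w n₀) • z n =
          N (∑ n ∈ insert n₀ S, z n) - w n₀ • ∑ n ∈ insert n₀ S, z n := by
        rw [map_sum, Finset.smul_sum, ← Finset.sum_sub_distrib, Finset.sum_insert hn₀,
          hz n₀ (Finset.mem_insert_self _ _), sub_self, zero_add]
        refine Finset.sum_congr rfl fun n hn => ?_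
        rw [hz n (Finset.mem_insert_of_mem hn), sub_smul]
      rw [h2]
      exact Z.sub_mem (hZ _ hsum) (Z.smul_mem _ hsum)
    have h3 := ih (fun n => (w n - w n₀) • z n) (fun n hn => by
      rw [map_smul, hz n (Finset.mem_insert_of_mem hn), smul_comm]) h1
    have h4 : ∀ n ∈ S, z n ∈ Z := by
      intro n hn
      have h5 : w n - w n₀ ≠ 0 := fun h => hn₀ (by
        have := hw (sub_eq_zero.1 h)
        rwa [this] at hn)
      have h6 := Z.smul_mem (w n - w n₀)⁻¹ (h3 n hn)
      rwa [smul_smul, inv_mul_cancel₀ h5, one_smul] at h6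
    intro n hn
    rcases Finset.mem_insert.1 hn with h | h
    · subst h
      rw [Finset.sum_insert hn₀] at hsum
      have h7 := Z.sum_mem h4
      have := Z.sub_mem hsum h7
      rwa [add_sub_cancel_right] at this
    · exact h4 n h

variable (τ : Ty k) (W : WeylModule k)

/-- The span of the vacuum vector under the special letters with index `< i`. -/
def EE (m₀ : W.M) : ℕ → Submodule ℂ W.M
  | 0 => ℂ ∙ m₀
  | i + 1 => if h : i < k then (if τ.sp ⟨i, h⟩ then
      ⨆ n : ℤ, (EE m₀ i).map (xx τ W ⟨i, h⟩ n) else EE m₀ i) else EE m₀ i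

/-- The filtration by the number of raising operators with letters in `S`. -/
def FF (m₀ : W.M) (S : Finset ((Fin k ⊕ Fin k) × ℤ)) : ℕ → Submodule ℂ W.M
  | 0 => EE τ W m₀ k
  | d + 1 => FF m₀ S d ⊔ ⨆ σ : S, (FF m₀ S d).map (W.a (bv σ.1.1 σ.1.2))

/-- The shifted filtration. -/
def FF' (m₀ : W.M) (S : Finset ((Fin k ⊕ Fin k) × ℤ)) : ℕ → Submodule ℂ W.M
  | 0 => ⊥
  | d + 1 => FF τ W m₀ S d

variable {τ W} {m₀ : W.M}

theorem sp_letter {j : Fin k} (hj : τ.sp j) : τ.Sp (Sum.inl j) (τ.nu j) ∧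
    τ.Sp (Sum.inr j) (-1 - τ.nu j) := ⟨⟨hj, rfl⟩, ⟨hj, rfl⟩⟩

theorem low_yy {x : V k} (hx : τ.L x) {j : Fin k} (hj : τ.sp j) (m : W.M) :
    W.a x (yy τ W j m) = yy τ W j (W.a x m) := by
  unfold yy
  rw [a_comm, hx.omr_sp (sp_letter hj).2, zero_smul, add_zero]

theorem low_ee {x : V k} (hx : τ.L x) {j : Fin k} (hj : τ.sp j) (m : W.M) :
    W.a x (ee τ W j m) = ee τ W j (W.a x m) := by
  unfold ee
  rw [a_comm, hx.omr_sp (sp_letter hj).1, zero_smul, add_zero]

theorem omr_ne (i j : Fin k) (hij : i ≠ j) (p q : ℤ) :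
    omr k (bv (Sum.inl i) p) (bv (Sum.inr j) q) = 0 := by
  by_contra h
  rcases omr_bv _ _ _ _ h with ⟨j', h1, h2, _⟩ | ⟨j', h1, h2, _⟩
  · rw [Sum.inl.injEq] at h1
    rw [Sum.inr.injEq] at h2
    exact hij (h1.trans h2.symm)
  · cases h1

theorem omr_same (i j : Fin k) (p q : ℤ) :
    omr k (bv (Sum.inl i) p) (bv (Sum.inl j) q) = 0 := by
  by_contra h
  rcases omr_bv _ _ _ _ h with ⟨j', h1, h2, _⟩ | ⟨j', h1, h2, _⟩
  · cases h2
  · cases h1

theorem omr_same' (i j : Fin k) (p q : ℤ) :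
    omr k (bv (Sum.inr i) p) (bv (Sum.inr j) q) = 0 := by
  by_contra h
  rcases omr_bv _ _ _ _ h with ⟨j', h1, h2, _⟩ | ⟨j', h1, h2, _⟩
  · cases h1
  · cases h2

theorem yy_yy (i j : Fin k) (m : W.M) : yy τ W i (yy τ W j m) = yy τ W j (yy τ W i m) := by
  unfold yy
  rw [a_comm, omr_same', zero_smul, add_zero]

theorem ee_ee (i j : Fin k) (m : W.M) : ee τ W i (ee τ W j m) = ee τ W j (ee τ W i m) := by
  unfold ee
  rw [a_comm, omr_same, zero_smul, add_zero]

theorem ee_yy_ne {i j : Fin k} (hij : i ≠ j) (m : W.M) :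
    ee τ W i (yy τ W j m) = yy τ W j (ee τ W i m) := by
  unfold ee yy
  rw [a_comm, omr_ne i j hij, zero_smul, add_zero]

theorem comm_yy_xx {i j : Fin k} (hij : i ≠ j) (n : ℤ) (m : W.M) :
    yy τ W i (xx τ W j n m) = xx τ W j n (yy τ W i m) :=
  comm_xx (fun m => yy_yy i j m) (fun m => (ee_yy_ne hij.symm m).symm) n m

theorem comm_ee_xx {i j : Fin k} (hij : i ≠ j) (n : ℤ) (m : W.M) :
    ee τ W i (xx τ W j n m) = xx τ W j n (ee τ W i m) :=
  comm_xx (fun m => ee_yy_ne hij m) (fun m => ee_ee i j m) n m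

theorem EE_low (h0 : IsVac τ W m₀) (i : ℕ) {x : V k} (hx : τ.L x) :
    ∀ z ∈ EE τ W m₀ i, W.a x z = 0 := by
  induction i with
  | zero =>
    intro z hz
    obtain ⟨c, rfl⟩ := Submodule.mem_span_singleton.1 hz
    rw [map_smul, h0.low x hx, smul_zero]
  | succ i ih =>
    intro z hz
    unfold EE at hz
    split_ifs at hz with h1 h2
    · have : (⨆ n : ℤ, (EE τ W m₀ i).map (xx τ W ⟨i, h1⟩ n)) ≤ LinearMap.ker (W.a x) := by
        refine iSup_le fun n => ?_
        rintro _ ⟨z', hz', rfl⟩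
        rw [LinearMap.mem_ker, comm_xx (low_yy hx h2) (low_ee hx h2), ih z' hz', map_zero]
      exact this hz
    · exact ih z hz
    · exact ih z hz

theorem EE_wt (h0 : IsVac τ W m₀) (i : ℕ) : ∀ j : Fin k, i ≤ j → τ.sp j →
    ∀ z ∈ EE τ W m₀ i, yy τ W j (ee τ W j z) = τ.s j • z := by
  induction i with
  | zero =>
    intro j _ hj z hz
    obtain ⟨c, rfl⟩ := Submodule.mem_span_singleton.1 hz
    have := h0.eig j hj
    change yy τ W j (ee τ W j m₀) = _ at this
    rw [map_smul, map_smul, this, smul_comm]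
  | succ i ih =>
    intro j hij hj z hz
    unfold EE at hz
    split_ifs at hz with h1 h2
    · have : (⨆ n : ℤ, (EE τ W m₀ i).map (xx τ W ⟨i, h1⟩ n)) ≤
          LinearMap.ker ((yy τ W j) * (ee τ W j) - τ.s j • (1 : Module.End ℂ W.M)) := by
        refine iSup_le fun n => ?_
        rintro _ ⟨z', hz', rfl⟩
        have hne : j ≠ ⟨i, h1⟩ := fun h => by rw [h] at hij; simp at hij
        rw [LinearMap.mem_ker, LinearMap.sub_apply, Module.End.mul_apply, comm_ee_xx hne,
          comm_yy_xx hne, ih j (by omega) hj z' hz', map_smul, LinearMap.smul_apply,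
          Module.End.one_apply, sub_self]
      have h3 := this hz
      rw [LinearMap.mem_ker, LinearMap.sub_apply, Module.End.mul_apply, LinearMap.smul_apply,
        Module.End.one_apply, sub_eq_zero] at h3
      exact h3
    · exact ih j (by omega) hj z hz
    · exact ih j (by omega) hj z hz

theorem EE_stable (h0 : IsVac τ W m₀) (i : ℕ) : ∀ j : Fin k, (j : ℕ) < i → τ.sp j →
    ∀ z ∈ EE τ W m₀ i, yy τ W j z ∈ EE τ W m₀ i ∧ ee τ W j z ∈ EE τ W m₀ i := by
  induction i with
  | zero => intro j hj; omega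
  | succ i ih =>
    intro j hij hj z hz
    have hE : EE τ W m₀ (i + 1) = if h : i < k then (if τ.sp ⟨i, h⟩ then
      ⨆ n : ℤ, (EE τ W m₀ i).map (xx τ W ⟨i, h⟩ n) else EE τ W m₀ i) else EE τ W m₀ i := rfl
    by_cases h1 : i < k
    · rw [dif_pos h1] at hE
      by_cases h2 : τ.sp ⟨i, h1⟩
      · rw [if_pos h2] at hE
        rw [hE] at hz ⊢
        set E' := ⨆ n : ℤ, (EE τ W m₀ i).map (xx τ W ⟨i, h1⟩ n) with hE'
        have hmem : ∀ n : ℤ, ∀ z' ∈ EE τ W m₀ i, xx τ W ⟨i, h1⟩ n z' ∈ E' := fun n z' hz' =>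
          Submodule.mem_iSup_of_mem n (Submodule.mem_map_of_mem hz')
        have key : ∀ A : Module.End ℂ W.M, (∀ n : ℤ, ∀ z' ∈ EE τ W m₀ i,
            A (xx τ W ⟨i, h1⟩ n z') ∈ E') → A z ∈ E' := by
          intro A hA
          have : E' ≤ E'.comap A := by
            refine iSup_le fun n => ?_
            rintro _ ⟨z', hz', rfl⟩
            exact hA n z' hz'
          exact this hz
        by_cases hji : j = ⟨i, h1⟩
        · subst hji
          have hw := EE_wt h0 i ⟨i, h1⟩ (le_refl i) h2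
          refine ⟨key _ fun n z' hz' => ?_, key _ fun n z' hz' => ?_⟩
          · obtain ⟨c, hc⟩ := yy_xx (hw z' hz') n
            rw [hc]
            exact E'.smul_mem _ (hmem _ z' hz')
          · obtain ⟨c, hc⟩ := ee_xx (hw z' hz') n
            rw [hc]
            exact E'.smul_mem _ (hmem _ z' hz')
        · have hlt : (j : ℕ) < i := by
            rcases Nat.lt_succ_iff_lt_or_eq.1 hij with h | h
            · exact h
            · exact absurd (Fin.ext h) hji
          refine ⟨key _ fun n z' hz' => ?_, key _ fun n z' hz' => ?_⟩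
          · rw [comm_yy_xx hji]
            exact hmem _ _ (ih j hlt hj z' hz').1
          · rw [comm_ee_xx hji]
            exact hmem _ _ (ih j hlt hj z' hz').2
      · rw [if_neg h2] at hE
        rw [hE] at hz ⊢
        refine ih j ?_ hj z hz
        rcases Nat.lt_succ_iff_lt_or_eq.1 hij with h | h
        · exact h
        · have : j = ⟨i, h1⟩ := Fin.ext h
          rw [this] at hj
          exact absurd hj h2
    · rw [dif_neg h1] at hE
      rw [hE] at hz ⊢
      exact ih j (by have := j.2; omega) hj z hz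

theorem EE_mono (i : ℕ) : EE τ W m₀ i ≤ EE τ W m₀ (i + 1) := by
  intro z hz
  have hE : EE τ W m₀ (i + 1) = if h : i < k then (if τ.sp ⟨i, h⟩ then
      ⨆ n : ℤ, (EE τ W m₀ i).map (xx τ W ⟨i, h⟩ n) else EE τ W m₀ i) else EE τ W m₀ i := rfl
  rw [hE]
  split_ifs with h1 h2
  · refine Submodule.mem_iSup_of_mem 0 ⟨z, hz, ?_⟩
    unfold xx
    simp
  · exact hz
  · exact hz

theorem mem_EE (i : ℕ) : m₀ ∈ EE τ W m₀ i := by
  induction i with
  | zero => exact Submodule.mem_span_singleton_self _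
  | succ i ih => exact EE_mono i ih

/-- Descending in the special directions. -/
theorem EE_return (h0 : IsVac τ W m₀) (Z : Submodule ℂ W.M) (hZ : ∀ x, ∀ z ∈ Z, W.a x z ∈ Z)
    (i : ℕ) (z : W.M) (hz : z ∈ Z) (hzE : z ∈ EE τ W m₀ i) (hz0 : z ≠ 0) : m₀ ∈ Z := by
  induction i generalizing z with
  | zero =>
    obtain ⟨c, rfl⟩ := Submodule.mem_span_singleton.1 hzE
    have hc : c ≠ 0 := fun h => hz0 (by rw [h, zero_smul])
    have := Z.smul_mem c⁻¹ hz
    rwa [smul_smul, inv_mul_cancel₀ hc, one_smul] at this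
  | succ i ih =>
    have hE : EE τ W m₀ (i + 1) = if h : i < k then (if τ.sp ⟨i, h⟩ then
      ⨆ n : ℤ, (EE τ W m₀ i).map (xx τ W ⟨i, h⟩ n) else EE τ W m₀ i) else EE τ W m₀ i := rfl
    rw [hE] at hzE
    split_ifs at hzE with h1 h2
    · obtain ⟨f, hf, hsum'⟩ := (Submodule.mem_iSup_iff_exists_finsupp _ _).1 hzE
      have hsum : ∑ n ∈ f.support, f n = z := hsum'
      choose g hg hgf using hf
      have hw := EE_wt h0 i ⟨i, h1⟩ (le_refl i) h2
      have hZxx : ∀ n : ℤ, ∀ z ∈ Z, xx τ W ⟨i, h1⟩ n z ∈ Z := by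
        have hpow : ∀ x : V k, ∀ n : ℕ, ∀ z ∈ Z, (W.a x ^ n) z ∈ Z := by
          intro x n
          induction n with
          | zero => intro z hz; simpa using hz
          | succ n ihn =>
            intro z hz
            rw [pow_succ', Module.End.mul_apply]
            exact hZ _ _ (ihn z hz)
        intro n z hz
        unfold xx
        split_ifs
        · exact hpow _ _ z hz
        · exact hpow _ _ z hz
      have hfZ := sep (yy τ W ⟨i, h1⟩ * ee τ W ⟨i, h1⟩) Z (fun z hz => hZ _ _ (hZ _ _ hz))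
        (fun n : ℤ => τ.s ⟨i, h1⟩ + n) (fun n n' h => by
          have : (n : ℂ) = n' := add_left_cancel h
          exact_mod_cast this) f.support f (fun n _ => by
            rw [← hgf n, Module.End.mul_apply]
            exact xx_wt _ (hw _ (hg n)) n) (by rw [hsum]; exact hz)
      obtain ⟨n, hn, hfn⟩ : ∃ n ∈ f.support, f n ≠ 0 := by
        by_contra hcon
        push Not at hcon
        exact hz0 (by rw [← hsum]; exact Finset.sum_eq_zero hcon)
      obtain ⟨c, hc, hret⟩ := xx_return (hw _ (hg n)) (fun p h => τ.hs _ h2 p h) n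
      have h3 := hZxx (-n) _ (hfZ n hn)
      rw [← hgf n, hret] at h3
      have h4 := Z.smul_mem c⁻¹ h3
      rw [smul_smul, inv_mul_cancel₀ hc, one_smul] at h4
      refine ih (g n) h4 (hg n) ?_
      intro h5
      rw [← hgf n, h5, map_zero] at hfn
      exact hfn rfl
    · exact ih z hz hzE hz0
    · exact ih z hz hzE hz0

end Pool.Agent.H143_GC
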