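import Pool.Agent.H143_GC.Simple2

/-! Modules generated by a vacuum vector are simple, end of the proof. -/

noncomputable section

open Matrix

open scoped Classical

namespace Pool.Agent.H143_GC

variable {k : ℕ} {τ : Ty k} {W : WeylModule k} {m₀ : W.M}

theorem FF_mono_succ (S : Finset ((Fin k ⊕ Fin k) × ℤ)) (d : ℕ) :
    FF τ W m₀ S d ≤ FF τ W m₀ S (d + 1) := le_sup_left

theorem FF_mono (S : Finset ((Fin k ⊕ Fin k) × ℤ)) : Monotone (FF τ W m₀ S) :=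
  monotone_nat_of_le_succ (FF_mono_succ S)

theorem FF'_le (S : Finset ((Fin k ⊕ Fin k) × ℤ)) (d : ℕ) :
    FF' τ W m₀ S d ≤ FF τ W m₀ S d := by
  cases d with
  | zero => exact bot_le
  | succ d => exact FF_mono_succ S d

theorem FF_letter {S : Finset ((Fin k ⊕ Fin k) × ℤ)} {σ : (Fin k ⊕ Fin k) × ℤ} (hσ : σ ∈ S) {d : ℕ}
    {z : W.M} (hz : z ∈ FF τ W m₀ S d) : W.a (bv σ.1 σ.2) z ∈ FF τ W m₀ S (d + 1) :=
  Submodule.mem_sup_right (Submodule.mem_iSup_of_mem (⟨σ, hσ⟩ : S) (Submodule.mem_map_of_mem hz))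

theorem FF'_letter {S : Finset ((Fin k ⊕ Fin k) × ℤ)} {σ : (Fin k ⊕ Fin k) × ℤ} (hσ : σ ∈ S) {d : ℕ}
    {z : W.M} (hz : z ∈ FF' τ W m₀ S d) : W.a (bv σ.1 σ.2) z ∈ FF τ W m₀ S d := by
  cases d with
  | zero =>
    rw [(Submodule.mem_bot ℂ).1 hz, map_zero]
    exact Submodule.zero_mem _
  | succ d => exact FF_letter hσ hz

/-- induction on the filtration -/
theorem FF_ind {S : Finset ((Fin k ⊕ Fin k) × ℤ)} {d : ℕ} (A : Module.End ℂ W.M)
    (Z : Submodule ℂ W.M) (h1 : ∀ z ∈ FF τ W m₀ S d, A z ∈ Z)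
    (h2 : ∀ σ ∈ S, ∀ z ∈ FF τ W m₀ S d, A (W.a (bv σ.1 σ.2) z) ∈ Z) :
    ∀ z ∈ FF τ W m₀ S (d + 1), A z ∈ Z := by
  have : FF τ W m₀ S (d + 1) ≤ Z.comap A := by
    refine sup_le h1 (iSup_le fun σ => ?_)
    rintro _ ⟨z, hz, rfl⟩
    exact h2 _ σ.2 z hz
  exact this

theorem FF_mono_S {S S' : Finset ((Fin k ⊕ Fin k) × ℤ)} (h : S ⊆ S') (d : ℕ) :
    FF τ W m₀ S d ≤ FF τ W m₀ S' d := by
  induction d with
  | zero => exact le_rfl
  | succ d ih =>
    refine FF_ind (LinearMap.id) _ (fun z hz => FF_mono_succ S' d (ih hz)) fun σ hσ z hz => ?_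
    exact FF_letter (h hσ) (ih hz)

theorem FF_low (h0 : IsVac τ W m₀) (S : Finset ((Fin k ⊕ Fin k) × ℤ)) {x : V k}
    (hx : τ.L x) (d : ℕ) : ∀ z ∈ FF τ W m₀ S d, W.a x z ∈ FF' τ W m₀ S d := by
  induction d with
  | zero =>
    intro z hz
    exact (Submodule.mem_bot ℂ).2 (EE_low h0 k hx z hz)
  | succ d ih =>
    refine FF_ind _ _ (fun z hz => FF'_le S d (ih z hz)) fun σ hσ z hz => ?_
    rw [a_comm]
    exact Submodule.add_mem _ (FF'_letter hσ (ih z hz)) (Submodule.smul_mem _ _ hz)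

/-- The Euler operator. -/
def eul (W : WeylModule k) (S : Finset ((Fin k ⊕ Fin k) × ℤ)) : Module.End ℂ W.M :=
  ∑ σ ∈ S, W.a (bv σ.1 σ.2) * W.a (dv σ.1 σ.2)

theorem eul_apply (S : Finset ((Fin k ⊕ Fin k) × ℤ)) (m : W.M) :
    eul W S m = ∑ σ ∈ S, W.a (bv σ.1 σ.2) (W.a (dv σ.1 σ.2) m) := by
  unfold eul
  rw [LinearMap.sum_apply]
  rfl

theorem eul_comm {S : Finset ((Fin k ⊕ Fin k) × ℤ)} (hS : ∀ σ ∈ S, τ.Ra σ.1 σ.2)
    {β : (Fin k ⊕ Fin k) × ℤ} (hβ : β ∈ S) (z : W.M) :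
    eul W S (W.a (bv β.1 β.2) z) = W.a (bv β.1 β.2) (eul W S z) - W.a (bv β.1 β.2) z := by
  rw [eul_apply, eul_apply, map_sum]
  have e : ∀ σ ∈ S, W.a (bv σ.1 σ.2) (W.a (dv σ.1 σ.2) (W.a (bv β.1 β.2) z)) =
      W.a (bv β.1 β.2) (W.a (bv σ.1 σ.2) (W.a (dv σ.1 σ.2) z)) -
        (if β = σ then W.a (bv β.1 β.2) z else 0) := by
    intro σ hσ
    rw [a_comm (dv σ.1 σ.2), map_add, map_smul, a_comm (bv σ.1 σ.2) (bv β.1 β.2),
      (hS σ hσ).omr (hS β hβ), zero_smul, add_zero, omr_dv_bv, sub_eq_add_neg]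
    congr 1
    by_cases h : β = σ
    · subst h
      rw [if_pos rfl, if_pos ⟨rfl, rfl⟩, neg_smul, one_smul]
    · rw [if_neg h, if_neg (fun h' => h (Prod.ext h'.1 h'.2)), zero_smul, neg_zero]
  rw [Finset.sum_congr rfl e, Finset.sum_sub_distrib, Finset.sum_ite_eq, if_pos hβ]

theorem FF_eul (h0 : IsVac τ W m₀) {S : Finset ((Fin k ⊕ Fin k) × ℤ)}
    (hS : ∀ σ ∈ S, τ.Ra σ.1 σ.2) (d : ℕ) :
    ∀ z ∈ FF τ W m₀ S d, (eul W S + (d : ℂ) • 1) z ∈ FF' τ W m₀ S d := by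
  induction d with
  | zero =>
    intro z hz
    refine (Submodule.mem_bot ℂ).2 ?_
    rw [LinearMap.add_apply, eul_apply, Nat.cast_zero, zero_smul, LinearMap.zero_apply, add_zero]
    refine Finset.sum_eq_zero fun σ hσ => ?_
    rw [EE_low h0 k (hS σ hσ).dv z hz, map_zero]
  | succ d ih =>
    refine FF_ind _ _ (fun z hz => ?_) fun σ hσ z hz => ?_
    · have h1 := FF'_le S d (ih z hz)
      have h2 : (eul W S + ((d + 1 : ℕ) : ℂ) • 1) z = (eul W S + (d : ℂ) • 1) z + z := by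
        simp only [LinearMap.add_apply, LinearMap.smul_apply, Module.End.one_apply]
        push_cast
        module
      rw [h2]
      exact Submodule.add_mem _ h1 hz
    · have h1 := FF'_letter hσ (ih z hz)
      have h2 : (eul W S + ((d + 1 : ℕ) : ℂ) • 1) (W.a (bv σ.1 σ.2) z) =
          W.a (bv σ.1 σ.2) ((eul W S + (d : ℂ) • 1) z) := by
        simp only [LinearMap.add_apply, LinearMap.smul_apply, Module.End.one_apply]
        rw [eul_comm hS hσ, map_add, map_smul]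
        push_cast
        module
      rw [h2]
      exact h1

theorem FF_killed (h0 : IsVac τ W m₀) {S : Finset ((Fin k ⊕ Fin k) × ℤ)}
    (hS : ∀ σ ∈ S, τ.Ra σ.1 σ.2) (d : ℕ) (z : W.M) (hz : z ∈ FF τ W m₀ S d)
    (hl : ∀ x, τ.L x → W.a x z = 0) : z ∈ EE τ W m₀ k := by
  induction d with
  | zero => exact hz
  | succ d ih =>
    refine ih ?_
    have h1 := FF_eul h0 hS (d + 1) z hz
    have h2 : (eul W S + ((d + 1 : ℕ) : ℂ) • 1) z = ((d : ℂ) + 1) • z := by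
      rw [LinearMap.add_apply, eul_apply, Finset.sum_eq_zero fun σ hσ => by
        rw [hl _ (hS σ hσ).dv, map_zero]]
      simp
    rw [h2] at h1
    have h3 : ((d : ℂ) + 1) ≠ 0 := by exact_mod_cast Nat.succ_ne_zero d
    have h4 := Submodule.smul_mem _ ((d : ℂ) + 1)⁻¹ h1
    rwa [smul_smul, inv_mul_cancel₀ h3, one_smul] at h4

/-- From a nonzero vector of an invariant subspace to the vacuum vector. -/
theorem FF_return (h0 : IsVac τ W m₀) (Z : Submodule ℂ W.M) (hZ : ∀ x, ∀ z ∈ Z, W.a x z ∈ Z)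
    {S : Finset ((Fin k ⊕ Fin k) × ℤ)} (hS : ∀ σ ∈ S, τ.Ra σ.1 σ.2) (d : ℕ) (z : W.M)
    (hz : z ∈ Z) (hzF : z ∈ FF τ W m₀ S d) (hz0 : z ≠ 0) : m₀ ∈ Z := by
  induction d generalizing z with
  | zero => exact EE_return h0 Z hZ k z hz hzF hz0
  | succ d ih =>
    by_cases hl : ∀ x, τ.L x → W.a x z = 0
    · exact EE_return h0 Z hZ k z hz (FF_killed h0 hS _ z hzF hl) hz0
    · push Not at hl
      obtain ⟨x, hx, hne⟩ := hl
      exact ih _ (hZ x z hz) (FF_low h0 S hx (d + 1) z hzF) hne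

theorem FF_sp (h0 : IsVac τ W m₀) {S : Finset ((Fin k ⊕ Fin k) × ℤ)}
    (hS : ∀ σ ∈ S, τ.Ra σ.1 σ.2) {α : Fin k ⊕ Fin k} {p : ℤ} (hp : τ.Sp α p) (d : ℕ) :
    ∀ z ∈ FF τ W m₀ S d, W.a (bv α p) z ∈ FF τ W m₀ S d := by
  induction d with
  | zero =>
    intro z hz
    rcases α with j | j
    · obtain ⟨hj, rfl⟩ := hp
      exact (EE_stable h0 k j j.2 hj z hz).2
    · obtain ⟨hj, rfl⟩ := hp
      exact (EE_stable h0 k j j.2 hj z hz).1
  | succ d ih =>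
    refine FF_ind _ _ (fun z hz => FF_mono_succ S d (ih z hz)) fun σ hσ z hz => ?_
    rw [a_comm, omr_swap, (hS σ hσ).omr_sp hp, neg_zero, zero_smul, add_zero]
    exact FF_letter hσ (ih z hz)

/-- The submodule generated by the vacuum vector. -/
def UU (τ : Ty k) (W : WeylModule k) (m₀ : W.M) : Submodule ℂ W.M where
  carrier := {z | ∃ (S : Finset ((Fin k ⊕ Fin k) × ℤ)) (d : ℕ), (∀ σ ∈ S, τ.Ra σ.1 σ.2) ∧
    z ∈ FF τ W m₀ S d}
  zero_mem' := ⟨∅, 0, by simp, Submodule.zero_mem _⟩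
  add_mem' := by
    rintro z z' ⟨S, d, hS, hz⟩ ⟨S', d', hS', hz'⟩
    refine ⟨S ∪ S', max d d', fun σ hσ => ?_, Submodule.add_mem _ ?_ ?_⟩
    · rcases Finset.mem_union.1 hσ with h | h
      · exact hS σ h
      · exact hS' σ h
    · exact FF_mono _ (le_max_left d d') (FF_mono_S Finset.subset_union_left d hz)
    · exact FF_mono _ (le_max_right d d') (FF_mono_S Finset.subset_union_right d' hz')
  smul_mem' := by
    rintro c z ⟨S, d, hS, hz⟩
    exact ⟨S, d, hS, Submodule.smul_mem _ _ hz⟩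

theorem UU_letter (h0 : IsVac τ W m₀) (α : Fin k ⊕ Fin k) (p : ℤ) {z : W.M}
    (hz : z ∈ UU τ W m₀) : W.a (bv α p) z ∈ UU τ W m₀ := by
  obtain ⟨S, d, hS, hz⟩ := hz
  rcases Ty.trichotomy (τ := τ) α p with h | h | h
  · exact ⟨S, d, hS, FF'_le S d (FF_low h0 S h d z hz)⟩
  · exact ⟨S, d, hS, FF_sp h0 hS h d z hz⟩
  · refine ⟨insert (α, p) S, d + 1, fun σ hσ => ?_, ?_⟩
    · rcases Finset.mem_insert.1 hσ with h' | h'
      · rw [h']; exact h
      · exact hS σ h'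
    · exact FF_letter (Finset.mem_insert_self (α, p) S)
        (FF_mono_S (Finset.subset_insert _ _) d hz)

theorem UU_stable (h0 : IsVac τ W m₀) (x : V k) {z : W.M}
    (hz : z ∈ UU τ W m₀) : W.a x z ∈ UU τ W m₀ := by
  obtain ⟨N₁, h1⟩ := exists_OGV x
  set N := max N₁ (lev z) with hN
  have hm : Ann W N z := (lev_spec z).mono (by exact_mod_cast le_max_right _ _)
  have hx : OGV (-N) x := h1.mono (by
    have : (N₁ : ℤ) ≤ N := by exact_mod_cast le_max_left _ _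
    omega)
  rw [a_congr hm (sum_bv x N hx)]
  simp only [map_sum, map_smul, LinearMap.sum_apply, LinearMap.smul_apply]
  exact Submodule.sum_mem _ fun α _ => Submodule.sum_mem _ fun p _ =>
    Submodule.smul_mem _ _ (UU_letter h0 α p hz)

theorem mem_UU : m₀ ∈ UU τ W m₀ := ⟨∅, 0, by simp, mem_EE k⟩

theorem UU_return (h0 : IsVac τ W m₀) (Z : Submodule ℂ W.M) (hZ : ∀ x, ∀ z ∈ Z, W.a x z ∈ Z)
    (z : W.M) (hz : z ∈ Z) (hzF : z ∈ UU τ W m₀) (hz0 : z ≠ 0) : m₀ ∈ Z := by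
  obtain ⟨S, d, hS, hzS⟩ := hzF
  exact FF_return h0 Z hZ hS d z hz hzS hz0

/-- A module generated by a vacuum vector is simple. -/
theorem simple_of_vac (h0 : IsVac τ W m₀) (hm : m₀ ≠ 0)
    (hgen : ∀ Z : Submodule ℂ W.M, (∀ x, ∀ m ∈ Z, W.a x m ∈ Z) → m₀ ∈ Z → Z = ⊤) :
    W.IsSimple := by
  refine ⟨⟨m₀, hm⟩, fun Z hZ => ?_⟩
  by_cases h : Z = ⊥
  · exact Or.inl h
  · obtain ⟨z, hz, hz0⟩ := (Submodule.ne_bot_iff Z).1 h
    refine Or.inr (hgen Z hZ (UU_return h0 Z hZ z hz ?_ hz0))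
    rw [hgen (UU τ W m₀) (fun x m hm => UU_stable h0 x hm) mem_UU]
    trivial

/-- The direct sum of two modules. -/
def prodW (W₁ W₂ : WeylModule k) : WeylModule k where
  M := W₁.M × W₂.M
  a :=
    { toFun := fun x => (W₁.a x).prodMap (W₂.a x)
      map_add' := fun x y => by
        ext m <;> simp
      map_smul' := fun c x => by
        ext m <;> simp }
  comm x y m := by
    refine Prod.ext ?_ ?_
    · exact W₁.comm x y m.1
    · exact W₂.comm x y m.2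
  discrete m := by
    obtain ⟨N₁, h1⟩ := W₁.discrete m.1
    obtain ⟨N₂, h2⟩ := W₂.discrete m.2
    refine ⟨max N₁ N₂, fun x hx => Prod.ext ?_ ?_⟩
    · exact h1 x fun i p hp => hx i p (lt_of_lt_of_le hp (le_max_left _ _))
    · exact h2 x fun i p hp => hx i p (lt_of_lt_of_le hp (le_max_right _ _))

theorem iso_of_vac {W₁ W₂ : WeylModule k} (h1 : W₁.IsSimple) (h2 : W₂.IsSimple) {m₁ : W₁.M}
    {m₂ : W₂.M} (hm1 : m₁ ≠ 0) (hm2 : m₂ ≠ 0) (v1 : IsVac τ W₁ m₁) (v2 : IsVac τ W₂ m₂) :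
    ∃ φ : W₁.M ≃ₗ[ℂ] W₂.M, ∀ x m, φ (W₁.a x m) = W₂.a x (φ m) := by
  set W := prodW W₁ W₂ with hW
  let m₀ : W.M := (m₁, m₂)
  have h0 : IsVac τ W m₀ := by
    constructor
    · intro x hx
      exact Prod.ext (v1.low x hx) (v2.low x hx)
    · intro j hj
      exact Prod.ext (v1.eig j hj) (v2.eig j hj)
  let U := UU τ W m₀
  let p1 : U →ₗ[ℂ] W₁.M := (LinearMap.fst ℂ W₁.M W₂.M).comp U.subtype
  let p2 : U →ₗ[ℂ] W₂.M := (LinearMap.snd ℂ W₁.M W₂.M).comp U.subtype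
  have i1 : Function.Injective p1 := by
    rw [injective_iff_map_eq_zero]
    intro z hz
    by_contra hne
    have h3 : (z : W.M) ≠ 0 := fun h => hne (Subtype.ext h)
    have h4 := UU_return h0 (LinearMap.ker (LinearMap.fst ℂ W₁.M W₂.M)) (fun x m hm => by
      change m.1 = 0 at hm
      change W₁.a x m.1 = 0
      rw [hm, map_zero]) z hz z.2 h3
    exact hm1 h4
  have i2 : Function.Injective p2 := by
    rw [injective_iff_map_eq_zero]
    intro z hz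
    by_contra hne
    have h3 : (z : W.M) ≠ 0 := fun h => hne (Subtype.ext h)
    have h4 := UU_return h0 (LinearMap.ker (LinearMap.snd ℂ W₁.M W₂.M)) (fun x m hm => by
      change m.2 = 0 at hm
      change W₂.a x m.2 = 0
      rw [hm, map_zero]) z hz z.2 h3
    exact hm2 h4
  have s1 : Function.Surjective p1 := by
    rw [← LinearMap.range_eq_top]
    rcases h1.2 (LinearMap.range p1) (by
      rintro x _ ⟨z, rfl⟩
      exact ⟨⟨W.a x z, UU_stable h0 x z.2⟩, rfl⟩) with h | h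
    · exfalso
      have : m₁ ∈ LinearMap.range p1 := ⟨⟨m₀, mem_UU⟩, rfl⟩
      rw [h] at this
      exact hm1 ((Submodule.mem_bot ℂ).1 this)
    · exact h
  have s2 : Function.Surjective p2 := by
    rw [← LinearMap.range_eq_top]
    rcases h2.2 (LinearMap.range p2) (by
      rintro x _ ⟨z, rfl⟩
      exact ⟨⟨W.a x z, UU_stable h0 x z.2⟩, rfl⟩) with h | h
    · exfalso
      have : m₂ ∈ LinearMap.range p2 := ⟨⟨m₀, mem_UU⟩, rfl⟩
      rw [h] at this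
      exact hm2 ((Submodule.mem_bot ℂ).1 this)
    · exact h
  let e1 := LinearEquiv.ofBijective p1 ⟨i1, s1⟩
  let e2 := LinearEquiv.ofBijective p2 ⟨i2, s2⟩
  refine ⟨e1.symm.trans e2, fun x m => ?_⟩
  obtain ⟨z, rfl⟩ := s1 m
  have h3 : W₁.a x (p1 z) = e1 ⟨W.a x z, UU_stable h0 x z.2⟩ := rfl
  have h4 : p1 z = e1 z := rfl
  rw [h3, h4, LinearEquiv.trans_apply, LinearEquiv.trans_apply, LinearEquiv.symm_apply_apply,
    LinearEquiv.symm_apply_apply]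
  rfl

end Pool.Agent.H143_GC
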