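import Pool.Agent.H143_GC.Types

/-! The stabiliser of a diagonal point. -/

noncomputable section

open Matrix

open scoped Classical

namespace Pool.Agent.H143_GC

variable {l k : ℕ}

/-- The exponents of `tPoint`. -/
def ex (lam : Fin (l + 1) → ℤ) (mu : Fin k → ℤ) : Idx l k → ℤ
  | Sum.inl (Sum.inl i) => -lam i
  | Sum.inl (Sum.inr j) => mu j
  | Sum.inr (Sum.inl i) => lam i
  | Sum.inr (Sum.inr j) => -mu j

variable (lam : Fin (l + 1) → ℤ) (mu : Fin k → ℤ)

theorem tPoint_eq : tPoint lam mu = Matrix.diagonal fun a => tp (ex lam mu a) := by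
  unfold tPoint
  congr 1
  ext a
  rcases a with (a | a) | (a | a) <;> rfl

theorem tPoint_inv : (tPoint lam mu)⁻¹ = Matrix.diagonal fun a => tp (-ex lam mu a) := by
  rw [tPoint_eq]
  apply Matrix.inv_eq_right_inv
  rw [Matrix.diagonal_mul_diagonal]
  simp only [tp_mul_tp, add_neg_cancel, tp_zero]
  exact Matrix.diagonal_one

theorem conj_apply (Y : Matrix (Idx l k) (Idx l k) F) (a b : Idx l k) :
    ((tPoint lam mu)⁻¹ * Y * tPoint lam mu) a b = tp (ex lam mu b - ex lam mu a) * Y a b := by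
  rw [tPoint_inv, tPoint_eq, Matrix.mul_diagonal, Matrix.diagonal_mul, sub_eq_neg_add, ← tp_mul_tp]
  ring

theorem int_conj (Y : Matrix (Idx l k) (Idx l k) F) (a b : Idx l k) :
    IsInt (((tPoint lam mu)⁻¹ * Y * tPoint lam mu) a b) ↔
      OG (ex lam mu a - ex lam mu b) (Y a b) := by
  rw [conj_apply, isInt_iff, OG_tp_mul, zero_sub, neg_sub]

theorem coeff_der (x : F) (p : ℤ) : (der x).coeff p = (p + 1 : ℤ) * x.coeff (p + 1) := by
  change (LaurentSeries.hasseDeriv ℂ 1 (show LaurentSeries ℂ from x)).coeff p = _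
  rw [LaurentSeries.hasseDeriv_coeff, Nat.cast_one, Ring.choose_one_right, zsmul_eq_mul]
  rfl

theorem der_tp (p : ℤ) : der (tp p) = (p : ℂ) • tp (p - 1) := by
  refine F.ext' fun q => ?_
  rw [coeff_der, coeff_smul, coeff_tp, coeff_tp]
  by_cases h : q + 1 = p
  · rw [if_pos h, if_pos (by omega), h]
  · rw [if_neg h, if_neg (by omega), mul_zero, mul_zero]

theorem chi_tPoint (c : ℂ) (Y : Matrix (Idx l k) (Idx l k) F) :
    chi c (tPoint lam mu) Y = c⁻¹ * ∑ a, (ex lam mu a : ℂ) * (Y a a).coeff 0 := by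
  unfold chi
  congr 1
  have h0 : der 0 = 0 := by
    refine F.ext' fun q => ?_
    rw [coeff_der, coeff_zero, coeff_zero, mul_zero]
  rw [tPoint_inv, tPoint_eq, Matrix.diagonal_map h0, Matrix.diagonal_mul_diagonal]
  unfold Matrix.trace
  rw [res_sum]
  refine Finset.sum_congr rfl fun a _ => ?_
  rw [Matrix.diag_apply, Matrix.diagonal_mul]
  change (der (tp (ex lam mu a)) * tp (-ex lam mu a) * Y a a).coeff (-1) = _
  rw [der_tp, smul_eq_C, mul_assoc, mul_assoc, ← smul_eq_C, coeff_smul, ← mul_assoc, tp_mul_tp,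
    coeff_tp_mul]
  congr 2
  ring

/-- The dominance conditions for the exponents. -/
structure Dom (lam : Fin (l + 1) → ℤ) (kap nu : Fin k → ℕ) : Prop where
  anti : Antitone lam
  nonneg : 0 ≤ lam (Fin.last l)
  le : ∀ j, (kap j : ℤ) ≤ lam (Fin.last l)
  zero : ∀ j, kap j = 0 → nu j = 0
  strict : ∀ i j, i < j → kap j ≠ 0 → kap j < kap i ∧ nu j < nu i

variable {lam} {kap nu : Fin k → ℕ} (hd : Dom lam kap nu)

/-- `mu = kap + nu` -/
def mun (kap nu : Fin k → ℕ) (j : Fin k) : ℤ := ((kap j + nu j : ℕ) : ℤ)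

/-- The exponents of the middle block. -/
def wm (kap nu : Fin k → ℕ) : Fin k ⊕ Fin k → ℤ
  | Sum.inl j => mun kap nu j
  | Sum.inr j => -mun kap nu j

theorem ex_mid (a : Fin k ⊕ Fin k) : ex lam (mun kap nu) (mid a) = wm kap nu a := by
  rcases a with a | a <;> rfl

/-- The exponents of the lattice of the vacuum vector. -/
def Lb (kap nu : Fin k → ℕ) : Fin k ⊕ Fin k → ℤ
  | Sum.inl j => if kap j ≠ 0 then nu j + 1 else nu j
  | Sum.inr j => -nu j

variable {c : ℂ} {hc : ∀ q : ℚ, (q : ℂ) ≠ c}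

theorem Lb_inl (j : Fin k) : Lb kap nu (Sum.inl j) = if (tyOf c hc kap nu).sp j then
    (tyOf c hc kap nu).nu j + 1 else (tyOf c hc kap nu).nu j := by
  simp only [Lb]
  by_cases h : kap j ≠ 0
  · rw [if_pos h, if_pos (show (tyOf c hc kap nu).sp j from h)]; rfl
  · rw [if_neg h, if_neg (show ¬ (tyOf c hc kap nu).sp j from h)]; rfl

theorem L_iff (x : V k) : (tyOf c hc kap nu).L x ↔ ∀ a, OG (Lb kap nu a) (x a) := by
  constructor
  · intro h a
    rcases a with a | a
    · rw [Lb_inl (c := c) (hc := hc)]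
      exact (h a).1
    · exact (h a).2
  · intro h j
    refine ⟨?_, h (Sum.inr j)⟩
    have := h (Sum.inl j)
    rwa [Lb_inl (c := c) (hc := hc)] at this

include hd

theorem Dom.key (i j : Fin k) : (i = j ∨ (kap i = 0 ∧ nu i = 0 ∧ kap j = 0 ∧ nu j = 0) ∨
    (kap j < kap i ∧ nu j < nu i ∧ kap j ≠ 0) ∨
    (kap j = 0 ∧ nu j = 0 ∧ kap i ≠ 0) ∨ (kap i < kap j ∧ nu i < nu j ∧ kap i ≠ 0) ∨
    (kap i = 0 ∧ nu i = 0 ∧ kap j ≠ 0)) := by
  by_cases hij : i = j
  · exact Or.inl hij
  · by_cases hi : kap i = 0 <;> by_cases hj : kap j = 0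
    · exact Or.inr (Or.inl ⟨hi, hd.zero _ hi, hj, hd.zero _ hj⟩)
    · exact Or.inr (Or.inr (Or.inr (Or.inr (Or.inr ⟨hi, hd.zero _ hi, hj⟩))))
    · exact Or.inr (Or.inr (Or.inr (Or.inl ⟨hj, hd.zero _ hj, hi⟩)))
    · rcases lt_or_gt_of_ne hij with h | h
      · have := hd.strict i j h hj
        exact Or.inr (Or.inr (Or.inl ⟨this.1, this.2, hj⟩))
      · have := hd.strict j i h hi
        exact Or.inr (Or.inr (Or.inr (Or.inr (Or.inl ⟨this.1, this.2, hi⟩))))

theorem Dom.ineq (a b : Fin k ⊕ Fin k) :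
    Lb kap nu a - Lb kap nu b ≤ max 0 (wm kap nu a - wm kap nu b) := by
  rcases a with i | i <;> rcases b with j | j <;> have h := hd.key i j <;>
    have h2 := hd.zero i <;> have h3 := hd.zero j <;>
    simp only [Lb, wm, mun] <;> (try split_ifs) <;>
    rcases h with h | h | h | h | h | h <;> (try subst h) <;> (try push_cast) <;> omega

theorem Dom.ineq_e {j : Fin k} (hj : kap j ≠ 0) (a : Fin k ⊕ Fin k) (ha : a ≠ Sum.inl j) :
    Lb kap nu a ≤ max 0 (wm kap nu a - wm kap nu (Sum.inl j)) + nu j := by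
  rcases a with i | i
  · have h := hd.key i j
    have hij : i ≠ j := fun h => ha (by rw [h])
    simp only [Lb, wm, mun]
    split_ifs <;> rcases h with h | h | h | h | h | h <;> (try exact absurd h hij) <;>
      (try push_cast) <;> omega
  · have h := hd.key i j
    simp only [Lb, wm, mun]
    rcases h with h | h | h | h | h | h <;> (try subst h) <;> (try push_cast) <;> omega

theorem Dom.ineq_f {j : Fin k} (hj : kap j ≠ 0) (a : Fin k ⊕ Fin k) (ha : a ≠ Sum.inr j) :
    Lb kap nu a ≤ max 0 (wm kap nu a - wm kap nu (Sum.inr j)) + (-1 - nu j) := by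
  rcases a with i | i
  · have h := hd.key i j
    simp only [Lb, wm, mun]
    split_ifs <;> rcases h with h | h | h | h | h | h <;> (try subst h) <;> (try push_cast) <;> omega
  · have h := hd.key i j
    have hij : i ≠ j := fun h => ha (by rw [h])
    simp only [Lb, wm, mun]
    rcases h with h | h | h | h | h | h <;> (try exact absurd h hij) <;>
      (try push_cast) <;> omega

/-- special exponents are isolated -/
theorem Dom.isolated {j : Fin k} (hj : kap j ≠ 0) (a : Fin k ⊕ Fin k) (ha : a ≠ Sum.inl j) :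
    wm kap nu a ≠ wm kap nu (Sum.inl j) := by
  rcases a with i | i
  · have h := hd.key i j
    have hij : i ≠ j := fun h => ha (by rw [h])
    simp only [wm, mun]
    rcases h with h | h | h | h | h | h <;> (try exact absurd h hij) <;>
      (try push_cast) <;> omega
  · have h := hd.key i j
    simp only [wm, mun]
    push_cast
    omega

omit hd

/-- The middle blocks of elements of the stabiliser. -/
structure StabM (kap nu : Fin k → ℕ) (X : MV k) : Prop where
  good : Good X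
  ord : ∀ a b, OG (max 0 (wm kap nu a - wm kap nu b)) (X a b)

theorem OG_max {p q : ℤ} {x : F} (h : OG p x) (h' : OG q x) : OG (max p q) x := by
  rcases le_total p q with h1 | h1
  · rwa [max_eq_right h1]
  · rwa [max_eq_left h1]

theorem OG_mulVec {N : Fin k ⊕ Fin k → ℤ} {N' : Fin k ⊕ Fin k → ℤ} {X : MV k} {x : V k}
    (h : ∀ a b, OG (N' a - N b) (X a b)) (hx : ∀ b, OG (N b) (x b)) (a : Fin k ⊕ Fin k) :
    OG (N' a) ((X *ᵥ x) a) := by
  unfold Matrix.mulVec dotProduct
  refine OG.sum fun b _ => ?_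
  exact (OG.mul (h a b) (hx b)).mono (by omega)

include hd

theorem StabM.L {X : MV k} (hX : StabM kap nu X) {x : V k} (hx : (tyOf c hc kap nu).L x) :
    (tyOf c hc kap nu).L (X *ᵥ x) := by
  rw [L_iff] at hx ⊢
  intro a
  exact OG_mulVec (fun a b => (hX.ord a b).mono (hd.ineq a b)) hx a

theorem StabM.L_e {X : MV k} (hX : StabM kap nu X) {j : Fin k} (hj : kap j ≠ 0) :
    (tyOf c hc kap nu).L (X *ᵥ bv (Sum.inl j) (nu j) -
      (X (Sum.inl j) (Sum.inl j)).coeff 0 • bv (Sum.inl j) (nu j)) := by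
  rw [L_iff]
  intro a
  rw [Pi.sub_apply, Pi.smul_apply, mulVec_bv]
  by_cases ha : a = Sum.inl j
  · subst ha
    unfold bv
    rw [Pi.single_eq_same]
    intro p hp
    simp only [Lb, if_pos hj] at hp
    rw [coeff_sub, coeff_mul_tp, coeff_smul, coeff_tp]
    by_cases h : p = nu j
    · rw [if_pos h, h, sub_self, mul_one, sub_self]
    · rw [if_neg h, mul_zero, sub_zero]
      exact hX.good.int _ _ _ (by omega)
  · unfold bv
    rw [Pi.single_eq_of_ne ha, smul_zero, sub_zero]
    exact (OG.mul (hX.ord a (Sum.inl j)) (OG_tp (nu j))).mono (hd.ineq_e hj a ha)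

theorem StabM.L_f {X : MV k} (hX : StabM kap nu X) {j : Fin k} (hj : kap j ≠ 0) :
    (tyOf c hc kap nu).L (X *ᵥ bv (Sum.inr j) (-1 - nu j) +
      (X (Sum.inl j) (Sum.inl j)).coeff 0 • bv (Sum.inr j) (-1 - nu j)) := by
  have hneg : X (Sum.inr j) (Sum.inr j) = -X (Sum.inl j) (Sum.inl j) := hX.good.rel.1 j j
  rw [L_iff]
  intro a
  rw [Pi.add_apply, Pi.smul_apply, mulVec_bv]
  by_cases ha : a = Sum.inr j
  · subst ha
    unfold bv
    rw [Pi.single_eq_same]
    intro p hp
    simp only [Lb] at hp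
    rw [coeff_add, coeff_mul_tp, coeff_smul, coeff_tp]
    by_cases h : p = -1 - nu j
    · rw [if_pos h, h, sub_self, mul_one, hneg, coeff_neg, neg_add_cancel]
    · rw [if_neg h, mul_zero, add_zero]
      exact hX.good.int _ _ _ (by omega)
  · unfold bv
    rw [Pi.single_eq_of_ne ha, smul_zero, add_zero]
    exact (OG.mul (hX.ord a (Sum.inr j)) (OG_tp (-1 - nu j))).mono (hd.ineq_f hj a ha)

end Pool.Agent.H143_GC
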