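import Pool.Agent.H143_GC.Stab

/-! The stabiliser of a diagonal point acts on the vacuum vector by a character. -/

noncomputable section

open Matrix

open scoped Classical

namespace Pool.Agent.H143_GC

variable {l k : ℕ} {lam : Fin (l + 1) → ℤ} {kap nu : Fin k → ℕ} {c : ℂ}
  {hc : ∀ q : ℚ, (q : ℂ) ≠ c}

/-- `Y` is in the Lie algebra of the stabiliser of the point `tPoint`. -/
def InStab (lam : Fin (l + 1) → ℤ) (kap nu : Fin k → ℕ) (Y : Matrix (Idx l k) (Idx l k) F) :
    Prop :=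
  ∀ a b, IsInt (((tPoint lam (mun kap nu))⁻¹ * Y * tPoint lam (mun kap nu)) a b)

theorem InStab.ord {Y : Matrix (Idx l k) (Idx l k) F} (h : InStab lam kap nu Y) (a b : Idx l k) :
    OG (ex lam (mun kap nu) a - ex lam (mun kap nu) b) (Y a b) := (int_conj _ _ _ _ _).1 (h a b)

theorem InStab.mid {Y : Matrix (Idx l k) (Idx l k) F} (h : InStab lam kap nu Y)
    (hY : Y ∈ lieGamma l k) : StabM kap nu (midBlock Y) where
  good := good_mid hY
  ord a b := by
    refine OG_max ((good_mid hY).int a b) ?_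
    have := h.ord (H143_GC.mid a) (H143_GC.mid b)
    rwa [ex_mid, ex_mid] at this

theorem InStab.heis (hd : Dom lam kap nu) {Y : Matrix (Idx l k) (Idx l k) F}
    (h : InStab lam kap nu Y) : (tyOf c hc kap nu).L (heisV Y) := by
  rw [L_iff]
  intro a
  have h1 := h.ord (H143_GC.mid a) top
  rw [ex_mid] at h1
  refine h1.mono ?_
  change _ ≤ _ - -lam (Fin.last l)
  rcases a with j | j
  · have h2 := hd.zero j
    have h3 := hd.nonneg
    simp only [Lb, wm, mun]
    split_ifs <;> push_cast <;> omega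
  · have h2 := hd.le j
    simp only [Lb, wm, mun]
    push_cast
    omega

theorem InStab.psi (hd : Dom lam kap nu) {Y : Matrix (Idx l k) (Idx l k) F}
    (h : InStab lam kap nu Y) : H143_GC.psi Y = 0 := by
  unfold H143_GC.psi
  rw [trace_eMat, res_sub, res_sum]
  have h1 : (1 / 2 : F) * Y (Sum.inr (Sum.inl (Fin.last l))) top =
      (1 / 2 : ℂ) • Y (Sum.inr (Sum.inl (Fin.last l))) top := by
    rw [smul_eq_C, map_div₀, map_one, map_ofNat]
  have h2 : res (Y (Sum.inr (Sum.inl (Fin.last l))) top) = 0 := by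
    refine (h.ord _ _).res ?_
    change 0 ≤ lam (Fin.last l) - -lam (Fin.last l)
    have := hd.nonneg
    omega
  rw [h1, res_smul, h2, mul_zero, sub_zero]
  refine Finset.sum_eq_zero fun i _ => ?_
  rw [res_sum]
  refine Finset.sum_eq_zero fun j _ => ?_
  split_ifs with hij
  · have hle : lam j ≤ lam i := hd.anti (by rw [Fin.le_def]; omega)
    rw [res_sub, (h.ord _ _).res, (h.ord _ _).res, sub_zero]
    · change 0 ≤ lam i - lam j
      omega
    · change 0 ≤ -lam j - -lam i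
      omega
  · rfl

theorem sum_step {M : Type} [AddCommGroup M] [Module ℂ M] (N : ℕ) (ν : ℤ) (h : -(N : ℤ) ≤ ν)
    (h' : ν < N) (f : ℤ → M) (A B : M) (h1 : ∀ p, ν < p → f p = A) (h2 : f ν = B)
    (h3 : ∀ p, p < ν → f p = 0) :
    ∑ p ∈ Finset.Ico (-(N : ℤ)) N, f p = ((N : ℂ) - 1 - ν) • A + B := by
  have e : ∀ p ∈ Finset.Ico (-(N : ℤ)) N, f p = (if ν < p then A else 0) +
      (if p = ν then B else 0) := by
    intro p _
    rcases lt_trichotomy p ν with hp | hp | hp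
    · rw [h3 p hp, if_neg (by omega), if_neg (by omega), add_zero]
    · rw [hp, h2, if_neg (by omega), if_pos rfl, zero_add]
    · rw [h1 p hp, if_pos hp, if_neg (by omega), add_zero]
  rw [Finset.sum_congr rfl e, Finset.sum_add_distrib, Finset.sum_ite_eq', if_pos
    (Finset.mem_Ico.2 ⟨h, h'⟩), ← Finset.sum_filter]
  congr 1
  have e2 : (Finset.Ico (-(N : ℤ)) N).filter (fun p => ν < p) = Finset.Ico (ν + 1) N := by
    ext p
    simp only [Finset.mem_filter, Finset.mem_Ico]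
    omega
  rw [e2, Finset.sum_const, Int.card_Ico, ← Nat.cast_smul_eq_nsmul ℂ]
  congr 1
  have : (((N - (ν + 1)).toNat : ℤ) : ℂ) = ((N - (ν + 1) : ℤ) : ℂ) := by
    rw [Int.toNat_of_nonneg (by omega)]
  rw [← Int.cast_natCast, this]
  push_cast
  ring

section

variable {W : WeylModule k} {m₀ : W.M}

theorem term_L (hd : Dom lam kap nu) (h0 : IsVac (tyOf c hc kap nu) W m₀) {X : MV k}
    (hX : StabM kap nu X) {α : Fin k ⊕ Fin k} {p : ℤ} (hp : (tyOf c hc kap nu).L (bv α p)) :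
    W.a (X *ᵥ bv α p) (W.a (dv α p) m₀) = (X α α).coeff 0 • m₀ := by
  rw [a_comm, h0.low _ (hX.L hd hp), map_zero, zero_add, omr_dv_right, mulVec_bv, coeff_mul_tp,
    sub_self]

theorem term_Ra (h0 : IsVac (tyOf c hc kap nu) W m₀) {X : MV k}
    {α : Fin k ⊕ Fin k} {p : ℤ} (hp : (tyOf c hc kap nu).L (dv α p)) :
    W.a (X *ᵥ bv α p) (W.a (dv α p) m₀) = 0 := by
  rw [h0.low _ hp, map_zero]

theorem term_e (hd : Dom lam kap nu) (h0 : IsVac (tyOf c hc kap nu) W m₀) {X : MV k}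
    (hX : StabM kap nu X) {j : Fin k} (hj : kap j ≠ 0) :
    W.a (X *ᵥ bv (Sum.inl j) (nu j)) (W.a (dv (Sum.inl j) (nu j)) m₀) =
      ((X (Sum.inl j) (Sum.inl j)).coeff 0 * ((tyOf c hc kap nu).s j + 1)) • m₀ := by
  have hl := hX.L_e (c := c) (hc := hc) hd hj
  have hsp : (tyOf c hc kap nu).sp j := hj
  have h1 := h0.eig j hsp
  have h2 := ee_yy (τ := tyOf c hc kap nu) (W := W) j m₀
  have e1 : X *ᵥ bv (Sum.inl j) (nu j) = (X *ᵥ bv (Sum.inl j) (nu j) -
      (X (Sum.inl j) (Sum.inl j)).coeff 0 • bv (Sum.inl j) (nu j)) +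
      (X (Sum.inl j) (Sum.inl j)).coeff 0 • bv (Sum.inl j) (nu j) := by abel
  rw [e1, map_add, LinearMap.add_apply, map_smul, LinearMap.smul_apply]
  have e2 : W.a (X *ᵥ bv (Sum.inl j) (nu j) -
      (X (Sum.inl j) (Sum.inl j)).coeff 0 • bv (Sum.inl j) (nu j)) (W.a (dv (Sum.inl j) (nu j)) m₀) =
      0 := by
    have := low_yy (W := W) hl hsp m₀
    change _ = _ at this
    rw [dv_inl]
    change W.a _ (yy (tyOf c hc kap nu) W j m₀) = 0
    rw [low_yy hl hsp, h0.low _ hl, map_zero]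
  rw [e2, zero_add, mul_smul]
  congr 1
  change ee (tyOf c hc kap nu) W j (yy (tyOf c hc kap nu) W j m₀) = _
  rw [h2, add_smul, one_smul]
  congr 1

theorem term_f (hd : Dom lam kap nu) (h0 : IsVac (tyOf c hc kap nu) W m₀) {X : MV k}
    (hX : StabM kap nu X) {j : Fin k} (hj : kap j ≠ 0) :
    W.a (X *ᵥ bv (Sum.inr j) (-1 - nu j)) (W.a (dv (Sum.inr j) (-1 - nu j)) m₀) =
      ((X (Sum.inl j) (Sum.inl j)).coeff 0 * (tyOf c hc kap nu).s j) • m₀ := by
  have hl := hX.L_f (c := c) (hc := hc) hd hj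
  have hsp : (tyOf c hc kap nu).sp j := hj
  have h1 := h0.eig j hsp
  have e1 : X *ᵥ bv (Sum.inr j) (-1 - nu j) = (X *ᵥ bv (Sum.inr j) (-1 - nu j) +
      (X (Sum.inl j) (Sum.inl j)).coeff 0 • bv (Sum.inr j) (-1 - nu j)) -
      (X (Sum.inl j) (Sum.inl j)).coeff 0 • bv (Sum.inr j) (-1 - nu j) := by abel
  have e3 : dv (Sum.inr j) (-1 - nu j : ℤ) = -bv (Sum.inl j) (nu j : ℤ) := by
    rw [dv_inr, sub_sub_cancel]
  rw [e3, map_neg, LinearMap.neg_apply, map_neg, e1, map_sub, LinearMap.sub_apply, map_smul,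
    LinearMap.smul_apply]
  have e2 : W.a (X *ᵥ bv (Sum.inr j) (-1 - nu j) +
      (X (Sum.inl j) (Sum.inl j)).coeff 0 • bv (Sum.inr j) (-1 - nu j))
      (W.a (bv (Sum.inl j) (nu j)) m₀) = 0 := by
    change W.a _ (ee (tyOf c hc kap nu) W j m₀) = 0
    rw [low_ee hl hsp, h0.low _ hl, map_zero]
  rw [e2, zero_sub, neg_neg, mul_smul]
  congr 1

theorem NO_vac (hd : Dom lam kap nu) (h0 : IsVac (tyOf c hc kap nu) W m₀) {X : MV k}
    (hX : StabM kap nu X) : NO W hX.good m₀ = (∑ j, (X (Sum.inl j) (Sum.inl j)).coeff 0 *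
      ((nu j : ℂ) - 2 * ((kap j + nu j : ℕ) : ℂ) / c)) • m₀ := by
  obtain ⟨N₁, hN₁⟩ := exists_Ann m₀
  set N : ℕ := N₁ + ∑ j, (nu j + 1) with hN
  have hNj : ∀ j, nu j + 1 ≤ N := fun j => by
    have := Finset.single_le_sum (f := fun j => nu j + 1) (fun i _ => Nat.zero_le _)
      (Finset.mem_univ j)
    omega
  have hm : Ann W N m₀ := hN₁.mono (by
    have : N₁ ≤ N := Nat.le_add_right _ _
    exact_mod_cast this)
  rw [NO_eq hX.good hm, QN_apply, Fintype.sum_sum_type, ← Finset.sum_add_distrib, Finset.sum_smul,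
    Finset.smul_sum]
  refine Finset.sum_congr rfl fun j _ => ?_
  set α := (X (Sum.inl j) (Sum.inl j)).coeff 0 with hα
  set s := 2 * ((kap j + nu j : ℕ) : ℂ) / c with hs
  have hneg : (X (Sum.inr j) (Sum.inr j)).coeff 0 = -α := by
    rw [hX.good.rel.1 j j, coeff_neg]
  have hNj' := hNj j
  have h1 := sum_step N (nu j) (by omega) (by omega)
    (fun p => W.a (X *ᵥ bv (Sum.inl j) p) (W.a (dv (Sum.inl j) p) m₀)) (α • m₀)
    ((α * (if kap j ≠ 0 then s + 1 else 1)) • m₀) (fun p hp => ?_) ?_ (fun p hp => ?_)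
  have h2 := sum_step N (-1 - nu j) (by omega) (by omega)
    (fun p => W.a (X *ᵥ bv (Sum.inr j) p) (W.a (dv (Sum.inr j) p) m₀)) (-α • m₀)
    ((α * (if kap j ≠ 0 then s else 0)) • m₀) (fun p hp => ?_) ?_ (fun p hp => ?_)
  · rw [h1, h2]
    have h3 : (if kap j ≠ 0 then s else 0) = s := by
      split_ifs with h
      · rfl
      · rw [not_not] at h
        rw [hs, h, hd.zero j h]
        simp
    have h4 : (if kap j ≠ 0 then s + 1 else 1) = s + 1 := by
      split_ifs with h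
      · rfl
      · rw [not_not] at h
        rw [hs, h, hd.zero j h]
        simp
    rw [h3, h4]
    push_cast
    module
  · rw [← hneg]
    refine term_L hd h0 hX ?_
    rw [Ty.L_bv_inr]
    change -(nu j : ℤ) ≤ p
    omega
  · by_cases hj : kap j ≠ 0
    · rw [if_pos hj]
      exact term_f hd h0 hX hj
    · rw [if_neg hj, mul_zero, zero_smul]
      refine term_Ra h0 ?_
      rw [dv_inr, sub_sub_cancel]
      refine Ty.L.neg ?_
      rw [Ty.L_bv_inl, if_neg (show ¬ (tyOf c hc kap nu).sp j from hj)]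
      exact le_rfl
  · refine term_Ra h0 ?_
    rw [dv_inr]
    refine Ty.L.neg ?_
    rw [Ty.L_bv_inl]
    change (if (tyOf c hc kap nu).sp j then (nu j : ℤ) + 1 else (nu j : ℤ)) ≤ -1 - p
    split_ifs <;> omega
  · refine term_L hd h0 hX ?_
    rw [Ty.L_bv_inl]
    change (if (tyOf c hc kap nu).sp j then (nu j : ℤ) + 1 else (nu j : ℤ)) ≤ p
    split_ifs <;> omega
  · by_cases hj : kap j ≠ 0
    · rw [if_pos hj]
      exact term_e hd h0 hX hj
    · rw [if_neg hj, mul_one]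
      refine term_L hd h0 hX ?_
      rw [Ty.L_bv_inl, if_neg (show ¬ (tyOf c hc kap nu).sp j from hj)]
      exact le_rfl
  · refine term_Ra h0 ?_
    rw [dv_inl, Ty.L_bv_inr]
    change -(nu j : ℤ) ≤ -1 - p
    omega

theorem chi_stab (Y : Matrix (Idx l k) (Idx l k) F) (hY : Y ∈ lieGamma l k) :
    chi c (tPoint lam (mun kap nu)) Y = ∑ j, (midBlock Y (Sum.inl j) (Sum.inl j)).coeff 0 *
      (2 * ((kap j + nu j : ℕ) : ℂ) / c) := by
  rw [chi_tPoint, sum_idx, Finset.sum_eq_zero, Finset.sum_eq_zero, zero_add,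
    Fintype.sum_sum_type, ← Finset.sum_add_distrib, zero_add, Finset.mul_sum]
  · refine Finset.sum_congr rfl fun j _ => ?_
    have hneg : midBlock Y (Sum.inr j) (Sum.inr j) = -midBlock Y (Sum.inl j) (Sum.inl j) :=
      (good_mid hY).rel.1 j j
    have h1 : Y (H143_GC.mid (Sum.inl j)) (H143_GC.mid (Sum.inl j)) =
      midBlock Y (Sum.inl j) (Sum.inl j) := rfl
    have h2 : Y (H143_GC.mid (Sum.inr j)) (H143_GC.mid (Sum.inr j)) =
      midBlock Y (Sum.inr j) (Sum.inr j) := rfl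
    rw [h1, h2, hneg, coeff_neg, ex_mid, ex_mid]
    simp only [wm, mun]
    push_cast
    ring
  · intro i _
    rw [hY.2.2.1 _ _ rfl (ne_of_lt (wt_inr_neg i)), coeff_zero, mul_zero]
  · intro i _
    rw [hY.2.2.1 _ _ rfl (ne_of_gt (wt_inl_pos i)), coeff_zero, mul_zero]

/-- The operator by which an element of the stabiliser acts. -/
def rho (l : ℕ) (c : ℂ) (lam : Fin (l + 1) → ℤ) (kap nu : Fin k → ℕ) (W : WeylModule k)
    (Y : lieGamma l k) : Module.End ℂ W.M :=
  stdT l W Y + chi c (tPoint lam (mun kap nu)) (Y : Matrix (Idx l k) (Idx l k) F) •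
    (1 : Module.End ℂ W.M)

theorem rho_vac (hd : Dom lam kap nu) (h0 : IsVac (tyOf c hc kap nu) W m₀) (Y : lieGamma l k)
    (h : InStab lam kap nu (Y : Matrix (Idx l k) (Idx l k) F)) :
    rho l c lam kap nu W Y m₀ = (∑ j, (midBlock (Y : Matrix (Idx l k) (Idx l k) F) (Sum.inl j)
      (Sum.inl j)).coeff 0 * (nu j : ℂ)) • m₀ := by
  unfold rho
  rw [LinearMap.add_apply, stdT_apply, LinearMap.smul_apply, Module.End.one_apply,
    h0.low _ (h.heis hd), h.psi hd, zero_smul, add_zero, add_zero, chi_stab _ Y.2,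
    NO_vac hd h0 (h.mid Y.2), ← add_smul, ← Finset.sum_add_distrib]
  congr 1
  refine Finset.sum_congr rfl fun j _ => ?_
  ring

theorem rho_comm (Y : lieGamma l k) (x : V k) (m : W.M) :
    rho l c lam kap nu W Y (W.a x m) = W.a x (rho l c lam kap nu W Y m) +
      (W.a (midBlock (Y : Matrix (Idx l k) (Idx l k) F) *ᵥ x) m +
        omr k (heisV (Y : Matrix (Idx l k) (Idx l k) F)) x • m) := by
  unfold rho
  have := (stdT_isLift (l := l) W).comm Y x m
  rw [sub_eq_iff_eq_add] at this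
  rw [LinearMap.add_apply, LinearMap.add_apply, this, LinearMap.smul_apply, LinearMap.smul_apply,
    Module.End.one_apply, Module.End.one_apply, map_add, map_smul, omr_apply]
  abel

end

end Pool.Agent.H143_GC
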