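import Pool.Agent.H143_GC.Stmt

/-!
# The rotation operator

Definitions for the statement about the twist.
-/

noncomputable section

open Matrix

namespace Pool.Agent.GaiottoOsp

/-- The generator `t d/dt - h'/2` of the rotations on `F^{2k}`: `x ↦ t dx/dt + x` on the coefficients
at the vectors `e` and `x ↦ t dx/dt` on the coefficients at the vectors `f`. -/
def rot {k : ℕ} (x : Fin k ⊕ Fin k → F) : Fin k ⊕ Fin k → F
  | Sum.inl j => tp 1 * der (x (Sum.inl j)) + x (Sum.inl j)
  | Sum.inr j => tp 1 * der (x (Sum.inr j))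

/-- The vector `t ^ p e_{m+j}`. -/
def ev {k : ℕ} (j : Fin k) (p : ℤ) : Fin k ⊕ Fin k → F := Pi.single (Sum.inl j) (tp p)

/-- The vector `t ^ p f_{m+j}`. -/
def fv {k : ℕ} (j : Fin k) (p : ℤ) : Fin k ⊕ Fin k → F := Pi.single (Sum.inr j) (tp p)

/-- The part `|p| ≤ N` of the normal ordered sum `- ∑_j ∑_p (p + 1) : (t ^ (-1-p) f_{m+j}) (t ^ p e_{m+j}) :`
of elements of the Weyl algebra. -/
def rotPart {k : ℕ} (W : WeylMod k) (N : ℕ) (v : W.M) : W.M :=
  ∑ j : Fin k, (∑ p ∈ Finset.range N, (-((p : ℂ) + 1)) • W.act (fv j (-1 - p)) (W.act (ev j p) v) +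
    ∑ p ∈ Finset.range N, (p : ℂ) • W.act (ev j (-1 - p)) (W.act (fv j p) v))

/-- `R` is the rotation operator of the module: the operator given by the normal ordered infinite sum
(on every vector the partial sums are eventually constant). -/
def IsRotation {k : ℕ} (W : WeylMod k) (R : W.M → W.M) : Prop :=
  ∀ v, ∃ N₀ : ℕ, ∀ N, N₀ ≤ N → R v = rotPart W N v

/-- The matrix `h'`: the eigenvalues of `h` on the basis vectors `e_i, f_i` with `i ≤ m`, and `-1`, `1`
on the vectors `e_{m+j}`, `f_{m+j}`. -/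
def hRot (l k : ℕ) : Matrix (Idx l k) (Idx l k) F :=
  Matrix.diagonal fun
    | Sum.inl (Sum.inl i) => 2 * ((l : F) - (i : ℕ)) + 1
    | Sum.inr (Sum.inl i) => -(2 * ((l : F) - (i : ℕ)) + 1)
    | Sum.inl (Sum.inr _) => -1
    | Sum.inr (Sum.inr _) => 1

/-- The value `c⁻¹ Res (t Tr ((g' g⁻¹)²) / 2 - Tr (g' g⁻¹ h') / 2) dt` at `t d/dt - h'/2` of the
difference of the two splittings of the central extension at the point `g G(O)`. -/
def chiRot {l k : ℕ} (c : ℂ) (g : Matrix (Idx l k) (Idx l k) F) : ℂ :=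
  c⁻¹ * (res (tp 1 * Matrix.trace (g.map der * g⁻¹ * (g.map der * g⁻¹))) / 2 -
    res (Matrix.trace (g.map der * g⁻¹ * hRot l k)) / 2)

/-- Twice the sum of the contents `m + row - column` over the boxes of the diagram (rows and columns
numbered from `0`): the eigenvalue of the Casimir element of `osp(2n+1|2k)` on the irreducible
representation with this label. -/
def casimir {l k : ℕ} (Y : HookDiagram l k) : ℤ := ∑ x ∈ Y.1.cells, 2 * ((l : ℤ) + 1 + x.1 - x.2)

end Pool.Agent.GaiottoOsp
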