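import Pool.Agent.H143_GC.JRot
import Pool.Agent.H143_GC.JContent
import Pool.Agent.H143_GC.Bridge
import Pool.Agent.H143_GC.Stmt3

/-! The twist of the simple objects. -/

noncomputable section

open Matrix

open scoped Classical

namespace Pool.Agent.H143_GC.Twist

open Pool.Agent.H143_GC

variable {l k : ℕ}

section

variable {W : WeylModule k}

theorem rotN_succ {N : ℕ} {m : W.M} (h : Ann W N m) :
    JRot.rotN W (N + 1) m = JRot.rotN W N m := by
  unfold JRot.rotN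
  refine Finset.sum_congr rfl fun j _ => ?_
  rw [Finset.sum_range_succ, Finset.sum_range_succ, h _ (OGV_bv (Sum.inl j) N),
    h _ (OGV_bv (Sum.inr j) N), map_zero, map_zero, smul_zero, smul_zero, add_zero, add_zero]

theorem rotN_stab {N N' : ℕ} {m : W.M} (h : Ann W N m) (h' : N ≤ N') :
    JRot.rotN W N' m = JRot.rotN W N m := by
  induction N', h' using Nat.le_induction with
  | base => rfl
  | succ n hn ih => rw [rotN_succ (h.mono (by exact_mod_cast hn)), ih]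

theorem exists_rot (W : WeylModule k) : ∃ R : W.M → W.M, JRot.IsRot W R :=
  ⟨fun m => JRot.rotN W (lev m) m, fun m => ⟨lev m, fun _ hN => (rotN_stab (lev_spec m) hN).symm⟩⟩

/-- The derivation of `F^{2k}`. -/
def rt (x : V k) : V k
  | Sum.inl j => tp 1 * der (x (Sum.inl j)) + x (Sum.inl j)
  | Sum.inr j => tp 1 * der (x (Sum.inr j))

theorem coeff_tder (x : F) (p : ℤ) : (tp 1 * der x).coeff p = (p : ℂ) * x.coeff p := by
  rw [coeff_tp_mul, coeff_der]
  norm_num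

theorem rt_inl (x : V k) (j : Fin k) (p : ℤ) : (rt x (Sum.inl j)).coeff p =
    ((p + 1 : ℤ) : ℂ) * (x (Sum.inl j)).coeff p := by
  change (tp 1 * der (x (Sum.inl j)) + x (Sum.inl j)).coeff p = _
  rw [coeff_add, coeff_tder]
  push_cast
  ring

theorem rt_inr (x : V k) (j : Fin k) (p : ℤ) : (rt x (Sum.inr j)).coeff p =
    (p : ℂ) * (x (Sum.inr j)).coeff p := by
  change (tp 1 * der (x (Sum.inr j))).coeff p = _
  rw [coeff_tder]

/-- The weight of a letter. -/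
def wl (α : Fin k ⊕ Fin k) (p : ℤ) : ℂ :=
  match α with
  | Sum.inl _ => ((p + 1 : ℤ) : ℂ)
  | Sum.inr _ => (p : ℂ)

theorem rt_coeff (x : V k) (α : Fin k ⊕ Fin k) (p : ℤ) :
    (rt x α).coeff p = wl α p * (x α).coeff p := by
  rcases α with j | j
  · exact rt_inl x j p
  · exact rt_inr x j p

theorem rot_letter {R : W.M → W.M} (hR : JRot.IsRot W R) (α : Fin k ⊕ Fin k) (p : ℤ) (m : W.M) :
    R (W.a (bv α p) m) = W.a (bv α p) (R m) + wl α p • W.a (bv α p) m := by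
  rcases α with j | j
  · exact JRot.rot_e hR j p m
  · exact JRot.rot_f hR j p m

theorem OGV_rt {N : ℤ} {x : V k} (hx : OGV N x) : OGV N (rt x) := by
  intro α p hp
  rw [rt_coeff, hx α p hp, mul_zero]

theorem rot_comm {R : W.M → W.M} (hR : JRot.IsRot W R) (x : V k) (m : W.M) :
    R (W.a x m) - W.a x (R m) = W.a (rt x) m := by
  obtain ⟨h1, h2⟩ := JRot.rot_lin hR
  let RL : W.M →ₗ[ℂ] W.M := ⟨⟨R, h1⟩, h2⟩
  have hRL : ∀ m, R m = RL m := fun _ => rfl
  obtain ⟨N₀, hN0⟩ := exists_OGV x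
  set N := max N₀ (max (lev m) (lev (R m))) with hN
  have hm : Ann W (N : ℤ) m := (lev_spec m).mono (by
    exact_mod_cast le_trans (le_max_left _ _) (le_max_right _ _))
  have hRm : Ann W (N : ℤ) (R m) := (lev_spec (R m)).mono (by
    exact_mod_cast le_trans (le_max_right _ _) (le_max_right _ _))
  have hx : OGV (-(N : ℤ)) x := hN0.mono (by
    have : (N₀ : ℤ) ≤ N := by exact_mod_cast le_max_left _ _
    omega)
  have e1 := a_congr hm (sum_bv x N hx)
  have e2 := a_congr hRm (sum_bv x N hx)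
  have e3 := a_congr hm (sum_bv (rt x) N (OGV_rt hx))
  rw [e1, e2, e3, hRL]
  simp only [map_sum, map_smul, LinearMap.sum_apply, LinearMap.smul_apply]
  rw [← Finset.sum_sub_distrib]
  refine Finset.sum_congr rfl fun α _ => ?_
  rw [← Finset.sum_sub_distrib]
  refine Finset.sum_congr rfl fun p _ => ?_
  rw [← hRL, rot_letter hR, omr_dv_right, omr_dv_right, rt_coeff, smul_add,
    add_sub_cancel_left, smul_smul, mul_comm]

end

/-- The matrix `h'`. -/
def hR (l k : ℕ) : Idx l k → ℂ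
  | Sum.inl (Sum.inl i) => 2 * ((l : ℂ) - (i : ℕ)) + 1
  | Sum.inr (Sum.inl i) => -(2 * ((l : ℂ) - (i : ℕ)) + 1)
  | Sum.inl (Sum.inr _) => -1
  | Sum.inr (Sum.inr _) => 1

theorem hRot_eq : (GaiottoOsp.hRot l k : Matrix (Idx l k) (Idx l k) F) =
    Matrix.diagonal fun a => algebraMap ℂ F (hR l k a) := by
  change Matrix.diagonal _ = _
  congr 1
  funext a
  rcases a with (a | a) | (a | a)
  · simp only [hR, map_add, map_mul, map_sub, map_natCast, map_ofNat, map_one]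
    rfl
  · simp only [hR, map_one, map_neg]
    rfl
  · simp only [hR, map_neg, map_add, map_mul, map_sub, map_natCast, map_ofNat, map_one]
    rfl
  · simp only [hR, map_one]
    rfl

theorem gg_eq (lam : Fin (l + 1) → ℤ) (mu : Fin k → ℤ) :
    (tPoint lam mu).map der * (tPoint lam mu)⁻¹ =
      Matrix.diagonal fun a => (ex lam mu a : ℂ) • tp (-1) := by
  have h0 : der 0 = 0 := by
    refine F.ext' fun q => ?_
    rw [coeff_der, coeff_zero, coeff_zero, mul_zero]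
  rw [tPoint_inv, tPoint_eq, Matrix.diagonal_map h0, Matrix.diagonal_mul_diagonal]
  congr 1
  funext a
  change der (tp (ex lam mu a)) * tp (-ex lam mu a) = _
  rw [der_tp, smul_mul_assoc, tp_mul_tp]
  congr 2
  ring

/-- The internal form of `chiRot`. -/
def chiR (c : ℂ) (g h : Matrix (Idx l k) (Idx l k) F) : ℂ :=
  c⁻¹ * (res (tp 1 * Matrix.trace (g.map der * g⁻¹ * (g.map der * g⁻¹))) / 2 -
      res (Matrix.trace (g.map der * g⁻¹ * h)) / 2)

theorem chiR_def (c : ℂ) (g : Matrix (Idx l k) (Idx l k) F) :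
    GaiottoOsp.chiRot c g = chiR c g (GaiottoOsp.hRot l k) := rfl

theorem chiRot_eq (c : ℂ) (lam : Fin (l + 1) → ℤ) (mu : Fin k → ℤ) :
    GaiottoOsp.chiRot c (tPoint lam mu : Matrix (Idx l k) (Idx l k) F) =
      c⁻¹ * ((∑ a, (ex lam mu a : ℂ) ^ 2) / 2 - (∑ a, (ex lam mu a : ℂ) * hR l k a) / 2) := by
  rw [chiR_def, hRot_eq]
  unfold chiR
  have h1 : res (tp (1 + (-1 + -1))) = 1 := by
    change (tp (1 + (-1 + -1))).coeff (-1) = 1
    rw [coeff_tp, if_pos (by norm_num)]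
  have h2 : res (tp (-1)) = 1 := by
    change (tp (-1)).coeff (-1) = 1
    rw [coeff_tp, if_pos rfl]
  have e1 : res (tp 1 * Matrix.trace ((tPoint lam mu).map der * (tPoint lam mu)⁻¹ *
      ((tPoint lam mu).map der * (tPoint lam mu)⁻¹))) = ∑ a, (ex lam mu a : ℂ) ^ 2 := by
    rw [gg_eq, Matrix.diagonal_mul_diagonal, Matrix.trace_diagonal, Finset.mul_sum, res_sum]
    refine Finset.sum_congr rfl fun a _ => ?_
    rw [smul_mul_smul_comm, tp_mul_tp, mul_smul_comm, tp_mul_tp, res_smul, h1, mul_one, sq]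
  have e2 : res (Matrix.trace ((tPoint lam mu).map der * (tPoint lam mu)⁻¹ *
      Matrix.diagonal fun a => algebraMap ℂ F (hR l k a))) =
      ∑ a, (ex lam mu a : ℂ) * hR l k a := by
    rw [gg_eq, Matrix.diagonal_mul_diagonal, Matrix.trace_diagonal, res_sum]
    refine Finset.sum_congr rfl fun a _ => ?_
    rw [smul_mul_assoc, res_smul, mul_comm (tp (-1)), ← smul_eq_C, res_smul, h2, mul_one]
  rw [e1, e2]

theorem sum_ex_sq (lam : Fin (l + 1) → ℤ) (mu : Fin k → ℤ) :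
    ∑ a, (ex lam mu a : ℂ) ^ 2 = 2 * ∑ i, (lam i : ℂ) ^ 2 + 2 * ∑ j, (mu j : ℂ) ^ 2 := by
  rw [Fintype.sum_sum_type, Fintype.sum_sum_type, Fintype.sum_sum_type]
  simp only [ex, Int.cast_neg, neg_sq]
  ring

theorem sum_ex_hR (lam : Fin (l + 1) → ℤ) (mu : Fin k → ℤ) :
    ∑ a, (ex lam mu a : ℂ) * hR l k a = -2 * ∑ i, (lam i : ℂ) * (2 * ((l : ℂ) - (i : ℕ)) + 1) -
      2 * ∑ j, (mu j : ℂ) := by
  rw [Fintype.sum_sum_type, Fintype.sum_sum_type, Fintype.sum_sum_type]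
  simp only [ex, hR, Int.cast_neg, neg_mul, mul_neg, mul_one, Finset.sum_neg_distrib]
  ring

theorem half_int (n : ℕ) : (((n * (n + 1) / 2 : ℕ) : ℤ) : ℂ) = (n : ℂ) * (n + 1) / 2 := by
  have h : 2 ∣ n * (n + 1) := (Nat.even_mul_succ_self n).two_dvd
  rw [Int.cast_natCast, Nat.cast_div h (by norm_num)]
  push_cast
  rfl

theorem casimir_eq (Y : HookDiagram l k) : ((GaiottoOsp.casimir Y : ℤ) : ℂ) =
    ∑ i : Fin (l + 1), (lamY Y i : ℂ) * (lamY Y i + (2 * ((l : ℂ) - (i : ℕ)) + 1)) +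
      ∑ j : Fin k, ((mun (leg Y) (arm Y) j : ℤ) : ℂ) * ((leg Y j : ℂ) - arm Y j - 1) := by
  have h := JContent.content_sum Y
  have e : GaiottoOsp.casimir Y = ∑ x ∈ Y.1.cells, 2 * ((l : ℤ) + 1 + x.1 - x.2) := rfl
  rw [e, h]
  push_cast
  congr 1
  · refine Finset.sum_congr rfl fun i _ => ?_
    unfold lamY
    push_cast
    ring
  · refine Finset.sum_congr rfl fun j _ => ?_
    unfold mun
    push_cast
    ring

theorem key_eq {c : ℂ} (hc : c ≠ 0) (Y : HookDiagram l k) :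
    (∑ j, (-((arm Y j : ℂ) + 1) * (2 * ((leg Y j + arm Y j : ℕ) : ℂ) / c) +
      (arm Y j : ℂ) * (arm Y j + 1) / 2)) +
      (GaiottoOsp.chiRot c (tPoint (lamY Y) (mun (leg Y) (arm Y)) : Matrix (Idx l k) (Idx l k) F) -
        ((GaiottoOsp.casimir Y : ℤ) : ℂ) / c) =
      ((∑ j, ((arm Y j * (arm Y j + 1) / 2 : ℕ) : ℤ) : ℤ) : ℂ) := by
  rw [chiRot_eq, sum_ex_sq, sum_ex_hR, casimir_eq, Int.cast_sum]
  simp only [half_int]
  have e1 : ∀ j : Fin k, ((mun (leg Y) (arm Y) j : ℤ) : ℂ) = (leg Y j : ℂ) + arm Y j := by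
    intro j
    unfold mun
    push_cast
    rfl
  simp only [e1]
  rw [Finset.sum_add_distrib]
  have e2 : ∑ j, -((arm Y j : ℂ) + 1) * (2 * ((leg Y j + arm Y j : ℕ) : ℂ) / c) =
      c⁻¹ * ∑ j, -2 * ((arm Y j : ℂ) + 1) * ((leg Y j : ℂ) + arm Y j) := by
    rw [Finset.mul_sum]
    refine Finset.sum_congr rfl fun j _ => ?_
    push_cast
    field_simp
  have e3 : ∑ i : Fin (l + 1), (lamY Y i : ℂ) * (lamY Y i + (2 * ((l : ℂ) - (i : ℕ)) + 1)) =
      ∑ i, (lamY Y i : ℂ) ^ 2 + ∑ i, (lamY Y i : ℂ) * (2 * ((l : ℂ) - (i : ℕ)) + 1) := by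
    rw [← Finset.sum_add_distrib]
    refine Finset.sum_congr rfl fun i _ => ?_
    ring
  have e4 : ∑ j : Fin k, ((leg Y j : ℂ) + arm Y j) * ((leg Y j : ℂ) - arm Y j - 1) =
      ∑ j, ((leg Y j : ℂ) + arm Y j) ^ 2 + ∑ j, ((leg Y j : ℂ) + arm Y j) +
        ∑ j, -2 * ((arm Y j : ℂ) + 1) * ((leg Y j : ℂ) + arm Y j) := by
    rw [← Finset.sum_add_distrib, ← Finset.sum_add_distrib]
    refine Finset.sum_congr rfl fun j _ => ?_
    ring
  rw [e2, e3, e4]
  field_simp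
  ring

theorem twist_int {W : WeylModule k} (hW : W.IsSimple) {R : W.M → W.M} (hR : JRot.IsRot W R)
    {c : ℂ} {hc : ∀ q : ℚ, (q : ℂ) ≠ c} (Y : HookDiagram l k) {v : W.M} (h0 : v ≠ 0)
    (hv : IsVac (tyOf c hc (leg Y) (arm Y)) W v) (m : W.M) :
    m ∈ Submodule.span ℂ {u : W.M | ∃ d : ℤ, R u + (GaiottoOsp.chiRot c (tPoint (lamY Y)
      (mun (leg Y) (arm Y)) : Matrix (Idx l k) (Idx l k) F) -
        ((GaiottoOsp.casimir Y : ℤ) : ℂ) / c) • u = (d : ℂ) • u} := by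
  have h3 := JRot.rot_vac hR (dom_of_hook Y).zero hv
  have hgen : ∀ Z : Submodule ℂ W.M, (∀ x, ∀ m ∈ Z, W.a x m ∈ Z) → v ∈ Z → Z = ⊤ := by
    intro Z hZ hvZ
    rcases hW.2 Z hZ with h | h
    · rw [h] at hvZ
      exact absurd ((Submodule.mem_bot ℂ).1 hvZ) h0
    · exact h
  have h4 := JRot.rot_diag hR h3 hgen
  refine Submodule.span_mono ?_ (h4 m)
  rintro u ⟨d, hd⟩
  have key := key_eq (ne_zero_of_irr hc) Y
  refine ⟨d + ∑ j, ((arm Y j * (arm Y j + 1) / 2 : ℕ) : ℤ), ?_⟩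
  rw [hd, ← add_smul, Int.cast_add, ← key]
  congr 1
  ring

theorem hpt_eq (Y : GaiottoOsp.HookDiagram l k) :
    (GaiottoOsp.tPoint (fun i => (Y.1.colLen i : ℤ))
      (fun j => (GaiottoOsp.arm Y j + GaiottoOsp.leg Y j : ℤ)) :
        Matrix (GaiottoOsp.Idx l k) (GaiottoOsp.Idx l k) GaiottoOsp.F) =
      tPoint (lamY (Y : HookDiagram l k)) (mun (leg (Y : HookDiagram l k))
        (arm (Y : HookDiagram l k))) := by
  change tPoint _ _ = tPoint _ _
  congr 1
  funext j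
  unfold mun
  push_cast
  exact add_comm _ _

theorem twist_main (l k : ℕ) (c : ℂ) (hc : ∀ q : ℚ, (q : ℂ) ≠ c) (Y : GaiottoOsp.HookDiagram l k)
    (P : GaiottoOsp.SimplePair c l k)
    (hg : P.g = GaiottoOsp.tPoint (fun i => (Y.1.colLen i : ℤ))
      (fun j => (GaiottoOsp.arm Y j + GaiottoOsp.leg Y j : ℤ)))
    (v : P.W.M) (hv : GaiottoOsp.IsVacuum c Y P.W v) :
    ∃ R, GaiottoOsp.IsRotation P.W R ∧
      (∀ x m, R (P.W.act x m) - P.W.act x (R m) = P.W.act (GaiottoOsp.rot x) m) ∧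
      GaiottoOsp.IntegrallyDiagonalisable fun m =>
        R m + (GaiottoOsp.chiRot c P.g - GaiottoOsp.casimir Y / c) • m := by
  obtain ⟨R, hR⟩ := exists_rot (toW P.W)
  have hv' : IsVac (tyOf c hc (leg (Y : HookDiagram l k)) (arm (Y : HookDiagram l k))) (toW P.W) v := by
    refine ⟨fun x hx => hv.lattice x ((inLat_iff hc _ _).1 hx), fun j hj => ?_⟩
    have h1 := hv.eigen j hj
    have e : (tyOf c hc (leg (Y : HookDiagram l k)) (arm (Y : HookDiagram l k))).s j =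
        2 * (GaiottoOsp.arm Y j + GaiottoOsp.leg Y j : ℂ) / c := by
      change 2 * ((leg (Y : HookDiagram l k) j + arm (Y : HookDiagram l k) j : ℕ) : ℂ) / c = _
      push_cast
      rw [add_comm]
      rfl
    rw [e]
    exact h1
  have h := twist_int (simple_toW P.simple) hR (Y : HookDiagram l k) (v := v) hv.ne_zero hv'
  rw [hg, hpt_eq]
  exact ⟨R, hR, fun x m => rot_comm hR x m, h⟩

end Pool.Agent.H143_GC.Twist
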