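import Pool.Agent.H143_GC.Simple3

/-! The types of vacuum vectors which occur. -/

noncomputable section

open Matrix

namespace Pool.Agent.H143_GC

variable {k : ℕ}

theorem ne_zero_of_irr {c : ℂ} (hc : ∀ q : ℚ, (q : ℂ) ≠ c) : c ≠ 0 := fun h =>
  hc 0 (by rw [h, Rat.cast_zero])

theorem irr_div {c : ℂ} (hc : ∀ q : ℚ, (q : ℂ) ≠ c) {a : ℕ} (ha : a ≠ 0) (n : ℤ) :
    2 * (a : ℂ) / c ≠ n := by
  intro h
  have hc0 := ne_zero_of_irr hc
  rw [div_eq_iff hc0] at h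
  have hn : (n : ℂ) ≠ 0 := by
    intro hn
    rw [hn, zero_mul] at h
    have : (a : ℂ) ≠ 0 := by exact_mod_cast ha
    exact mul_ne_zero two_ne_zero this h
  refine hc (2 * a / n) ?_
  push_cast
  rw [div_eq_iff hn, h, mul_comm]

/-- The type of the vacuum vector given by the numbers `kap` and `nu`. -/
def tyOf (c : ℂ) (hc : ∀ q : ℚ, (q : ℂ) ≠ c) (kap nu : Fin k → ℕ) : Ty k where
  nu j := nu j
  sp j := kap j ≠ 0
  s j := 2 * ((kap j + nu j : ℕ) : ℂ) / c
  hs j hj n := irr_div hc (by omega) n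

end Pool.Agent.H143_GC
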