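import Pool.Agent.H143_GC.Exist
import Pool.Agent.H143_GC.JQ
import Pool.Agent.H143_GC.JG
import Pool.Agent.H143_GC.JC

/-! Uniqueness of the label. -/

set_option linter.unusedSectionVars false

noncomputable section

open Matrix

open scoped Classical

namespace Pool.Agent.H143_GC

variable {l k : ℕ}

theorem pow_comm_scalar {M : Type} [AddCommGroup M] [Module ℂ M] {A B : Module.End ℂ M} {α : ℂ}
    (h : ∀ m, A (B m) - B (A m) = α • m) (n : ℕ) (m : M) :
    (A ^ n) (B (A m)) = B ((A ^ (n + 1)) m) + ((n : ℂ) * α) • (A ^ n) m := by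
  induction n with
  | zero => simp
  | succ n ih =>
    rw [pow_succ', Module.End.mul_apply, ih, map_add, map_smul]
    have h1 := h ((A ^ (n + 1)) m)
    rw [sub_eq_iff_eq_add] at h1
    rw [h1, ← Module.End.mul_apply A, ← pow_succ', ← Module.End.mul_apply A, ← pow_succ']
    push_cast
    module

theorem locNil_surj {M : Type} [AddCommGroup M] [Module ℂ M] {A B : Module.End ℂ M} {α : ℂ}
    (hα : α ≠ 0) (hA : LocNil A) (hB : Function.Surjective B)
    (h : ∀ m, A (B m) - B (A m) = α • m) (m : M) : m = 0 := by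
  by_contra hm
  -- a nonzero vector killed by `A`
  obtain ⟨m₂, hm2, hAm2⟩ : ∃ m₂ : M, m₂ ≠ 0 ∧ A m₂ = 0 := by
    have hex := hA m
    have h1 := Nat.find_spec hex
    have h2 : Nat.find hex ≠ 0 := fun h0 => by
      rw [h0, pow_zero, Module.End.one_apply] at h1
      exact hm h1
    obtain ⟨n, hn⟩ := Nat.exists_eq_succ_of_ne_zero h2
    refine ⟨(A ^ n) m, Nat.find_min hex (by omega), ?_⟩
    rw [← Module.End.mul_apply, ← pow_succ']
    rw [hn] at h1
    exact h1
  obtain ⟨m₁, rfl⟩ := hB m₂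
  have hm1 : m₁ ≠ 0 := fun h0 => hm2 (by rw [h0, map_zero])
  have h3 := h m₁
  rw [hAm2, zero_sub] at h3
  have hex := hA m₁
  have h1 := Nat.find_spec hex
  have h2 : Nat.find hex ≠ 0 := fun h0 => by
    rw [h0, pow_zero, Module.End.one_apply] at h1
    exact hm1 h1
  obtain ⟨n, hn⟩ := Nat.exists_eq_succ_of_ne_zero h2
  have h4 : (A ^ n) m₁ ≠ 0 := Nat.find_min hex (by omega)
  rw [hn] at h1
  have h5 := pow_comm_scalar h n m₁
  rw [h1, map_zero, zero_add] at h5
  have h6 : (A ^ n) (-(B (A m₁))) = α • (A ^ n) m₁ := by rw [h3, map_smul]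
  rw [map_neg, h5] at h6
  have h7 : (α * (n + 1)) • (A ^ n) m₁ = 0 := by
    have : (α * (n + 1)) • (A ^ n) m₁ = α • (A ^ n) m₁ + ((n : ℂ) * α) • (A ^ n) m₁ := by module
    rw [this, ← h6]
    abel
  have h8 : α * (n + 1) ≠ 0 := mul_ne_zero hα (by exact_mod_cast Nat.succ_ne_zero n)
  exact h4 ((smul_eq_zero.1 h7).resolve_left h8)

section

variable {τ : Ty k} {W : WeylModule k} {m₀ : W.M}

/-- the special letters act surjectively -/
theorem special_surj (h0 : IsVac τ W m₀)
    (hgen : ∀ Z : Submodule ℂ W.M, (∀ x, ∀ m ∈ Z, W.a x m ∈ Z) → m₀ ∈ Z → Z = ⊤) {j : Fin k}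
    (hj : τ.sp j) : Function.Surjective (yy τ W j) ∧ Function.Surjective (ee τ W j) := by
  set S := Submodule.span ℂ {v : W.M | ∃ n : ℤ, yy τ W j (ee τ W j v) = (τ.s j + n) • v} with hS
  have key : ∀ x, ∀ m ∈ S, W.a x m ∈ S := by
    intro x m hm
    induction hm using Submodule.span_induction with
    | zero => rw [map_zero]; exact Submodule.zero_mem _
    | add m m' _ _ h h' => rw [map_add]; exact Submodule.add_mem _ h h'
    | smul r m _ h => rw [map_smul]; exact Submodule.smul_mem _ _ h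
    | mem m hm =>
      obtain ⟨n, hn⟩ := hm
      set p := omr k x (bv (Sum.inr j) (-1 - τ.nu j)) with hp
      set q := omr k x (bv (Sum.inl j) (τ.nu j)) with hq
      -- remove the special components
      have e1 : omr k (bv (Sum.inl j) (τ.nu j)) (bv (Sum.inr j) (-1 - τ.nu j)) = 1 := by
        rw [omr_bv_inr]
        unfold bv
        rw [Pi.single_eq_same, coeff_tp, if_pos (by ring)]
      have e2 : omr k (bv (Sum.inr j) (-1 - τ.nu j)) (bv (Sum.inl j) (τ.nu j)) = -1 := by
        rw [omr_swap, e1]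
      have hx : x = (x - p • bv (Sum.inl j) (τ.nu j) + q • bv (Sum.inr j) (-1 - τ.nu j)) +
          p • bv (Sum.inl j) (τ.nu j) - q • bv (Sum.inr j) (-1 - τ.nu j) := by abel
      set x' := x - p • bv (Sum.inl j) (τ.nu j) + q • bv (Sum.inr j) (-1 - τ.nu j) with hx'
      have o1 : omr k x' (bv (Sum.inr j) (-1 - τ.nu j)) = 0 := by
        rw [hx', map_add, map_sub, map_smul, map_smul, LinearMap.add_apply, LinearMap.sub_apply,
          LinearMap.smul_apply, LinearMap.smul_apply, e1, omr_same', ← hp]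
        simp
      have o2 : omr k x' (bv (Sum.inl j) (τ.nu j)) = 0 := by
        rw [hx', map_add, map_sub, map_smul, map_smul, LinearMap.add_apply, LinearMap.sub_apply,
          LinearMap.smul_apply, LinearMap.smul_apply, e2, omr_same, ← hq]
        simp
      rw [hx, map_sub, map_add, map_smul, map_smul, LinearMap.sub_apply, LinearMap.add_apply,
        LinearMap.smul_apply, LinearMap.smul_apply]
      refine Submodule.sub_mem _ (Submodule.add_mem _ ?_ (Submodule.smul_mem _ _ ?_))
        (Submodule.smul_mem _ _ ?_)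
      · refine Submodule.subset_span ⟨n, ?_⟩
        have c1 : ∀ z : W.M, ee τ W j (W.a x' z) = W.a x' (ee τ W j z) := by
          intro z
          unfold ee
          rw [a_comm, omr_swap, o2, neg_zero, zero_smul, add_zero]
        have c2 : ∀ z : W.M, yy τ W j (W.a x' z) = W.a x' (yy τ W j z) := by
          intro z
          unfold yy
          rw [a_comm, omr_swap, o1, neg_zero, zero_smul, add_zero]
        rw [c1, c2, hn, map_smul]
      · refine Submodule.subset_span ⟨n - 1, ?_⟩
        have := ee_pow_wt j hn 1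
        rw [pow_one] at this
        change yy τ W j (ee τ W j (ee τ W j m)) = _ • ee τ W j m
        rw [this]
        push_cast
        congr 1
        ring
      · refine Submodule.subset_span ⟨n + 1, ?_⟩
        have := yy_pow_wt j hn 1
        rw [pow_one] at this
        change yy τ W j (ee τ W j (yy τ W j m)) = _ • yy τ W j m
        rw [this]
        push_cast
        congr 1
        ring
  have hm₀ : m₀ ∈ S := Submodule.subset_span ⟨0, by
    have := h0.eig j hj
    change yy τ W j (ee τ W j m₀) = _ at this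
    rw [this]; simp⟩
  have htop := hgen S key hm₀
  have hne : ∀ n : ℤ, τ.s j + n ≠ 0 := fun n h => τ.hs j hj (-n) (by
    push_cast; linear_combination h)
  constructor
  · have h1 : S ≤ LinearMap.range (yy τ W j) := by
      rw [hS, Submodule.span_le]
      rintro v ⟨n, hn⟩
      refine ⟨(τ.s j + n)⁻¹ • ee τ W j v, ?_⟩
      rw [map_smul, hn, smul_smul, inv_mul_cancel₀ (hne n), one_smul]
    intro v
    exact h1 (by rw [htop]; trivial)
  · have h1 : S ≤ LinearMap.range (ee τ W j) := by
      rw [hS, Submodule.span_le]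
      rintro v ⟨n, hn⟩
      refine ⟨(τ.s j + (n + 1 : ℤ))⁻¹ • yy τ W j v, ?_⟩
      have h2 : (τ.s j + n) • v + v = (τ.s j + (n + 1 : ℤ)) • v := by
        push_cast; module
      rw [map_smul, ee_yy, hn, h2, smul_smul, inv_mul_cancel₀ (hne (n + 1)), one_smul]
    intro v
    exact h1 (by rw [htop]; trivial)

/-- The lattice of the vacuum vector is determined by the module. -/
theorem L_of_locNil (hm : m₀ ≠ 0) (h0 : IsVac τ W m₀)
    (hgen : ∀ Z : Submodule ℂ W.M, (∀ x, ∀ m ∈ Z, W.a x m ∈ Z) → m₀ ∈ Z → Z = ⊤) (y : V k) (z : ℂ)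
    (hy : LocNil (W.a y + z • (1 : Module.End ℂ W.M))) : τ.L y := by
  have hW := simple_of_vac h0 hm hgen
  have hL : ∀ x, τ.L x → LocNil (W.a x) := by
    intro x hx
    rcases JQ.dich hW x with h | h
    · exact h
    · exact absurd (h (by rw [h0.low x hx, map_zero])) hm
  have hcomm : ∀ x m, (W.a y + z • (1 : Module.End ℂ W.M)) (W.a x m) -
      W.a x ((W.a y + z • (1 : Module.End ℂ W.M)) m) = omr k y x • m := by
    intro x m
    rw [LinearMap.add_apply, LinearMap.add_apply, LinearMap.smul_apply, LinearMap.smul_apply,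
      Module.End.one_apply, Module.End.one_apply, map_add, map_smul, a_comm]
    abel
  have h1 : ∀ x, τ.L x → omr k y x = 0 := by
    intro x hx
    by_contra hne
    exact hm (JQ.locNil_pair hne hy (hL x hx) (hcomm x) m₀)
  have h2 : ∀ j, τ.sp j → omr k y (bv (Sum.inl j) (τ.nu j)) = 0 ∧
      omr k y (bv (Sum.inr j) (-1 - τ.nu j)) = 0 := by
    intro j hj
    obtain ⟨s1, s2⟩ := special_surj h0 hgen hj
    constructor
    · by_contra hne
      exact hm (locNil_surj hne hy s2 (hcomm _) m₀)
    · by_contra hne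
      exact hm (locNil_surj hne hy s1 (hcomm _) m₀)
  intro j
  refine ⟨fun p hp => ?_, fun p hp => ?_⟩
  · have e : omr k y (bv (Sum.inr j) (-1 - p)) = (y (Sum.inl j)).coeff p := by
      rw [omr_bv_inr, sub_sub_cancel]
    rw [← e]
    by_cases hs : τ.sp j
    · rw [if_pos hs] at hp
      rcases lt_or_eq_of_le (show p ≤ τ.nu j by omega) with h | h
      · exact h1 _ (by rw [Ty.L_bv_inr]; omega)
      · rw [h]; exact (h2 j hs).2
    · rw [if_neg hs] at hp
      exact h1 _ (by rw [Ty.L_bv_inr]; omega)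
  · have e : omr k y (bv (Sum.inl j) (-1 - p)) = -(y (Sum.inr j)).coeff p := by
      rw [omr_bv_inl, sub_sub_cancel]
    have h3 : omr k y (bv (Sum.inl j) (-1 - p)) = 0 := by
      by_cases hs : τ.sp j
      · rcases lt_or_eq_of_le (show p ≤ -1 - τ.nu j by omega) with h | h
        · exact h1 _ (by rw [Ty.L_bv_inl, if_pos hs]; omega)
        · rw [h, sub_sub_cancel]; exact (h2 j hs).1
      · exact h1 _ (by rw [Ty.L_bv_inl, if_neg hs]; omega)
    rw [h3] at e
    exact neg_eq_zero.1 e.symm

theorem locNil_iff (hm : m₀ ≠ 0) (h0 : IsVac τ W m₀)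
    (hgen : ∀ Z : Submodule ℂ W.M, (∀ x, ∀ m ∈ Z, W.a x m ∈ Z) → m₀ ∈ Z → Z = ⊤) (y : V k) :
    LocNil (W.a y) ↔ τ.L y := by
  constructor
  · intro h
    refine L_of_locNil hm h0 hgen y 0 ?_
    rwa [zero_smul, add_zero]
  · intro hy
    rcases JQ.dich (simple_of_vac h0 hm hgen) y with h | h
    · exact h
    · exact absurd (h (by rw [h0.low y hy, map_zero])) hm

end

section

variable {c : ℂ} {hc : ∀ q : ℚ, (q : ℂ) ≠ c} {lam lam' : Fin (l + 1) → ℤ}
  {kap nu kap' nu' : Fin k → ℕ}

theorem Dom.mu_anti (hd : Dom lam kap nu) : Antitone fun j => kap j + nu j := by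
  intro i j hij
  rcases eq_or_lt_of_le hij with h | h
  · rw [h]
  · by_cases hj : kap j = 0
    · have := hd.zero j hj
      change kap j + nu j ≤ _
      omega
    · have := hd.strict i j h hj
      change kap j + nu j ≤ kap i + nu i
      omega

/-- the integral version of the exponents of the lattice -/
def Lbn (kap nu : Fin k → ℕ) (j : Fin k) : ℕ := if kap j = 0 then nu j else nu j + 1

theorem Dom.Lbn_anti (hd : Dom lam kap nu) : Antitone (Lbn kap nu) := by
  intro i j hij
  rcases eq_or_lt_of_le hij with h | h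
  · rw [h]
  · unfold Lbn
    by_cases hj : kap j = 0
    · have := hd.zero j hj
      rw [if_pos hj]
      omega
    · have := hd.strict i j h hj
      rw [if_neg hj, if_neg (by omega)]
      omega

theorem L_int_iff {x : V k} (hx : ∀ i, IsInt (x i)) : (tyOf c hc kap nu).L x ↔
    ∀ i, ∀ p : ℤ, p < Sum.elim (Lbn kap nu) (fun _ : Fin k => 0) i → (x i).coeff p = 0 := by
  rw [L_iff]
  have e : ∀ j, Lb kap nu (Sum.inl j) = (Lbn kap nu j : ℕ) := by
    intro j
    simp only [Lb, Lbn]
    by_cases hj : kap j = 0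
    · rw [if_pos hj, if_neg (by omega)]
    · rw [if_neg hj, if_pos hj]
      push_cast
      rfl
  constructor
  · intro h i p hp
    rcases i with j | j
    · exact h (Sum.inl j) p (by rw [e]; exact hp)
    · exact hx _ p (by simpa using hp)
  · intro h i
    rcases i with j | j
    · intro p hp
      rw [e] at hp
      exact h (Sum.inl j) p hp
    · exact OG.mono (hx (Sum.inr j)) (by simp only [Lb]; omega)

theorem label_unique {W W' : WeylModule k} {m₀ : W.M} {m₀' : W'.M} (hd : Dom lam kap nu)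
    (hd' : Dom lam' kap' nu') (hm : m₀ ≠ 0) (hm' : m₀' ≠ 0) (h0 : IsVac (tyOf c hc kap nu) W m₀)
    (h0' : IsVac (tyOf c hc kap' nu') W' m₀')
    (hgen : ∀ Z : Submodule ℂ W.M, (∀ x, ∀ m ∈ Z, W.a x m ∈ Z) → m₀ ∈ Z → Z = ⊤)
    (hgen' : ∀ Z : Submodule ℂ W'.M, (∀ x, ∀ m ∈ Z, W'.a x m ∈ Z) → m₀' ∈ Z → Z = ⊤)
    {γ h : Matrix (Idx l k) (Idx l k) F} (hγ : InGamma γ) (hh : InGO h)
    (H : (tPoint lam' (mun kap' nu') : Matrix (Idx l k) (Idx l k) F) =
      γ * tPoint lam (mun kap nu) * h)
    (φ : W.M ≃ₗ[ℂ] W'.M)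
    (hφ : ∀ x m, φ (W.a x m) = W'.a (midBlock γ *ᵥ x) (φ m) +
      res (om (heisV γ) (midBlock γ *ᵥ x)) • φ m) :
    lam = lam' ∧ kap = kap' ∧ nu = nu' := by
  obtain ⟨h1, h2⟩ := JC.coset_unique hd.mu_anti hd'.mu_anti hγ hh H
  have hconj : ∀ (x : V k) (n : ℕ) (m : W.M),
      ((W'.a (midBlock γ *ᵥ x) + res (om (heisV γ) (midBlock γ *ᵥ x)) •
        (1 : Module.End ℂ W'.M)) ^ n) (φ m) = φ ((W.a x ^ n) m) := by
    intro x n
    induction n with
    | zero => intro m; simp
    | succ n ih =>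
      intro m
      rw [pow_succ', Module.End.mul_apply, ih, pow_succ', Module.End.mul_apply, hφ]
      rfl
  have hconj2 : ∀ (x : V k) (n : ℕ) (m : W.M),
      ((W'.a (midBlock γ *ᵥ x)) ^ n) (φ m) =
        φ (((W.a x + (-res (om (heisV γ) (midBlock γ *ᵥ x))) • (1 : Module.End ℂ W.M)) ^ n) m) := by
    intro x n
    induction n with
    | zero => intro m; simp
    | succ n ih =>
      intro m
      rw [pow_succ', Module.End.mul_apply, ih, pow_succ', Module.End.mul_apply,
        LinearMap.add_apply, LinearMap.smul_apply, Module.End.one_apply, map_add, map_smul, hφ]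
      module
  have key : ∀ x, (tyOf c hc kap nu).L x ↔ (tyOf c hc kap' nu').L (midBlock γ *ᵥ x) := by
    intro x
    constructor
    · intro hx
      refine L_of_locNil hm' h0' hgen' _ (res (om (heisV γ) (midBlock γ *ᵥ x))) ?_
      intro m'
      obtain ⟨m, rfl⟩ := φ.surjective m'
      obtain ⟨n, hn⟩ := (locNil_iff hm h0 hgen x).2 hx m
      exact ⟨n, by rw [hconj, hn, map_zero]⟩
    · intro hx
      refine L_of_locNil hm h0 hgen _ (-res (om (heisV γ) (midBlock γ *ᵥ x))) ?_
      intro m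
      obtain ⟨n, hn⟩ := (locNil_iff hm' h0' hgen' _).2 hx (φ m)
      rw [hconj2] at hn
      exact ⟨n, φ.injective (by rw [hn, map_zero])⟩
  have hint : ∀ (x : V k), (∀ i, IsInt (x i)) → ∀ i, IsInt ((midBlock γ *ᵥ x) i) := fun x hx i =>
    OG.sum fun j _ => IsInt.mul (JG.Gamma_mid_int hγ i j) (hx j)
  have h3 := JC.antitone_unique hd.Lbn_anti hd'.Lbn_anti fun s =>
    lattice_unique (midBlock γ) (midBlock γ⁻¹) (JG.Gamma_mid_inv hγ).2 (JG.Gamma_mid_int hγ)
      (JG.Gamma_mid_int (JG.InGamma.inv hγ)) _ _ (fun x hx => by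
        rw [← L_int_iff (c := c) (hc := hc) hx, key, L_int_iff (hint x hx)]) s
  have h4 : ∀ j, kap j = kap' j ∧ nu j = nu' j := by
    intro j
    have h5 := congrFun h3 j
    have h6 := congrFun h2 j
    have h7 := hd.zero j
    have h8 := hd'.zero j
    simp only [Lbn] at h5 h6
    split_ifs at h5 <;> omega
  exact ⟨h1, funext fun j => (h4 j).1, funext fun j => (h4 j).2⟩

end

end Pool.Agent.H143_GC
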