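import Pool.Agent.H143_GC.Laur

/-! The Tate space `F^{2k}` : the symplectic form, the basis, expansions. -/

noncomputable section

open Matrix

namespace Pool.Agent.H143_GC

variable {k : ℕ}

/-- The Tate space `F^{2k}`. -/
abbrev V (k : ℕ) : Type := Fin k ⊕ Fin k → F

/-- The form `Res ω(x, y)`, as a bilinear map. -/
def omr (k : ℕ) : V k →ₗ[ℂ] V k →ₗ[ℂ] ℂ :=
  LinearMap.mk₂ ℂ (fun x y => res (om x y))
    (fun x x' y => by
      rw [← res_add]; unfold om; rw [← Finset.sum_add_distrib]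
      congr 1; refine Finset.sum_congr rfl fun i _ => ?_
      simp only [Pi.add_apply]; ring)
    (fun c x y => by
      rw [smul_eq_mul, ← res_smul]; unfold om; rw [Finset.smul_sum]
      congr 1; refine Finset.sum_congr rfl fun i _ => ?_
      simp only [Pi.smul_apply, smul_mul_assoc, smul_sub])
    (fun x y y' => by
      rw [← res_add]; unfold om; rw [← Finset.sum_add_distrib]
      congr 1; refine Finset.sum_congr rfl fun i _ => ?_
      simp only [Pi.add_apply]; ring)
    (fun c x y => by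
      rw [smul_eq_mul, ← res_smul]; unfold om; rw [Finset.smul_sum]
      congr 1; refine Finset.sum_congr rfl fun i _ => ?_
      simp only [Pi.smul_apply, mul_smul_comm, smul_sub])

theorem omr_apply (x y : V k) : omr k x y = res (om x y) := rfl

theorem om_swap (x y : V k) : om x y = -om y x := by
  unfold om
  rw [← Finset.sum_neg_distrib]
  refine Finset.sum_congr rfl fun i _ => ?_
  ring

theorem omr_swap (x y : V k) : omr k x y = -omr k y x := by
  rw [omr_apply, om_swap, res_neg, omr_apply]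

/-- All the components have order at least `N`. -/
def OGV (N : ℤ) (x : V k) : Prop := ∀ i, OG N (x i)

theorem OGV.mono {N N' : ℤ} {x : V k} (h : OGV N x) (h' : N' ≤ N) : OGV N' x :=
  fun i => (h i).mono h'

theorem OGV.add {N : ℤ} {x y : V k} (hx : OGV N x) (hy : OGV N y) : OGV N (x + y) :=
  fun i => (hx i).add (hy i)

theorem OGV.neg {N : ℤ} {x : V k} (hx : OGV N x) : OGV N (-x) := fun i => (hx i).neg

theorem OGV.sub {N : ℤ} {x y : V k} (hx : OGV N x) (hy : OGV N y) : OGV N (x - y) :=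
  fun i => (hx i).sub (hy i)

theorem OGV.smul {N : ℤ} {x : V k} (c : ℂ) (hx : OGV N x) : OGV N (c • x) :=
  fun i => (hx i).smul c

theorem OGV.zero (N : ℤ) : OGV N (0 : V k) := fun _ => OG.zero N

theorem OGV.sum {ι : Type*} {N : ℤ} {s : Finset ι} {f : ι → V k} (h : ∀ i ∈ s, OGV N (f i)) :
    OGV N (∑ i ∈ s, f i) := fun j => by
  rw [Finset.sum_apply]
  exact OG.sum fun i hi => h i hi j

theorem exists_OGV (x : V k) : ∃ N : ℕ, OGV (-N) x := by
  choose f hf using fun i => exists_OG (x i)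
  refine ⟨∑ i, (f i).natAbs, fun i => (hf i).mono ?_⟩
  have : (f i).natAbs ≤ ∑ i, (f i).natAbs :=
    Finset.single_le_sum (f := fun i => (f i).natAbs) (fun _ _ => Nat.zero_le _)
      (Finset.mem_univ i)
  omega

theorem omr_eq_zero {A B : ℤ} {x y : V k} (hx : OGV A x) (hy : OGV B y) (h : 0 ≤ A + B) :
    omr k x y = 0 := by
  rw [omr_apply]
  refine OG.res (N := A + B) ?_ h
  exact OG.sum fun i _ => ((hx _).mul (hy _)).sub ((hx _).mul (hy _))

/-- The basis vector `t ^ p` at the index `α`. -/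
def bv (α : Fin k ⊕ Fin k) (p : ℤ) : V k := Pi.single α (tp p)

/-- The dual basis vector. -/
def dv (α : Fin k ⊕ Fin k) (p : ℤ) : V k :=
  match α with
  | Sum.inl j => bv (Sum.inr j) (-1 - p)
  | Sum.inr j => -bv (Sum.inl j) (-1 - p)

theorem OGV_bv (α : Fin k ⊕ Fin k) (p : ℤ) : OGV p (bv α p) := fun i => by
  unfold bv
  by_cases h : i = α
  · subst h; rw [Pi.single_eq_same]; exact OG_tp p
  · rw [Pi.single_eq_of_ne h]; exact OG.zero p

theorem OGV_dv (α : Fin k ⊕ Fin k) (p : ℤ) : OGV (-1 - p) (dv α p) := by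
  rcases α with j | j
  · exact OGV_bv _ _
  · exact (OGV_bv _ _).neg

theorem dv_inl (j : Fin k) (p : ℤ) : dv (Sum.inl j) p = bv (Sum.inr j) (-1 - p) := rfl

theorem dv_inr (j : Fin k) (p : ℤ) : dv (Sum.inr j) p = -bv (Sum.inl j) (-1 - p) := rfl

theorem om_single_inr (x : V k) (j : Fin k) (a : F) :
    om x (Pi.single (Sum.inr j) a) = x (Sum.inl j) * a := by
  unfold om
  rw [Finset.sum_eq_single j]
  · rw [Pi.single_eq_same, Pi.single_eq_of_ne (by simp), mul_zero, sub_zero]
  · intro i _ hi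
    rw [Pi.single_eq_of_ne (by simpa using hi), Pi.single_eq_of_ne (by simp), mul_zero, mul_zero,
      sub_zero]
  · intro h; exact absurd (Finset.mem_univ j) h

theorem om_single_inl (x : V k) (j : Fin k) (a : F) :
    om x (Pi.single (Sum.inl j) a) = -(x (Sum.inr j) * a) := by
  unfold om
  rw [Finset.sum_eq_single j]
  · rw [Pi.single_eq_same, Pi.single_eq_of_ne (by simp), mul_zero, zero_sub]
  · intro i _ hi
    rw [Pi.single_eq_of_ne (by simp), Pi.single_eq_of_ne (by simpa using hi), mul_zero, mul_zero,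
      sub_zero]
  · intro h; exact absurd (Finset.mem_univ j) h

theorem omr_bv_inr (x : V k) (j : Fin k) (p : ℤ) :
    omr k x (bv (Sum.inr j) p) = (x (Sum.inl j)).coeff (-1 - p) := by
  rw [omr_apply, bv, om_single_inr, res, coeff_mul_tp]

theorem omr_bv_inl (x : V k) (j : Fin k) (p : ℤ) :
    omr k x (bv (Sum.inl j) p) = -(x (Sum.inr j)).coeff (-1 - p) := by
  rw [omr_apply, bv, om_single_inl, res_neg, res, coeff_mul_tp]

theorem omr_dv_right (x : V k) (α : Fin k ⊕ Fin k) (p : ℤ) :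
    omr k x (dv α p) = (x α).coeff p := by
  rcases α with j | j
  · rw [dv_inl, omr_bv_inr, sub_sub_cancel]
  · rw [dv_inr, map_neg, omr_bv_inl, neg_neg, sub_sub_cancel]

theorem omr_bv_bv (α β : Fin k ⊕ Fin k) (p q : ℤ) :
    omr k (bv α p) (dv β q) = if α = β ∧ p = q then 1 else 0 := by
  rw [omr_dv_right]
  unfold bv
  by_cases h : α = β
  · subst h
    rw [Pi.single_eq_same, coeff_tp]
    by_cases hp : q = p
    · rw [if_pos hp, if_pos ⟨rfl, hp.symm⟩]
    · rw [if_neg hp, if_neg (fun h => hp h.2.symm)]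
  · rw [Pi.single_eq_of_ne (Ne.symm h), coeff_zero, if_neg (fun h' => h h'.1)]

theorem sum_bv (x : V k) (N : ℕ) (hx : OGV (-N) x) :
    OGV N (x - ∑ α, ∑ p ∈ Finset.Ico (-(N : ℤ)) N, omr k x (dv α p) • bv α p) := by
  intro i q hq
  rw [Pi.sub_apply, coeff_sub, Finset.sum_apply, coeff_sum]
  simp only [Finset.sum_apply, coeff_sum, Pi.smul_apply, coeff_smul, omr_dv_right]
  rw [Finset.sum_eq_single i]
  · by_cases hq' : q < -N
    · rw [hx i q hq', Finset.sum_eq_zero, sub_zero]
      intro p hp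
      rw [Finset.mem_Ico] at hp
      unfold bv
      rw [Pi.single_eq_same, coeff_tp, if_neg (by omega), mul_zero]
    · rw [Finset.sum_eq_single q]
      · unfold bv
        rw [Pi.single_eq_same, coeff_tp, if_pos rfl, mul_one, sub_self]
      · intro p _ hp
        unfold bv
        rw [Pi.single_eq_same, coeff_tp, if_neg (Ne.symm hp), mul_zero]
      · intro h
        exact absurd (Finset.mem_Ico.2 ⟨by omega, hq⟩) h
  · intro α _ hα
    refine Finset.sum_eq_zero fun p _ => ?_
    unfold bv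
    rw [Pi.single_eq_of_ne (Ne.symm hα), coeff_zero, mul_zero]
  · intro h; exact absurd (Finset.mem_univ i) h

/-- Reindexing between the basis and the dual basis. -/
theorem sum_dual {A : Type*} [AddCommGroup A] [Module ℂ A] (B : V k →ₗ[ℂ] V k →ₗ[ℂ] A) (N : ℕ) :
    ∑ α, ∑ p ∈ Finset.Ico (-(N : ℤ)) N, B (bv α p) (dv α p) =
      -∑ α, ∑ p ∈ Finset.Ico (-(N : ℤ)) N, B (dv α p) (bv α p) := by
  rw [Fintype.sum_sum_type, Fintype.sum_sum_type, neg_add, add_comm]
  have key : ∀ f : ℤ → A, ∑ p ∈ Finset.Ico (-(N : ℤ)) N, f p =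
      ∑ p ∈ Finset.Ico (-(N : ℤ)) N, f (-1 - p) := by
    intro f
    refine Finset.sum_nbij' (fun p => -1 - p) (fun p => -1 - p) ?_ ?_ ?_ ?_ ?_
    · intro p hp; rw [Finset.mem_Ico] at hp ⊢; omega
    · intro p hp; rw [Finset.mem_Ico] at hp ⊢; omega
    · intro p _; ring
    · intro p _; ring
    · intro p _; congr 1; ring
  congr 1
  · rw [← Finset.sum_neg_distrib]
    refine Finset.sum_congr rfl fun j _ => ?_
    rw [key, ← Finset.sum_neg_distrib]
    refine Finset.sum_congr rfl fun p _ => ?_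
    change B (bv (Sum.inr j) (-1 - p)) (-bv (Sum.inl j) (-1 - (-1 - p))) =
      -B (bv (Sum.inr j) (-1 - p)) (bv (Sum.inl j) p)
    rw [map_neg, sub_sub_cancel]
  · rw [← Finset.sum_neg_distrib]
    refine Finset.sum_congr rfl fun j _ => ?_
    rw [key, ← Finset.sum_neg_distrib]
    refine Finset.sum_congr rfl fun p _ => ?_
    change B (bv (Sum.inl j) (-1 - p)) (bv (Sum.inr j) (-1 - (-1 - p))) =
      -B (-bv (Sum.inl j) (-1 - p)) (bv (Sum.inr j) p)
    rw [map_neg, LinearMap.neg_apply, neg_neg, sub_sub_cancel]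

theorem sum_dv (x : V k) (N : ℕ) (hx : OGV (-N) x) :
    OGV N (x - ∑ α, ∑ p ∈ Finset.Ico (-(N : ℤ)) N, omr k (bv α p) x • dv α p) := by
  have h := sum_bv x N hx
  have h2 := sum_dual (A := V k) (LinearMap.mk₂ ℂ (fun u v => omr k x u • v)
    (fun u u' v => by rw [map_add, add_smul]) (fun c u v => by rw [map_smul, smul_assoc])
    (fun u v v' => by rw [smul_add]) (fun c u v => by rw [smul_comm])) N
  simp only [LinearMap.mk₂_apply] at h2
  have h3 : ∑ α, ∑ p ∈ Finset.Ico (-(N : ℤ)) N, omr k (bv α p) x • dv α p =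
      ∑ α, ∑ p ∈ Finset.Ico (-(N : ℤ)) N, omr k x (dv α p) • bv α p := by
    rw [← neg_inj, ← h2, ← Finset.sum_neg_distrib]
    refine Finset.sum_congr rfl fun α _ => ?_
    rw [← Finset.sum_neg_distrib]
    refine Finset.sum_congr rfl fun p _ => ?_
    rw [omr_swap, neg_smul, neg_neg]
  rw [h3]
  exact h

end Pool.Agent.H143_GC
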